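import Mathlib

set_option autoImplicit false

namespace Pool.Agent.H18.Choquet

open Set Metric Topology TopologicalSpace Filter

variable {X Y : Type} [MetricSpace X] [MetricSpace Y]

theorem pfin {ι : Type} (u : ι → Set Y) (uo : ∀ i, IsOpen (u i)) :
    ∃ v : ι → Set Y, (∀ i, IsOpen (v i)) ∧ (∀ i, v i ⊆ u i) ∧ (∀ i, u i ⊆ ⋃ k, v k) ∧
      ∀ y, {i | y ∈ v i}.Finite := by
  have hU : IsOpen (⋃ i, u i) := isOpen_iUnion uo
  obtain ⟨v, h1, h2, h3, h4⟩ := precise_refinement (X := ↥(⋃ i, u i))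
    (fun i => Subtype.val ⁻¹' u i) (fun i => (uo i).preimage continuous_subtype_val)
    (eq_univ_of_forall fun y => by obtain ⟨i, hi⟩ := mem_iUnion.1 y.2; exact mem_iUnion.2 ⟨i, hi⟩)
  refine ⟨fun i => Subtype.val '' v i, fun i => hU.isOpenMap_subtype_val _ (h1 i), ?_, ?_, ?_⟩
  · rintro i _ ⟨y, hy, rfl⟩; exact h4 i hy
  · intro i y hy
    have : (⟨y, mem_iUnion.2 ⟨i, hy⟩⟩ : ↥(⋃ i, u i)) ∈ ⋃ k, v k := h2 ▸ mem_univ _
    obtain ⟨k, hk⟩ := mem_iUnion.1 this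
    exact mem_iUnion.2 ⟨k, _, hk, rfl⟩
  · intro y
    by_cases hy : y ∈ ⋃ i, u i
    · refine (h3.point_finite ⟨y, hy⟩).subset ?_
      rintro i ⟨z, hz, rfl⟩; exact hz
    · refine finite_empty.subset ?_
      rintro i ⟨z, -, rfl⟩; exact hy z.2

theorem fin_anti {ι : Type} {F : Set ι} (hF : F.Finite) (P : ι → ℕ → Prop)
    (hP : ∀ i n, P i (n + 1) → P i n) (h : ∀ n, ∃ i ∈ F, P i n) : ∃ i ∈ F, ∀ n, P i n := by
  by_contra hh
  push Not at hh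
  choose! k hk using hh
  obtain ⟨M, hM⟩ := (hF.image k).bddAbove
  obtain ⟨i, hi, h1⟩ := h M
  exact hk i hi (Nat.decreasingInduction (fun n _ => hP i n) h1 (hM ⟨i, hi, rfl⟩))

theorem gd_local {j : X → Y} (hj : IsInducing j) (M : Set X)
    (h : ∀ x ∈ M, ∃ V, IsOpen V ∧ x ∈ V ∧ V ⊆ M ∧ IsGδ (j '' V)) : IsGδ (j '' M) := by
  have h' : ∀ x : M, ∃ (O : Set Y) (G : ℕ → Set Y), IsOpen O ∧ j x ∈ O ∧ (∀ n, IsOpen (G n)) ∧
      j ⁻¹' O ⊆ M ∧ j '' (j ⁻¹' O) = ⋂ n, G n := by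
    intro x
    obtain ⟨V, h1, h2, h3, h4⟩ := h x x.2
    obtain ⟨O, hO, rfl⟩ := hj.isOpen_iff.1 h1
    obtain ⟨G, h5, h6⟩ := h4.eq_iInter_nat
    exact ⟨O, G, hO, h2, h5, h3, h6⟩
  choose O G h1 h2 h3 h4 h5 using h'
  obtain ⟨v, v1, v2, v3, v4⟩ := pfin O h1
  have : j '' M = ⋂ n, ⋃ x, v x ∩ ⋂ k ∈ Iic n, G x k := by
    apply Subset.antisymm
    · rintro _ ⟨m, hm, rfl⟩
      obtain ⟨x, hx⟩ := mem_iUnion.1 (v3 ⟨m, hm⟩ (h2 _))
      have : j m ∈ ⋂ n, G x n := h5 x ▸ ⟨m, v2 x hx, rfl⟩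
      exact mem_iInter.2 fun n => mem_iUnion.2 ⟨x, hx, mem_iInter₂.2 fun k _ => mem_iInter.1 this k⟩
    · intro y hy
      obtain ⟨x, -, hx⟩ := fin_anti (v4 y) (fun x n => y ∈ ⋂ k ∈ Iic n, G x k)
        (fun x n h => mem_iInter₂.2 fun k hk => mem_iInter₂.1 h k (Nat.le_succ_of_le hk))
        fun n => by
          obtain ⟨x, hx⟩ := mem_iUnion.1 (mem_iInter.1 hy n)
          exact ⟨x, hx.1, hx.2⟩
      have : y ∈ j '' (j ⁻¹' O x) := by
        rw [h5]; exact mem_iInter.2 fun n => mem_iInter₂.1 (hx n) n (mem_Iic.2 le_rfl)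
      exact image_mono (h4 x) this
  rw [this]
  exact IsGδ.iInter_of_isOpen fun n => isOpen_iUnion fun x =>
    (v1 x).inter ((finite_Iic n).isOpen_biInter fun k _ => h3 x k)

/-- depth k descendants -/
def D {T : Type} (O : T → Set Y) (ch : ℕ → T → X → T) : ℕ → ℕ → T → Set Y
  | 0, _, τ => O τ
  | k + 1, n, τ => ⋃ x, D O ch k (n + 1) (ch n τ x)

theorem choquet {j : X → Y} (hj : Isometry j) {S : Type} (A : S → Set X) (R : S → S → Prop) (s0 : S)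
    (hA : ∀ s, IsOpen (A s))
    (h1 : ∀ s, ∀ x ∈ A s, ∀ B ∈ 𝓝 x, ∃ t, R s t ∧ x ∈ A t ∧ A t ⊆ B)
    (h2 : ∀ s : ℕ → S, s 0 = s0 → (∀ n, R (s n) (s (n + 1))) → ∃ z, ∀ n, z ∈ A (s n)) :
    IsGδ (j '' A s0) := by
  let T := {τ : S × Set Y // IsOpen τ.2 ∧ j ⁻¹' τ.2 ⊆ A τ.1}
  have hi := hj.isEmbedding.isInducing
  have key : ∀ (n : ℕ) (τ : T), ∃ c : X → T, (∀ x, (c x).1.2 ⊆ τ.1.2) ∧
      (∀ x, ∀ y ∈ (c x).1.2, R τ.1.1 (c x).1.1 ∧ ∀ z ∈ A (c x).1.1, dist (j z) y < 1 / (n + 1 : ℝ)) ∧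
      (∀ x, j x ∈ τ.1.2 → ∃ x', j x ∈ (c x').1.2) ∧ ∀ y, {x | y ∈ (c x).1.2}.Finite := by
    intro n τ
    have h3 : ∀ x : X, ∃ (t : S) (O : Set Y), IsOpen O ∧ j ⁻¹' O ⊆ A t ∧ O ⊆ τ.1.2 ∧
        (j x ∈ τ.1.2 → j x ∈ O) ∧
        ∀ y ∈ O, R τ.1.1 t ∧ ∀ z ∈ A t, dist (j z) y < 1 / (n + 1 : ℝ) := by
      intro x
      by_cases hx : j x ∈ τ.1.2
      · have hp : (0 : ℝ) < 1 / (n + 1 : ℝ) / 2 := by positivity
        obtain ⟨t, a1, a2, a3⟩ := h1 _ x (τ.2.2 hx) _ (ball_mem_nhds x hp)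
        obtain ⟨O, hO, hO'⟩ := hi.isOpen_iff.1 (hA t)
        refine ⟨t, O ∩ τ.1.2 ∩ ball (j x) (1 / (n + 1 : ℝ) / 2), (hO.inter τ.2.1).inter isOpen_ball,
          fun z hz => hO' ▸ hz.1.1, fun y hy => hy.1.2,
          fun _ => ⟨⟨by rw [← hO'] at a2; exact a2, hx⟩, mem_ball_self hp⟩, fun y hy => ⟨a1, fun z hz => ?_⟩⟩
        have b1 := mem_ball.1 (a3 hz)
        have b2 := mem_ball.1 hy.2
        rw [← hj.dist_eq] at b1
        linarith [dist_triangle_right (j z) y (j x)]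
      · exact ⟨s0, ∅, isOpen_empty, empty_subset _, empty_subset _, fun h => absurd h hx,
          fun y hy => hy.elim⟩
    choose t O a1 a2 a3 a4 a5 using h3
    obtain ⟨v, v1, v2, v3, v4⟩ := pfin O a1
    exact ⟨fun x => ⟨(t x, v x), v1 x, (preimage_mono (v2 x)).trans (a2 x)⟩,
      fun x => (v2 x).trans (a3 x), fun x y hy => a5 x y (v2 x hy),
      fun x hx => mem_iUnion.1 (v3 x (a4 x hx)), v4⟩
  choose ch c1 c2 c3 c4 using key
  obtain ⟨O0, hO0, hO0'⟩ := hi.isOpen_iff.1 (hA s0)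
  let τ0 : T := ⟨(s0, O0), hO0, hO0'.le⟩
  let E := D (fun τ : T => τ.1.2) ch
  have d1 : ∀ k n τ, IsOpen (E k n τ) := by
    intro k
    induction k with
    | zero => exact fun n τ => τ.2.1
    | succ k ih => exact fun n τ => isOpen_iUnion fun x => ih _ _
  have d2 : ∀ k n τ, E (k + 1) n τ ⊆ E k n τ := by
    intro k
    induction k with
    | zero => exact fun n τ => iUnion_subset fun x => c1 n τ x
    | succ k ih => exact fun n τ => iUnion_mono fun x => ih _ _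
  have d3 : ∀ k n τ, E k n τ ⊆ τ.1.2 := by
    intro k
    induction k with
    | zero => exact fun n τ => le_rfl
    | succ k ih => exact fun n τ => (d2 k n τ).trans (ih n τ)
  have d4 : ∀ k n (τ : T) x, j x ∈ τ.1.2 → j x ∈ E k n τ := by
    intro k
    induction k with
    | zero => exact fun n τ x h => h
    | succ k ih =>
      intro n τ x h
      obtain ⟨x', h'⟩ := c3 n τ x h
      exact mem_iUnion.2 ⟨x', ih _ _ _ h'⟩
  have : j '' A s0 = ⋂ k, E k 0 τ0 := by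
    apply Subset.antisymm
    · rintro _ ⟨x, hx, rfl⟩
      exact mem_iInter.2 fun k => d4 k 0 τ0 x (by rw [← hO0'] at hx; exact hx)
    · intro y hy
      have st : ∀ n τ, (∀ k, y ∈ E k n τ) → ∃ x, ∀ k, y ∈ E k (n + 1) (ch n τ x) := by
        intro n τ h
        obtain ⟨x, -, hx⟩ := fin_anti (c4 n τ y) (fun x k => y ∈ E k (n + 1) (ch n τ x))
          (fun x k h => d2 k _ _ h) fun k => by
            obtain ⟨x, hx⟩ := mem_iUnion.1 (h (k + 1))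
            exact ⟨x, d3 k _ _ hx, hx⟩
        exact ⟨x, hx⟩
      choose nx hnx using st
      let q : ∀ n, {τ : T // ∀ k, y ∈ E k n τ} := fun n =>
        Nat.rec ⟨τ0, mem_iInter.1 hy⟩ (fun n τ => ⟨ch n τ.1 (nx n τ.1 τ.2), hnx n τ.1 τ.2⟩) n
      have q1 := fun n => c2 n (q n).1 (nx n (q n).1 (q n).2) y ((q (n + 1)).2 0)
      obtain ⟨z, hz⟩ := h2 (fun n => (q n).1.1.1) rfl fun n => (q1 n).1
      refine ⟨z, hz 0, eq_of_forall_dist_le fun ε hε => ?_⟩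
      obtain ⟨n, hn⟩ := exists_nat_one_div_lt hε
      exact (((q1 n).2 z (hz (n + 1))).trans hn).le
  rw [this]
  exact IsGδ.iInter_of_isOpen fun k => d1 k 0 τ0

theorem cm_of_gd [CompleteSpace Y] {j : X → Y} (hj : IsEmbedding j) (h : IsGδ (range j)) :
    IsCompletelyMetrizableSpace X := by
  obtain ⟨G, h1, h2⟩ := h.eq_iInter_nat
  have hm : ∀ x n, j x ∈ G n := fun x => mem_iInter.1 (h2 ▸ mem_range_self x)
  let f : X → ∀ n, Opens.CompleteCopy (⟨G n, h1 n⟩ : Opens Y) := fun x n => ⟨j x, hm x n⟩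
  have hv : ∀ n, Continuous fun g : ∀ n, Opens.CompleteCopy (⟨G n, h1 n⟩ : Opens Y) => (g n).1 :=
    fun n => continuous_subtype_val.comp (continuous_apply n)
  refine IsClosedEmbedding.IsCompletelyMetrizableSpace (f := f) ⟨?_, ?_⟩
  · exact IsEmbedding.of_comp (continuous_pi fun n => hj.continuous.subtype_mk _) (hv 0) hj
  · have : range f = ⋂ n, {g | (g n).1 = (g 0).1} := by
      apply Subset.antisymm
      · rintro _ ⟨x, rfl⟩; exact mem_iInter.2 fun n => rfl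
      · intro g hg
        have : (g 0).1 ∈ range j := by
          rw [h2]; exact mem_iInter.2 fun n => (mem_iInter.1 hg n : _ = _) ▸ (g n).2
        obtain ⟨x, hx⟩ := this
        exact ⟨x, funext fun n => Subtype.ext (hx.trans (mem_iInter.1 hg n).symm)⟩
    rw [this]
    exact isClosed_iInter fun n => isClosed_eq (hv n) (hv 0)

end Pool.Agent.H18.Choquet
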