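import Mathlib

set_option autoImplicit false

namespace Pool.Agent.H18.Alt

open Filter Topology Finset

lemma seq_small (c : ℕ → ℝ) (hc : ∀ n, 0 ≤ c n) (B : ℝ) (hB : ∀ n, ∑ j ∈ range n, c j ^ 2 ≤ B)
    (K ε : ℝ) (hK : 0 ≤ K) (hε : 0 < ε) :
    ∃ n, 1 ≤ n ∧ c n * (K + ∑ j ∈ range n, c j) ≤ ε := by
  by_contra hcon
  push Not at hcon
  have hs : Summable (fun j => c j ^ 2) :=
    summable_of_sum_range_le (fun n => sq_nonneg _) hB
  have hB0 : 0 ≤ B := by simpa using hB 0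
  set C := 2 * K ^ 2 + 2 * B + 1 with hC
  have hCpos : 0 < C := by positivity
  have key : ∀ n : ℕ, ε ^ 2 / C * (1 / (n : ℝ)) ≤ c n ^ 2 := by
    intro n
    rcases Nat.eq_zero_or_pos n with h | h
    · subst h; simp; positivity
    have hn : (1 : ℝ) ≤ n := by exact_mod_cast h
    have h1 := hcon n h
    have h2 : (∑ j ∈ range n, c j) ^ 2 ≤ n * B := by
      have := sq_sum_le_card_mul_sum_sq (s := range n) (f := c)
      rw [card_range] at this
      exact this.trans (mul_le_mul_of_nonneg_left (hB n) (by positivity))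
    set S := ∑ j ∈ range n, c j with hS
    have hS0 : 0 ≤ S := sum_nonneg fun j _ => hc j
    have h3 : (K + S) ^ 2 ≤ C * n := by
      have : K ^ 2 ≤ K ^ 2 * n := le_mul_of_one_le_right (sq_nonneg _) hn
      nlinarith [sq_nonneg (K - S)]
    have h4 : ε ^ 2 ≤ c n ^ 2 * (C * n) := by
      calc ε ^ 2 ≤ (c n * (K + S)) ^ 2 := by gcongr
        _ = c n ^ 2 * (K + S) ^ 2 := by ring
        _ ≤ _ := by gcongr
    rw [div_mul_div_comm, mul_one, div_le_iff₀ (by positivity)]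
    exact h4
  have h5 : Summable (fun n : ℕ => ε ^ 2 / C * (1 / (n : ℝ))) :=
    Summable.of_nonneg_of_le (fun n => by positivity) key hs
  have h6 := (summable_mul_left_iff (a := ε ^ 2 / C) (by positivity)).1 h5
  exact Real.not_summable_one_div_natCast h6

variable {E : Type} [NormedAddCommGroup E] [NormedSpace ℝ E]

structure Good (D : E → E →ₗ[ℝ] ℝ) (c L : ℝ) : Prop where
  cpos : 0 < c
  Lpos : 0 < L
  self : ∀ x, D x x = ‖x‖ ^ 2
  conv : ∀ x h, ‖x‖ ^ 2 + 2 * D x h + c * ‖h‖ ^ 2 ≤ ‖x + h‖ ^ 2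
  lip : ∀ x y h, |D x h - D y h| ≤ L * ‖x - y‖ * ‖h‖

variable {D : E → E →ₗ[ℝ] ℝ} {c L : ℝ}

lemma Good.mid (hD : Good D c L) (u v : E) :
    2 * ‖(1 / 2 : ℝ) • (u + v)‖ ^ 2 + c / 2 * ‖u - v‖ ^ 2 ≤ ‖u‖ ^ 2 + ‖v‖ ^ 2 := by
  have h1 := hD.conv ((1 / 2 : ℝ) • (u + v)) ((1 / 2 : ℝ) • (u - v))
  have h2 := hD.conv ((1 / 2 : ℝ) • (u + v)) (-((1 / 2 : ℝ) • (u - v)))
  have e1 : (1 / 2 : ℝ) • (u + v) + (1 / 2 : ℝ) • (u - v) = u := by module
  have e2 : (1 / 2 : ℝ) • (u + v) + -((1 / 2 : ℝ) • (u - v)) = v := by module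
  rw [e1] at h1
  rw [e2, map_neg, norm_neg] at h2
  have e3 : ‖(1 / 2 : ℝ) • (u - v)‖ ^ 2 = 1 / 4 * ‖u - v‖ ^ 2 := by
    rw [norm_smul, mul_pow]; norm_num
  rw [e3] at h1 h2
  linarith

lemma Good.strict (hD : Good D c L) (x y : E) (hx : ‖x‖ = 1) (hy : ‖y‖ = 1) (hxy : x ≠ y) :
    ‖x + y‖ < 2 := by
  have h := hD.mid x y
  have e3 : ‖(1 / 2 : ℝ) • (x + y)‖ ^ 2 = 1 / 4 * ‖x + y‖ ^ 2 := by
    rw [norm_smul, mul_pow]; norm_num
  rw [e3, hx, hy] at h
  have h0 : 0 < ‖x - y‖ := norm_pos_iff.2 (sub_ne_zero.2 hxy)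
  have h1 : 0 < c / 2 * ‖x - y‖ ^ 2 := by have := hD.cpos; positivity
  nlinarith [norm_nonneg (x + y)]

lemma Good.le_half (hD : Good D c L) (x y : E) : 2 * D x y ≤ ‖x‖ ^ 2 + ‖y‖ ^ 2 := by
  have h := hD.conv x (y - x)
  rw [map_sub, hD.self, add_sub_cancel] at h
  have : 0 ≤ c * ‖y - x‖ ^ 2 := by have := hD.cpos; positivity
  linarith

lemma Good.orth (hD : Good D c L) (G : Submodule ℝ E) (x r : E) (h1 : x - r ∈ G)
    (h2 : ‖r‖ = Metric.infDist x (G : Set E)) (g : E) (hg : g ∈ G) : D r g = 0 := by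
  have hmin : ∀ t : ℝ, ‖r‖ ≤ ‖r + t • g‖ := by
    intro t
    have hm : (x - r) - t • g ∈ (G : Set E) := G.sub_mem h1 (G.smul_mem t hg)
    have := Metric.infDist_le_dist_of_mem (x := x) hm
    rw [← h2, dist_eq_norm] at this
    have e : x - (x - r - t • g) = r + t • g := by abel
    rwa [e] at this
  have hq : ∀ t : ℝ, 0 ≤ t * D r g + L * ‖g‖ ^ 2 * t ^ 2 := by
    intro t
    have a1 := hD.conv (r + t • g) (-(t • g))
    rw [add_neg_cancel_right, map_neg] at a1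
    have a2 := hD.lip (r + t • g) r (t • g)
    rw [add_sub_cancel_left, map_smul (D r), smul_eq_mul] at a2
    have a3 : ‖r‖ ^ 2 ≤ ‖r + t • g‖ ^ 2 := by have := hmin t; gcongr
    have a4 : 0 ≤ c * ‖-(t • g)‖ ^ 2 := by have := hD.cpos; positivity
    have a5 : L * ‖t • g‖ * ‖t • g‖ = L * ‖g‖ ^ 2 * t ^ 2 := by
      rw [norm_smul, Real.norm_eq_abs, ← sq_abs t]; ring
    rw [a5] at a2
    have := (abs_le.1 a2).2
    linarith
  set a := D r g
  set b := L * ‖g‖ ^ 2 with hb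
  have hb0 : 0 ≤ b := by have := hD.Lpos; positivity
  have := hq (-a / (b + 1))
  have e : -a / (b + 1) * a + b * (-a / (b + 1)) ^ 2 = -(a ^ 2) / (b + 1) ^ 2 := by
    field_simp; ring
  rw [e, le_div_iff₀ (by positivity)] at this
  nlinarith [sq_nonneg a]

theorem Good.alt [CompleteSpace E] (hD : Good D c L) (G₁ G₂ : Submodule ℝ E) (r : ℕ → E)
    (h1 : ∀ k : ℕ, r (2 * k) - r (2 * k + 1) ∈ G₁ ∧
      ‖r (2 * k + 1)‖ = Metric.infDist (r (2 * k)) (G₁ : Set E))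
    (h2 : ∀ k : ℕ, r (2 * k + 1) - r (2 * k + 2) ∈ G₂ ∧
      ‖r (2 * k + 2)‖ = Metric.infDist (r (2 * k + 1)) (G₂ : Set E)) :
    ∃ y : E, Filter.Tendsto r Filter.atTop (nhds y) ∧
      r 0 - y ∈ (G₁ ⊔ G₂).topologicalClosure ∧
      ‖y‖ = Metric.infDist (r 0) ((G₁ ⊔ G₂).topologicalClosure : Set E) := by
  have hc := hD.cpos
  have hL := hD.Lpos
  set H : ℕ → Submodule ℝ E := fun k => if k % 2 = 0 then G₁ else G₂ with hH
  have hr : ∀ k, r k - r (k + 1) ∈ H k ∧ ‖r (k + 1)‖ = Metric.infDist (r k) (H k : Set E) := by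
    intro k
    rcases Nat.even_or_odd' k with ⟨m, rfl | rfl⟩
    · have : H (2 * m) = G₁ := by simp [hH]
      rw [this]; exact h1 m
    · have : H (2 * m + 1) = G₂ := by simp [hH]
      rw [this]; exact h2 m
  have ho : ∀ k g, g ∈ H k → D (r (k + 1)) g = 0 := fun k g hg =>
    hD.orth (H k) (r k) (r (k + 1)) (hr k).1 (hr k).2 g hg
  set p : ℕ → E := fun k => r k - r (k + 1) with hp
  have hdec : ∀ k, ‖r (k + 1)‖ ^ 2 + c * ‖p k‖ ^ 2 ≤ ‖r k‖ ^ 2 := by
    intro k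
    have := hD.conv (r (k + 1)) (p k)
    rw [ho k _ (hr k).1] at this
    simpa [hp] using this
  have hsum : ∀ n, ‖r n‖ ^ 2 + c * ∑ j ∈ range n, ‖p j‖ ^ 2 ≤ ‖r 0‖ ^ 2 := by
    intro n
    induction n with
    | zero => simp
    | succ n ih => rw [sum_range_succ]; have := hdec n; nlinarith
  have hB : ∀ n, ∑ j ∈ range n, ‖p j‖ ^ 2 ≤ ‖r 0‖ ^ 2 / c := by
    intro n
    rw [le_div_iff₀ hc]
    have := hsum n
    nlinarith [sq_nonneg ‖r n‖]
  have hanti : Antitone fun n => ‖r n‖ ^ 2 := by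
    apply antitone_nat_of_succ_le
    intro n
    have := hdec n
    have : 0 ≤ c * ‖p n‖ ^ 2 := by positivity
    linarith
  have hbd : ∀ n, 1 ≤ n → ∀ j g, g ∈ H j → |D (r n) g| ≤ L * ‖p n‖ * ‖g‖ := by
    intro n hn j g hg
    by_cases hj : j % 2 = n % 2
    · have hg' : g ∈ H n := by simpa [hH, hj] using hg
      have := hD.lip (r n) (r (n + 1)) g
      rwa [ho n g hg', sub_zero] at this
    · obtain ⟨m, rfl⟩ : ∃ m, n = m + 1 := ⟨n - 1, by omega⟩
      have hj' : j % 2 = m % 2 := by omega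
      have hg' : g ∈ H m := by simpa [hH, hj'] using hg
      rw [ho m g hg', abs_zero]; positivity
  have htel : ∀ n, r 0 - r n = ∑ j ∈ range n, p j := by
    intro n
    induction n with
    | zero => simp
    | succ n ih => rw [sum_range_succ, ← ih, hp]; simp
  have hHle : ∀ k, H k ≤ G₁ ⊔ G₂ := by
    intro k
    by_cases hk : k % 2 = 0
    · simp [hH, hk]
    · simp [hH, hk]
  have hmem : ∀ n, r 0 - r n ∈ G₁ ⊔ G₂ := by
    intro n
    rw [htel]
    exact Submodule.sum_mem _ fun j _ => hHle j (hr j).1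
  set G := (G₁ ⊔ G₂).topologicalClosure with hG
  set d := Metric.infDist (r 0) (G : Set E) with hd
  have hd0 : 0 ≤ d := Metric.infDist_nonneg
  have hlow : ∀ u, r 0 - u ∈ G → d ≤ ‖u‖ := by
    intro u hu
    have := Metric.infDist_le_dist_of_mem (x := r 0) (show r 0 - u ∈ (G : Set E) from hu)
    rwa [dist_eq_norm, sub_sub_cancel] at this
  have hkey : ∀ ε > 0, ∃ n, ∀ m ≥ n, ‖r m‖ ^ 2 ≤ d ^ 2 + ε := by
    intro ε hε
    obtain ⟨δ, hδ, hδ2⟩ : ∃ δ > 0, (d + δ) ^ 2 ≤ d ^ 2 + ε / 2 := by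
      refine ⟨min 1 (ε / (2 * (2 * d + 1))), by positivity, ?_⟩
      set δ := min 1 (ε / (2 * (2 * d + 1)))
      have a1 : δ ≤ 1 := min_le_left _ _
      have a2 : δ ≤ ε / (2 * (2 * d + 1)) := min_le_right _ _
      have a0 : 0 < δ := by positivity
      rw [le_div_iff₀ (by positivity)] at a2
      nlinarith
    have hd' : d = Metric.infDist (r 0) ((G₁ ⊔ G₂ : Submodule ℝ E) : Set E) := by
      rw [hd, hG, Submodule.topologicalClosure_coe, Metric.infDist_closure]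
    obtain ⟨g, hg, hgd⟩ := (Metric.infDist_lt_iff (x := r 0)
      (s := ((G₁ ⊔ G₂ : Submodule ℝ E) : Set E)) (r := d + δ) ⟨0, Submodule.zero_mem _⟩).1
      (by rw [← hd']; linarith)
    obtain ⟨a, ha, b, hb, rfl⟩ := Submodule.mem_sup.1 hg
    obtain ⟨n, hn, hn2⟩ := seq_small (fun j => ‖p j‖) (fun j => norm_nonneg _) _ hB
      (‖a‖ + ‖b‖) (ε / (4 * L)) (by positivity) (by positivity)
    refine ⟨n, fun m hm => (hanti hm).trans ?_⟩
    have e : r n = (r 0 - (a + b)) + a + b - ∑ j ∈ range n, p j := by rw [← htel]; abel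
    have a1 : D (r n) (r n) = D (r n) (r 0 - (a + b)) + D (r n) a + D (r n) b
        - ∑ j ∈ range n, D (r n) (p j) := by
      conv_lhs => rw [show D (r n) (r n) = D (r n) ((r 0 - (a + b)) + a + b
        - ∑ j ∈ range n, p j) from by rw [← e]]
      simp only [map_sub, map_add, map_sum]
    have a2 := hD.le_half (r n) (r 0 - (a + b))
    have a3 := (abs_le.1 (hbd n hn 0 a (by simpa [hH] using ha))).2
    have a4 := (abs_le.1 (hbd n hn 1 b (by simpa [hH] using hb))).2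
    have a5 : -∑ j ∈ range n, D (r n) (p j) ≤ L * ‖p n‖ * ∑ j ∈ range n, ‖p j‖ := by
      rw [mul_sum, ← sum_neg_distrib]
      refine sum_le_sum fun j _ => ?_
      have := (abs_le.1 (hbd n hn j (p j) (hr j).1)).1
      linarith
    rw [hD.self] at a1
    rw [dist_eq_norm] at hgd
    have a6 : ‖r 0 - (a + b)‖ ^ 2 ≤ (d + δ) ^ 2 := by gcongr
    rw [le_div_iff₀ (by positivity)] at hn2
    simp only at hn2 ⊢
    nlinarith
  have hcau : CauchySeq r := by
    rw [Metric.cauchySeq_iff']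
    intro ε hε
    obtain ⟨n, hn⟩ := hkey (c * ε ^ 2 / 8) (by positivity)
    refine ⟨n, fun m hm => ?_⟩
    have a1 := hD.mid (r m) (r n)
    have a2 : d ≤ ‖(1 / 2 : ℝ) • (r m + r n)‖ := by
      apply hlow
      have e : r 0 - (1 / 2 : ℝ) • (r m + r n) = (1 / 2 : ℝ) • ((r 0 - r m) + (r 0 - r n)) := by
        module
      rw [e]
      exact Submodule.le_topologicalClosure _
        (Submodule.smul_mem _ _ (Submodule.add_mem _ (hmem m) (hmem n)))
    have a3 : d ^ 2 ≤ ‖(1 / 2 : ℝ) • (r m + r n)‖ ^ 2 := by gcongr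
    have a4 := hn m hm
    have a5 := hn n le_rfl
    rw [dist_eq_norm]
    have a6 : c * ‖r m - r n‖ ^ 2 < c * ε ^ 2 := by
      have : 0 < c * ε ^ 2 := by positivity
      nlinarith
    have a7 := lt_of_mul_lt_mul_left a6 hc.le
    exact lt_of_pow_lt_pow_left₀ 2 hε.le a7
  obtain ⟨y, hy⟩ := cauchySeq_tendsto_of_complete hcau
  have hyG : r 0 - y ∈ G := by
    have hcl : IsClosed (G : Set E) := Submodule.isClosed_topologicalClosure _
    exact hcl.mem_of_tendsto (tendsto_const_nhds.sub hy)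
      (Eventually.of_forall fun n => Submodule.le_topologicalClosure _ (hmem n))
  refine ⟨y, hy, hyG, le_antisymm ?_ (hlow y hyG)⟩
  have : ‖y‖ ^ 2 ≤ d ^ 2 := by
    refine le_of_forall_pos_le_add fun ε hε => ?_
    obtain ⟨n, hn⟩ := hkey ε hε
    exact le_of_tendsto (hy.norm.pow 2) (eventually_atTop.2 ⟨n, hn⟩)
  exact le_of_pow_le_pow_left₀ two_ne_zero hd0 this

end Pool.Agent.H18.Alt
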