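import Mathlib

set_option autoImplicit false

namespace Pool.Agent.H18.BG

open Set Filter Topology Function

noncomputable section
open Classical

abbrev K := ℕ → Bool

def Lip (h : K → K) : Prop := ∀ x y m, (∀ i < m, x i = y i) → ∀ i < m, h x i = h y i

structure M (n : ℕ) (h : K → K) : Prop where
  lip : Lip h
  inj : Injective h
  fix : ∀ x, ∀ i < n, h x i = x i

lemma Lip.comp {f g : K → K} (hf : Lip f) (hg : Lip g) : Lip (f ∘ g) :=
  fun x y m h => hf _ _ m (hg x y m h)

lemma M.id (n : ℕ) : M n id := ⟨fun _ _ _ h => h, injective_id, fun _ _ _ => rfl⟩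

lemma M.comp {n : ℕ} {f g : K → K} (hf : M n f) (hg : M n g) : M n (f ∘ g) :=
  ⟨hf.lip.comp hg.lip, hf.inj.comp hg.inj, fun x i hi => (hf.fix _ i hi).trans (hg.fix x i hi)⟩

lemma M.mono {n m : ℕ} {f : K → K} (hf : M n f) (h : m ≤ n) : M m f :=
  ⟨hf.lip, hf.inj, fun x i hi => hf.fix x i (hi.trans_le h)⟩

lemma Lip.cont {h : K → K} (hh : Lip h) : Continuous h := by
  refine continuous_pi fun i => continuous_iff_continuousAt.mpr fun x => ?_
  refine tendsto_nhds_of_eventually_eq ?_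
  have : ∀ᶠ y in 𝓝 x, ∀ l ∈ Iic i, y l = x l := (eventually_all_finite (finite_Iic i)).mpr
    fun l _ => ((isOpen_discrete {x l}).preimage
      (continuous_apply (A := fun _ : ℕ => Bool) l)).mem_nhds rfl
  filter_upwards [this] with y hy
  exact hh y x (i + 1) (fun l hl => hy l (Nat.lt_succ_iff.mp hl)) i (Nat.lt_succ_self i)

def cmp (h : ℕ → K → K) (j : ℕ) : ℕ → K → K
  | 0 => id
  | m + 1 => cmp h j m ∘ h (j + m)

lemma cmp_succ (h : ℕ → K → K) (j m : ℕ) : cmp h j (m + 1) = h j ∘ cmp h (j + 1) m := by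
  induction m with
  | zero => rfl
  | succ m ih =>
    rw [cmp, ih, cmp, show j + (m + 1) = j + 1 + m by omega]
    rfl

lemma inf {n : ℕ} {h : ℕ → K → K} (hh : ∀ t, M (n + t) (h t)) :
    ∃ R : ℕ → K → K, ∀ t, M (n + t) (R t) ∧ R t = h t ∘ R (t + 1) := by
  have c1 : ∀ j m, M (n + j) (cmp h j m) := by
    intro j m
    induction m with
    | zero => exact M.id _
    | succ m ih => exact ih.comp ((hh _).mono (by omega))
  have c2 : ∀ j x i m, i < m → cmp h j m x i = cmp h j (i + 1) x i := by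
    intro j x i m hm
    induction m, hm using Nat.le_induction with
    | base => rfl
    | succ m hm ih =>
      rw [← ih]
      exact (c1 j m).lip _ _ (i + 1) (fun l hl => (hh _).fix x l (by omega)) i (by omega)
  let R : ℕ → K → K := fun j x i => cmp h j (i + 1) x i
  have e : ∀ t, R t = h t ∘ R (t + 1) := by
    intro t
    funext x i
    show cmp h t (i + 1) x i = h t (R (t + 1) x) i
    rw [← c2 t x i (i + 2) (by omega), cmp_succ]
    exact (hh t).lip _ _ (i + 1) (fun l hl => c2 _ x l _ hl) i (by omega)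
  have fx : ∀ t x, ∀ i < n + t, R t x i = x i := fun t x i hi => (c1 t _).fix x i hi
  refine ⟨R, fun t => ⟨⟨fun x y m hm i hi => (c1 t _).lip x y m hm i hi, fun x y hxy => ?_, fx t⟩,
    e t⟩⟩
  have : ∀ s, R (t + s) x = R (t + s) y := by
    intro s
    induction s with
    | zero => exact hxy
    | succ s ih =>
      rw [e] at ih
      exact (hh _).inj ih
  funext i
  rw [← fx (t + (i + 1)) x i (by omega), this, fx _ y i (by omega)]

section myc
variable {ι : Type} [Fintype ι]

lemma cyl_of_open {D : Set (ι → K)} (hD : IsOpen D) {w : ι → K} (hw : w ∈ D) :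
    ∃ L, ∀ v : ι → K, (∀ i, ∀ m < L, v i m = w i m) → v ∈ D := by
  by_contra t
  push Not at t
  choose v v1 v2 using t
  have : Tendsto v atTop (𝓝 w) := tendsto_pi_nhds.mpr fun i => tendsto_pi_nhds.mpr fun m =>
    tendsto_nhds_of_eventually_eq (by
      filter_upwards [eventually_gt_atTop m] with L hL using v1 L i m hL)
  obtain ⟨L, hL⟩ := (this.eventually (hD.mem_nhds hw)).exists
  exact v2 L hL

lemma open_cyl (w : ι → K) (L : ℕ) : IsOpen {v : ι → K | ∀ i, ∀ m < L, v i m = w i m} := by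
  simp only [setOf_forall]
  refine isOpen_iInter_of_finite fun i => (finite_lt_nat L).isOpen_biInter fun m _ => ?_
  exact (isOpen_discrete {w i m}).preimage
    (show Continuous fun v : ι → K => v i m by fun_prop)

lemma dstep {D : Set (ι → K)} (hD : IsOpen D) (dD : Dense D) (L : ℕ) :
    ∃ L', L ≤ L' ∧ ∃ z : ι → K, ∀ w : ι → K, (∀ i m, L ≤ m → m < L' → w i m = z i m) → w ∈ D := by
  have : ∀ T : Finset (ι → Fin L → Bool), ∃ L', L ≤ L' ∧ ∃ z : ι → K, ∀ w : ι → K,
      (fun i (m : Fin L) => w i m) ∈ T → (∀ i m, L ≤ m → m < L' → w i m = z i m) → w ∈ D := by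
    intro T
    induction T using Finset.induction_on with
    | empty => exact ⟨L, le_rfl, fun _ _ => true, by simp⟩
    | insert t T _ ih =>
      obtain ⟨L', h1, z, h2⟩ := ih
      obtain ⟨u, u1, u2⟩ := dD.inter_open_nonempty _
        (open_cyl (fun i m => if h : m < L then t i ⟨m, h⟩ else z i m) L') ⟨_, fun _ _ _ => rfl⟩
      obtain ⟨L2, h3⟩ := cyl_of_open hD u2
      refine ⟨L' + L2, by omega, u, fun w w1 w2 => ?_⟩
      rcases Finset.mem_insert.mp w1 with s | s
      · refine h3 w fun i m hm => ?_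
        by_cases c : m < L
        · rw [u1 i m (by omega), dif_pos c, ← s]
        · exact w2 i m (by omega) (by omega)
      · refine h2 w s fun i m a b => ?_
        rw [w2 i m a (by omega), u1 i m b, dif_neg (by omega)]
  obtain ⟨L', h1, z, h2⟩ := this Finset.univ
  exact ⟨L', h1, z, fun w => h2 w (Finset.mem_univ _)⟩

lemma myc {B : ℕ → Set (ι → K)} (hB : ∀ k, MeasurableSet (B k)) (cov : ∀ w, ∃ k, w ∈ B k)
    (s : ι → K) (n : ℕ) : ∃ k, ∃ a : ℕ → ℕ, StrictMono a ∧ n ≤ a 0 ∧ ∃ z : ι → K,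
      (∀ i, ∀ m < n, z i m = s i m) ∧
      ∀ w : ι → K, (∀ i m, m ∉ range a → w i m = z i m) → w ∈ B k := by
  have : ∃ k, ¬ IsMeagre (B k ∩ {v : ι → K | ∀ i, ∀ m < n, v i m = s i m}) := by
    by_contra t
    push Not at t
    refine not_isMeagre_of_isOpen (open_cyl s n) ⟨s, fun _ _ _ => rfl⟩
      ((isMeagre_iUnion t).mono fun w hw => ?_)
    obtain ⟨k, hk⟩ := cov w
    exact mem_iUnion.mpr ⟨k, hk, hw⟩
  obtain ⟨k, hk⟩ := this
  obtain ⟨U, u1, u2⟩ := (hB k).baireMeasurableSet.residualEq_isOpen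
  have : (U ∩ {v : ι → K | ∀ i, ∀ m < n, v i m = s i m}).Nonempty := by
    by_contra t
    refine hk (mem_of_superset u2 fun w hw h => t ⟨w, ?_, h.2⟩)
    exact (show (w ∈ B k) = (w ∈ U) from hw) ▸ h.1
  obtain ⟨w0, w1, w2⟩ := this
  obtain ⟨L0, hL⟩ := cyl_of_open u1 w1
  obtain ⟨S, s1, s2, s3, s4⟩ := mem_residual_iff.mp u2
  obtain ⟨D, hD⟩ := (s3.insert univ).exists_eq_range (insert_nonempty _ _)
  have d1 : ∀ j, IsOpen (D j) ∧ Dense (D j) := fun j => by
    rcases (show D j ∈ insert univ S from hD ▸ mem_range_self j) with t | t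
    · rw [t]; exact ⟨isOpen_univ, dense_univ⟩
    · exact ⟨s1 _ t, s2 _ t⟩
  choose f f1 z f2 using fun j L => dstep (d1 j).1 (d1 j).2 L
  obtain ⟨a, a0, a1⟩ : ∃ a : ℕ → ℕ, a 0 = n + L0 ∧ ∀ j, a (j + 1) = f j (a j + 1) :=
    ⟨fun j => Nat.rec (n + L0) (fun j L => f j (L + 1)) j, rfl, fun _ => rfl⟩
  have am : StrictMono a := strictMono_nat_of_lt_succ fun j => a1 j ▸ f1 j (a j + 1)
  let g : ℕ → ℕ := fun m => @Nat.findGreatest (fun j => a j ≤ m) (fun _ => Nat.decLe _ _) m
  have g1 : ∀ j m, a j ≤ m → m < a (j + 1) → g m = j := by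
    intro j m h1 h2
    have h3 : j ≤ m := (am.id_le j).trans h1
    have h4 : j ≤ g m := @Nat.le_findGreatest _ (fun j => a j ≤ m) (fun _ => Nat.decLe _ _) _ h3 h1
    have h5 : a (g m) ≤ m := @Nat.findGreatest_spec _ (fun j => a j ≤ m) (fun _ => Nat.decLe _ _) _ h3 h1
    by_contra t
    have := am.monotone (show j + 1 ≤ g m by omega)
    omega
  refine ⟨k, a, am, by omega, fun i m => if m < a 0 then w0 i m else z (g m) (a (g m) + 1) i m,
    fun i m hm => ?_, fun w hw => ?_⟩
  · beta_reduce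
    rw [if_pos (by omega)]
    exact w2 i m hm
  · beta_reduce at hw
    have : w ∈ ⋂₀ S := fun t ht => by
      obtain ⟨j, rfl⟩ := (show t ∈ range D from hD ▸ Or.inr ht)
      refine f2 j (a j + 1) w fun i m m1 m2 => ?_
      rw [← a1] at m2
      have := am.monotone (Nat.zero_le j)
      rw [hw i m, if_neg (by omega), g1 j m (by omega) m2]
      rintro ⟨l, rfl⟩
      have := am.lt_iff_lt.mp (show a j < a l by omega)
      have := am.lt_iff_lt.mp (show a l < a (j + 1) from m2)
      omega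
    refine (show (w ∈ B k) = (w ∈ U) from s4 this) ▸ hL w fun i m hm => ?_
    rw [hw i m, if_pos (by omega)]
    rintro ⟨l, rfl⟩
    have := am.monotone (Nat.zero_le l)
    omega

end myc

lemma stage (n : ℕ) {B : ℕ → Set (Fin n × (Fin n → Bool) → K)} (hB : ∀ k, MeasurableSet (B k))
    (cov : ∀ w, ∃ k, w ∈ B k) : ∃ k, ∃ H : ℕ → K → K, (∀ j, M n (H j)) ∧
      (∀ j, n ≤ j → H j = id) ∧ ∀ (S : Type) (φ : S → Fin n × (Fin n → Bool)) (x : S → K),
        Injective φ → (∀ s (i : Fin n), x s i = (φ s).2 i) →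
          ∃ w ∈ B k, ∀ s, w (φ s) = H (φ s).1 (x s) := by
  obtain ⟨k, a, a1, a2, z, z1, z2⟩ := myc hB cov
    (fun p m => if h : m < n then p.2 ⟨m, h⟩ else true) n
  have a3 : ∀ t, n + t ≤ a t := fun t => by
    have := a1.add_le_nat t 0
    simp only [add_zero] at this
    omega
  let G : Fin n → K → K := fun j x => extend a (fun t => x (n + t)) (z (j, fun i => x i))
  have g1 : ∀ j x t, G j x (a t) = x (n + t) := fun j x t => a1.injective.extend_apply _ _ t
  have g2 : ∀ j x m, m ∉ range a → G j x m = z (j, fun i => x i) m := fun j x m hm =>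
    extend_apply' _ _ _ hm
  have g3 : ∀ j x, ∀ i < n, G j x i = x i := fun j x i hi => by
    rw [g2, z1 _ i hi, dif_pos hi]
    rintro ⟨t, rfl⟩
    have := a3 t
    omega
  have g4 : ∀ j, M n (G j) := fun j => by
    refine ⟨fun x y m hm i hi => ?_, fun x y h => ?_, g3 j⟩
    · by_cases c : i < n
      · rw [g3 j x i c, g3 j y i c, hm i hi]
      by_cases d : i ∈ range a
      · obtain ⟨t, rfl⟩ := d
        rw [g1, g1, hm _ ((a3 t).trans_lt hi)]
      · rw [g2 _ _ _ d, g2 _ _ _ d]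
        congr 2
        funext l
        exact hm l (by omega)
    · funext i
      by_cases c : i < n
      · rw [← g3 j x i c, h, g3 j y i c]
      · obtain ⟨t, rfl⟩ := Nat.exists_eq_add_of_le (not_lt.mp c)
        rw [← g1 j x, h, g1]
  refine ⟨k, fun j => if h : j < n then G ⟨j, h⟩ else id, fun j => ?_,
    fun j hj => dif_neg (by omega), fun S φ x hφ hx => ?_⟩
  · beta_reduce
    split_ifs
    exacts [g4 _, M.id n]
  · refine ⟨extend φ (fun s => G (φ s).1 (x s)) z, z2 _ fun p m hm => ?_, fun s => ?_⟩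
    · by_cases c : ∃ s, φ s = p
      · obtain ⟨s, rfl⟩ := c
        rw [hφ.extend_apply, g2 _ _ _ hm]
        congr 2
        funext i
        exact hx s i
      · rw [extend_apply' _ _ _ c]
    · beta_reduce
      rw [hφ.extend_apply, dif_pos (φ s).1.2]

end

end Pool.Agent.H18.BG
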