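import Pool.Agent.H18.BG1

set_option autoImplicit false

namespace Pool.Agent.H18.BG

open Set Filter Topology Function

noncomputable section
open Classical

def Rg (p : ℕ → K → K) : Set K := ⋃ i, range (p i)

def Ext (p q : ℕ → K → K) : Prop := Rg q ⊆ Rg p ∧ ∀ i n, ∃ j h, M n h ∧ q j = p i ∘ h

lemma Ext.refl (p : ℕ → K → K) : Ext p p := ⟨le_rfl, fun i n => ⟨i, id, M.id n, rfl⟩⟩

lemma Ext.trans {p q r : ℕ → K → K} (a : Ext p q) (b : Ext q r) : Ext p r :=
  ⟨b.1.trans a.1, fun i n => by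
    obtain ⟨j, h, h1, h2⟩ := a.2 i n
    obtain ⟨k, g, g1, g2⟩ := b.2 j n
    exact ⟨k, h ∘ g, h1.comp g1, by rw [g2, h2]; rfl⟩⟩

lemma lower_seq {P : ℕ → ℕ → K → K} (h0 : ∀ k i, M 0 (P k i)) (hP : ∀ k, Ext (P k) (P (k + 1))) :
    ∃ q, (∀ i, M 0 (q i)) ∧ ∀ k, Ext (P k) q := by
  have mono : ∀ k l, k ≤ l → Rg (P l) ⊆ Rg (P k) := fun k l h => by
    induction l, h using Nat.le_induction with
    | base => exact le_rfl
    | succ l _ ih => exact (hP l).1.trans ih
  choose J h h1 h2 using fun k => (hP k).2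
  have : ∀ k i n, ∃ g, M n g ∧ ∀ l, range (P k i ∘ g) ⊆ Rg (P l) := by
    intro k i n
    obtain ⟨j, j0, j1⟩ : ∃ j : ℕ → ℕ, j 0 = i ∧ ∀ t, j (t + 1) = J (k + t) (j t) (n + t) :=
      ⟨fun t => Nat.rec i (fun t a => J (k + t) a (n + t)) t, rfl, fun _ => rfl⟩
    obtain ⟨R, hR⟩ := inf (n := n) (h := fun t => h (k + t) (j t) (n + t)) fun t => h1 _ _ _
    have e : ∀ t, P k i ∘ R 0 = P (k + t) (j t) ∘ R t := by
      intro t
      induction t with
      | zero => rw [j0]; rfl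
      | succ t ih => rw [ih, (hR t).2, j1, ← add_assoc, h2]; rfl
    refine ⟨R 0, (hR 0).1, fun l => ?_⟩
    rw [e l]
    exact ((range_comp_subset_range _ _).trans (subset_iUnion (fun i => range (P (k + l) i)) _)).trans
      (mono l _ (by omega))
  choose g g1 g2 using this
  refine ⟨fun a => P a.unpair.1 a.unpair.2.unpair.1 ∘ g a.unpair.1 a.unpair.2.unpair.1
    a.unpair.2.unpair.2, fun a => (h0 _ _).comp ((g1 _ _ _).mono (Nat.zero_le _)), fun k =>
    ⟨iUnion_subset fun a => g2 _ _ _ k, fun i n => ⟨Nat.pair k (Nat.pair i n), g k i n, g1 k i n, by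
      simp⟩⟩⟩

lemma lower {P : ℕ → ℕ → K → K} (h0 : ∀ k i, M 0 (P k i))
    (hP : ∀ a b, Ext (P a) (P b) ∨ Ext (P b) (P a)) :
    ∃ q, (∀ i, M 0 (q i)) ∧ ∀ k, Ext (P k) q := by
  have : ∀ a b, ∃ c, Ext (P a) (P c) ∧ Ext (P b) (P c) := fun a b =>
    (hP a b).elim (fun t => ⟨b, t, Ext.refl _⟩) fun t => ⟨a, Ext.refl _, t⟩
  choose c c1 c2 using this
  obtain ⟨j, j1⟩ : ∃ j : ℕ → ℕ, ∀ t, j (t + 1) = c (j t) t :=
    ⟨fun t => Nat.rec 0 (fun t a => c a t) t, fun _ => rfl⟩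
  obtain ⟨q, q1, q2⟩ := lower_seq (P := fun t => P (j t)) (fun k => h0 _) fun k => by
    rw [j1]; exact c1 _ _
  exact ⟨q, q1, fun k => (c2 (j k) k).trans (j1 k ▸ q2 (k + 1))⟩

def em (x : K) : ℕ → ℤ := fun n => if x n then 1 else 0

lemma em_inj : Injective em := fun x y h => by
  funext n
  have := congrFun h n
  simp only [em] at this
  cases hx : x n <;> cases hy : y n <;> simp_all

lemma em_cont : Continuous em := continuous_pi fun n =>
  (continuous_of_discreteTopology (f := fun b : Bool => if b then (1 : ℤ) else 0)).comp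
    (continuous_apply n)

def Sp (S : Set K) : Submodule ℤ (ℕ → ℤ) := Submodule.span ℤ (em '' S)

lemma Sp_mono {S T : Set K} (h : S ⊆ T) : Sp S ≤ Sp T := Submodule.span_mono (image_mono h)

lemma Sp_count {C : Set K} (hC : C.Countable) : (Sp C : Set (ℕ → ℤ)).Countable := by
  haveI := (hC.image em).to_subtype
  refine (countable_range fun a : em '' C →₀ ℤ => a.sum fun i c => c • i.1).mono fun x hx => ?_
  rw [Sp, ← Subtype.range_val (s := em '' C)] at hx
  exact Finsupp.mem_span_range_iff_exists_finsupp.mp hx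

lemma handle {C : Set K} (hC : C.Countable) {p : ℕ → K → K} (hp : ∀ i, M 0 (p i))
    {B : ℕ → ℕ → Set (ℕ → ℤ)} (hB : ∀ n m, MeasurableSet (B n m)) :
    ∃ q E, (∀ i, M 0 (q i)) ∧ Ext p q ∧ E.Countable ∧ E ⊆ Rg p ∧
      ((∀ n, ∀ F : Set (ℕ → ℤ), F.Finite → F ⊆ Sp (C ∪ E) → ∃ m, F ⊆ B n m) →
        ∃ g : ℕ → ℕ, ∀ x ∈ Sp (C ∪ E ∪ Rg q), ∀ᶠ n in atTop, x ∈ B n (g n)) := by
  by_cases H : ∀ n, ∀ F : Set (ℕ → ℤ), F.Finite → F ⊆ Sp (C ∪ Rg p) → ∃ m, F ⊆ B n m
  swap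
  · push Not at H
    obtain ⟨n, F, f1, f2, f3⟩ := H
    have : ∀ x : F, ∃ E : Set K, E.Finite ∧ E ⊆ Rg p ∧ x.1 ∈ Sp (C ∪ E) := by
      intro x
      obtain ⟨T, t1, t2⟩ := Submodule.mem_span_finite_of_mem_span (f2 x.2)
      refine ⟨em ⁻¹' T ∩ Rg p, (T.finite_toSet.preimage em_inj.injOn).inter_of_left _,
        inter_subset_right, Submodule.span_mono (fun y hy => ?_) t2⟩
      obtain ⟨z, z1, rfl⟩ := t1 hy
      exact ⟨z, z1.imp id fun t => ⟨hy, t⟩, rfl⟩
    choose E e1 e2 e3 using this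
    haveI := f1.to_subtype
    refine ⟨p, ⋃ x, E x, hp, Ext.refl p, countable_iUnion fun x => (e1 x).countable,
      iUnion_subset e2, fun t => ?_⟩
    obtain ⟨m, hm⟩ := t n F f1 fun x hx =>
      Sp_mono (union_subset_union_right C (subset_iUnion E ⟨x, hx⟩)) (e3 ⟨x, hx⟩)
    exact absurd hm (f3 m)
  obtain ⟨c, hc⟩ := (Sp_count hC).exists_eq_range ⟨0, (Sp C).zero_mem⟩
  have st : ∀ n (P : {P : ℕ → K → K // ∀ j, Lip (P j) ∧ range (P j) ⊆ Rg p}),
      ∃ k, ∃ G : ℕ → K → K, (∀ j, M n (G j)) ∧ (∀ j, n ≤ j → G j = id) ∧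
        ∀ (S : Type) [Fintype S] (φ : S → Fin n × (Fin n → Bool)) (x : S → K) (a : S → ℤ) (l : ℕ),
        Injective φ → (∀ s (i : Fin n), x s i = (φ s).2 i) → (∀ s, |a s| ≤ n) → l < n →
          c l + ∑ s, a s • em (P.1 (φ s).1 (G (φ s).1 (x s))) ∈ B n k := by
    intro n P
    let T : (Fin n × (Fin n → Bool) → K) → Fin n × (Fin n × (Fin n → Bool) → Icc (-n : ℤ) n) →
        ℕ → ℤ := fun w τ => c τ.1 + ∑ i, (τ.2 i).1 • em (P.1 i.1 (w i))
    have tc : ∀ τ, Continuous fun w => T w τ := by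
      intro τ
      refine Continuous.add continuous_const (continuous_finset_sum _ fun i _ => ?_)
      have : Continuous fun w : Fin n × (Fin n → Bool) → K => em (P.1 i.1 (w i)) :=
        em_cont.comp ((P.2 _).1.cont.comp (continuous_apply i))
      exact this.const_smul (τ.2 i).1
    obtain ⟨k, G, g1, g2, g3⟩ := stage n (B := fun k => ⋂ τ, (fun w => T w τ) ⁻¹' B n k)
      (fun k => MeasurableSet.iInter fun τ => (tc τ).measurable (hB n k)) fun w => by
      obtain ⟨m, hm⟩ := H n (range (T w)) (finite_range _) (by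
        rintro _ ⟨τ, rfl⟩
        refine (Sp _).add_mem (Sp_mono subset_union_left (show c τ.1 ∈ (Sp C : Set (ℕ → ℤ)) from
          hc ▸ mem_range_self _)) ((Sp _).sum_mem fun i _ => (Sp _).smul_mem _
            (Submodule.subset_span ⟨_, Or.inr ((P.2 _).2 (mem_range_self _)), rfl⟩)))
      exact ⟨m, mem_iInter.mpr fun τ => hm (mem_range_self τ)⟩
    refine ⟨k, G, g1, g2, fun S _ φ x a l h1 h2 h3 h4 => ?_⟩
    obtain ⟨w, w1, w2⟩ := g3 S φ x h1 h2
    have := mem_iInter.mp w1 (⟨l, h4⟩, extend φ (fun s => ⟨a s, abs_le.mp (h3 s)⟩)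
      fun _ => ⟨0, by simp⟩)
    convert this using 1
    simp only [mem_preimage, T]
    rw [Fintype.sum_of_injective φ h1 (fun s => a s • em (P.1 (φ s).1 (G (φ s).1 (x s))))]
    · intro i hi
      rw [extend_apply' _ _ _ hi]
      simp
    · intro s
      rw [h1.extend_apply, w2]
  choose k G g1 g2 g3 using st
  let P0 : {P : ℕ → K → K // ∀ j, Lip (P j) ∧ range (P j) ⊆ Rg p} :=
    ⟨fun j => p j.unpair.1, fun j => ⟨(hp _).lip, subset_iUnion (fun i => range (p i)) _⟩⟩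
  obtain ⟨P, p0, p1⟩ : ∃ P : ℕ → {P : ℕ → K → K // ∀ j, Lip (P j) ∧ range (P j) ⊆ Rg p},
      P 0 = P0 ∧ ∀ n j, (P (n + 1)).1 j = (P n).1 j ∘ G n (P n) j :=
    ⟨fun n => Nat.rec P0 (fun n P => ⟨fun j => P.1 j ∘ G n P j, fun j =>
      ⟨(P.2 j).1.comp (g1 n P j).lip, (range_comp_subset_range _ _).trans (P.2 j).2⟩⟩) n, rfl,
      fun _ _ => rfl⟩
  choose R r1 r2 using fun j => inf (n := 0) (h := fun t => G t (P t) j) fun t => by
    simpa using g1 t (P t) j
  have e : ∀ j t, p j.unpair.1 ∘ R j 0 = (P t).1 j ∘ R j t := by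
    intro j t
    induction t with
    | zero => rw [p0]
    | succ t ih => rw [ih, r2 j t, p1]; rfl
  have e' : ∀ j t, t ≤ j → R j 0 = R j t := by
    intro j t
    induction t with
    | zero => exact fun _ => rfl
    | succ t ih =>
      intro h
      rw [ih (by omega), r2 j t, g2 t _ j (by omega)]
      rfl
  refine ⟨fun j => p j.unpair.1 ∘ R j 0, ∅, fun j => (hp _).comp (r1 j 0), ⟨iUnion_subset fun j =>
    (range_comp_subset_range _ _).trans (subset_iUnion (fun i => range (p i)) _), fun i n =>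
    ⟨Nat.pair i n, R (Nat.pair i n) 0, ?_, by simp⟩⟩, countable_empty, empty_subset _,
    fun _ => ⟨fun n => k n (P n), fun x hx => ?_⟩⟩
  · rw [e' _ n (Nat.right_le_pair i n)]
    simpa using r1 _ n
  rw [union_empty, Sp, image_union, Submodule.span_union] at hx
  obtain ⟨y, y1, z, z1, rfl⟩ := Submodule.mem_sup.mp hx
  obtain ⟨l, rfl⟩ : y ∈ range c := hc ▸ y1
  have : em '' Rg (fun j => p j.unpair.1 ∘ R j 0) =
      range fun t : ℕ × K => em (p t.1.unpair.1 (R t.1 0 t.2)) := by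
    ext v
    simp [Rg]
  rw [this] at z1
  obtain ⟨a, rfl⟩ := Finsupp.mem_span_range_iff_exists_finsupp.mp z1
  have b1 : ∀ᶠ n : ℕ in atTop, ∀ s : a.support, s.1.1 < n ∧ |a s| ≤ n :=
    eventually_all.mpr fun s => (eventually_gt_atTop _).and
      (tendsto_natCast_atTop_atTop.eventually (eventually_ge_atTop _))
  have b2 : ∀ᶠ n : ℕ in atTop, ∀ s s' : a.support, s.1.1 = s'.1.1 →
      (∀ i < n, s.1.2 i = s'.1.2 i) → s = s' := by
    refine eventually_all.mpr fun s => eventually_all.mpr fun s' => ?_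
    by_cases t : s.1.2 = s'.1.2
    · exact Eventually.of_forall fun n h _ => Subtype.ext (Prod.ext h t)
    · obtain ⟨i, hi⟩ := ne_iff.mp t
      filter_upwards [eventually_gt_atTop i] with n hn _ h using absurd (h i hn) hi
  filter_upwards [b1, b2, eventually_gt_atTop l] with n h1 h2 h3
  have := g3 n (P n) a.support (fun s => (⟨s.1.1, (h1 s).1⟩, fun i => s.1.2 i))
    (fun s => R s.1.1 (n + 1) s.1.2) (fun s => a s) l (fun s s' t => h2 s s'
      (congrArg (fun v => v.1.1) t) fun i hi => congrFun (congrArg Prod.snd t) ⟨i, hi⟩)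
    (fun s i => (r1 _ _).fix _ _ (by omega)) (fun s => (h1 s).2) h3
  convert this using 2
  rw [Finsupp.sum, ← Finset.sum_coe_sort]
  refine Finset.sum_congr rfl fun s _ => ?_
  have t := congrFun (e s.1.1 n) s.1.2
  rw [r2 _ n] at t
  exact congrArg (fun v => a s • em v) t

lemma enum_meas : ∃ f : K → Set (ℕ → ℤ), (∀ c, MeasurableSet (f c)) ∧
    ∀ B, MeasurableSet B → ∃ c, f c = B := by
  have hc : Cardinal.mk {t : Set (ℕ → ℤ) | MeasurableSet t} ≤ Cardinal.mk (ℕ → Bool) := by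
    obtain ⟨b, hb, -, h2⟩ := TopologicalSpace.exists_countable_basis (ℕ → ℤ)
    have h3 := MeasurableSpace.cardinal_measurableSet_le_continuum (s := b)
      (hb.le_aleph0.trans Cardinal.aleph0_le_continuum)
    rw [← h2.borel_eq_generateFrom, ← BorelSpace.measurable_eq] at h3
    simpa using h3
  obtain ⟨e⟩ := hc
  haveI : Nonempty {t : Set (ℕ → ℤ) | MeasurableSet t} := ⟨⟨∅, by simp⟩⟩
  refine ⟨fun c => (Function.invFun e c).1, fun c => (Function.invFun e c).2, fun B hB =>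
    ⟨e ⟨B, hB⟩, congrArg Subtype.val (Function.leftInverse_invFun e.injective ⟨B, hB⟩)⟩⟩

theorem main (hCH : Cardinal.continuum.{0} = Cardinal.aleph 1) :
    ∃ X : Set K, Cardinal.continuum ≤ Cardinal.mk X ∧
      ∀ B : ℕ → ℕ → Set (ℕ → ℤ), (∀ n m, MeasurableSet (B n m)) →
        (∀ n, ∀ F : Set (ℕ → ℤ), F.Finite → F ⊆ Sp X → ∃ m, F ⊆ B n m) →
        ∃ g : ℕ → ℕ, ∀ x ∈ Sp X, ∀ᶠ n in atTop, x ∈ B n (g n) := by
  obtain ⟨f, f1, f2⟩ := enum_meas
  obtain ⟨r, wo, hr⟩ := Cardinal.exists_ord_eq (ℕ → ℕ → K)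
  have cI : Cardinal.mk (ℕ → ℕ → K) = Cardinal.continuum := by simp
  have cnt : ∀ x, {y | r y x}.Countable := by
    intro x
    rw [Cardinal.countable_iff_lt_aleph_one, ← hCH]
    have := Cardinal.card_typein_lt x hr
    rw [Ordinal.card_typein] at this
    exact this.trans_le (le_of_eq cI)
  let Q : (α : ℕ → ℕ → K) → ((β : ℕ → ℕ → K) → r β α → Set K × (ℕ → K → K)) →
      Set K × (ℕ → K → K) → Prop := fun α F d => (∀ i, M 0 (d.2 i)) ∧ d.1.Countable ∧
      (∀ β hβ, Ext (F β hβ).2 d.2 ∧ d.1 ⊆ Rg (F β hβ).2) ∧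
      (∃ y ∈ d.1, ∀ β hβ, y ∉ (F β hβ).1) ∧
      ((∀ n, ∀ S : Set (ℕ → ℤ), S.Finite → S ⊆ Sp ({x | ∃ β hβ, x ∈ (F β hβ).1} ∪ d.1) →
        ∃ m, S ⊆ f (α n m)) → ∃ g : ℕ → ℕ, ∀ x ∈ Sp ({x | ∃ β hβ, x ∈ (F β hβ).1} ∪ d.1 ∪ Rg d.2),
          ∀ᶠ n in atTop, x ∈ f (α n (g n)))
  let D : (ℕ → ℕ → K) → Set K × (ℕ → K → K) :=
    wo.wf.fix (fun α F => Classical.epsilon (Q α F))
  have hD : ∀ α, D α = Classical.epsilon (Q α (fun β _ => D β)) := fun α => wo.wf.fix_eq _ α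
  have key : ∀ α, Q α (fun β _ => D β) (D α) := by
    intro α
    induction α using wo.wf.induction with
    | _ α ih =>
      rw [hD α]
      apply Classical.epsilon_spec
      have : ∃ p : ℕ → K → K, (∀ i, M 0 (p i)) ∧ ∀ β, r β α → Ext (D β).2 p := by
        by_cases c : {β | r β α}.Nonempty
        · obtain ⟨P, hP⟩ := (cnt α).exists_eq_range c
          have PS : ∀ j, r (P j) α := fun j => show P j ∈ {β | r β α} from hP ▸ mem_range_self j
          obtain ⟨q, q1, q2⟩ := lower (P := fun j => (D (P j)).2) (fun j => (ih _ (PS j)).1)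
            fun a b => by
              rcases trichotomous_of r (P a) (P b) with t | t | t
              · exact Or.inl ((ih _ (PS b)).2.2.1 _ t).1
              · rw [t]; exact Or.inl (Ext.refl _)
              · exact Or.inr ((ih _ (PS a)).2.2.1 _ t).1
          refine ⟨q, q1, fun β hβ => ?_⟩
          obtain ⟨j, rfl⟩ : β ∈ range P := hP ▸ hβ
          exact q2 j
        · exact ⟨fun _ => id, fun _ => M.id 0, fun β hβ => absurd ⟨β, hβ⟩ c⟩
      obtain ⟨p, p1, p2⟩ := this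
      have hC : {x | ∃ β, ∃ _ : r β α, x ∈ (D β).1}.Countable :=
        ((cnt α).biUnion fun β hβ => (ih β hβ).2.1).mono fun x ⟨β, hβ, hx⟩ =>
          mem_iUnion₂.mpr ⟨β, hβ, hx⟩
      have : ∃ y, p 0 y ∉ {x | ∃ β, ∃ _ : r β α, x ∈ (D β).1} := by
        by_contra t
        push Not at t
        have := (hC.preimage_of_injOn (p1 0).inj.injOn).mono (show univ ⊆ _ from fun y _ => t y)
        rw [Cardinal.countable_iff_lt_aleph_one, Cardinal.mk_univ, ← hCH] at this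
        simp at this
      obtain ⟨y, hy⟩ := this
      obtain ⟨q, E, q1, q2, q3, q4, q5⟩ := handle (hC.union (countable_singleton (p 0 y))) p1
        (B := fun n m => f (α n m)) fun n m => f1 _
      refine ⟨({p 0 y} ∪ E, q), q1, (countable_singleton _).union q3, fun β hβ =>
        ⟨(p2 β hβ).trans q2, (union_subset ?_ q4).trans (p2 β hβ).1⟩,
        ⟨p 0 y, Or.inl rfl, fun β hβ t => hy ⟨β, hβ, t⟩⟩, ?_⟩
      · rintro _ rfl
        exact mem_iUnion.mpr ⟨0, y, rfl⟩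
      · simpa only [← union_assoc] using q5
  refine ⟨⋃ α, (D α).1, ?_, fun B b1 b2 => ?_⟩
  · choose y y1 y2 using fun α => (key α).2.2.2.1
    rw [← cI]
    refine Cardinal.mk_le_of_injective (f := fun α => ⟨y α, mem_iUnion.mpr ⟨α, y1 α⟩⟩)
      fun α β t => ?_
    have t' : y α = y β := congrArg Subtype.val t
    rcases trichotomous_of r α β with s | s | s
    · exact absurd (t' ▸ y1 α) (y2 β α s)
    · exact s
    · exact absurd (t' ▸ y1 β) (y2 α β s)
  · choose c hc using fun n m => f2 (B n m) (b1 n m)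
    obtain ⟨g, hg⟩ := (key c).2.2.2.2 fun n S s1 s2 => by
      simp only [hc]
      refine b2 n S s1 (s2.trans (Sp_mono ?_))
      rintro x (⟨β, _, hx⟩ | hx)
      · exact mem_iUnion.mpr ⟨β, hx⟩
      · exact mem_iUnion.mpr ⟨c, hx⟩
    simp only [hc] at hg
    refine ⟨g, fun x hx => hg x (Sp_mono (iUnion_subset fun β z hz => ?_) hx)⟩
    rcases trichotomous_of r c β with t | t | t
    · exact Or.inr (((key β).2.2.1 c t).2 hz)
    · exact Or.inl (Or.inr (t ▸ hz))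
    · exact Or.inl (Or.inl ⟨β, t, hz⟩)

end

end Pool.Agent.H18.BG
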