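import Mathlib

set_option autoImplicit false

namespace Pool.Agent.H18.Bonami

open MeasureTheory Filter Topology

lemma hilbert_gen {X κ : Type} [NormedAddCommGroup X] [NormedSpace ℝ X] [CompleteSpace X]
    (w : κ → X) (C : ℝ) (hC : 0 < C)
    (h : ∀ (t : Finset κ) (a : κ → ℝ), ∑ k ∈ t, a k ^ 2 < 1 → ‖∑ k ∈ t, a k • w k‖ ≤ C) :
    ∃ T : lp (fun _ : κ => ℝ) 2 →L[ℝ] X, ∀ k, w k ∈ Set.range T := by
  classical
  have h1 : ∀ r : ℝ, 0 < r → ∀ (t : Finset κ) (a : κ → ℝ), ∑ k ∈ t, a k ^ 2 < r ^ 2 →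
      ‖∑ k ∈ t, a k • w k‖ ≤ C * r := by
    intro r hr t a ha
    have := h t (fun k => r⁻¹ * a k) (by
      simp only [mul_pow, ← Finset.mul_sum]
      rw [inv_pow, inv_mul_lt_iff₀ (by positivity)]
      simpa using ha)
    simp only [mul_smul, ← Finset.smul_sum, norm_smul, norm_inv, Real.norm_eq_abs,
      abs_of_pos hr] at this
    rw [inv_mul_le_iff₀ hr] at this
    linarith
  have hs : ∀ a : lp (fun _ : κ => ℝ) 2, HasSum (fun k => a k ^ 2) (‖a‖ ^ 2) := by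
    intro a
    have := lp.hasSum_norm (p := 2) (by simp) a
    simpa using this
  have hsum : ∀ a : lp (fun _ : κ => ℝ) 2, Summable fun k => a k • w k := by
    intro a
    rw [summable_iff_vanishing_norm]
    intro ε hε
    obtain ⟨s, hs'⟩ := summable_iff_vanishing_norm.1 (hs a).summable ((ε / (2 * C)) ^ 2)
      (by positivity)
    refine ⟨s, fun t ht => ?_⟩
    have := h1 (ε / (2 * C)) (by positivity) t a ((le_abs_self _).trans_lt (hs' t ht))
    have e : C * (ε / (2 * C)) = ε / 2 := by field_simp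
    linarith
  let L : lp (fun _ : κ => ℝ) 2 →ₗ[ℝ] X :=
    { toFun := fun a => ∑' k, a k • w k
      map_add' := fun a b => by
        rw [← (hsum a).tsum_add (hsum b)]
        simp [add_smul]
      map_smul' := fun c a => by
        simp only [RingHom.id_apply]
        rw [← (hsum a).tsum_const_smul c]
        simp [mul_smul] }
  refine ⟨L.mkContinuous C fun a => ?_, fun k => ⟨lp.single 2 k 1, ?_⟩⟩
  · refine le_of_forall_pos_le_add fun ε hε => ?_
    refine le_of_tendsto' (hsum a).hasSum.norm fun t => ?_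
    have h2 : ∑ k ∈ t, a k ^ 2 ≤ ‖a‖ ^ 2 := sum_le_hasSum t (fun _ _ => sq_nonneg _) (hs a)
    have h3 : 0 < ε / C := by positivity
    have := h1 (‖a‖ + ε / C) (by positivity) t a (by nlinarith [norm_nonneg a])
    have e : C * (‖a‖ + ε / C) = C * ‖a‖ + ε := by field_simp
    linarith
  · change ∑' j, (lp.single (E := fun _ : κ => ℝ) 2 k (1 : ℝ)) j • w j = w k
    rw [tsum_eq_single k]
    · simp
    · intro j hj
      simp [lp.single_apply, hj]

lemma taylor (n : ℕ) : ∃ C : ℝ, 0 ≤ C ∧ ∀ x y : ℝ,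
    |(x + y) ^ (n + 2) - x ^ (n + 2) - (n + 2) * x ^ (n + 1) * y| ≤ C * y ^ 2 * (|x| + |y|) ^ n := by
  induction n with
  | zero => exact ⟨1, by norm_num, fun x y => by
      have : (x + y) ^ (0 + 2) - x ^ (0 + 2) - (((0 : ℕ) : ℝ) + 2) * x ^ (0 + 1) * y = y ^ 2 := by
        push_cast; ring
      rw [this]; simp⟩
  | succ n ih =>
    obtain ⟨C, hC, h⟩ := ih
    refine ⟨C + (n + 2), by positivity, fun x y => ?_⟩
    have e : (x + y) ^ (n + 1 + 2) - x ^ (n + 1 + 2) - (((n + 1 : ℕ) : ℝ) + 2) * x ^ (n + 1 + 1) * y =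
        (x + y) * ((x + y) ^ (n + 2) - x ^ (n + 2) - (n + 2) * x ^ (n + 1) * y) +
          (n + 2) * x ^ (n + 1) * y ^ 2 := by
      push_cast; ring
    rw [e]
    refine (abs_add_le _ _).trans ?_
    rw [abs_mul, abs_mul, abs_mul, abs_pow, abs_of_nonneg (sq_nonneg y),
      abs_of_nonneg (by positivity : (0 : ℝ) ≤ n + 2)]
    have h1 : |x + y| * |(x + y) ^ (n + 2) - x ^ (n + 2) - (n + 2) * x ^ (n + 1) * y| ≤
        (|x| + |y|) * (C * y ^ 2 * (|x| + |y|) ^ n) :=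
      mul_le_mul (abs_add_le _ _) (h x y) (abs_nonneg _) (by positivity)
    have h2 : |x| ^ (n + 1) ≤ (|x| + |y|) ^ (n + 1) :=
      pow_le_pow_left₀ (abs_nonneg _) (by linarith [abs_nonneg y]) _
    have h3 : (n + 2 : ℝ) * |x| ^ (n + 1) * y ^ 2 ≤ (n + 2) * (|x| + |y|) ^ (n + 1) * y ^ 2 := by
      gcongr
    calc _ ≤ (|x| + |y|) * (C * y ^ 2 * (|x| + |y|) ^ n) +
          (n + 2) * (|x| + |y|) ^ (n + 1) * y ^ 2 := add_le_add h1 h3
      _ = _ := by ring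

lemma max_pow {u v : ℝ} (hu : 0 ≤ u) (hv : 0 ≤ v) (n : ℕ) :
    (u + v) ^ n ≤ 2 ^ n * (u ^ n + v ^ n) := by
  rcases le_total u v with h | h
  · calc (u + v) ^ n ≤ (2 * v) ^ n := pow_le_pow_left₀ (by positivity) (by linarith) _
      _ = 2 ^ n * v ^ n := mul_pow _ _ _
      _ ≤ _ := by have := pow_nonneg hu n; gcongr; linarith
  · calc (u + v) ^ n ≤ (2 * u) ^ n := pow_le_pow_left₀ (by positivity) (by linarith) _
      _ = 2 ^ n * u ^ n := mul_pow _ _ _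
      _ ≤ _ := by have := pow_nonneg hv n; gcongr; linarith

lemma young {u v : ℝ} (hu : 0 ≤ u) (hv : 0 ≤ v) (n : ℕ) : u ^ n * v ≤ u ^ (n + 1) + v ^ (n + 1) := by
  rcases le_total u v with h | h
  · have : u ^ n * v ≤ v ^ n * v := by gcongr
    rw [pow_succ v]; have := pow_nonneg hu (n + 1); linarith
  · have : u ^ n * v ≤ u ^ n * u := by gcongr
    rw [pow_succ u]; have := pow_nonneg hv (n + 1); linarith

/-- pointwise Bonami step, exponent `2 (k + 2)` -/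
lemma pointwise (k : ℕ) : ∃ ρ : ℝ, 0 < ρ ∧ ∀ x y d s t : ℝ, |d| ≤ 1 → 0 < s → 0 < t →
    (x + ρ * (d * y)) ^ (2 * k + 4) ≤ x ^ (2 * k + 4) + (2 * k + 4) * ρ * (x ^ (2 * k + 3) * y * d)
      + (t / (2 * s)) * x ^ (2 * k + 4) + (s ^ (k + 1) / (2 * t ^ (k + 1)) + 1) * y ^ (2 * k + 4) := by
  obtain ⟨C, hC, h⟩ := taylor (2 * k + 2)
  set K : ℝ := C * 2 ^ (2 * k + 2) + 1 with hK
  have hK1 : 1 ≤ K := by rw [hK]; have : 0 ≤ C * 2 ^ (2 * k + 2) := by positivity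
                         linarith
  refine ⟨1 / (2 * K), by positivity, fun x y d s t hd hs ht => ?_⟩
  set ρ : ℝ := 1 / (2 * K) with hρ
  have hρ0 : 0 < ρ := by positivity
  have hρK : ρ * K = 1 / 2 := by rw [hρ]; field_simp
  have hρ1 : ρ ≤ 1 := by nlinarith
  set z := ρ * (d * y) with hz
  have hz1 : |z| ≤ ρ * |y| := by
    rw [hz, abs_mul, abs_mul, abs_of_pos hρ0]
    have : |d| * |y| ≤ 1 * |y| := by gcongr
    nlinarith
  have hz2 : |z| ≤ |y| := hz1.trans (by nlinarith [abs_nonneg y])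
  have h1 := (le_abs_self _).trans (h x z)
  have h2 : (|x| + |z|) ^ (2 * k + 2) ≤ 2 ^ (2 * k + 2) * ((x ^ 2) ^ (k + 1) + (y ^ 2) ^ (k + 1)) := by
    refine (max_pow (abs_nonneg _) (abs_nonneg _) _).trans ?_
    have e1 : |x| ^ (2 * k + 2) = (x ^ 2) ^ (k + 1) := by rw [← sq_abs x, ← pow_mul]; rfl
    have e2 : |z| ^ (2 * k + 2) ≤ (y ^ 2) ^ (k + 1) := by
      rw [← sq_abs y, ← pow_mul]
      exact pow_le_pow_left₀ (abs_nonneg _) hz2 _
    rw [e1]; gcongr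
  have h3 : z ^ 2 ≤ ρ * y ^ 2 := by
    rw [← sq_abs z, ← sq_abs y]
    have := pow_le_pow_left₀ (abs_nonneg _) hz1 2
    rw [mul_pow] at this
    have h4 : ρ ^ 2 * |y| ^ 2 ≤ ρ * |y| ^ 2 := by
      gcongr; nlinarith
    linarith
  set X := x ^ 2 with hX
  set Y := y ^ 2 with hY
  have hX0 : 0 ≤ X := sq_nonneg _
  have hY0 : 0 ≤ Y := sq_nonneg _
  have h5 : C * z ^ 2 * (|x| + |z|) ^ (2 * k + 2) ≤
      (1 / 2) * (X ^ (k + 1) * Y + Y ^ (k + 2)) := by
    calc _ ≤ C * (ρ * Y) * (2 ^ (2 * k + 2) * (X ^ (k + 1) + Y ^ (k + 1))) := by gcongr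
      _ = ρ * (C * 2 ^ (2 * k + 2)) * (X ^ (k + 1) * Y + Y ^ (k + 2)) := by ring
      _ ≤ ρ * K * (X ^ (k + 1) * Y + Y ^ (k + 2)) := by gcongr; linarith
      _ = _ := by rw [hρK]
  have h6 : X ^ (k + 1) * Y ≤ t / s * X ^ (k + 2) + s ^ (k + 1) / t ^ (k + 1) * Y ^ (k + 2) := by
    have := young (div_nonneg hX0 hs.le) (div_nonneg hY0 ht.le) (k + 1)
    have h7 := mul_le_mul_of_nonneg_left this (by positivity : 0 ≤ s ^ (k + 1) * t)
    calc X ^ (k + 1) * Y = s ^ (k + 1) * t * ((X / s) ^ (k + 1) * (Y / t)) := by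
          rw [div_pow]; field_simp
      _ ≤ _ := h7
      _ = _ := by rw [div_pow, div_pow]; field_simp; ring
  have ex : x ^ (2 * k + 4) = X ^ (k + 2) := by rw [hX, ← pow_mul]; rfl
  have ey : y ^ (2 * k + 4) = Y ^ (k + 2) := by rw [hY, ← pow_mul]; rfl
  have e3 : (((2 * k + 2 : ℕ) : ℝ) + 2) * x ^ (2 * k + 2 + 1) * z =
      (2 * k + 4) * ρ * (x ^ (2 * k + 3) * y * d) := by
    rw [hz]; push_cast; ring
  rw [e3] at h1
  have e4 : t / (2 * s) = (1 / 2) * (t / s) := by field_simp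
  have e5 : s ^ (k + 1) / (2 * t ^ (k + 1)) = (1 / 2) * (s ^ (k + 1) / t ^ (k + 1)) := by
    field_simp
  have hY2 : 0 ≤ Y ^ (k + 2) := by positivity
  rw [e4, e5, ey]
  have e6 : x ^ (2 * k + 2 + 2) = x ^ (2 * k + 4) := rfl
  have e7 : (x + z) ^ (2 * k + 2 + 2) = (x + z) ^ (2 * k + 4) := rfl
  rw [e6, e7] at h1
  rw [← ex] at h6
  nlinarith

lemma binom {s t : ℝ} (hs : 0 ≤ s) (ht : 0 ≤ t) (k : ℕ) :
    s ^ (k + 2) + s ^ (k + 1) * t + t ^ (k + 2) ≤ (s + t) ^ (k + 2) := by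
  induction k with
  | zero => simp only [zero_add, pow_one]; nlinarith [mul_nonneg hs ht]
  | succ k ih =>
    have h := mul_le_mul_of_nonneg_right ih (add_nonneg hs ht)
    rw [← pow_succ] at h
    refine le_trans ?_ h
    have a1 : 0 ≤ s ^ (k + 1) * t * t := by positivity
    have a2 : 0 ≤ t ^ (k + 2) * s := by positivity
    have a3 : 0 ≤ s ^ (k + 1) * t * s := by positivity
    have e1 : s ^ (k + 1 + 2) = s ^ (k + 2) * s := by ring
    have e2 : t ^ (k + 1 + 2) = t ^ (k + 2) * t := by ring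
    have e3 : s ^ (k + 1 + 1) = s ^ (k + 2) := rfl
    rw [e1, e2, e3]
    nlinarith

end Pool.Agent.H18.Bonami
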