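import Pool.Agent.H18.Bonami1

set_option autoImplicit false

namespace Pool.Agent.H18.Bonami

open MeasureTheory Filter Topology

variable {α : Type}

/-- bounded and measurable -/
def BM (m : MeasurableSpace α) (f : α → ℝ) : Prop := Measurable[m] f ∧ ∃ C, ∀ x, |f x| ≤ C

lemma BM.mono {m m' : MeasurableSpace α} {f : α → ℝ} (h : BM m f) (hm : m ≤ m') : BM m' f :=
  ⟨h.1.mono hm le_rfl, h.2⟩

lemma BM.const (m : MeasurableSpace α) (c : ℝ) : BM m (fun _ => c) :=
  ⟨measurable_const, |c|, fun _ => le_rfl⟩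

lemma BM.add {m : MeasurableSpace α} {f g : α → ℝ} (hf : BM m f) (hg : BM m g) :
    BM m (fun x => f x + g x) := by
  obtain ⟨C, hC⟩ := hf.2
  obtain ⟨D, hD⟩ := hg.2
  exact ⟨hf.1.add hg.1, C + D, fun x => (abs_add_le _ _).trans (add_le_add (hC x) (hD x))⟩

lemma BM.mul {m : MeasurableSpace α} {f g : α → ℝ} (hf : BM m f) (hg : BM m g) :
    BM m (fun x => f x * g x) := by
  obtain ⟨C, hC⟩ := hf.2
  obtain ⟨D, hD⟩ := hg.2
  refine ⟨hf.1.mul hg.1, C * D, fun x => ?_⟩
  rw [abs_mul]
  exact mul_le_mul (hC x) (hD x) (abs_nonneg _) ((abs_nonneg _).trans (hC x))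

lemma BM.pow {m : MeasurableSpace α} {f : α → ℝ} (hf : BM m f) (n : ℕ) :
    BM m (fun x => f x ^ n) := by
  induction n with
  | zero => simpa using BM.const m 1
  | succ n ih => simpa only [pow_succ] using ih.mul hf

lemma BM.sum {m : MeasurableSpace α} {κ : Type} (t : Finset κ) {f : κ → α → ℝ}
    (h : ∀ k ∈ t, BM m (f k)) : BM m (fun x => ∑ k ∈ t, f k x) := by
  classical
  induction t using Finset.induction_on with
  | empty => simpa using BM.const m 0
  | insert a t ha ih =>
    simp only [Finset.sum_insert ha]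
    exact (h a (by simp)).add (ih fun k hk => h k (by simp [hk]))

lemma BM.prod {m : MeasurableSpace α} {κ : Type} (t : Finset κ) {f : κ → α → ℝ}
    (h : ∀ k ∈ t, BM m (f k)) : BM m (fun x => ∏ k ∈ t, f k x) := by
  classical
  induction t using Finset.induction_on with
  | empty => simpa using BM.const m 1
  | insert a t ha ih =>
    simp only [Finset.prod_insert ha]
    exact (h a (by simp)).mul (ih fun k hk => h k (by simp [hk]))

lemma BM.ind {m : MeasurableSpace α} {s : Set α} (hs : MeasurableSet[m] s) :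
    BM m (s.indicator fun _ => (1 : ℝ)) :=
  ⟨measurable_const.indicator hs, 1, fun x => by by_cases h : x ∈ s <;> simp [h]⟩

lemma BM.memLp {m : MeasurableSpace α} {f : α → ℝ} (hf : BM m f) (μ : Measure α)
    [IsFiniteMeasure μ] (p : ENNReal) : MemLp f p μ := by
  obtain ⟨C, hC⟩ := hf.2
  exact MemLp.of_bound hf.1.aestronglyMeasurable C (Eventually.of_forall hC)

lemma BM.int {m : MeasurableSpace α} {f : α → ℝ} (hf : BM m f) (μ : Measure α)
    [IsFiniteMeasure μ] : Integrable f μ := memLp_one_iff_integrable.1 (hf.memLp μ 1)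

lemma exists_e {m m0 : MeasurableSpace α} (μ : Measure α) [IsFiniteMeasure μ] (hm : m ≤ m0)
    {s : Set α} (hs : MeasurableSet s) : ∃ e : α → ℝ, BM m e ∧ (∀ x, 0 ≤ e x ∧ e x ≤ 1) ∧
      ∀ φ, BM m φ → ∫ x, φ x * (s.indicator (fun _ => (1 : ℝ)) x - e x) ∂μ = 0 := by
  set g : α → ℝ := s.indicator (fun _ => (1 : ℝ)) with hg
  have hgi : Integrable g μ := (BM.ind hs).int μ
  have h0 : 0 ≤ᵐ[μ] μ[g | m] :=
    condExp_nonneg (Eventually.of_forall fun x => by by_cases h : x ∈ s <;> simp [hg, h])
  have h1 : ∀ᵐ x ∂μ, μ[g | m] x ≤ 1 :=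
    condExp_le_nonneg_const zero_le_one
      (Eventually.of_forall fun x => by by_cases h : x ∈ s <;> simp [hg, h])
  have hb : ∀ x, 0 ≤ max 0 (min 1 (μ[g | m] x)) ∧ max 0 (min 1 (μ[g | m] x)) ≤ 1 :=
    fun x => ⟨le_max_left _ _, max_le zero_le_one (min_le_left _ _)⟩
  have he : BM m fun x => max 0 (min 1 (μ[g | m] x)) :=
    ⟨measurable_const.max (measurable_const.min stronglyMeasurable_condExp.measurable), 1,
      fun x => abs_le.2 ⟨by linarith [(hb x).1], (hb x).2⟩⟩
  refine ⟨_, he, hb, fun φ hφ => ?_⟩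
  have i1 := ((hφ.mono hm).mul (BM.ind hs)).int μ
  have i2 := ((hφ.mul he).mono hm).int μ
  simp only [mul_sub]
  rw [integral_sub i1 i2, sub_eq_zero]
  have h2 := condExp_mul_of_stronglyMeasurable_left (μ := μ) (m := m) (f := φ) (g := g)
    hφ.1.stronglyMeasurable i1 hgi
  calc ∫ x, φ x * g x ∂μ = ∫ x, (μ[φ * g | m]) x ∂μ := (integral_condExp hm).symm
    _ = _ := by
      refine integral_congr_ae ?_
      filter_upwards [h2, h0, h1] with x a b c
      have b' : (0 : ℝ) ≤ μ[g | m] x := b
      rw [a, min_eq_right c, max_eq_right b']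
      rfl

section main
variable [m0 : MeasurableSpace α] (μ : Measure α) [IsFiniteMeasure μ]
  {ι : Type} [LinearOrder ι]

lemma hyper (m : ι → MeasurableSpace α) (hm : ∀ β, m β ≤ m0) (d : ι → α → ℝ)
    (hd1 : ∀ β x, |d β x| ≤ 1) (hd : ∀ β γ, β < γ → BM (m γ) (d β)) (hd0 : ∀ β, BM m0 (d β))
    (ho : ∀ β φ, BM (m β) φ → ∫ x, φ x * d β x ∂μ = 0) (k : ℕ) :
    ∃ ρ : ℝ, 0 < ρ ∧ ∀ (B : Finset ι) (a : Finset ι → ℝ) (s : ℝ),
      ∑ F ∈ B.powerset, a F ^ 2 < s →
      ∫ x, (∑ F ∈ B.powerset, a F * (ρ ^ F.card * ∏ β ∈ F, d β x)) ^ (2 * k + 4) ∂μ ≤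
        μ.real Set.univ * s ^ (k + 2) := by
  obtain ⟨ρ, hρ, hp⟩ := pointwise k
  refine ⟨ρ, hρ, fun B => ?_⟩
  have hc : 0 ≤ μ.real Set.univ := measureReal_nonneg
  induction B using Finset.induction_on_max with
  | empty =>
    intro a s hs
    simp only [Finset.powerset_empty, Finset.sum_singleton, Finset.card_empty, pow_zero,
      Finset.prod_empty, mul_one, integral_const, smul_eq_mul] at hs ⊢
    have : a ∅ ^ (2 * k + 4) = (a ∅ ^ 2) ^ (k + 2) := by rw [← pow_mul]; rfl
    rw [this]
    gcongr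
  | insert β B hB ih =>
    intro a s hs
    have hβ : β ∉ B := fun h => lt_irrefl _ (hB β h)
    rw [Finset.sum_powerset_insert hβ] at hs
    set s₀ := ∑ F ∈ B.powerset, a F ^ 2 with hs₀
    set s₁ := ∑ F ∈ B.powerset, a (insert β F) ^ 2 with hs₁
    have h0 : 0 ≤ s₀ := Finset.sum_nonneg fun _ _ => sq_nonneg _
    have h1 : 0 ≤ s₁ := Finset.sum_nonneg fun _ _ => sq_nonneg _
    obtain ⟨u, t, hu, ht, hut⟩ : ∃ u t : ℝ, s₀ < u ∧ s₁ < t ∧ u + t = s :=
      ⟨s₀ + (s - s₀ - s₁) / 2, s₁ + (s - s₀ - s₁) / 2, by linarith, by linarith, by ring⟩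
    have hu0 : 0 < u := h0.trans_lt hu
    have ht0 : 0 < t := h1.trans_lt ht
    have ix := ih a u hu
    have iy := ih (fun F => a (insert β F)) t ht
    have hbm : ∀ b : Finset ι → ℝ, BM (m β)
        fun x => ∑ F ∈ B.powerset, b F * (ρ ^ F.card * ∏ β ∈ F, d β x) := fun b =>
      BM.sum _ fun F hF => (BM.const _ _).mul ((BM.const _ _).mul (BM.prod _ fun γ hγ =>
        hd γ β (hB γ (Finset.mem_powerset.1 hF hγ))))
    set X : α → ℝ := fun x => ∑ F ∈ B.powerset, a F * (ρ ^ F.card * ∏ β ∈ F, d β x) with hX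
    set Y : α → ℝ := fun x => ∑ F ∈ B.powerset, a (insert β F) * (ρ ^ F.card * ∏ β ∈ F, d β x)
      with hY
    have bX : BM (m β) X := hbm a
    have bY : BM (m β) Y := hbm _
    have e : ∀ x, ∑ F ∈ (insert β B).powerset, a F * (ρ ^ F.card * ∏ β ∈ F, d β x) =
        X x + ρ * (d β x * Y x) := by
      intro x
      rw [Finset.sum_powerset_insert hβ]
      simp only [hX, hY, Finset.mul_sum]
      congr 1
      refine Finset.sum_congr rfl fun F hF => ?_
      have hF' : β ∉ F := fun h => hβ (Finset.mem_powerset.1 hF h)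
      rw [Finset.card_insert_of_notMem hF', Finset.prod_insert hF']
      ring
    simp only [e]
    have iX := ((bX.pow (2 * k + 4)).mono (hm β)).int μ
    have iY := ((bY.pow (2 * k + 4)).mono (hm β)).int μ
    have iZ := ((((bX.pow (2 * k + 3)).mul bY).mono (hm β)).mul (hd0 β)).int μ
    have hZ := ho β _ ((bX.pow (2 * k + 3)).mul bY)
    have i0 := (((bX.mono (hm β)).add ((BM.const _ ρ).mul ((hd0 β).mul (bY.mono (hm β))))).pow
      (2 * k + 4)).int μ
    refine (integral_mono i0 (((iX.add (iZ.const_mul _)).add (iX.const_mul _)).add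
      (iY.const_mul _)) fun x => hp (X x) (Y x) (d β x) u t (hd1 β x) hu0 ht0).trans ?_
    simp only [Pi.add_apply]
    rw [integral_add (by exact (iX.add (iZ.const_mul _)).add (iX.const_mul _)) (iY.const_mul _),
      integral_add (by exact iX.add (iZ.const_mul _)) (iX.const_mul _),
      integral_add iX (iZ.const_mul _), integral_const_mul, integral_const_mul,
      integral_const_mul, hZ, ← hut]
    have b := mul_le_mul_of_nonneg_left (binom hu0.le ht0.le k) hc
    refine le_trans ?_ b
    have c1 : t / (2 * u) * ∫ x, X x ^ (2 * k + 4) ∂μ ≤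
        t / (2 * u) * (μ.real Set.univ * u ^ (k + 2)) := by gcongr
    have c2 : (u ^ (k + 1) / (2 * t ^ (k + 1)) + 1) * ∫ x, Y x ^ (2 * k + 4) ∂μ ≤
        (u ^ (k + 1) / (2 * t ^ (k + 1)) + 1) * (μ.real Set.univ * t ^ (k + 2)) := by gcongr
    have e1 : t / (2 * u) * (μ.real Set.univ * u ^ (k + 2)) =
        μ.real Set.univ * (u ^ (k + 1) * t) / 2 := by field_simp; ring
    have e2 : (u ^ (k + 1) / (2 * t ^ (k + 1)) + 1) * (μ.real Set.univ * t ^ (k + 2)) =
        μ.real Set.univ * (u ^ (k + 1) * t) / 2 + μ.real Set.univ * t ^ (k + 2) := by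
      field_simp; ring
    rw [e1] at c1
    rw [e2] at c2
    simp only [mul_add, mul_zero]
    linarith

variable {μ} {p : ENNReal} [Fact (1 ≤ p)]

/-- the function `h` is represented in the subspace `V` -/
def In (V : Submodule ℝ (Lp ℝ p μ)) (h : α → ℝ) : Prop := ∃ g ∈ V, (g : α → ℝ) =ᵐ[μ] h

lemma In.add {V : Submodule ℝ (Lp ℝ p μ)} {f g : α → ℝ} (hf : In V f) (hg : In V g) :
    In V fun x => f x + g x := by
  obtain ⟨a, ha, h1⟩ := hf
  obtain ⟨b, hb, h2⟩ := hg
  refine ⟨a + b, V.add_mem ha hb, ?_⟩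
  filter_upwards [Lp.coeFn_add a b, h1, h2] with x e1 e2 e3
  rw [e1, Pi.add_apply, e2, e3]

lemma In.smul {V : Submodule ℝ (Lp ℝ p μ)} {f : α → ℝ} (hf : In V f) (c : ℝ) :
    In V fun x => c * f x := by
  obtain ⟨a, ha, h1⟩ := hf
  refine ⟨c • a, V.smul_mem c ha, ?_⟩
  filter_upwards [Lp.coeFn_smul c a, h1] with x e1 e2
  rw [e1, Pi.smul_apply, e2, smul_eq_mul]

lemma In.mem {V : Submodule ℝ (Lp ℝ p μ)} {f : α → ℝ} (hf : In V f) (g : Lp ℝ p μ)
    (h : (g : α → ℝ) =ᵐ[μ] f) : g ∈ V := by
  obtain ⟨a, ha, h1⟩ := hf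
  rwa [Lp.ext (h.trans h1.symm)]

end main

lemma in_of_basic {m m0 : MeasurableSpace α} {μ : Measure α} [IsFiniteMeasure μ] {p : ENNReal}
    [Fact (1 ≤ p)] (hp : p ≠ ⊤) (V : Submodule ℝ (Lp ℝ p μ))
    (hV : IsClosed (V : Set (Lp ℝ p μ))) (hm : m ≤ m0) (S : Set (Set α))
    (hS : m = MeasurableSpace.generateFrom S) (hpi : IsPiSystem S) (h1 : In V fun _ => 1)
    (hb : ∀ s ∈ S, In V (s.indicator fun _ => 1)) (g : Lp ℝ p μ)
    (hg : AEStronglyMeasurable[m] g μ) : g ∈ V := by
  have hind : ∀ s, MeasurableSet[m] s → In V (s.indicator fun _ => 1) := by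
    intro s hs
    induction s, hs using MeasurableSpace.induction_on_inter hS hpi with
    | empty => exact ⟨0, V.zero_mem, by rw [Set.indicator_empty]; exact Lp.coeFn_zero ℝ p μ⟩
    | basic t ht => exact hb t ht
    | compl t _ ih =>
      have := h1.add (ih.smul (-1))
      refine (congrArg (In V) ?_).mp this
      funext x
      by_cases h : x ∈ t <;> simp [h]
    | iUnion f hf hfm ih =>
      let U : ℕ → Set α := fun n => ⋃ i ≥ n, f i
      have hU : ∀ n, MeasurableSet[m0] (U n) := fun n =>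
        MeasurableSet.biUnion (Set.to_countable _) fun i _ => hm _ (hfm i)
      let G : ℕ → Lp ℝ p μ := fun n => indicatorConstLp p (hU n) (measure_ne_top μ _) (1 : ℝ)
      have hG : ∀ n, G 0 - G n ∈ V := by
        intro n
        induction n with
        | zero => simp
        | succ n ih2 =>
          have : G n - G (n + 1) ∈ V := by
            refine (ih n).mem _ ?_
            filter_upwards [Lp.coeFn_sub (G n) (G (n + 1)),
              indicatorConstLp_coeFn (p := p) (hs := hU n) (hμs := measure_ne_top μ _)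
                (c := (1 : ℝ)),
              indicatorConstLp_coeFn (p := p) (hs := hU (n + 1)) (hμs := measure_ne_top μ _)
                (c := (1 : ℝ))] with x e1 e2 e3
            rw [e1, Pi.sub_apply, e2, e3]
            by_cases h : x ∈ f n
            · have a1 : x ∈ U n := Set.mem_biUnion (le_refl n) h
              have a2 : x ∉ U (n + 1) := by
                simp only [U, Set.mem_iUnion, not_exists]
                intro i hi hx
                exact Set.disjoint_left.1 (hf (by omega : n ≠ i)) h hx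
              simp [h, a1, a2]
            · have : x ∈ U n ↔ x ∈ U (n + 1) := by
                simp only [U, Set.mem_iUnion]
                constructor
                · rintro ⟨i, hi, hx⟩
                  refine ⟨i, ?_, hx⟩
                  rcases eq_or_lt_of_le hi with rfl | h2
                  · exact absurd hx h
                  · exact h2
                · rintro ⟨i, hi, hx⟩
                  exact ⟨i, by omega, hx⟩
              by_cases h2 : x ∈ U n
              · simp [h, h2, this.1 h2]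
              · simp [h, h2, this.not.1 h2]
          simpa using V.add_mem ih2 this
      have hlim : Tendsto G atTop (𝓝 0) := by
        have := tendsto_indicatorConstLp_set (μ := μ) (p := p) (c := (1 : ℝ)) (l := atTop)
          (t := U) (s := ∅) (hs := MeasurableSet.empty) (hμs := by simp) (ht := hU)
          (hμt := fun _ => measure_ne_top μ _) hp (by
            have := tendsto_measure_biUnion_Ici_zero_of_pairwise_disjoint (μ := μ) (Es := f)
              (fun i => (hm _ (hfm i)).nullMeasurableSet) hf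
            simpa [← Set.bot_eq_empty, U, Function.comp_def] using this)
        simpa using this
      have h0 : G 0 ∈ V := by
        have := hV.mem_of_tendsto (tendsto_const_nhds.sub hlim) (Eventually.of_forall hG)
        simpa using this
      refine ⟨G 0, h0, ?_⟩
      have : U 0 = ⋃ i, f i := by simp [U]
      rw [← this]
      exact indicatorConstLp_coeFn
  refine Lp.induction_stronglyMeasurable hm hp (fun g => g ∈ V) (fun c s hs hμs => ?_)
    (fun f g _ _ _ _ _ a b => V.add_mem a b) (hV.preimage continuous_subtype_val) g hg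
  refine ((hind s hs).smul c).mem _ ?_
  rw [Lp.simpleFunc.coe_indicatorConst]
  filter_upwards [indicatorConstLp_coeFn (p := p) (hs := hm s hs) (hμs := hμs.ne) (c := c)]
    with x e
  rw [e]
  by_cases h : x ∈ s <;> simp [h]

end Pool.Agent.H18.Bonami
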