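import Mathlib

set_option autoImplicit false

namespace Pool.Agent.H18.Chord

lemma walk_of_seq {V : Type} (G : SimpleGraph V) : ∀ (L : ℕ) (f : ℕ → V),
    (∀ t < L, G.Adj (f t) (f (t + 1))) →
    ∃ p : G.Walk (f 0) (f L), p.length = L ∧ ∀ t ≤ L, p.getVert t = f t := by
  intro L
  induction L with
  | zero =>
    intro f _
    refine ⟨.nil, rfl, fun t ht => ?_⟩
    obtain rfl : t = 0 := by omega
    rfl
  | succ L ih =>
    intro f h
    obtain ⟨p, hl, hp⟩ := ih (fun t => f (t + 1)) (fun t ht => h (t + 1) (by omega))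
    refine ⟨.cons (h 0 (by omega)) p, by simp [hl], fun t ht => ?_⟩
    cases t with
    | zero => rfl
    | succ t => exact hp t (by omega)

lemma chord_seq {V : Type} (G : SimpleGraph V)
    (H : ∀ (u : V) (c : G.Walk u u), c.IsCycle → 6 ≤ c.length →
        ∃ i j : ℕ, i + 1 < j ∧ j < c.length ∧ ¬ (i = 0 ∧ j + 1 = c.length) ∧
          G.Adj (c.getVert i) (c.getVert j))
    (L : ℕ) (f : ℕ → V) (hL : 6 ≤ L) (adj : ∀ t < L, G.Adj (f t) (f (t + 1))) (hc : f L = f 0)
    (inj : ∀ s t, s < L → t < L → f s = f t → s = t) :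
    ∃ i j : ℕ, i + 1 < j ∧ j < L ∧ ¬ (i = 0 ∧ j + 1 = L) ∧ G.Adj (f i) (f j) := by
  obtain ⟨p, hl, hp⟩ := walk_of_seq G L f adj
  have hl' : (p.copy rfl hc).length = L := by simp [hl]
  obtain ⟨i, j, h1, h2, h3, h4⟩ := H (f 0) (p.copy rfl hc) (by
    rw [SimpleGraph.Walk.isCycle_iff_isPath_tail_and_le_length,
      ← SimpleGraph.Walk.IsPath.getVert_injOn_iff]
    refine ⟨fun s hs t ht hst => ?_, by omega⟩
    simp only [Set.mem_setOf_eq, SimpleGraph.Walk.length_tail, hl'] at hs ht
    simp only [SimpleGraph.Walk.getVert_tail, SimpleGraph.Walk.getVert_copy] at hst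
    rw [hp _ (by omega), hp _ (by omega)] at hst
    by_cases a : s + 1 = L <;> by_cases b : t + 1 = L
    · omega
    · rw [a, hc] at hst
      have := inj _ _ (by omega) (by omega) hst
      omega
    · rw [b, hc] at hst
      have := inj _ _ (by omega) (by omega) hst
      omega
    · have := inj _ _ (by omega) (by omega) hst
      omega) (by omega)
  rw [hl'] at h2 h3
  simp only [SimpleGraph.Walk.getVert_copy] at h4
  rw [hp _ (by omega), hp _ (by omega)] at h4
  exact ⟨i, j, h1, h2, h3, h4⟩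

def NoCyc {α β : Type} (A : α → β → Prop) : Prop :=
  ∀ k, 2 ≤ k → ∀ (i : ℕ → α) (j : ℕ → β), (∀ s ≤ k, ∀ t ≤ k, i s = i t → s = t) →
    (∀ s ≤ k, ∀ t ≤ k, j s = j t → s = t) →
    ¬ ∀ s ≤ k, ∀ t ≤ k, (A (i s) (j t) ↔
      (s + 1 = t ∨ t + 1 = s ∨ (s = 0 ∧ t = 0) ∨ (s = k ∧ t = k)))

lemma nocyc_of_chord {α β : Type} (J : Set (α × β)) (G : SimpleGraph (α ⊕ β))
    (hG : G = SimpleGraph.fromRel (fun x y : α ⊕ β =>
            ∃ i j, x = Sum.inl i ∧ y = Sum.inr j ∧ (i, j) ∈ J))
    (H : ∀ (u : α ⊕ β) (c : G.Walk u u), c.IsCycle → 6 ≤ c.length →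
        ∃ i j : ℕ, i + 1 < j ∧ j < c.length ∧ ¬ (i = 0 ∧ j + 1 = c.length) ∧
          G.Adj (c.getVert i) (c.getVert j)) : NoCyc (fun x y => (x, y) ∈ J) := by
  intro k hk i j hi hj hA
  beta_reduce at hA
  have a1 : ∀ x y, G.Adj (.inl x) (.inr y) ↔ (x, y) ∈ J := by
    intro x y; simp [hG, SimpleGraph.fromRel_adj]
  have a2 : ∀ x y, G.Adj (.inr y) (.inl x) ↔ (x, y) ∈ J := by
    intro x y; rw [G.adj_comm, a1]
  have a3 : ∀ x y, ¬ G.Adj (.inl x) (.inl y) := by
    intro x y; simp [hG, SimpleGraph.fromRel_adj]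
  have a4 : ∀ x y, ¬ G.Adj (.inr x) (.inr y) := by
    intro x y; simp [hG, SimpleGraph.fromRel_adj]
  obtain ⟨ix, hix⟩ : ∃ ix : ℕ → ℕ, ∀ t, (t ≤ k ∧ ix t = t) ∨ (k < t ∧ ix t = 2 * k + 1 - t) :=
    ⟨fun t => if t ≤ k then t else 2 * k + 1 - t, fun t => by
      beta_reduce; split_ifs <;> omega⟩
  have hle : ∀ t, ix t ≤ k := fun t => by have := hix t; omega
  let f : ℕ → α ⊕ β := fun t => if t % 2 = 0 then .inl (i (ix t)) else .inr (j (ix t))
  have hadj : ∀ s t, G.Adj (f s) (f t) ↔ (s % 2 ≠ t % 2 ∧ (ix s + 1 = ix t ∨ ix t + 1 = ix s ∨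
      (ix s = 0 ∧ ix t = 0) ∨ (ix s = k ∧ ix t = k))) := by
    intro s t
    simp only [f]
    split_ifs with h1 h2 h2
    · simp [a3, h1, h2]
    · rw [a1, hA _ (hle _) _ (hle _)]; omega
    · rw [a2, hA _ (hle _) _ (hle _)]; omega
    · simp only [a4, false_iff]; omega
  obtain ⟨s, t, h1, h2, h3, h4⟩ := chord_seq G H (2 * k + 2) f (by omega)
    (fun t ht => by
      rw [hadj]
      have := hix t
      have := hix (t + 1)
      omega)
    (by
      have e1 : ix (2 * k + 2) = 0 := by have := hix (2 * k + 2); omega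
      have e2 : ix 0 = 0 := by have := hix 0; omega
      simp only [f, e1, e2]
      have e3 : (2 * k + 2) % 2 = 0 := by omega
      simp [e3])
    (fun s t hs ht hst => by
      have := hix s
      have := hix t
      simp only [f] at hst
      split_ifs at hst with h1 h2 h2
      · have := hi _ (hle _) _ (hle _) (Sum.inl.inj hst); omega
      · have := hj _ (hle _) _ (hle _) (Sum.inr.inj hst); omega)
  rw [hadj] at h4
  have := hix s
  have := hix t
  omega

def Lex {m n : ℕ} (A : Fin m → Fin n → Prop) : Prop :=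
  ∀ i i', i < i' → ∀ j, A i j → ¬ A i' j →
    ∃ j', j < j' ∧ ¬ A i j' ∧ A i' j' ∧ ∀ j'', j' < j'' → (A i j'' ↔ A i' j'')

lemma gamma_free {m n : ℕ} (A : Fin m → Fin n → Prop) (row : Lex A)
    (col : Lex fun j i => A i j) (nc : NoCyc A) (i₀ i₁ : Fin m) (j₀ j₁ : Fin n) (hi : i₀ < i₁)
    (hj : j₀ < j₁) (h00 : A i₀ j₀) (h01 : A i₀ j₁) (h10 : A i₁ j₀) : A i₁ j₁ := by
  by_contra h11
  have P : ∀ k, ∃ (i : ℕ → Fin m) (j : ℕ → Fin n),
      (∀ s t, s < t → t ≤ k + 1 → i s < i t) ∧ (∀ s t, s < t → t ≤ k + 1 → j s < j t) ∧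
      (∀ s ≤ k + 1, ∀ t ≤ k + 1, (A (i s) (j t) ↔ (s + 1 = t ∨ t + 1 = s ∨ (s = 0 ∧ t = 0)))) ∧
      (∀ s ≤ k, ∀ y, j (k + 1) < y → (A (i s) y ↔ A (i k) y)) ∧
      (∀ s ≤ k, ∀ x, i (k + 1) < x → (A x (j s) ↔ A x (j k))) := by
    intro k
    induction k with
    | zero =>
      refine ⟨fun s => if s = 0 then i₀ else i₁, fun s => if s = 0 then j₀ else j₁,
        fun s t h1 h2 => ?_, fun s t h1 h2 => ?_, fun s hs t ht => ?_, fun s hs y _ => ?_,
        fun s hs y _ => ?_⟩
      · obtain ⟨rfl, rfl⟩ : s = 0 ∧ t = 1 := by omega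
        simpa using hi
      · obtain ⟨rfl, rfl⟩ : s = 0 ∧ t = 1 := by omega
        simpa using hj
      · obtain rfl | rfl : s = 0 ∨ s = 1 := by omega
        all_goals obtain rfl | rfl : t = 0 ∨ t = 1 := by omega
        all_goals simp [h00, h01, h10, h11]
      · obtain rfl : s = 0 := by omega
        rfl
      · obtain rfl : s = 0 := by omega
        rfl
    | succ k ih =>
      obtain ⟨i, j, mi, mj, hA, ar, ac⟩ := ih
      obtain ⟨y, y1, y2, y3, y4⟩ := row (i k) (i (k + 1)) (mi _ _ (by omega) le_rfl) (j (k + 1))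
        ((hA _ (by omega) _ le_rfl).2 (by omega)) (by rw [hA _ le_rfl _ le_rfl]; omega)
      obtain ⟨x, x1, x2, x3, x4⟩ := col (j k) (j (k + 1)) (mj _ _ (by omega) le_rfl) (i (k + 1))
        ((hA _ le_rfl _ (by omega)).2 (by omega))
        (by beta_reduce; rw [hA _ le_rfl _ le_rfl]; omega)
      beta_reduce at x2 x3 x4
      obtain ⟨i', hi1, hi2⟩ : ∃ i' : ℕ → Fin m, (∀ s ≤ k + 1, i' s = i s) ∧ i' (k + 2) = x :=
        ⟨fun s => if s ≤ k + 1 then i s else x, fun s hs => if_pos hs, if_neg (by omega)⟩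
      obtain ⟨j', hj1, hj2⟩ : ∃ j' : ℕ → Fin n, (∀ s ≤ k + 1, j' s = j s) ∧ j' (k + 2) = y :=
        ⟨fun s => if s ≤ k + 1 then j s else y, fun s hs => if_pos hs, if_neg (by omega)⟩
      have mi' : ∀ s t, s < t → t ≤ k + 1 + 1 → i' s < i' t := by
        intro s t h1 h2
        rw [hi1 s (by omega)]
        by_cases h : t ≤ k + 1
        · rw [hi1 t h]; exact mi _ _ h1 h
        · obtain rfl : t = k + 2 := by omega
          rw [hi2]
          rcases Nat.lt_or_ge s (k + 1) with h3 | h3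
          · exact (mi _ _ h3 le_rfl).trans x1
          · obtain rfl : s = k + 1 := by omega
            exact x1
      have mj' : ∀ s t, s < t → t ≤ k + 1 + 1 → j' s < j' t := by
        intro s t h1 h2
        rw [hj1 s (by omega)]
        by_cases h : t ≤ k + 1
        · rw [hj1 t h]; exact mj _ _ h1 h
        · obtain rfl : t = k + 2 := by omega
          rw [hj2]
          rcases Nat.lt_or_ge s (k + 1) with h3 | h3
          · exact (mj _ _ h3 le_rfl).trans y1
          · obtain rfl : s = k + 1 := by omega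
            exact y1
      have hA' : ∀ s ≤ k + 2, ∀ t ≤ k + 2, ¬ (s = k + 2 ∧ t = k + 2) →
          (A (i' s) (j' t) ↔ (s + 1 = t ∨ t + 1 = s ∨ (s = 0 ∧ t = 0))) := by
        intro s hs t ht hst
        by_cases a : s ≤ k + 1 <;> by_cases b : t ≤ k + 1
        · rw [hi1 s a, hj1 t b]; exact hA s a t b
        · obtain rfl : t = k + 2 := by omega
          rw [hi1 s a, hj2]
          rcases Nat.lt_or_ge s (k + 1) with h3 | h3
          · rw [ar s (by omega) y y1]
            simp only [y2, false_iff]; omega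
          · obtain rfl : s = k + 1 := by omega
            simp [y3]
        · obtain rfl : s = k + 2 := by omega
          rw [hj1 t b, hi2]
          rcases Nat.lt_or_ge t (k + 1) with h3 | h3
          · rw [ac t (by omega) x x1]
            simp only [x2, false_iff]; omega
          · obtain rfl : t = k + 1 := by omega
            simp [x3]
        · omega
      have hxy : ¬ A (i' (k + 2)) (j' (k + 2)) := by
        intro hxy
        refine nc (k + 2) (by omega) i' j' (fun s hs t ht h => ?_) (fun s hs t ht h => ?_)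
          (fun s hs t ht => ?_)
        · rcases lt_trichotomy s t with h1 | h1 | h1
          · exact absurd h (mi' _ _ h1 ht).ne
          · exact h1
          · exact absurd h (mi' _ _ h1 hs).ne'
        · rcases lt_trichotomy s t with h1 | h1 | h1
          · exact absurd h (mj' _ _ h1 ht).ne
          · exact h1
          · exact absurd h (mj' _ _ h1 hs).ne'
        · by_cases h : s = k + 2 ∧ t = k + 2
          · obtain ⟨rfl, rfl⟩ := h
            simp [hxy]
          · rw [hA' s hs t ht h]; tauto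
      refine ⟨i', j', mi', mj', fun s hs t ht => ?_, fun s hs z hz => ?_, fun s hs z hz => ?_⟩
      · by_cases h : s = k + 2 ∧ t = k + 2
        · obtain ⟨rfl, rfl⟩ := h
          simp only [hxy, false_iff]; omega
        · exact hA' s hs t ht h
      · rw [hj2] at hz
        rw [hi1 s hs, hi1 _ le_rfl, ← y4 z hz]
        rcases Nat.lt_or_ge s (k + 1) with h3 | h3
        · exact ar s (by omega) z (y1.trans hz)
        · obtain rfl : s = k + 1 := by omega
          exact (y4 z hz).symm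
      · rw [hi2] at hz
        rw [hj1 s hs, hj1 _ le_rfl, ← x4 z hz]
        rcases Nat.lt_or_ge s (k + 1) with h3 | h3
        · exact ac s (by omega) z (x1.trans hz)
        · obtain rfl : s = k + 1 := by omega
          exact (x4 z hz).symm
  obtain ⟨i, -, mi, -⟩ := P m
  have : ∀ s ≤ m + 1, s ≤ (i s).1 := by
    intro s
    induction s with
    | zero => simp
    | succ s ih =>
      intro hs
      have h1 := ih (by omega)
      have h2 : (i s).1 < (i (s + 1)).1 := mi s (s + 1) (by omega) hs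
      omega
  have h1 := this (m + 1) le_rfl
  have h2 := (i (m + 1)).2
  omega

lemma dom {n : ℕ} (c : Fin n) (u : Fin n → ℤ) (hu : ∀ j, -1 ≤ u j) (h1 : u c = 1)
    (h0 : ∀ j, c < j → u j = 0) : 0 < ∑ j, u j * 2 ^ j.1 := by
  obtain ⟨v, hv, hv1⟩ : ∃ v : ℕ → ℤ, (∀ j : Fin n, v j = u j) ∧ ∀ k, n ≤ k → v k = 0 :=
    ⟨fun k => if h : k < n then u ⟨k, h⟩ else 0, fun j => by simp, fun k hk => by
      simp [not_lt.2 hk]⟩
  have hv2 : ∀ k, -1 ≤ v k := by
    intro k
    by_cases h : k < n
    · exact (hv ⟨k, h⟩).symm ▸ hu _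
    · rw [hv1 k (by omega)]; omega
  have a : ∀ N, -(2 ^ N - 1) ≤ ∑ j ∈ Finset.range N, v j * 2 ^ j := by
    intro N
    induction N with
    | zero => simp
    | succ N ih =>
      rw [Finset.sum_range_succ, pow_succ]
      have := hv2 N
      have h2 : (0 : ℤ) < 2 ^ N := by positivity
      nlinarith
  simp only [← hv]
  rw [Fin.sum_univ_eq_sum_range (fun k => v k * 2 ^ k) n]
  have hc := c.2
  rw [← Finset.sum_subset (s₁ := Finset.range (c + 1)) (by
    intro j hj; simp only [Finset.mem_range] at hj ⊢; omega) (by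
    intro j hj' hj
    simp only [Finset.mem_range] at hj hj'
    have := h0 ⟨j, hj'⟩ (by rw [Fin.lt_def]; simp only; omega)
    rw [← hv] at this
    rw [this, zero_mul])]
  rw [Finset.sum_range_succ, hv, h1]
  have := a c
  linarith

open Classical in
lemma lex_of_max {m n : ℕ} (A : Fin m → Fin n → Prop)
    (h : ∀ π : Equiv.Perm (Fin m),
      ∑ i, ∑ j, (if A (π i) j then (1 : ℤ) else 0) * 2 ^ j.1 * 2 ^ i.1 ≤
      ∑ i, ∑ j, (if A i j then (1 : ℤ) else 0) * 2 ^ j.1 * 2 ^ i.1) : Lex A := by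
  intro i i' hii j hj hj'
  set g : Fin m → ℤ := fun i => ∑ j, (if A i j then (1 : ℤ) else 0) * 2 ^ j.1 with hg
  have hle : g i ≤ g i' := by
    have h1 := h (Equiv.swap i i')
    simp only [← Finset.sum_mul] at h1
    have h2 : ∑ x : Fin m, (g (Equiv.swap i i' x) * 2 ^ x.1 - g x * 2 ^ x.1) ≤ 0 := by
      rw [Finset.sum_sub_distrib]; exact sub_nonpos.2 h1
    rw [Fintype.sum_eq_add i i' hii.ne (fun x hx => by
      rw [Equiv.swap_apply_of_ne_of_ne hx.1 hx.2, sub_self])] at h2
    simp only [Equiv.swap_apply_left, Equiv.swap_apply_right] at h2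
    have h3 : (2 : ℤ) ^ i.1 < 2 ^ i'.1 := pow_lt_pow_right₀ (by norm_num) hii
    by_contra h4
    nlinarith
  obtain ⟨w, hw, hmax⟩ := Finset.exists_max_image
    (Finset.univ.filter fun w => ¬ (A i w ↔ A i' w)) id ⟨j, by simp [hj, hj']⟩
  have hw' : ¬ (A i w ↔ A i' w) := by simpa using hw
  have hag : ∀ z, w < z → (A i z ↔ A i' z) := by
    intro z hz
    by_contra h2
    exact absurd (hmax z (by simpa using h2)) (not_le.2 hz)
  by_cases hA : A i w
  · exfalso
    have hA' : ¬ A i' w := by tauto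
    have := dom w (fun z => (if A i z then (1 : ℤ) else 0) - (if A i' z then (1 : ℤ) else 0))
      (fun z => by split_ifs <;> simp) (by simp [hA, hA']) (fun z hz => by simp [hag z hz])
    simp only [sub_mul, Finset.sum_sub_distrib] at this
    simp only [hg] at hle
    linarith
  · refine ⟨w, lt_of_le_of_ne (hmax j (by simp [hj, hj'])) ?_, hA, by tauto, hag⟩
    rintro rfl
    exact hA hj

theorem exists_nest {m n : ℕ} (A : Fin m → Fin n → Prop) (nc : NoCyc A) :
    ∃ rk : Fin m → Fin m, Function.Injective rk ∧ ∀ x j j', A x j → A x j' →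
      (∀ y, rk x < rk y → A y j → A y j') ∨ (∀ y, rk x < rk y → A y j' → A y j) := by
  classical
  obtain ⟨⟨σ, τ⟩, hmax⟩ := Finite.exists_max
    (fun p : Equiv.Perm (Fin m) × Equiv.Perm (Fin n) =>
      ∑ i, ∑ j, (if A (p.1 i) (p.2 j) then (1 : ℤ) else 0) * 2 ^ j.1 * 2 ^ i.1)
  have row : Lex fun i j => A (σ i) (τ j) :=
    lex_of_max _ fun π => hmax (π.trans σ, τ)
  have col : Lex fun j i => A (σ i) (τ j) := by
    refine lex_of_max _ fun π => ?_
    have := hmax (σ, π.trans τ)
    rw [Finset.sum_comm, Finset.sum_comm (s := (Finset.univ : Finset (Fin m)))] at this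
    simp only [mul_right_comm, Equiv.trans_apply] at this ⊢
    exact this
  have nc' : NoCyc fun i j => A (σ i) (τ j) := fun k hk i j hi hj =>
    nc k hk (fun s => σ (i s)) (fun s => τ (j s))
      (fun s hs t ht h => hi s hs t ht (σ.injective h))
      (fun s hs t ht h => hj s hs t ht (τ.injective h))
  have gf := gamma_free _ row col nc'
  refine ⟨σ.symm, σ.symm.injective, fun x j j' h1 h2 => ?_⟩
  rcases lt_trichotomy (τ.symm j) (τ.symm j') with h | h | h
  · exact Or.inl fun y hy h3 => by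
      simpa using gf _ _ _ _ hy h (by simpa using h1) (by simpa using h2) (by simpa using h3)
  · rw [τ.symm.injective h]; exact Or.inl fun _ _ h => h
  · exact Or.inr fun y hy h3 => by
      simpa using gf _ _ _ _ hy h (by simpa using h2) (by simpa using h1) (by simpa using h3)

end Pool.Agent.H18.Chord
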