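import Pool.Agent.H18.Chord1

set_option autoImplicit false

namespace Pool.Agent.H18.Chord

open Module

variable {F : Type} [Field F] {m n : ℕ} (J : Set (Fin m × Fin n))
  (a : Matrix (Fin m) (Fin n) F)

def N (S : Finset (Fin m)) (j : Fin n) : Prop := ∀ y ∈ S, (y, j) ∈ J

def E {V : Type} [AddCommGroup V] [Module F V] (u : Fin m → V) (S : Finset (Fin m)) :
    Submodule F V := Submodule.span F (u '' (S : Set (Fin m)))

def Good (u : Fin m → Fin m → F) (S : Finset (Fin m)) : Prop :=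
  ∀ j, N J S j → ∃ φ : (Fin m → F) →ₗ[F] F, ∀ y ∈ S, φ (u y) = a y j

def Tri (S : Set (Fin m × Fin n)) : Prop := ∀ p ∈ S, ∀ q ∈ S, (p.1, q.2) ∈ S ∨ (q.1, p.2) ∈ S

def Hk (S : Finset (Fin m)) (k : ℕ) : Prop :=
  ∃ T ⊆ J, Tri T ∧ (∀ p ∈ T, p.1 ∈ S) ∧ ∀ B : Matrix (Fin m) (Fin n) F,
    (∀ p ∈ T, B p.1 p.2 = a p.1 p.2) → k ≤ finrank F (E (F := F) B.row S)

def W0 (M : Finset (Fin m)) (z : Fin m) : Prop :=
  ∃ ν : Fin m → F, ∀ j, N J (insert z M) j → a z j = ∑ y ∈ M, ν y * a y j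

variable {J a}

lemma N_mono {S S' : Finset (Fin m)} (h : S ⊆ S') {j : Fin n} (hj : N J S' j) : N J S j :=
  fun y hy => hj y (h hy)

section
variable {V : Type} [AddCommGroup V] [Module F V]

lemma E_mono (u : Fin m → V) {S S' : Finset (Fin m)} (h : S ⊆ S') :
    E (F := F) u S ≤ E (F := F) u S' :=
  Submodule.span_mono (Set.image_mono (by exact_mod_cast h))

lemma E_insert (u : Fin m → V) (S : Finset (Fin m)) (z : Fin m) :
    E (F := F) u (insert z S) = E (F := F) u S ⊔ Submodule.span F {u z} := by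
  unfold E
  rw [Finset.coe_insert, Set.image_insert_eq, Submodule.span_insert, sup_comm]

lemma mem_E (u : Fin m → V) (S : Finset (Fin m)) (v : V) :
    v ∈ E (F := F) u S ↔ ∃ μ : Fin m → F, ∑ y ∈ S, μ y • u y = v :=
  Submodule.mem_span_image_finset_iff_exists_fun' F

lemma E_congr {u u' : Fin m → V} {S : Finset (Fin m)} (h : ∀ y ∈ S, u y = u' y) :
    E (F := F) u S = E (F := F) u' S := by
  unfold E
  rw [Set.image_congr (fun y hy => h y hy)]

end

lemma Hk_mono {S S' : Finset (Fin m)} (h : S ⊆ S') {k k' : ℕ} (hk : k' ≤ k) (H : Hk J a S k) :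
    Hk J a S' k' := by
  obtain ⟨T, h1, h2, h3, h4⟩ := H
  exact ⟨T, h1, h2, fun p hp => h (h3 p hp), fun B hB =>
    hk.trans ((h4 B hB).trans (Submodule.finrank_mono (E_mono _ h)))⟩

lemma Hk_zero (S : Finset (Fin m)) : Hk J a S 0 :=
  ⟨∅, by simp, by simp [Tri], by simp, fun _ _ => Nat.zero_le _⟩

lemma Hk_succ {M : Finset (Fin m)} {k : ℕ} {z : Fin m} (H : Hk J a M k) (hw : ¬ W0 J a M z) :
    Hk J a (insert z M) (k + 1) := by
  obtain ⟨T, h1, h2, h3, h4⟩ := H
  refine ⟨T ∪ {p | p.1 ∈ insert z M ∧ N J (insert z M) p.2}, ?_, ?_, ?_, fun B hB => ?_⟩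
  · rintro p (hp | hp)
    · exact h1 hp
    · exact hp.2 _ hp.1
  · rintro p (hp | hp) q (hq | hq)
    · exact (h2 p hp q hq).imp Or.inl Or.inl
    · exact Or.inl (Or.inr ⟨Finset.mem_insert_of_mem (h3 p hp), hq.2⟩)
    · exact Or.inr (Or.inr ⟨Finset.mem_insert_of_mem (h3 q hq), hp.2⟩)
    · exact Or.inl (Or.inr ⟨hp.1, hq.2⟩)
  · rintro p (hp | hp)
    · exact Finset.mem_insert_of_mem (h3 p hp)
    · exact hp.1
  · rw [E_insert, Submodule.finrank_sup_span_singleton]
    · exact Nat.succ_le_succ (h4 B fun p hp => hB p (Or.inl hp))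
    · intro hz
      obtain ⟨ν, hν⟩ := (mem_E _ _ _).1 hz
      refine hw ⟨ν, fun j hj => ?_⟩
      have e := congrFun hν j
      simp only [Finset.sum_apply, Pi.smul_apply, smul_eq_mul, Matrix.row] at e
      rw [← hB (z, j) (Or.inr ⟨Finset.mem_insert_self _ _, hj⟩), ← e]
      refine Finset.sum_congr rfl fun y hy => ?_
      rw [hB (y, j) (Or.inr ⟨Finset.mem_insert_of_mem hy, hj⟩)]

variable (J a) in
def Rep (u : Fin m → Fin m → F) (x : Fin m) (M : Finset (Fin m)) (v : Fin m → F) : Prop :=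
  ∃ μ : Fin m → F, ∑ y ∈ M, μ y • u y = v ∧
    ∀ j, N J (insert x M) j → a x j = ∑ y ∈ M, μ y * a y j

lemma Rep_mono {u : Fin m → Fin m → F} {x : Fin m} {M M' : Finset (Fin m)} {v : Fin m → F}
    (h : M ⊆ M') (H : Rep J a u x M v) : Rep J a u x M' v := by
  obtain ⟨μ, h1, h2⟩ := H
  refine ⟨fun y => if y ∈ M then μ y else 0, ?_, fun j hj => ?_⟩
  · rw [← h1, ← Finset.sum_subset h (fun y _ hy => by simp [hy])]
    exact Finset.sum_congr rfl fun y hy => by simp [hy]
  · rw [h2 j (N_mono (Finset.insert_subset_insert _ h) hj),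
      ← Finset.sum_subset h (fun y _ hy => by simp [hy])]
    exact Finset.sum_congr rfl fun y hy => by simp [hy]

lemma exists_v (u : Fin m → Fin m → F) (x : Fin m) (X : Finset (Fin m)) (hx : x ∉ X)
    (C : Set (Finset (Fin m))) (hC : IsChain (· ⊆ ·) C) (hX : ∀ M ∈ C, M ⊆ X)
    (hH : ∀ M ∈ C, Hk J a M (finrank F (E (F := F) u M)))
    (hB : ∀ M ∈ C, M ≠ ∅ → ∃ z ∈ M, M.erase z ∈ C ∧ ∀ K ∈ C, K ⊂ M → K ⊆ M.erase z) :
    ∃ v, ∀ M ∈ C, Rep J a u x M v ∨
      (v ∉ E (F := F) u M ∧ Hk J a (insert x M) (finrank F (E (F := F) u M) + 1)) := by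
  classical
  by_cases hall : ∀ M ∈ C, Hk J a (insert x M) (finrank F (E (F := F) u M) + 1)
  · have : E (F := F) u X ≠ ⊤ := by
      intro h
      have h1 : finrank F (E (F := F) u X) ≤ (X.image u).card := by
        have := finrank_span_finset_le_card (R := F) (X.image u)
        unfold E
        rw [← Finset.coe_image]
        exact this
      have h2 : X.card < m := by
        have := Finset.card_lt_card (Finset.ssubset_univ_iff.2 (fun h : X = Finset.univ =>
          hx (h ▸ Finset.mem_univ x)))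
        simpa using this
      have h3 := Finset.card_image_le (s := X) (f := u)
      rw [h, finrank_top, finrank_fin_fun] at h1
      omega
    obtain ⟨v, hv⟩ : ∃ v, v ∉ E (F := F) u X := by
      by_contra h
      exact this (eq_top_iff.2 fun v _ => by by_contra h2; exact h ⟨v, h2⟩)
    exact ⟨v, fun M hM => Or.inr ⟨fun h => hv (E_mono u (hX M hM) h), hall M hM⟩⟩
  · obtain ⟨M, ⟨hM, hnM⟩, hmin⟩ := WellFounded.has_min (wellFounded_lt (α := Finset (Fin m)))
      {M | M ∈ C ∧ ¬ Hk J a (insert x M) (finrank F (E (F := F) u M) + 1)} (by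
        by_contra h
        exact hall fun M hM => by by_contra h2; exact h ⟨M, hM, h2⟩)
    have hlow : ∀ K ∈ C, K ⊂ M → Hk J a (insert x K) (finrank F (E (F := F) u K) + 1) := by
      intro K hK hKM
      by_contra h
      exact hmin K ⟨hK, h⟩ hKM
    have w1 : W0 J a M x := by
      by_contra h
      exact hnM (Hk_succ (hH M hM) h)
    suffices ∃ v, Rep J a u x M v ∧ ∀ K ∈ C, K ⊂ M → v ∉ E (F := F) u K by
      obtain ⟨v, h1, h2⟩ := this
      refine ⟨v, fun K hK => ?_⟩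
      by_cases hMK : M ⊆ K
      · exact Or.inl (Rep_mono hMK h1)
      · have hKM : K ⊂ M := ⟨(hC.total hK hM).resolve_right hMK, hMK⟩
        exact Or.inr ⟨h2 K hK hKM, hlow K hK hKM⟩
    obtain ⟨μ, hμ⟩ := w1
    by_cases hM0 : M = ∅
    · exact ⟨_, ⟨μ, rfl, hμ⟩, fun K _ hK => absurd (hM0 ▸ hK) (by simp)⟩
    obtain ⟨z, hz, hzC, hzK⟩ := hB M hM hM0
    set M₀ := M.erase z with hM₀
    have hins : insert z M₀ = M := Finset.insert_erase hz
    have hz0 : z ∉ M₀ := Finset.notMem_erase _ _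
    have hx0 : x ∉ M₀ := fun h => hx (hX _ hzC h)
    have hP0 := hlow M₀ hzC (Finset.erase_ssubset hz)
    have hsub : insert x M₀ ⊆ insert x M := Finset.insert_subset_insert _ (Finset.erase_subset _ _)
    have huz : u z ∉ E (F := F) u M₀ := by
      intro h
      apply hnM
      refine Hk_mono hsub (le_of_eq ?_) hP0
      rw [← hins, E_insert, sup_eq_left.2 ((Submodule.span_singleton_le_iff_mem _ _).2 h)]
    have w2 : W0 J a (insert x M₀) z := by
      by_contra h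
      apply hnM
      refine Hk_mono (le_of_eq ?_) (le_of_eq ?_) (Hk_succ hP0 h)
      · rw [← hins]; exact Finset.insert_comm _ _ _
      · rw [← hins, E_insert, Submodule.finrank_sup_span_singleton huz]
    obtain ⟨ν, hν⟩ := w2
    obtain ⟨μ', hμ'z, hμ'⟩ : ∃ μ' : Fin m → F, μ' z ≠ 0 ∧
        ∀ j, N J (insert x M) j → a x j = ∑ y ∈ M, μ' y * a y j := by
      by_cases h : μ z = 0
      · refine ⟨fun y => if y = z then 1 else μ y - ν y - ν x * μ y, by simp, fun j hj => ?_⟩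
        have e1 := hμ j hj
        have e2 := hν j (by rwa [Finset.insert_comm, hins])
        rw [← hins, Finset.sum_insert hz0] at e1 ⊢
        rw [Finset.sum_insert hx0] at e2
        have e3 : ∑ y ∈ M₀, (if y = z then 1 else μ y - ν y - ν x * μ y) * a y j =
            ∑ y ∈ M₀, μ y * a y j - ∑ y ∈ M₀, ν y * a y j - ν x * ∑ y ∈ M₀, μ y * a y j := by
          rw [Finset.mul_sum, ← Finset.sum_sub_distrib, ← Finset.sum_sub_distrib]
          refine Finset.sum_congr rfl fun y hy => ?_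
          rw [if_neg (by rintro rfl; exact hz0 hy)]
          ring
        rw [e3]
        beta_reduce
        rw [if_pos rfl]
        rw [h] at e1
        linear_combination e1 - e2 - ν x * e1
      · exact ⟨μ, h, hμ⟩
    refine ⟨_, ⟨μ', rfl, hμ'⟩, fun K hK hKM hv => huz ?_⟩
    have hv0 := E_mono u (hzK K hK hKM) hv
    rw [← hins, Finset.sum_insert hz0] at hv0
    have h2 : ∑ y ∈ M₀, μ' y • u y ∈ E (F := F) u M₀ := (mem_E _ _ _).2 ⟨μ', rfl⟩
    have h3 := Submodule.sub_mem _ hv0 h2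
    rw [add_sub_cancel_right] at h3
    exact (Submodule.smul_mem_iff _ hμ'z).1 h3

open Classical in
variable (J a) in
def Inv (X : Finset (Fin m)) : Prop :=
  ∃ (𝒱 : Set (Finset (Fin m))) (u : Fin m → Fin m → F), ∅ ∈ 𝒱 ∧ X ∈ 𝒱 ∧ (∀ S ∈ 𝒱, S ⊆ X) ∧
    (∀ S ∈ 𝒱, ∀ S' ∈ 𝒱, S ⊂ S' → ∃ z ∈ S', z ∉ S ∧ S'.erase z ∈ 𝒱) ∧
    (∀ j, X.filter (fun y => (y, j) ∈ J) ∈ 𝒱) ∧
    ∀ S ∈ 𝒱, Good J a u S ∧ Hk J a S (finrank F (E (F := F) u S))

lemma inv_empty : Inv J a ∅ := by
  refine ⟨{∅}, 0, rfl, rfl, by simp, by simp, by simp, ?_⟩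
  rintro S rfl
  refine ⟨fun j _ => ⟨0, by simp⟩, ?_⟩
  have : E (F := F) (0 : Fin m → Fin m → F) ∅ = ⊥ := by simp [E]
  rw [this, finrank_bot]
  exact Hk_zero _

lemma inv_step (X : Finset (Fin m)) (x : Fin m) (hx : x ∉ X)
    (nest : ∀ j j', (x, j) ∈ J → (x, j') ∈ J →
      (∀ y ∈ X, (y, j) ∈ J → (y, j') ∈ J) ∨ (∀ y ∈ X, (y, j') ∈ J → (y, j) ∈ J))
    (H : Inv J a X) : Inv J a (insert x X) := by
  classical
  obtain ⟨𝒱, u, h0, hX, hsub, hacc, hcol, hG⟩ := H
  let C₀ : Set (Finset (Fin m)) :=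
    {S | S = ∅ ∨ S = X ∨ ∃ j, (x, j) ∈ J ∧ S = X.filter (fun y => (y, j) ∈ J)}
  have hC₀ : C₀ ⊆ 𝒱 ∧ IsChain (· ⊆ ·) C₀ := by
    constructor
    · rintro S (rfl | rfl | ⟨j, -, rfl⟩)
      · exact h0
      · exact hX
      · exact hcol j
    · rintro S (rfl | rfl | ⟨j, hj, rfl⟩) S' (rfl | rfl | ⟨j', hj', rfl⟩) _
      any_goals simp
      rcases nest j j' hj hj' with h | h
      · exact Or.inl fun y hy => by
          simp only [Finset.mem_filter] at hy ⊢; exact ⟨hy.1, h y hy.1 hy.2⟩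
      · exact Or.inr fun y hy => by
          simp only [Finset.mem_filter] at hy ⊢; exact ⟨hy.1, h y hy.1 hy.2⟩
  obtain ⟨C, hC₀C, hmax⟩ := Finite.exists_le_maximal
    (p := fun C : Set (Finset (Fin m)) => C ⊆ 𝒱 ∧ IsChain (· ⊆ ·) C) hC₀
  obtain ⟨hCV, hC⟩ := hmax.1
  have hB : ∀ M ∈ C, M ≠ ∅ → ∃ z ∈ M, M.erase z ∈ C ∧ ∀ K ∈ C, K ⊂ M → K ⊆ M.erase z := by
    intro M hM hM0
    obtain ⟨K₀, ⟨hK₀, hK₀M⟩, hKmax⟩ := WellFounded.has_min (wellFounded_gt (α := Finset (Fin m)))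
      {K | K ∈ C ∧ K ⊂ M} ⟨∅, hC₀C (Or.inl rfl), Finset.empty_ssubset.2
        (Finset.nonempty_iff_ne_empty.2 hM0)⟩
    obtain ⟨z, hz, hzK, hzV⟩ := hacc K₀ (hCV hK₀) M (hCV hM) hK₀M
    have hlow : ∀ K ∈ C, K ⊂ M → K ⊆ M.erase z := by
      intro K hK hKM
      have : K ⊆ K₀ := by
        by_contra h
        exact hKmax K ⟨hK, hKM⟩ ⟨(hC.total hK hK₀).resolve_left h, h⟩
      intro y hy
      exact Finset.mem_erase.2 ⟨by rintro rfl; exact hzK (this hy), hKM.1 hy⟩
    refine ⟨z, hz, ?_, hlow⟩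
    refine hmax.2 (y := insert (M.erase z) C) ⟨Set.insert_subset hzV hCV, hC.insert ?_⟩
      (Set.subset_insert _ _) (Set.mem_insert _ _)
    intro K hK _
    by_cases hMK : M ⊆ K
    · exact Or.inl ((Finset.erase_subset _ _).trans hMK)
    · exact Or.inr (hlow K hK ⟨(hC.total hK hM).resolve_right hMK, hMK⟩)
  obtain ⟨v, hv⟩ := exists_v (J := J) (a := a) u x X hx C hC (fun M hM => hsub M (hCV hM))
    (fun M hM => (hG M (hCV hM)).2) hB
  have hxS : ∀ S ∈ 𝒱, x ∉ S := fun S hS h => hx (hsub S hS h)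
  have hu : ∀ S ∈ 𝒱, ∀ y ∈ S, Function.update u x v y = u y := fun S hS y hy =>
    Function.update_of_ne (by rintro rfl; exact hxS S hS hy) _ _
  refine ⟨𝒱 ∪ {S | ∃ M ∈ C, S = insert x M}, Function.update u x v, Or.inl h0,
    Or.inr ⟨X, hC₀C (Or.inr (Or.inl rfl)), rfl⟩, ?_, ?_, fun j => ?_, ?_⟩
  · rintro S (hS | ⟨M, hM, rfl⟩)
    · exact (hsub S hS).trans (Finset.subset_insert _ _)
    · exact Finset.insert_subset_insert _ (hsub M (hCV hM))
  · rintro S (hS | ⟨K, hK, rfl⟩) S' (hS' | ⟨M, hM, rfl⟩) hlt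
    · obtain ⟨z, h1, h2, h3⟩ := hacc S hS S' hS' hlt
      exact ⟨z, h1, h2, Or.inl h3⟩
    · refine ⟨x, Finset.mem_insert_self _ _, hxS S hS, Or.inl ?_⟩
      rw [Finset.erase_insert (hxS M (hCV hM))]
      exact hCV hM
    · exact absurd (hlt.1 (Finset.mem_insert_self _ _)) (hxS S' hS')
    · have hKM : K ⊂ M := by
        refine ⟨fun y hy => ?_, fun h => hlt.2 (Finset.insert_subset_insert _ h)⟩
        rcases Finset.mem_insert.1 (hlt.1 (Finset.mem_insert_of_mem hy)) with rfl | h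
        · exact absurd hy (hxS K (hCV hK))
        · exact h
      obtain ⟨z, h1, h2, h3⟩ := hB M hM (by rintro rfl; simp at hKM)
      have hzx : z ≠ x := by rintro rfl; exact hxS M (hCV hM) h1
      refine ⟨z, Finset.mem_insert_of_mem h1, ?_, Or.inr ⟨M.erase z, h2, ?_⟩⟩
      · rw [Finset.mem_insert]
        rintro (h | h)
        · exact hzx h
        · exact Finset.notMem_erase _ _ (h3 K hK hKM h)
      · exact Finset.erase_insert_of_ne hzx.symm
  · rw [Finset.filter_insert]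
    split_ifs with h
    · exact Or.inr ⟨_, hC₀C (Or.inr (Or.inr ⟨j, h, rfl⟩)), rfl⟩
    · exact Or.inl (hcol j)
  · rintro S (hS | ⟨M, hM, rfl⟩)
    · rw [E_congr (hu S hS)]
      refine ⟨fun j hj => ?_, (hG S hS).2⟩
      obtain ⟨φ, hφ⟩ := (hG S hS).1 j hj
      exact ⟨φ, fun y hy => by rw [hu S hS y hy, hφ y hy]⟩
    · have hMV := hCV hM
      rw [E_insert, E_congr (hu M hMV), Function.update_self]
      have key : ∀ j, (∃ φ : (Fin m → F) →ₗ[F] F, φ v = a x j ∧ ∀ y ∈ M, φ (u y) = a y j) →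
          ∃ φ : (Fin m → F) →ₗ[F] F, ∀ y ∈ insert x M, φ (Function.update u x v y) = a y j := by
        rintro j ⟨φ, h1, h2⟩
        refine ⟨φ, fun y hy => ?_⟩
        rcases Finset.mem_insert.1 hy with rfl | hy
        · rwa [Function.update_self]
        · rw [hu M hMV y hy, h2 y hy]
      rcases hv M hM with ⟨μ, h1, h2⟩ | ⟨h1, h2⟩
      · constructor
        · intro j hj
          obtain ⟨φ, hφ⟩ := (hG M hMV).1 j (N_mono (Finset.subset_insert _ _) hj)
          refine key j ⟨φ, ?_, hφ⟩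
          rw [h2 j hj, ← h1, map_sum]
          exact Finset.sum_congr rfl fun y hy => by rw [map_smul, hφ y hy, smul_eq_mul]
        · rw [sup_eq_left.2 ((Submodule.span_singleton_le_iff_mem _ _).2
            ((mem_E _ _ _).2 ⟨μ, h1⟩))]
          exact Hk_mono (Finset.subset_insert _ _) le_rfl (hG M hMV).2
      · constructor
        · intro j hj
          obtain ⟨φ, hφ⟩ := (hG M hMV).1 j (N_mono (Finset.subset_insert _ _) hj)
          obtain ⟨ψ, hψ1, hψ2⟩ := Submodule.exists_le_ker_of_notMem h1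
          refine key j ⟨φ + ((a x j - φ v) / ψ v) • ψ, ?_, fun y hy => ?_⟩
          · simp only [LinearMap.add_apply, LinearMap.smul_apply, smul_eq_mul]
            field_simp
            ring
          · have : ψ (u y) = 0 := hψ2 (Submodule.subset_span ⟨y, hy, rfl⟩)
            simp [this, hφ y hy]
        · rwa [Submodule.finrank_sup_span_singleton h1]

theorem main (nc : NoCyc fun x y => (x, y) ∈ J) :
    ∃ T ⊆ J, Tri T ∧ ∃ B₀ : Matrix (Fin m) (Fin n) F, (∀ p ∈ J, B₀ p.1 p.2 = a p.1 p.2) ∧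
      ∀ B : Matrix (Fin m) (Fin n) F, (∀ p ∈ T, B p.1 p.2 = a p.1 p.2) → B₀.rank ≤ B.rank := by
  classical
  obtain ⟨rk, hinj, hn⟩ := exists_nest _ nc
  have hall : ∀ X, Inv J a X := by
    intro X
    induction X using Finset.induction_on_min_value rk with
    | empty => exact inv_empty
    | insert x X hx hmin ih =>
      have hlt : ∀ y ∈ X, rk x < rk y := fun y hy =>
        lt_of_le_of_ne (hmin y hy) (fun h => hx (hinj h ▸ hy))
      exact inv_step X x hx (fun j j' h1 h2 => (hn x j j' h1 h2).imp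
        (fun h y hy => h y (hlt y hy)) (fun h y hy => h y (hlt y hy))) ih
  obtain ⟨𝒱, u, -, hX, -, -, hcol, hG⟩ := hall Finset.univ
  obtain ⟨T, h1, h2, -, h4⟩ := (hG _ hX).2
  choose φ hφ using fun j => (hG _ (hcol j)).1 j (fun y hy => by simpa using hy)
  refine ⟨T, h1, h2, Matrix.of fun y j => φ j (u y), fun p hp => hφ p.2 p.1 (by simpa using hp),
    fun B hB => ?_⟩
  have e : ∀ {V : Type} [AddCommGroup V] [Module F V] (w : Fin m → V),
      E (F := F) w Finset.univ = Submodule.span F (Set.range w) := by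
    intro V _ _ w; simp [E]
  have h5 := h4 B hB
  rw [e, e, ← Matrix.rank_eq_finrank_span_row] at h5
  refine le_trans ?_ h5
  rw [Matrix.rank_eq_finrank_span_row]
  have : Submodule.span F (Set.range (Matrix.of fun y j => φ j (u y)).row) =
      (Submodule.span F (Set.range u)).map (LinearMap.pi φ) := by
    rw [Submodule.map_span, ← Set.range_comp]
    rfl
  rw [this]
  exact Submodule.finrank_map_le _ _

end Pool.Agent.H18.Chord
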