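import Pool.Agent.H18.OT1

set_option autoImplicit false

namespace Pool.Agent.H18.Cr

open Set Filter Topology

noncomputable section
open Classical

/-- decoding of finite sets -/
def dc (a : ℕ) : Set ℕ := ↑((Denumerable.eqv (Finset ℕ)).symm a)

lemma dc_fin (a : ℕ) : (dc a).Finite := Finset.finite_toSet _

lemma dc_surj {s : Set ℕ} (hs : s.Finite) : ∃ a, dc a = s :=
  ⟨Denumerable.eqv (Finset ℕ) hs.toFinset, by simp [dc]⟩

/-- rank of a family of finite sets inside `c` -/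
def R (S : Set ℕ) : ℕ → Set ℕ → Prop
  | 0, c => ∃ a ∈ S, dc a ⊆ c
  | d + 1, c => ∃ a ∈ S, dc a ⊆ c ∧ ∃ b0 b1 : Set ℕ, Disjoint b0 b1 ∧ b0 ⊆ dc a ∧ b1 ⊆ dc a ∧
      R S d b0 ∧ R S d b1

lemma R.mono {S S' : Set ℕ} (hS : S ⊆ S') : ∀ {d : ℕ} {c c' : Set ℕ}, c ⊆ c' → R S d c → R S' d c'
  | 0, _, _, hc, ⟨a, a1, a2⟩ => ⟨a, hS a1, a2.trans hc⟩
  | _ + 1, _, _, hc, ⟨a, a1, a2, b0, b1, h1, h2, h3, h4, h5⟩ =>
    ⟨a, hS a1, a2.trans hc, b0, b1, h1, h2, h3, R.mono hS le_rfl h4, R.mono hS le_rfl h5⟩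

lemma R.pred {S : Set ℕ} {d : ℕ} {c : Set ℕ} (h : R S (d + 1) c) : R S d c := by
  obtain ⟨a, -, a2, b0, -, -, h2, -, h4, -⟩ := h
  exact h4.mono le_rfl (h2.trans a2)

lemma R.le {S : Set ℕ} {d d' : ℕ} {c : Set ℕ} (h : R S d c) (hd : d' ≤ d) : R S d' c := by
  induction d, hd using Nat.le_induction with
  | base => exact h
  | succ d _ ih => exact ih h.pred

lemma R.res {S : Set ℕ} : ∀ {d : ℕ} {c : Set ℕ}, R S d c → R {a ∈ S | dc a ⊆ c} d c
  | 0, _, ⟨a, a1, a2⟩ => ⟨a, ⟨a1, a2⟩, a2⟩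
  | _ + 1, _, ⟨a, a1, a2, b0, b1, h1, h2, h3, h4, h5⟩ =>
    ⟨a, ⟨a1, a2⟩, a2, b0, b1, h1, h2, h3,
      R.mono (fun _ t => by exact ⟨t.1, t.2.trans (h2.trans a2)⟩) le_rfl (R.res h4),
      R.mono (fun _ t => by exact ⟨t.1, t.2.trans (h3.trans a2)⟩) le_rfl (R.res h5)⟩

lemma R.part (S0 S1 : Set ℕ) : ∀ (d a b : ℕ) (c : Set ℕ), a + b = d → R (S0 ∪ S1) d c →
    R S0 a c ∨ R S1 b c := by
  intro d
  induction d with
  | zero =>
    rintro a b c e ⟨x, x1 | x1, x2⟩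
    · left; rw [show a = 0 by omega]; exact ⟨x, x1, x2⟩
    · right; rw [show b = 0 by omega]; exact ⟨x, x1, x2⟩
  | succ d ih =>
    rintro a b c e ⟨x, x1 | x1, x2, b0, b1, h1, h2, h3, h4, h5⟩
    · cases a with
      | zero => exact Or.inl ⟨x, x1, x2⟩
      | succ a =>
        rcases ih a b b0 (by omega) h4 with t | t
        · rcases ih a b b1 (by omega) h5 with s | s
          · exact Or.inl ⟨x, x1, x2, b0, b1, h1, h2, h3, t, s⟩
          · exact Or.inr (s.mono le_rfl (h3.trans x2))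
        · exact Or.inr (t.mono le_rfl (h2.trans x2))
    · cases b with
      | zero => exact Or.inr ⟨x, x1, x2⟩
      | succ b =>
        rcases ih a b b0 (by omega) h4 with t | t
        · exact Or.inl (t.mono le_rfl (h2.trans x2))
        · rcases ih a b b1 (by omega) h5 with s | s
          · exact Or.inl (s.mono le_rfl (h3.trans x2))
          · exact Or.inr ⟨x, x1, x2, b0, b1, h1, h2, h3, t, s⟩

lemma R.hom {ι : Type} (col : ι → Set ℕ) (E : Finset ι) : ∀ (h d : ℕ) (S : Set ℕ), E.card ≤ h →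
    R S (2 ^ h * d) univ → ∃ S' ⊆ S, R S' d univ ∧ ∀ η ∈ E, S' ⊆ col η ∨ S' ⊆ (col η)ᶜ := by
  induction E using Finset.induction_on with
  | empty =>
    exact fun h d S _ t => ⟨S, le_rfl, t.le (Nat.le_mul_of_pos_left d (by positivity)), by simp⟩
  | insert η E hη ih =>
    intro h d S hc t
    rw [Finset.card_insert_of_notMem hη] at hc
    obtain ⟨h, rfl⟩ : ∃ h', h = h' + 1 := ⟨h - 1, by omega⟩
    rw [← inter_union_diff S (col η)] at t
    rcases R.part _ _ _ (2 ^ h * d) (2 ^ h * d) _ (by ring) t with s | s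
    · obtain ⟨S', a, b, c⟩ := ih h d _ (by omega) s
      exact ⟨S', a.trans inter_subset_left, b, Finset.forall_mem_insert _ _ _ |>.mpr
        ⟨Or.inl (a.trans inter_subset_right), c⟩⟩
    · obtain ⟨S', a, b, c⟩ := ih h d _ (by omega) s
      exact ⟨S', a.trans diff_subset, b, Finset.forall_mem_insert _ _ _ |>.mpr
        ⟨Or.inr fun x hx => (a hx).2, c⟩⟩

lemma R.step {S : Set ℕ} {d : ℕ} (h : R S (d + 2) univ) (m : ℕ) : ∃ y ∈ S, m ∉ dc y ∧
    R {a ∈ S | dc a ⊆ dc y} d univ ∧ R {a ∈ S | Disjoint (dc a) (dc y)} d univ := by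
  have : ∀ b0 b1 : Set ℕ, Disjoint b0 b1 → m ∉ b0 → R S (d + 1) b0 → R S (d + 1) b1 →
      ∃ y ∈ S, m ∉ dc y ∧ R {a ∈ S | dc a ⊆ dc y} d univ ∧
        R {a ∈ S | Disjoint (dc a) (dc y)} d univ := by
    rintro b0 b1 h1 h2 ⟨y, y1, y2, c0, -, -, c1, -, c2, -⟩ h3
    exact ⟨y, y1, fun t => h2 (y2 t),
      R.mono (fun _ t => by exact ⟨t.1, t.2.trans c1⟩) (subset_univ _) c2.res,
      R.mono (fun _ t => by exact ⟨t.1, (h1.symm.mono t.2 y2)⟩) (subset_univ _) h3.pred.res⟩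
  obtain ⟨a, -, -, b0, b1, h1, -, -, h4, h5⟩ := h
  by_cases c : m ∈ b0
  · exact this b1 b0 h1.symm (disjoint_left.mp h1 c) h5 h4
  · exact this b0 b1 h1 c h4 h5

lemma R.ex (d : ℕ) : ∀ N, ∃ S c : Set ℕ, S.Finite ∧ (∀ a ∈ S, (dc a).Nonempty) ∧ c.Finite ∧
    c.Nonempty ∧ (∀ i ∈ c, N ≤ i) ∧ R S d c := by
  induction d with
  | zero =>
    intro N
    obtain ⟨a, ha⟩ := dc_surj (finite_singleton N)
    exact ⟨{a}, {N}, finite_singleton _, by simp [ha], finite_singleton _, singleton_nonempty _,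
      by simp, a, rfl, ha.le⟩
  | succ d ih =>
    intro N
    obtain ⟨S0, c0, a1, a2, a3, a4, a5, a6⟩ := ih N
    obtain ⟨M, hM⟩ := a3.bddAbove
    obtain ⟨S1, c1, b1, b2, b3, -, b5, b6⟩ := ih (N + M + 1)
    obtain ⟨a, ha⟩ := dc_surj (a3.union b3)
    refine ⟨insert a (S0 ∪ S1), c0 ∪ c1, (a1.union b1).insert a, ?_, a3.union b3, a4.inl, ?_,
      a, Or.inl rfl, ha.le, c0, c1, disjoint_left.mpr fun i i0 i1 => ?_,
      ha ▸ subset_union_left, ha ▸ subset_union_right,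
      a6.mono (fun _ t => Or.inr (Or.inl t)) le_rfl, b6.mono (fun _ t => Or.inr (Or.inr t)) le_rfl⟩
    · rintro x (rfl | t | t)
      · rw [ha]; exact a4.inl
      · exact a2 x t
      · exact b2 x t
    · rintro i (t | t)
      · exact a5 i t
      · have := b5 i t; omega
    · have := hM i0
      have := b5 i i1
      omega

lemma R.ex' (d : ℕ) : ∃ p : Set ℕ × ℕ, (∀ a ∈ p.1, (dc a).Nonempty ∧ a < p.2) ∧ R p.1 d univ := by
  obtain ⟨S, c, a1, a2, -, -, -, a6⟩ := R.ex d 0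
  obtain ⟨M, hM⟩ := a1.bddAbove
  exact ⟨(S, M + 1), fun a ha => ⟨a2 a ha, Nat.lt_succ_of_le (hM ha)⟩,
    a6.mono le_rfl (subset_univ _)⟩

/-- rank needed for a given norm -/
def G (h : ℕ) : ℕ → ℕ
  | 0 => 0
  | f + 1 => 2 ^ h * (G h f + 1)

lemma G_lt (h : ℕ) : StrictMono (G h) := strictMono_nat_of_lt_succ fun f =>
  Nat.lt_of_succ_le (Nat.le_mul_of_pos_left _ (by positivity))

/-- bound for the number of stems -/
def H : ℕ → ℕ
  | 0 => 1
  | j + 1 => H j * (R.ex' (G (H j) ((j + 2) * H j))).choose.2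

/-- the full creature -/
def Full (j : ℕ) : Set ℕ := (R.ex' (G (H j) ((j + 2) * H j))).choose.1

/-- norm -/
def N (j f : ℕ) (S : Set ℕ) : Prop := R S (G (H j) f) univ

lemma N.mono {j f f' : ℕ} {S S' : Set ℕ} (h : N j f S) (h1 : S ⊆ S') (h2 : f' ≤ f) : N j f' S' :=
  (R.mono h1 le_rfl h).le ((G_lt _).monotone h2)

lemma N.ne {j f : ℕ} {S : Set ℕ} (h : N j f S) : S.Nonempty := by
  obtain ⟨a, a1, -⟩ := R.le h (Nat.zero_le _)
  exact ⟨a, a1⟩

lemma N_full (j : ℕ) : N j ((j + 2) * H j) (Full j) := (R.ex' _).choose_spec.2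

lemma full_ne {j a : ℕ} (h : a ∈ Full j) : (dc a).Nonempty := ((R.ex' _).choose_spec.1 a h).1

lemma full_fin (j : ℕ) : (Full j).Finite :=
  (finite_lt_nat _).subset fun a h => ((R.ex' _).choose_spec.1 a h).2

lemma H_succ (j : ℕ) : H j ≤ H (j + 1) := by
  obtain ⟨a, ha⟩ := (N_full j).ne
  exact Nat.le_mul_of_pos_right _ ((Nat.zero_le a).trans_lt ((R.ex' _).choose_spec.1 a ha).2)

lemma H_mono : Monotone H := monotone_nat_of_le_succ H_succ

lemma H_pos (j : ℕ) : 1 ≤ H j := H_mono (Nat.zero_le j)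

/-- truncation -/
def tr (j : ℕ) (x : ℕ → ℕ) : ℕ → ℕ := fun i => if i < j then x i else 0

lemma stems (j : ℕ) : ∃ E : Finset (ℕ → ℕ), E.card ≤ H j ∧
    ∀ x : ℕ → ℕ, (∀ i, x i ∈ Full i) → tr j x ∈ E := by
  induction j with
  | zero => exact ⟨{fun _ => 0}, le_rfl, fun x _ => Finset.mem_singleton.mpr (by ext i; simp [tr])⟩
  | succ j ih =>
    obtain ⟨E, e1, e2⟩ := ih
    refine ⟨(E ×ˢ Finset.range (R.ex' (G (H j) ((j + 2) * H j))).choose.2).image
      fun p => Function.update p.1 j p.2, Finset.card_image_le.trans ?_, fun x hx =>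
      Finset.mem_image.mpr ⟨(tr j x, x j), Finset.mem_product.mpr ⟨e2 x hx,
        Finset.mem_range.mpr ((R.ex' _).choose_spec.1 _ (hx j)).2⟩, ?_⟩⟩
    · rw [Finset.card_product, Finset.card_range]
      exact Nat.mul_le_mul_right _ e1
    · ext i
      by_cases c : i = j
      · subst c; simp [tr]
      · simp only [tr, Function.update_of_ne c]
        split_ifs <;> first | rfl | omega

lemma N.hom {j f : ℕ} {S : Set ℕ} (h : N j (f + 1) S) (col : (ℕ → ℕ) → Set ℕ) :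
    ∃ S' ⊆ S, N j f S' ∧ ∀ x : ℕ → ℕ, (∀ i, x i ∈ Full i) →
      S' ⊆ col (tr j x) ∨ S' ⊆ (col (tr j x))ᶜ := by
  obtain ⟨E, e1, e2⟩ := stems j
  obtain ⟨S', a, b, c⟩ := R.hom col E (H j) _ S e1 h
  exact ⟨S', a, b.pred, fun x hx => c _ (e2 x hx)⟩

lemma N.step {j f : ℕ} {S : Set ℕ} (h : N j (f + 2) S) (m : ℕ) : ∃ y ∈ S, m ∉ dc y ∧
    N j f {a ∈ S | dc a ⊆ dc y} ∧ N j f {a ∈ S | Disjoint (dc a) (dc y)} := by
  have a := G_lt (H j) (show f < f + 1 by omega)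
  have b := G_lt (H j) (show f + 1 < f + 2 by omega)
  exact R.step (R.le h (by omega)) m

/-- points of a condition above level `n` -/
def Pt (p : ℕ → Set ℕ) (n : ℕ) (x : ℕ → ℕ) : Prop := (∀ j, x j ∈ Full j) ∧ ∀ j, n ≤ j → x j ∈ p j

/-- agreement below `n` -/
def Ag (n : ℕ) (x z : ℕ → ℕ) : Prop := ∀ i < n, x i = z i

/-- `B` is decided by the stem of length `n` -/
def Dec (B : Set (ℕ → ℕ)) (p : ℕ → Set ℕ) (n : ℕ) : Prop :=
  ∀ x z, Pt p n x → Pt p n z → Ag n x z → x ∈ B → z ∈ B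

lemma Pt.mono {p q : ℕ → Set ℕ} {n n' : ℕ} {x : ℕ → ℕ} (h : Pt q n x) (h1 : ∀ j, q j ⊆ p j)
    (h2 : n ≤ n') : Pt p n' x := ⟨h.1, fun j hj => h1 j (h.2 j (h2.trans hj))⟩

lemma Dec.mono {B : Set (ℕ → ℕ)} {p q : ℕ → Set ℕ} {n : ℕ} (h : Dec B p n) (h1 : ∀ j, q j ⊆ p j) :
    Dec B q n := fun x z a b => h x z (a.mono h1 le_rfl) (b.mono h1 le_rfl)

lemma clopen (n : ℕ) (φ : ℕ → ℕ) (p : ℕ → Set ℕ) (hp : ∀ j, n ≤ j → N j (φ j + 1) (p j)) (m : ℕ) :
    ∀ C : Set (ℕ → ℕ), (∀ x z, Ag m x z → x ∈ C → z ∈ C) → ∃ q : ℕ → Set ℕ, (∀ j, q j ⊆ p j) ∧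
      (∀ j < n, q j = p j) ∧ (∀ j, m ≤ j → q j = p j) ∧ (∀ j, n ≤ j → N j (φ j) (q j)) ∧
      Dec C q n := by
  have base : ∀ m ≤ n, ∀ C : Set (ℕ → ℕ), (∀ x z, Ag m x z → x ∈ C → z ∈ C) →
      ∃ q : ℕ → Set ℕ, (∀ j, q j ⊆ p j) ∧ (∀ j < n, q j = p j) ∧ (∀ j, m ≤ j → q j = p j) ∧
        (∀ j, n ≤ j → N j (φ j) (q j)) ∧ Dec C q n := fun m hm C hC =>
    ⟨p, fun _ => le_rfl, fun _ _ => rfl, fun _ _ => rfl,
      fun j hj => (hp j hj).mono le_rfl (by omega),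
      fun x z _ _ t => hC x z fun i hi => t i (by omega)⟩
  induction m with
  | zero => exact base 0 (Nat.zero_le n)
  | succ j ih =>
    by_cases c : j + 1 ≤ n
    · exact base _ c
    intro C hC
    obtain ⟨S, s1, s2, s3⟩ := (hp j (by omega)).hom fun η => {a | Function.update η j a ∈ C}
    obtain ⟨a0, ha0⟩ := s2.ne
    have ag : ∀ (x z : ℕ → ℕ) a, Ag j x z → Ag (j + 1) (Function.update x j a)
        (Function.update z j a) := by
      intro x z a t i hi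
      by_cases e : i = j
      · subst e; simp
      · simp only [Function.update_of_ne e]; exact t i (by omega)
    obtain ⟨q, q1, q2, q3, q4, q5⟩ := ih {x | Function.update x j a0 ∈ C}
      fun x z t => hC _ _ (ag x z a0 t)
    have le : ∀ i, Function.update q j S i ⊆ q i := by
      intro i
      by_cases e : i = j
      · subst e; rw [Function.update_self, q3 i le_rfl]; exact s1
      · rw [Function.update_of_ne e]
    have key : ∀ x, Pt (Function.update q j S) n x → (x ∈ C ↔ Function.update x j a0 ∈ C) := by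
      intro x hx
      have t : Ag j x (tr j x) := fun i hi => by simp [tr, hi]
      have t' : Ag j (tr j x) x := fun i hi => (t i hi).symm
      have xj : x j ∈ S := by simpa using hx.2 j (by omega)
      have u : ∀ a, Function.update x j a ∈ C ↔ Function.update (tr j x) j a ∈ C := fun a =>
        ⟨hC _ _ (ag _ _ a t), hC _ _ (ag _ _ a t')⟩
      rw [u a0, ← Function.update_eq_self j x, u (x j), Function.update_eq_self]
      rcases s3 x hx.1 with w | w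
      · exact iff_of_true (w xj) (w ha0)
      · exact iff_of_false (w xj) (w ha0)
    refine ⟨Function.update q j S, fun i => (le i).trans (q1 i), fun i hi => ?_, fun i hi => ?_,
      fun i hi => ?_, fun x z a b t u => (key z b).mpr
        (q5 x z (a.mono le le_rfl) (b.mono le le_rfl) t ((key x a).mp u))⟩
    · rw [Function.update_of_ne (by omega), q2 i hi]
    · rw [Function.update_of_ne (by omega), q3 i (by omega)]
    · by_cases e : i = j
      · subst e; rwa [Function.update_self]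
      · rw [Function.update_of_ne e]; exact q4 i hi

lemma extend {q : ℕ → Set ℕ} {n l : ℕ} (h1 : ∀ j, q j ⊆ Full j) (h2 : ∀ j, n ≤ j → (q j).Nonempty)
    {x : ℕ → ℕ} (h3 : ∀ j, x j ∈ Full j) (h4 : ∀ j, n ≤ j → j < l → x j ∈ q j) :
    ∃ z, Pt q n z ∧ Ag l z x := by
  have : ∀ j, ∃ a ∈ Full j, (n ≤ j → a ∈ q j) ∧ (j < l → a = x j) := by
    intro j
    by_cases c : j < l
    · exact ⟨x j, h3 j, fun t => h4 j t c, fun _ => rfl⟩
    · by_cases e : n ≤ j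
      · obtain ⟨a, ha⟩ := h2 j e
        exact ⟨a, h1 j ha, fun _ => ha, fun t => absurd t c⟩
      · exact ⟨x j, h3 j, fun t => absurd t e, fun _ => rfl⟩
  choose z z1 z2 z3 using this
  exact ⟨z, ⟨z1, z2⟩, z3⟩

/-- relatively open -/
def ROp (O : Set (ℕ → ℕ)) (p : ℕ → Set ℕ) (n : ℕ) : Prop :=
  ∀ x, Pt p n x → x ∈ O → ∃ l, ∀ z, Pt p n z → Ag l z x → z ∈ O

lemma open1 {O : Set (ℕ → ℕ)} {n : ℕ} {φ : ℕ → ℕ} {p : ℕ → Set ℕ} (h0 : ∀ j, p j ⊆ Full j)
    (hp : ∀ j, n ≤ j → N j (φ j + 1) (p j)) (hO : ROp O p n) (η : ℕ → ℕ) :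
    ∃ q : ℕ → Set ℕ, (∀ j, q j ⊆ p j) ∧ (∀ j < n, q j = p j) ∧ (∀ j, n ≤ j → N j (φ j) (q j)) ∧
      ((∀ x, Pt q n x → Ag n x η → x ∈ O) ∨ ∀ x, Pt q n x → Ag n x η → x ∉ O) := by
  choose q q1 q2 q3 q4 q5 using fun m => clopen n φ p hp m {x | ∀ z, Pt p n z → Ag m z x → z ∈ O}
    fun x x' t u z a b => u z a fun i hi => (b i hi).trans (t i hi).symm
  by_cases c : ∃ m x, Pt (q m) n x ∧ Ag n x η ∧ ∀ z, Pt p n z → Ag m z x → z ∈ O
  · obtain ⟨m, x, a, b, c⟩ := c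
    exact ⟨q m, q1 m, q2 m, q4 m, Or.inl fun z d e => q5 m x z a d
      (fun i hi => (b i hi).trans (e i hi).symm) c z (d.mono (q1 m) le_rfl) fun _ _ => rfl⟩
  have : ∀ j, ∃ S, ∀ᶠ m in hyperfilter ℕ, q m j = S := by
    intro j
    obtain ⟨S, -, t⟩ := (Ultrafilter.eventually_exists_mem_iff (f := hyperfilter ℕ)
      (P := fun S m => q m j = S) (full_fin j).finite_subsets).mp
      (Eventually.of_forall fun m => ⟨q m j, (q1 m j).trans (h0 j), rfl⟩)
    exact ⟨S, t⟩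
  choose Q hQ using this
  refine ⟨Q, fun j => ?_, fun j hj => ?_, fun j hj => ?_, Or.inr fun x a b d => ?_⟩
  · obtain ⟨m, e⟩ := (hQ j).exists; exact e ▸ q1 m j
  · obtain ⟨m, e⟩ := (hQ j).exists; exact e ▸ q2 m j hj
  · obtain ⟨m, e⟩ := (hQ j).exists; exact e ▸ q4 m j hj
  · obtain ⟨l, hl⟩ := hO x (a.mono (fun j => by
      obtain ⟨m, e⟩ := (hQ j).exists; exact e ▸ q1 m j) le_rfl) d
    have : ∀ᶠ m in hyperfilter ℕ, (∀ j ∈ Iio (l + n), q m j = Q j) ∧ l ≤ m :=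
      ((eventually_all_finite (finite_Iio _)).mpr fun j _ => hQ j).and
        (Nat.hyperfilter_le_atTop (eventually_ge_atTop l))
    obtain ⟨m, m1, m2⟩ := this.exists
    obtain ⟨z, z1, z2⟩ := extend (l := l + n) (fun j => (q1 m j).trans (h0 j))
      (fun j hj => (q4 m j hj).ne) a.1 fun j j1 j2 => (m1 j j2).symm ▸ a.2 j j1
    exact c ⟨m, z, z1, fun i hi => (z2 i (by omega)).trans (b i hi), fun w w1 w2 =>
      hl w w1 fun i hi => (w2 i (by omega)).trans (z2 i (by omega))⟩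

lemma open2 {O : Set (ℕ → ℕ)} {n : ℕ} (E : Finset (ℕ → ℕ)) : ∀ (φ : ℕ → ℕ) (p : ℕ → Set ℕ),
    (∀ j, p j ⊆ Full j) → (∀ j, n ≤ j → N j (φ j + E.card) (p j)) → ROp O p n →
    ∃ q : ℕ → Set ℕ, (∀ j, q j ⊆ p j) ∧ (∀ j < n, q j = p j) ∧ (∀ j, n ≤ j → N j (φ j) (q j)) ∧
      ∀ η ∈ E, (∀ x, Pt q n x → Ag n x η → x ∈ O) ∨ ∀ x, Pt q n x → Ag n x η → x ∉ O := by
  induction E using Finset.induction_on with
  | empty => exact fun φ p _ h _ => ⟨p, fun _ => le_rfl, fun _ _ => rfl, h, by simp⟩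
  | insert η E hη ih =>
    intro φ p h0 hp hO
    rw [Finset.card_insert_of_notMem hη] at hp
    obtain ⟨q, q1, q2, q3, q4⟩ := open1 (φ := fun j => φ j + E.card) h0 hp hO η
    obtain ⟨r, r1, r2, r3, r4⟩ := ih φ q (fun j => (q1 j).trans (h0 j)) q3 fun x a b => by
      obtain ⟨l, hl⟩ := hO x (a.mono q1 le_rfl) b
      exact ⟨l, fun z c => hl z (c.mono q1 le_rfl)⟩
    refine ⟨r, fun j => (r1 j).trans (q1 j), fun j hj => (r2 j hj).trans (q2 j hj), r3,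
      Finset.forall_mem_insert _ _ _ |>.mpr ⟨?_, r4⟩⟩
    exact q4.imp (fun t x a => t x (a.mono r1 le_rfl)) fun t x a => t x (a.mono r1 le_rfl)

/-- conditions -/
def Good (p : ℕ → Set ℕ) : Prop := (∀ j, p j ⊆ Full j) ∧ (∀ j, (p j).Nonempty) ∧
  ∀ k, ∀ᶠ j in atTop, N j (k * H j) (p j)

lemma open3 {O : Set (ℕ → ℕ)} {n k : ℕ} {p : ℕ → Set ℕ} (h0 : Good p)
    (hp : ∀ j, n ≤ j → N j ((k + 1) * H j) (p j)) (hO : ROp O p n) :
    ∃ q, Good q ∧ (∀ j, q j ⊆ p j) ∧ (∀ j < n, q j = p j) ∧ (∀ j, n ≤ j → N j (k * H j) (q j)) ∧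
      Dec O q n := by
  obtain ⟨E, e1, e2⟩ := stems n
  let κ : ℕ → ℕ := fun j => Nat.findGreatest (fun k' => N j ((k' + 1) * H j) (p j)) (j + k)
  have κ1 : ∀ j, n ≤ j → N j ((κ j + 1) * H j) (p j) := fun j hj =>
    Nat.findGreatest_spec (P := fun k' => N j ((k' + 1) * H j) (p j)) (Nat.le_add_left k j) (hp j hj)
  obtain ⟨q, q1, q2, q3, q4⟩ := open2 E (fun j => κ j * H j) p h0.1 (fun j hj =>
    (κ1 j hj).mono le_rfl (by have := H_mono hj; rw [add_mul]; omega)) hO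
  refine ⟨q, ⟨fun j => (q1 j).trans (h0.1 j), fun j => ?_, fun k' => ?_⟩, q1, q2, fun j hj =>
    (q3 j hj).mono le_rfl (Nat.mul_le_mul_right _
      (Nat.le_findGreatest (Nat.le_add_left k j) (hp j hj))), fun x z a b c d => ?_⟩
  · by_cases c : j < n
    · rw [q2 j c]; exact h0.2.1 j
    · exact (q3 j (by omega)).ne
  · filter_upwards [h0.2.2 (k' + 1), eventually_ge_atTop (n + k')] with j a b
    exact (q3 j (by omega)).mono le_rfl (Nat.mul_le_mul_right _ (Nat.le_findGreatest (by omega) a))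
  · have t : Ag n x (tr n x) := fun i hi => by simp [tr, hi]
    rcases q4 _ (e2 x a.1) with s | s
    · exact s z b fun i hi => (c i hi).symm.trans (t i hi)
    · exact absurd d (s x a t)

/-- the Ramsey property -/
def RB (B : Set (ℕ → ℕ)) : Prop := ∀ p n k, Good p → (∀ j, n ≤ j → N j ((k + 1) * H j) (p j)) →
  ∃ q, Good q ∧ (∀ j, q j ⊆ p j) ∧ (∀ j < n, q j = p j) ∧ (∀ j, n ≤ j → N j (k * H j) (q j)) ∧
    Dec B q n

lemma fusion {C : ℕ → Set (ℕ → ℕ)} (hC : ∀ i, RB (C i)) {p : ℕ → Set ℕ} {n k : ℕ} (h0 : Good p)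
    (hp : ∀ j, n ≤ j → N j (k * H j) (p j)) :
    ∃ q, Good q ∧ (∀ j, q j ⊆ p j) ∧ (∀ j < n, q j = p j) ∧ (∀ j, n ≤ j → N j (k * H j) (q j)) ∧
      ∀ i l, ∃ l', l ≤ l' ∧ Dec (C i) q l' := by
  have st : ∀ (t : ℕ) (s : {p // Good p} × ℕ), ∃ s' : {p // Good p} × ℕ, s.2 < s'.2 ∧
      (∀ j, s'.1.1 j ⊆ s.1.1 j) ∧ (∀ j < s'.2, s'.1.1 j = s.1.1 j) ∧
      (∀ j, s'.2 ≤ j → N j ((k + t) * H j) (s'.1.1 j)) ∧ Dec (C t.unpair.1) s'.1.1 s'.2 := by
    intro t s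
    obtain ⟨a, ha⟩ := eventually_atTop.mp (s.1.2.2.2 (k + t + 1))
    obtain ⟨q, q0, q1⟩ := hC t.unpair.1 s.1.1 (a + s.2 + 1) (k + t) s.1.2 fun j hj => ha j (by omega)
    exact ⟨(⟨q, q0⟩, a + s.2 + 1), by simp only; omega, q1⟩
  choose f f1 f2 f3 f4 f5 using st
  let σ : ℕ → {p // Good p} × ℕ := fun t => Nat.rec (⟨p, h0⟩, n) f t
  have σ1 : ∀ t, σ (t + 1) = f t (σ t) := fun t => rfl
  have sm : StrictMono fun t => (σ t).2 := strictMono_nat_of_lt_succ fun t => f1 t (σ t)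
  have an : ∀ j, Antitone fun t => (σ t).1.1 j := fun j =>
    antitone_nat_of_succ_le fun t => f2 t (σ t) j
  have stab : ∀ j t, j ≤ t → (σ t).1.1 j = (σ j).1.1 j := by
    intro j t ht
    induction t, ht using Nat.le_induction with
    | base => rfl
    | succ t ht ih =>
      have := sm.id_le (t + 1)
      rw [σ1, f3 t (σ t) j (by simp only [id, σ1] at this; omega), ih]
  have le : ∀ t j, (σ j).1.1 j ⊆ (σ t).1.1 j := fun t j => by
    rcases le_total t j with c | c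
    · exact an j c
    · rw [stab j t c]
  have keep : ∀ s k', k' ≤ k + s → (∀ j, (σ s).2 ≤ j → N j (k' * H j) ((σ s).1.1 j)) →
      ∀ j, (σ s).2 ≤ j → N j (k' * H j) ((σ j).1.1 j) := by
    intro s k' hk h j hj
    have : ∀ t, s ≤ t → N j (k' * H j) ((σ t).1.1 j) := by
      intro t ht
      induction t, ht using Nat.le_induction with
      | base => exact h j hj
      | succ t ht ih =>
        by_cases c : j < (σ (t + 1)).2
        · rw [σ1, f3 t (σ t) j c]; exact ih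
        · exact (f4 t (σ t) j (not_lt.mp c)).mono le_rfl (Nat.mul_le_mul_right _ (by omega))
    exact this j ((sm.id_le s).trans hj)
  refine ⟨fun j => (σ j).1.1 j, ⟨fun j => (σ j).1.2.1 j, fun j => (σ j).1.2.2.1 j, fun k' => ?_⟩,
    le 0, fun j hj => ?_, keep 0 k le_rfl hp, fun i l =>
    ⟨(σ (Nat.pair i l + 1)).2, ?_, ?_⟩⟩
  · filter_upwards [eventually_ge_atTop (σ (k' + 1)).2] with j hj
    exact keep (k' + 1) k' (by omega) (fun j hj => (f4 k' (σ k') j hj).mono le_rfl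
      (Nat.mul_le_mul_right _ (by omega))) j hj
  · have : ∀ t, (σ t).1.1 j = p j := by
      intro t
      induction t with
      | zero => rfl
      | succ t ih =>
        have := sm.monotone (Nat.zero_le (t + 1))
        rw [σ1, f3 t (σ t) j (hj.trans_le this), ih]
    exact this j
  · have := sm.id_le (Nat.pair i l + 1)
    have := Nat.right_le_pair i l
    simp only [id] at *
    omega
  · have := (f5 (Nat.pair i l) (σ (Nat.pair i l))).mono (le (Nat.pair i l + 1))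
    rwa [Nat.unpair_pair] at this

lemma cyl {x : ℕ → ℕ} {O : Set (ℕ → ℕ)} (hO : IsOpen O) (hx : x ∈ O) :
    ∃ n, ∀ y : ℕ → ℕ, Ag n y x → y ∈ O := by
  obtain ⟨v, ⟨z, n, rfl⟩, v1, v2⟩ :=
    (PiNat.isTopologicalBasis_cylinders (fun _ => ℕ)).exists_subset_of_mem_open hx hO
  refine ⟨n, fun y hy => v2 (PiNat.mem_cylinder_iff.mpr fun i hi => ?_)⟩
  rw [hy i hi, PiNat.mem_cylinder_iff.mp v1 i hi]

theorem rb {B : Set (ℕ → ℕ)} (hB : MeasurableSet B) : RB B := by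
  induction B, hB using MeasurableSet.induction_on_open with
  | isOpen U hU =>
    exact fun p n k a b => open3 a b fun x _ c => (cyl hU c).imp fun l hl z _ => hl z
  | compl B _ ih =>
    intro p n k a b
    obtain ⟨q, q0, q1, q2, q3, q4⟩ := ih p n k a b
    exact ⟨q, q0, q1, q2, q3, fun x z c d e f g => f (q4 z x d c (fun i hi => (e i hi).symm) g)⟩
  | iUnion C _ _ ih =>
    intro p n k a b
    obtain ⟨q, q0, q1, q2, q3, q4⟩ := fusion ih a b
    obtain ⟨r, r0, r1, r2, r3⟩ := open3 (O := ⋃ i, C i) q0 q3 fun x c d => by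
      obtain ⟨i, hi⟩ := mem_iUnion.mp d
      obtain ⟨l, l1, l2⟩ := q4 i n
      exact ⟨l, fun z e f => mem_iUnion.mpr ⟨i, l2 x z (c.mono (fun _ => le_rfl) l1)
        (e.mono (fun _ => le_rfl) l1) (fun i hi => (f i hi).symm) hi⟩⟩
    exact ⟨r, r0, fun j => (r1 j).trans (q1 j), fun j hj => (r2 j hj).trans (q2 j hj), r3⟩

theorem fuse_meas {C : ℕ → ℕ → Set (ℕ → ℕ)} (hC : ∀ n m, MeasurableSet (C n m)) {p : ℕ → Set ℕ}
    (h0 : Good p) : ∃ q, Good q ∧ (∀ j, q j ⊆ p j) ∧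
      ∀ n m l, ∃ l', l ≤ l' ∧ Dec (C n m) q l' := by
  obtain ⟨a, ha⟩ := eventually_atTop.mp (h0.2.2 0)
  obtain ⟨q, q0, q1, -, -, q4⟩ := fusion (C := fun i => C i.unpair.1 i.unpair.2)
    (fun i => rb (hC _ _)) h0 ha
  exact ⟨q, q0, q1, fun n m l => by simpa using q4 (Nat.pair n m) l⟩

end

end Pool.Agent.H18.Cr
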