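import Pool.Agent.H18.Cr1

set_option autoImplicit false

namespace Pool.Agent.H18.Cr

open Set Filter Topology Pool.Agent.H18.OT

noncomputable section
open Classical

/-- indexed `τ`-cover of a set `W` -/
def ITon (W : Set (ℕ → ℕ)) (u : ℕ → Set (ℕ → ℕ)) : Prop :=
  (∀ x ∈ W, ∃ᶠ m in atTop, x ∈ u m) ∧ ∀ x ∈ W, ∀ y ∈ W,
    (∀ᶠ m in atTop, x ∈ u m → y ∈ u m) ∨ ∀ᶠ m in atTop, y ∈ u m → x ∈ u m

lemma ITon.mono {W W' : Set (ℕ → ℕ)} {u : ℕ → Set (ℕ → ℕ)} (h : ITon W u) (h1 : W' ⊆ W) :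
    ITon W' u := ⟨fun x hx => h.1 x (h1 hx), fun x hx y hy => h.2 x (h1 hx) y (h1 hy)⟩

lemma cpt (q : ℕ → Set ℕ) (l : ℕ) : IsCompact {x | Pt q l x} := by
  convert isCompact_univ_pi (s := fun j => {a ∈ Full j | l ≤ j → a ∈ q j})
    fun j => ((full_fin j).subset fun a ha => ha.1).isCompact using 1
  ext x
  simp only [Pt, mem_setOf_eq, Set.mem_pi, mem_univ, true_imp_iff, forall_and]

lemma Dec.compl {B : Set (ℕ → ℕ)} {q : ℕ → Set ℕ} {l : ℕ} (h : Dec B q l) : Dec Bᶜ q l :=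
  fun x z c d e f g => f (h z x d c (fun i hi => (e i hi).symm) g)

lemma Dec.closed {B D : Set (ℕ → ℕ)} {q : ℕ → Set ℕ} {l l' : ℕ} (h : Dec B q l') (hl : l ≤ l')
    (h1 : IsClosed D) (h2 : D ⊆ {x | Pt q l x}) : IsClosed (D ∩ B) := by
  refine isClosed_of_closure_subset fun x hx => ?_
  have xD : x ∈ D := h1.closure_subset (closure_mono inter_subset_left hx)
  obtain ⟨z, z1, z2, z3⟩ := mem_closure_iff.mp hx _ (PiNat.isOpen_cylinder (fun _ => ℕ) x l')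
    (PiNat.self_mem_cylinder x l')
  exact ⟨xD, h z x ((h2 z2).mono (fun _ => le_rfl) hl) ((h2 xD).mono (fun _ => le_rfl) hl)
    (PiNat.mem_cylinder_iff.mp z1) z3⟩

lemma tau {Q : Set (ℕ → ℕ)} (hQ : Q.Countable) {q : ℕ → Set ℕ} {B : ℕ → Set (ℕ → ℕ)}
    (hB : ∀ m l, ∃ l', l ≤ l' ∧ Dec (B m) q l') (h : ITon (Q ∪ {x | ∃ l, Pt q l x}) B) :
    ∃ A : Set ℕ, A.Infinite ∧ ∀ x ∈ Q ∪ {x | ∃ l, Pt q l x}, (A \ {m | x ∈ B m}).Finite := by
  set W := Q ∪ {x | ∃ l, Pt q l x} with hW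
  let J : Set (ℕ → ℕ) → Prop := fun Y =>
    ∃ A : Set ℕ, A.Infinite ∧ ∀ x ∈ Y, (A \ {m | x ∈ B m}).Finite
  by_contra hn
  have fin : ∀ x y, (∀ᶠ m in atTop, x ∈ B m → y ∈ B m) →
      ({m | x ∈ B m} \ {m | y ∈ B m}).Finite := by
    intro x y t
    rw [← Nat.cofinite_eq_atTop] at t
    exact (eventually_cofinite.mp t).subset fun m hm s => hm.2 (s hm.1)
  have tw : Tow fun x : W => {m | x.1 ∈ B m} :=
    ⟨fun x => Nat.frequently_atTop_iff_infinite.mp (h.1 x x.2),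
      fun x y => (h.2 x x.2 y y.2).imp (fin _ _) (fin _ _)⟩
  have Jm : ∀ Y Y', Y' ⊆ Y → J Y → J Y' := fun Y Y' t ⟨A, a, b⟩ => ⟨A, a, fun x hx => b x (t hx)⟩
  have Js : ∀ Y : ℕ → Set (ℕ → ℕ), (∀ i, Y i ⊆ W) → (∀ i, J (Y i)) → J (⋃ i, Y i) := by
    intro Y y1 y2
    choose A a1 a2 using y2
    have : ∀ i, ∃ g : W, ¬ (A i \ {m | g.1 ∈ B m}).Finite := fun i => by
      by_contra t
      push Not at t
      exact hn ⟨A i, a1 i, fun x hx => t ⟨x, hx⟩⟩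
    choose g hg using this
    obtain ⟨T, -, t1, t2⟩ := tw.psi g
    refine ⟨T, t1, fun x hx => ?_⟩
    obtain ⟨i, hi⟩ := mem_iUnion.mp hx
    exact ftr (t2 i) ((tw.2 ⟨x, y1 i hi⟩ (g i)).resolve_left fun s => hg i (ftr (a2 i x hi) s))
  have J0 : J ∅ := ⟨univ, infinite_univ, by simp⟩
  have Jc : ∀ (Y : ℕ → Set (ℕ → ℕ)) (M : Set ℕ) (C : Set (ℕ → ℕ)), C ⊆ W → (∀ i, Y i ⊆ W) →
      (∀ i ∈ M, J (Y i)) → ¬ J C → ¬ J (C \ ⋃ i ∈ M, Y i) := by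
    intro Y M C c1 y1 y2 c2 t
    refine c2 (Jm _ _ ?_ (Js (fun i => Nat.casesOn i (C \ ⋃ i ∈ M, Y i)
      fun i => {x ∈ Y i | i ∈ M}) ?_ ?_))
    · intro x hx
      by_cases s : x ∈ ⋃ i ∈ M, Y i
      · obtain ⟨i, i1, i2⟩ := mem_iUnion₂.mp s
        exact mem_iUnion.mpr ⟨i + 1, i2, i1⟩
      · exact mem_iUnion.mpr ⟨0, hx, s⟩
    · rintro (_ | i)
      · exact diff_subset.trans c1
      · exact fun x hx => y1 i hx.1
    · rintro (_ | i)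
      · exact t
      · by_cases s : i ∈ M
        · exact Jm _ _ (fun x hx => hx.1) (y2 i s)
        · exact Jm _ _ (fun x hx => absurd hx.2 s) J0
  have ex : ∃ l, ¬ J {x | Pt q l x} := by
    by_contra t
    push Not at t
    obtain ⟨f, hf⟩ := (hQ.insert fun _ => 0).exists_eq_range (insert_nonempty _ _)
    have a := Jc (fun i => {x ∈ Q | x = f i}) univ W le_rfl (fun i x hx => Or.inl hx.1) (by
      intro i _
      by_cases s : f i ∈ Q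
      · exact ⟨{m | f i ∈ B m}, tw.1 ⟨f i, Or.inl s⟩, fun x hx => by rw [hx.2]; simp⟩
      · exact Jm _ _ (fun x hx => absurd (hx.2 ▸ hx.1) s) J0) hn
    refine a (Jm _ _ ?_ (Js (fun l => {x | Pt q l x}) (fun l x hx => Or.inr ⟨l, hx⟩) t))
    rintro x ⟨x1 | ⟨l, x1⟩, x2⟩
    · obtain ⟨i, rfl⟩ := (show x ∈ range f from hf ▸ Or.inr x1)
      exact (x2 (mem_iUnion₂.mpr ⟨i, trivial, x1, rfl⟩)).elim
    · exact mem_iUnion.mpr ⟨l, x1⟩
  obtain ⟨l, hl⟩ := ex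
  let P : Set (ℕ → ℕ) → Prop := fun C => IsClosed C ∧ C ⊆ {x | Pt q l x} ∧ ¬ J C
  have st : ∀ C D, P C → P D → ∀ n, ∃ m, n ≤ m ∧ P (C ∩ B m) ∧ P (D ∩ (B m)ᶜ) := by
    intro C D c d n
    have cW : C ⊆ W := fun x hx => Or.inr ⟨l, c.2.1 hx⟩
    have dW : D ⊆ W := fun x hx => Or.inr ⟨l, d.2.1 hx⟩
    have a := Jc (fun m => C ∩ B m) {m | J (C ∩ B m)} C cW (fun i => inter_subset_left.trans cW)
      (fun i hi => hi) c.2.2
    have b := Jc (fun m => D ∩ (B m)ᶜ) {m | J (D ∩ (B m)ᶜ)} D dW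
      (fun i => inter_subset_left.trans dW) (fun i hi => hi) d.2.2
    obtain ⟨x, x1, x2⟩ : (C \ ⋃ i ∈ {m | J (C ∩ B m)}, C ∩ B i).Nonempty :=
      nonempty_iff_ne_empty.mpr fun t => a (t ▸ J0)
    have : ∃ m, n ≤ m ∧ ¬ J (C ∩ B m) ∧ ¬ J (D ∩ (B m)ᶜ) := by
      by_contra t
      push Not at t
      refine b ⟨{m | ¬ J (C ∩ B m)}, (tw.1 ⟨x, cW x1⟩).mono fun m hm s =>
        x2 (mem_iUnion₂.mpr ⟨m, s, x1, hm⟩), fun y hy => (finite_lt_nat n).subset fun m hm => ?_⟩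
      by_contra s
      exact hy.2 (mem_iUnion₂.mpr ⟨m, t m (not_lt.mp s) hm.1, hy.1, hm.2⟩)
    obtain ⟨m, m1, m2, m3⟩ := this
    obtain ⟨l', l1, l2⟩ := hB m l
    exact ⟨m, m1, ⟨l2.closed l1 c.1 c.2.1, inter_subset_left.trans c.2.1, m2⟩,
      l2.compl.closed l1 d.1 d.2.1, inter_subset_left.trans d.2.1, m3⟩
  have st2 : ∀ (n : ℕ) (s : {C // P C} × {C // P C}), ∃ s' : {C // P C} × {C // P C},
      s'.1.1 ⊆ s.1.1 ∧ s'.2.1 ⊆ s.2.1 ∧ (∃ m, n ≤ m ∧ s'.1.1 ⊆ B m ∧ s'.2.1 ⊆ (B m)ᶜ) ∧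
        ∃ m, n ≤ m ∧ s'.2.1 ⊆ B m ∧ s'.1.1 ⊆ (B m)ᶜ := by
    intro n s
    obtain ⟨m, m1, m2, m3⟩ := st _ _ s.1.2 s.2.2 n
    obtain ⟨k, k1, k2, k3⟩ := st _ _ m3 m2 n
    exact ⟨(⟨_, k3⟩, ⟨_, k2⟩), fun x hx => hx.1.1, fun x hx => hx.1.1,
      ⟨m, m1, fun x hx => hx.1.2, fun x hx => hx.1.2⟩, k, k1, fun x hx => hx.2, fun x hx => hx.2⟩
  choose f f1 f2 f3 f4 using st2
  have p0 : P {x | Pt q l x} := ⟨(cpt q l).isClosed, le_rfl, hl⟩
  let σ : ℕ → {C // P C} × {C // P C} := fun t => Nat.rec (⟨_, p0⟩, ⟨_, p0⟩) f t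
  have ne : ∀ C : {C // P C}, C.1.Nonempty := fun C =>
    nonempty_iff_ne_empty.mpr fun t => C.2.2.2 (t ▸ J0)
  obtain ⟨x, hx⟩ := IsCompact.nonempty_iInter_of_sequence_nonempty_isCompact_isClosed
    (fun t => (σ t).1.1) (fun t => f1 t (σ t)) (fun t => ne _) (cpt q l) fun t => (σ t).1.2.1
  obtain ⟨y, hy⟩ := IsCompact.nonempty_iInter_of_sequence_nonempty_isCompact_isClosed
    (fun t => (σ t).2.1) (fun t => f2 t (σ t)) (fun t => ne _) (cpt q l) fun t => (σ t).2.2.1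
  rw [mem_iInter] at hx hy
  rcases h.2 x (Or.inr ⟨l, hx 0⟩) y (Or.inr ⟨l, hy 0⟩) with t | t
  · obtain ⟨n, hn⟩ := eventually_atTop.mp t
    obtain ⟨m, m1, m2, m3⟩ := f3 n (σ n)
    exact m3 (hy (n + 1)) (hn m m1 (m2 (hx (n + 1))))
  · obtain ⟨n, hn⟩ := eventually_atTop.mp t
    obtain ⟨m, m1, m2, m3⟩ := f4 n (σ n)
    exact m3 (hx (n + 1)) (hn m m1 (m2 (hy (n + 1))))

lemma handle {Q : Set (ℕ → ℕ)} (hQ : Q.Countable) {p : ℕ → Set ℕ} (hp : Good p)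
    {B : ℕ → ℕ → Set (ℕ → ℕ)} (hB : ∀ n m, MeasurableSet (B n m)) :
    ∃ (q : ℕ → Set ℕ) (Z : Set (ℕ → ℕ)), Good q ∧ (∀ j, q j ⊆ p j) ∧ Z.Countable ∧
      (∀ z ∈ Z, ∃ l, Pt p l z) ∧ ((∀ n, ITon (Q ∪ Z) (B n)) → ∃ g : ℕ → ℕ,
        ∀ x, (x ∈ Q ∪ Z ∨ ∃ l, Pt q l x) → ∀ᶠ n in atTop, x ∈ B n (g n)) := by
  obtain ⟨q, q0, q1, q2⟩ := fuse_meas hB hp
  by_cases c : ∀ n, ITon (Q ∪ {x | ∃ l, Pt q l x}) (B n)
  swap
  · push Not at c
    obtain ⟨n, hn⟩ := c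
    have : ∃ x ∈ Q ∪ {x | ∃ l, Pt q l x}, ∃ y ∈ Q ∪ {x | ∃ l, Pt q l x}, ¬ ITon {x, y} (B n) := by
      by_contra t
      push Not at t
      exact hn ⟨fun x hx => (t x hx x hx).1 x (Or.inl rfl),
        fun x hx y hy => (t x hx y hy).2 x (Or.inl rfl) y (Or.inr rfl)⟩
    obtain ⟨x, hx, y, hy, t⟩ := this
    refine ⟨q, {x, y} ∩ {x | ∃ l, Pt q l x}, q0, q1, (toFinite _).inter_of_left _ |>.countable,
      fun z hz => hz.2.imp fun l hl => hl.mono q1 le_rfl, fun s => absurd ((s n).mono ?_) t⟩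
    rintro z (rfl | rfl)
    · exact hx.imp id fun u => ⟨Or.inl rfl, u⟩
    · exact hy.imp id fun u => ⟨Or.inr rfl, u⟩
  choose A a1 a2 using fun n => tau hQ (q2 n) (c n)
  obtain ⟨r, r0, r1, r2⟩ := fuse_meas (C := fun n M => ⋂ m ∈ {m ∈ A n | M ≤ m}, B n m)
    (fun n M => MeasurableSet.biInter (to_countable _) fun m _ => hB n m) q0
  have bd : ∀ n, ∃ M, ∀ x, Pt r n x → ∀ m ∈ A n, M ≤ m → x ∈ B n m := by
    intro n
    by_contra t
    push Not at t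
    obtain ⟨x, hx⟩ := IsCompact.nonempty_iInter_of_sequence_nonempty_isCompact_isClosed
      (fun M => {x | Pt r n x} ∩ (⋂ m ∈ {m ∈ A n | M ≤ m}, B n m)ᶜ)
      (fun M x hx => ⟨hx.1, fun s => hx.2 (mem_iInter₂.mpr fun m hm =>
        mem_iInter₂.mp s m ⟨hm.1, Nat.le_of_succ_le hm.2⟩)⟩) (fun M => by
        obtain ⟨x, x1, m, m1, m2, m3⟩ := t M
        exact ⟨x, x1, fun s => m3 (mem_iInter₂.mp s m ⟨m1, m2⟩)⟩) (by
        obtain ⟨l', l1, l2⟩ := r2 n 0 n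
        exact (cpt r n).of_isClosed_subset (l2.compl.closed l1 (cpt r n).isClosed le_rfl)
          inter_subset_left) fun M => by
        obtain ⟨l', l1, l2⟩ := r2 n M n
        exact l2.compl.closed l1 (cpt r n).isClosed le_rfl
    rw [mem_iInter] at hx
    obtain ⟨M, hM⟩ := bnd id (a2 n x (Or.inr ⟨n, (hx 0).1.mono r1 le_rfl⟩))
    refine (hx M).2 (mem_iInter₂.mpr fun m hm => ?_)
    by_contra s
    exact hM m hm.2 ⟨hm.1, s⟩
  choose M hM using bd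
  obtain ⟨f, hf⟩ := (hQ.insert fun _ => 0).exists_eq_range (insert_nonempty _ _)
  have : ∀ n, ∃ m ∈ A n, M n ≤ m ∧ ∀ i ≤ n, f i ∈ Q → f i ∈ B n m := by
    intro n
    obtain ⟨K, hK⟩ := bnd id (((finite_Iic n).subset
      (show {i | i ≤ n ∧ f i ∈ Q} ⊆ Iic n from fun i hi => hi.1)).biUnion
      fun i hi => a2 n (f i) (Or.inl hi.2))
    obtain ⟨m, m1, m2⟩ := (a1 n).exists_gt (K + M n)
    refine ⟨m, m1, by omega, fun i i1 i2 => ?_⟩
    by_contra s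
    exact hK m (by simp only [id]; omega) (mem_biUnion (show i ∈ {i | i ≤ n ∧ f i ∈ Q} from ⟨i1, i2⟩)
      ⟨m1, s⟩)
  choose g g1 g2 g3 using this
  refine ⟨r, ∅, r0, fun j => (r1 j).trans (q1 j), countable_empty, by simp, fun _ => ⟨g, ?_⟩⟩
  rintro x ((x1 | x1) | ⟨l, x1⟩)
  · obtain ⟨i, rfl⟩ := (show x ∈ range f from hf ▸ Or.inr x1)
    filter_upwards [eventually_ge_atTop i] with n hn using g3 n i hn x1
  · exact absurd x1 (notMem_empty x)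
  · filter_upwards [eventually_ge_atTop l] with n hn
    exact hM n x (x1.mono (fun _ => le_rfl) hn) _ (g1 n) (g2 n)

lemma good_full : Good Full := ⟨fun _ => le_rfl, fun j => (N_full j).ne, fun k => by
  filter_upwards [eventually_ge_atTop k] with j hj
  exact (N_full j).mono le_rfl (Nat.mul_le_mul_right _ (by omega))⟩

lemma lower (P : ℕ → ℕ → Set ℕ) (h : ∀ k, ∃ r, Good r ∧ ∀ i ≤ k, ∀ᶠ j in atTop, r j ⊆ P i j) :
    ∃ q, Good q ∧ ∀ i, ∀ᶠ j in atTop, q j ⊆ P i j := by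
  choose r r1 r2 using h
  have : ∀ k, ∃ n, ∀ j, n ≤ j → N j (k * H j) (r k j) ∧ ∀ i ∈ Iic k, r k j ⊆ P i j := fun k =>
    eventually_atTop.mp (((r1 k).2.2 k).and ((eventually_all_finite (finite_Iic k)).mpr (r2 k)))
  choose n hn using this
  have key : ∀ k, ∀ᶠ j in atTop, k ≤ Nat.findGreatest (fun k => n k ≤ j) j ∧
      n (Nat.findGreatest (fun k => n k ≤ j) j) ≤ j := by
    intro k
    filter_upwards [eventually_ge_atTop (k + n k)] with j hj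
    exact ⟨Nat.le_findGreatest (by omega) (by omega),
      Nat.findGreatest_spec (P := fun k => n k ≤ j) (m := k) (by omega) (by omega)⟩
  refine ⟨fun j => r (Nat.findGreatest (fun k => n k ≤ j) j) j,
    ⟨fun j => (r1 _).1 j, fun j => (r1 _).2.1 j, fun k => ?_⟩, fun i => ?_⟩
  · filter_upwards [key k] with j hj
    exact (hn _ j hj.2).1.mono le_rfl (Nat.mul_le_mul_right _ hj.1)
  · filter_upwards [key i] with j hj using (hn _ j hj.2).2 i hj.1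

lemma tstep {p : ℕ → Set ℕ} (hp : Good p) (g m : ℕ → ℕ) : ∃ (y : ℕ → ℕ) (q : ℕ → Set ℕ), Good q ∧
    (∀ j, q j ⊆ p j) ∧ (∀ j, y j ∈ p j) ∧ ∀ᶠ j in atTop, m j ∉ dc (y j) ∧ ∀ a ∈ q j,
      (g j.unpair.1 ≤ j.unpair.2 → dc a ⊆ dc (y j)) ∧
      (j.unpair.2 < g j.unpair.1 → Disjoint (dc a) (dc (y j))) := by
  have : ∀ j, ∃ y ∈ p j, ∃ S ⊆ p j, S.Nonempty ∧ ∀ k ≤ j, N j ((k + 2) * H j) (p j) →
      N j (k * H j) S ∧ m j ∉ dc y ∧ ∀ a ∈ S, (g j.unpair.1 ≤ j.unpair.2 → dc a ⊆ dc y) ∧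
        (j.unpair.2 < g j.unpair.1 → Disjoint (dc a) (dc y)) := by
    intro j
    by_cases c : ∃ k ≤ j, N j ((k + 2) * H j) (p j)
    · obtain ⟨k0, c1, c2⟩ := c
      have s := Nat.findGreatest_spec (P := fun k => N j ((k + 2) * H j) (p j)) c1 c2
      obtain ⟨y, y1, y2, y3, y4⟩ := N.step (f := Nat.findGreatest
        (fun k => N j ((k + 2) * H j) (p j)) j * H j)
        (s.mono le_rfl (by have := H_pos j; rw [add_mul]; omega)) (m j)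
      by_cases e : g j.unpair.1 ≤ j.unpair.2
      · exact ⟨y, y1, _, fun a ha => ha.1, y3.ne, fun k k1 k2 =>
          ⟨y3.mono le_rfl (Nat.mul_le_mul_right _ (Nat.le_findGreatest k1 k2)), y2,
            fun a ha => ⟨fun _ => ha.2, fun t => absurd e (not_le.mpr t)⟩⟩⟩
      · exact ⟨y, y1, _, fun a ha => ha.1, y4.ne, fun k k1 k2 =>
          ⟨y4.mono le_rfl (Nat.mul_le_mul_right _ (Nat.le_findGreatest k1 k2)), y2,
            fun a ha => ⟨fun t => absurd t e, fun _ => ha.2⟩⟩⟩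
    · obtain ⟨y, hy⟩ := hp.2.1 j
      exact ⟨y, hy, p j, le_rfl, ⟨y, hy⟩, fun k k1 k2 => absurd ⟨k, k1, k2⟩ c⟩
  choose y y1 S s1 s2 s3 using this
  refine ⟨y, S, ⟨fun j => (s1 j).trans (hp.1 j), s2, fun k => ?_⟩, s1, y1, ?_⟩
  · filter_upwards [hp.2.2 (k + 2), eventually_ge_atTop k] with j a b using (s3 j k b a).1
  · filter_upwards [hp.2.2 (0 + 2)] with j a using (s3 j 0 (Nat.zero_le j) a).2

lemma count_md (y : ℕ → ℕ) : {x : ℕ → ℕ | ∀ᶠ j in atTop, x j = y j}.Countable := by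
  refine (countable_iUnion fun n => countable_range fun v : Fin n → ℕ =>
    fun j => if h : j < n then v ⟨j, h⟩ else y j).mono fun x hx => ?_
  obtain ⟨n, hn⟩ := eventually_atTop.mp hx
  refine mem_iUnion.mpr ⟨n, fun i => x i, ?_⟩
  ext j
  by_cases c : j < n
  · simp [c]
  · simp [c, hn j (not_lt.mp c)]

lemma enum_meas : ∃ f : (ℕ → Bool) → Set (ℕ → ℕ), (∀ c, MeasurableSet (f c)) ∧
    ∀ B, MeasurableSet B → ∃ c, f c = B := by
  have hc : Cardinal.mk {t : Set (ℕ → ℕ) | MeasurableSet t} ≤ Cardinal.mk (ℕ → Bool) := by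
    obtain ⟨b, hb, -, h2⟩ := TopologicalSpace.exists_countable_basis (ℕ → ℕ)
    have h3 := MeasurableSpace.cardinal_measurableSet_le_continuum (s := b)
      (hb.le_aleph0.trans Cardinal.aleph0_le_continuum)
    rw [← h2.borel_eq_generateFrom, ← BorelSpace.measurable_eq] at h3
    simpa using h3
  obtain ⟨e⟩ := hc
  haveI : Nonempty {t : Set (ℕ → ℕ) | MeasurableSet t} := ⟨⟨∅, by simp⟩⟩
  refine ⟨fun c => (Function.invFun e c).1, fun c => (Function.invFun e c).2, fun B hB =>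
    ⟨e ⟨B, hB⟩, congrArg Subtype.val (Function.leftInverse_invFun e.injective ⟨B, hB⟩)⟩⟩

theorem main (hCH : Cardinal.continuum.{0} = Cardinal.aleph 1) :
    ∃ Y X : Set (ℕ → ℕ), Y ⊆ X ∧ (∀ x ∈ Y, ∀ j, x j ∈ Full j) ∧
      (∀ y ∈ Y, ∀ z : ℕ → ℕ, (∀ j, z j ∈ Full j) → (∀ᶠ j in atTop, z j = y j) → z ∈ Y) ∧
      (∀ x ∈ Y, ∀ z ∈ Y, ∀ n, (∀ᶠ k in atTop, dc (x (Nat.pair n k)) ⊆ dc (z (Nat.pair n k))) ∨
        ∀ᶠ k in atTop, dc (z (Nat.pair n k)) ⊆ dc (x (Nat.pair n k))) ∧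
      (∀ m : ℕ → ℕ, ∃ y ∈ Y, ∀ᶠ j in atTop, m j ∉ dc (y j)) ∧
      (∀ g : ℕ → ℕ, ∃ y ∈ Y, ∃ z ∈ Y, ∀ᶠ j in atTop,
        j.unpair.2 < g j.unpair.1 → Disjoint (dc (z j)) (dc (y j))) ∧
      ∀ B : ℕ → ℕ → Set (ℕ → ℕ), (∀ n m, MeasurableSet (B n m)) → (∀ n, ITon X (B n)) →
        ∃ g : ℕ → ℕ, ∀ x ∈ X, ∀ᶠ n in atTop, x ∈ B n (g n) := by
  obtain ⟨f, f1, f2⟩ := enum_meas
  obtain ⟨r, wo, hr⟩ := Cardinal.exists_ord_eq ((ℕ → ℕ → ℕ → Bool) × (ℕ → ℕ) × (ℕ → ℕ))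
  have cI : Cardinal.mk ((ℕ → ℕ → ℕ → Bool) × (ℕ → ℕ) × (ℕ → ℕ)) = Cardinal.continuum := by simp
  have cnt : ∀ x, {y | r y x}.Countable := by
    intro x
    rw [Cardinal.countable_iff_lt_aleph_one, ← hCH]
    have := Cardinal.card_typein_lt x hr
    rw [Ordinal.card_typein] at this
    exact this.trans_le (le_of_eq cI)
  let Q : (α : (ℕ → ℕ → ℕ → Bool) × (ℕ → ℕ) × (ℕ → ℕ)) →
      ((β : (ℕ → ℕ → ℕ → Bool) × (ℕ → ℕ) × (ℕ → ℕ)) → r β α →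
      (ℕ → ℕ) × Set (ℕ → ℕ) × (ℕ → Set ℕ)) → (ℕ → ℕ) × Set (ℕ → ℕ) × (ℕ → Set ℕ) → Prop :=
    fun α F d => Good d.2.2 ∧ (∀ j, d.1 j ∈ Full j) ∧ d.2.1.Countable ∧
      (∀ β hβ, (∀ᶠ j in atTop, d.1 j ∈ (F β hβ).2.2 j) ∧
        (∀ᶠ j in atTop, d.2.2 j ⊆ (F β hβ).2.2 j) ∧ ∀ z ∈ d.2.1, ∃ l, Pt (F β hβ).2.2 l z) ∧
      (∀ᶠ j in atTop, α.2.2 j ∉ dc (d.1 j) ∧ ∀ a ∈ d.2.2 j,
        (α.2.1 j.unpair.1 ≤ j.unpair.2 → dc a ⊆ dc (d.1 j)) ∧
        (j.unpair.2 < α.2.1 j.unpair.1 → Disjoint (dc a) (dc (d.1 j)))) ∧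
      ((∀ n, ITon ({x | (∀ j, x j ∈ Full j) ∧ (∀ᶠ j in atTop, x j = d.1 j) ∨ ∃ β hβ,
          (∀ j, x j ∈ Full j) ∧ (∀ᶠ j in atTop, x j = (F β hβ).1 j) ∨ x ∈ (F β hβ).2.1} ∪ d.2.1)
          fun m => f (α.1 n m)) → ∃ g : ℕ → ℕ, ∀ x,
        (x ∈ {x | (∀ j, x j ∈ Full j) ∧ (∀ᶠ j in atTop, x j = d.1 j) ∨ ∃ β hβ,
          (∀ j, x j ∈ Full j) ∧ (∀ᶠ j in atTop, x j = (F β hβ).1 j) ∨ x ∈ (F β hβ).2.1} ∪ d.2.1 ∨
          ∃ l, Pt d.2.2 l x) → ∀ᶠ n in atTop, x ∈ f (α.1 n (g n)))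
  let D : (ℕ → ℕ → ℕ → Bool) × (ℕ → ℕ) × (ℕ → ℕ) → (ℕ → ℕ) × Set (ℕ → ℕ) × (ℕ → Set ℕ) :=
    wo.wf.fix (fun α F => Classical.epsilon (Q α F))
  have hD : ∀ α, D α = Classical.epsilon (Q α (fun β _ => D β)) := fun α => wo.wf.fix_eq _ α
  have key : ∀ α, Q α (fun β _ => D β) (D α) := by
    intro α
    induction α using wo.wf.induction with
    | _ α ih =>
      rw [hD α]
      apply Classical.epsilon_spec
      let S : Set (ℕ → Set ℕ) := insert Full ((fun β => (D β).2.2) '' {β | r β α})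
      obtain ⟨P, hP⟩ := (((cnt α).image (fun β => (D β).2.2)).insert Full).exists_eq_range
        (insert_nonempty _ _)
      have gd : ∀ s ∈ S, Good s := by
        rintro _ (rfl | ⟨β, hβ, rfl⟩)
        · exact good_full
        · exact (ih β hβ).1
      have ch : ∀ s ∈ S, ∀ s' ∈ S, (∀ᶠ j in atTop, s j ⊆ s' j) ∨ ∀ᶠ j in atTop, s' j ⊆ s j := by
        rintro s hs s' hs'
        rcases hs' with rfl | ⟨β', hβ', rfl⟩
        · exact Or.inl (Eventually.of_forall (gd s hs).1)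
        rcases hs with rfl | ⟨β, hβ, rfl⟩
        · exact Or.inr (Eventually.of_forall (ih β' hβ').1.1)
        rcases trichotomous_of r β β' with t | t | t
        · exact Or.inr ((ih β' hβ').2.2.2.1 β t).2.1
        · rw [t]; exact Or.inl (Eventually.of_forall fun _ => le_rfl)
        · exact Or.inl ((ih β hβ).2.2.2.1 β' t).2.1
      have PS : ∀ j, P j ∈ S := fun j => (show S = range P from hP) ▸ mem_range_self j
      have low : ∀ k, ∃ i, ∀ j ≤ k, ∀ᶠ t in atTop, P i t ⊆ P j t := by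
        intro k
        induction k with
        | zero => exact ⟨0, fun j hj => by
            rw [Nat.le_zero.mp hj]; exact Eventually.of_forall fun _ => le_rfl⟩
        | succ k ik =>
          obtain ⟨i, hi⟩ := ik
          rcases ch _ (PS i) _ (PS (k + 1)) with t | t
          · refine ⟨i, fun j hj => ?_⟩
            rcases Nat.of_le_succ hj with u | u
            · exact hi j u
            · rw [u]; exact t
          · refine ⟨k + 1, fun j hj => ?_⟩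
            rcases Nat.of_le_succ hj with u | u
            · filter_upwards [t, hi j u] with _ a b using a.trans b
            · rw [u]; exact Eventually.of_forall fun _ => le_rfl
      obtain ⟨p, p1, p2⟩ := lower P fun k => by
        obtain ⟨i, hi⟩ := low k
        exact ⟨P i, gd _ (PS i), hi⟩
      obtain ⟨y, p', y1, y2, y3, y4⟩ := tstep p1 α.2.1 α.2.2
      obtain ⟨q, Z, q1, q2, q3, q4, q5⟩ := handle (Q := {x | (∀ j, x j ∈ Full j) ∧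
          (∀ᶠ j in atTop, x j = y j) ∨ ∃ β, ∃ _ : r β α,
          (∀ j, x j ∈ Full j) ∧ (∀ᶠ j in atTop, x j = (D β).1 j) ∨ x ∈ (D β).2.1}) (by
        refine ((count_md y).union ((cnt α).biUnion fun β hβ =>
          (count_md (D β).1).union (ih β hβ).2.2.1)).mono ?_
        rintro x (hx | ⟨β, hβ, hx⟩)
        · exact Or.inl hx.2
        · exact Or.inr (mem_iUnion₂.mpr ⟨β, hβ, hx.imp (fun t => t.2) id⟩)) y1
        (B := fun n m => f (α.1 n m)) fun n m => f1 _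
      refine ⟨(y, Z, q), q1, fun j => p1.1 j (y3 j), q3, fun β hβ => ?_,
        y4.mono fun j hj => ⟨hj.1, fun a ha => hj.2 a (q2 j ha)⟩, q5⟩
      have : (D β).2.2 ∈ range P := (show S = range P from hP) ▸ Or.inr ⟨β, hβ, rfl⟩
      obtain ⟨i, hi⟩ := this
      have u := p2 i
      rw [hi] at u
      refine ⟨u.mono fun j hj => hj (y3 j), u.mono fun j hj => (q2 j).trans ((y2 j).trans hj),
        fun z hz => ?_⟩
      obtain ⟨l, hl⟩ := q4 z hz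
      obtain ⟨l', hl'⟩ := eventually_atTop.mp u
      exact ⟨l + l', hl.1, fun j hj => hl' j (by omega) (y2 j (hl.2 j (by omega)))⟩
  have lin : ∀ α β (x z : ℕ → ℕ) n, r β α → (∀ᶠ j in atTop, x j = (D α).1 j) →
      (∀ᶠ j in atTop, z j = (D β).1 j) →
      ∀ᶠ k in atTop, dc (x (Nat.pair n k)) ⊆ dc (z (Nat.pair n k)) := by
    intro α β x z n h hx hz
    have t : Tendsto (Nat.pair n) atTop atTop :=
      tendsto_atTop_mono (Nat.right_le_pair n) tendsto_id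
    filter_upwards [t.eventually (hx.and (hz.and (((key α).2.2.2.1 β h).1.and
      (key β).2.2.2.2.1))), eventually_ge_atTop (β.2.1 n)] with k ⟨a, b, c, d⟩ e
    rw [a, b]
    exact (d.2 _ c).1 (by simpa using e)
  refine ⟨{x | (∀ j, x j ∈ Full j) ∧ ∃ α, ∀ᶠ j in atTop, x j = (D α).1 j},
    {x | ∃ α, (∀ j, x j ∈ Full j) ∧ (∀ᶠ j in atTop, x j = (D α).1 j) ∨ x ∈ (D α).2.1},
    fun x ⟨a, α, b⟩ => ⟨α, Or.inl ⟨a, b⟩⟩, fun x hx => hx.1, ?_, ?_, fun m => ?_, fun g => ?_,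
    fun B b1 b2 => ?_⟩
  · rintro y ⟨-, α, hy⟩ z z1 z2
    exact ⟨z1, α, by filter_upwards [hy, z2] with j a b using b.trans a⟩
  · rintro x ⟨-, α, hx⟩ z ⟨-, β, hz⟩ n
    rcases trichotomous_of r α β with t | t | t
    · exact Or.inr (lin β α z x n t hz hx)
    · subst t
      left
      have t : Tendsto (Nat.pair n) atTop atTop :=
        tendsto_atTop_mono (Nat.right_le_pair n) tendsto_id
      filter_upwards [t.eventually (hx.and hz)] with k hk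
      rw [hk.1, hk.2]
    · exact Or.inl (lin α β x z n t hx hz)
  · exact ⟨(D (fun _ _ _ => true, m, m)).1, ⟨(key _).2.1, _, Eventually.of_forall fun _ => rfl⟩,
      (key (fun _ _ _ => true, m, m)).2.2.2.2.1.mono fun j hj => hj.1⟩
  · let α : (ℕ → ℕ → ℕ → Bool) × (ℕ → ℕ) × (ℕ → ℕ) := (fun _ _ _ => true, g, g)
    have : ∃ β, r α β := by
      by_contra t
      push Not at t
      have : (univ : Set ((ℕ → ℕ → ℕ → Bool) × (ℕ → ℕ) × (ℕ → ℕ))).Countable :=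
        ((cnt α).insert α).mono fun β _ => by
          rcases trichotomous_of r α β with s | s | s
          · exact absurd s (t β)
          · exact Or.inl s.symm
          · exact Or.inr s
      rw [Cardinal.countable_iff_lt_aleph_one, Cardinal.mk_univ, cI, hCH] at this
      exact lt_irrefl _ this
    obtain ⟨β, hβ⟩ := this
    refine ⟨(D α).1, ⟨(key α).2.1, α, Eventually.of_forall fun _ => rfl⟩, (D β).1,
      ⟨(key β).2.1, β, Eventually.of_forall fun _ => rfl⟩, ?_⟩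
    filter_upwards [((key β).2.2.2.1 α hβ).1, (key α).2.2.2.2.1] with j a b using (b.2 _ a).2
  · choose c hc using fun n m => f2 (B n m) (b1 n m)
    let α : (ℕ → ℕ → ℕ → Bool) × (ℕ → ℕ) × (ℕ → ℕ) := (c, id, id)
    obtain ⟨g, hg⟩ := (key α).2.2.2.2.2 fun n => by
      simp only [α, hc]
      refine (b2 n).mono ?_
      rintro x ((hx | ⟨β, -, hx⟩) | hx)
      · exact ⟨_, Or.inl hx⟩
      · exact ⟨β, hx⟩
      · exact ⟨_, Or.inr hx⟩
    simp only [α, hc] at hg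
    refine ⟨g, fun x ⟨β, hx⟩ => hg x ?_⟩
    rcases trichotomous_of r α β with t | t | t
    · right
      rcases hx with hx | hx
      · obtain ⟨l, hl⟩ := eventually_atTop.mp (hx.2.and ((key β).2.2.2.1 α t).1)
        exact ⟨l, hx.1, fun j hj => (hl j hj).1 ▸ (hl j hj).2⟩
      · exact ((key β).2.2.2.1 α t).2.2 x hx
    · subst t
      exact Or.inl (hx.imp Or.inl id)
    · exact Or.inl (Or.inl (Or.inr ⟨β, t, hx⟩))

end

end Pool.Agent.H18.Cr
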