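import Pool.Agent.H18.Cr2

set_option autoImplicit false

namespace Pool.Agent.H18.Cr

open Set Filter Topology Pool.Agent.H8.Tau

noncomputable section
open Classical

lemma two (j m : ℕ) : ∃ a ∈ Full j, m ∉ dc a ∧ ∃ a' ∈ Full j, Disjoint (dc a') (dc a) := by
  obtain ⟨y, y1, y2, -, y4⟩ := N.step (f := 0) ((N_full j).mono le_rfl (by
    have := H_pos j; nlinarith)) m
  obtain ⟨a, ha⟩ := y4.ne
  exact ⟨y, y1, y2, a, ha.1, ha.2⟩

theorem bad {Z : Type} [TopologicalSpace Z] {φ : Z → ℕ → ℕ}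
    (op : ∀ j i, IsOpen {y | i ∈ dc (φ y j)}) (full : ∀ y j, φ y j ∈ Full j)
    (md : ∀ y (z : ℕ → ℕ), (∀ j, z j ∈ Full j) → (∀ᶠ j in atTop, z j = φ y j) → ∃ y', φ y' = z)
    (lin : ∀ x z n, (∀ᶠ k in atTop, dc (φ x (Nat.pair n k)) ⊆ dc (φ z (Nat.pair n k))) ∨
        ∀ᶠ k in atTop, dc (φ z (Nat.pair n k)) ⊆ dc (φ x (Nat.pair n k)))
    (av : ∀ m : ℕ → ℕ, ∃ y, ∀ᶠ j in atTop, m j ∉ dc (φ y j))
    (dj : ∀ g : ℕ → ℕ, ∃ y z, ∀ᶠ j in atTop,
        j.unpair.2 < g j.unpair.1 → Disjoint (dc (φ z j)) (dc (φ y j))) :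
    ∃ 𝒰 : ℕ → Set (Set Z), (∀ n, (𝒰 n).Countable ∧ Ta IsOpen (𝒰 n)) ∧
      (∀ U : ℕ → Set Z, (∀ n, U n ∈ 𝒰 n) → ∃ y, ∀ n, y ∉ U n) ∧
      ∀ F : ℕ → Set (Set Z), (∀ n, (F n).Finite ∧ F n ⊆ 𝒰 n) →
        ∃ y z, ∀ n, ∀ V ∈ F n, ¬ (y ∈ V ∧ z ∈ V) := by
  let u : ℕ → ℕ → Set Z := fun j i => {y | i ∈ dc (φ y j)}
  have mdf : ∀ y (w : ℕ → ℕ) K, (∀ j, w j ∈ Full j) →
      ∃ y', ∀ j, φ y' j = if j < K then w j else φ y j := by
    intro y w K hw
    obtain ⟨y', hy⟩ := md y (fun j => if j < K then w j else φ y j)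
      (fun j => by split_ifs; exacts [hw j, full y j]) (by
        filter_upwards [eventually_ge_atTop K] with j hj using if_neg (not_lt.mpr hj))
    exact ⟨y', fun j => congrFun hy j⟩
  have av' : ∀ m : ℕ → ℕ, ∃ y, ∀ j, m j ∉ dc (φ y j) := by
    intro m
    obtain ⟨y, hy⟩ := av m
    obtain ⟨K, hK⟩ := eventually_atTop.mp hy
    choose w w1 w2 _ using fun j => two j (m j)
    obtain ⟨y', t⟩ := mdf y w K w1
    refine ⟨y', fun j => ?_⟩
    rw [t]
    split_ifs with c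
    exacts [w2 j, hK j (not_lt.mp c)]
  refine ⟨fun n => range fun p : ℕ × ℕ => u (Nat.pair n p.1) p.2, fun n => ⟨countable_range _, ?_⟩,
    fun U hU => ?_, fun F hF => ?_⟩
  · have large : ∀ y, {U | U ∈ range (fun p : ℕ × ℕ => u (Nat.pair n p.1) p.2) ∧ y ∈ U}.Infinite := by
      intro y
      choose i hi using fun k => full_ne (full y (Nat.pair n k))
      refine (infinite_range_of_injective (f := fun k => u (Nat.pair n k) (i k)) ?_).mono ?_
      · intro k k' t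
        by_contra ne
        obtain ⟨a, a1, a2, -⟩ := two (Nat.pair n k') (i k')
        have ne' : Nat.pair n k ≠ Nat.pair n k' := fun s => ne (Nat.pair_eq_pair.mp s).2
        obtain ⟨y', hy⟩ := md y (Function.update (φ y) (Nat.pair n k') a) (fun j => by
          by_cases c : j = Nat.pair n k'
          · subst c; simpa using a1
          · rw [Function.update_of_ne c]; exact full y j) (by
          filter_upwards [eventually_gt_atTop (Nat.pair n k')] with j hj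
          exact Function.update_of_ne hj.ne' _ _)
        have : y' ∈ u (Nat.pair n k) (i k) := by
          simp only [u, mem_setOf_eq, hy, Function.update_of_ne ne']; exact hi k
        have t' : u (Nat.pair n k) (i k) = u (Nat.pair n k') (i k') := t
        rw [t'] at this
        simp only [u, mem_setOf_eq, hy, Function.update_self] at this
        exact a2 this
      · rintro _ ⟨k, rfl⟩
        exact ⟨⟨(k, i k), rfl⟩, hi k⟩
    have fin : ∀ x z, (∀ᶠ k in atTop, dc (φ x (Nat.pair n k)) ⊆ dc (φ z (Nat.pair n k))) →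
        {U | U ∈ range (fun p : ℕ × ℕ => u (Nat.pair n p.1) p.2) ∧ x ∈ U ∧ z ∉ U}.Finite := by
      intro x z t
      obtain ⟨K, hK⟩ := eventually_atTop.mp t
      refine ((finite_lt_nat K).biUnion fun k _ =>
        (dc_fin (φ x (Nat.pair n k))).image (u (Nat.pair n k))).subset ?_
      rintro _ ⟨⟨⟨k, i⟩, rfl⟩, a, b⟩
      refine mem_biUnion (show k ∈ {k | k < K} from ?_) ⟨i, a, rfl⟩
      by_contra s
      exact b (hK k (not_lt.mp s) a)
    refine ⟨⟨by rintro _ ⟨p, rfl⟩; exact op _ _, eq_univ_of_forall fun y => ?_, ?_⟩, large,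
      fun x z => (lin x z n).imp (fin x z) (fin z x)⟩
    · obtain ⟨U, a, b⟩ := (large y).nonempty
      exact ⟨U, a, b⟩
    · rintro ⟨p, t⟩
      obtain ⟨y, hy⟩ := av' fun _ => p.2
      exact hy _ (show y ∈ u (Nat.pair n p.1) p.2 from
        (show u (Nat.pair n p.1) p.2 = univ from t) ▸ mem_univ y)
  · choose p hp using hU
    obtain ⟨y, hy⟩ := av' fun j => (p j.unpair.1).2
    refine ⟨y, fun n t => hy (Nat.pair n (p n).1) ?_⟩
    rw [← hp n] at t
    simpa [u] using t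
  · choose g hg using fun n => bound (hF n).1
      (P := fun V K => ∃ k < K, ∃ i, V = u (Nat.pair n k) i) (fun V hV => by
        obtain ⟨p, rfl⟩ := (hF n).2 hV
        exact ⟨p.1 + 1, p.1, by omega, p.2, rfl⟩)
      fun V a b ab ⟨k, k1, k2⟩ => ⟨k, by omega, k2⟩
    obtain ⟨y, z, t⟩ := dj g
    obtain ⟨K, hK⟩ := eventually_atTop.mp t
    choose w w1 _ w' w2 w3 using fun j => two j 0
    obtain ⟨y', hy⟩ := mdf y w K w1
    obtain ⟨z', hz⟩ := mdf z w' K w2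
    refine ⟨y', z', fun n V hV ⟨a, b⟩ => ?_⟩
    obtain ⟨k, k1, i, rfl⟩ := hg n V hV
    simp only [u, mem_setOf_eq, hy, hz] at a b
    split_ifs at a b with c
    · exact disjoint_left.mp (w3 _) b a
    · exact disjoint_left.mp (hK _ (not_lt.mp c) (by simpa using k1)) b a

theorem real (hCH : Cardinal.continuum.{0} = Cardinal.aleph 1) :
    ∃ X Y : Set ℝ, Y ⊆ X ∧ Y.Nonempty ∧
      (∀ u : ℕ → ℕ → Set X, (∀ n m, MeasurableSet (u n m)) → (∀ n, IT (u n)) →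
        ∃ g : ℕ → ℕ, IG fun n => u n (g n)) ∧
      (∀ u : ℕ → ℕ → Set Y, (∀ n m, MeasurableSet (u n m)) → (∀ n, IG (u n)) →
        ∃ g : ℕ → ℕ, IG fun n => u n (g n)) ∧
      ∃ 𝒰 : ℕ → Set (Set Y), (∀ n, (𝒰 n).Countable ∧ Ta IsOpen (𝒰 n)) ∧
      (∀ U : ℕ → Set Y, (∀ n, U n ∈ 𝒰 n) → ∃ y, ∀ n, y ∉ U n) ∧
      ∀ F : ℕ → Set (Set Y), (∀ n, (F n).Finite ∧ F n ⊆ 𝒰 n) →
        ∃ y z, ∀ n, ∀ V ∈ F n, ¬ (y ∈ V ∧ z ∈ V) := by
  obtain ⟨Y, X, h0, h1, h2, h3, h4, h5, h6⟩ := main hCH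
  obtain ⟨e, -, e1, e2⟩ := (isClosed_univ (X := ℝ)).exists_nat_bool_injection_of_not_countable
    Cardinal.not_countable_real
  have he := (e1.isClosedEmbedding e2).isEmbedding
  let b : (ℕ → ℕ) → ℕ → Bool := fun x n => decide (x n.unpair.1 = n.unpair.2)
  have bc : Continuous b := continuous_pi fun n =>
    (continuous_of_discreteTopology (f := fun a : ℕ => decide (a = n.unpair.2))).comp
      (continuous_apply n.unpair.1)
  have bi : Function.Injective b := fun x z t => by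
    ext j
    have := congrFun t (Nat.pair j (x j))
    simp only [b, Nat.unpair_pair, decide_true] at this
    exact (of_decide_eq_true this.symm).symm
  let c : (ℕ → ℕ) → ℝ := fun x => e (b x)
  have cm : Measurable c := (e1.comp bc).measurable
  have ci : Function.Injective c := e2.comp bi
  have : ∀ p : c '' Y, ∃ x ∈ Y, c x = p.1 := fun p => p.2
  choose φ φ1 φ2 using this
  have pφ : ∀ x (hx : x ∈ Y), φ ⟨c x, x, hx, rfl⟩ = x := fun x hx => ci (φ2 _)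
  refine ⟨c '' X, c '' Y, image_mono h0, ?_, fun u u1 u2 => ?_, fun u u1 u2 => ?_,
    bad (φ := φ) (fun j i => ?_) (fun y => h1 _ (φ1 y))
    (fun y z a t => ⟨_, pφ z (h2 _ (φ1 y) z a t)⟩) (fun x z => h3 _ (φ1 x) _ (φ1 z))
    (fun m => ?_) fun g => ?_⟩
  · obtain ⟨y, hy, -⟩ := h4 id
    exact ⟨_, y, hy, rfl⟩
  · choose V v1 v2 using fun n m => MeasurableSpace.measurableSet_comap.mp (u1 n m)
    have mem : ∀ n m x (hx : x ∈ X), x ∈ c ⁻¹' V n m ↔ (⟨c x, x, hx, rfl⟩ : c '' X) ∈ u n m :=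
      fun n m x hx => by rw [← v2]; rfl
    obtain ⟨g, hg⟩ := h6 (fun n m => c ⁻¹' V n m) (fun n m => cm (v1 n m)) fun n =>
      ⟨fun x hx => by simp only [mem _ _ x hx]; exact (u2 n).1 _, fun x hx y hy => by
        simp only [mem _ _ x hx, mem _ _ y hy]; exact (u2 n).2 _ _⟩
    refine ⟨g, ?_⟩
    rintro ⟨_, x, hx, rfl⟩
    simpa only [mem _ _ x hx] using hg x hx
  · choose V v1 v2 using fun n m => MeasurableSpace.measurableSet_comap.mp (u1 n m)
    have mem : ∀ n m x (hx : x ∈ Y), x ∈ c ⁻¹' V n m ↔ (⟨c x, x, hx, rfl⟩ : c '' Y) ∈ u n m :=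
      fun n m x hx => by rw [← v2]; rfl
    have ev : ∀ n x, ∀ᶠ m in atTop, x ∈ c ⁻¹' V n m ∪ (⋃ M, ⋂ m ∈ Ici M, c ⁻¹' V n m)ᶜ := by
      intro n x
      by_cases s : x ∈ ⋃ M, ⋂ m ∈ Ici M, c ⁻¹' V n m
      · obtain ⟨M, hM⟩ := mem_iUnion.mp s
        filter_upwards [eventually_ge_atTop M] with m hm using Or.inl (mem_iInter₂.mp hM m hm)
      · exact Eventually.of_forall fun m => Or.inr s
    obtain ⟨g, hg⟩ := h6 (fun n m => c ⁻¹' V n m ∪ (⋃ M, ⋂ m ∈ Ici M, c ⁻¹' V n m)ᶜ)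
      (fun n m => (cm (v1 n m)).union (MeasurableSet.iUnion fun M =>
        MeasurableSet.biInter (to_countable _) fun m _ => cm (v1 n m)).compl) fun n =>
      ⟨fun x _ => (ev n x).frequently, fun x _ y _ => Or.inl ((ev n y).mono fun m hm _ => hm)⟩
    refine ⟨g, ?_⟩
    rintro ⟨_, x, hx, rfl⟩
    filter_upwards [hg x (h0 hx)] with n hn
    refine (mem _ _ x hx).mp (hn.resolve_right fun s => s ?_)
    obtain ⟨M, hM⟩ := eventually_atTop.mp (u2 n ⟨c x, x, hx, rfl⟩)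
    exact mem_iUnion.mpr ⟨M, mem_iInter₂.mpr fun m hm => (mem _ _ x hx).mpr (hM m hm)⟩
  · obtain ⟨w, w1, w2⟩ := he.isInducing.isOpen_iff.mp (show IsOpen (⋃ a ∈ {a | i ∈ dc a},
      {v : ℕ → Bool | v (Nat.pair j a) = true}) from isOpen_biUnion fun a _ =>
        (isOpen_discrete {true}).preimage (continuous_apply (A := fun _ : ℕ => Bool) _))
    convert w1.preimage (continuous_subtype_val (p := fun x => x ∈ c '' Y)) using 1
    ext p
    have : p.1 ∈ w ↔ b (φ p) ∈ e ⁻¹' w := by rw [← φ2 p]; rfl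
    rw [mem_preimage, this, w2]
    simp [b]
  · obtain ⟨y, hy, t⟩ := h4 m
    exact ⟨⟨c y, y, hy, rfl⟩, by rwa [pφ y hy]⟩
  · obtain ⟨y, hy, z, hz, t⟩ := h5 g
    exact ⟨⟨c y, y, hy, rfl⟩, ⟨c z, z, hz, rfl⟩, by rwa [pφ y hy, pφ z hz]⟩

end

end Pool.Agent.H18.Cr
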