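import Mathlib

set_option autoImplicit false

namespace Pool.Agent.H18.Dim

open Set Filter Topology Function MeasureTheory PiNat
open scoped ENNReal NNReal

noncomputable section
open Classical

abbrev K := ℕ → Bool

abbrev cyl (x : K) (j : ℕ) : Set K := cylinder x j

lemma cyl_clopen (x : K) (j : ℕ) : IsClopen (cyl x j) := by
  refine ⟨?_, isOpen_cylinder _ x j⟩
  rw [cyl, cylinder_eq_pi]
  exact isClosed_set_pi fun i _ => isClosed_singleton

lemma cyl_meas (x : K) (j : ℕ) : MeasurableSet (cyl x j) := (cyl_clopen x j).2.measurableSet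

lemma cyl_eq {x y : K} {j i : ℕ} (h : y ∈ cyl x j) (hi : i ≤ j) : cyl y i = cyl x i :=
  mem_cylinder_iff_eq.mp (cylinder_anti x hi h)

lemma lam (μ ν : Measure K) : μ {y | ∃ j, μ (cyl y j) ≤ ν (cyl y j)} ≤
    ν {y | ∃ j, μ (cyl y j) ≤ ν (cyl y j)} := by
  let D : {y | ∃ j, μ (cyl y j) ≤ ν (cyl y j)} → Set K := fun y => cyl y.1 (Nat.find y.2)
  have e : ∀ (y : {y | ∃ j, μ (cyl y j) ≤ ν (cyl y j)}) z, z ∈ D y →
      ∃ h : ∃ j, μ (cyl z j) ≤ ν (cyl z j), D ⟨z, h⟩ = D y := by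
    intro y z hz
    have h : ∃ j, μ (cyl z j) ≤ ν (cyl z j) :=
      ⟨Nat.find y.2, by rw [cyl_eq hz le_rfl]; exact Nat.find_spec y.2⟩
    have : Nat.find h = Nat.find y.2 := by
      rw [Nat.find_eq_iff]
      refine ⟨by rw [cyl_eq hz le_rfl]; exact Nat.find_spec y.2, fun i hi => ?_⟩
      rw [cyl_eq hz hi.le]
      exact Nat.find_min y.2 hi
    exact ⟨h, by simp only [D, this]; exact cyl_eq hz le_rfl⟩
  have dj : (range D).Pairwise Disjoint := by
    rintro _ ⟨y, rfl⟩ _ ⟨y', rfl⟩ ne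
    refine disjoint_left.mpr fun z a b => ne ?_
    obtain ⟨h, t⟩ := e y z a
    obtain ⟨h', t'⟩ := e y' z b
    exact t.symm.trans t'
  have ct : (range D).Countable := PairwiseDisjoint.countable_of_isOpen (s := id) dj
    (by rintro _ ⟨y, rfl⟩; exact (cyl_clopen _ _).2)
    (by rintro _ ⟨y, rfl⟩; exact ⟨y.1, self_mem_cylinder _ _⟩)
  have un : {y | ∃ j, μ (cyl y j) ≤ ν (cyl y j)} = ⋃₀ range D := by
    ext z
    constructor
    · exact fun h => ⟨_, ⟨⟨z, h⟩, rfl⟩, self_mem_cylinder _ _⟩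
    · rintro ⟨_, ⟨y, rfl⟩, h⟩
      exact (e y z h).1
  have ms : ∀ s ∈ range D, MeasurableSet s := by rintro _ ⟨y, rfl⟩; exact cyl_meas _ _
  rw [un, measure_sUnion ct dj ms, measure_sUnion ct dj ms]
  refine ENNReal.tsum_le_tsum ?_
  rintro ⟨_, y, rfl⟩
  exact Nat.find_spec y.2

lemma core (μ : Measure K) [IsFiniteMeasure μ] {Y : Type} [Fintype Y] {g : K → Y}
    (hg : ∀ S : Set Y, MeasurableSet (g ⁻¹' S)) (N : ℕ) (θ : ℝ≥0∞) (hθ : N * θ = 1) :
    ∃ S : Finset Y, S.card ≤ N ∧ ∃ (Q : Set K) (ν : Measure K), IsClosed Q ∧ Q ⊆ g ⁻¹' S ∧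
      ν Qᶜ = 0 ∧ ν univ = μ univ ∧
      (∀ A, MeasurableSet A → ν A ≤ (4 * Fintype.card Y * θ + 8) * μ A) ∧
      ∀ x j, ν (cyl x j) ≤ 8 * μ (cyl x j) + θ * μ univ := by
  by_cases M0 : μ univ = 0
  · exact ⟨∅, by simp, ∅, 0, isClosed_empty, by simp, by simp, by simp [M0], by simp, by simp⟩
  have M1 := measure_ne_top μ univ
  have cl : ∀ (c : ℝ≥0∞) (A : Set K), c ≠ ∞ → MeasurableSet A → μ univ < c * μ A →
      ∃ B ⊆ A, IsClosed B ∧ μ univ < c * μ B := by
    intro c A c1 hA h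
    have c0 : c ≠ 0 := by rintro rfl; simp at h
    obtain ⟨B, b1, b2, b3⟩ := hA.exists_lt_isClosed_of_ne_top (measure_ne_top μ A)
      (r := μ univ / c) (by rwa [ENNReal.div_lt_iff (Or.inl c0) (Or.inl c1), mul_comm])
    exact ⟨B, b1, b2, by rwa [ENNReal.div_lt_iff (Or.inl c0) (Or.inl c1), mul_comm] at b3⟩
  have sc : ∀ (B : Set K) (c v : ℝ≥0∞), IsClosed B → μ univ < c * μ B → ∃ η : Measure K,
      η Bᶜ = 0 ∧ η univ = v * μ univ ∧ ∀ A, MeasurableSet A → η A ≤ c * v * μ (A ∩ B) := by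
    intro B c v hB h
    have b0 : μ B ≠ 0 := by intro t; simp [t] at h
    refine ⟨(v * μ univ / μ B) • μ.restrict B, by simp [hB.measurableSet.compl], ?_, fun A hA => ?_⟩
    · simp [ENNReal.div_mul_cancel b0 (measure_ne_top μ B)]
    · rw [Measure.smul_apply, Measure.restrict_apply hA, smul_eq_mul]
      gcongr
      refine ENNReal.div_le_of_le_mul ?_
      rw [mul_comm c, mul_assoc]
      gcongr
  have : ∀ k ≤ N, ∃ S : Finset Y, S.card ≤ k ∧ (μ univ ≤ 4 * μ (g ⁻¹' S) ∨
      ∃ (Q : Set K) (ν : Measure K), IsClosed Q ∧ Q ⊆ g ⁻¹' S ∧ ν Qᶜ = 0 ∧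
        ν univ = k * (θ * μ univ) ∧
        (∀ A, MeasurableSet A → ν A ≤ 4 * Fintype.card Y * θ * μ A) ∧
        ∀ x j, ν (cyl x j) ≤ 4 * μ (cyl x j) + θ * μ univ) := by
    intro k
    induction k with
    | zero => exact fun _ => ⟨∅, by simp, Or.inr ⟨∅, 0, isClosed_empty, by simp⟩⟩
    | succ k ih =>
      intro hk
      obtain ⟨S, s1, s2⟩ := ih (by omega)
      by_cases c : μ univ ≤ 4 * μ (g ⁻¹' S)
      · exact ⟨S, by omega, Or.inl c⟩
      obtain ⟨Q, ν, q1, q2, q3, q4, q5, q6⟩ := s2.resolve_left c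
      let U := {y | ∃ j, ((4 : ℝ≥0∞) • μ) (cyl y j) ≤ ν (cyl y j)}
      have u0 : ∀ y j, ((4 : ℝ≥0∞) • μ) (cyl y j) ≤ ν (cyl y j) → cyl y j ⊆ U :=
        fun y j h z hz => ⟨j, by rwa [cyl_eq hz le_rfl]⟩
      have uo : IsOpen U := isOpen_iff_mem_nhds.mpr fun y ⟨j, h⟩ =>
        mem_of_superset ((cyl_clopen y j).2.mem_nhds (self_mem_cylinder _ _)) (u0 y j h)
      have u1 : 4 * μ U ≤ μ univ := by
        refine (lam ((4 : ℝ≥0∞) • μ) ν).trans ((measure_mono (subset_univ _)).trans ?_)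
        rw [q4]
        calc (k : ℝ≥0∞) * (θ * μ univ) ≤ N * (θ * μ univ) := by gcongr; omega
          _ = μ univ := by rw [← mul_assoc, hθ, one_mul]
      let W := (U ∪ g ⁻¹' S)ᶜ
      have wm : MeasurableSet W := (uo.measurableSet.union (hg _)).compl
      have : ∃ y, μ univ < 4 * Fintype.card Y * μ (g ⁻¹' {y} ∩ W) := by
        by_contra t
        push Not at t
        have R0 : (Fintype.card Y : ℝ≥0∞) ≠ 0 := by
          haveI : Nonempty Y := ⟨g fun _ => true⟩
          simp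
        have a : ∑ y, μ (g ⁻¹' {y} ∩ W) = μ W := by
          have := sum_measure_preimage_singleton (μ := μ.restrict W) Finset.univ (f := g)
            fun y _ => hg _
          simpa [Measure.restrict_apply (hg _)] using this
        have b : 4 * μ W ≤ μ univ := by
          rw [← ENNReal.mul_le_mul_iff_right R0 (by simp), ← mul_assoc, mul_comm _ (4 : ℝ≥0∞), ← a,
            Finset.mul_sum]
          exact (Finset.sum_le_sum fun y _ => t y).trans (by simp)
        have d : μ univ ≤ μ U + μ (g ⁻¹' S) + μ W := by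
          rw [← union_compl_self (U ∪ g ⁻¹' S)]
          exact (measure_union_le _ _).trans (add_le_add_left (measure_union_le _ _) _)
        have e : 4 * μ univ ≤ 3 * μ univ := by
          calc 4 * μ univ ≤ 4 * μ U + 4 * μ (g ⁻¹' S) + 4 * μ W := by
                rw [← mul_add, ← mul_add]; gcongr
            _ ≤ μ univ + μ univ + μ univ := by gcongr; exact (not_le.mp c).le
            _ = 3 * μ univ := by ring
        rw [ENNReal.mul_le_mul_iff_left M0 M1] at e
        norm_num at e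
      obtain ⟨y, hy⟩ := this
      obtain ⟨B, b1, b2, b3⟩ := cl _ _ (by finiteness) ((hg _).inter wm) hy
      obtain ⟨η, e1, e2, e3⟩ := sc B _ θ b2 b3
      refine ⟨insert y S, (Finset.card_insert_le _ _).trans (by omega), Or.inr ⟨Q ∪ B, ν + η,
        q1.union b2, union_subset (q2.trans fun z hz => by simpa using Or.inr hz)
          fun z hz => by simpa using Or.inl (b1 hz).1, ?_, ?_, fun A hA => ?_, fun x j => ?_⟩⟩
      · rw [Measure.add_apply, compl_union, measure_mono_null inter_subset_left q3,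
          measure_mono_null inter_subset_right e1, add_zero]
      · rw [Measure.add_apply, q4, e2]
        push_cast
        ring
      · have : ν A ≤ ν (A \ B) := by
          rw [← measure_inter_add_diff A b2.measurableSet, measure_mono_null
            (show A ∩ B ⊆ Qᶜ from fun z hz t => (b1 hz.2).2 (Or.inr (q2 t))) q3, zero_add]
        rw [Measure.add_apply, ← measure_inter_add_diff (μ := μ) A b2.measurableSet, mul_add,
          add_comm]
        exact add_le_add (e3 A hA) (this.trans (q5 _ (hA.diff b2.measurableSet)))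
      · rw [Measure.add_apply]
        by_cases t : ((4 : ℝ≥0∞) • μ) (cyl x j) ≤ ν (cyl x j)
        · rw [measure_mono_null (show cyl x j ⊆ Bᶜ from fun z hz s =>
            (b1 s).2 (Or.inl (u0 x j t hz))) e1, add_zero]
          exact q6 x j
        · exact add_le_add (not_le.mp t).le ((measure_mono (subset_univ _)).trans e2.le)
  obtain ⟨S, s1, s2 | ⟨Q, ν, q1, q2, q3, q4, q5, q6⟩⟩ := this N le_rfl
  · obtain ⟨B, b1, b2, b3⟩ := cl 8 _ (by simp) (hg S) (by
      calc μ univ < 2 * μ univ := by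
            rw [two_mul]; exact ENNReal.lt_add_right M1 M0
        _ ≤ 2 * (4 * μ (g ⁻¹' S)) := by gcongr
        _ = _ := by ring)
    obtain ⟨η, e1, e2, e3⟩ := sc B 8 1 b2 b3
    have : ∀ A, MeasurableSet A → η A ≤ 8 * μ A := fun A hA => (e3 A hA).trans (by
      rw [mul_one]; gcongr; exact inter_subset_left)
    exact ⟨S, s1, B, η, b2, b1, e1, by simpa using e2, fun A hA => (this A hA).trans (by
      gcongr; exact le_add_self), fun x j => (this _ (cyl_meas x j)).trans le_self_add⟩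
  · exact ⟨S, s1, Q, ν, q1, q2, q3, by rw [q4, ← mul_assoc, hθ, one_mul],
      fun A hA => (q5 A hA).trans (by gcongr; exact le_self_add),
      fun x j => (q6 x j).trans (by gcongr; norm_num)⟩

lemma core2 (μ : Measure K) [IsProbabilityMeasure μ] {Y : Type} [Fintype Y] {g : K → Y}
    (hg : ∀ S : Set Y, MeasurableSet (g ⁻¹' S)) (N : ℕ) (θ : ℝ≥0∞) (hθ : N * θ = 1) (a : ℕ) :
    ∃ S : Finset Y, S.card ≤ 2 ^ a * N ∧ ∃ (Q : Set K) (ν : Measure K), IsClosed Q ∧ Q ⊆ g ⁻¹' S ∧
      ν Qᶜ = 0 ∧ (∀ x, ∀ j ≤ a, ν (cyl x j) = μ (cyl x j)) ∧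
      (∀ A, MeasurableSet A → ν A ≤ (4 * Fintype.card Y * θ + 8) * μ A) ∧
      ∀ x j, ν (cyl x j) ≤ 8 * μ (cyl x j) + θ := by
  let π : K → Fin a → Bool := fun x i => x i
  have πm : ∀ t, MeasurableSet (π ⁻¹' {t}) := fun t =>
    (show Measurable π by fun_prop) (measurableSet_singleton t)
  have sm : ∀ A, MeasurableSet A → ∑ t, μ.restrict (π ⁻¹' {t}) A = μ A := by
    intro A hA
    have := sum_measure_preimage_singleton (μ := μ.restrict A) Finset.univ (f := π) fun t _ => πm t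
    simpa [Measure.restrict_apply (πm _), Measure.restrict_apply hA, inter_comm] using this
  choose S s1 Q ν q1 q2 q3 q4 q5 q6 using fun t => core (μ.restrict (π ⁻¹' {t})) hg N θ hθ
  refine ⟨Finset.univ.biUnion S, ?_, ⋃ t, Q t, ∑ t, ν t, isClosed_iUnion_of_finite q1,
    iUnion_subset fun t => (q2 t).trans fun z hz => by simpa using ⟨t, hz⟩, ?_, fun x j hj => ?_,
    fun A hA => ?_, fun x j => ?_⟩
  · exact (Finset.card_biUnion_le_card_mul _ _ _ fun t _ => s1 t).trans (by simp)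
  · rw [Measure.finset_sum_apply]
    exact Finset.sum_eq_zero fun t _ => measure_mono_null
      (compl_subset_compl.mpr (subset_iUnion Q t)) (q3 t)
  · rw [Measure.finset_sum_apply, ← sm _ (cyl_meas x j)]
    refine Finset.sum_congr rfl fun t _ => ?_
    have z : ∀ A, MeasurableSet A → A ∩ π ⁻¹' {t} = ∅ →
        ν t A = 0 ∧ μ.restrict (π ⁻¹' {t}) A = 0 := fun A hA h => by
      have : μ.restrict (π ⁻¹' {t}) A = 0 := by simp [Measure.restrict_apply hA, h]
      exact ⟨by simpa [this] using q5 t A hA, this⟩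
    by_cases c : cyl x j ∩ π ⁻¹' {t} = ∅
    · rw [(z _ (cyl_meas x j) c).1, (z _ (cyl_meas x j) c).2]
    · obtain ⟨w, w1, w2⟩ := nonempty_iff_ne_empty.mpr c
      obtain ⟨a1, a2⟩ := z _ (cyl_meas x j).compl (eq_empty_of_forall_notMem fun v hv =>
        hv.1 fun i hi => (congrFun (hv.2.trans (w2 : π w = t).symm) ⟨i, by omega⟩).trans (w1 i hi))
      have := q4 t
      rwa [← measure_add_measure_compl (cyl_meas x j), ← measure_add_measure_compl (cyl_meas x j),
        a1, a2, add_zero, add_zero] at this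
  · rw [Measure.finset_sum_apply, ← sm A hA, Finset.mul_sum]
    exact Finset.sum_le_sum fun t _ => q5 t A hA
  · rw [Measure.finset_sum_apply]
    refine (Finset.sum_le_sum fun t _ => q6 t x j).trans (le_of_eq ?_)
    rw [Finset.sum_add_distrib, ← Finset.mul_sum, ← Finset.mul_sum, sm _ (cyl_meas x j),
      sm _ MeasurableSet.univ]
    simp

end

end Pool.Agent.H18.Dim
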