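import Pool.Agent.H18.Dim1

set_option autoImplicit false

namespace Pool.Agent.H18.Dim

open Set Filter Topology Function MeasureTheory PiNat
open scoped ENNReal NNReal

noncomputable section
open Classical

def E (t : ℝ) : ℝ≥0∞ := (2 : ℝ≥0∞) ^ t

lemma E_add (a b : ℝ) : E (a + b) = E a * E b := ENNReal.rpow_add _ _ (by simp) (by simp)

lemma E_mono {a b : ℝ} (h : a ≤ b) : E a ≤ E b :=
  ENNReal.rpow_le_rpow_of_exponent_le (by norm_num) h

lemma E_nat (n : ℕ) : E n = 2 ^ n := ENNReal.rpow_natCast _ _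

lemma E_two {a b c : ℝ} (h1 : a + 1 ≤ c) (h2 : b + 1 ≤ c) : E a + E b ≤ E c := by
  calc E a + E b ≤ E (c - 1) + E (c - 1) := add_le_add (E_mono (by linarith)) (E_mono (by linarith))
    _ = E (c - 1 + (1 : ℕ)) := by rw [E_add, E_nat]; ring
    _ = E c := by simp

def Bd (μ : Measure K) (j : ℕ) (t : ℝ) : Prop := ∀ x, μ (cyl x j) ≤ E t

lemma Bd.mono {μ : Measure K} {j : ℕ} {t u : ℝ} (h : Bd μ j t) (tu : t ≤ u) : Bd μ j u :=
  fun x => (h x).trans (E_mono tu)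

lemma Bd.half {μ : Measure K} {j : ℕ} (d : ℕ) {t : ℝ} (h : Bd μ (j + d) t) : Bd μ j (t + d) := by
  induction d generalizing t with
  | zero => simpa using h
  | succ d ih =>
    refine (ih (t := t + 1) fun x => ?_).mono (by push_cast; linarith)
    have : cyl x (j + d) ⊆ cyl (update x (j + d) true) (j + d + 1) ∪
        cyl (update x (j + d) false) (j + d + 1) := by
      intro y hy
      rw [cyl, ← iUnion_cylinder_update] at hy
      obtain ⟨b, hb⟩ := mem_iUnion.mp hy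
      cases b
      exacts [Or.inr hb, Or.inl hb]
    exact (measure_mono this).trans ((measure_union_le _ _).trans
      ((add_le_add (h _) (h _)).trans (E_two le_rfl le_rfl)))

lemma big {c : ℝ} (hc : 0 < c) (C : ℝ) : ∀ᶠ j : ℕ in atTop, C ≤ c * j :=
  (tendsto_natCast_atTop_atTop.const_mul_atTop hc).eventually_ge_atTop C

structure Cond (s : ℝ) where
  μ : Measure K
  pr : IsProbabilityMeasure μ
  P : Set K
  cl : IsClosed P
  full : μ Pᶜ = 0
  D : ∀ ε, 0 < ε → ∀ᶠ j : ℕ in atTop, Bd μ j (-(s - ε) * j)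
  F : ∀ ε, 0 < ε → ∃ᶠ j : ℕ in atTop, Bd μ j (-(1 - ε) * j)

variable {s : ℝ}

structure Le (a : ℕ) (ε : ℝ) (p q : Cond s) : Prop where
  sub : q.P ⊆ p.P
  eq : ∀ x, ∀ j ≤ a, q.μ (cyl x j) = p.μ (cyl x j)
  bd : ∀ j, a < j → Bd q.μ j (-(s - ε) * j)

lemma Le.trans {a a' : ℕ} {ε ε' : ℝ} {p q r : Cond s} (h : Le a ε p q) (h' : Le a' ε' q r)
    (aa : a ≤ a') (ee : ε' ≤ ε) : Le a ε p r := by
  refine ⟨h'.sub.trans h.sub, fun x j hj => (h'.eq x j (hj.trans aa)).trans (h.eq x j hj),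
    fun j hj => ?_⟩
  by_cases c : j ≤ a'
  · exact fun x => (h'.eq x j c).trans_le (h.bd j hj x)
  · exact (h'.bd j (by omega)).mono (by nlinarith [(Nat.cast_nonneg j : (0 : ℝ) ≤ j)])

lemma Le.refl (p : Cond s) (n : ℕ) {ε : ℝ} (hε : 0 < ε) : ∃ a, n ≤ a ∧ Le a ε p p := by
  obtain ⟨a, ha⟩ := eventually_atTop.mp (p.D ε hε)
  exact ⟨n + a, by omega, le_rfl, fun _ _ _ => rfl, fun j hj => ha j (by omega)⟩

lemma step (s0 : 0 ≤ s) (s1 : s ≤ 1) (p : Cond s) {f : K → K} (hf : Measurable f) (n k : ℕ) {ε : ℝ}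
    (hε : 0 < ε) : ∃ a, n ≤ a ∧ ∃ q, Le a ε p q ∧ ∃ m, k ≤ m ∧ ∃ S : Finset (Fin m → Bool),
      (S.card : ℝ≥0∞) ≤ E ((s + ε) * m) ∧ ∀ x ∈ q.P, (fun i : Fin m => f x i) ∈ S := by
  haveI := p.pr
  obtain ⟨a, ha⟩ := eventually_atTop.mp ((p.D (ε / 2) (by positivity)).and
    ((big (c := ε / 2) (by positivity) 4).and (eventually_ge_atTop n)))
  obtain ⟨b, b1, b2, b3, b4, b5⟩ := ((p.F (ε ^ 2 / 8) (by positivity)).and_eventually
    ((big (c := ε / 4) (by positivity) 4).and ((big (c := ε / 4) (by positivity) (k + 1)).and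
      ((big (c := ε ^ 2 / 8) (by positivity) (4 + ε)).and
        (big (c := ε ^ 2 / 4) (by positivity) (a + 1 + ε)))))).exists
  obtain ⟨m, m1, m2⟩ : ∃ m : ℕ, (m : ℝ) ≤ ε / 4 * b ∧ ε / 4 * b ≤ m + 1 :=
    ⟨⌊ε / 4 * b⌋₊, Nat.floor_le (by positivity), (Nat.lt_floor_add_one _).le⟩
  have m0 : (0 : ℝ) ≤ m := Nat.cast_nonneg m
  obtain ⟨u, u1, u2, u3⟩ : ∃ u : ℕ, s * m ≤ u ∧ (u : ℝ) ≤ s * m + 1 ∧ (u : ℝ) ≤ m :=
    ⟨⌈s * m⌉₊, Nat.le_ceil _, (Nat.ceil_lt_add_one (by positivity)).le,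
      by exact_mod_cast Nat.ceil_le.mpr (by nlinarith)⟩
  obtain ⟨S, c1, Q, ν, q1, q2, q3, q4, q5, q6⟩ := core2 p.μ (g := fun x (i : Fin m) => f x i)
    (fun S => (show Measurable fun x (i : Fin m) => f x i by fun_prop) S.toFinite.measurableSet)
    (2 ^ u) (E (-u)) (by push_cast; rw [← E_nat, ← E_add]; simp [E]) a
  have e8 : (8 : ℝ≥0∞) = E (3 : ℕ) := by rw [E_nat]; norm_num
  have q7 : ∀ A, MeasurableSet A → ν A ≤ E (m - u + 4) * p.μ A := fun A hA => (q5 A hA).trans (by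
    gcongr
    have : (4 : ℝ≥0∞) * Fintype.card (Fin m → Bool) * E (-u) = E ((2 : ℕ) + m + -u) := by
      rw [E_add, E_add, E_nat, E_nat]
      norm_num
    rw [this, e8]
    exact E_two (by push_cast; linarith) (by push_cast; linarith))
  have q8 : ∀ j t, Bd p.μ j t → Bd ν j (m - u + 4 + t) := fun j t h x =>
    (q7 _ (cyl_meas x j)).trans (by rw [E_add (m - u + 4)]; gcongr; exact h x)
  refine ⟨a, (ha a le_rfl).2.2, ⟨ν, ⟨?_⟩, Q ∩ p.P, q1.inter p.cl, ?_, fun δ hδ => ?_,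
    fun δ hδ => ?_⟩, ⟨inter_subset_right, q4, fun j hj => ?_⟩, m, ?_, S, ?_, fun x hx => q2 hx.1⟩
  · simpa [cyl] using q4 (fun _ => true) 0 (Nat.zero_le a)
  · rw [compl_inter]
    exact measure_union_null q3 (by simpa [p.full] using q7 _ p.cl.measurableSet.compl)
  · filter_upwards [p.D (δ / 2) (by positivity), big (c := δ / 2) (by positivity) (m - u + 4)]
      with j h1 h2 using (q8 _ _ h1).mono (by linarith)
  · refine ((p.F (δ / 2) (by positivity)).and_eventually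
      (big (c := δ / 2) (by positivity) (m - u + 4))).mono fun j h => (q8 _ _ h.1).mono ?_
    linarith [h.2]
  · obtain ⟨h1, h2, -⟩ := ha j hj.le
    have j0 : (0 : ℝ) ≤ j := Nat.cast_nonneg j
    by_cases c : j ≤ m
    · intro x
      have c' : (j : ℝ) ≤ m := by exact_mod_cast c
      refine (q6 x j).trans ?_
      calc 8 * p.μ (cyl x j) + E (-u) ≤ E ((3 : ℕ) + -(s - ε / 2) * j) + E (-u) := by
            rw [E_add, ← e8]; gcongr; exact h1 x
        _ ≤ _ := E_two (by push_cast; linarith) (by nlinarith)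
    have c' : (m : ℝ) ≤ j := by exact_mod_cast (not_le.mp c).le
    by_cases d : j ≤ b
    · obtain ⟨e, rfl⟩ := Nat.exists_eq_add_of_le d
      refine (q8 _ _ (b1.half e)).mono ?_
      push_cast at *
      nlinarith
    · have d' : (b : ℝ) ≤ j := by exact_mod_cast (not_le.mp d).le
      refine (q8 _ _ h1).mono ?_
      have : (0 : ℝ) ≤ u := Nat.cast_nonneg u
      nlinarith
  · exact_mod_cast (show (k : ℝ) ≤ m by linarith)
  · calc (S.card : ℝ≥0∞) ≤ (2 ^ a * 2 ^ u : ℕ) := by exact_mod_cast c1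
      _ = E (a + u) := by rw [E_add, E_nat, E_nat]; simp
      _ ≤ _ := E_mono (by nlinarith)

lemma fuse (I : ℕ → Cond s → Prop)
    (h : ∀ k p, I k p → ∀ n ε, 0 < ε → ∃ a, n ≤ a ∧ ∃ q, I (k + 1) q ∧ Le a ε p q)
    {p : Cond s} (hp : I 0 p) (n : ℕ) {ε : ℝ} (hε : 0 < ε) :
    ∃ a, n ≤ a ∧ ∃ r, Le a ε p r ∧ ∀ k, ∃ q, I k q ∧ r.P ⊆ q.P := by
  have : ∀ k (x : Cond s × ℕ), ∃ y : Cond s × ℕ, I k x.1 → I (k + 1) y.1 ∧ x.2 + k ≤ y.2 ∧
      Le y.2 (ε / (k + 1)) x.1 y.1 ∧ ∃ b, k ≤ b ∧ b ≤ y.2 ∧ Bd x.1.μ b (-(1 - ε / (k + 1)) * b) := by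
    intro k x
    by_cases c : I k x.1
    · obtain ⟨b, b1, b2⟩ := ((x.1.F (ε / (k + 1)) (by positivity)).and_eventually
        (eventually_ge_atTop k)).exists
      obtain ⟨a, a1, q, q1, q2⟩ := h k x.1 c (x.2 + k + b) (ε / (k + 1)) (by positivity)
      exact ⟨(q, a), fun _ => ⟨q1, by simp only; omega, q2, b, b2, by simp only; omega, b1⟩⟩
    · exact ⟨x, fun t => absurd t c⟩
  choose nx hn using this
  obtain ⟨X, x0, x1⟩ : ∃ X : ℕ → Cond s × ℕ, X 0 = (p, n) ∧ ∀ k, X (k + 1) = nx k (X k) :=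
    ⟨fun k => Nat.rec (p, n) nx k, rfl, fun _ => rfl⟩
  have hI : ∀ k, I k (X k).1 := fun k => by
    induction k with
    | zero => rwa [x0]
    | succ k ih => rw [x1]; exact (hn k _ ih).1
  have h2 := fun k => (hn k _ (hI k)).2
  simp only [← x1] at h2
  have em : ∀ k l : ℕ, k ≤ l → ε / (l + 1) ≤ ε / (k + 1) := fun k l kl => by gcongr
  have am : Monotone fun k => (X k).2 := monotone_nat_of_le_succ fun k => by
    have := (h2 k).1; omega
  have le : ∀ k l, k < l → Le (X (k + 1)).2 (ε / (k + 1)) (X k).1 (X l).1 := by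
    intro k l kl
    induction l, kl using Nat.le_induction with
    | base => exact (h2 k).2.1
    | succ l kl ih => exact ih.trans (h2 l).2.1 (am (by omega)) (em _ _ (by omega))
  let μs : ℕ → ProbabilityMeasure K := fun k => ⟨(X k).1.μ, (X k).1.pr⟩
  obtain ⟨ρ, -, hρ⟩ := isCompact_univ.ultrafilter_le_nhds ((hyperfilter ℕ).map μs) (by simp)
  have hρ' : Tendsto μs (hyperfilter ℕ) (𝓝 ρ) := hρ
  have ev : ∀ k, ∀ᶠ l in (hyperfilter ℕ : Filter ℕ), k < l := fun k =>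
    Nat.hyperfilter_le_atTop (eventually_gt_atTop k)
  have e1 : ∀ k x, ∀ j ≤ (X (k + 1)).2, (ρ : Measure K) (cyl x j) = (X k).1.μ (cyl x j) := by
    intro k x j hj
    refine tendsto_nhds_unique (ProbabilityMeasure.tendsto_measure_of_null_frontier_of_tendsto' hρ'
      (by simp [(cyl_clopen x j).frontier_eq])) (tendsto_const_nhds.congr' ?_)
    filter_upwards [ev k] with l hl using ((le k l hl).eq x j hj).symm
  have e2 : ∀ k, (ρ : Measure K) (X k).1.Pᶜ = 0 := by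
    intro k
    refine le_zero_iff.mp ((ProbabilityMeasure.le_liminf_measure_open_of_tendsto hρ'
      (X k).1.cl.isOpen_compl).trans (liminf_le_of_frequently_le (Eventually.frequently ?_)))
    filter_upwards [ev k] with l hl
    exact (measure_mono_null (compl_subset_compl.mpr (le k l hl).sub) (X l).1.full).le
  have e3 : ∀ k j, (X (k + 1)).2 < j → Bd ρ j (-(s - ε / (k + 1)) * j) := by
    intro k j hj x
    have := (h2 (j + k + 1)).1
    rw [e1 (j + k + 1) x j (by omega)]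
    exact (le k _ (by omega)).bd j hj x
  have sm : ∀ δ, 0 < δ → ∀ᶠ k : ℕ in atTop, ε / (k + 1) ≤ δ := fun δ hδ => by
    filter_upwards [big hδ ε] with k hk
    rw [div_le_iff₀ (by positivity)]
    linarith
  refine ⟨(X 1).2, by have := (h2 0).1; rw [x0] at this; simpa using this,
    ⟨ρ, ρ.2, ⋂ k, (X k).1.P, isClosed_iInter fun k => (X k).1.cl, ?_, fun δ hδ => ?_,
      fun δ hδ => frequently_atTop.mpr fun N => ?_⟩, ⟨?_, fun x j hj => ?_, fun j hj => ?_⟩,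
    fun k => ⟨(X k).1, hI k, iInter_subset _ k⟩⟩
  · rw [compl_iInter]
    exact measure_iUnion_null e2
  · obtain ⟨k, hk⟩ := (sm δ hδ).exists
    filter_upwards [eventually_gt_atTop (X (k + 1)).2] with j hj
    exact (e3 k j hj).mono (by nlinarith [(Nat.cast_nonneg j : (0 : ℝ) ≤ j)])
  · obtain ⟨k, k1, k2⟩ := ((sm δ hδ).and (eventually_ge_atTop N)).exists
    obtain ⟨b, b1, b2, b3⟩ := (h2 k).2.2
    exact ⟨b, k2.trans b1, fun x => (e1 k x b b2).trans_le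
      (b3.mono (by nlinarith [(Nat.cast_nonneg b : (0 : ℝ) ≤ b)]) x)⟩
  · exact (iInter_subset _ 0).trans (by rw [x0])
  · exact (e1 0 x j hj).trans (by rw [x0])
  · simpa using e3 0 j hj

def Rg (p : ℕ → Cond s) : Set K := ⋃ i, (p i).P

def Ext (p q : ℕ → Cond s) : Prop :=
  Rg q ⊆ Rg p ∧ ∀ i n ε, 0 < ε → ∃ a, n ≤ a ∧ ∃ j, Le a ε (p i) (q j)

lemma Ext.refl (p : ℕ → Cond s) : Ext p p := ⟨le_rfl, fun i n ε hε => by
  obtain ⟨a, a1, a2⟩ := Le.refl (p i) n hε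
  exact ⟨a, a1, i, a2⟩⟩

lemma Ext.trans {p q r : ℕ → Cond s} (a : Ext p q) (b : Ext q r) : Ext p r :=
  ⟨b.1.trans a.1, fun i n ε hε => by
    obtain ⟨c, c1, j, c2⟩ := a.2 i n ε hε
    obtain ⟨d, d1, k, d2⟩ := b.2 j c ε hε
    exact ⟨c, c1, k, c2.trans d2 d1 le_rfl⟩⟩

lemma Le.eps {a : ℕ} {ε ε' : ℝ} {p q : Cond s} (h : Le a ε p q) (ee : ε ≤ ε') : Le a ε' p q :=
  ⟨h.sub, h.eq, fun j hj => (h.bd j hj).mono (by nlinarith [(Nat.cast_nonneg j : (0 : ℝ) ≤ j)])⟩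

lemma collect {P : ℕ → Cond s} {T : Cond s → Prop}
    (h : ∀ i n ε, 0 < ε → ∃ a, n ≤ a ∧ ∃ r, Le a ε (P i) r ∧ T r) :
    ∃ q : ℕ → Cond s, (∀ j, T (q j)) ∧ Ext P q := by
  choose a a1 r r1 r2 using fun i n : ℕ => h i n (1 / (n + 1)) (by positivity)
  refine ⟨fun j => r j.unpair.1 j.unpair.2, fun j => r2 _ _, iUnion_subset fun j =>
    (r1 _ _).sub.trans (subset_iUnion (fun i => (P i).P) _), fun i n ε hε => ?_⟩
  obtain ⟨k, k1, k2⟩ := ((big hε 1).and (eventually_ge_atTop n)).exists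
  refine ⟨a i k, k2.trans (a1 i k), Nat.pair i k, ?_⟩
  simp only [Nat.unpair_pair]
  refine (r1 i k).eps ?_
  rw [div_le_iff₀ (by positivity)]
  linarith

lemma lower_seq {P : ℕ → ℕ → Cond s} (hP : ∀ k, Ext (P k) (P (k + 1))) :
    ∃ q, ∀ k, Ext (P k) q := by
  have mono : ∀ k l, k ≤ l → Rg (P l) ⊆ Rg (P k) := fun k l h => by
    induction l, h using Nat.le_induction with
    | base => exact le_rfl
    | succ l _ ih => exact (hP l).1.trans ih
  obtain ⟨q, q1, q2⟩ := collect (P := fun c => P c.unpair.1 c.unpair.2)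
    (T := fun r => ∀ l, r.P ⊆ Rg (P l)) fun c n ε hε => by
      obtain ⟨a, a1, r, r1, r2⟩ := fuse (fun k p => p ∈ range (P (c.unpair.1 + k))) (by
        rintro k _ ⟨i, rfl⟩ n ε hε
        obtain ⟨a, a1, j, a2⟩ := (hP _).2 i n ε hε
        exact ⟨a, a1, _, ⟨j, rfl⟩, a2⟩) ⟨c.unpair.2, rfl⟩ n hε
      refine ⟨a, a1, r, r1, fun l => ?_⟩
      obtain ⟨_, ⟨j, rfl⟩, t⟩ := r2 l
      exact t.trans ((subset_iUnion (fun i => (P _ i).P) j).trans (mono l _ (by omega)))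
  refine ⟨q, fun k => ⟨iUnion_subset fun j => q1 j k, fun i n ε hε => ?_⟩⟩
  simpa using q2.2 (Nat.pair k i) n ε hε

lemma lower {P : ℕ → ℕ → Cond s} (hP : ∀ a b, Ext (P a) (P b) ∨ Ext (P b) (P a)) :
    ∃ q, ∀ k, Ext (P k) q := by
  have : ∀ a b, ∃ c, Ext (P a) (P c) ∧ Ext (P b) (P c) := fun a b =>
    (hP a b).elim (fun t => ⟨b, t, Ext.refl _⟩) fun t => ⟨a, Ext.refl _, t⟩
  choose c c1 c2 using this
  obtain ⟨j, j1⟩ : ∃ j : ℕ → ℕ, ∀ t, j (t + 1) = c (j t) t :=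
    ⟨fun t => Nat.rec 0 (fun t a => c a t) t, fun _ => rfl⟩
  obtain ⟨q, q2⟩ := lower_seq (P := fun t => P (j t)) fun k => by
    rw [j1]; exact c1 _ _
  exact ⟨q, fun k => (c2 (j k) k).trans (j1 k ▸ q2 (k + 1))⟩

/-- small lower box dimension -/
def Sm (s : ℝ) (A : Set K) : Prop := ∀ k : ℕ, ∃ m, k ≤ m ∧ ∃ S : Finset (Fin m → Bool),
  (S.card : ℝ≥0∞) ≤ E ((s + 1 / (k + 1)) * m) ∧ ∀ y ∈ A, (fun i : Fin m => y i) ∈ S

lemma handle (s0 : 0 ≤ s) (s1 : s ≤ 1) (p : ℕ → Cond s) {f : K → K} (hf : Measurable f) :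
    ∃ q : ℕ → Cond s, (∀ j, Sm s (f '' (q j).P)) ∧ Ext p q := by
  refine collect (T := fun r => Sm s (f '' r.P)) fun i n ε hε => ?_
  obtain ⟨a, a1, r, r1, r2⟩ := fuse (fun k q => ∀ l, k = l + 1 → ∃ m, l ≤ m ∧
    ∃ S : Finset (Fin m → Bool), (S.card : ℝ≥0∞) ≤ E ((s + 1 / (l + 1)) * m) ∧
      ∀ x ∈ q.P, (fun i : Fin m => f x i) ∈ S) (fun k p _ n ε hε => by
    obtain ⟨a, a1, q, q1, m, m1, S, c1, c2⟩ := step s0 s1 p hf n k
      (ε := min ε (1 / (k + 1))) (by positivity)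
    refine ⟨a, a1, q, fun l hl => ?_, q1.eps (min_le_left _ _)⟩
    obtain rfl : k = l := by omega
    exact ⟨m, m1, S, c1.trans (E_mono (by gcongr; exact min_le_right _ _)), c2⟩)
    (p := p i) (fun l hl => by omega) n hε
  refine ⟨a, a1, r, r1, fun k => ?_⟩
  obtain ⟨q, q1, q2⟩ := r2 (k + 1)
  obtain ⟨m, m1, S, c1, c2⟩ := q1 k rfl
  exact ⟨m, m1, S, c1, by rintro _ ⟨x, hx, rfl⟩; exact c2 x (q2 hx)⟩

lemma base (s1 : s ≤ 1) : Nonempty (Cond s) := by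
  let μ : Measure K := Measure.infinitePi fun _ => ProbabilityTheory.uniformOn (univ : Set Bool)
  have : ∀ j, Bd μ j (-j) := fun j x => by
    rw [cyl, cylinder_eq_pi, Measure.infinitePi_pi _ fun _ _ => measurableSet_singleton _]
    simp only [ProbabilityTheory.uniformOn_univ]
    simp [E, ENNReal.rpow_neg, ENNReal.inv_pow]
  exact ⟨⟨μ, inferInstance, univ, isClosed_univ, by simp, fun ε hε => Eventually.of_forall fun j =>
    (this j).mono (by nlinarith [(Nat.cast_nonneg j : (0 : ℝ) ≤ j)]), fun ε hε =>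
    Frequently.of_forall fun j => (this j).mono (by nlinarith [(Nat.cast_nonneg j : (0 : ℝ) ≤ j)])⟩⟩

end

end Pool.Agent.H18.Dim
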