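import Pool.Agent.H18.Dim2

set_option autoImplicit false

namespace Pool.Agent.H18.Dim

open Set Filter Topology Function MeasureTheory PiNat
open scoped ENNReal NNReal

noncomputable section
open Classical

attribute [local instance] PiNat.metricSpace

lemma E_neg (n : ℕ) : E (-n) = ENNReal.ofReal ((1 / 2) ^ n) := by
  rw [ENNReal.ofReal_pow (by norm_num), ENNReal.ofReal_div_of_pos (by norm_num)]
  simp [E, ENNReal.rpow_neg, ENNReal.inv_pow]

lemma E_lim {d : ℝ} (hd : 0 < d) : Tendsto (fun j : ℕ => E (-d * j)) atTop (𝓝 0) := by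
  have : ∀ j : ℕ, E (-d * j) = E (-d) ^ j := fun j => by
    rw [E, ENNReal.rpow_mul, ENNReal.rpow_natCast]; rfl
  simp only [this]
  exact ENNReal.tendsto_pow_atTop_nhds_zero_of_lt_one
    (ENNReal.rpow_lt_one_of_one_lt_of_neg (by norm_num) (by linarith))

lemma edist_le {x y : K} {n : ℕ} : y ∈ cyl x n ↔ edist y x ≤ E (-n) := by
  rw [mem_cylinder_iff_dist_le, E_neg, edist_dist, ENNReal.ofReal_le_ofReal_iff (by positivity)]

variable {s : ℝ}

lemma sm_dim {A : Set K} (h : Sm s A) : dimH A ≤ ENNReal.ofReal s := by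
  refine dimH_le fun d hd => ?_
  by_contra t
  have sd : s < d := by
    by_contra u
    exact t (by rw [← ENNReal.ofReal_coe_nnreal]; exact ENNReal.ofReal_le_ofReal (not_lt.mp u))
  choose m m1 S s1 s2 using h
  have dm : ∀ k (i : S k), Metric.ediam {y : K | (fun l : Fin (m k) => y l) = i.1} ≤ E (-m k) :=
    fun k i => Metric.ediam_le fun y hy z hz => edist_le.mp fun l hl =>
      congrFun (hy.trans (hz : _ = _).symm) ⟨l, hl⟩
  have := Measure.hausdorffMeasure_le_liminf_sum (d : ℝ) A (l := atTop) (fun k => E (-m k))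
    (tendsto_of_tendsto_of_tendsto_of_le_of_le tendsto_const_nhds (E_lim one_pos)
      (fun _ => zero_le) fun k => E_mono (by have := m1 k; simpa using this))
    (fun k (i : S k) => {y : K | (fun l : Fin (m k) => y l) = i.1})
    (Eventually.of_forall dm) (Eventually.of_forall fun k y hy =>
      mem_iUnion.mpr ⟨⟨_, s2 k y hy⟩, rfl⟩)
  rw [hd, top_le_iff] at this
  refine absurd this (ne_top_of_le_ne_top ENNReal.one_ne_top
    (liminf_le_of_frequently_le (Eventually.frequently ?_)))
  filter_upwards [big (sub_pos.mpr sd) 1] with k hk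
  have h1 : 1 / ((k : ℝ) + 1) ≤ d - s := by
    rw [div_le_iff₀ (by positivity)]
    linarith
  calc ∑ i : S k, Metric.ediam {y : K | (fun l : Fin (m k) => y l) = i.1} ^ (d : ℝ)
      ≤ ∑ _i : S k, E (-m k * d) := Finset.sum_le_sum fun i _ => by
        rw [E, ENNReal.rpow_mul]
        exact ENNReal.rpow_le_rpow (dm k i) d.2
    _ = (S k).card * E (-m k * d) := by simp
    _ ≤ E ((s + 1 / (k + 1)) * m k) * E (-m k * d) := by gcongr; exact s1 k
    _ ≤ E 0 := by
        rw [← E_add]
        exact E_mono (by nlinarith [(Nat.cast_nonneg (m k) : (0 : ℝ) ≤ m k)])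
    _ = 1 := by simp [E]

lemma low (p : Cond s) {d : ℝ} (d0 : 0 < d) (ds : d < s) : p.μ ≤ μH[d] := by
  obtain ⟨J, hJ⟩ := eventually_atTop.mp (p.D (s - d) (by linarith))
  simp only [sub_sub_cancel] at hJ
  refine Measure.le_hausdorffMeasure d p.μ (E (-J)) (by rw [E_neg]; simp) fun A hA => ?_
  rcases A.eq_empty_or_nonempty with rfl | ⟨x, hx⟩
  · simp
  have a0 : A ⊆ cyl x J := fun y hy => edist_le.mpr ((Metric.edist_le_ediam_of_mem hy hx).trans hA)
  by_cases c : ∃ j, ¬ A ⊆ cyl x (j + 1)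
  · have h1 := Nat.find_spec c
    have h2 : A ⊆ cyl x (Nat.find c) := by
      rcases h : Nat.find c with _ | j
      · simp [cyl]
      · exact not_not.mp (Nat.find_min c (by omega))
    have h3 : J ≤ Nat.find c := by
      by_contra t
      exact h1 (a0.trans (cylinder_anti x (by omega)))
    obtain ⟨y, y1, y2⟩ := not_subset.mp h1
    have ne : y ≠ x := by rintro rfl; exact y2 (self_mem_cylinder _ _)
    rw [mem_cylinder_iff_le_firstDiff ne] at y2
    refine (measure_mono h2).trans ((hJ _ h3 x).trans ?_)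
    rw [show -d * (Nat.find c : ℝ) = -(Nat.find c : ℝ) * d by ring, E, ENNReal.rpow_mul]
    refine ENNReal.rpow_le_rpow (le_trans ?_ (Metric.edist_le_ediam_of_mem y1 hx)) d0.le
    change E _ ≤ _
    rw [E_neg, edist_dist]
    refine ENNReal.ofReal_le_ofReal ?_
    rw [dist_eq_of_ne ne]
    exact pow_le_pow_of_le_one (by norm_num) (by norm_num) (by omega)
  · push Not at c
    refine le_trans (ge_of_tendsto (E_lim d0) ?_) zero_le
    filter_upwards [eventually_ge_atTop J] with j hj
    exact (measure_mono ((c j).trans (cylinder_anti x (by omega)))).trans (hJ j hj x)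

lemma enum_meas : ∃ f : K → Set K, (∀ c, MeasurableSet (f c)) ∧
    ∀ B, MeasurableSet B → ∃ c, f c = B := by
  have hc : Cardinal.mk {t : Set K | MeasurableSet t} ≤ Cardinal.mk (ℕ → Bool) := by
    obtain ⟨b, hb, -, h2⟩ := TopologicalSpace.exists_countable_basis K
    have h3 := MeasurableSpace.cardinal_measurableSet_le_continuum (s := b)
      (hb.le_aleph0.trans Cardinal.aleph0_le_continuum)
    rw [← h2.borel_eq_generateFrom, ← BorelSpace.measurable_eq] at h3
    simpa using h3
  obtain ⟨e⟩ := hc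
  haveI : Nonempty {t : Set K | MeasurableSet t} := ⟨⟨∅, by simp⟩⟩
  refine ⟨fun c => (Function.invFun e c).1, fun c => (Function.invFun e c).2, fun B hB =>
    ⟨e ⟨B, hB⟩, congrArg Subtype.val (Function.leftInverse_invFun e.injective ⟨B, hB⟩)⟩⟩

theorem main (hCH : Cardinal.continuum.{0} = Cardinal.aleph 1) (s0 : 0 ≤ s) (s1 : s ≤ 1) :
    ∃ X : Set K, dimH X = ENNReal.ofReal s ∧
      ∀ f : K → K, Measurable f → dimH (f '' X) ≤ ENNReal.ofReal s := by
  obtain ⟨B, f1, f2⟩ := enum_meas
  obtain ⟨p0⟩ := base s1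
  haveI : Nonempty (Cond s) := ⟨p0⟩
  obtain ⟨r, wo, hr⟩ := Cardinal.exists_ord_eq (ℕ → K)
  have cI : Cardinal.mk (ℕ → K) = Cardinal.continuum := by simp
  have cnt : ∀ x, {y | r y x}.Countable := by
    intro x
    rw [Cardinal.countable_iff_lt_aleph_one, ← hCH]
    have := Cardinal.card_typein_lt x hr
    rw [Ordinal.card_typein] at this
    exact this.trans_le (le_of_eq cI)
  let g : (ℕ → K) → K → K := fun α x n => decide (x ∈ B (α (n + 1)))
  have gm : ∀ α, Measurable (g α) := fun α => measurable_pi_lambda _ fun n =>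
    measurable_to_bool (by convert f1 (α (n + 1)); ext; simp [g])
  let Q : (α : ℕ → K) → ((β : ℕ → K) → r β α → K × (ℕ → Cond s)) → K × (ℕ → Cond s) → Prop :=
    fun α F d => (∀ β hβ, Ext (F β hβ).2 d.2 ∧ d.1 ∈ Rg (F β hβ).2) ∧
      (∀ j, Sm s (g α '' (d.2 j).P)) ∧ ∀ e : ℝ, 0 < e → e < s → μH[e] (B (α 0)) = 0 → d.1 ∉ B (α 0)
  let D : (ℕ → K) → K × (ℕ → Cond s) := wo.wf.fix (fun α F => Classical.epsilon (Q α F))
  have hD : ∀ α, D α = Classical.epsilon (Q α (fun β _ => D β)) := fun α => wo.wf.fix_eq _ α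
  have key : ∀ α, Q α (fun β _ => D β) (D α) := by
    intro α
    induction α using wo.wf.induction with
    | _ α ih =>
      rw [hD α]
      apply Classical.epsilon_spec
      have : ∃ p : ℕ → Cond s, ∀ β, r β α → Ext (D β).2 p := by
        by_cases c : {β | r β α}.Nonempty
        · obtain ⟨P, hP⟩ := (cnt α).exists_eq_range c
          have PS : ∀ j, r (P j) α := fun j => show P j ∈ {β | r β α} from hP ▸ mem_range_self j
          obtain ⟨q, q2⟩ := lower (P := fun j => (D (P j)).2) fun a b => by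
            rcases trichotomous_of r (P a) (P b) with t | t | t
            · exact Or.inl ((ih _ (PS b)).1 _ t).1
            · rw [t]; exact Or.inl (Ext.refl _)
            · exact Or.inr ((ih _ (PS a)).1 _ t).1
          refine ⟨q, fun β hβ => ?_⟩
          obtain ⟨j, rfl⟩ : β ∈ range P := hP ▸ hβ
          exact q2 j
        · exact ⟨fun _ => p0, fun β hβ => absurd ⟨β, hβ⟩ c⟩
      obtain ⟨p, p2⟩ := this
      have : ∃ y ∈ (p 0).P, ∀ e : ℝ, 0 < e → e < s → μH[e] (B (α 0)) = 0 → y ∉ B (α 0) := by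
        haveI := (p 0).pr
        have ne : ∀ N, (p 0).μ N = 0 → ∃ y ∈ (p 0).P, y ∉ N := fun N hN => by
          by_contra t
          push Not at t
          have := measure_union_null (p 0).full hN
          rw [eq_univ_of_forall (s := (p 0).Pᶜ ∪ N) fun y => or_iff_not_imp_left.mpr fun u =>
            t y (not_not.mp u)] at this
          simp at this
        by_cases c : (p 0).μ (B (α 0)) = 0
        · obtain ⟨y, y1, y2⟩ := ne _ c
          exact ⟨y, y1, fun _ _ _ _ => y2⟩
        · obtain ⟨y, y1, -⟩ := ne ∅ measure_empty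
          exact ⟨y, y1, fun e e1 e2 e3 => absurd (le_zero_iff.mp
            ((Measure.le_iff'.mp (low (p 0) e1 e2) _).trans e3.le)) c⟩
      obtain ⟨y, y1, y2⟩ := this
      obtain ⟨q, q1, q2⟩ := handle s0 s1 p (gm α)
      exact ⟨(y, q), fun β hβ => ⟨(p2 β hβ).trans q2, (p2 β hβ).1 (mem_iUnion.mpr ⟨0, y1⟩)⟩, q1, y2⟩
  have up : ∀ f : K → K, Measurable f → dimH (f '' range fun α => (D α).1) ≤ ENNReal.ofReal s := by
    intro f hf
    choose c hc using fun n => f2 {x | f x n = true}
      ((measurable_pi_apply n).comp hf (measurableSet_singleton true))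
    let α : ℕ → K := fun n => c (n - 1)
    have e : g α = f := by
      funext x n
      simp [g, α, hc]
    refine (dimH_mono (show _ ⊆ f '' ((fun β => (D β).1) '' insert α {β | r β α}) ∪
      ⋃ j, g α '' ((D α).2 j).P from ?_)).trans ?_
    · rintro _ ⟨_, ⟨β, rfl⟩, rfl⟩
      rcases trichotomous_of r α β with t | t | t
      · obtain ⟨j, hj⟩ := mem_iUnion.mp ((key β).1 α t).2
        exact Or.inr (mem_iUnion.mpr ⟨j, _, hj, by rw [e]⟩)
      · exact Or.inl ⟨_, ⟨β, Or.inl t.symm, rfl⟩, rfl⟩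
      · exact Or.inl ⟨_, ⟨β, Or.inr t, rfl⟩, rfl⟩
    · rw [dimH_union, dimH_countable ((((cnt α).insert α).image _).image _), dimH_iUnion]
      exact max_le zero_le (iSup_le fun j => sm_dim ((key α).2.1 j))
  refine ⟨range fun α => (D α).1, le_antisymm (by simpa using up id measurable_id) ?_, up⟩
  by_contra t
  obtain ⟨d, d1, d2⟩ := ENNReal.lt_iff_exists_nnreal_btwn.mp (not_le.mp t)
  obtain ⟨N, n1, n2, n3⟩ := exists_measurable_superset_of_null (hausdorffMeasure_of_dimH_lt d1)
  obtain ⟨c, rfl⟩ := f2 N n2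
  refine (key fun _ => c).2.2 d ?_ ?_ n3 (n1 ⟨_, rfl⟩)
  · exact_mod_cast (show (0 : ℝ≥0∞) < d from zero_le.trans_lt d1)
  · rw [← ENNReal.ofReal_coe_nnreal] at d2
    exact (ENNReal.ofReal_lt_ofReal_iff_of_nonneg d.2).mp d2

end

end Pool.Agent.H18.Dim
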