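import Pool.Agent.H18.Dim3

set_option autoImplicit false

namespace Pool.Agent.H18.Dl

open Set Filter Topology Function

noncomputable section
open Classical

abbrev K := ℕ → Bool

def Small (B : Set ℕ) : Prop := ∀ᶠ a in atTop, ∀ᶠ b in atTop, Nat.pair a b ∉ B

lemma Small.almost {A B : Set ℕ} {h : ℕ → ℕ} (hA : Small (h '' A)) (hB : (B \ A).Finite) :
    Small (h '' B) := by
  obtain ⟨N, hN⟩ := (hB.image h).bddAbove
  filter_upwards [hA] with a ha
  filter_upwards [ha, eventually_gt_atTop N] with b h1 h2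
  rintro ⟨n, n1, n2⟩
  by_cases c : n ∈ A
  · exact h1 ⟨n, c, n2⟩
  · have := hN ⟨n, ⟨n1, c⟩, n2⟩
    have := Nat.right_le_pair a b
    omega

lemma tall {A : Set ℕ} (hA : A.Infinite) (h : ℕ → ℕ) : ∃ B ⊆ A, B.Infinite ∧ Small (h '' B) := by
  by_cases c : ∃ a, {n ∈ A | (h n).unpair.1 = a}.Infinite
  · obtain ⟨a, ha⟩ := c
    refine ⟨_, sep_subset _ _, ha, ?_⟩
    filter_upwards [eventually_gt_atTop a] with a' h1
    refine Eventually.of_forall ?_
    rintro b ⟨n, n1, n2⟩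
    have := n1.2
    rw [n2, Nat.unpair_pair] at this
    omega
  · push Not at c
    refine ⟨A, le_rfl, hA, Eventually.of_forall fun a => ?_⟩
    obtain ⟨N, hN⟩ := ((c a).image h).bddAbove
    filter_upwards [eventually_gt_atTop N] with b h2
    rintro ⟨n, n1, n2⟩
    have := hN ⟨n, ⟨n1, by rw [n2, Nat.unpair_pair]⟩, n2⟩
    have := Nat.right_le_pair a b
    omega

lemma psi {A : ℕ → Set ℕ} (h : ∀ k, ∃ B : Set ℕ, B.Infinite ∧ ∀ i ≤ k, (B \ A i).Finite) :
    ∃ B : Set ℕ, B.Infinite ∧ ∀ i, (B \ A i).Finite := by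
  have : ∀ k, ∃ n, k < n ∧ ∀ i ≤ k, n ∈ A i := fun k => by
    obtain ⟨B, b1, b2⟩ := h k
    obtain ⟨n, n1, n2⟩ := (b1.diff ((finite_Iic k).biUnion fun i hi => b2 i hi)).exists_gt k
    refine ⟨n, n2, fun i hi => ?_⟩
    by_contra t
    exact n1.2 (mem_biUnion hi ⟨n1.1, t⟩)
  choose n n1 n2 using this
  refine ⟨range n, infinite_of_forall_exists_gt fun k => ⟨n k, ⟨k, rfl⟩, n1 k⟩, fun i =>
    ((finite_lt_nat i).image n).subset ?_⟩
  rintro _ ⟨⟨k, rfl⟩, t⟩
  exact ⟨k, not_le.mp fun s => t (n2 k i s), rfl⟩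

lemma talls {A : Set ℕ} (hA : A.Infinite) (h : ℕ → ℕ → ℕ) :
    ∃ B : Set ℕ, B.Infinite ∧ (B \ A).Finite ∧ ∀ i, Small (h i '' B) := by
  choose! T t1 t2 t3 using fun (i : ℕ) (C : Set ℕ) (hC : C.Infinite) => tall hC (h i)
  obtain ⟨C, c0, c1⟩ : ∃ C : ℕ → Set ℕ, C 0 = A ∧ ∀ i, C (i + 1) = T i (C i) :=
    ⟨fun i => Nat.rec A T i, rfl, fun _ => rfl⟩
  have ci : ∀ i, (C i).Infinite := fun i => by
    induction i with
    | zero => rwa [c0]
    | succ i ih => rw [c1]; exact t2 i _ ih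
  have an : Antitone C := antitone_nat_of_succ_le fun i => by rw [c1]; exact t1 i _ (ci i)
  obtain ⟨B, b1, b2⟩ := psi (A := C) fun k => ⟨C k, ci k, fun i hi => by
    rw [diff_eq_empty.mpr (an hi)]; exact finite_empty⟩
  exact ⟨B, b1, c0 ▸ b2 0, fun i => (t3 i _ (ci i)).almost (c1 i ▸ b2 (i + 1))⟩

def Fin0 : Set K := {x | ∀ᶠ i in atTop, x i = false}

lemma fin0_count : Fin0.Countable := by
  refine (countable_range fun s : Finset ℕ => fun i => decide (i ∈ s)).mono fun x hx => ?_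
  obtain ⟨n, hn⟩ := eventually_atTop.mp hx
  refine ⟨(Finset.range n).filter fun i => x i = true, funext fun i => ?_⟩
  by_cases c : i < n
  · simp [c]
  · simp [c, hn i (not_lt.mp c)]

lemma gm {Q : Set K} (hQ : Q.Countable) (h0 : Fin0 ⊆ Q) {O : ℕ → Set K} (hO : ∀ m, IsOpen (O m))
    (om : ∀ F : Set K, F.Finite → F ⊆ Q → ∃ m, F ⊆ O m) : ∃ π m : ℕ → ℕ,
      (∀ x ∈ Q, ∀ᶠ k in atTop, x ∈ O (m k)) ∧
        ∀ k (y : K), (∀ i, π i = k → y i = false) → y ∈ O (m k) := by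
  obtain ⟨q, rfl⟩ := hQ.exists_eq_range ⟨fun _ => false, h0 (Eventually.of_forall fun _ => rfl)⟩
  have : ∀ k n, ∃ m n', n < n' ∧ (∀ i ≤ k, q i ∈ O m) ∧
      ∀ y : K, (∀ i, n ≤ i → i < n' → y i = false) → y ∈ O m := by
    intro k n
    let e : (Fin n → Bool) → K := fun s i => if h : i < n then s ⟨i, h⟩ else false
    obtain ⟨m, hm⟩ := om (q '' Iic k ∪ range e) (((finite_Iic k).image q).union (finite_range e))
      (union_subset (image_subset_range _ _) (by
        rintro _ ⟨s, rfl⟩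
        exact h0 ((eventually_ge_atTop n).mono fun i hi => dif_neg (by omega))))
    have : ∀ s, ∃ L, PiNat.cylinder (e s) L ⊆ O m := fun s => by
      obtain ⟨_, ⟨x, L, rfl⟩, a, b⟩ := (PiNat.isTopologicalBasis_cylinders
        (fun _ : ℕ => Bool)).exists_subset_of_mem_open (hm (Or.inr ⟨s, rfl⟩)) (hO m)
      exact ⟨L, (PiNat.mem_cylinder_iff_eq.mp a).trans_subset b⟩
    choose L hL using this
    obtain ⟨N, hN⟩ := (finite_range L).bddAbove
    refine ⟨m, n + N + 1, by omega, fun i hi => hm (Or.inl ⟨i, hi, rfl⟩), fun y hy =>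
      hL (fun i => y i) fun i hi => ?_⟩
    have := hN ⟨fun i => y i, rfl⟩
    by_cases c : i < n
    · simp [e, c]
    · simp [e, c, hy i (by omega) (by omega)]
  choose m n' n1 n2 n3 using this
  obtain ⟨a, a1⟩ : ∃ a : ℕ → ℕ, ∀ j, a (j + 1) = n' j (a j) :=
    ⟨fun j => Nat.rec 0 n' j, fun _ => rfl⟩
  have am : StrictMono a := strictMono_nat_of_lt_succ fun j => a1 j ▸ n1 j (a j)
  refine ⟨fun i => @Nat.findGreatest (fun j => a j ≤ i) (fun _ => Nat.decLe _ _) i,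
    fun k => m k (a k), ?_, fun k y hy => n3 k (a k) y fun i h1 h2 => hy i ?_⟩
  · rintro _ ⟨i, rfl⟩
    filter_upwards [eventually_ge_atTop i] with k hk using n2 k _ i hk
  · have h3 : k ≤ i := (am.id_le k).trans h1
    have h4 := @Nat.le_findGreatest _ (fun j => a j ≤ i) (fun _ => Nat.decLe _ _) _ h3 h1
    have h5 := @Nat.findGreatest_spec _ (fun j => a j ≤ i) (fun _ => Nat.decLe _ _) _ h3 h1
    rw [← a1] at h2
    have := am.lt_iff_lt.mp (h5.trans_lt h2)
    beta_reduce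
    omega

def ind (A : Set ℕ) : K := fun i => decide (i ∈ A)

theorem main (hCH : Cardinal.continuum.{0} = Cardinal.aleph 1) :
    ∃ (X : Set K) (q : Ultrafilter ℕ), (∀ n, {n} ∉ q) ∧ Fin0 ⊆ X ∧
      (∀ x ∈ X, Small {i | x i = true}) ∧ (∀ f : ℕ → ℕ, ∃ x ∈ X, {n | x (f n) = true} ∈ q) ∧
      ∀ O : ℕ → Set K, (∀ m, IsOpen (O m)) → (∀ F : Set K, F.Finite → F ⊆ X → ∃ m, F ⊆ O m) →
        ∃ m : ℕ → ℕ, ∀ x ∈ X, ∀ᶠ a in atTop, ∀ᶠ b in atTop, x ∈ O (m (Nat.pair a b)) := by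
  obtain ⟨B, -, f2⟩ := Dim.enum_meas
  obtain ⟨r, wo, hr⟩ := Cardinal.exists_ord_eq ((ℕ → K) × (ℕ → ℕ))
  have cI : Cardinal.mk ((ℕ → K) × (ℕ → ℕ)) = Cardinal.continuum := by simp
  have cnt : ∀ x, {y | r y x}.Countable := by
    intro x
    rw [Cardinal.countable_iff_lt_aleph_one, ← hCH]
    have := Cardinal.card_typein_lt x hr
    rw [Ordinal.card_typein] at this
    exact this.trans_le (le_of_eq cI)
  let Q : (α : (ℕ → K) × (ℕ → ℕ)) → ((β : (ℕ → K) × (ℕ → ℕ)) → r β α → Set ℕ × (ℕ → ℕ)) →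
      Set ℕ × (ℕ → ℕ) → Prop := fun α F d => d.1.Infinite ∧ Small (α.2 '' d.1) ∧
      (∀ β hβ, (d.1 \ (F β hβ).1).Finite ∧ Small (((F β hβ).2 ∘ α.2) '' d.1)) ∧
      ((∀ m, IsOpen (B (α.1 m))) → (∀ S : Set K, S.Finite →
        S ⊆ Fin0 ∪ insert (ind (α.2 '' d.1)) {x | ∃ β hβ, x = ind (β.2 '' (F β hβ).1)} →
          ∃ m, S ⊆ B (α.1 m)) → ∃ m : ℕ → ℕ,
        (∀ x ∈ Fin0 ∪ insert (ind (α.2 '' d.1)) {x | ∃ β hβ, x = ind (β.2 '' (F β hβ).1)},
          ∀ᶠ k in atTop, x ∈ B (α.1 (m k))) ∧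
        ∀ k (y : K), (∀ i, d.2 i = k → y i = false) → y ∈ B (α.1 (m k)))
  let D : (ℕ → K) × (ℕ → ℕ) → Set ℕ × (ℕ → ℕ) := wo.wf.fix (fun α F => Classical.epsilon (Q α F))
  have hD : ∀ α, D α = Classical.epsilon (Q α (fun β _ => D β)) := fun α => wo.wf.fix_eq _ α
  have key : ∀ α, Q α (fun β _ => D β) (D α) := by
    intro α
    induction α using wo.wf.induction with
    | _ α ih =>
      rw [hD α]
      apply Classical.epsilon_spec
      obtain ⟨P, hP⟩ := (((cnt α).image D).insert (univ, id)).exists_eq_range (insert_nonempty _ _)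
      have PS : ∀ j, P j = (univ, id) ∨ ∃ β, r β α ∧ D β = P j := fun j =>
        show P j ∈ insert (univ, id) (D '' {β | r β α}) from hP ▸ mem_range_self j
      have ch : ∀ a b, ((P a).1 \ (P b).1).Finite ∨ ((P b).1 \ (P a).1).Finite := by
        intro a b
        rcases PS a with s | ⟨β, hβ, s⟩
        · right; rw [s]; simp
        rcases PS b with t | ⟨γ, hγ, t⟩
        · left; rw [t]; simp
        rw [← s, ← t]
        rcases trichotomous_of r β γ with u | u | u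
        · exact Or.inr ((ih γ hγ).2.2.1 β u).1
        · left; rw [u]; simp
        · exact Or.inl ((ih β hβ).2.2.1 γ u).1
      obtain ⟨A, a1, a2⟩ := psi (A := fun j => (P j).1) fun k => by
        have : ∃ j, ∀ i ≤ k, ((P j).1 \ (P i).1).Finite := by
          induction k with
          | zero => exact ⟨0, fun i hi => by simp [Nat.le_zero.mp hi]⟩
          | succ k ik =>
            obtain ⟨j, hj⟩ := ik
            rcases ch j (k + 1) with t | t
            · exact ⟨j, fun i hi => (Nat.of_le_succ hi).elim (hj i) fun u => u ▸ t⟩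
            · refine ⟨k + 1, fun i hi => (Nat.of_le_succ hi).elim (fun u =>
                (t.union (hj i u)).subset fun n hn => ?_) fun u => by simp [u]⟩
              by_cases c : n ∈ (P j).1
              exacts [Or.inr ⟨c, hn.2⟩, Or.inl ⟨hn.1, c⟩]
        obtain ⟨j, hj⟩ := this
        refine ⟨_, ?_, hj⟩
        rcases PS j with s | ⟨β, hβ, s⟩
        · rw [s]; exact infinite_univ
        · rw [← s]; exact (ih β hβ).1
      obtain ⟨C, c1, c2, c3⟩ := talls a1 fun j => (P j).2 ∘ α.2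
      have c4 : ∀ d ∈ range P, (C \ d.1).Finite ∧ Small ((d.2 ∘ α.2) '' C) := by
        rintro _ ⟨j, rfl⟩
        refine ⟨(c2.union (a2 j)).subset fun n hn => ?_, c3 j⟩
        by_cases c : n ∈ A
        exacts [Or.inr ⟨c, hn.2⟩, Or.inl ⟨hn.1, c⟩]
      have c5 := (c4 (univ, id) (hP ▸ mem_insert _ _)).2
      have c6 := fun β (hβ : r β α) => c4 (D β)
        (hP ▸ mem_insert_of_mem _ (mem_image_of_mem D hβ))
      by_cases H : (∀ m, IsOpen (B (α.1 m))) ∧ ∀ S : Set K, S.Finite →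
          S ⊆ Fin0 ∪ insert (ind (α.2 '' C)) {x | ∃ β, ∃ _ : r β α, x = ind (β.2 '' (D β).1)} →
            ∃ m, S ⊆ B (α.1 m)
      · have cc : {x | ∃ β, ∃ _ : r β α, x = ind (β.2 '' (D β).1)}.Countable :=
          ((cnt α).image fun β => ind (β.2 '' (D β).1)).mono (by
            rintro x ⟨β, hβ, hx⟩
            exact ⟨β, hβ, hx.symm⟩)
        obtain ⟨π, m, h⟩ := gm (fin0_count.union (cc.insert _)) subset_union_left H.1 H.2
        exact ⟨(C, π), c1, c5, c6, fun _ _ => ⟨m, h⟩⟩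
      · exact ⟨(C, id), c1, c5, c6, fun a b => absurd ⟨a, b⟩ H⟩
  let G : Filter ℕ := ⟨{S | ∃ α, ((D α).1 \ S).Finite}, ⟨(fun _ _ => true, id), by simp⟩,
    fun ⟨α, h⟩ t => ⟨α, h.subset (diff_subset_diff_right t)⟩, by
      have : ∀ α β (S T : Set ℕ), ((D α).1 \ (D β).1).Finite → ((D α).1 \ S).Finite →
          ((D β).1 \ T).Finite → ((D α).1 \ (S ∩ T)).Finite := fun α β S T a b c =>
        (a.union (b.union c)).subset fun n hn => by
          by_cases s : n ∈ (D β).1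
          · by_cases t : n ∈ S
            exacts [Or.inr (Or.inr ⟨s, fun u => hn.2 ⟨t, u⟩⟩), Or.inr (Or.inl ⟨hn.1, t⟩)]
          · exact Or.inl ⟨hn.1, s⟩
      rintro S T ⟨α, a⟩ ⟨β, b⟩
      rcases trichotomous_of r α β with u | u | u
      · exact ⟨β, inter_comm S T ▸ this β α T S ((key β).2.2.1 α u).1 b a⟩
      · exact ⟨α, this α β S T (by simp [u]) a b⟩
      · exact ⟨α, this α β S T ((key α).2.2.1 β u).1 a b⟩⟩
  haveI : G.NeBot := ⟨fun t => by
    obtain ⟨α, h⟩ : ∅ ∈ G := by rw [t]; simp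
    exact (key α).1 (by simpa using h)⟩
  obtain ⟨q, hq⟩ := Ultrafilter.exists_le G
  refine ⟨Fin0 ∪ range fun α => ind (α.2 '' (D α).1), q, fun n => Ultrafilter.compl_mem_iff_notMem.mp
    (hq ⟨(fun _ _ => true, id), (finite_singleton n).subset fun i hi => not_not.mp hi.2⟩),
    subset_union_left, ?_, fun f => ⟨_, Or.inr ⟨(fun _ _ => true, f), rfl⟩, hq ⟨(fun _ _ => true, f),
      finite_empty.subset fun n hn => hn.2 (by simpa [ind] using ⟨n, hn.1, rfl⟩)⟩⟩,
    fun O o1 o2 => ?_⟩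
  · rintro x (hx | ⟨α, rfl⟩)
    · obtain ⟨N, hN⟩ := eventually_atTop.mp hx
      refine Eventually.of_forall fun a => (eventually_ge_atTop N).mono fun b hb => ?_
      simp [hN _ (hb.trans (Nat.right_le_pair a b))]
    · have e : {i | ind (α.2 '' (D α).1) i = true} = α.2 '' (D α).1 := by ext; simp [ind]
      rw [e]; exact (key α).2.1
  · choose c hc using fun m => f2 (O m) (o1 m).measurableSet
    obtain ⟨m, m1, m2⟩ := (key (c, id)).2.2.2 (by simpa only [hc] using o1) fun S s1 s2 => by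
      simp only [hc]
      refine o2 S s1 (s2.trans (union_subset_union_right _ ?_))
      rintro x (rfl | ⟨β, _, rfl⟩)
      · exact ⟨_, rfl⟩
      · exact ⟨β, rfl⟩
    simp only [hc] at m1 m2
    have old : ∀ x, (∀ᶠ k in atTop, x ∈ O (m k)) →
        ∀ᶠ a in atTop, ∀ᶠ b in atTop, x ∈ O (m (Nat.pair a b)) := fun x hx =>
      Eventually.of_forall fun a =>
        (tendsto_atTop_mono (Nat.right_le_pair a) tendsto_id).eventually hx
    refine ⟨m, ?_⟩
    rintro x (hx | ⟨β, rfl⟩)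
    · exact old x (m1 x (Or.inl hx))
    rcases trichotomous_of r (c, id) β with t | t | t
    · filter_upwards [((key β).2.2.1 _ t).2] with a ha
      filter_upwards [ha] with b hb
      refine m2 _ _ fun i hi => ?_
      by_contra s
      obtain ⟨n, n1, rfl⟩ : i ∈ β.2 '' (D β).1 := by simpa [ind] using s
      exact hb ⟨n, n1, hi⟩
    · exact old _ (m1 _ (Or.inr (Or.inl (by rw [← t]))))
    · exact old _ (m1 _ (Or.inr (Or.inr ⟨β, t, rfl⟩)))

end

end Pool.Agent.H18.Dl
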