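import Mathlib

set_option autoImplicit false

namespace Pool.Agent.H18.Gro

open Finset

noncomputable section
open Classical

/-- cross product -/
def cr (a b : ℂ) : ℝ := a.re * b.im - a.im * b.re

lemma cr_anti (a b : ℂ) : cr b a = - cr a b := by unfold cr; ring
lemma cr_self (a : ℂ) : cr a a = 0 := by unfold cr; ring
lemma cr_sum_right {ε : Type*} (a : ℂ) (B : Finset ε) (τ : ε → ℂ) :
    cr a (∑ e ∈ B, τ e) = ∑ e ∈ B, cr a (τ e) := by
  unfold cr
  rw [Complex.re_sum, Complex.im_sum, mul_sum, mul_sum, ← sum_sub_distrib]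
lemma cr_sub_right (a b c : ℂ) : cr a (b - c) = cr a b - cr a c := by
  unfold cr; simp only [Complex.sub_re, Complex.sub_im]; ring
lemma abs_cr_le (a b : ℂ) : |cr a b| ≤ ‖a‖ * ‖b‖ := by
  have : cr a b = ((starRingEnd ℂ) a * b).im := by simp [cr]; ring
  rw [this]
  refine (Complex.abs_im_le_norm _).trans ?_
  rw [norm_mul, Complex.norm_conj]
lemma abs_cr_le_sub {a b : ℂ} (ha : ‖a‖ = 1) : |cr a b| ≤ ‖a - b‖ := by
  have : cr a b = - cr a (a - b) := by rw [cr_sub_right, cr_self]; ring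
  rw [this, abs_neg]
  simpa [ha] using abs_cr_le a (a - b)

/-- the potential -/
def Psi {ε : Type*} (r : ε → ε → Prop) (τ : ε → ℂ) (A : Finset ε) : ℝ :=
  ∑ e ∈ A, ∑ f ∈ A, if r e f then cr (τ e) (τ f) else 0

lemma Psi_union {ε : Type*} [DecidableEq ε] (r : ε → ε → Prop) (τ : ε → ℂ) {P B : Finset ε} (hd : Disjoint P B)
    (up : ε → Prop) [DecidablePred up] (h1 : ∀ p ∈ P, up p → ∀ e ∈ B, r e p ∧ ¬ r p e)
    (h2 : ∀ p ∈ P, ¬ up p → ∀ e ∈ B, r p e ∧ ¬ r e p) :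
    Psi r τ (P ∪ B) = Psi r τ P + Psi r τ B +
      ∑ p ∈ P, (if up p then -1 else 1) * cr (τ p) (∑ e ∈ B, τ e) := by
  unfold Psi
  rw [sum_union hd]
  simp only [sum_union hd, sum_add_distrib]
  rw [sum_comm (s := B) (t := P)]
  have : ∑ p ∈ P, ∑ f ∈ B, (if r p f then cr (τ p) (τ f) else 0) +
      ∑ p ∈ P, ∑ e ∈ B, (if r e p then cr (τ e) (τ p) else 0) =
      ∑ p ∈ P, (if up p then -1 else 1) * cr (τ p) (∑ e ∈ B, τ e) := by
    rw [← sum_add_distrib]
    apply sum_congr rfl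
    intro p hp
    rw [← sum_add_distrib, cr_sum_right, mul_sum]
    apply sum_congr rfl
    intro e he
    by_cases hu : up p
    · rw [if_neg (h1 p hp hu e he).2, if_pos (h1 p hp hu e he).1, if_pos hu, cr_anti (τ p)]; ring
    · rw [if_pos (h2 p hp hu e he).1, if_neg (h2 p hp hu e he).2, if_neg hu]; ring
  linarith

lemma Psi_congr {ε : Type*} (r : ε → ε → Prop) {τ τ' : ε → ℂ} {P : Finset ε}
    (h : ∀ p ∈ P, τ p = τ' p) : Psi r τ P = Psi r τ' P := by
  unfold Psi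
  apply sum_congr rfl
  intro e he
  apply sum_congr rfl
  intro f hf
  rw [h e he, h f hf]

lemma Psi_ge {ε : Type*} (r : ε → ε → Prop) (τ : ε → ℂ) {B : Finset ε} {s : ℝ}
    (h : ∀ e ∈ B, ∀ f ∈ B, r e f → 0 ≤ s * cr (τ e) (τ f)) :
    0 ≤ s * Psi r τ B ∧ ∀ e ∈ B, ∀ f ∈ B, r e f → s * cr (τ e) (τ f) ≤ s * Psi r τ B := by
  have e1 : s * Psi r τ B = ∑ e ∈ B, ∑ f ∈ B, if r e f then s * cr (τ e) (τ f) else 0 := by
    unfold Psi
    rw [mul_sum]
    apply sum_congr rfl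
    intro e _
    rw [mul_sum]
    apply sum_congr rfl
    intro f _
    split_ifs <;> simp
  have nn : ∀ e ∈ B, ∀ f ∈ B, 0 ≤ if r e f then s * cr (τ e) (τ f) else 0 := by
    intro e he f hf
    split_ifs with hh
    · exact h e he f hf hh
    · exact le_rfl
  rw [e1]
  refine ⟨sum_nonneg (fun e he => sum_nonneg (nn e he)), fun e he f hf hr => ?_⟩
  calc s * cr (τ e) (τ f) = if r e f then s * cr (τ e) (τ f) else 0 := by rw [if_pos hr]
    _ ≤ ∑ f ∈ B, if r e f then s * cr (τ e) (τ f) else 0 := single_le_sum (nn e he) hf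
    _ ≤ _ := single_le_sum (f := fun e => ∑ f ∈ B, if r e f then s * cr (τ e) (τ f) else 0)
      (fun e he => sum_nonneg (nn e he)) he

/-- one collision -/
structure Step (A B : ℕ → ℂ) (l r : ℕ) : Prop where
  lr : l < r
  out : ∀ j, (j < l ∨ r < j) → B j = A j
  sum : ∑ j ∈ Icc l r, B j = ∑ j ∈ Icc l r, A j
  inn : ∀ j k, l ≤ j → j < k → k ≤ r → cr (A j) (A k) < 0 ∧ ‖A j - A k‖ ≤ 2 * |cr (A j) (A k)|
  ou : ∀ j k, l ≤ j → j < k → k ≤ r → 0 < cr (B j) (B k) ∧ ‖B j - B k‖ ≤ 2 * |cr (B j) (B k)|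

/-- potential of a list of particles -/
def PP (A : ℕ → ℂ) (lo hi : ℕ) : ℝ := Psi (fun a b : ℕ => a < b) A (Ico lo hi)

lemma Step.within {A B : ℕ → ℂ} {l r lo hi : ℕ} (h : Step A B l r) (h1 : lo ≤ l) (h2 : r < hi) :
    0 ≤ PP B lo hi - PP A lo hi ∧
    (∀ j, l ≤ j → j < r → ‖A j - A (j + 1)‖ ≤ 2 * (PP B lo hi - PP A lo hi)) ∧
    (∀ j, ‖B j - A j‖ ≤ 2 * (PP B lo hi - PP A lo hi)) ∧
    ∑ j ∈ Ico lo hi, B j = ∑ j ∈ Ico lo hi, A j := by
  have hsub : Icc l r ⊆ Ico lo hi := by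
    intro j hj; simp only [mem_Icc, mem_Ico] at *; omega
  have hu : Ico lo hi = (Ico lo hi \ Icc l r) ∪ Icc l r := (sdiff_union_of_subset hsub).symm
  have hP : ∀ p ∈ Ico lo hi \ Icc l r, B p = A p := by
    intro p hp
    simp only [mem_sdiff, mem_Icc, mem_Ico] at hp
    exact h.out p (by omega)
  have key : ∀ C : ℕ → ℂ, PP C lo hi = Psi (fun a b : ℕ => a < b) C (Ico lo hi \ Icc l r) +
      Psi (fun a b : ℕ => a < b) C (Icc l r) + ∑ p ∈ Ico lo hi \ Icc l r,
        (if r < p then -1 else 1) * cr (C p) (∑ e ∈ Icc l r, C e) := by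
    intro C
    unfold PP
    conv_lhs => rw [hu]
    rw [Psi_union _ C sdiff_disjoint (fun p => r < p)]
    · intro p hp hr e he
      simp only [mem_Icc] at he
      omega
    · intro p hp hr e he
      simp only [mem_sdiff, mem_Icc, mem_Ico] at hp he
      omega
  have hd : PP B lo hi - PP A lo hi =
      1 * Psi (fun a b : ℕ => a < b) B (Icc l r) + -1 * Psi (fun a b : ℕ => a < b) A (Icc l r) := by
    rw [key B, key A, Psi_congr _ hP, h.sum, sum_congr rfl (fun p hp => by rw [hP p hp])]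
    ring
  obtain ⟨a1, a2⟩ := Psi_ge (fun a b : ℕ => a < b) A (B := Icc l r) (s := -1) (by
    intro e he f hf hr
    simp only [mem_Icc] at he hf
    linarith [(h.inn e f he.1 hr hf.2).1])
  obtain ⟨b1, b2⟩ := Psi_ge (fun a b : ℕ => a < b) B (B := Icc l r) (s := 1) (by
    intro e he f hf hr
    simp only [mem_Icc] at he hf
    linarith [(h.ou e f he.1 hr hf.2).1])
  have ca : ∀ j ∈ Icc l r, ∀ k ∈ Icc l r,
      ‖A j - A k‖ ≤ 2 * (-1 * Psi (fun a b : ℕ => a < b) A (Icc l r)) := by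
    have : ∀ j ∈ Icc l r, ∀ k ∈ Icc l r, j < k →
        ‖A j - A k‖ ≤ 2 * (-1 * Psi (fun a b : ℕ => a < b) A (Icc l r)) := by
      intro j hj k hk hjk
      have t1 := a2 j hj k hk hjk
      obtain ⟨t2, t3⟩ := h.inn j k (mem_Icc.mp hj).1 hjk (mem_Icc.mp hk).2
      rw [abs_of_neg t2] at t3
      linarith
    intro j hj k hk
    rcases lt_trichotomy j k with t | t | t
    · exact this j hj k hk t
    · rw [t, sub_self, norm_zero]; linarith
    · rw [norm_sub_rev]; exact this k hk j hj t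
  have cb : ∀ j ∈ Icc l r, ∀ k ∈ Icc l r,
      ‖B j - B k‖ ≤ 2 * (1 * Psi (fun a b : ℕ => a < b) B (Icc l r)) := by
    have : ∀ j ∈ Icc l r, ∀ k ∈ Icc l r, j < k →
        ‖B j - B k‖ ≤ 2 * (1 * Psi (fun a b : ℕ => a < b) B (Icc l r)) := by
      intro j hj k hk hjk
      have t1 := b2 j hj k hk hjk
      obtain ⟨t2, t3⟩ := h.ou j k (mem_Icc.mp hj).1 hjk (mem_Icc.mp hk).2
      rw [abs_of_pos t2] at t3
      linarith
    intro j hj k hk
    rcases lt_trichotomy j k with t | t | t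
    · exact this j hj k hk t
    · rw [t, sub_self, norm_zero]; linarith
    · rw [norm_sub_rev]; exact this k hk j hj t
  rw [hd]
  refine ⟨by linarith, fun j j1 j2 => ?_, fun j => ?_, ?_⟩
  · have := ca j (mem_Icc.mpr ⟨j1, j2.le⟩) (j + 1) (mem_Icc.mpr ⟨by omega, j2⟩)
    linarith
  · by_cases hj : j ∈ Icc l r
    · have hc : (0 : ℝ) < (Icc l r).card := by
        exact_mod_cast card_pos.mpr ⟨j, hj⟩
      have e : ((Icc l r).card : ℂ) * (B j - A j) =
          ∑ i ∈ Icc l r, ((B j - B i) + (A i - A j)) := by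
        rw [sum_add_distrib, sum_sub_distrib, sum_sub_distrib, h.sum, sum_const, sum_const]
        simp only [nsmul_eq_mul]
        ring
      have n1 := congrArg norm e
      rw [norm_mul, Complex.norm_natCast] at n1
      have n2 : ‖∑ i ∈ Icc l r, ((B j - B i) + (A i - A j))‖ ≤ ∑ i ∈ Icc l r,
          2 * (1 * Psi (fun a b : ℕ => a < b) B (Icc l r) +
            -1 * Psi (fun a b : ℕ => a < b) A (Icc l r)) := by
        refine (norm_sum_le _ _).trans (sum_le_sum fun i hi => (norm_add_le _ _).trans ?_)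
        linarith [ca i hi j hj, cb j hj i hi]
      rw [sum_const, nsmul_eq_mul, ← n1] at n2
      exact le_of_mul_le_mul_left n2 hc
    · rw [h.out j (by simp only [mem_Icc] at hj; omega), sub_self, norm_zero]
      linarith
  · rw [hu, sum_union sdiff_disjoint, sum_union sdiff_disjoint, h.sum, sum_congr rfl hP]

/-- spread of a list of particles -/
def QQ (A : ℕ → ℂ) (lo hi : ℕ) : ℝ := ∑ j ∈ Ico lo hi, ∑ k ∈ Ico lo hi, ‖A j - A k‖ ^ 2

lemma QQ_eq {A : ℕ → ℂ} {lo hi : ℕ} (h : ∀ j, lo ≤ j → j < hi → ‖A j‖ = 1) :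
    QQ A lo hi = 2 * ((Ico lo hi).card : ℝ) ^ 2 - 2 * ‖∑ j ∈ Ico lo hi, A j‖ ^ 2 := by
  have e1 : ∀ j ∈ Ico lo hi, ∀ k ∈ Ico lo hi,
      ‖A j - A k‖ ^ 2 = 2 - 2 * ((A j).re * (A k).re + (A j).im * (A k).im) := by
    intro j hj k hk
    have t1 := h j (mem_Ico.mp hj).1 (mem_Ico.mp hj).2
    have t2 := h k (mem_Ico.mp hk).1 (mem_Ico.mp hk).2
    have s1 := Complex.sq_norm (A j)
    have s2 := Complex.sq_norm (A k)
    rw [t1, Complex.normSq_apply] at s1
    rw [t2, Complex.normSq_apply] at s2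
    rw [Complex.sq_norm, Complex.normSq_apply]
    simp only [Complex.sub_re, Complex.sub_im]
    linarith
  unfold QQ
  rw [sum_congr rfl (fun j hj => sum_congr rfl (fun k hk => e1 j hj k hk)), Complex.sq_norm,
    Complex.normSq_apply, Complex.re_sum, Complex.im_sum, sum_mul_sum, sum_mul_sum]
  simp only [sum_sub_distrib, sum_const, nsmul_eq_mul, ← mul_sum, sum_add_distrib]
  ring

lemma PP_bound {A : ℕ → ℂ} {lo hi : ℕ} (h : ∀ j, lo ≤ j → j < hi → ‖A j‖ = 1) :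
    |PP A lo hi| ≤ ((hi - lo : ℕ) : ℝ) ^ 2 * √(QQ A lo hi) := by
  have b : ∀ j ∈ Ico lo hi, ∀ k ∈ Ico lo hi,
      |if j < k then cr (A j) (A k) else 0| ≤ √(QQ A lo hi) := by
    intro j hj k hk
    split_ifs
    · refine (abs_cr_le_sub (h j (mem_Ico.mp hj).1 (mem_Ico.mp hj).2)).trans ?_
      apply Real.le_sqrt_of_sq_le
      calc ‖A j - A k‖ ^ 2 ≤ ∑ k ∈ Ico lo hi, ‖A j - A k‖ ^ 2 :=
            single_le_sum (f := fun k => ‖A j - A k‖ ^ 2) (fun _ _ => by positivity) hk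
        _ ≤ _ := single_le_sum (f := fun j => ∑ k ∈ Ico lo hi, ‖A j - A k‖ ^ 2)
            (fun _ _ => by positivity) hj
    · simp
  unfold PP Psi
  refine (abs_sum_le_sum_abs _ _).trans ?_
  calc _ ≤ ∑ j ∈ Ico lo hi, ∑ k ∈ Ico lo hi, √(QQ A lo hi) := by
        apply sum_le_sum
        intro j hj
        refine (abs_sum_le_sum_abs _ _).trans (sum_le_sum fun k hk => ?_)
        have hb := b j hj k hk
        by_cases hjk : j < k
        · simpa only [hjk, if_true] using hb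
        · simp only [hjk, if_false, abs_zero]; positivity
    _ = _ := by simp only [sum_const, nsmul_eq_mul, Nat.card_Ico]; ring

lemma QQ_le {A : ℕ → ℂ} {lo hi : ℕ} {η : ℝ} (h0 : 0 ≤ η)
    (h : ∀ j, lo ≤ j → j + 1 < hi → ‖A j - A (j + 1)‖ ≤ η) :
    √(QQ A lo hi) ≤ ((hi - lo : ℕ) : ℝ) ^ 2 * η := by
  have c : ∀ j m, lo ≤ j → j + m < hi → ‖A j - A (j + m)‖ ≤ m * η := by
    intro j m hj
    induction m with
    | zero => intro _; simp
    | succ m ih =>
      intro hm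
      have t1 := ih (by omega)
      have t2 := h (j + m) (by omega) (by omega)
      have t3 := norm_sub_le_norm_sub_add_norm_sub (A j) (A (j + m)) (A (j + m + 1))
      push_cast
      rw [← add_assoc]
      linarith
  have c2 : ∀ j ∈ Ico lo hi, ∀ k ∈ Ico lo hi, ‖A j - A k‖ ≤ ((hi - lo : ℕ) : ℝ) * η := by
    have : ∀ j ∈ Ico lo hi, ∀ k ∈ Ico lo hi, j ≤ k → ‖A j - A k‖ ≤ ((hi - lo : ℕ) : ℝ) * η := by
      intro j hj k hk hjk
      obtain ⟨m, rfl⟩ := Nat.exists_eq_add_of_le hjk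
      simp only [mem_Ico] at hj hk
      refine (c j m hj.1 hk.2).trans (mul_le_mul_of_nonneg_right ?_ h0)
      exact_mod_cast (by omega : m ≤ hi - lo)
    intro j hj k hk
    rcases le_total j k with t | t
    · exact this j hj k hk t
    · rw [norm_sub_rev]; exact this k hk j hj t
  apply Real.sqrt_le_iff.mpr
  refine ⟨by positivity, ?_⟩
  unfold QQ
  calc _ ≤ ∑ j ∈ Ico lo hi, ∑ k ∈ Ico lo hi, (((hi - lo : ℕ) : ℝ) * η) ^ 2 :=
        sum_le_sum fun j hj => sum_le_sum fun k hk =>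
          pow_le_pow_left₀ (norm_nonneg _) (c2 j hj k hk) 2
    _ = _ := by simp only [sum_const, nsmul_eq_mul, Nat.card_Ico]; ring

end

end Pool.Agent.H18.Gro
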