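import Pool.Agent.H18.Gro1

set_option autoImplicit false

namespace Pool.Agent.H18.Gro

open Finset

noncomputable section
open Classical

/-- number of marked times in a window -/
def cnt (W : ℕ → Prop) (a b : ℕ) : ℕ := ((Ico a b).filter W).card

lemma cnt_add (W : ℕ → Prop) {a c b : ℕ} (h1 : a ≤ c) (h2 : c ≤ b) :
    cnt W a b = cnt W a c + cnt W c b := by
  unfold cnt
  rw [← Ico_union_Ico_eq_Ico h1 h2, filter_union, card_union_of_disjoint]
  exact disjoint_filter_filter (Ico_disjoint_Ico_consecutive a c b)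

lemma cnt_one (W : ℕ → Prop) (a : ℕ) : cnt W a (a + 1) = if W a then 1 else 0 := by
  unfold cnt
  rw [Nat.Ico_succ_singleton, filter_singleton]
  split_ifs <;> simp

lemma cnt_self (W : ℕ → Prop) (a : ℕ) : cnt W a a = 0 := by simp [cnt]

lemma cnt_pos {W : ℕ → Prop} {a b : ℕ} (h : 0 < cnt W a b) : ∃ t, a ≤ t ∧ t < b ∧ W t := by
  obtain ⟨s, hs⟩ := card_pos.mp h
  obtain ⟨s0, s3⟩ := mem_filter.mp hs
  exact ⟨s, (mem_Ico.mp s0).1, (mem_Ico.mp s0).2, s3⟩

lemma cnt_le_add {W W1 W2 : ℕ → Prop} {a b : ℕ}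
    (h : ∀ t, a ≤ t → t < b → W t → W1 t ∨ W2 t) : cnt W a b ≤ cnt W1 a b + cnt W2 a b := by
  unfold cnt
  refine le_trans (card_le_card ?_) (card_union_le _ _)
  intro t ht
  obtain ⟨s0, s3⟩ := mem_filter.mp ht
  rcases h t (mem_Ico.mp s0).1 (mem_Ico.mp s0).2 s3 with u | u
  · exact mem_union_left _ (mem_filter.mpr ⟨s0, u⟩)
  · exact mem_union_right _ (mem_filter.mpr ⟨s0, u⟩)

lemma cnt_mono {W W1 : ℕ → Prop} {a b : ℕ}
    (h : ∀ t, a ≤ t → t < b → W t → W1 t) : cnt W a b ≤ cnt W1 a b := by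
  unfold cnt
  refine card_le_card ?_
  intro t ht
  obtain ⟨s0, s3⟩ := mem_filter.mp ht
  exact mem_filter.mpr ⟨s0, h t (mem_Ico.mp s0).1 (mem_Ico.mp s0).2 s3⟩

lemma windows (W : ℕ → Prop) (Ψ : ℕ → ℝ) (H : ℕ) (δ : ℝ) (t0 t1 : ℕ) (hH : 0 < H)
    (mono : ∀ a b, t0 ≤ a → a ≤ b → b ≤ t1 → Ψ a ≤ Ψ b)
    (hw : ∀ a b, t0 ≤ a → a ≤ b → b ≤ t1 → H ≤ cnt W a b → Ψ a + δ ≤ Ψ b) (m : ℕ) :
    ∀ a b, t0 ≤ a → a ≤ b → b ≤ t1 → m * H ≤ cnt W a b → Ψ a + m * δ ≤ Ψ b := by
  induction m with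
  | zero => intro a b h0 h1 h2 _; simpa using mono a b h0 h1 h2
  | succ m ih =>
    intro a b h0 h1 h2 h3
    have ex : ∃ c, a ≤ c ∧ H ≤ cnt W a c := ⟨b, h1, by nlinarith⟩
    have c1 := Nat.find_spec ex
    have c2 : Nat.find ex ≤ b := Nat.find_min' ex ⟨h1, by nlinarith⟩
    have c3 : cnt W a (Nat.find ex) ≤ H := by
      have hne : Nat.find ex ≠ a := by
        intro he
        have := c1.2
        rw [he, cnt_self] at this
        omega
      obtain ⟨c, hc⟩ : ∃ c, Nat.find ex = c + 1 := ⟨Nat.find ex - 1, by omega⟩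
      have t1 := Nat.find_min ex (m := c) (by omega)
      have t2 : a ≤ c := by omega
      rw [hc, cnt_add W t2 (Nat.le_succ c), cnt_one]
      have : cnt W a c < H := by
        by_contra hh
        exact t1 ⟨t2, by omega⟩
      split_ifs <;> omega
    have e := cnt_add W c1.1 c2
    have s1 := hw a _ h0 c1.1 (c2.trans h2) c1.2
    have s2 := ih _ b (h0.trans c1.1) c2 h2 (by nlinarith)
    push_cast
    linarith

/-- a run of collisions -/
structure Run (L : ℕ → ℕ → ℂ) (l r : ℕ → ℕ) (lo hi t0 t1 : ℕ) : Prop where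
  unit : ∀ t, t0 ≤ t → t ≤ t1 → ∀ j, lo ≤ j → j < hi → ‖L t j‖ = 1
  step : ∀ t, t0 ≤ t → t < t1 → Step (L t) (L (t + 1)) (l t) (r t)
  pos : ∀ t, t0 ≤ t → t < t1 → (lo ≤ l t ∧ r t < hi) ∨ r t < lo ∨ hi ≤ l t

variable {L : ℕ → ℕ → ℂ} {l r : ℕ → ℕ} {lo hi t0 t1 : ℕ}

lemma Run.sub (h : Run L l r lo hi t0 t1) {a b : ℕ} (h1 : t0 ≤ a) (h2 : b ≤ t1) :
    Run L l r lo hi a b :=
  ⟨fun t u v => h.unit t (h1.trans u) (v.trans h2),
    fun t u v => h.step t (h1.trans u) (v.trans_le h2),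
    fun t u v => h.pos t (h1.trans u) (v.trans_le h2)⟩

lemma Run.one (h : Run L l r lo hi t0 t1) {t : ℕ} (h1 : t0 ≤ t) (h2 : t < t1) :
    0 ≤ PP (L (t + 1)) lo hi - PP (L t) lo hi ∧
    (∀ j, lo ≤ j → j < hi → ‖L (t + 1) j - L t j‖ ≤ 2 * (PP (L (t + 1)) lo hi - PP (L t) lo hi)) ∧
    ∑ j ∈ Ico lo hi, L (t + 1) j = ∑ j ∈ Ico lo hi, L t j := by
  rcases h.pos t h1 h2 with hp | hp
  · obtain ⟨a1, -, a3, a4⟩ := (h.step t h1 h2).within hp.1 hp.2
    exact ⟨a1, fun j _ _ => a3 j, a4⟩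
  · have e : ∀ j ∈ Ico lo hi, L (t + 1) j = L t j := by
      intro j hj
      simp only [mem_Ico] at hj
      exact (h.step t h1 h2).out j (by omega)
    have e2 : PP (L (t + 1)) lo hi = PP (L t) lo hi := Psi_congr _ e
    rw [e2, sub_self]
    refine ⟨le_rfl, fun j a b => ?_, sum_congr rfl e⟩
    rw [e j (mem_Ico.mpr ⟨a, b⟩)]; simp

lemma Run.many (h : Run L l r lo hi t0 t1) {a : ℕ} (h1 : t0 ≤ a) (b : ℕ) (h2 : a ≤ b)
    (h3 : b ≤ t1) :
    0 ≤ PP (L b) lo hi - PP (L a) lo hi ∧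
    (∀ j, lo ≤ j → j < hi → ‖L b j - L a j‖ ≤ 2 * (PP (L b) lo hi - PP (L a) lo hi)) ∧
    ∑ j ∈ Ico lo hi, L b j = ∑ j ∈ Ico lo hi, L a j := by
  induction b, h2 using Nat.le_induction with
  | base => simp
  | succ b hb ih =>
    obtain ⟨a1, a2, a3⟩ := ih (by omega)
    obtain ⟨b1, b2, b3⟩ := h.one (t := b) (by omega) (by omega)
    refine ⟨by linarith, fun j u v => ?_, b3.trans a3⟩
    have := norm_sub_le_norm_sub_add_norm_sub (L (b + 1) j) (L b j) (L a j)
    linarith [a2 j u v, b2 j u v]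

lemma Run.QQ_const (h : Run L l r lo hi t0 t1) {a : ℕ} (h1 : t0 ≤ a) (h2 : a ≤ t1) :
    QQ (L a) lo hi = QQ (L t0) lo hi := by
  rw [QQ_eq (h.unit a h1 h2), QQ_eq (h.unit t0 le_rfl (h1.trans h2)),
    (h.many le_rfl a h1 h2).2.2]

lemma Run.covered (h : Run L l r lo hi t0 t1) (h0 : t0 ≤ t1)
    (hc : ∀ j, lo ≤ j → j + 1 < hi → ∃ t, t0 ≤ t ∧ t < t1 ∧ lo ≤ l t ∧ r t < hi ∧
      l t ≤ j ∧ j < r t) :
    √(QQ (L t0) lo hi) ≤ ((hi - lo : ℕ) : ℝ) ^ 2 * (6 * (PP (L t1) lo hi - PP (L t0) lo hi)) := by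
  apply QQ_le (by linarith [(h.many le_rfl t1 h0 le_rfl).1])
  intro j j1 j2
  obtain ⟨t, u1, u2, u3, u4, u5, u6⟩ := hc j j1 j2
  have a := ((h.step t u1 u2).within u3 u4).2.1 j u5 u6
  obtain ⟨b1, b2, -⟩ := h.many le_rfl t u1 u2.le
  have c := (h.many (a := t + 1) (by omega) t1 u2 le_rfl).1
  have d := (h.one u1 u2).1
  have e1 := b2 j j1 (by omega)
  have e2 := b2 (j + 1) (by omega) j2
  have f1 := norm_sub_le_norm_sub_add_norm_sub (L t0 j) (L t j) (L t0 (j + 1))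
  have f2 := norm_sub_le_norm_sub_add_norm_sub (L t j) (L t (j + 1)) (L t0 (j + 1))
  rw [norm_sub_rev] at e1
  linarith

theorem particles (p : ℕ) : ∃ g : ℕ, ∀ (L : ℕ → ℕ → ℂ) (l r : ℕ → ℕ) (lo hi t0 t1 : ℕ),
    hi - lo ≤ p → t0 ≤ t1 → Run L l r lo hi t0 t1 →
    cnt (fun t => lo ≤ l t ∧ r t < hi) t0 t1 ≤ g := by
  induction p with
  | zero =>
    refine ⟨0, fun L l r lo hi t0 t1 hp h0 h => ?_⟩
    by_contra hcon
    obtain ⟨t, a1, a2, hh⟩ := cnt_pos (not_le.mp hcon)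
    have := (h.step t a1 a2).lr
    omega
  | succ p ih =>
    obtain ⟨g, hg⟩ := ih
    refine ⟨(12 * (p + 1) ^ 4 + 1) * (2 * g + 1), fun L l r lo hi t0 t1 hp h0 h => ?_⟩
    by_contra hcon
    have hbig := (not_le.mp hcon).le
    have hpos : 0 < cnt (fun t => lo ≤ l t ∧ r t < hi) t0 t1 := by omega
    obtain ⟨s, s1, s2, s3, s4⟩ := cnt_pos hpos
    have slr := (h.step s s1 s2).lr
    have hq : (2 : ℝ) ≤ ((hi - lo : ℕ) : ℝ) := by exact_mod_cast (by omega : 2 ≤ hi - lo)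
    have hq2 : ((hi - lo : ℕ) : ℝ) ≤ (p + 1 : ℕ) := by exact_mod_cast hp
    set q : ℝ := ((hi - lo : ℕ) : ℝ) with hqd
    set S : ℝ := √(QQ (L t0) lo hi) with hS
    have bd : ∀ a, t0 ≤ a → a ≤ t1 → |PP (L a) lo hi| ≤ q ^ 2 * S := by
      intro a a1 a2
      rw [hS, ← h.QQ_const a1 a2]
      exact PP_bound (h.unit a a1 a2)
    have hSpos : 0 < S := by
      rcases (Real.sqrt_nonneg (QQ (L t0) lo hi)).lt_or_eq with t | t
      · exact t
      · exfalso
        have z1 := bd s s1 s2.le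
        have z2 := bd (s + 1) (by omega) s2
        rw [hS, ← t, mul_zero] at z1 z2
        have z3 := ((h.step s s1 s2).within s3 s4).2.1 (l s) le_rfl slr
        rw [abs_nonpos_iff.mp z1, abs_nonpos_iff.mp z2, sub_zero, mul_zero] at z3
        have z4 := ((h.step s s1 s2).inn (l s) (l s + 1) le_rfl (by omega) slr).1
        rw [← sub_eq_zero.mp (norm_le_zero_iff.mp z3), cr_self] at z4
        exact lt_irrefl _ z4
    have hw := windows (fun t => lo ≤ l t ∧ r t < hi) (fun t => PP (L t) lo hi) (2 * g + 1)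
      (S / (6 * q ^ 2)) t0 t1 (by omega)
      (fun a b a1 a2 a3 => by linarith [(h.many a1 b a2 a3).1])
      (fun a b a1 a2 a3 a4 => by
        have hr := h.sub a1 a3
        have := hr.covered a2 (by
          intro j j1 j2
          by_contra hn
          have hn' : ∀ t, a ≤ t → t < b → lo ≤ l t → r t < hi → l t ≤ j → r t ≤ j := by
            intro t u1 u2 u3 u4 u5
            by_contra u6
            exact hn ⟨t, u1, u2, u3, u4, u5, by omega⟩
          have g1 := hg L l r lo (j + 1) a b (by omega) a2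
            ⟨fun t u v i i1 i2 => hr.unit t u v i i1 (by omega), hr.step, fun t u v => by
              have := hr.pos t u v
              have := hn' t u v
              omega⟩
          have g2 := hg L l r (j + 1) hi a b (by omega) a2
            ⟨fun t u v i i1 i2 => hr.unit t u v i (by omega) i2, hr.step, fun t u v => by
              have := hr.pos t u v
              have := hn' t u v
              omega⟩
          have g3 : cnt (fun t => lo ≤ l t ∧ r t < hi) a b ≤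
              cnt (fun t => lo ≤ l t ∧ r t < j + 1) a b +
                cnt (fun t => j + 1 ≤ l t ∧ r t < hi) a b := by
            apply cnt_le_add
            intro t u v ht
            have := hn' t u v
            omega
          omega)
        rw [h.QQ_const a1 (a2.trans a3), ← hS, ← hqd] at this
        have e : S / (6 * q ^ 2) ≤ PP (L b) lo hi - PP (L a) lo hi := by
          rw [div_le_iff₀ (by positivity)]
          linarith
        linarith)
      (12 * (p + 1) ^ 4 + 1) t0 t1 le_rfl h0 le_rfl hbig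
    have z1 := (abs_le.mp (bd t0 le_rfl h0)).1
    have z2 := (abs_le.mp (bd t1 h0 le_rfl)).2
    have z3 : ((12 * (p + 1) ^ 4 + 1 : ℕ) : ℝ) * (S / (6 * q ^ 2)) ≤ 2 * q ^ 2 * S := by
      linarith
    rw [← mul_div_assoc, div_le_iff₀ (by positivity)] at z3
    have z4 : q ^ 4 ≤ ((p + 1 : ℕ) : ℝ) ^ 4 := pow_le_pow_left₀ (by linarith) hq2 4
    have z5 : ((12 * (p + 1) ^ 4 + 1 : ℕ) : ℝ) ≤ 12 * q ^ 4 := by
      apply le_of_mul_le_mul_right _ hSpos
      linarith
    push_cast at z4 z5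
    linarith

/-- runs interrupted by a bounded number of arbitrary events -/
theorem particles2 (p : ℕ) : ∃ g : ℕ, ∀ (L : ℕ → ℕ → ℂ) (l r sz : ℕ → ℕ) (good : ℕ → Prop)
    (T : ℕ), (∀ t, t ≤ T → sz t ≤ p) → (∀ t, t ≤ T → ∀ j, j < sz t → ‖L t j‖ = 1) →
    (∀ t, t < T → good t → sz (t + 1) = sz t ∧ Step (L t) (L (t + 1)) (l t) (r t) ∧ r t < sz t) →
    cnt good 0 T ≤ (cnt (fun t => ¬ good t) 0 T + 1) * g := by
  obtain ⟨g, hg⟩ := particles p
  refine ⟨g, fun L l r sz good T h1 h2 h3 => ?_⟩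
  have seg : ∀ s u, s ≤ u → u ≤ T → (∀ t, s ≤ t → t < u → good t) → cnt good s u ≤ g := by
    intro s u a1 a2 a3
    have hs : ∀ t, s ≤ t → t ≤ u → sz t = sz s := by
      intro t b1
      induction t, b1 using Nat.le_induction with
      | base => intro _; rfl
      | succ t b1 ih =>
        intro b2
        rw [(h3 t (by omega) (a3 t b1 (by omega))).1, ih (by omega)]
    have := hg L l r 0 (sz s) s u (by simpa using h1 s (a1.trans a2)) a1
      ⟨fun t b1 b2 j _ j2 => h2 t (b2.trans a2) j (by rw [hs t b1 b2]; exact j2),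
        fun t b1 b2 => (h3 t (by omega) (a3 t b1 b2)).2.1,
        fun t b1 b2 => Or.inl ⟨Nat.zero_le _, by
          rw [← hs t b1 b2.le]; exact (h3 t (by omega) (a3 t b1 b2)).2.2⟩⟩
    refine le_trans (cnt_mono ?_) this
    intro t u1 u2 ht
    refine ⟨Nat.zero_le _, ?_⟩
    rw [← hs t u1 u2.le]
    exact (h3 t (by omega) ht).2.2
  have inv : ∀ u, u ≤ T → ∃ s, s ≤ u ∧ (∀ t, s ≤ t → t < u → good t) ∧
      cnt good 0 s ≤ cnt (fun t => ¬ good t) 0 u * g := by
    intro u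
    induction u with
    | zero => intro _; exact ⟨0, le_rfl, fun t _ h => absurd h (by omega), by simp [cnt_self]⟩
    | succ u ih =>
      intro hu
      obtain ⟨s, s1, s2, s3⟩ := ih (by omega)
      rw [cnt_add _ (Nat.zero_le u) (Nat.le_succ u), cnt_one]
      by_cases hg : good u
      · refine ⟨s, by omega, fun t a b => ?_, ?_⟩
        · rcases Nat.lt_succ_iff_lt_or_eq.mp b with c | c
          · exact s2 t a c
          · rw [c]; exact hg
        · rw [if_neg (not_not.mpr hg)]; simpa using s3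
      · refine ⟨u + 1, le_rfl, fun t a b => absurd b (by omega), ?_⟩
        rw [if_pos hg, cnt_add _ (Nat.zero_le u) (Nat.le_succ u), cnt_one, if_neg hg,
          cnt_add _ (Nat.zero_le s) s1]
        have := seg s u s1 (by omega) s2
        nlinarith
  obtain ⟨s, s1, s2, s3⟩ := inv T le_rfl
  rw [cnt_add _ (Nat.zero_le s) s1]
  have := seg s T s1 le_rfl s2
  nlinarith

end

end Pool.Agent.H18.Gro
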