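import Pool.Agent.H18.Gro2

set_option autoImplicit false

namespace Pool.Agent.H18.Gro

open Finset

noncomputable section
open Classical

variable {ε : Type*} {lt : ε → ε → Prop} {B : Finset ε}

/-- rank of an element -/
def rk (lt : ε → ε → Prop) (B : Finset ε) (e : ε) : ℕ := (B.filter (fun f => lt f e)).card

/-- the relation is a linear order on `B` -/
def Keyed (lt : ε → ε → Prop) (B : Finset ε) : Prop :=
  ∃ key : ε → ℝ, (∀ e ∈ B, ∀ f ∈ B, key e = key f → e = f) ∧
    ∀ e ∈ B, ∀ f ∈ B, (lt e f ↔ key e < key f)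

lemma Keyed.irr (h : Keyed lt B) {e : ε} (he : e ∈ B) : ¬ lt e e := by
  obtain ⟨k, -, h2⟩ := h
  rw [h2 e he e he]; exact lt_irrefl _

lemma Keyed.asym (h : Keyed lt B) {e f : ε} (he : e ∈ B) (hf : f ∈ B) (h1 : lt e f) :
    ¬ lt f e := by
  obtain ⟨k, -, h2⟩ := h
  rw [h2 e he f hf] at h1
  rw [h2 f hf e he]; exact not_lt.mpr h1.le

lemma Keyed.trans (h : Keyed lt B) {e f g : ε} (he : e ∈ B) (hf : f ∈ B) (hg : g ∈ B)
    (h1 : lt e f) (h3 : lt f g) : lt e g := by
  obtain ⟨k, -, h2⟩ := h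
  rw [h2 e he f hf] at h1
  rw [h2 f hf g hg] at h3
  rw [h2 e he g hg]; exact h1.trans h3

lemma Keyed.tri (h : Keyed lt B) {e f : ε} (he : e ∈ B) (hf : f ∈ B) :
    lt e f ∨ e = f ∨ lt f e := by
  obtain ⟨k, h1, h2⟩ := h
  rw [h2 e he f hf, h2 f hf e he]
  rcases lt_trichotomy (k e) (k f) with t | t | t
  · exact Or.inl t
  · exact Or.inr (Or.inl (h1 e he f hf t))
  · exact Or.inr (Or.inr t)

lemma Keyed.mono (h : Keyed lt B) {C : Finset ε} (hC : C ⊆ B) : Keyed lt C := by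
  obtain ⟨k, h1, h2⟩ := h
  exact ⟨k, fun e he f hf => h1 e (hC he) f (hC hf), fun e he f hf => h2 e (hC he) f (hC hf)⟩

lemma Keyed.rk_lt (h : Keyed lt B) {e : ε} (he : e ∈ B) : rk lt B e < B.card := by
  apply card_lt_card
  refine ⟨filter_subset _ _, fun hs => ?_⟩
  exact h.irr he (mem_filter.mp (hs he)).2

lemma Keyed.rk_lt_rk (h : Keyed lt B) {e f : ε} (he : e ∈ B) (hf : f ∈ B) (h1 : lt e f) :
    rk lt B e < rk lt B f := by
  apply card_lt_card
  refine ⟨fun g hg => ?_, fun hs => ?_⟩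
  · obtain ⟨g1, g2⟩ := mem_filter.mp hg
    exact mem_filter.mpr ⟨g1, h.trans g1 he hf g2 h1⟩
  · exact h.irr he (mem_filter.mp (hs (mem_filter.mpr ⟨he, h1⟩))).2

lemma Keyed.rk_inj (h : Keyed lt B) {e f : ε} (he : e ∈ B) (hf : f ∈ B)
    (h1 : rk lt B e = rk lt B f) : e = f := by
  rcases h.tri he hf with t | t | t
  · have := h.rk_lt_rk he hf t; omega
  · exact t
  · have := h.rk_lt_rk hf he t; omega

lemma Keyed.lt_of_rk (h : Keyed lt B) {e f : ε} (he : e ∈ B) (hf : f ∈ B)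
    (h1 : rk lt B e < rk lt B f) : lt e f := by
  rcases h.tri he hf with t | t | t
  · exact t
  · rw [t] at h1; omega
  · have := h.rk_lt_rk hf he t; omega

lemma Keyed.rk_image (h : Keyed lt B) : B.image (rk lt B) = range B.card := by
  apply eq_of_subset_of_card_le
  · intro j hj
    obtain ⟨e, he, rfl⟩ := mem_image.mp hj
    exact mem_range.mpr (h.rk_lt he)
  · rw [card_range, card_image_of_injOn (fun e he f hf => h.rk_inj he hf)]

lemma Keyed.rk_surj (h : Keyed lt B) {j : ℕ} (hj : j < B.card) : ∃ e ∈ B, rk lt B e = j := by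
  have : j ∈ B.image (rk lt B) := by rw [h.rk_image]; exact mem_range.mpr hj
  exact mem_image.mp this

lemma Keyed.sum_rk (h : Keyed lt B) {M : Type*} [AddCommMonoid M] (f : ℕ → M) :
    ∑ j ∈ range B.card, f j = ∑ e ∈ B, f (rk lt B e) := by
  rw [← h.rk_image, sum_image (fun e he f hf => h.rk_inj he hf)]

/-- the list of directions in the order of rank -/
def LL (lt : ε → ε → Prop) (τ : ε → ℂ) (B : Finset ε) (j : ℕ) : ℂ :=
  ∑ e ∈ B.filter (fun e => rk lt B e = j), τ e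

lemma Keyed.LL_rk (h : Keyed lt B) (τ : ε → ℂ) {e : ε} (he : e ∈ B) :
    LL lt τ B (rk lt B e) = τ e := by
  unfold LL
  have : B.filter (fun f => rk lt B f = rk lt B e) = {e} := by
    ext f
    simp only [mem_filter, mem_singleton]
    exact ⟨fun t => h.rk_inj t.1 he t.2, fun t => by rw [t]; exact ⟨he, rfl⟩⟩
  rw [this, sum_singleton]

lemma Keyed.LL_zero (h : Keyed lt B) (τ : ε → ℂ) {j : ℕ} (hj : B.card ≤ j) :
    LL lt τ B j = 0 := by
  unfold LL
  apply sum_eq_zero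
  intro e he
  obtain ⟨e1, e2⟩ := mem_filter.mp he
  have := h.rk_lt e1
  omega

/-- a block of consecutive elements -/
structure Blk [DecidableEq ε] (lt : ε → ε → Prop) (P K : Finset ε) (up : ε → Prop) : Prop where
  disj : Disjoint P K
  key : Keyed lt (P ∪ K)
  u : ∀ p ∈ P, up p → ∀ e ∈ K, lt e p
  d : ∀ p ∈ P, ¬ up p → ∀ e ∈ K, lt p e

/-- number of elements below the block -/
def low (P : Finset ε) (up : ε → Prop) : ℕ := (P.filter (fun p => ¬ up p)).card

variable [DecidableEq ε] {P K K' : Finset ε} {up : ε → Prop}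

lemma Blk.rk_split (h : Blk lt P K up) (e : ε) :
    rk lt (P ∪ K) e = rk lt P e + rk lt K e := by
  unfold rk
  rw [filter_union, card_union_of_disjoint (disjoint_filter_filter h.disj)]

lemma Blk.rkP (h : Blk lt P K up) {p : ε} (hp : p ∈ P) :
    rk lt (P ∪ K) p = rk lt P p + if up p then K.card else 0 := by
  rw [h.rk_split]
  congr 1
  unfold rk
  split_ifs with hu
  · rw [filter_true_of_mem (fun e he => h.u p hp hu e he)]
  · rw [card_eq_zero, filter_eq_empty_iff]
    intro e he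
    exact h.key.asym (mem_union_left _ hp) (mem_union_right _ he) (h.d p hp hu e he)

lemma Blk.rkK (h : Blk lt P K up) {e : ε} (he : e ∈ K) :
    rk lt (P ∪ K) e = low P up + rk lt K e := by
  rw [h.rk_split]
  congr 1
  unfold rk low
  congr 1
  ext p
  simp only [mem_filter]
  refine and_congr_right fun hp => ⟨fun t hu => ?_, fun t => h.d p hp t e he⟩
  exact h.key.asym (mem_union_left _ hp) (mem_union_right _ he) t (h.u p hp hu e he)

lemma Blk.memK (h : Blk lt P K up) (hK : K.Nonempty) {e : ε} (he : e ∈ P ∪ K) :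
    (low P up ≤ rk lt (P ∪ K) e ∧ rk lt (P ∪ K) e < low P up + K.card) ↔ e ∈ K := by
  have hk : Keyed lt K := h.key.mono subset_union_right
  constructor
  · rintro ⟨a1, a2⟩
    by_contra hn
    have hp : e ∈ P := (mem_union.mp he).resolve_right hn
    by_cases hu : up e
    · obtain ⟨f, hf, f2⟩ := hk.rk_surj (j := K.card - 1) (by have := card_pos.mpr hK; omega)
      have := h.key.rk_lt_rk (mem_union_right _ hf) he (h.u e hp hu f hf)
      rw [h.rkK hf] at this
      omega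
    · obtain ⟨f, hf, f2⟩ := hk.rk_surj (j := 0) (card_pos.mpr hK)
      have := h.key.rk_lt_rk he (mem_union_right _ hf) (h.d e hp hu f hf)
      rw [h.rkK hf] at this
      omega
  · intro hk'
    rw [h.rkK hk']
    have := hk.rk_lt hk'
    omega

lemma Blk.low_le (h : Blk lt P K up) : low P up + K.card ≤ (P ∪ K).card := by
  rw [card_union_of_disjoint h.disj]
  have : low P up ≤ P.card := card_filter_le _ _
  omega

lemma Blk.sumK (h : Blk lt P K up) (hK : K.Nonempty) (τ : ε → ℂ) :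
    ∑ j ∈ Icc (low P up) (low P up + K.card - 1), LL lt τ (P ∪ K) j = ∑ e ∈ K, τ e := by
  have hc := card_pos.mpr hK
  symm
  apply sum_bij (fun e _ => rk lt (P ∪ K) e)
  · intro e he
    have := (h.memK hK (mem_union_right _ he)).mpr he
    rw [mem_Icc]; omega
  · intro e he f hf t
    exact h.key.rk_inj (mem_union_right _ he) (mem_union_right _ hf) t
  · intro j hj
    rw [mem_Icc] at hj
    have := h.low_le
    obtain ⟨e, he, rfl⟩ := h.key.rk_surj (j := j) (by omega)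
    exact ⟨e, (h.memK hK he).mp (by omega), rfl⟩
  · intro e he
    rw [h.key.LL_rk τ (mem_union_right _ he)]

lemma Blk.pairs (h : Blk lt P K up) (hK : K.Nonempty) (τ : ε → ℂ) (R : ℂ → ℂ → Prop)
    (hR : ∀ e ∈ K, ∀ f ∈ K, lt e f → R (τ e) (τ f)) (j k : ℕ) (h1 : low P up ≤ j) (h2 : j < k)
    (h3 : k ≤ low P up + K.card - 1) : R (LL lt τ (P ∪ K) j) (LL lt τ (P ∪ K) k) := by
  have hc := card_pos.mpr hK
  have := h.low_le
  obtain ⟨e, he, rfl⟩ := h.key.rk_surj (j := j) (by omega)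
  obtain ⟨f, hf, rfl⟩ := h.key.rk_surj (j := k) (by omega)
  rw [h.key.LL_rk τ he, h.key.LL_rk τ hf]
  exact hR e ((h.memK hK he).mp (by omega)) f ((h.memK hK hf).mp (by omega))
    (h.key.lt_of_rk he hf h2)

theorem Blk.step (h : Blk lt P K up) (h' : Blk lt P K' up) (τ : ε → ℂ) (hc : K'.card = K.card)
    (h2 : 2 ≤ K.card) (hs : ∑ e ∈ K', τ e = ∑ e ∈ K, τ e)
    (hi : ∀ e ∈ K, ∀ f ∈ K, lt e f → cr (τ e) (τ f) < 0 ∧ ‖τ e - τ f‖ ≤ 2 * |cr (τ e) (τ f)|)
    (ho : ∀ e ∈ K', ∀ f ∈ K', lt e f → 0 < cr (τ e) (τ f) ∧ ‖τ e - τ f‖ ≤ 2 * |cr (τ e) (τ f)|) :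
    (P ∪ K').card = (P ∪ K).card ∧
    Step (LL lt τ (P ∪ K)) (LL lt τ (P ∪ K')) (low P up) (low P up + K.card - 1) ∧
    low P up + K.card - 1 < (P ∪ K).card := by
  have hK : K.Nonempty := card_pos.mp (by omega)
  have hK' : K'.Nonempty := card_pos.mp (by omega)
  have cc : (P ∪ K').card = (P ∪ K).card := by
    rw [card_union_of_disjoint h.disj, card_union_of_disjoint h'.disj, hc]
  have := h.low_le
  refine ⟨cc, ⟨by omega, fun j hj => ?_, ?_, ?_, ?_⟩, by omega⟩
  · by_cases hj2 : j < (P ∪ K).card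
    · obtain ⟨e, he, rfl⟩ := h.key.rk_surj hj2
      have hp : e ∈ P := by
        refine (mem_union.mp he).resolve_right fun t => ?_
        have := (h.memK hK he).mpr t
        omega
      have e1 : rk lt (P ∪ K) e = rk lt (P ∪ K') e := by rw [h.rkP hp, h'.rkP hp, hc]
      rw [h.key.LL_rk τ he, e1, h'.key.LL_rk τ (mem_union_left _ hp)]
    · rw [h.key.LL_zero τ (by omega), h'.key.LL_zero τ (by omega)]
  · rw [h.sumK hK, ← hc, h'.sumK hK', hs]
  · exact h.pairs hK τ (fun a b => cr a b < 0 ∧ ‖a - b‖ ≤ 2 * |cr a b|) hi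
  · rw [← hc]
    exact h'.pairs hK' τ (fun a b => 0 < cr a b ∧ ‖a - b‖ ≤ 2 * |cr a b|) ho

lemma Blk.psi (h : Blk lt P K up) (τ : ε → ℂ) :
    Psi lt τ (P ∪ K) = Psi lt τ P + Psi lt τ K +
      ∑ p ∈ P, (if up p then -1 else 1) * cr (τ p) (∑ e ∈ K, τ e) :=
  Psi_union lt τ h.disj up
    (fun p hp hu e he => ⟨h.u p hp hu e he,
      h.key.asym (mem_union_right _ he) (mem_union_left _ hp) (h.u p hp hu e he)⟩)
    (fun p hp hu e he => ⟨h.d p hp hu e he,
      h.key.asym (mem_union_left _ hp) (mem_union_right _ he) (h.d p hp hu e he)⟩)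

end

end Pool.Agent.H18.Gro
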