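import Mathlib

set_option autoImplicit false

namespace Pool.Agent.H18.Net

open Set

noncomputable section
open Classical

/-- unit vector from `v` to `w` -/
def uv (v w : ℂ) : ℂ := (w - v) / ((‖w - v‖ : ℝ) : ℂ)

lemma uv_ray (v T : ℂ) {t : ℝ} (ht : 0 < t) : uv v (v + (t : ℂ) * (T - v)) = uv v T := by
  unfold uv
  have h1 : v + (t : ℂ) * (T - v) - v = (t : ℂ) * (T - v) := by ring
  rw [h1, norm_mul, Complex.norm_real, Real.norm_eq_abs, abs_of_pos ht]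
  have ht' : (t : ℂ) ≠ 0 := by exact_mod_cast ht.ne'
  push_cast
  rw [mul_div_mul_left _ _ ht']

lemma uv_ne_zero {v w : ℂ} (h : v ≠ w) : uv v w ≠ 0 := by
  unfold uv
  have h1 : w - v ≠ 0 := sub_ne_zero.mpr h.symm
  have h2 : ((‖w - v‖ : ℝ) : ℂ) ≠ 0 := by exact_mod_cast norm_ne_zero_iff.mpr h1
  exact div_ne_zero h1 h2

lemma uv_swap (v w : ℂ) : uv w v = - uv v w := by
  unfold uv
  rw [norm_sub_rev v w, ← neg_div, neg_sub]

lemma mem_seg {a b x : ℂ} : x ∈ segment ℝ a b ↔ ∃ t : ℝ, 0 ≤ t ∧ t ≤ 1 ∧ x = a + (t : ℂ) * (b - a) := by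
  rw [segment_eq_image']
  constructor
  · rintro ⟨t, ⟨h0, h1⟩, rfl⟩
    exact ⟨t, h0, h1, by simp⟩
  · rintro ⟨t, h0, h1, rfl⟩
    exact ⟨t, ⟨h0, h1⟩, by simp⟩

/-- on a segment, the direction towards the end point is constant -/
lemma uv_seg {p q v : ℂ} (hv : v ∈ segment ℝ p q) (hq : v ≠ q) : uv v q = uv p q := by
  rw [segment_symm] at hv
  obtain ⟨t, h0, h1, rfl⟩ := mem_seg.mp hv
  have ht : 0 < t := by
    rcases h0.lt_or_eq with h | h
    · exact h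
    · exfalso; apply hq; rw [← h]; simp
  rw [uv_swap q, uv_ray q p ht, ← uv_swap]

lemma exists_next (V : Finset ℂ) {v T : ℂ} (hT : T ∈ V) (hv : v ≠ T) :
    ∃ t : ℝ, 0 < t ∧ t ≤ 1 ∧ v + (t : ℂ) * (T - v) ∈ V ∧
      ∀ s : ℝ, 0 < s → s ≤ 1 → v + (s : ℂ) * (T - v) ∈ V → t ≤ s := by
  have hne : T - v ≠ 0 := sub_ne_zero.mpr hv.symm
  have hinj : Function.Injective (fun s : ℝ => v + (s : ℂ) * (T - v)) := by
    intro a b hab
    have h1 : (a : ℂ) * (T - v) = (b : ℂ) * (T - v) := add_left_cancel hab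
    exact_mod_cast mul_right_cancel₀ hne h1
  have hfin : ({s : ℝ | 0 < s ∧ s ≤ 1 ∧ v + (s : ℂ) * (T - v) ∈ V}).Finite := by
    apply ((V.finite_toSet).preimage hinj.injOn).subset
    intro s hs
    exact hs.2.2
  have hne' : ({s : ℝ | 0 < s ∧ s ≤ 1 ∧ v + (s : ℂ) * (T - v) ∈ V}).Nonempty :=
    ⟨1, one_pos, le_rfl, by simpa using hT⟩
  obtain ⟨t, ht, hmin⟩ := hfin.exists_minimal hne'
  refine ⟨t, ht.1, ht.2.1, ht.2.2, fun s h0 h1 hs => ?_⟩
  rcases le_total t s with h | h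
  · exact h
  · exact hmin ⟨h0, h1, hs⟩ h

variable {ι : Type*}

/-- the vertex set of the subdivision -/
def VV (J : Finset ι) (p q : ι → ℂ) : Set ℂ :=
  {x | (∃ i ∈ J, x = p i ∨ x = q i) ∨
    ∃ i ∈ J, ∃ j ∈ J, i ≠ j ∧ x ∈ segment ℝ (p i) (q i) ∧ x ∈ segment ℝ (p j) (q j)}

lemma VV_finite (J : Finset ι) (p q : ι → ℂ)
    (hs : ∀ i ∈ J, ∀ j ∈ J, i ≠ j → (segment ℝ (p i) (q i) ∩ segment ℝ (p j) (q j)).Subsingleton) :
    (VV J p q).Finite := by
  have h1 : ({x | ∃ i ∈ J, x = p i ∨ x = q i} : Set ℂ).Finite := by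
    apply ((J.finite_toSet.image p).union (J.finite_toSet.image q)).subset
    rintro x ⟨i, hi, h | h⟩
    · exact Or.inl ⟨i, hi, h.symm⟩
    · exact Or.inr ⟨i, hi, h.symm⟩
  have h2 : (⋃ i ∈ (J : Set ι), ⋃ j ∈ ((J : Set ι) ∩ {j | i ≠ j}),
      (segment ℝ (p i) (q i) ∩ segment ℝ (p j) (q j))).Finite := by
    apply J.finite_toSet.biUnion
    intro i hi
    apply (J.finite_toSet.inter_of_left _).biUnion
    intro j hj
    exact (hs i hi j hj.1 hj.2).finite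
  apply (h1.union h2).subset
  rintro x (h | ⟨i, hi, j, hj, hij, h1, h2⟩)
  · exact Or.inl h
  · right
    simp only [mem_iUnion]
    exact ⟨i, hi, j, ⟨hj, hij⟩, h1, h2⟩

/-- the graph of the subdivision -/
def GG (J : Finset ι) (p q : ι → ℂ) : SimpleGraph ℂ where
  Adj a b := a ≠ b ∧ a ∈ VV J p q ∧ b ∈ VV J p q ∧
    (∃ i ∈ J, a ∈ segment ℝ (p i) (q i) ∧ b ∈ segment ℝ (p i) (q i)) ∧
    ∀ v ∈ VV J p q, v ∈ segment ℝ a b → v = a ∨ v = b
  symm := ⟨by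
    rintro a b ⟨h1, h2, h3, ⟨i, hi, h4, h5⟩, h6⟩
    refine ⟨h1.symm, h3, h2, ⟨i, hi, h5, h4⟩, fun v hv hs => ?_⟩
    rw [segment_symm] at hs
    exact (h6 v hv hs).symm⟩
  loopless := ⟨fun a h => h.1 rfl⟩

lemma seg_param {p q : ℂ} (hpq : p ≠ q) {a b c : ℝ} :
    p + (c : ℂ) * (q - p) ∈ segment ℝ (p + (a : ℂ) * (q - p)) (p + (b : ℂ) * (q - p)) ↔
      c ∈ uIcc a b := by
  have hne : q - p ≠ 0 := sub_ne_zero.mpr hpq.symm
  rw [← segment_eq_uIcc, mem_seg, segment_eq_image']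
  constructor
  · rintro ⟨t, h0, h1, h⟩
    refine ⟨t, ⟨h0, h1⟩, ?_⟩
    have h2 : ((a + t * (b - a) : ℝ) : ℂ) * (q - p) = (c : ℂ) * (q - p) := by
      push_cast
      linear_combination -h
    have h3 := mul_right_cancel₀ hne h2
    simpa using (by exact_mod_cast h3 : a + t * (b - a) = c)
  · rintro ⟨t, ⟨h0, h1⟩, h⟩
    refine ⟨t, h0, h1, ?_⟩
    have h2 : c = a + t * (b - a) := by simpa using h.symm
    rw [h2]
    push_cast
    ring

lemma par_inj {p q : ℂ} (hpq : p ≠ q) {a b : ℝ} :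
    p + (a : ℂ) * (q - p) = p + (b : ℂ) * (q - p) ↔ a = b := by
  have hne : q - p ≠ 0 := sub_ne_zero.mpr hpq.symm
  constructor
  · intro h
    have h1 : (a : ℂ) * (q - p) = (b : ℂ) * (q - p) := add_left_cancel h
    exact_mod_cast mul_right_cancel₀ hne h1
  · rintro rfl; rfl

lemma GG_cross (J : Finset ι) (p q : ι → ℂ) (hpq : ∀ i ∈ J, p i ≠ q i)
    {a b c d : ℂ} (hab : (GG J p q).Adj a b) (hcd : (GG J p q).Adj c d)
    (hne : ¬ ((a = c ∧ b = d) ∨ (a = d ∧ b = c))) {x : ℂ}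
    (hx1 : x ∈ segment ℝ a b) (hx2 : x ∈ segment ℝ c d) : x = a ∨ x = b := by
  obtain ⟨h1, h2, h3, ⟨i, hi, h4, h5⟩, h6⟩ := hab
  obtain ⟨k1, k2, k3, ⟨j, hj, k4, k5⟩, k6⟩ := hcd
  have hxi : x ∈ segment ℝ (p i) (q i) := (convex_segment _ _).segment_subset h4 h5 hx1
  have hxj : x ∈ segment ℝ (p j) (q j) := (convex_segment _ _).segment_subset k4 k5 hx2
  by_cases hij : i = j
  · subst hij
    have hp := hpq i hi
    obtain ⟨a', -, -, rfl⟩ := mem_seg.mp h4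
    obtain ⟨b', -, -, rfl⟩ := mem_seg.mp h5
    obtain ⟨c', -, -, rfl⟩ := mem_seg.mp k4
    obtain ⟨d', -, -, rfl⟩ := mem_seg.mp k5
    obtain ⟨x', -, -, rfl⟩ := mem_seg.mp hxi
    have e1 := h6 _ k2
    have e2 := h6 _ k3
    have e3 := k6 _ h2
    have e4 := k6 _ h3
    simp only [seg_param hp, par_inj hp, ne_eq] at *
    simp only [mem_uIcc] at *
    by_contra hcon
    push Not at hcon
    obtain ⟨n1, n2⟩ := hcon
    rcases lt_or_gt_of_ne h1 with hab | hab <;> rcases lt_or_gt_of_ne k1 with hcd | hcd <;>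
      grind
  · exact h6 x (Or.inr ⟨i, hi, j, hj, hij, hxi, hxj⟩) hx1

/-- start of a directed segment -/
def PP (p q : ι → ℂ) (κ : ι × Bool) : ℂ := if κ.2 then p κ.1 else q κ.1
/-- end of a directed segment -/
def QQ (p q : ι → ℂ) (κ : ι × Bool) : ℂ := if κ.2 then q κ.1 else p κ.1

lemma seg_PQ (p q : ι → ℂ) (κ : ι × Bool) :
    segment ℝ (PP p q κ) (QQ p q κ) = segment ℝ (p κ.1) (q κ.1) := by
  obtain ⟨i, b⟩ := κ
  cases b
  · simp [PP, QQ, segment_symm]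
  · simp [PP, QQ]

/-- directed segments active at `v` -/
def act (J : Finset ι) (p q : ι → ℂ) (v : ℂ) : Finset (ι × Bool) :=
  (J ×ˢ Finset.univ).filter (fun κ => v ∈ segment ℝ (p κ.1) (q κ.1) ∧ v ≠ QQ p q κ)

lemma mem_act {J : Finset ι} {p q : ι → ℂ} {v : ℂ} {κ : ι × Bool} :
    κ ∈ act J p q v ↔ κ.1 ∈ J ∧ v ∈ segment ℝ (p κ.1) (q κ.1) ∧ v ≠ QQ p q κ := by
  simp [act]

lemma QQ_mem (p q : ι → ℂ) (κ : ι × Bool) : QQ p q κ ∈ segment ℝ (p κ.1) (q κ.1) := by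
  rw [← seg_PQ]; exact right_mem_segment _ _ _

lemma nbr (J : Finset ι) (p q : ι → ℂ) (hpq : ∀ i ∈ J, p i ≠ q i)
    (hs : ∀ i ∈ J, ∀ j ∈ J, i ≠ j → (segment ℝ (p i) (q i) ∩ segment ℝ (p j) (q j)).Subsingleton)
    {v : ℂ} (hv : v ∈ VV J p q) :
    ∃ nb : ι × Bool → ℂ, InjOn nb (act J p q v) ∧
      (GG J p q).neighborSet v = nb '' (act J p q v) ∧
      ∀ κ ∈ act J p q v, uv v (nb κ) = uv (PP p q κ) (QQ p q κ) := by
  have hfin := VV_finite J p q hs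
  have hQ : ∀ κ : ι × Bool, κ.1 ∈ J → QQ p q κ ∈ hfin.toFinset := by
    intro κ hκ
    rw [Finite.mem_toFinset]
    refine Or.inl ⟨κ.1, hκ, ?_⟩
    unfold QQ
    split_ifs
    · exact Or.inr rfl
    · exact Or.inl rfl
  have key : ∀ κ : ι × Bool, ∃ t : ℝ, κ ∈ act J p q v →
      (0 < t ∧ t ≤ 1 ∧ v + (t : ℂ) * (QQ p q κ - v) ∈ hfin.toFinset ∧
      ∀ s : ℝ, 0 < s → s ≤ 1 → v + (s : ℂ) * (QQ p q κ - v) ∈ hfin.toFinset → t ≤ s) := by
    intro κ
    by_cases hκ : κ ∈ act J p q v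
    · obtain ⟨h1, h2, h3⟩ := mem_act.mp hκ
      obtain ⟨t, ht⟩ := exists_next hfin.toFinset (hQ κ h1) h3
      exact ⟨t, fun _ => ht⟩
    · exact ⟨0, fun h => absurd h hκ⟩
  choose t ht using key
  have huv : ∀ κ ∈ act J p q v,
      uv v (v + (t κ : ℂ) * (QQ p q κ - v)) = uv (PP p q κ) (QQ p q κ) := by
    intro κ hκ
    obtain ⟨h1, h2, h3⟩ := mem_act.mp hκ
    rw [uv_ray _ _ (ht κ hκ).1]
    apply uv_seg _ h3
    rwa [seg_PQ]
  have hseg : ∀ κ ∈ act J p q v,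
      v + (t κ : ℂ) * (QQ p q κ - v) ∈ segment ℝ (p κ.1) (q κ.1) := by
    intro κ hκ
    obtain ⟨h1, h2, h3⟩ := mem_act.mp hκ
    apply (convex_segment _ _).segment_subset h2 (QQ_mem p q κ)
    exact mem_seg.mpr ⟨t κ, (ht κ hκ).1.le, (ht κ hκ).2.1, rfl⟩
  have hne : ∀ κ ∈ act J p q v, v ≠ v + (t κ : ℂ) * (QQ p q κ - v) := by
    intro κ hκ h
    obtain ⟨h1, h2, h3⟩ := mem_act.mp hκ
    have h4 : v + ((0 : ℝ) : ℂ) * (QQ p q κ - v) = v + (t κ : ℂ) * (QQ p q κ - v) := by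
      simpa using h
    exact (ht κ hκ).1.ne ((par_inj h3).mp h4)
  refine ⟨fun κ => v + (t κ : ℂ) * (QQ p q κ - v), ?_, ?_, huv⟩
  · intro κ hκ κ' hκ' h
    have hκ0 : κ ∈ act J p q v := hκ
    have hκ0' : κ' ∈ act J p q v := hκ'
    obtain ⟨h1, h2, h3⟩ := mem_act.mp hκ0
    obtain ⟨k1, k2, k3⟩ := mem_act.mp hκ0'
    have h' : v + (t κ : ℂ) * (QQ p q κ - v) = v + (t κ' : ℂ) * (QQ p q κ' - v) := h
    have hi : κ.1 = κ'.1 := by
      by_contra hi
      have := hs _ h1 _ k1 hi ⟨h2, k2⟩ ⟨hseg κ hκ0, by rw [h']; exact hseg κ' hκ0'⟩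
      exact hne κ hκ0 this
    have hu : uv (PP p q κ) (QQ p q κ) = uv (PP p q κ') (QQ p q κ') := by
      rw [← huv κ hκ0, ← huv κ' hκ0', h']
    obtain ⟨i, b⟩ := κ
    obtain ⟨i', b'⟩ := κ'
    simp only at hi
    subst hi
    have h0 := uv_ne_zero (hpq i h1)
    have hsw := uv_swap (p i) (q i)
    cases b <;> cases b' <;> simp only [PP, QQ] at hu
    · rfl
    · exfalso; apply h0
      simp only [Bool.false_eq_true, if_false, if_true] at hu
      linear_combination (1 / 2 : ℂ) * hsw - (1 / 2 : ℂ) * hu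
    · exfalso; apply h0
      simp only [Bool.false_eq_true, if_false, if_true] at hu
      linear_combination (1 / 2 : ℂ) * hsw + (1 / 2 : ℂ) * hu
    · rfl
  · ext w
    simp only [SimpleGraph.mem_neighborSet, mem_image, Finset.mem_coe]
    constructor
    · rintro ⟨h1, h2, h3, ⟨i, hi, h4, h5⟩, h6⟩
      have hb : ∃ b : Bool, w ∈ segment ℝ v (QQ p q (i, b)) := by
        have hp := hpq i hi
        obtain ⟨a', a0, a1, rfl⟩ := mem_seg.mp h4
        obtain ⟨b', b0, b1, rfl⟩ := mem_seg.mp h5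
        rcases le_total a' b' with h | h
        · refine ⟨true, ?_⟩
          have : QQ p q (i, true) = p i + ((1 : ℝ) : ℂ) * (q i - p i) := by simp [QQ]
          rw [this, seg_param hp, mem_uIcc]
          exact Or.inl ⟨h, b1⟩
        · refine ⟨false, ?_⟩
          have : QQ p q (i, false) = p i + ((0 : ℝ) : ℂ) * (q i - p i) := by simp [QQ]
          rw [this, seg_param hp, mem_uIcc]
          exact Or.inr ⟨b0, h⟩
      obtain ⟨b, hb⟩ := hb
      have hvQ : v ≠ QQ p q (i, b) := by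
        intro h
        rw [← h, segment_same] at hb
        exact h1 hb.symm
      have hκ : (i, b) ∈ act J p q v := mem_act.mpr ⟨hi, h4, hvQ⟩
      refine ⟨(i, b), hκ, ?_⟩
      obtain ⟨s, s0, s1, rfl⟩ := mem_seg.mp hb
      have spos : 0 < s := by
        rcases s0.lt_or_eq with h | h
        · exact h
        · exfalso; apply h1; rw [← h]; simp
      obtain ⟨t0, t1, t2, t3⟩ := ht _ hκ
      have hle := t3 s spos s1 (by rwa [Finite.mem_toFinset])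
      have hv0 : v = v + ((0 : ℝ) : ℂ) * (QQ p q (i, b) - v) := by simp
      have := h6 _ (by rwa [Finite.mem_toFinset] at t2) (by
        conv => enter [1, 2]; rw [hv0]
        rw [seg_param hvQ, mem_uIcc]
        exact Or.inl ⟨t0.le, hle⟩)
      rcases this with h | h
      · exact absurd h.symm (hne _ hκ)
      · exact h
    · rintro ⟨κ, hκ, rfl⟩
      obtain ⟨h1, h2, h3⟩ := mem_act.mp hκ
      obtain ⟨t0, t1, t2, t3⟩ := ht _ hκ
      refine ⟨hne κ hκ, hv, by rwa [Finite.mem_toFinset] at t2, ⟨κ.1, h1, h2, hseg κ hκ⟩, ?_⟩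
      intro z hz hzs
      obtain ⟨s, s0, s1, rfl⟩ := mem_seg.mp hzs
      rcases s0.lt_or_eq with h | h
      · right
        have e : v + (s : ℂ) * (v + (t κ : ℂ) * (QQ p q κ - v) - v)
            = v + ((s * t κ : ℝ) : ℂ) * (QQ p q κ - v) := by push_cast; ring
        rw [e] at hz ⊢
        have h4 := t3 (s * t κ) (mul_pos h t0) (mul_le_one₀ s1 t0.le t1)
          (by rwa [Finite.mem_toFinset])
        have h5 : s * t κ ≤ t κ := by nlinarith
        rw [le_antisymm h5 h4]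
      · left; rw [← h]; simp

/-- imbalance of the family of segments at a point -/
def II (J : Finset ι) (p q : ι → ℂ) (v : ℂ) : ℂ :=
  ∑ i ∈ J, ((if v = p i then uv (p i) (q i) else 0) - (if v = q i then uv (p i) (q i) else 0))

lemma sum_act (J : Finset ι) (p q : ι → ℂ) (hpq : ∀ i ∈ J, p i ≠ q i) (v : ℂ) :
    ∑ κ ∈ act J p q v, uv (PP p q κ) (QQ p q κ) = II J p q v := by
  unfold act II
  rw [Finset.sum_filter, Finset.sum_product]
  apply Finset.sum_congr rfl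
  intro i hi
  have hp := hpq i hi
  simp only [Fintype.sum_bool, PP, QQ, if_true, Bool.false_eq_true, if_false]
  rw [uv_swap (p i) (q i)]
  by_cases h1 : v = p i
  · subst h1
    simp [left_mem_segment, hp]
  · by_cases h2 : v = q i
    · subst h2
      simp [right_mem_segment, h1]
    · by_cases h3 : v ∈ segment ℝ (p i) (q i) <;> simp [h1, h2, h3]

theorem subdiv (J : Finset ι) (p q : ι → ℂ) (hpq : ∀ i ∈ J, p i ≠ q i)
    (hs : ∀ i ∈ J, ∀ j ∈ J, i ≠ j → (segment ℝ (p i) (q i) ∩ segment ℝ (p j) (q j)).Subsingleton) :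
    ∃ V : Finset ℂ, ∃ G : SimpleGraph ℂ,
      (∀ a b : ℂ, G.Adj a b → a ∈ V ∧ b ∈ V) ∧
      (∀ a b c d : ℂ, G.Adj a b → G.Adj c d →
          ¬ ((a = c ∧ b = d) ∨ (a = d ∧ b = c)) →
          ∀ x ∈ segment ℝ a b ∩ segment ℝ c d, (x = a ∨ x = b) ∧ (x = c ∨ x = d)) ∧
      (∀ a b v : ℂ, G.Adj a b → v ∈ V → v ∈ segment ℝ a b → v = a ∨ v = b) ∧
      (∀ i ∈ J, p i ∈ V ∧ q i ∈ V) ∧
      (∀ v ∈ V, (∑ᶠ w ∈ G.neighborSet v, (w - v) / ((‖w - v‖ : ℝ) : ℂ)) = II J p q v) ∧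
      (∀ v ∈ V, (J.filter (fun i => v = p i)).card ≤ (G.neighborSet v).ncard) ∧
      (∀ v ∈ V, (∀ i ∈ J, v ≠ p i ∧ v ≠ q i) → 3 ≤ (G.neighborSet v).ncard) := by
  have hfin := VV_finite J p q hs
  have hcard : ∀ v ∈ VV J p q, ((GG J p q).neighborSet v).ncard = (act J p q v).card := by
    intro v hv
    obtain ⟨nb, h1, h2, -⟩ := nbr J p q hpq hs hv
    rw [h2, h1.ncard_image, ncard_coe_finset]
  refine ⟨hfin.toFinset, GG J p q, ?_, ?_, ?_, ?_, ?_, ?_, ?_⟩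
  · intro a b h
    simp only [Finite.mem_toFinset]
    exact ⟨h.2.1, h.2.2.1⟩
  · intro a b c d hab hcd hne x hx
    refine ⟨GG_cross J p q hpq hab hcd hne hx.1 hx.2, GG_cross J p q hpq hcd hab ?_ hx.2 hx.1⟩
    rintro (⟨h1, h2⟩ | ⟨h1, h2⟩)
    · exact hne (Or.inl ⟨h1.symm, h2.symm⟩)
    · exact hne (Or.inr ⟨h2.symm, h1.symm⟩)
  · intro a b v h hv hs
    rw [Finite.mem_toFinset] at hv
    exact h.2.2.2.2 v hv hs
  · intro i hi
    simp only [Finite.mem_toFinset]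
    exact ⟨Or.inl ⟨i, hi, Or.inl rfl⟩, Or.inl ⟨i, hi, Or.inr rfl⟩⟩
  · intro v hv
    rw [Finite.mem_toFinset] at hv
    obtain ⟨nb, h1, h2, h3⟩ := nbr J p q hpq hs hv
    rw [h2, finsum_mem_image h1, finsum_mem_coe_finset, ← sum_act J p q hpq]
    exact Finset.sum_congr rfl h3
  · intro v hv
    rw [Finite.mem_toFinset] at hv
    rw [hcard v hv]
    apply Finset.card_le_card_of_injOn (fun i => (i, true))
    · intro i hi
      simp only [Finset.coe_filter, mem_setOf_eq] at hi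
      simp only [Finset.mem_coe]
      refine mem_act.mpr ⟨hi.1, ?_, ?_⟩
      · rw [hi.2]; exact left_mem_segment _ _ _
      · simp only [QQ, if_true]; rw [hi.2]; exact hpq i hi.1
    · intro a _ b _ h
      exact (Prod.ext_iff.mp h).1
  · intro v hv hn
    rw [Finite.mem_toFinset] at hv
    rw [hcard v hv]
    rcases hv with ⟨i, hi, h | h⟩ | ⟨i, hi, j, hj, hij, h1, h2⟩
    · exact absurd h (hn i hi).1
    · exact absurd h (hn i hi).2
    · rw [Nat.succ_le_iff, Finset.two_lt_card_iff]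
      refine ⟨(i, true), (i, false), (j, true), ?_, ?_, ?_, by simp, by simp [hij], by simp⟩
      · exact mem_act.mpr ⟨hi, h1, by simpa [QQ] using (hn i hi).2⟩
      · exact mem_act.mpr ⟨hi, h1, by simpa [QQ] using (hn i hi).1⟩
      · exact mem_act.mpr ⟨hj, h2, by simpa [QQ] using (hn j hj).2⟩

end

end Pool.Agent.H18.Net
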