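import Pool.Agent.H18.Gro3
import Pool.Agent.H18.Net1

set_option autoImplicit false

namespace Pool.Agent.H18.Gro

open Finset Pool.Agent.H18.Net

noncomputable section
open Classical

variable {ι : Type} {V : Finset ι} {E : ι → ι → Prop} {z : ι → ℂ}

/-- a plane straight-line graph -/
structure GNet (V : Finset ι) (E : ι → ι → Prop) (z : ι → ℂ) : Prop where
  symm : ∀ a b, E a b → E b a
  irr : ∀ a, ¬ E a a
  mem : ∀ a b, E a b → a ∈ V
  cross : ∀ a b c d, E a b → E c d → ¬ ((a = c ∧ b = d) ∨ (a = d ∧ b = c)) →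
    ∀ x, x ∈ segment ℝ (z a) (z b) → x ∈ segment ℝ (z c) (z d) → x = z a ∨ x = z b
  deg : ∀ v ∈ V, ∃ w, E v w

/-- a plane straight-line graph whose vertices have distinct abscissae -/
structure GN (V : Finset ι) (E : ι → ι → Prop) (z : ι → ℂ) : Prop extends GNet V E z where
  gen : ∀ a ∈ V, ∀ b ∈ V, (z a).re = (z b).re → a = b

/-- edges oriented to the right -/
def DD (V : Finset ι) (E : ι → ι → Prop) (z : ι → ℂ) : Finset (ι × ι) :=
  (V ×ˢ V).filter (fun e => E e.1 e.2 ∧ (z e.1).re < (z e.2).re)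

/-- direction of an edge -/
def tau (z : ι → ℂ) (e : ι × ι) : ℂ := uv (z e.1) (z e.2)

/-- slope of an edge -/
def sl (z : ι → ℂ) (e : ι × ι) : ℝ := ((z e.2).im - (z e.1).im) / ((z e.2).re - (z e.1).re)

/-- height of an edge over an abscissa -/
def ht (z : ι → ℂ) (e : ι × ι) (s : ℝ) : ℝ := (z e.1).im + (s - (z e.1).re) * sl z e

/-- one edge is below another -/
def ltE (z : ι → ℂ) (e f : ι × ι) : Prop :=
  ∃ s, (z e.1).re < s ∧ s < (z e.2).re ∧ (z f.1).re < s ∧ s < (z f.2).re ∧ ht z e s < ht z f s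

lemma GNet.mem_DD (h : GNet V E z) {e : ι × ι} :
    e ∈ DD V E z ↔ E e.1 e.2 ∧ (z e.1).re < (z e.2).re := by
  unfold DD
  rw [mem_filter, mem_product]
  exact ⟨fun t => t.2, fun t => ⟨⟨h.mem _ _ t.1, h.mem _ _ (h.symm _ _ t.1)⟩, t⟩⟩

lemma norm_uv {a b : ℂ} (h : a ≠ b) : ‖uv a b‖ = 1 := by
  unfold uv
  have h1 : ‖b - a‖ ≠ 0 := norm_ne_zero_iff.mpr (sub_ne_zero.mpr h.symm)
  rw [norm_div, Complex.norm_real, Real.norm_eq_abs, abs_norm, div_self h1]

lemma norm_uv_le (a b : ℂ) : ‖uv a b‖ ≤ 1 := by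
  by_cases h : a = b
  · simp [uv, h]
  · exact (norm_uv h).le

lemma uv_re' (a b : ℂ) : (uv a b).re = (b.re - a.re) / ‖b - a‖ := by
  unfold uv; rw [Complex.div_ofReal_re]; simp

lemma uv_im' (a b : ℂ) : (uv a b).im = (b.im - a.im) / ‖b - a‖ := by
  unfold uv; rw [Complex.div_ofReal_im]; simp

lemma ne_of_re {e : ι × ι} (he : (z e.1).re < (z e.2).re) : z e.1 ≠ z e.2 := by
  intro t; rw [t] at he; exact lt_irrefl _ he

lemma tau_norm {e : ι × ι} (he : (z e.1).re < (z e.2).re) : ‖tau z e‖ = 1 :=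
  norm_uv (ne_of_re he)

lemma tau_re_pos {e : ι × ι} (he : (z e.1).re < (z e.2).re) : 0 < (tau z e).re := by
  unfold tau
  rw [uv_re']
  exact div_pos (by linarith) (norm_pos_iff.mpr (sub_ne_zero.mpr (ne_of_re he).symm))

lemma tau_im {e : ι × ι} (he : (z e.1).re < (z e.2).re) :
    (tau z e).im = sl z e * (tau z e).re := by
  unfold tau sl
  rw [uv_re', uv_im']
  have : (z e.2).re - (z e.1).re ≠ 0 := by linarith [sub_pos.mpr he] |> fun (t : 0 < _) => t.ne'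
  field_simp

lemma cr_tau {e f : ι × ι} (he : (z e.1).re < (z e.2).re) (hf : (z f.1).re < (z f.2).re) :
    cr (tau z e) (tau z f) = (tau z e).re * (tau z f).re * (sl z f - sl z e) := by
  unfold cr
  rw [tau_im he, tau_im hf]; ring

lemma ht_left (e : ι × ι) : ht z e (z e.1).re = (z e.1).im := by simp [ht]

lemma ht_right {e : ι × ι} (he : (z e.1).re < (z e.2).re) : ht z e (z e.2).re = (z e.2).im := by
  unfold ht sl
  have : (z e.2).re - (z e.1).re ≠ 0 := (sub_pos.mpr he).ne'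
  field_simp
  ring

lemma ht_sub (e : ι × ι) (s t : ℝ) : ht z e s = ht z e t + (s - t) * sl z e := by
  unfold ht; ring

lemma ht_seg {e : ι × ι} (he : (z e.1).re < (z e.2).re) {s : ℝ} (h1 : (z e.1).re ≤ s)
    (h2 : s ≤ (z e.2).re) : (⟨s, ht z e s⟩ : ℂ) ∈ segment ℝ (z e.1) (z e.2) := by
  have hp : 0 < (z e.2).re - (z e.1).re := sub_pos.mpr he
  refine mem_seg.mpr ⟨(s - (z e.1).re) / ((z e.2).re - (z e.1).re),
    div_nonneg (by linarith) hp.le, (div_le_one hp).mpr (by linarith), ?_⟩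
  apply Complex.ext
  · simp only [Complex.add_re, Complex.mul_re, Complex.ofReal_re, Complex.ofReal_im,
      Complex.sub_re, Complex.sub_im]
    field_simp
    ring
  · simp only [Complex.add_im, Complex.mul_im, Complex.ofReal_re, Complex.ofReal_im,
      Complex.sub_re, Complex.sub_im, ht, sl]
    field_simp
    ring

lemma GNet.ht_ne (h : GNet V E z) {e f : ι × ι} (he : e ∈ DD V E z) (hf : f ∈ DD V E z)
    (hef : e ≠ f) {s : ℝ} (a1 : (z e.1).re < s) (a2 : s < (z e.2).re) (b1 : (z f.1).re ≤ s)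
    (b2 : s ≤ (z f.2).re) : ht z e s ≠ ht z f s := by
  intro hh
  obtain ⟨e1, e2⟩ := h.mem_DD.mp he
  obtain ⟨f1, f2⟩ := h.mem_DD.mp hf
  have m1 := ht_seg e2 a1.le a2.le
  have m2 := ht_seg f2 b1 b2
  rw [← hh] at m2
  rcases h.cross _ _ _ _ e1 f1 (by
    rintro (⟨t1, t2⟩ | ⟨t1, t2⟩)
    · exact hef (Prod.ext t1 t2)
    · rw [t1, t2] at e2; linarith) _ m1 m2 with t | t
  · rw [← t] at a1; exact lt_irrefl _ a1
  · rw [← t] at a2; exact lt_irrefl _ a2

lemma GNet.ht_vertex (h : GNet V E z) {e : ι × ι} (he : e ∈ DD V E z) {v : ι} (hv : v ∈ V)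
    (a1 : (z e.1).re < (z v).re) (a2 : (z v).re < (z e.2).re) : ht z e (z v).re ≠ (z v).im := by
  intro hh
  obtain ⟨e1, e2⟩ := h.mem_DD.mp he
  obtain ⟨w, hw⟩ := h.deg v hv
  have m1 := ht_seg e2 a1.le a2.le
  rw [hh] at m1
  rcases h.cross _ _ _ _ e1 hw (by
    rintro (⟨t1, t2⟩ | ⟨t1, t2⟩)
    · rw [t1] at a1; exact lt_irrefl _ a1
    · rw [t2] at a2; exact lt_irrefl _ a2) (z v) m1 (left_mem_segment ℝ _ _) with t | t
  · rw [← t] at a1; exact lt_irrefl _ a1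
  · rw [← t] at a2; exact lt_irrefl _ a2

lemma sign_pres {g : ℝ → ℝ} (hg : Continuous g) {s t : ℝ} (hn : ∀ u ∈ Set.uIcc s t, g u ≠ 0)
    (hs : g s < 0) : g t < 0 := by
  by_contra hc
  have : (0 : ℝ) ∈ Set.uIcc (g s) (g t) := Set.mem_uIcc.mpr (Or.inl ⟨hs.le, not_lt.mp hc⟩)
  obtain ⟨u, hu, h0⟩ := intermediate_value_uIcc hg.continuousOn this
  exact hn u hu h0

lemma GNet.order_pres (h : GNet V E z) {e f : ι × ι} (he : e ∈ DD V E z) (hf : f ∈ DD V E z)
    (hef : e ≠ f) {s t : ℝ} (a1 : (z e.1).re < s) (a2 : s < (z e.2).re) (b1 : (z f.1).re ≤ s)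
    (b2 : s ≤ (z f.2).re) (c1 : (z e.1).re < t) (c2 : t < (z e.2).re) (d1 : (z f.1).re ≤ t)
    (d2 : t ≤ (z f.2).re) :
    (ht z e s < ht z f s → ht z e t < ht z f t) ∧ (ht z f s < ht z e s → ht z f t < ht z e t) := by
  have hn : ∀ u ∈ Set.uIcc s t, ht z e u ≠ ht z f u := by
    intro u hu
    rcases Set.mem_uIcc.mp hu with ⟨u1, u2⟩ | ⟨u1, u2⟩ <;>
      exact h.ht_ne he hf hef (by linarith) (by linarith) (by linarith) (by linarith)
  constructor
  · intro hh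
    have := sign_pres (g := fun u => ht z e u - ht z f u) (by unfold ht; fun_prop)
      (fun u hu => sub_ne_zero.mpr (hn u hu)) (by linarith)
    linarith
  · intro hh
    have := sign_pres (g := fun u => ht z f u - ht z e u) (by unfold ht; fun_prop)
      (fun u hu => sub_ne_zero.mpr (hn u hu).symm) (by linarith)
    linarith

lemma GNet.ltE_iff (h : GNet V E z) {e f : ι × ι} (he : e ∈ DD V E z) (hf : f ∈ DD V E z)
    {s : ℝ} (a1 : (z e.1).re < s) (a2 : s < (z e.2).re) (b1 : (z f.1).re < s)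
    (b2 : s < (z f.2).re) : ltE z e f ↔ ht z e s < ht z f s := by
  refine ⟨?_, fun t => ⟨s, a1, a2, b1, b2, t⟩⟩
  rintro ⟨t, c1, c2, d1, d2, hh⟩
  have hef : e ≠ f := by rintro rfl; exact lt_irrefl _ hh
  exact (h.order_pres he hf hef c1 c2 d1.le d2.le a1 a2 b1.le b2.le).1 hh

lemma GNet.keyed (h : GNet V E z) {C : Finset (ι × ι)} (hC : C ⊆ DD V E z) {s : ℝ}
    (hs : ∀ e ∈ C, (z e.1).re < s ∧ s < (z e.2).re) : Keyed (ltE z) C := by
  refine ⟨fun e => ht z e s, fun e he f hf t => ?_, fun e he f hf =>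
    h.ltE_iff (hC he) (hC hf) (hs e he).1 (hs e he).2 (hs f hf).1 (hs f hf).2⟩
  by_contra hef
  exact h.ht_ne (hC he) (hC hf) hef (hs e he).1 (hs e he).2 (hs f hf).1.le (hs f hf).2.le t

lemma exists_common {C : Finset (ι × ι)} (hC : ∀ e ∈ C, ∀ f ∈ C, (z e.1).re < (z f.2).re) :
    ∃ s : ℝ, ∀ e ∈ C, (z e.1).re < s ∧ s < (z e.2).re := by
  rcases C.eq_empty_or_nonempty with rfl | hne
  · exact ⟨0, by simp⟩
  obtain ⟨a, ha, a2⟩ := exists_max_image C (fun e => (z e.1).re) hne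
  obtain ⟨b, hb, b2⟩ := exists_min_image C (fun e => (z e.2).re) hne
  have := hC a ha b hb
  exact ⟨((z a.1).re + (z b.2).re) / 2, fun e he =>
    ⟨by linarith [a2 e he], by linarith [b2 e he]⟩⟩

/-- edges arriving from the left -/
def InE (V : Finset ι) (E : ι → ι → Prop) (z : ι → ℂ) (v : ι) : Finset (ι × ι) :=
  (DD V E z).filter (fun e => e.2 = v)

/-- edges leaving to the right -/
def OutE (V : Finset ι) (E : ι → ι → Prop) (z : ι → ℂ) (v : ι) : Finset (ι × ι) :=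
  (DD V E z).filter (fun e => e.1 = v)

/-- edges passing over or under a vertex -/
def Pass (V : Finset ι) (E : ι → ι → Prop) (z : ι → ℂ) (v : ι) : Finset (ι × ι) :=
  (DD V E z).filter (fun e => (z e.1).re < (z v).re ∧ (z v).re < (z e.2).re)

/-- the edge passes over the vertex -/
def upP (z : ι → ℂ) (v : ι) (p : ι × ι) : Prop := (z v).im < ht z p (z v).re

lemma GNet.blk (h : GNet V E z) {v : ι} (hv : v ∈ V) {K : Finset (ι × ι)} (hK : K ⊆ DD V E z)
    (hK2 : ∀ e ∈ K, e.1 = v ∨ e.2 = v)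
    (hc : ∀ e ∈ Pass V E z v ∪ K, ∀ f ∈ Pass V E z v ∪ K, (z e.1).re < (z f.2).re) :
    Blk (ltE z) (Pass V E z v) K (upP z v) := by
  obtain ⟨s, hs⟩ := exists_common hc
  have hsub : Pass V E z v ∪ K ⊆ DD V E z := union_subset (filter_subset _ _) hK
  have hd : ∀ p ∈ Pass V E z v, ∀ e ∈ K, p ≠ e := by
    rintro p hp e he rfl
    obtain ⟨-, p1, p2⟩ := mem_filter.mp hp
    rcases hK2 p he with t | t
    · rw [t] at p1; exact lt_irrefl _ p1
    · rw [t] at p2; exact lt_irrefl _ p2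
  have hk : ∀ e ∈ K, (z e.1).re ≤ (z v).re ∧ (z v).re ≤ (z e.2).re ∧
      ht z e (z v).re = (z v).im := by
    intro e he
    have e2 := (h.mem_DD.mp (hK he)).2
    rcases hK2 e he with t | t
    · rw [← t]; exact ⟨le_rfl, e2.le, ht_left e⟩
    · rw [← t]; exact ⟨e2.le, le_rfl, ht_right e2⟩
  have op : ∀ p ∈ Pass V E z v, ∀ e ∈ K,
      (ht z p (z v).re < (z v).im → ltE z p e) ∧ ((z v).im < ht z p (z v).re → ltE z e p) := by
    intro p hp e he
    obtain ⟨p0, p1, p2⟩ := mem_filter.mp hp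
    obtain ⟨k1, k2, k3⟩ := hk e he
    obtain ⟨s1, s2⟩ := hs p (mem_union_left _ hp)
    obtain ⟨s3, s4⟩ := hs e (mem_union_right _ he)
    have := h.order_pres p0 (hK he) (hd p hp e he) p1 p2 k1 k2 s1 s2 s3.le s4.le
    rw [k3] at this
    exact ⟨fun t => ⟨s, s1, s2, s3, s4, this.1 t⟩, fun t => ⟨s, s3, s4, s1, s2, this.2 t⟩⟩
  refine ⟨disjoint_left.mpr (fun p hp he => hd p hp p he rfl), h.keyed hsub hs,
    fun p hp hu e he => (op p hp e he).2 hu, fun p hp hu e he => (op p hp e he).1 ?_⟩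
  obtain ⟨p0, p1, p2⟩ := mem_filter.mp hp
  exact lt_of_le_of_ne (not_lt.mp hu) (h.ht_vertex p0 hv p1 p2)

lemma GNet.blk_in (h : GNet V E z) {v : ι} (hv : v ∈ V) :
    Blk (ltE z) (Pass V E z v) (InE V E z v) (upP z v) := by
  refine h.blk hv (filter_subset _ _) (fun e he => Or.inr (mem_filter.mp he).2) ?_
  have : ∀ e ∈ Pass V E z v ∪ InE V E z v, (z e.1).re < (z v).re ∧ (z v).re ≤ (z e.2).re := by
    intro e he
    rcases mem_union.mp he with t | t
    · exact ⟨(mem_filter.mp t).2.1, (mem_filter.mp t).2.2.le⟩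
    · obtain ⟨t1, t2⟩ := mem_filter.mp t
      rw [← t2]; exact ⟨(h.mem_DD.mp t1).2, le_rfl⟩
  exact fun e he f hf => (this e he).1.trans_le (this f hf).2

lemma GNet.blk_out (h : GNet V E z) {v : ι} (hv : v ∈ V) :
    Blk (ltE z) (Pass V E z v) (OutE V E z v) (upP z v) := by
  refine h.blk hv (filter_subset _ _) (fun e he => Or.inl (mem_filter.mp he).2) ?_
  have : ∀ e ∈ Pass V E z v ∪ OutE V E z v, (z e.1).re ≤ (z v).re ∧ (z v).re < (z e.2).re := by
    intro e he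
    rcases mem_union.mp he with t | t
    · exact ⟨(mem_filter.mp t).2.1.le, (mem_filter.mp t).2.2⟩
    · obtain ⟨t1, t2⟩ := mem_filter.mp t
      rw [← t2]; exact ⟨le_rfl, (h.mem_DD.mp t1).2⟩
  exact fun e he f hf => (this e he).1.trans_lt (this f hf).2

lemma GNet.cr_in (h : GNet V E z) {v : ι} {e f : ι × ι} (he : e ∈ InE V E z v)
    (hf : f ∈ InE V E z v) (hl : ltE z e f) : cr (tau z e) (tau z f) < 0 := by
  obtain ⟨e1, e2⟩ := mem_filter.mp he
  obtain ⟨f1, f2⟩ := mem_filter.mp hf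
  have e3 := (h.mem_DD.mp e1).2
  have f3 := (h.mem_DD.mp f1).2
  obtain ⟨s, -, a2, -, -, hh⟩ := hl
  rw [ht_sub e s (z e.2).re, ht_sub f s (z f.2).re, ht_right e3, ht_right f3, e2, f2] at hh
  rw [e2] at a2
  rw [cr_tau e3 f3]
  apply mul_neg_of_pos_of_neg (mul_pos (tau_re_pos e3) (tau_re_pos f3))
  by_contra hc
  nlinarith

lemma GNet.cr_out (h : GNet V E z) {v : ι} {e f : ι × ι} (he : e ∈ OutE V E z v)
    (hf : f ∈ OutE V E z v) (hl : ltE z e f) : 0 < cr (tau z e) (tau z f) := by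
  obtain ⟨e1, e2⟩ := mem_filter.mp he
  obtain ⟨f1, f2⟩ := mem_filter.mp hf
  have e3 := (h.mem_DD.mp e1).2
  have f3 := (h.mem_DD.mp f1).2
  obtain ⟨s, a1, -, -, -, hh⟩ := hl
  rw [ht_sub e s (z e.1).re, ht_sub f s (z f.1).re, ht_left e, ht_left f, e2, f2] at hh
  rw [e2] at a1
  rw [cr_tau e3 f3]
  apply mul_pos (mul_pos (tau_re_pos e3) (tau_re_pos f3))
  by_contra hc
  nlinarith

/-- position of a vertex in the left-to-right order -/
def idx (V : Finset ι) (z : ι → ℂ) (v : ι) : ℕ := rk (fun a b => (z a).re < (z b).re) V v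

/-- edges met by the sweep line at time `t` -/
def BB (V : Finset ι) (E : ι → ι → Prop) (z : ι → ℂ) (t : ℕ) : Finset (ι × ι) :=
  (DD V E z).filter (fun e => idx V z e.1 < t ∧ t ≤ idx V z e.2)

lemma GN.keyedV (h : GN V E z) : Keyed (fun a b => (z a).re < (z b).re) V :=
  ⟨fun a => (z a).re, h.gen, fun _ _ _ _ => Iff.rfl⟩

lemma GN.idx_lt (h : GN V E z) {a b : ι} (ha : a ∈ V) (hb : b ∈ V) :
    idx V z a < idx V z b ↔ (z a).re < (z b).re :=
  ⟨h.keyedV.lt_of_rk ha hb, h.keyedV.rk_lt_rk ha hb⟩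

lemma GN.idx_eq (h : GN V E z) {a b : ι} (ha : a ∈ V) (hb : b ∈ V) :
    idx V z a = idx V z b ↔ a = b :=
  ⟨h.keyedV.rk_inj ha hb, fun t => by rw [t]⟩

lemma GNet.DD_mem (h : GNet V E z) {e : ι × ι} (he : e ∈ DD V E z) : e.1 ∈ V ∧ e.2 ∈ V :=
  mem_product.mp (mem_filter.mp he).1

lemma GN.BB_in (h : GN V E z) {v : ι} (hv : v ∈ V) :
    BB V E z (idx V z v) = Pass V E z v ∪ InE V E z v := by
  ext e
  simp only [BB, Pass, InE, mem_union, mem_filter]
  rw [← and_or_left]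
  refine and_congr_right fun he => ?_
  obtain ⟨m1, m2⟩ := h.DD_mem he
  have := (h.idx_lt m1 m2).mpr (h.mem_DD.mp he).2
  rw [← h.idx_lt m1 hv, ← h.idx_lt hv m2, ← h.idx_eq m2 hv]
  omega

lemma GN.BB_out (h : GN V E z) {v : ι} (hv : v ∈ V) :
    BB V E z (idx V z v + 1) = Pass V E z v ∪ OutE V E z v := by
  ext e
  simp only [BB, Pass, OutE, mem_union, mem_filter]
  rw [← and_or_left]
  refine and_congr_right fun he => ?_
  obtain ⟨m1, m2⟩ := h.DD_mem he
  have := (h.idx_lt m1 m2).mpr (h.mem_DD.mp he).2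
  rw [← h.idx_lt m1 hv, ← h.idx_lt hv m2, ← h.idx_eq m1 hv]
  omega

lemma BB_zero : BB V E z 0 = ∅ := by
  unfold BB
  rw [filter_eq_empty_iff]
  intro e _ t
  omega

lemma GN.BB_end (h : GN V E z) : BB V E z V.card = ∅ := by
  unfold BB
  rw [filter_eq_empty_iff]
  intro e he t
  have : idx V z e.2 < V.card := h.keyedV.rk_lt (h.DD_mem he).2
  omega

end

end Pool.Agent.H18.Gro
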