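import Pool.Agent.H18.Gro4

set_option autoImplicit false

namespace Pool.Agent.H18.Gro

open Finset Pool.Agent.H18.Net

noncomputable section
open Classical

variable {ι : Type} {V : Finset ι} {E : ι → ι → Prop} {z : ι → ℂ}

/-- imbalance vector -/
def Imb (V : Finset ι) (E : ι → ι → Prop) (z : ι → ℂ) (v : ι) : ℂ :=
  ∑ w ∈ V.filter (E v), uv (z v) (z w)

/-- degree -/
def dg (V : Finset ι) (E : ι → ι → Prop) (v : ι) : ℕ := (V.filter (E v)).card

/-- total imbalance -/
def TI (V : Finset ι) (E : ι → ι → Prop) (z : ι → ℂ) : ℝ := ∑ v ∈ V, ‖Imb V E z v‖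

lemma TI_nonneg : 0 ≤ TI V E z := sum_nonneg (fun _ _ => norm_nonneg _)

lemma GN.lt_or (h : GN V E z) {v w : ι} (hw : E v w) :
    (z v).re < (z w).re ∨ (z w).re < (z v).re := by
  rcases lt_trichotomy (z v).re (z w).re with t | t | t
  · exact Or.inl t
  · have := h.gen v (h.mem _ _ hw) w (h.mem _ _ (h.symm _ _ hw)) t
    rw [this] at hw
    exact absurd hw (h.irr _)
  · exact Or.inr t

lemma GN.nb_split (h : GN V E z) (v : ι) {M : Type} [AddCommMonoid M] (f : ι → M) :
    ∑ w ∈ V.filter (E v), f w = ∑ e ∈ OutE V E z v, f e.2 + ∑ e ∈ InE V E z v, f e.1 := by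
  rw [← sum_filter_add_sum_filter_not _ (fun w => (z v).re < (z w).re)]
  congr 1
  · symm
    apply sum_bij (fun e _ => e.2)
    · intro e he
      obtain ⟨e1, e2⟩ := mem_filter.mp he
      obtain ⟨e3, e4⟩ := h.mem_DD.mp e1
      rw [e2] at e3 e4
      exact mem_filter.mpr ⟨mem_filter.mpr ⟨(h.DD_mem e1).2, e3⟩, e4⟩
    · intro e he f hf t
      exact Prod.ext ((mem_filter.mp he).2.trans (mem_filter.mp hf).2.symm) t
    · intro w hw
      obtain ⟨w1, w2⟩ := mem_filter.mp hw
      exact ⟨(v, w), mem_filter.mpr ⟨h.mem_DD.mpr ⟨(mem_filter.mp w1).2, w2⟩, rfl⟩, rfl⟩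
    · intro e _; rfl
  · symm
    apply sum_bij (fun e _ => e.1)
    · intro e he
      obtain ⟨e1, e2⟩ := mem_filter.mp he
      obtain ⟨e3, e4⟩ := h.mem_DD.mp e1
      rw [e2] at e3 e4
      exact mem_filter.mpr ⟨mem_filter.mpr ⟨(h.DD_mem e1).1, h.symm _ _ e3⟩, not_lt.mpr e4.le⟩
    · intro e he f hf t
      exact Prod.ext t ((mem_filter.mp he).2.trans (mem_filter.mp hf).2.symm)
    · intro w hw
      obtain ⟨w1, w2⟩ := mem_filter.mp hw
      have w3 := (mem_filter.mp w1).2
      exact ⟨(w, v), mem_filter.mpr ⟨h.mem_DD.mpr ⟨h.symm _ _ w3,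
        (h.lt_or w3).resolve_left w2⟩, rfl⟩, rfl⟩
    · intro e _; rfl

lemma GN.Imb_eq (h : GN V E z) (v : ι) :
    Imb V E z v = ∑ e ∈ OutE V E z v, tau z e - ∑ e ∈ InE V E z v, tau z e := by
  unfold Imb
  rw [h.nb_split, sub_eq_add_neg, ← sum_neg_distrib]
  congr 1
  · exact sum_congr rfl (fun e he => by rw [← (mem_filter.mp he).2]; rfl)
  · exact sum_congr rfl (fun e he => by rw [← (mem_filter.mp he).2, uv_swap]; rfl)

lemma GN.dg_eq (h : GN V E z) (v : ι) :
    dg V E v = (OutE V E z v).card + (InE V E z v).card := by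
  unfold dg
  rw [card_eq_sum_ones, h.nb_split, ← card_eq_sum_ones, ← card_eq_sum_ones]

lemma GN.parts (h : GN V E z) (f : ι → ℂ) :
    ∑ e ∈ DD V E z, (f e.2 - f e.1) * tau z e = - ∑ v ∈ V, f v * Imb V E z v := by
  have a1 : ∑ v ∈ V, f v * ∑ e ∈ OutE V E z v, tau z e = ∑ e ∈ DD V E z, f e.1 * tau z e := by
    rw [← sum_fiberwise_of_maps_to (g := fun e : ι × ι => e.1) (fun e he => (h.DD_mem he).1)]
    apply sum_congr rfl
    intro v _
    rw [mul_sum]
    exact sum_congr rfl (fun e he => by rw [(mem_filter.mp he).2])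
  have a2 : ∑ v ∈ V, f v * ∑ e ∈ InE V E z v, tau z e = ∑ e ∈ DD V E z, f e.2 * tau z e := by
    rw [← sum_fiberwise_of_maps_to (g := fun e : ι × ι => e.2) (fun e he => (h.DD_mem he).2)]
    apply sum_congr rfl
    intro v _
    rw [mul_sum]
    exact sum_congr rfl (fun e he => by rw [(mem_filter.mp he).2])
  simp only [h.Imb_eq, mul_sub, sub_mul, sum_sub_distrib]
  rw [a1, a2]; ring

lemma GN.parts_le (h : GN V E z) (f : ι → ℂ) (hf : ∀ v, ‖f v‖ ≤ 1) :
    ‖∑ e ∈ DD V E z, (f e.2 - f e.1) * tau z e‖ ≤ TI V E z := by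
  rw [h.parts, norm_neg]
  refine (norm_sum_le _ _).trans (sum_le_sum fun v _ => ?_)
  rw [norm_mul]
  exact mul_le_of_le_one_left (norm_nonneg _) (hf v)

lemma uv_dot (c b : ℂ) : (starRingEnd ℂ) (uv c b) * (b - c) = ((‖b - c‖ : ℝ) : ℂ) := by
  by_cases hb : b - c = 0
  · simp [hb]
  have h2 : ((‖b - c‖ : ℝ) : ℂ) ≠ 0 := by exact_mod_cast norm_ne_zero_iff.mpr hb
  unfold uv
  rw [map_div₀, Complex.conj_ofReal, div_mul_eq_mul_div, Complex.conj_mul', div_eq_iff h2]
  ring

lemma uv_dot_le (c b a : ℂ) : ((starRingEnd ℂ) (uv c b) * a).re ≤ ‖a‖ := by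
  refine (Complex.re_le_norm _).trans ?_
  rw [norm_mul, Complex.norm_conj]
  exact mul_le_of_le_one_left (norm_nonneg _) (norm_uv_le _ _)

lemma uv_mono (c a b : ℂ) :
    0 ≤ (((starRingEnd ℂ) (uv c b) - (starRingEnd ℂ) (uv c a)) * uv a b).re := by
  have e : ((starRingEnd ℂ) (uv c b) - (starRingEnd ℂ) (uv c a)) * uv a b =
      ((starRingEnd ℂ) (uv c b) * (b - c) - (starRingEnd ℂ) (uv c b) * (a - c) -
        (starRingEnd ℂ) (uv c a) * (b - c) + (starRingEnd ℂ) (uv c a) * (a - c)) /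
        ((‖b - a‖ : ℝ) : ℂ) := by
    conv_lhs => rw [show uv a b = (b - a) / ((‖b - a‖ : ℝ) : ℂ) from rfl]
    ring
  rw [e, Complex.div_ofReal_re, uv_dot, uv_dot]
  apply div_nonneg _ (norm_nonneg _)
  simp only [Complex.add_re, Complex.sub_re, Complex.ofReal_re]
  linarith [uv_dot_le c b (a - c), uv_dot_le c a (b - c)]

lemma conj_unit {a : ℂ} (h : ‖a‖ = 1) : ((starRingEnd ℂ) a * a).re = 1 := by
  rw [Complex.conj_mul', h]; simp

lemma GN.dg_le (h : GN V E z) (v : ι) : (dg V E v : ℝ) ≤ TI V E z := by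
  have a := h.parts_le (fun w => (starRingEnd ℂ) (uv (z v) (z w)))
    (fun w => by rw [Complex.norm_conj]; exact norm_uv_le _ _)
  refine le_trans ?_ ((Complex.re_le_norm _).trans a)
  have hd : Disjoint (OutE V E z v) (InE V E z v) := by
    rw [disjoint_left]
    intro e h1 h2
    have := (h.mem_DD.mp (mem_filter.mp h1).1).2
    rw [(mem_filter.mp h1).2, (mem_filter.mp h2).2] at this
    exact lt_irrefl _ this
  rw [h.dg_eq, ← card_union_of_disjoint hd, Complex.re_sum, card_eq_sum_ones]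
  push_cast
  refine le_trans (le_of_eq ?_) (sum_le_sum_of_subset_of_nonneg
    (s := OutE V E z v ∪ InE V E z v) (union_subset (filter_subset _ _) (filter_subset _ _))
    (fun e _ _ => uv_mono _ _ _))
  apply sum_congr rfl
  intro e he
  rcases mem_union.mp he with t | t
  · obtain ⟨t1, t2⟩ := mem_filter.mp t
    have := conj_unit (tau_norm (h.mem_DD.mp t1).2)
    rw [← t2, ← this]
    simp [uv, tau]
  · obtain ⟨t1, t2⟩ := mem_filter.mp t
    have := conj_unit (tau_norm (h.mem_DD.mp t1).2)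
    rw [← t2, ← this, uv_swap (z e.1)]
    simp [uv, tau]

/-- edges passing over a vertex -/
def Abv (V : Finset ι) (E : ι → ι → Prop) (z : ι → ℂ) (v : ι) : Finset (ι × ι) :=
  (Pass V E z v).filter (upP z v)

lemma GN.flux0 (h : GN V E z) {v : ι} (hv : v ∈ V) :
    ‖∑ e ∈ Pass V E z v ∪ OutE V E z v, tau z e‖ ≤ TI V E z := by
  have a := h.parts_le (fun w => if (z v).re < (z w).re then 1 else 0)
    (fun w => by split_ifs <;> simp)
  refine le_trans (le_of_eq ?_) a
  congr 1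
  rw [← h.BB_out hv]
  unfold BB
  rw [sum_filter]
  apply sum_congr rfl
  intro e he
  obtain ⟨m1, m2⟩ := h.DD_mem he
  have := (h.idx_lt m1 m2).mpr (h.mem_DD.mp he).2
  simp only [← h.idx_lt hv m1, ← h.idx_lt hv m2]
  split_ifs <;> first | omega | simp

lemma norm_sum_tau (h : GNet V E z) {C : Finset (ι × ι)} (hC : C ⊆ DD V E z) :
    ‖∑ e ∈ C, tau z e‖ ≤ C.card := by
  refine (norm_sum_le _ _).trans (le_of_eq ?_)
  rw [sum_congr rfl (fun e he => tau_norm (h.mem_DD.mp (hC he)).2)]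
  simp

lemma GN.flux_pass (h : GN V E z) {v : ι} (hv : v ∈ V) :
    ‖∑ e ∈ Pass V E z v, tau z e‖ ≤ 2 * TI V E z := by
  have a := h.flux0 hv
  rw [sum_union (h.blk_out hv).disj] at a
  have b := norm_sum_tau h.toGNet (C := OutE V E z v) (filter_subset _ _)
  have c := h.dg_le v
  rw [h.dg_eq] at c
  push_cast at c
  have d := norm_sub_le (∑ e ∈ Pass V E z v, tau z e + ∑ e ∈ OutE V E z v, tau z e)
    (∑ e ∈ OutE V E z v, tau z e)
  rw [add_sub_cancel_right] at d
  have : (0 : ℝ) ≤ (InE V E z v).card := by positivity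
  linarith

lemma GN.flux_re (h : GN V E z) {v : ι} (hv : v ∈ V) :
    |(∑ e ∈ Abv V E z v, tau z e).re| ≤ TI V E z := by
  have a := (Complex.re_le_norm _).trans (h.flux0 hv)
  have hsub : Pass V E z v ∪ OutE V E z v ⊆ DD V E z :=
    union_subset (filter_subset _ _) (filter_subset _ _)
  have hs2 : Abv V E z v ⊆ Pass V E z v ∪ OutE V E z v :=
    (filter_subset _ _).trans subset_union_left
  rw [Complex.re_sum] at a ⊢
  rw [abs_of_nonneg (sum_nonneg fun e he => (tau_re_pos (h.mem_DD.mp (hsub (hs2 he))).2).le)]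
  exact (sum_le_sum_of_subset_of_nonneg hs2
    (fun e he _ => (tau_re_pos (h.mem_DD.mp (hsub he)).2).le)).trans a

lemma tau_up {e : ι × ι} (h : (z e.1).im ≤ (z e.2).im) : 0 ≤ (tau z e).im := by
  unfold tau; rw [uv_im']; exact div_nonneg (by linarith) (norm_nonneg _)

lemma tau_down {e : ι × ι} (h : (z e.2).im ≤ (z e.1).im) : (tau z e).im ≤ 0 := by
  unfold tau; rw [uv_im']; exact div_nonpos_of_nonpos_of_nonneg (by linarith) (norm_nonneg _)

lemma ht_between {e : ι × ι} {s : ℝ} (h1 : (z e.1).re < s) (h2 : s < (z e.2).re) :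
    ((z e.1).im ≤ ht z e s ∧ ht z e s ≤ (z e.2).im) ∨
      ((z e.2).im ≤ ht z e s ∧ ht z e s ≤ (z e.1).im) := by
  have a := ht_sub (z := z) e s (z e.1).re
  have b := ht_sub (z := z) e s (z e.2).re
  rw [ht_left] at a
  rw [ht_right (h1.trans h2)] at b
  rcases le_total 0 (sl z e) with t | t
  · left; constructor <;> nlinarith
  · right; constructor <;> nlinarith

lemma GN.mem_Abv (h : GN V E z) {v : ι} {e : ι × ι} (he : e ∈ DD V E z) : e ∈ Abv V E z v ↔
    ((z e.1).re < (z v).re ∧ (z v).re < (z e.2).re) ∧ (z v).im < ht z e (z v).re := by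
  unfold Abv Pass upP
  rw [mem_filter, mem_filter]
  exact ⟨fun t => ⟨t.1.2, t.2⟩, fun t => ⟨⟨he, t.1⟩, t.2⟩⟩

lemma GN.flux_gen (h : GN V E z) {v : ι} (χ : ι → Prop) (s : ℝ)
    (hh : ∀ e ∈ DD V E z, (if e ∈ Abv V E z v then s * (tau z e).im else 0) ≤
      ((if χ e.2 then 1 else 0) - (if χ e.1 then 1 else 0)) * (tau z e).im) :
    s * (∑ e ∈ Abv V E z v, tau z e).im ≤ TI V E z := by
  have a := (Complex.im_le_norm _).trans (h.parts_le (fun w => if χ w then 1 else 0)
    (fun w => by split_ifs <;> simp))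
  refine le_trans ?_ a
  have hs : Abv V E z v ⊆ DD V E z := (filter_subset _ _).trans (filter_subset _ _)
  rw [Complex.im_sum, Complex.im_sum, mul_sum, ← inter_eq_right.mpr hs, ← sum_ite_mem]
  apply sum_le_sum
  intro e he
  refine (hh e he).trans (le_of_eq ?_)
  split_ifs <;> simp

lemma GN.flux_im (h : GN V E z) {v : ι} (hv : v ∈ V) :
    |(∑ e ∈ Abv V E z v, tau z e).im| ≤ TI V E z := by
  have a := h.flux_gen (v := v) (fun w => (z v).re < (z w).re ∧ (z v).im < (z w).im) 1 (by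
    intro e he
    have e2 := (h.mem_DD.mp he).2
    have g1 := h.gen _ (h.DD_mem he).1 v hv
    simp only [h.mem_Abv he]
    have u := tau_up (z := z) (e := e)
    have d := tau_down (z := z) (e := e)
    split_ifs with c1 c2 c3 c4 c5 c6 c7
    · linarith [c1.1.1, c3.1]
    · linarith
    · linarith [c1.1.1, c4.1]
    · have c2' : (z e.2).im ≤ (z v).im := not_lt.mp (fun t => c2 ⟨c1.1.2, t⟩)
      rcases ht_between c1.1.1 c1.1.2 with t | t
      · linarith [c1.2, t.2]
      · linarith [d (t.1.trans t.2)]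
    · linarith
    · by_cases k : (z v).im < (z e.1).im
      · exfalso
        have k1 : (z e.1).re ≤ (z v).re := not_lt.mp (fun t => c6 ⟨t, k⟩)
        rcases k1.lt_or_eq with k2 | k2
        · apply c1
          refine ⟨⟨k2, c5.1⟩, ?_⟩
          rcases ht_between k2 c5.1 with t | t <;> linarith [t.1, c5.2]
        · rw [g1 k2] at k; exact lt_irrefl _ k
      · linarith [u (by linarith [c5.2])]
    · have c5' : (z e.2).im ≤ (z v).im := not_lt.mp (fun t => c5 ⟨by linarith [c7.1], t⟩)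
      linarith [d (by linarith [c7.2])]
    · linarith)
  have b := h.flux_gen (v := v) (fun w => (z w).re < (z v).re ∧ (z v).im < (z w).im) (-1) (by
    intro e he
    have e2 := (h.mem_DD.mp he).2
    have g2 := h.gen _ (h.DD_mem he).2 v hv
    simp only [h.mem_Abv he]
    have u := tau_up (z := z) (e := e)
    have d := tau_down (z := z) (e := e)
    split_ifs with c1 c2 c3 c4 c5 c6 c7
    · linarith [c1.1.2, c2.1]
    · linarith [c1.1.2, c2.1]
    · linarith
    · have c4' : (z e.1).im ≤ (z v).im := not_lt.mp (fun t => c4 ⟨c1.1.1, t⟩)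
      rcases ht_between c1.1.1 c1.1.2 with t | t
      · linarith [u (t.1.trans t.2)]
      · linarith [c1.2, t.2]
    · linarith
    · have c6' : (z e.1).im ≤ (z v).im := not_lt.mp (fun t => c6 ⟨by linarith [c5.1], t⟩)
      linarith [u (by linarith [c5.2])]
    · by_cases k : (z v).im < (z e.2).im
      · exfalso
        have k1 : (z v).re ≤ (z e.2).re := not_lt.mp (fun t => c5 ⟨t, k⟩)
        rcases k1.lt_or_eq with k2 | k2
        · apply c1
          refine ⟨⟨c7.1, k2⟩, ?_⟩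
          rcases ht_between c7.1 k2 with t | t <;> linarith [t.1, c7.2]
        · rw [g2 k2.symm] at k; exact lt_irrefl _ k
      · linarith [d (by linarith [c7.2])]
    · linarith)
  rw [abs_le]
  constructor <;> linarith

/-- area produced at a vertex -/
def AA (V : Finset ι) (E : ι → ι → Prop) (z : ι → ℂ) (v : ι) : ℝ :=
  Psi (ltE z) (tau z) (OutE V E z v) - Psi (ltE z) (tau z) (InE V E z v)

lemma GN.cross_le (h : GN V E z) {v : ι} (hv : v ∈ V) (X : ℂ) :
    |∑ p ∈ Pass V E z v, (if upP z v p then -1 else 1) * cr (tau z p) X| ≤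
      ‖X‖ * (6 * TI V E z) := by
  have e : ∑ p ∈ Pass V E z v, (if upP z v p then -1 else 1) * cr (tau z p) X =
      2 * cr X (∑ e ∈ Abv V E z v, tau z e) - cr X (∑ e ∈ Pass V E z v, tau z e) := by
    unfold Abv
    rw [cr_sum_right, cr_sum_right, sum_filter, mul_sum, ← sum_sub_distrib]
    apply sum_congr rfl
    intro p _
    rw [cr_anti X]
    split_ifs <;> ring
  have a1 := abs_cr_le X (∑ e ∈ Abv V E z v, tau z e)
  have a2 := abs_cr_le X (∑ e ∈ Pass V E z v, tau z e)
  have b1 := Complex.norm_le_abs_re_add_abs_im (∑ e ∈ Abv V E z v, tau z e)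
  have b2 : ‖∑ e ∈ Abv V E z v, tau z e‖ ≤ 2 * TI V E z := by
    linarith [h.flux_re hv, h.flux_im hv]
  have c1 := mul_le_mul_of_nonneg_left b2 (norm_nonneg X)
  have c2 := mul_le_mul_of_nonneg_left (h.flux_pass hv) (norm_nonneg X)
  rw [e, abs_le]
  rw [abs_le] at a1 a2
  constructor <;> linarith [a1.1, a1.2, a2.1, a2.2]

theorem GN.sum_AA (h : GN V E z) : ∑ v ∈ V, AA V E z v ≤ 6 * TI V E z ^ 2 := by
  have tel := sum_range_sub (fun t => Psi (ltE z) (tau z) (BB V E z t)) V.card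
  rw [h.BB_end, BB_zero, sub_self, h.keyedV.sum_rk] at tel
  have b : ∀ v ∈ V, AA V E z v ≤ (Psi (ltE z) (tau z) (BB V E z (idx V z v + 1)) -
      Psi (ltE z) (tau z) (BB V E z (idx V z v))) + ‖Imb V E z v‖ * (6 * TI V E z) := by
    intro v hv
    rw [h.BB_in hv, h.BB_out hv, (h.blk_in hv).psi, (h.blk_out hv).psi]
    have c := (abs_le.mp (h.cross_le hv (Imb V E z v))).1
    conv_rhs at c => rw [h.Imb_eq]
    simp only [cr_sub_right, mul_sub, sum_sub_distrib] at c
    unfold AA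
    linarith
  refine (sum_le_sum b).trans (le_of_eq ?_)
  rw [sum_add_distrib, ← sum_mul]
  unfold idx
  rw [tel]
  unfold TI
  ring

end

end Pool.Agent.H18.Gro
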