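import Pool.Agent.H18.Gro5

set_option autoImplicit false

namespace Pool.Agent.H18.Gro

open Finset Pool.Agent.H18.Net

noncomputable section
open Classical

variable {ι : Type} {V : Finset ι} {E : ι → ι → Prop} {z : ι → ℂ}

lemma GN.psi_in (h : GN V E z) {v : ι} (hv : v ∈ V) :
    0 ≤ -Psi (ltE z) (tau z) (InE V E z v) ∧ ∀ e ∈ InE V E z v, ∀ f ∈ InE V E z v,
      |cr (tau z e) (tau z f)| ≤ -Psi (ltE z) (tau z) (InE V E z v) := by
  obtain ⟨a1, a2⟩ := Psi_ge (ltE z) (tau z) (B := InE V E z v) (s := -1)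
    (fun e he f hf hl => by linarith [h.cr_in he hf hl])
  have hk : Keyed (ltE z) (InE V E z v) := (h.blk_in hv).key.mono subset_union_right
  refine ⟨by linarith, fun e he f hf => ?_⟩
  rcases hk.tri he hf with t | t | t
  · rw [abs_of_neg (h.cr_in he hf t)]; linarith [a2 e he f hf t]
  · rw [t, cr_self, abs_zero]; linarith
  · rw [cr_anti, abs_neg, abs_of_neg (h.cr_in hf he t)]; linarith [a2 f hf e he t]

lemma GN.psi_out (h : GN V E z) {v : ι} (hv : v ∈ V) :
    0 ≤ Psi (ltE z) (tau z) (OutE V E z v) ∧ ∀ e ∈ OutE V E z v, ∀ f ∈ OutE V E z v,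
      |cr (tau z e) (tau z f)| ≤ Psi (ltE z) (tau z) (OutE V E z v) := by
  obtain ⟨a1, a2⟩ := Psi_ge (ltE z) (tau z) (B := OutE V E z v) (s := 1)
    (fun e he f hf hl => by linarith [h.cr_out he hf hl])
  have hk : Keyed (ltE z) (OutE V E z v) := (h.blk_out hv).key.mono subset_union_right
  refine ⟨by linarith, fun e he f hf => ?_⟩
  rcases hk.tri he hf with t | t | t
  · rw [abs_of_pos (h.cr_out he hf t)]; linarith [a2 e he f hf t]
  · rw [t, cr_self, abs_zero]; linarith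
  · rw [cr_anti, abs_neg, abs_of_pos (h.cr_out hf he t)]; linarith [a2 f hf e he t]

lemma GN.AA_nonneg (h : GN V E z) {v : ι} (hv : v ∈ V) : 0 ≤ AA V E z v := by
  unfold AA
  linarith [(h.psi_in hv).1, (h.psi_out hv).1]

lemma star_abs {ε : Type*} {K K' : Finset ε} {τ : ε → ℂ} {c : ℂ} {A d : ℝ} (hA : 0 ≤ A)
    (h1 : ∀ e ∈ K', 0 ≤ cr (τ e) c) (h2 : ∀ e ∈ K, |cr (τ e) c| ≤ A)
    (hs : ∑ e ∈ K', τ e = ∑ e ∈ K, τ e) (hK : K.Nonempty) (hd : (K.card : ℝ) ≤ d) :
    (∀ e ∈ K, |cr (τ e) c| ≤ d * A) ∧ ∀ e ∈ K', |cr (τ e) c| ≤ d * A := by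
  have h3 : (1 : ℝ) ≤ K.card := by exact_mod_cast card_pos.mpr hK
  refine ⟨fun e he => (h2 e he).trans (by nlinarith), fun e he => ?_⟩
  rw [abs_of_nonneg (h1 e he)]
  have a1 := single_le_sum h1 he
  have a2 : ∑ e ∈ K', cr (τ e) c = ∑ e ∈ K, cr (τ e) c := by
    have := congrArg (cr c) hs
    rw [cr_sum_right, cr_sum_right] at this
    simp only [cr_anti c, sum_neg_distrib, this]
  have a3 : ∑ e ∈ K, cr (τ e) c ≤ ∑ e ∈ K, A :=
    sum_le_sum (fun e he => (le_abs_self _).trans (h2 e he))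
  rw [sum_const, nsmul_eq_mul] at a3
  nlinarith

lemma GN.nb_cases (h : GN V E z) {v w : ι} (hw : E v w) :
    ((v, w) ∈ OutE V E z v ∧ uv (z v) (z w) = tau z (v, w)) ∨
      ((w, v) ∈ InE V E z v ∧ uv (z v) (z w) = -tau z (w, v)) := by
  rcases h.lt_or hw with t | t
  · exact Or.inl ⟨mem_filter.mpr ⟨h.mem_DD.mpr ⟨hw, t⟩, rfl⟩, rfl⟩
  · exact Or.inr ⟨mem_filter.mpr ⟨h.mem_DD.mpr ⟨h.symm _ _ hw, t⟩, rfl⟩, uv_swap _ _⟩

lemma cr_neg_left (a b : ℂ) : cr (-a) b = -cr a b := by simp [cr]; ring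
lemma cr_neg_right (a b : ℂ) : cr a (-b) = -cr a b := by simp [cr]; ring

theorem GN.star1 (h : GN V E z) {v : ι} (hv : v ∈ V) (hb : Imb V E z v = 0) :
    ∃ c : ℂ, ‖c‖ = 1 ∧ ∀ w, E v w → |cr (uv (z v) (z w)) c| ≤ TI V E z * AA V E z v := by
  have hne : (OutE V E z v ∪ InE V E z v).Nonempty := by
    obtain ⟨w, hw⟩ := h.deg v hv
    rcases h.nb_cases hw with t | t
    · exact ⟨_, mem_union_left _ t.1⟩
    · exact ⟨_, mem_union_right _ t.1⟩
  have hsub : OutE V E z v ∪ InE V E z v ⊆ DD V E z :=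
    union_subset (filter_subset _ _) (filter_subset _ _)
  obtain ⟨m, hm, m2⟩ := exists_max_image _ (sl z) hne
  have m3 := (h.mem_DD.mp (hsub hm)).2
  have pos : ∀ e ∈ OutE V E z v ∪ InE V E z v, 0 ≤ cr (tau z e) (tau z m) := by
    intro e he
    have e3 := (h.mem_DD.mp (hsub he)).2
    rw [cr_tau e3 m3]
    exact mul_nonneg (mul_pos (tau_re_pos e3) (tau_re_pos m3)).le (by linarith [m2 e he])
  have hs : ∑ e ∈ OutE V E z v, tau z e = ∑ e ∈ InE V E z v, tau z e := by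
    rw [← sub_eq_zero, ← h.Imb_eq, hb]
  have hd := h.dg_le v
  rw [h.dg_eq] at hd
  push_cast at hd
  have n1 : (0 : ℝ) ≤ (InE V E z v).card := by positivity
  have n2 : (0 : ℝ) ≤ (OutE V E z v).card := by positivity
  obtain ⟨i1, i2⟩ := h.psi_in hv
  obtain ⟨o1, o2⟩ := h.psi_out hv
  have key : (∀ e ∈ OutE V E z v, |cr (tau z e) (tau z m)| ≤ TI V E z * AA V E z v) ∧
      ∀ e ∈ InE V E z v, |cr (tau z e) (tau z m)| ≤ TI V E z * AA V E z v := by
    rcases mem_union.mp hm with t | t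
    · exact star_abs (h.AA_nonneg hv) (fun e he => pos e (mem_union_right _ he))
        (fun e he => (o2 e he m t).trans (by unfold AA; linarith)) hs.symm ⟨m, t⟩ (by linarith)
    · exact (star_abs (h.AA_nonneg hv) (fun e he => pos e (mem_union_left _ he))
        (fun e he => (i2 e he m t).trans (by unfold AA; linarith)) hs ⟨m, t⟩ (by linarith)).symm
  refine ⟨tau z m, tau_norm m3, fun w hw => ?_⟩
  rcases h.nb_cases hw with t | t
  · rw [t.2]; exact key.1 _ t.1
  · rw [t.2, cr_neg_left, abs_neg]; exact key.2 _ t.1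

/-- dot product -/
def dt (a b : ℂ) : ℝ := a.re * b.re + a.im * b.im

lemma unit_sq {a : ℂ} (h : ‖a‖ = 1) : a.re * a.re + a.im * a.im = 1 := by
  have s1 := Complex.sq_norm a
  rw [h, Complex.normSq_apply] at s1
  linarith

lemma dt_cr {a b : ℂ} (ha : ‖a‖ = 1) (hb : ‖b‖ = 1) : dt a b ^ 2 + cr a b ^ 2 = 1 := by
  have e : dt a b ^ 2 + cr a b ^ 2 = (a.re * a.re + a.im * a.im) * (b.re * b.re + b.im * b.im) := by
    unfold dt cr; ring
  rw [e, unit_sq ha, unit_sq hb]; ring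

lemma dt_ge {τ c : ℂ} {η : ℝ} (hτ : ‖τ‖ = 1) (hc : ‖c‖ = 1) (hre : 0 < τ.re)
    (h : |cr τ c| ≤ η) (h1 : η ≤ 1 / 2) (h2 : 2 * η < c.re) :
    1 - η ^ 2 ≤ dt τ c ∧ dt τ c ≤ 1 := by
  have s := dt_cr hτ hc
  have e : τ.re = dt τ c * c.re + cr τ c * c.im := by
    have := unit_sq hc
    unfold dt cr
    linear_combination (-τ.re) * this
  have h0 : 0 ≤ η := (abs_nonneg _).trans h
  have b2 : cr τ c ^ 2 ≤ η ^ 2 := sq_le_sq' (abs_le.mp h).1 (abs_le.mp h).2
  have b3 : cr τ c * c.im ≤ η := by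
    have t1 : |c.im| ≤ 1 := hc ▸ Complex.abs_im_le_norm c
    have t2 := le_abs_self (cr τ c * c.im)
    rw [abs_mul] at t2
    nlinarith [abs_nonneg (cr τ c), abs_nonneg c.im]
  set a := dt τ c
  have a1 : a ≤ 1 := by nlinarith [sq_nonneg (cr τ c)]
  have a0 : 0 < a := by
    by_contra hn
    have hn := not_lt.mp hn
    have : a ≤ -1 / 2 := by nlinarith
    nlinarith
  exact ⟨by nlinarith, a1⟩

lemma chord_le {a b c : ℂ} {η : ℝ} (ha : ‖a‖ = 1) (hb : ‖b‖ = 1) (hc : ‖c‖ = 1)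
    (h1 : η ≤ 1 / 2) (a1 : |cr a c| ≤ η) (b1 : |cr b c| ≤ η) (a2 : 1 - η ^ 2 ≤ dt a c)
    (b2 : 1 - η ^ 2 ≤ dt b c) : ‖a - b‖ ≤ 2 * |cr a b| := by
  have h0 : 0 ≤ η := (abs_nonneg _).trans a1
  have e : dt a b = dt a c * dt b c + cr a c * cr b c := by
    have := unit_sq hc
    unfold dt cr
    linear_combination (-(a.re * b.re + a.im * b.im)) * this
  have t1 : -(1 / 4) ≤ cr a c * cr b c := by
    have t2 := neg_abs_le (cr a c * cr b c)
    rw [abs_mul] at t2
    nlinarith [abs_nonneg (cr a c), abs_nonneg (cr b c)]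
  have t2 : 3 / 4 ≤ dt a c := by nlinarith
  have t3 : 3 / 4 ≤ dt b c := by nlinarith
  have t4 : 0 ≤ dt a b := by nlinarith
  have s := dt_cr ha hb
  have n : ‖a - b‖ ^ 2 = 2 - 2 * dt a b := by
    rw [Complex.sq_norm, Complex.normSq_apply]
    simp only [Complex.sub_re, Complex.sub_im, dt]
    linarith [unit_sq ha, unit_sq hb]
  have t5 : dt a b ≤ 1 := by nlinarith [sq_nonneg (cr a b)]
  rw [← pow_le_pow_iff_left₀ (norm_nonneg _) (by positivity) two_ne_zero, n, mul_pow, sq_abs]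
  nlinarith

lemma card_le_of_dt {ε : Type*} {K K' : Finset ε} {τ : ε → ℂ} {c : ℂ} {η : ℝ}
    (h1 : ∀ e ∈ K, 1 - η ^ 2 ≤ dt (τ e) c) (h2 : ∀ e ∈ K', dt (τ e) c ≤ 1)
    (hs : ∑ e ∈ K, τ e = ∑ e ∈ K', τ e) (hd : K.card * η ^ 2 < 1) : K.card ≤ K'.card := by
  have e : ∀ C : Finset ε, ∑ e ∈ C, dt (τ e) c = dt (∑ e ∈ C, τ e) c := by
    intro C
    unfold dt
    rw [Complex.re_sum, Complex.im_sum, sum_mul, sum_mul, sum_add_distrib]
  have a1 := sum_le_sum h1
  have a2 := sum_le_sum h2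
  rw [e, sum_const, nsmul_eq_mul] at a1 a2
  rw [hs] at a1
  have : (K.card : ℝ) < K'.card + 1 := by linarith
  have : K.card < K'.card + 1 := by exact_mod_cast this
  omega

/-- a vertex at which the sweep sees a collision of particles -/
def Good (V : Finset ι) (E : ι → ι → Prop) (z : ι → ℂ) (v : ι) : Prop :=
  Imb V E z v = 0 ∧ (OutE V E z v).card = (InE V E z v).card ∧
    ∀ e ∈ OutE V E z v ∪ InE V E z v, ∀ f ∈ OutE V E z v ∪ InE V E z v,
      ‖tau z e - tau z f‖ ≤ 2 * |cr (tau z e) (tau z f)|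

theorem GN.star2 (h : GN V E z) {v : ι} (hb : Imb V E z v = 0) {c : ℂ} {η : ℝ} (hc : ‖c‖ = 1)
    (hw : ∀ w, E v w → |cr (uv (z v) (z w)) c| ≤ η) (h1 : η ≤ 1 / 2)
    (h2 : TI V E z * η ^ 2 < 1) (h3 : 2 * η < |c.re|) : Good V E z v := by
  wlog hp : 0 ≤ c.re generalizing c
  · refine this (c := -c) (by simpa using hc) (fun w t => ?_) (by simpa using h3)
      (by simp only [Complex.neg_re]; linarith)
    rw [cr_neg_right, abs_neg]; exact hw w t
  rw [abs_of_nonneg hp] at h3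
  have hsub : OutE V E z v ∪ InE V E z v ⊆ DD V E z :=
    union_subset (filter_subset _ _) (filter_subset _ _)
  have a : ∀ e ∈ OutE V E z v ∪ InE V E z v, |cr (tau z e) c| ≤ η := by
    intro e he
    have e1 := (h.mem_DD.mp (hsub he)).1
    rcases mem_union.mp he with t | t
    · have t2 := (mem_filter.mp t).2
      have := hw e.2 (t2 ▸ e1)
      rw [← t2] at this; exact this
    · have t2 := (mem_filter.mp t).2
      have := hw e.1 (t2 ▸ h.symm _ _ e1)
      rw [← t2, uv_swap, cr_neg_left, abs_neg] at this; exact this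
  have b : ∀ e ∈ OutE V E z v ∪ InE V E z v, 1 - η ^ 2 ≤ dt (tau z e) c ∧ dt (tau z e) c ≤ 1 := by
    intro e he
    have e2 := (h.mem_DD.mp (hsub he)).2
    exact dt_ge (tau_norm e2) hc (tau_re_pos e2) (a e he) h1 h3
  have hs : ∑ e ∈ OutE V E z v, tau z e = ∑ e ∈ InE V E z v, tau z e := by
    rw [← sub_eq_zero, ← h.Imb_eq, hb]
  have hd := h.dg_le v
  rw [h.dg_eq] at hd
  push_cast at hd
  have n1 : (0 : ℝ) ≤ (InE V E z v).card := by positivity
  have n2 : (0 : ℝ) ≤ (OutE V E z v).card := by positivity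
  refine ⟨hb, le_antisymm ?_ ?_, fun e he f hf => ?_⟩
  · exact card_le_of_dt (fun e he => (b e (mem_union_left _ he)).1)
      (fun e he => (b e (mem_union_right _ he)).2) hs
      ((mul_le_mul_of_nonneg_right (by linarith) (sq_nonneg η)).trans_lt h2)
  · exact card_le_of_dt (fun e he => (b e (mem_union_right _ he)).1)
      (fun e he => (b e (mem_union_left _ he)).2) hs.symm
      ((mul_le_mul_of_nonneg_right (by linarith) (sq_nonneg η)).trans_lt h2)
  · exact chord_le (tau_norm (h.mem_DD.mp (hsub he)).2) (tau_norm (h.mem_DD.mp (hsub hf)).2)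
      hc h1 (a e he) (a f hf) (b e he).1 (b f hf).1

lemma GN.keyedB (h : GN V E z) (t : ℕ) : Keyed (ltE z) (BB V E z t) := by
  obtain ⟨s, hs⟩ := exists_common (z := z) (C := BB V E z t) (fun e he f hf => by
    obtain ⟨e1, e2⟩ := mem_filter.mp he
    obtain ⟨f1, f2⟩ := mem_filter.mp hf
    rw [← h.idx_lt (h.DD_mem e1).1 (h.DD_mem f1).2]
    omega)
  exact h.keyed (filter_subset _ _) hs

lemma GN.cnt_idx (h : GN V E z) (W : ι → Prop) (W' : ℕ → Prop)
    (hW : ∀ v ∈ V, W' (idx V z v) ↔ W v) : cnt W' 0 V.card = (V.filter W).card := by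
  unfold cnt
  rw [← range_eq_Ico, card_filter, card_filter, h.keyedV.sum_rk]
  exact sum_congr rfl (fun v hv => if_congr (hW v hv) rfl rfl)

theorem sweep2 (d K : ℕ) : ∃ b : ℕ, ∀ (ι : Type) (V : Finset ι) (E : ι → ι → Prop) (z : ι → ℂ),
    GN V E z → (∀ v ∈ V, Imb V E z v = 0 → 3 ≤ dg V E v) → TI V E z ≤ d →
    (V.filter (fun v => ¬ Good V E z v)).card ≤ K → V.card ≤ b := by
  obtain ⟨g, hg⟩ := particles2 (d * K)
  refine ⟨(K + 1) * g + K, fun ι V E z h h3 hd hK => ?_⟩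
  set gT : ℕ → Prop := fun t => ∃ v ∈ V, idx V z v = t ∧ Good V E z v with hgT
  have gi : ∀ v ∈ V, gT (idx V z v) ↔ Good V E z v := by
    intro v hv
    refine ⟨?_, fun t => ⟨v, hv, rfl, t⟩⟩
    rintro ⟨w, hw, t1, t2⟩
    rw [← (h.idx_eq hw hv).mp t1]; exact t2
  have c1 := h.cnt_idx (Good V E z) gT gi
  have c2 := h.cnt_idx (fun v => ¬ Good V E z v) (fun t => ¬ gT t)
    (fun v hv => not_congr (gi v hv))
  have st : ∀ t, ∃ l r : ℕ, gT t → (BB V E z (t + 1)).card = (BB V E z t).card ∧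
      Step (LL (ltE z) (tau z) (BB V E z t)) (LL (ltE z) (tau z) (BB V E z (t + 1))) l r ∧
      r < (BB V E z t).card := by
    intro t
    by_cases ht : gT t
    · obtain ⟨v, hv, rfl, g1, g2, g3⟩ := ht
      have d3 := h3 v hv g1
      rw [h.dg_eq] at d3
      have := (h.blk_in hv).step (h.blk_out hv) (tau z) g2 (by omega)
        (by rw [← sub_eq_zero, ← h.Imb_eq, g1])
        (fun e he f hf hl => ⟨h.cr_in he hf hl,
          g3 e (mem_union_right _ he) f (mem_union_right _ hf)⟩)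
        (fun e he f hf hl => ⟨h.cr_out he hf hl,
          g3 e (mem_union_left _ he) f (mem_union_left _ hf)⟩)
      rw [← h.BB_in hv, ← h.BB_out hv] at this
      exact ⟨_, _, fun _ => this⟩
    · exact ⟨0, 0, fun t => absurd t ht⟩
  choose l r hlr using st
  have sz : ∀ t, t ≤ V.card → (BB V E z t).card ≤ d * cnt (fun t => ¬ gT t) 0 t := by
    intro t
    induction t with
    | zero => intro _; rw [BB_zero]; simp
    | succ t ih =>
      intro ht
      have ih := ih (by omega)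
      rw [cnt_add _ (Nat.zero_le t) (Nat.le_succ t), cnt_one]
      by_cases hg : gT t
      · rw [(hlr t hg).1, if_neg (not_not.mpr hg)]; exact ih
      · rw [if_pos hg]
        obtain ⟨v, hv, rfl⟩ := h.keyedV.rk_surj (j := t) (by omega)
        have e1 := h.BB_in hv
        have e2 := h.BB_out hv
        unfold idx at e1 e2
        rw [e1, card_union_of_disjoint (h.blk_in hv).disj] at ih
        rw [e2, card_union_of_disjoint (h.blk_out hv).disj]
        have d1 : dg V E v ≤ d := by exact_mod_cast (h.dg_le v).trans hd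
        rw [h.dg_eq] at d1
        rw [mul_add]
        omega
  have hK' : cnt (fun t => ¬ gT t) 0 V.card ≤ K := by
    rw [c2]; convert hK
  have main := hg (fun t => LL (ltE z) (tau z) (BB V E z t)) l r (fun t => (BB V E z t).card) gT
    V.card (fun t ht => (sz t ht).trans (Nat.mul_le_mul_left _ (by
      have := cnt_add (fun t => ¬ gT t) (Nat.zero_le t) ht
      omega)))
    (fun t _ j hj => by
      obtain ⟨e, he, rfl⟩ := (h.keyedB t).rk_surj hj
      rw [(h.keyedB t).LL_rk _ he]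
      exact tau_norm (h.mem_DD.mp (filter_subset _ _ he)).2)
    (fun t _ ht => hlr t ht)
  have tot := card_filter_add_card_filter_not (s := V) (Good V E z)
  have := Nat.mul_le_mul_right g (Nat.add_le_add_right hK' 1)
  omega

end

end Pool.Agent.H18.Gro
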