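import Pool.Agent.H18.Gro6

set_option autoImplicit false

namespace Pool.Agent.H18.Gro

open Finset Pool.Agent.H18.Net

noncomputable section
open Classical

variable {ι : Type} {V : Finset ι} {E : ι → ι → Prop} {z : ι → ℂ}

lemma uv_rot {ω : ℂ} (h : ‖ω‖ = 1) (a b : ℂ) : uv (ω * a) (ω * b) = ω * uv a b := by
  unfold uv
  rw [← mul_sub, norm_mul, h, one_mul, mul_div_assoc]

lemma cr_rot {ω : ℂ} (h : ‖ω‖ = 1) (a b : ℂ) : cr (ω * a) (ω * b) = cr a b := by
  have := unit_sq h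
  simp only [cr, Complex.mul_re, Complex.mul_im]
  linear_combination (a.re * b.im - a.im * b.re) * this

lemma seg_rot {ω : ℂ} (h : ω ≠ 0) {a b x : ℂ} (hx : x ∈ segment ℝ (ω * a) (ω * b)) :
    x / ω ∈ segment ℝ a b := by
  obtain ⟨t, t0, t1, rfl⟩ := mem_seg.mp hx
  exact mem_seg.mpr ⟨t, t0, t1, by field_simp⟩

lemma GNet.rot (h : GNet V E z) {ω : ℂ} (hω : ‖ω‖ = 1) : GNet V E (fun a => ω * z a) := by
  have h0 : ω ≠ 0 := by rintro rfl; simp at hω
  refine ⟨h.symm, h.irr, h.mem, fun a b c d h1 h2 h3 x x1 x2 => ?_, h.deg⟩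
  rcases h.cross a b c d h1 h2 h3 _ (seg_rot h0 x1) (seg_rot h0 x2) with t | t
  · left; rw [← t]; field_simp
  · right; rw [← t]; field_simp

lemma Imb_rot {ω : ℂ} (hω : ‖ω‖ = 1) (v : ι) :
    Imb V E (fun a => ω * z a) v = ω * Imb V E z v := by
  unfold Imb
  rw [mul_sum]
  exact sum_congr rfl (fun w _ => uv_rot hω _ _)

lemma Imb_rot_zero {ω : ℂ} (hω : ‖ω‖ = 1) (v : ι) :
    Imb V E (fun a => ω * z a) v = 0 ↔ Imb V E z v = 0 := by
  have h0 : ω ≠ 0 := by rintro rfl; simp at hω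
  rw [Imb_rot hω, mul_eq_zero, or_iff_right h0]

lemma TI_rot {ω : ℂ} (hω : ‖ω‖ = 1) : TI V E (fun a => ω * z a) = TI V E z := by
  unfold TI
  exact sum_congr rfl (fun v _ => by rw [Imb_rot hω, norm_mul, hω, one_mul])

/-- a family of rotations -/
def om (b : ℝ) : ℂ := uv 0 ⟨1, b⟩

lemma om_ne (b : ℝ) : (0 : ℂ) ≠ ⟨1, b⟩ := by
  intro t
  have := congrArg Complex.re t
  simp at this

lemma om_norm (b : ℝ) : ‖om b‖ = 1 := norm_uv (om_ne b)

lemma om_re (b : ℝ) (c : ℂ) : (om b * c).re * ‖(⟨1, b⟩ : ℂ)‖ = c.re - b * c.im := by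
  have : ‖(⟨1, b⟩ : ℂ)‖ ≠ 0 := norm_ne_zero_iff.mpr (om_ne b).symm
  rw [Complex.mul_re]
  unfold om
  rw [uv_re', uv_im']
  simp only [sub_zero, Complex.zero_re, Complex.zero_im]
  field_simp

lemma om_le {b : ℝ} (h0 : 0 ≤ b) (h1 : b ≤ 1) : ‖(⟨1, b⟩ : ℂ)‖ ≤ 3 / 2 := by
  rw [← pow_le_pow_iff_left₀ (norm_nonneg _) (by positivity) two_ne_zero, Complex.sq_norm,
    Complex.normSq_apply]
  simp only
  nlinarith

/-- generic rotations -/
def Gen (V : Finset ι) (z : ι → ℂ) (M : ℕ) : Finset ℕ :=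
  (range M).filter (fun k => ∀ a ∈ V, ∀ b ∈ V,
    (om ((k : ℝ) / M) * z a).re = (om ((k : ℝ) / M) * z b).re → a = b)

lemma Gen_card (hinj : ∀ a ∈ V, ∀ b ∈ V, z a = z b → a = b) (M : ℕ) :
    M ≤ (Gen V z M).card + V.card ^ 2 := by
  have e := card_filter_add_card_filter_not (s := range M) (fun k : ℕ => ∀ a ∈ V, ∀ b ∈ V,
    (om ((k : ℝ) / M) * z a).re = (om ((k : ℝ) / M) * z b).re → a = b)
  rw [card_range] at e
  have b : ((range M).filter (fun k : ℕ => ¬ ∀ a ∈ V, ∀ b ∈ V,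
      (om ((k : ℝ) / M) * z a).re = (om ((k : ℝ) / M) * z b).re → a = b)).card ≤ V.card ^ 2 := by
    rw [sq, ← card_product]
    refine le_trans (card_le_card ?_) (card_image_le (f := fun p : ι × ι =>
      ⌊(M : ℝ) * (((z p.1).re - (z p.2).re) / ((z p.1).im - (z p.2).im))⌋₊))
    intro k hk
    obtain ⟨k1, k2⟩ := mem_filter.mp hk
    have hM : (0 : ℝ) < M := by
      have := mem_range.mp k1
      exact_mod_cast (by omega : 0 < M)
    simp only [not_forall] at k2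
    obtain ⟨a, ha, b, hb, t1, t2⟩ := k2
    have u1 := om_re ((k : ℝ) / M) (z a)
    have u2 := om_re ((k : ℝ) / M) (z b)
    rw [t1, u2] at u1
    have ne : (z a).im - (z b).im ≠ 0 := by
      intro t
      apply t2
      apply hinj a ha b hb
      have t3 : (z a).im = (z b).im := by linarith
      rw [t3] at u1
      exact Complex.ext (by linarith) t3
    refine mem_image.mpr ⟨(a, b), mem_product.mpr ⟨ha, hb⟩, ?_⟩
    have : (M : ℝ) * (((z a).re - (z b).re) / ((z a).im - (z b).im)) = k := by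
      have t4 : (z a).re - (z b).re = (k : ℝ) / M * ((z a).im - (z b).im) := by linarith
      rw [t4]; field_simp
    simp only [this, Nat.floor_natCast]
  unfold Gen
  omega

lemma GNet.gen_rot (h : GNet V E z) {M k : ℕ} (hk : k ∈ Gen V z M) :
    GN V E (fun a => om ((k : ℝ) / M) * z a) :=
  ⟨h.rot (om_norm _), (mem_filter.mp hk).2⟩

lemma card_le_of_diam (S : Finset ℕ) {x : ℝ} (hx : 0 ≤ x) (h : ∀ a ∈ S, ∀ b ∈ S, (a : ℝ) - b ≤ x) :
    (S.card : ℝ) ≤ x + 1 := by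
  rcases S.eq_empty_or_nonempty with rfl | hne
  · simp; linarith
  have : S ⊆ Icc (S.min' hne) (S.min' hne + ⌊x⌋₊) := by
    intro a ha
    have t1 := S.min'_le a ha
    have t2 := h a ha _ (S.min'_mem hne)
    have t3 : a - S.min' hne ≤ ⌊x⌋₊ := Nat.le_floor (by rw [Nat.cast_sub t1]; exact t2)
    rw [mem_Icc]; omega
  have c := card_le_card this
  rw [Nat.card_Icc] at c
  have c2 : S.card ≤ ⌊x⌋₊ + 1 := by omega
  have c3 : (S.card : ℝ) ≤ ⌊x⌋₊ + 1 := by exact_mod_cast c2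
  linarith [Nat.floor_le hx]

lemma two_bad {c : ℂ} (hc : ‖c‖ = 1) {η b1 b2 : ℝ} (hη : η ≤ 1 / 6) (a0 : 0 ≤ b1) (a1 : b1 ≤ 1)
    (h1 : |c.re - b1 * c.im| ≤ 3 * η) (h2 : |c.re - b2 * c.im| ≤ 3 * η) : b1 - b2 ≤ 24 * η := by
  have h0 : 0 ≤ η := by linarith [abs_nonneg (c.re - b1 * c.im)]
  have n1 := Complex.norm_le_abs_re_add_abs_im c
  have n2 : |c.re| ≤ |c.re - b1 * c.im| + |b1 * c.im| := by
    have := abs_add_le (c.re - b1 * c.im) (b1 * c.im)
    rwa [sub_add_cancel] at this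
  rw [abs_mul, abs_of_nonneg a0] at n2
  have n3 : 1 / 4 ≤ |c.im| := by nlinarith [abs_nonneg c.im]
  have n4 : |(b1 - b2) * c.im| ≤ 6 * η := by
    have e : (b1 - b2) * c.im = (c.re - b2 * c.im) - (c.re - b1 * c.im) := by ring
    rw [e]
    linarith [abs_sub (c.re - b2 * c.im) (c.re - b1 * c.im)]
  rw [abs_mul] at n4
  nlinarith [le_abs_self (b1 - b2), abs_nonneg (b1 - b2)]

lemma GNet.bad_card (h : GNet V E z) {v : ι} (hb : Imb V E z v = 0) {c : ℂ} {η : ℝ} {d : ℕ}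
    (hc : ‖c‖ = 1) (h0 : 0 ≤ η) (hw : ∀ w, E v w → |cr (uv (z v) (z w)) c| ≤ η)
    (hd : TI V E z ≤ d) (M : ℕ) :
    (((Gen V z M).filter (fun k : ℕ => ¬ Good V E (fun a => om ((k : ℝ) / M) * z a) v)).card : ℝ) ≤
      24 * (d + 1) * η * M + 1 := by
  apply card_le_of_diam _ (by positivity)
  intro k1 hk1 k2 hk2
  have hd0 : (0 : ℝ) ≤ d := by positivity
  have r : ∀ k ∈ Gen V z M, (k : ℝ) < M := fun k hk => by
    exact_mod_cast mem_range.mp (mem_filter.mp hk).1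
  have r1 := r k1 (mem_filter.mp hk1).1
  have p1 : (0 : ℝ) ≤ k1 := by positivity
  have p2 : (0 : ℝ) ≤ k2 := by positivity
  have hM : (0 : ℝ) < M := by linarith
  by_cases hs : 6 * (d + 1) * η ≤ 1
  · have s1 : η ≤ 1 / 6 := by nlinarith
    have key : ∀ k ∈ (Gen V z M).filter
        (fun k : ℕ => ¬ Good V E (fun a => om ((k : ℝ) / M) * z a) v),
        |c.re - (k : ℝ) / M * c.im| ≤ 3 * η := by
      intro k hk
      obtain ⟨g1, g2⟩ := mem_filter.mp hk
      have t : |(om ((k : ℝ) / M) * c).re| ≤ 2 * η := by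
        by_contra hn
        refine g2 ((h.gen_rot g1).star2 ((Imb_rot_zero (om_norm _) v).mpr hb)
          (c := om ((k : ℝ) / M) * c) (η := η) (by rw [norm_mul, om_norm, hc, one_mul])
          (fun w t => ?_) (by linarith) ?_ (not_le.mp hn))
        · rw [uv_rot (om_norm _), cr_rot (om_norm _)]; exact hw w t
        · rw [TI_rot (om_norm _)]
          have t1 : TI V E z * η ^ 2 ≤ d * η ^ 2 := mul_le_mul_of_nonneg_right hd (sq_nonneg _)
          have t2 : d * η ≤ 1 / 6 := by nlinarith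
          nlinarith
      have l := om_le (b := (k : ℝ) / M) (by positivity) ((div_le_one hM).mpr (r k g1).le)
      rw [← om_re, abs_mul, abs_norm]
      nlinarith [abs_nonneg (om ((k : ℝ) / M) * c).re, norm_nonneg (⟨1, (k : ℝ) / M⟩ : ℂ)]
    have := two_bad hc s1 (by positivity) ((div_le_one hM).mpr r1.le) (key k1 hk1) (key k2 hk2)
    rw [← sub_div, div_le_iff₀ hM] at this
    have t : 0 ≤ d * η * M := by positivity
    nlinarith
  · have : 1 * (M : ℝ) ≤ 24 * (d + 1) * η * M := mul_le_mul_of_nonneg_right (by linarith) hM.le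
    linarith

theorem GN.exists_dir (h : GN V E z) {d : ℕ} (hd : TI V E z ≤ d) :
    ∃ ω : ℂ, ‖ω‖ = 1 ∧ GN V E (fun a => ω * z a) ∧
      ((V.filter (fun v => Imb V E z v = 0)).filter
        (fun v => ¬ Good V E (fun a => ω * z a) v)).card ≤ 288 * (d + 1) * d ^ 3 + 1 := by
  set N := V.card with hN
  set M := 2 * N ^ 2 + 2 with hM
  set Vb := V.filter (fun v => Imb V E z v = 0) with hVb
  have gc := Gen_card (V := V) (z := z) (fun a ha b hb t => h.gen a ha b hb (by rw [t])) M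
  rw [← hN] at gc
  have gc2 : N ^ 2 + 2 ≤ (Gen V z M).card := by omega
  have T0 := TI_nonneg (V := V) (E := E) (z := z)
  have s1 : ∑ k ∈ Gen V z M,
      ((Vb.filter (fun v => ¬ Good V E (fun a => om ((k : ℝ) / M) * z a) v)).card : ℝ) =
      ∑ v ∈ Vb, (((Gen V z M).filter
        (fun k : ℕ => ¬ Good V E (fun a => om ((k : ℝ) / M) * z a) v)).card : ℝ) := by
    simp only [card_filter]
    push_cast
    exact sum_comm
  have s2 : ∀ v ∈ Vb, (((Gen V z M).filter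
        (fun k : ℕ => ¬ Good V E (fun a => om ((k : ℝ) / M) * z a) v)).card : ℝ) ≤
      24 * (d + 1) * TI V E z * M * AA V E z v + 1 := by
    intro v hv
    obtain ⟨v1, v2⟩ := mem_filter.mp hv
    obtain ⟨c, c1, c2⟩ := h.star1 v1 v2
    refine (h.toGNet.bad_card v2 c1 (mul_nonneg T0 (h.AA_nonneg v1)) c2 hd M).trans (le_of_eq ?_)
    ring
  have s3 : ∑ v ∈ Vb, AA V E z v ≤ 6 * d ^ 2 := by
    refine (sum_le_sum_of_subset_of_nonneg (filter_subset _ _)
      (fun v hv _ => h.AA_nonneg hv)).trans (h.sum_AA.trans ?_)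
    nlinarith
  have s4 := sum_le_sum s2
  rw [← s1, sum_add_distrib, ← mul_sum, sum_const, nsmul_eq_mul, mul_one] at s4
  have s5 : (Vb.card : ℝ) ≤ N := by exact_mod_cast card_filter_le _ _
  have s6 : 24 * (d + 1) * TI V E z * M * ∑ v ∈ Vb, AA V E z v ≤
      24 * (d + 1) * d * M * (6 * d ^ 2) := by
    apply mul_le_mul _ s3 (sum_nonneg fun v hv => h.AA_nonneg (mem_filter.mp hv).1) (by positivity)
    gcongr
  have s7 : 24 * ((d : ℝ) + 1) * d * M * (6 * d ^ 2) + N ≤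
      ∑ k ∈ Gen V z M, (((288 * (d + 1) * d ^ 3 + 1 : ℕ) : ℝ)) := by
    rw [sum_const, nsmul_eq_mul]
    have g3 : ((N ^ 2 + 2 : ℕ) : ℝ) ≤ (Gen V z M).card := by exact_mod_cast gc2
    refine le_trans ?_ (mul_le_mul_of_nonneg_right g3 (by positivity))
    rw [hM]
    push_cast
    have t1 : (0 : ℝ) ≤ (d + 1) * d ^ 3 := by positivity
    nlinarith [sq_nonneg ((N : ℝ) - 1)]
  obtain ⟨k, hk, k2⟩ := exists_le_of_sum_le (card_pos.mp (by omega : 0 < (Gen V z M).card))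
    (s4.trans ((add_le_add s6 s5).trans s7))
  exact ⟨_, om_norm _, h.toGNet.gen_rot hk, by exact_mod_cast k2⟩

theorem gromov (n d : ℕ) : ∃ b : ℕ, ∀ (ι : Type) (V : Finset ι) (E : ι → ι → Prop) (z : ι → ℂ),
    GNet V E z → (∀ a ∈ V, ∀ b ∈ V, z a = z b → a = b) →
    (∀ v ∈ V, Imb V E z v = 0 → 3 ≤ dg V E v) → TI V E z ≤ d →
    (V.filter (fun v => Imb V E z v ≠ 0)).card ≤ n → V.card ≤ b := by
  obtain ⟨b, hb⟩ := sweep2 d (288 * (d + 1) * d ^ 3 + 1 + n)
  have gen : ∀ (ι : Type) (V : Finset ι) (E : ι → ι → Prop) (z : ι → ℂ),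
      GN V E z → (∀ v ∈ V, Imb V E z v = 0 → 3 ≤ dg V E v) → TI V E z ≤ d →
      (V.filter (fun v => Imb V E z v ≠ 0)).card ≤ n → V.card ≤ b := by
    intro ι V E z h h3 hd hn
    obtain ⟨ω, w1, w2, w3⟩ := h.exists_dir hd
    refine hb ι V E _ w2 (fun v hv t => h3 v hv ((Imb_rot_zero w1 v).mp t))
      (by rw [TI_rot w1]; exact hd) ?_
    refine le_trans (card_le_card ?_) ((card_union_le _ _).trans (add_le_add w3 hn))
    intro v hv
    obtain ⟨v1, v2⟩ := mem_filter.mp hv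
    by_cases t : Imb V E z v = 0
    · exact mem_union_left _ (mem_filter.mpr ⟨mem_filter.mpr ⟨v1, t⟩, v2⟩)
    · exact mem_union_right _ (mem_filter.mpr ⟨v1, t⟩)
  refine ⟨b, fun ι V E z h hinj h3 hd hn => ?_⟩
  have gc := Gen_card hinj (V.card ^ 2 + 1)
  obtain ⟨k, hk⟩ := card_pos.mp (by omega : 0 < (Gen V z (V.card ^ 2 + 1)).card)
  refine gen ι V E _ (h.gen_rot hk) (fun v hv t => h3 v hv ((Imb_rot_zero (om_norm _) v).mp t))
    (by rw [TI_rot (om_norm _)]; exact hd) ?_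
  refine le_trans (card_le_card ?_) hn
  intro v hv
  obtain ⟨v1, v2⟩ := mem_filter.mp hv
  exact mem_filter.mpr ⟨v1, fun t => v2 ((Imb_rot_zero (om_norm _) v).mpr t)⟩

end

end Pool.Agent.H18.Gro
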