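import Pool.Agent.H18.Tau3

set_option autoImplicit false

namespace Pool.Agent.H18.Tau

open Set TopologicalSpace Filter

noncomputable section
open Classical

/-- at most `n` elements below `G n` -/
def Sp (G : ℕ → ℕ) (x : ℕ → Bool) (n : ℕ) : Prop :=
  ((Finset.range (G n)).filter (fun i => x i = true)).card ≤ n

/-- the Borel set: finite sets and sets with infinitely many even elements -/
def B0 : Set (ℕ → Bool) := {x | {n | x n = true}.Finite ∨ {n | x (2 * n) = true}.Infinite}

lemma closed_Sp (g : ℕ → ℕ) : IsClosed {x : ℕ → Bool | ∀ n, Sp g x n} := by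
  simp only [setOf_forall]
  refine isClosed_iInter fun n => ?_
  rw [← isOpen_compl_iff, isOpen_iff_forall_mem_open]
  intro x hx
  refine ⟨PiNat.cylinder x (g n), fun y hy hs => hx ?_, PiNat.isOpen_cylinder _ _ _,
    PiNat.self_mem_cylinder _ _⟩
  have : (Finset.range (g n)).filter (fun i => x i = true) =
      (Finset.range (g n)).filter (fun i => y i = true) :=
    Finset.filter_congr fun i hi => by
      rw [PiNat.mem_cylinder_iff.mp hy i (Finset.mem_range.mp hi)]
  change Sp g x n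
  unfold Sp
  rw [this]; exact hs

lemma sp_ext {g : ℕ → ℕ} {x : ℕ → Bool} (hx : ∀ n, Sp g x n) (N : ℕ) {P : Set ℕ}
    (hP : P.Infinite) : ∃ y : ℕ → Bool, (∀ n, Sp g y n) ∧ (∀ i < N, y i = x i) ∧
      (∀ i, N ≤ i → y i = true → i ∈ P) ∧ ∀ m, ∃ i, m ≤ i ∧ y i = true := by
  choose p p1 p2 using fun j => hP.exists_gt (N + j + ∑ n ∈ Finset.range (N + j + 1), g n)
  refine ⟨fun i => if i < N then x i else decide (∃ j, p j = i), fun n => ?_,
    fun i hi => if_pos hi, fun i hi t => ?_, fun m => ⟨p m, by have := p2 m; omega, ?_⟩⟩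
  · have sub : (Finset.range (g n)).filter
        (fun i => (if i < N then x i else decide (∃ j, p j = i)) = true) ⊆
        ((Finset.range (g n)).filter (fun i => x i = true) ∩ Finset.range N) ∪
          (Finset.range (n - N)).image p := by
      intro i hi
      obtain ⟨i1, i2⟩ := Finset.mem_filter.mp hi
      by_cases t : i < N
      · rw [if_pos t] at i2
        exact Finset.mem_union_left _ (Finset.mem_inter.mpr
          ⟨Finset.mem_filter.mpr ⟨i1, i2⟩, Finset.mem_range.mpr t⟩)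
      · rw [if_neg t] at i2
        obtain ⟨j, rfl⟩ : ∃ j, p j = i := by simpa using i2
        refine Finset.mem_union_right _ (Finset.mem_image.mpr ⟨j, Finset.mem_range.mpr ?_, rfl⟩)
        by_contra s
        have a := Finset.single_le_sum (f := g) (s := Finset.range (N + j + 1))
          (fun _ _ => Nat.zero_le _) (Finset.mem_range.mpr (by omega : n < N + j + 1))
        have b := p2 j
        have c := Finset.mem_range.mp i1
        omega
    have c1 := (Finset.card_le_card sub).trans (Finset.card_union_le _ _)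
    have c2 : ((Finset.range (n - N)).image p).card ≤ n - N :=
      Finset.card_image_le.trans (by simp)
    have c3 := Finset.card_le_card (Finset.inter_subset_left
      (s₁ := (Finset.range (g n)).filter (fun i => x i = true)) (s₂ := Finset.range N))
    have c4 := Finset.card_le_card (Finset.inter_subset_right
      (s₁ := (Finset.range (g n)).filter (fun i => x i = true)) (s₂ := Finset.range N))
    have c5 := hx n
    rw [Finset.card_range] at c4
    unfold Sp at c5
    exact c1.trans (by omega)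
  · simp only [if_neg (not_lt.mpr hi)] at t
    obtain ⟨j, rfl⟩ : ∃ j, p j = i := by simpa using t
    exact p1 j
  · have := p2 m
    simp only [if_neg (show ¬ p m < N by omega)]
    simp

lemma bct1 {K : Set (ℕ → Bool)} (hK : IsClosed K) (hne : K.Nonempty) {ι : Type}
    [Countable ι] (W : ι → Set (ℕ → Bool)) (h1 : ∀ i, IsOpen (W i))
    (h2 : ∀ i, ∀ k ∈ K, ∀ n, ∃ k' ∈ K, k' ∈ W i ∧ ∀ j < n, k' j = k j) :
    ∃ k ∈ K, ∀ i, k ∈ W i := by
  obtain ⟨k, k1, k2⟩ := bct (K := K ×ˢ univ) (hK.prod isClosed_univ) (hne.prod univ_nonempty)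
    (fun i => W i ×ˢ univ) (fun i => (h1 i).prod isOpen_univ) (fun i k hk n => by
      obtain ⟨k', a1, a2, a3⟩ := h2 i k.1 hk.1 n
      exact ⟨(k', k.2), ⟨a1, trivial⟩, ⟨a2, trivial⟩, a3, fun _ _ => rfl⟩)
  exact ⟨k.1, k1.1, fun i => (k2 i).1⟩

lemma stage2 (g : ℕ → ℕ) (O : ℕ → Set (ℕ → Bool)) (hO : ∀ n, IsOpen (O n)) :
    ∃ x ∈ B0, (∀ n, Sp g x n) ∧ ∀ n, (O n)ᶜ ⊆ B0 → x ∈ O n := by
  obtain ⟨x, x1, x2⟩ := bct1 (closed_Sp g) ⟨fun _ => false, fun n => by simp [Sp]⟩ (ι := ℕ ⊕ ℕ)
    (fun i => match i with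
      | .inl m => {x | ∃ k, m ≤ k ∧ x (2 * k) = true}
      | .inr n => {x | (O n)ᶜ ⊆ B0 → x ∈ O n})
    (by
      rintro (m | n)
      · simp only [setOf_exists, setOf_and]
        exact isOpen_iUnion fun k => isOpen_const.inter (open_ev _)
      · by_cases t : (O n)ᶜ ⊆ B0
        · simpa [t] using hO n
        · simp [t])
    (by
      rintro (m | n) k hk N
      · obtain ⟨y, y1, y2, y3, y4⟩ := sp_ext hk N (P := range fun k => 2 * k)
          (infinite_range_of_injective fun a b t => by simpa using t)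
        obtain ⟨i, i1, i2⟩ := y4 (N + 2 * m)
        obtain ⟨j, rfl⟩ := y3 i (by omega) i2
        exact ⟨y, y1, ⟨j, by simp only at i1; omega, i2⟩, y2⟩
      · obtain ⟨y, y1, y2, y3, y4⟩ := sp_ext hk N (P := range fun k => 2 * k + 1)
          (infinite_range_of_injective fun a b t => by simpa using t)
        refine ⟨y, y1, fun t => ?_, y2⟩
        by_contra s
        rcases t s with u | u
        · refine infinite_of_forall_exists_gt (fun m => ?_) u
          obtain ⟨i, i1, i2⟩ := y4 (m + 1)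
          exact ⟨i, i2, i1⟩
        · refine u ((finite_lt_nat N).subset fun j hj => ?_)
          by_contra v
          obtain ⟨l, hl⟩ := y3 (2 * j) (by simp only [mem_setOf_eq] at v; omega) hj
          simp only at hl
          omega)
  refine ⟨x, Or.inr (infinite_of_forall_exists_gt fun m => ?_), x1, fun n => x2 (.inr n)⟩
  obtain ⟨k, k1, k2⟩ := x2 (.inl (m + 1))
  exact ⟨k, k2, k1⟩

lemma dom_countable {S : Set (ℕ → ℕ)} (hS : S.Countable) :
    ∃ g : ℕ → ℕ, ∀ G ∈ S, ∀ᶠ n in atTop, G n ≤ g n := by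
  rcases S.eq_empty_or_nonempty with rfl | hne
  · exact ⟨id, by simp⟩
  obtain ⟨f, rfl⟩ := hS.exists_eq_range hne
  refine ⟨fun n => ∑ j ∈ Finset.range (n + 1), f j n, ?_⟩
  rintro _ ⟨j, rfl⟩
  filter_upwards [eventually_ge_atTop j] with n hn
  exact Finset.single_le_sum (f := fun j => f j n) (fun _ _ => Nat.zero_le _)
    (Finset.mem_range.mpr (by omega))

theorem scale (hCH : Cardinal.continuum.{0} = Cardinal.aleph 1) :
    ∃ L ⊆ B0, (∀ G : ℕ → ℕ, {x ∈ L | ¬ ∀ᶠ n in atTop, Sp G x n}.Countable) ∧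
      ∀ K : ℕ → Set (ℕ → Bool), (∀ n, IsClosed (K n)) → (∀ n, K n ⊆ B0) →
        ∃ x ∈ L, ∀ n, x ∉ K n := by
  obtain ⟨r, wo, hr⟩ := Cardinal.exists_ord_eq ((ℕ → ℕ → Bool) × (ℕ → ℕ))
  have cnt : ∀ x, {y | r y x}.Countable := by
    intro x
    rw [Cardinal.countable_iff_lt_aleph_one, ← hCH]
    have := Cardinal.card_typein_lt x hr
    rw [Ordinal.card_typein] at this
    refine this.trans_le (le_of_eq ?_)
    simp
  obtain ⟨f, f1, f2⟩ := enum_open
  choose g hg using fun α => dom_countable ((cnt α).image Prod.snd)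
  choose x x1 x2 x3 using fun α : (ℕ → ℕ → Bool) × (ℕ → ℕ) =>
    stage2 (g α) (fun n => f (α.1 n)) (fun n => f1 _)
  refine ⟨range x, range_subset_iff.mpr x1, fun G => ?_, fun K k1 k2 => ?_⟩
  · refine (((cnt (fun _ _ => true, G)).insert (fun _ _ => true, G)).image x).mono ?_
    rintro _ ⟨⟨α, rfl⟩, hα⟩
    refine ⟨α, ?_, rfl⟩
    rcases trichotomous_of r α (fun _ _ => true, G) with t | t | t
    · exact Or.inr t
    · exact Or.inl t
    · refine absurd ((hg α G ⟨_, t, rfl⟩).mono fun n hn => le_trans (Finset.card_le_card ?_)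
        (x2 α n)) hα
      exact Finset.filter_subset_filter _ (Finset.range_mono hn)
  · choose c hc using fun n => f2 (K n)ᶜ (k1 n).isOpen_compl
    refine ⟨x (c, id), ⟨_, rfl⟩, fun n => ?_⟩
    have := x3 (c, id) n
    simp only [hc, compl_compl] at this
    exact this (k2 n)

/-- indicator of a finite set -/
def ind (s : Finset ℕ) : ℕ → Bool := fun i => decide (i ∈ s)

lemma gap (m : ℕ → ℕ) (hm : ∀ i, m i ≤ m (i + 1)) (y : ℕ → Bool) (i : ℕ)
    (h : ∀ j < i, ∃ a, m j ≤ a ∧ a < m (j + 1) ∧ y a = true) :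
    i ≤ ((Finset.range (m i)).filter (fun a => y a = true)).card := by
  induction i with
  | zero => exact Nat.zero_le _
  | succ i ih =>
    obtain ⟨a, a1, a2, a3⟩ := h i (by omega)
    refine Nat.succ_le_of_lt ((ih fun j hj => h j (by omega)).trans_lt (Finset.card_lt_card ?_))
    refine ⟨Finset.filter_subset_filter _ (Finset.range_mono (hm i)), fun t => ?_⟩
    have := (Finset.mem_filter.mp (t (Finset.mem_filter.mpr ⟨Finset.mem_range.mpr a2, a3⟩))).1
    rw [Finset.mem_range] at this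
    omega

lemma near (O : ℕ → Finset ℕ → Set (ℕ → Bool)) (h1 : ∀ n s, IsOpen (O n s))
    (h2 : ∀ n s, ind s ∈ O n s) :
    ∃ G : ℕ → ℕ, ∀ n y, Sp G y n → ∃ s ⊆ Finset.range (G n), y ∈ O n s := by
  choose l hl using fun n s => cyl_nhds (h1 n s) (h2 n s)
  let M : ℕ → ℕ → ℕ := fun n i =>
    (fun k => k + ∑ s ∈ (Finset.range k).powerset, l n s)^[i] 0
  have hM : ∀ n i, M n (i + 1) = M n i + ∑ s ∈ (Finset.range (M n i)).powerset, l n s :=
    fun n i => Function.iterate_succ_apply' _ _ _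
  have mono : ∀ n, Monotone (M n) := fun n => monotone_nat_of_le_succ fun i => by
    rw [hM]; omega
  refine ⟨fun n => M n (n + 1), fun n y hy => ?_⟩
  have : ∃ j < n + 1, ∀ a, M n j ≤ a → a < M n (j + 1) → y a ≠ true := by
    by_contra t
    have := gap (M n) (fun i => mono n (Nat.le_succ i)) y (n + 1) (fun j hj => by
      by_contra s
      exact t ⟨j, hj, fun a a1 a2 a3 => s ⟨a, a1, a2, a3⟩⟩)
    exact absurd (this.trans hy) (by omega)
  obtain ⟨j, j1, j2⟩ := this
  have sub : (Finset.range (M n j)).filter (fun a => y a = true) ⊆ Finset.range (M n j) :=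
    Finset.filter_subset _ _
  refine ⟨_, sub.trans (Finset.range_mono (mono n j1.le)), hl n _ y fun i hi => ?_⟩
  have a := Finset.single_le_sum (f := l n) (fun _ _ => Nat.zero_le _)
    (Finset.mem_powerset.mpr sub)
  have b := hM n j
  by_cases t : i < M n j
  · simp [ind, t]
  · have := j2 i (by omega) (by omega)
    simp [ind, t, this]

theorem hurewicz {L : Set (ℕ → Bool)}
    (hL : ∀ G : ℕ → ℕ, {x ∈ L | ¬ ∀ᶠ n in atTop, Sp G x n}.Countable) {e : (ℕ → Bool) → ℝ}
    (he : Continuous e) (𝒰 : ℕ → Set (Set (e '' (range ind ∪ L))))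
    (h1 : ∀ n, ∀ u ∈ 𝒰 n, IsOpen u) (h2 : ∀ n x, ∃ u ∈ 𝒰 n, x ∈ u) :
    ∃ F : ℕ → Set (Set (e '' (range ind ∪ L))), (∀ n, (F n).Finite ∧ F n ⊆ 𝒰 n) ∧
      ∀ x, ∀ᶠ n in atTop, x ∈ ⋃₀ F n := by
  choose u u1 u2 using h2
  choose W w1 w2 using fun n x => isOpen_induced_iff.mp (h1 n _ (u1 n x))
  let q : Finset ℕ → e '' (range ind ∪ L) := fun s => ⟨e (ind s), _, Or.inl ⟨s, rfl⟩, rfl⟩
  obtain ⟨G, hG⟩ := near (fun n s => e ⁻¹' W n (q s)) (fun n s => (w1 _ _).preimage he)
    (fun n s => by have := u2 n (q s); rw [← w2] at this; exact this)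
  have cc : {p : e '' (range ind ∪ L) | p.1 ∈ e '' (range ind ∪
      {x ∈ L | ¬ ∀ᶠ n in atTop, Sp G x n})}.Countable :=
    (((countable_range _).union (hL G)).image e).preimage Subtype.val_injective
  obtain ⟨z, hz⟩ := cc.exists_eq_range ⟨q ∅, _, Or.inl ⟨∅, rfl⟩, rfl⟩
  refine ⟨fun n => (fun s => u n (q s)) '' {s | s ⊆ Finset.range (G n)} ∪
    (fun j => u n (z j)) '' {j | j ≤ n}, fun n => ⟨?_, ?_⟩, fun x => ?_⟩
  · refine (Finite.image _ ?_).union ((finite_le_nat n).image _)
    exact (Finset.range (G n)).powerset.finite_toSet.subset fun s hs =>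
      Finset.mem_coe.mpr (Finset.mem_powerset.mpr hs)
  · rintro _ (⟨s, -, rfl⟩ | ⟨j, -, rfl⟩) <;> exact u1 _ _
  · by_cases t : x ∈ range z
    · obtain ⟨j, rfl⟩ := t
      filter_upwards [eventually_ge_atTop j] with n hn
      exact ⟨_, Or.inr ⟨j, hn, rfl⟩, u2 _ _⟩
    · rw [← hz] at t
      obtain ⟨_, y, hy, rfl⟩ := x
      have : ∀ᶠ n in atTop, Sp G y n := by
        by_contra s
        exact t ⟨y, hy.imp id fun a => ⟨a, s⟩, rfl⟩
      filter_upwards [this] with n hn
      obtain ⟨s, s1, s2⟩ := hG n y hn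
      refine ⟨_, Or.inl ⟨s, s1, rfl⟩, ?_⟩
      change _ ∈ u n (q s)
      rw [← w2]; exact s2

end

end Pool.Agent.H18.Tau
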