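import Mathlib

set_option autoImplicit false

namespace Pool.Agent.H18.Hur

open Set Filter

/-- between the set and every `G_δ` superset there is a `σ`-compact set -/
def SC {Z : Type} [TopologicalSpace Z] (X : Set Z) : Prop :=
  ∀ H : Set Z, IsGδ H → X ⊆ H → ∃ F : Set Z, IsSigmaCompact F ∧ X ⊆ F ∧ F ⊆ H

variable {Z Z' : Type} [TopologicalSpace Z] [TopologicalSpace Z']

lemma sc_of_hur [CompactSpace Z] [T2Space Z] {X : Set Z}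
    (h : ∀ 𝒰 : ℕ → Set (Set X), (∀ n, (∀ u ∈ 𝒰 n, IsOpen u) ∧ ⋃₀ 𝒰 n = univ) →
      ∃ ℱ : ℕ → Set (Set X), (∀ n, (ℱ n).Finite ∧ ℱ n ⊆ 𝒰 n) ∧ ∀ x, ∀ᶠ n in atTop, x ∈ ⋃₀ ℱ n) :
    SC X := by
  intro H hH hX
  obtain ⟨O, o1, rfl⟩ := hH.eq_iInter_nat
  obtain ⟨ℱ, f1, f2⟩ := h (fun n => {u | IsOpen u ∧ ∀ i ≤ n, closure (Subtype.val '' u) ⊆ O i})
    (fun n => ⟨fun u hu => hu.1, eq_univ_of_forall fun x => by
      have a : IsOpen (⋂ i ∈ {i | i ≤ n}, O i) := (finite_le_nat n).isOpen_biInter fun i _ => o1 i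
      have b : x.1 ∈ ⋂ i ∈ {i | i ≤ n}, O i := mem_biInter fun i _ => mem_iInter.mp (hX x.2) i
      obtain ⟨t, t1, t2, t3⟩ := exists_mem_nhds_isClosed_subset (a.mem_nhds b)
      refine ⟨Subtype.val ⁻¹' interior t, ⟨isOpen_interior.preimage continuous_subtype_val,
        fun i hi => ?_⟩, mem_interior_iff_mem_nhds.mpr t1⟩
      refine (closure_minimal ((image_preimage_subset _ _).trans interior_subset) t2).trans
        (t3.trans (biInter_subset_of_mem hi))⟩)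
  refine ⟨⋃ m, ⋂ n, ⋂ _ : m ≤ n, ⋃ u ∈ ℱ n, closure (Subtype.val '' u),
    isSigmaCompact_iUnion_of_isCompact _ fun m => IsClosed.isCompact
      (isClosed_iInter fun n => isClosed_iInter fun _ =>
        (f1 n).1.isClosed_biUnion fun _ _ => isClosed_closure), fun x hx => ?_, fun x hx => ?_⟩
  · obtain ⟨m, hm⟩ := eventually_atTop.mp (f2 ⟨x, hx⟩)
    refine mem_iUnion.mpr ⟨m, mem_iInter₂.mpr fun n hn => ?_⟩
    obtain ⟨u, u1, u2⟩ := hm n hn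
    exact mem_biUnion u1 (subset_closure ⟨_, u2, rfl⟩)
  · obtain ⟨m, hm⟩ := mem_iUnion.mp hx
    refine mem_iInter.mpr fun i => ?_
    obtain ⟨u, u1, u2⟩ := mem_iUnion₂.mp (mem_iInter₂.mp hm (m + i) (by omega))
    exact ((f1 _).2 u1).2 i (by omega) u2

lemma hur_of_sc {X : Set Z} (h : SC X) (𝒰 : ℕ → Set (Set X))
    (hU : ∀ n, (∀ u ∈ 𝒰 n, IsOpen u) ∧ ⋃₀ 𝒰 n = univ) :
    ∃ ℱ : ℕ → Set (Set X), (∀ n, (ℱ n).Finite ∧ ℱ n ⊆ 𝒰 n) ∧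
      ∀ x, ∀ᶠ n in atTop, x ∈ ⋃₀ ℱ n := by
  choose W w1 w2 using fun n (u : 𝒰 n) => isOpen_induced_iff.mp ((hU n).1 u.1 u.2)
  obtain ⟨F, ⟨K, k1, rfl⟩, k2, k3⟩ := h (⋂ n, ⋃ u, W n u)
    (IsGδ.iInter fun n => (isOpen_iUnion (w1 n)).isGδ) (fun x hx => mem_iInter.mpr fun n => by
      obtain ⟨u, u1, u2⟩ := mem_sUnion.mp ((hU n).2 ▸ mem_univ (⟨x, hx⟩ : X))
      refine mem_iUnion.mpr ⟨⟨u, u1⟩, ?_⟩
      have := w2 n ⟨u, u1⟩
      exact (Set.ext_iff.mp this ⟨x, hx⟩).mpr u2)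
  have : ∀ n, ∃ t : Finset (𝒰 n), (⋃ m ∈ {m | m ≤ n}, K m) ⊆ ⋃ u ∈ t, W n u := fun n =>
    ((finite_le_nat n).isCompact_biUnion fun m _ => k1 m).elim_finite_subcover _ (w1 n)
      (iUnion₂_subset fun m _ => (subset_iUnion K m).trans (k3.trans (iInter_subset _ n)))
  choose t ht using this
  refine ⟨fun n => Subtype.val '' (t n : Set (𝒰 n)), fun n => ⟨(t n).finite_toSet.image _, ?_⟩,
    fun x => ?_⟩
  · rintro _ ⟨u, -, rfl⟩; exact u.2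
  · obtain ⟨m, hm⟩ := mem_iUnion.mp (k2 x.2)
    filter_upwards [eventually_ge_atTop m] with n hn
    obtain ⟨u, u1, u2⟩ := mem_iUnion₂.mp (ht n (mem_biUnion hn hm))
    exact ⟨u.1, ⟨u, u1, rfl⟩, (Set.ext_iff.mp (w2 n u) x).mp u2⟩

lemma tube [CompactSpace Z'] [T2Space Z'] {H : Set (Z × Z')} (hH : IsGδ H) {K : Set Z'}
    (hK : IsSigmaCompact K) : IsGδ {x : Z | ∀ y ∈ K, (x, y) ∈ H} := by
  obtain ⟨O, o1, rfl⟩ := hH.eq_iInter_nat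
  obtain ⟨K, k1, rfl⟩ := hK
  have : {x : Z | ∀ y ∈ ⋃ j, K j, (x, y) ∈ ⋂ n, O n} =
      ⋂ n, ⋂ j, (Prod.fst '' ((O n)ᶜ ∩ Prod.snd ⁻¹' K j))ᶜ := by
    ext x
    simp only [mem_setOf_eq, mem_iUnion, mem_iInter, mem_compl_iff, mem_image, mem_inter_iff,
      mem_preimage]
    constructor
    · rintro h n j ⟨p, ⟨p1, p2⟩, rfl⟩
      exact p1 (h p.2 ⟨j, p2⟩ n)
    · rintro h y ⟨j, hj⟩ n
      by_contra t
      exact h n j ⟨(x, y), ⟨t, hj⟩, rfl⟩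
  rw [this]
  exact IsGδ.iInter fun n => IsGδ.iInter fun j => (isClosedMap_fst_of_compactSpace _
    ((o1 n).isClosed_compl.inter ((k1 j).isClosed.preimage continuous_snd))).isOpen_compl.isGδ

theorem sc_prod [CompactSpace Z'] [T2Space Z'] {X D : Set Z} {Y : Set Z'} (hD : D.Countable)
    (hDX : D ⊆ X) (hc : ∀ U : Set Z, IsOpen U → D ⊆ U → (X \ U).Countable) (hX : SC X)
    (hY : SC Y) : SC (X ×ˢ Y) := by
  intro H hH hXY
  have sec : ∀ C ⊆ X, C.Countable → ∃ K : Set Z', IsSigmaCompact K ∧ Y ⊆ K ∧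
      ∀ x ∈ C, ∀ y ∈ K, (x, y) ∈ H := by
    intro C c1 c2
    obtain ⟨K, k1, k2, k3⟩ := hY (⋂ x ∈ C, Prod.mk x ⁻¹' H)
      (IsGδ.biInter c2 fun x _ => hH.preimage (by fun_prop))
      (fun y hy => mem_biInter fun x hx => hXY ⟨c1 hx, hy⟩)
    exact ⟨K, k1, k2, fun x hx y hy => mem_iInter₂.mp (k3 hy) x hx⟩
  obtain ⟨K, k1, k2, k3⟩ := sec D hDX hD
  obtain ⟨V, v1, v2⟩ := (tube hH k1).eq_iInter_nat
  have cc : (⋃ n, X \ V n).Countable := countable_iUnion fun n => hc _ (v1 n) fun x hx =>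
    mem_iInter.mp (v2 ▸ (show x ∈ {x : Z | ∀ y ∈ K, (x, y) ∈ H} from k3 x hx)) n
  obtain ⟨K', l1, l2, l3⟩ := sec _ (iUnion_subset fun n => diff_subset) cc
  have kk : IsSigmaCompact (K ∩ K') := by
    obtain ⟨A, a1, rfl⟩ := k1
    obtain ⟨B, b1, rfl⟩ := l1
    rw [iUnion_inter]
    refine isSigmaCompact_iUnion _ fun i => ?_
    rw [inter_iUnion]
    exact isSigmaCompact_iUnion_of_isCompact _ fun j => (a1 i).inter (b1 j)
  obtain ⟨L, m1, m2, m3⟩ := hX _ (tube hH kk) (fun x hx y hy => by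
    by_cases t : x ∈ ⋂ n, V n
    · rw [← v2] at t; exact t y hy.1
    · obtain ⟨n, hn⟩ := not_forall.mp (fun s => t (mem_iInter.mpr s))
      exact l3 x (mem_iUnion.mpr ⟨n, hx, hn⟩) y hy.2)
  refine ⟨L ×ˢ (K ∩ K'), ?_, prod_mono m2 (subset_inter k2 l2), fun p hp => m3 hp.1 p.2 hp.2⟩
  obtain ⟨A, a1, rfl⟩ := m1
  obtain ⟨B, b1, e⟩ := kk
  rw [← e, iUnion_prod_const]
  refine isSigmaCompact_iUnion _ fun i => ?_
  rw [prod_iUnion]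
  exact isSigmaCompact_iUnion_of_isCompact _ fun j => (a1 i).prod (b1 j)

end Pool.Agent.H18.Hur
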