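import Mathlib

set_option autoImplicit false

namespace Pool.Agent.H18.Jam

open Finset RealInnerProductSpace

variable {ι P : Type} [Fintype ι] [DecidableEq ι] [Fintype P]

theorem frame (u : ι → EuclideanSpace ℝ ι) (D : ℝ)
    (hD : ∀ i j, |⟪u i, u j⟫ - (if i = j then 1 else 0)| ≤ D) (h2 : (Fintype.card ι : ℝ) * D ≤ 1 / 2)
    (w : EuclideanSpace ℝ ι) : ‖w‖ ^ 2 ≤ 2 * ∑ i, ⟪w, u i⟫ ^ 2 := by
  let T : EuclideanSpace ℝ ι →ₗ[ℝ] EuclideanSpace ℝ ι :=
    (EuclideanSpace.basisFun ι ℝ).toBasis.constr ℝ u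
  have hT : ∀ v, T v = ∑ i, v i • u i := fun v => by
    simp [T, Module.Basis.constr_apply_fintype]
  have h1 : ∀ v, ‖v‖ ^ 2 ≤ 2 * ‖T v‖ ^ 2 := by
    intro v
    have e1 : ‖T v‖ ^ 2 = ∑ i, ∑ j, v i * v j * ⟪u i, u j⟫ := by
      rw [← real_inner_self_eq_norm_sq, hT, sum_inner]
      refine sum_congr rfl fun i _ => ?_
      rw [inner_sum]
      exact sum_congr rfl fun j _ => by rw [real_inner_smul_left, real_inner_smul_right, mul_assoc]
    have e2 : ‖v‖ ^ 2 = ∑ i, v i ^ 2 := EuclideanSpace.real_norm_sq_eq v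
    have e3 : ∑ i, ∑ j, (v i * v j * (if i = j then 1 else 0) - D * (v i ^ 2 + v j ^ 2) / 2) ≤
        ‖T v‖ ^ 2 := by
      rw [e1]
      refine sum_le_sum fun i _ => sum_le_sum fun j _ => ?_
      have a1 := hD i j
      have a2 : |v i * v j| ≤ (v i ^ 2 + v j ^ 2) / 2 := by
        rw [abs_le]; constructor <;> nlinarith [sq_nonneg (v i + v j), sq_nonneg (v i - v j)]
      have a3 := mul_le_mul a2 a1 (abs_nonneg _) (by positivity)
      rw [← abs_mul] at a3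
      nlinarith [neg_abs_le (v i * v j * (⟪u i, u j⟫ - if i = j then 1 else 0))]
    simp only [sum_sub_distrib, mul_ite, mul_one, mul_zero, sum_ite_eq, mem_univ, if_true, mul_add,
      add_div, sum_add_distrib, sum_const, card_univ, nsmul_eq_mul, ← sum_div, ← mul_sum,
      ← pow_two, ← e2] at e3
    nlinarith [sq_nonneg ‖v‖]
  have inj : Function.Injective T := by
    rw [← LinearMap.ker_eq_bot, LinearMap.ker_eq_bot']
    intro v hv
    have := h1 v
    rw [hv, norm_zero] at this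
    exact norm_eq_zero.1 (by nlinarith [norm_nonneg v])
  obtain ⟨v, rfl⟩ := LinearMap.injective_iff_surjective.1 inj w
  have e4 : ‖T v‖ ^ 2 = ∑ i, v i * ⟪T v, u i⟫ := by
    rw [← real_inner_self_eq_norm_sq]
    nth_rewrite 2 [hT v]
    rw [inner_sum]
    exact sum_congr rfl fun i _ => real_inner_smul_right _ _ _
  have e5 := sum_mul_sq_le_sq_mul_sq univ (fun i => v i) fun i => ⟪T v, u i⟫
  rw [← e4, ← EuclideanSpace.real_norm_sq_eq] at e5
  have e6 : 0 ≤ ∑ i, ⟪T v, u i⟫ ^ 2 := by positivity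
  by_contra hh
  have := h1 v
  nlinarith [sq_nonneg ‖T v‖, mul_le_mul_of_nonneg_right this e6]

/-- the linear defect -/
noncomputable def L (x : P → EuclideanSpace ℝ ι) (b : ι → P) (Δ : P → P → ℝ) : P → P → ℝ :=
  fun p q => Δ p q - ∑ i, x q i * Δ p (b i) - ∑ i, x p i * Δ (b i) q +
    ∑ i, ∑ j, x p i * x q j * Δ (b i) (b j)

theorem isolated (x : P → EuclideanSpace ℝ ι) (b : ι → P)
    (hb : ∀ i, x (b i) = EuclideanSpace.single i 1) (hx : ∀ p, ‖x p‖ = 1)
    (hlin : ∀ Δ : P → P → ℝ, (∀ p, Δ p p = 0) → (∀ p q, Δ p q = Δ q p) →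
      (∀ p q, ⟪x p, x q⟫ = 1 / 2 → Δ p q ≤ 0) → L x b Δ = 0 → Δ = 0) :
    ∃ ε > 0, ∀ z : P → EuclideanSpace ℝ ι, (∀ p, ‖z p‖ = 1) → (∀ p q, p ≠ q → ⟪z p, z q⟫ ≤ 1 / 2) →
      ‖fun p q => ⟪z p, z q⟫ - ⟪x p, x q⟫‖ < ε → ∀ p q, ⟪z p, z q⟫ = ⟪x p, x q⟫ := by
  let S : Set (P → P → ℝ) := Metric.sphere 0 1 ∩ {Δ | (∀ p, Δ p p = 0) ∧ (∀ p q, Δ p q = Δ q p) ∧
      ∀ p q, ⟪x p, x q⟫ = 1 / 2 → Δ p q ≤ 0}
  have hS : IsCompact S := by
    refine (isCompact_sphere 0 1).inter_right ?_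
    simp only [Set.setOf_and, Set.setOf_forall]
    refine (isClosed_iInter fun p => isClosed_eq (by fun_prop) continuous_const).inter
      ((isClosed_iInter fun p => isClosed_iInter fun q => isClosed_eq (by fun_prop) (by fun_prop)).inter
      (isClosed_iInter fun p => isClosed_iInter fun q => isClosed_iInter fun _ =>
        isClosed_le (by fun_prop) continuous_const))
  have hc : Continuous fun Δ : P → P → ℝ => ‖L x b Δ‖ := by unfold L; fun_prop
  obtain ⟨m, hm, hm'⟩ := hS.exists_forall_le' hc.continuousOn (a := 0) fun Δ h =>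
    norm_pos_iff.2 fun h0 => by
      have := h.1
      rw [hlin Δ h.2.1 h.2.2.1 h.2.2.2 h0] at this
      simp at this
  set n : ℝ := (Fintype.card ι : ℝ) with hn
  have hn0 : 0 ≤ n := by positivity
  refine ⟨min (1 / (2 * n + 2)) (m / (2 * n * (n + 1) ^ 2 + 1)), by positivity, fun z z1 z2 hz => ?_⟩
  set Δ : P → P → ℝ := fun p q => ⟪z p, z q⟫ - ⟪x p, x q⟫ with hΔ
  rw [lt_min_iff, lt_div_iff₀ (by positivity), lt_div_iff₀ (by positivity)] at hz
  have hD : ∀ p q, |Δ p q| ≤ ‖Δ‖ := fun p q => (norm_le_pi_norm (Δ p) q).trans (norm_le_pi_norm Δ p)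
  by_contra hh
  have hpos : 0 < ‖Δ‖ := norm_pos_iff.2 fun h0 => hh fun p q => sub_eq_zero.1 (congrFun (congrFun h0 p) q)
  have xi : ∀ p i, ⟪x p, x (b i)⟫ = x p i := fun p i => by rw [hb]; simp [EuclideanSpace.inner_single_right]
  have xb : ∀ p i, |x p i| ≤ 1 := fun p i => hx p ▸ PiLp.norm_apply_le (x p) i
  let w : P → EuclideanSpace ℝ ι := fun p => z p - ∑ i, x p i • z (b i)
  have g : ∀ p q, ⟪z p, z q⟫ = ⟪x p, x q⟫ + Δ p q := fun p q => by simp [hΔ]
  have xs : ∀ p q, ∑ i, x p i * ⟪x (b i), x q⟫ = ⟪x p, x q⟫ := fun p q => by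
    rw [PiLp.inner_apply]
    exact sum_congr rfl fun i _ => by rw [real_inner_comm, xi]; simp [mul_comm]
  have w1 : ∀ p q, ⟪w p, z q⟫ = Δ p q - ∑ i, x p i * Δ (b i) q := fun p q => by
    simp only [w, inner_sub_left, sum_inner, real_inner_smul_left, g, mul_add, sum_add_distrib, xs]
    ring
  have w2 : ∀ p q, ⟪w p, w q⟫ = L x b Δ p q := fun p q => by
    have : ⟪w p, w q⟫ = ⟪w p, z q⟫ - ∑ j, x q j * ⟪w p, z (b j)⟫ := by
      conv_lhs => rw [show w q = z q - ∑ i, x q i • z (b i) from rfl]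
      simp only [inner_sub_right, inner_sum, real_inner_smul_right]
    rw [this]
    simp only [w1, L, mul_sub, sum_sub_distrib, mul_sum]
    rw [sum_comm (f := fun j i => x q j * (x p i * Δ (b i) (b j)))]
    simp only [mul_left_comm (x q _), ← mul_assoc]
    ring
  have w3 : ∀ p, ‖w p‖ ^ 2 ≤ 2 * n * (n + 1) ^ 2 * ‖Δ‖ ^ 2 := fun p => by
    refine (frame (fun i => z (b i)) ‖Δ‖ (fun i j => ?_) (by nlinarith) (w p)).trans ?_
    · have := hD (b i) (b j)
      rw [g, xi, hb, add_sub_assoc, add_comm]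
      simpa [eq_comm] using this
    · have : ∀ i, ⟪w p, z (b i)⟫ ^ 2 ≤ ((n + 1) * ‖Δ‖) ^ 2 := fun i => by
        rw [w1, ← sq_abs]
        refine pow_le_pow_left₀ (abs_nonneg _) ((abs_sub _ _).trans ?_) 2
        have : |∑ k, x p k * Δ (b k) (b i)| ≤ ∑ k : ι, ‖Δ‖ :=
          (abs_sum_le_sum_abs _ _).trans (sum_le_sum fun k _ => by
            rw [abs_mul]; exact (mul_le_of_le_one_left (abs_nonneg _) (xb p k)).trans (hD _ _))
        rw [sum_const, card_univ, nsmul_eq_mul] at this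
        linarith [hD p (b i)]
      have := sum_le_sum fun i (_ : i ∈ univ) => this i
      rw [sum_const, card_univ, nsmul_eq_mul] at this
      nlinarith
  have w4 : ‖L x b Δ‖ ≤ 2 * n * (n + 1) ^ 2 * ‖Δ‖ ^ 2 := by
    refine (pi_norm_le_iff_of_nonneg (by positivity)).2 fun p =>
      (pi_norm_le_iff_of_nonneg (by positivity)).2 fun q => ?_
    rw [← w2]
    refine (abs_real_inner_le_norm _ _).trans ?_
    nlinarith [w3 p, w3 q, sq_nonneg (‖w p‖ - ‖w q‖)]
  have hmem : ‖Δ‖⁻¹ • Δ ∈ S := by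
    refine ⟨by simp [norm_smul, hpos.ne'], fun p => ?_, fun p q => ?_, fun p q h => ?_⟩
    · simp [hΔ, z1, hx]
    · simp only [hΔ, Pi.smul_apply, real_inner_comm]
    · have hpq : p ≠ q := fun e => by
        rw [e, real_inner_self_eq_norm_sq, hx] at h; norm_num at h
      exact mul_nonpos_of_nonneg_of_nonpos (by positivity) (by simp only [hΔ]; linarith [z2 p q hpq])
  have e : L x b (‖Δ‖⁻¹ • Δ) = ‖Δ‖⁻¹ • L x b Δ := by
    funext p q
    simp only [L, Pi.smul_apply, smul_eq_mul, mul_add, mul_sub, mul_sum, mul_left_comm ‖Δ‖⁻¹]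
  have := hm' _ hmem
  rw [e, norm_smul, norm_inv, norm_norm, ← div_eq_inv_mul, le_div_iff₀ hpos] at this
  nlinarith

theorem jammed (x : P → EuclideanSpace ℝ ι) (b : ι → P)
    (hb : ∀ i, x (b i) = EuclideanSpace.single i 1) (hx : ∀ p, ‖x p‖ = 1)
    (hlin : ∀ Δ : P → P → ℝ, (∀ p, Δ p p = 0) → (∀ p q, Δ p q = Δ q p) →
      (∀ p q, ⟪x p, x q⟫ = 1 / 2 → Δ p q ≤ 0) → L x b Δ = 0 → Δ = 0)
    (f : P → unitInterval → EuclideanSpace ℝ ι) (hf : ∀ p, Continuous (f p)) (h0 : ∀ p, f p 0 = x p)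
    (h1 : ∀ p t, ‖f p t‖ = 1) (h2 : ∀ t p q, p ≠ q → ⟪f p t, f q t⟫ ≤ 1 / 2) (t : unitInterval) :
    ∃ A : EuclideanSpace ℝ ι ≃ₗᵢ[ℝ] EuclideanSpace ℝ ι, ∀ p, f p t = A (x p) := by
  obtain ⟨ε, hε, h⟩ := isolated x b hb hx hlin
  let G : unitInterval → ℝ := fun t => ‖fun p q => ⟪f p t, f q t⟫ - ⟪x p, x q⟫‖
  have hG : Continuous G := by fun_prop
  have h3 : G t < ε := by
    by_contra hh
    obtain ⟨s, hs⟩ := intermediate_value_univ 0 t hG (show ε / 2 ∈ Set.Icc (G 0) (G t) from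
      ⟨by simp only [G, h0, sub_self]; exact (norm_zero.le.trans (half_pos hε).le),
        by linarith [not_lt.1 hh]⟩)
    have := h (fun p => f p s) (fun p => h1 p s) (h2 s) (by change G s < ε; linarith)
    simp only [G, this, sub_self] at hs
    have e : ‖(fun _ _ => 0 : P → P → ℝ)‖ = 0 := norm_zero
    linarith
  have h4 := h (fun p => f p t) (fun p => h1 p t) (h2 t) h3
  have xi : ∀ p i, ⟪x (b i), x p⟫ = x p i := fun p i => by rw [hb]; simp [EuclideanSpace.inner_single_left]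
  have ho : Orthonormal ℝ fun i => f (b i) t := by
    rw [orthonormal_iff_ite]
    intro i j
    rw [h4, xi, hb]; simp
  cases isEmpty_or_nonempty ι
  · exact ⟨LinearIsometryEquiv.refl ℝ _, fun p => Subsingleton.elim _ _⟩
  let B : OrthonormalBasis ι ℝ (EuclideanSpace ℝ ι) := OrthonormalBasis.mk ho
    (by rw [← coe_basisOfOrthonormalOfCardEqFinrank ho (by simp), Module.Basis.span_eq])
  refine ⟨B.repr.symm, fun p => B.repr.injective ?_⟩
  ext i
  rw [LinearIsometryEquiv.apply_symm_apply, B.repr_apply_apply, OrthonormalBasis.coe_mk, h4, xi]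

end Pool.Agent.H18.Jam
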