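import Mathlib
import Pool.Agent.H18.Jam

set_option autoImplicit false

namespace Pool.Agent.H18.Jam

open Finset RealInnerProductSpace

section abstract
variable {E : Type} [NormedAddCommGroup E] [InnerProductSpace ℝ E] (Λ : AddSubgroup E) (y : E → E)
  (hd : ∀ p ∈ Λ, ⟪p, p⟫ = 1 → ⟪y p, p⟫ = 0)
  (hc : ∀ p ∈ Λ, ∀ q ∈ Λ, ⟪p, p⟫ = 1 → ⟪q, q⟫ = 1 → ⟪p, q⟫ = 1 / 2 → ⟪y p, q⟫ + ⟪y q, p⟫ ≤ 0)
include hd hc

theorem hex {p q : E} (hp : p ∈ Λ) (hq : q ∈ Λ) (p1 : ⟪p, p⟫ = 1) (q1 : ⟪q, q⟫ = 1)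
    (h : ⟪p, q⟫ = 1 / 2) : ⟪y p, q⟫ + ⟪y q, p⟫ = 0 := by
  have h' : ⟪q, p⟫ = 1 / 2 := by rw [real_inner_comm, h]
  have r := Λ.sub_mem hq hp
  have r' := Λ.sub_mem hp hq
  have np := Λ.neg_mem hp
  have nq := Λ.neg_mem hq
  have n1 : ⟪q - p, q - p⟫ = 1 := by simp only [inner_sub_left, inner_sub_right]; linarith
  have n2 : ⟪p - q, p - q⟫ = 1 := by simp only [inner_sub_left, inner_sub_right]; linarith
  have n3 : ⟪-p, -p⟫ = 1 := by rw [inner_neg_neg, p1]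
  have n4 : ⟪-q, -q⟫ = 1 := by rw [inner_neg_neg, q1]
  have a0 := hc p hp q hq p1 q1 h
  have a1 := hc q hq _ r q1 n1 (by simp only [inner_sub_right]; linarith)
  have a2 := hc _ r _ np n1 n3 (by simp only [inner_sub_left, inner_neg_right]; linarith)
  have a3 := hc _ np _ nq n3 n4 (by rw [inner_neg_neg, h])
  have a4 := hc _ nq _ r' n4 n2 (by simp only [inner_sub_right, inner_neg_left]; linarith)
  have a5 := hc _ r' _ hp n2 p1 (by simp only [inner_sub_left]; linarith)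
  have b0 := hd p hp p1
  have b1 := hd q hq q1
  have b2 := hd _ r n1
  have b3 := hd _ np n3
  have b4 := hd _ nq n4
  have b5 := hd _ r' n2
  simp only [inner_sub_right, inner_neg_right] at a1 a2 a3 a4 a5 b2 b3 b4 b5
  linarith

theorem hex' {p q : E} (hp : p ∈ Λ) (hq : q ∈ Λ) (p1 : ⟪p, p⟫ = 1) (q1 : ⟪q, q⟫ = 1)
    (h : ⟪p, q⟫ = -(1 / 2)) : ⟪y p, q⟫ + ⟪y q, p⟫ = 0 := by
  have h' : ⟪q, p⟫ = -(1 / 2) := by rw [real_inner_comm, h]
  have r := Λ.add_mem hp hq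
  have n1 : ⟪p + q, p + q⟫ = 1 := by simp only [inner_add_left, inner_add_right]; linarith
  have a1 := hex Λ y hd hc hp r p1 n1 (by simp only [inner_add_right]; linarith)
  have a2 := hex Λ y hd hc hq r q1 n1 (by simp only [inner_add_right]; linarith)
  have b0 := hd p hp p1
  have b1 := hd q hq q1
  have b2 := hd _ r n1
  simp only [inner_add_right] at a1 a2 b2
  linarith

theorem sq {a a' b b' : E} (ha : a ∈ Λ) (ha' : a' ∈ Λ) (hb : b ∈ Λ) (hb' : b' ∈ Λ)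
    (a1 : ⟪a, a⟫ = 1) (a1' : ⟪a', a'⟫ = 1) (b1 : ⟪b, b⟫ = 1) (b1' : ⟪b', b'⟫ = 1)
    (e : a + a' = b + b') (h1 : ⟪a, b⟫ = 1 / 2) (h2 : ⟪a, b'⟫ = 1 / 2) (h3 : ⟪a', b⟫ = 1 / 2)
    (h4 : ⟪a', b'⟫ = 1 / 2) : ⟪y a, a'⟫ + ⟪y a', a⟫ + (⟪y b, b'⟫ + ⟪y b', b⟫) = 0 := by
  have c1 := hex Λ y hd hc ha hb a1 b1 h1
  have c2 := hex Λ y hd hc ha hb' a1 b1' h2
  have c3 := hex Λ y hd hc ha' hb a1' b1 h3
  have c4 := hex Λ y hd hc ha' hb' a1' b1' h4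
  have d1 := congrArg (fun v => ⟪y a, v⟫) e
  have d2 := congrArg (fun v => ⟪y a', v⟫) e
  have d3 := congrArg (fun v => ⟪y b, v⟫) e
  have d4 := congrArg (fun v => ⟪y b', v⟫) e
  simp only [inner_add_right] at d1 d2 d3 d4
  linarith [hd a ha a1, hd a' ha' a1', hd b hb b1, hd b' hb' b1']

theorem orth {p e b c : E} (hp : p ∈ Λ) (he : e ∈ Λ) (hb : b ∈ Λ) (hc' : c ∈ Λ)
    (p1 : ⟪p, p⟫ = 1) (e1 : ⟪e, e⟫ = 1) (b1 : ⟪b, b⟫ = 1) (c1 : ⟪c, c⟫ = 1) (h0 : ⟪p, e⟫ = 0)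
    (h1 : ⟪p, b⟫ = 1 / 2) (h2 : ⟪e, b⟫ = 1 / 2) (h3 : ⟪p, c⟫ = 1 / 2) (h4 : ⟪e, c⟫ = 1 / 2)
    (h5 : ⟪b, c⟫ = 1 / 2) : ⟪y p, e⟫ + ⟪y e, p⟫ = 0 := by
  have g0 := real_inner_comm p e
  have g1 := real_inner_comm p b
  have g2 := real_inner_comm e b
  have g3 := real_inner_comm p c
  have g4 := real_inner_comm e c
  have g5 := real_inner_comm b c
  have m1 := Λ.sub_mem (Λ.add_mem hp he) hb
  have m2 := Λ.sub_mem (Λ.add_mem hp he) hc'
  have n1 : ⟪p + e - b, p + e - b⟫ = 1 := by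
    simp only [inner_add_left, inner_add_right, inner_sub_left, inner_sub_right]; linarith
  have n2 : ⟪p + e - c, p + e - c⟫ = 1 := by
    simp only [inner_add_left, inner_add_right, inner_sub_left, inner_sub_right]; linarith
  have s1 := sq Λ y hd hc hp he hb m1 p1 e1 b1 n1 (by abel) h1
    (by simp only [inner_add_right, inner_sub_right]; linarith) h2
    (by simp only [inner_add_right, inner_sub_right]; linarith)
  have s2 := sq Λ y hd hc hp he hc' m2 p1 e1 c1 n2 (by abel) h3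
    (by simp only [inner_add_right, inner_sub_right]; linarith) h4
    (by simp only [inner_add_right, inner_sub_right]; linarith)
  have s3 := sq Λ y hd hc hb m1 hc' m2 b1 n1 c1 n2 (by abel) h5
    (by simp only [inner_add_right, inner_sub_right]; linarith)
    (by simp only [inner_add_left, inner_sub_left]; linarith)
    (by simp only [inner_add_left, inner_add_right, inner_sub_left, inner_sub_right]; linarith)
  linarith
end abstract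

variable {ι : Type} [Fintype ι] [DecidableEq ι]

theorem lin (Λ : AddSubgroup (EuclideanSpace ℝ ι)) (C : Finset (EuclideanSpace ℝ ι))
    (hC : ∀ v, v ∈ C ↔ v ∈ Λ ∧ ⟪v, v⟫ = 1) (b : ι → C)
    (hb : ∀ i, (b i).1 = EuclideanSpace.single i 1)
    (hv : ∀ p ∈ C, ∀ k, p k = 0 ∨ p k = 1 / 2 ∨ p k = -(1 / 2) ∨ p k = 1 ∨ p k = -1)
    (ho : ∀ p ∈ C, ∀ k, p k = 0 → ∃ b ∈ C, ∃ c ∈ C, ⟪p, b⟫ = 1 / 2 ∧ b k = 1 / 2 ∧ ⟪p, c⟫ = 1 / 2 ∧
      c k = 1 / 2 ∧ ⟪b, c⟫ = 1 / 2)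
    (Δ : C → C → ℝ) (h1 : ∀ p, Δ p p = 0) (h2 : ∀ p q, Δ p q = Δ q p)
    (h3 : ∀ p q : C, ⟪p.1, q.1⟫ = 1 / 2 → Δ p q ≤ 0) (h4 : L Subtype.val b Δ = 0) : Δ = 0 := by
  classical
  let y : EuclideanSpace ℝ ι → EuclideanSpace ℝ ι := fun v => if h : v ∈ C then
    WithLp.toLp 2 fun i => Δ ⟨v, h⟩ (b i) - (∑ j, v j * Δ (b j) (b i)) / 2 else 0
  have y1 : ∀ p q : C, ⟪y p.1, q.1⟫ = ∑ i, q.1 i * Δ p (b i) -
      (∑ i, ∑ j, p.1 i * q.1 j * Δ (b i) (b j)) / 2 := by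
    intro p q
    simp only [y, dif_pos p.2, PiLp.inner_apply, RCLike.inner_apply, conj_trivial, sub_mul, mul_sub,
      sum_sub_distrib]
    rw [sum_comm, sum_div]
    congr 1
    refine sum_congr rfl fun i _ => ?_
    rw [← mul_div_assoc, mul_sum]
    congr 1
    exact sum_congr rfl fun j _ => by ring
  have y2 : ∀ p q : C, Δ p q = ⟪y p.1, q.1⟫ + ⟪y q.1, p.1⟫ := by
    intro p q
    have := congrFun (congrFun h4 p) q
    simp only [L, Pi.zero_apply] at this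
    rw [y1, y1, sum_comm (f := fun i j => q.1 i * p.1 j * Δ (b i) (b j))]
    have e1 : ∑ i, p.1 i * Δ q (b i) = ∑ i, p.1 i * Δ (b i) q := sum_congr rfl fun i _ => by rw [h2]
    have e2 : ∑ j, ∑ i, q.1 i * p.1 j * Δ (b i) (b j) = ∑ i, ∑ j, p.1 i * q.1 j * Δ (b i) (b j) :=
      sum_congr rfl fun i _ => sum_congr rfl fun j _ => by rw [h2, mul_comm (q.1 j)]
    linarith
  have hd : ∀ p ∈ Λ, ⟪p, p⟫ = 1 → ⟪y p, p⟫ = 0 := fun p a1 a2 => by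
    have := y2 ⟨p, (hC p).2 ⟨a1, a2⟩⟩ ⟨p, (hC p).2 ⟨a1, a2⟩⟩
    rw [h1] at this
    linarith
  have hc : ∀ p ∈ Λ, ∀ q ∈ Λ, ⟪p, p⟫ = 1 → ⟪q, q⟫ = 1 → ⟪p, q⟫ = 1 / 2 →
      ⟪y p, q⟫ + ⟪y q, p⟫ ≤ 0 := fun p a1 q a2 a3 a4 a5 => by
    rw [← y2 ⟨p, (hC p).2 ⟨a1, a3⟩⟩ ⟨q, (hC q).2 ⟨a2, a4⟩⟩]
    exact h3 _ _ a5
  have xi : ∀ (v : EuclideanSpace ℝ ι) i, ⟪v, (b i).1⟫ = v i := fun v i => by
    rw [hb]; simp [EuclideanSpace.inner_single_right]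
  have key : ∀ p k, Δ p (b k) = 0 := by
    intro p k
    obtain ⟨p1, p2⟩ := (hC _).1 p.2
    obtain ⟨e1, e2⟩ := (hC _).1 (b k).2
    rcases hv p.1 p.2 k with h | h | h | h | h
    · obtain ⟨u, hu, c, hc', a1, a2, a3, a4, a5⟩ := ho p.1 p.2 k h
      rw [y2]
      exact orth Λ y hd hc p1 e1 ((hC _).1 hu).1 ((hC _).1 hc').1 p2 e2 ((hC _).1 hu).2
        ((hC _).1 hc').2 (by rw [xi, h]) a1 (by rw [real_inner_comm, xi, a2]) a3
        (by rw [real_inner_comm, xi, a4]) a5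
    · rw [y2]; exact hex Λ y hd hc p1 e1 p2 e2 (by rw [xi, h])
    · rw [y2]; exact hex' Λ y hd hc p1 e1 p2 e2 (by rw [xi, h])
    · have : p.1 - (b k).1 = 0 := by
        rw [← inner_self_eq_zero (𝕜 := ℝ), inner_sub_left, inner_sub_right, inner_sub_right, p2, e2,
          real_inner_comm p.1, xi, h]
        norm_num
      rw [Subtype.ext (sub_eq_zero.1 this), h1]
    · have : p.1 + (b k).1 = 0 := by
        rw [← inner_self_eq_zero (𝕜 := ℝ), inner_add_left, inner_add_right, inner_add_right, p2, e2,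
          real_inner_comm p.1, xi, h]
        norm_num
      have d1 := congrArg (fun v => ⟪y p.1, v⟫) this
      have d2 := congrArg (fun v => ⟪y (b k).1, v⟫) this
      simp only [inner_add_right, inner_zero_right] at d1 d2
      rw [y2]
      linarith [hd _ p1 p2, hd _ e1 e2]
  funext p q
  have := congrFun (congrFun h4 p) q
  simpa [L, key, h2 (b _) q] using this

end Pool.Agent.H18.Jam
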