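import Mathlib
import Pool.Agent.H18.Jam2

set_option autoImplicit false

namespace Pool.Agent.H18.Jam

open Finset RealInnerProductSpace

variable {ι V : Type} [Fintype ι] [DecidableEq ι] [AddCommGroup V] (σ : ι ≃ V)

def Lam : AddSubgroup (ι → ℤ) where
  carrier := {z | ∑ i, z i • σ i = 0 ∧ Even (∑ i, z i)}
  add_mem' := fun {a b} ha hb => ⟨by simp [add_smul, sum_add_distrib, ha.1, hb.1], by
    simp only [Pi.add_apply, sum_add_distrib]; exact ha.2.add hb.2⟩
  zero_mem' := ⟨by simp, by simp⟩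
  neg_mem' := fun {a} ha => ⟨by simp [ha.1], by
    simp only [Pi.neg_apply, sum_neg_distrib]; exact ha.2.neg⟩

noncomputable def emb : (ι → ℤ) →+ EuclideanSpace ℝ ι where
  toFun z := WithLp.toLp 2 fun i => (z i : ℝ) / 2
  map_zero' := by ext i; simp
  map_add' a b := by ext i; simp [add_div]

theorem emb_inner (z w : ι → ℤ) : ⟪emb z, emb w⟫ = ((∑ i, z i * w i : ℤ) : ℝ) / 4 := by
  simp only [emb, AddMonoidHom.coe_mk, ZeroHom.coe_mk, PiLp.inner_apply, RCLike.inner_apply,
    conj_trivial]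
  push_cast
  rw [sum_div]
  exact sum_congr rfl fun i _ => by ring

def four (a b c d : ι) (s t u v : ℤ) : ι → ℤ :=
  Pi.single a s + Pi.single b t + Pi.single c u + Pi.single d v

theorem ip_four (z : ι → ℤ) (a b c d : ι) (s t u v : ℤ) :
    ∑ i, z i * four a b c d s t u v i = z a * s + z b * t + z c * u + z d * v := by
  simp [four, mul_add, sum_add_distrib, Pi.single_apply]

variable (h2 : ∀ v : V, v + v = 0)
include h2

omit [Fintype ι] [DecidableEq ι] σ in
theorem odd_smul {s : ℤ} (hs : s * s = 1) (v : V) : s • v = v := by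
  rcases Int.eq_one_or_neg_one_of_mul_eq_one hs with rfl | rfl
  · simp
  · rw [neg_smul, one_smul, neg_eq_iff_add_eq_zero, h2]

theorem four_mem {a b c d : ι} {s t u v : ℤ} (hs : s * s = 1) (ht : t * t = 1) (hu : u * u = 1)
    (hv : v * v = 1) (h : σ a + σ b + σ c + σ d = 0) : four a b c d s t u v ∈ Lam σ := by
  constructor
  · simp [four, add_smul, sum_add_distrib, Pi.single_apply, odd_smul h2, hs, ht, hu, hv, h]
  · simp only [four, Pi.add_apply, sum_add_distrib, sum_pi_single', mem_univ, if_true]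
    rcases Int.eq_one_or_neg_one_of_mul_eq_one hs with rfl | rfl <;>
    rcases Int.eq_one_or_neg_one_of_mul_eq_one ht with rfl | rfl <;>
    rcases Int.eq_one_or_neg_one_of_mul_eq_one hu with rfl | rfl <;>
    rcases Int.eq_one_or_neg_one_of_mul_eq_one hv with rfl | rfl <;> decide

omit h2 σ in
theorem supp (z : ι → ℤ) (h : ∀ i, z i * z i ≤ 1) :
    ∑ i, z i * z i = (univ.filter fun i => z i * z i = 1).card := by
  rw [card_filter]
  push_cast
  refine sum_congr rfl fun i _ => ?_
  have := h i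
  have := mul_self_nonneg (z i)
  split_ifs <;> omega

theorem minn {z : ι → ℤ} (hz : z ∈ Lam σ) (h0 : z ≠ 0) : 4 ≤ ∑ i, z i * z i := by
  by_contra hh
  have h1 : ∀ i, z i * z i ≤ 1 := fun i => by
    have := single_le_sum (f := fun i => z i * z i) (fun i _ => mul_self_nonneg _) (mem_univ i)
    by_contra h
    have : 2 ≤ z i ∨ z i ≤ -2 := by
      by_contra h'
      push Not at h'
      obtain ⟨a, b⟩ := h'
      interval_cases z i <;> simp at h
    rcases this with h | h <;> nlinarith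
  have h3 := supp z h1
  have h4 : Even (∑ i, z i * z i) := by
    have : Even (∑ i, z i * z i - ∑ i, z i) := by
      rw [← sum_sub_distrib]
      exact even_sum _ fun i _ => by
        rw [← mul_sub_one]; exact Int.even_mul_pred_self _
    simpa using this.add hz.2
  have h5 : (univ.filter fun i => z i * z i = 1).card ≠ 0 := by
    obtain ⟨i, hi⟩ := Function.ne_iff.1 h0
    have := h1 i
    have := mul_self_pos.2 hi
    exact card_ne_zero_of_mem (a := i) (mem_filter.2 ⟨mem_univ _, by omega⟩)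
  obtain ⟨r, hr⟩ := h4
  obtain ⟨a, b, hab, h6⟩ := card_eq_two.1 (by omega : (univ.filter fun i => z i * z i = 1).card = 2)
  have h7 : ∀ i, i ∈ ({a, b} : Finset ι) ↔ z i * z i = 1 := fun i => by rw [← h6]; simp
  have h8 : ∑ i, z i • σ i = ∑ i ∈ {a, b}, z i • σ i := by
    refine (sum_subset (subset_univ _) fun i _ hi => ?_).symm
    rw [h7] at hi
    have := h1 i
    have := mul_self_nonneg (z i)
    rw [mul_self_eq_zero.1 (by omega : z i * z i = 0), zero_smul]
  rw [hz.1, sum_pair hab, odd_smul h2 ((h7 a).1 (by simp)), odd_smul h2 ((h7 b).1 (by simp))] at h8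
  exact hab (σ.injective (add_right_cancel (h8.symm.trans (h2 _).symm)))

omit [Fintype ι] [DecidableEq ι] in
theorem fourth {a b c : ι} (hab : a ≠ b) (hac : a ≠ c) (hbc : b ≠ c) :
    ∃ d, a ≠ d ∧ b ≠ d ∧ c ≠ d ∧ σ a + σ b + σ c + σ d = 0 := by
  have k : ∀ {x y : ι}, σ x + σ y = 0 → x = y := fun h =>
    σ.injective (add_right_cancel (h.trans (h2 _).symm))
  refine ⟨σ.symm (σ a + σ b + σ c), fun h => hbc (k ?_), fun h => hac (k ?_), fun h => hab (k ?_),
    by rw [σ.apply_symm_apply, h2]⟩ <;>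
  · rw [Equiv.eq_symm_apply] at h
    rw [← sub_eq_zero.2 h.symm]; abel

theorem orth_int (h3 : 3 ≤ Fintype.card ι) {z : ι → ℤ} (hz : z ∈ Lam σ) (h4 : ∑ i, z i * z i = 4)
    (k : ι) (hk : z k = 0) : ∃ b ∈ Lam σ, ∃ c ∈ Lam σ, ∑ i, b i * b i = 4 ∧ ∑ i, c i * c i = 4 ∧
      ∑ i, z i * b i = 2 ∧ b k = 1 ∧ ∑ i, z i * c i = 2 ∧ c k = 1 ∧ ∑ i, b i * c i = 2 := by
  have : ∃ a b l, ∃ s t : ℤ, a ≠ b ∧ a ≠ k ∧ b ≠ k ∧ a ≠ l ∧ b ≠ l ∧ k ≠ l ∧ s * s = 1 ∧ t * t = 1 ∧
      σ a + σ b + σ k + σ l = 0 ∧ z a * s + z b * t = 2 ∧ z l = 0 := by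
    by_cases h1 : ∀ i, z i * z i ≤ 1
    · obtain ⟨a, ha, b, hb, hab⟩ := one_lt_card.1
        (by have := supp z h1; omega : 1 < (univ.filter fun i => z i * z i = 1).card)
      rw [mem_filter] at ha hb
      have hak : a ≠ k := fun e => by rw [e, hk] at ha; simp at ha
      have hbk : b ≠ k := fun e => by rw [e, hk] at hb; simp at hb
      obtain ⟨l, l1, l2, l3, l4⟩ := fourth σ h2 hab hak hbk
      refine ⟨a, b, l, z a, z b, hab, hak, hbk, l1, l2, l3, ha.2, hb.2, l4, by omega, ?_⟩
      by_contra hl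
      have hl1 : z l * z l = 1 := by have := h1 l; have := mul_self_pos.2 hl; omega
      have := minn σ h2 ((Lam σ).sub_mem hz (four_mem σ h2 ha.2 hb.2 (one_mul 1) hl1 l4)) fun h => by
        have := congrFun h k
        simp [four, hk, hak, hbk, l3] at this
      simp only [Pi.sub_apply, sub_mul, mul_sub, sum_sub_distrib, ip_four, mul_comm (four _ _ _ _ _ _ _ _ _) (z _)] at this
      simp [four, hab, hak, hbk, l1, l2, l3, hab.symm, hak.symm, hbk.symm, l1.symm, l2.symm, l3.symm] at this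
      omega
    · push Not at h1
      obtain ⟨a, ha⟩ := h1
      have h5 := add_sum_erase univ (fun i => z i * z i) (mem_univ a)
      have h6 : 0 ≤ ∑ i ∈ univ.erase a, z i * z i := sum_nonneg fun i _ => mul_self_nonneg _
      have h7 : z a = 2 ∨ z a = -2 := by
        have b1 : z a ≤ 2 := by nlinarith
        have b2 : -2 ≤ z a := by nlinarith
        interval_cases z a <;> simp at ha ⊢
      have h8 : ∀ i, a ≠ i → z i = 0 := fun i hi => mul_self_eq_zero.1
        ((sum_eq_zero_iff_of_nonneg (s := univ.erase a) fun i _ => mul_self_nonneg (z i)).1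
          (by rcases h7 with h | h <;> simp only [h] at h5 <;> omega) i (by simp [hi.symm]))
      have hak : a ≠ k := fun e => by rw [e, hk] at ha; simp at ha
      obtain ⟨b, hb⟩ : ∃ b, b ∉ ({a, k} : Finset ι) := by
        by_contra hh
        push Not at hh
        have : Fintype.card ι ≤ ({a, k} : Finset ι).card := card_le_card fun w _ => hh w
        have := card_le_two (a := a) (b := k)
        omega
      simp only [mem_insert, mem_singleton, not_or] at hb
      obtain ⟨l, l1, l2, l3, l4⟩ := fourth σ h2 (Ne.symm hb.1) hak hb.2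
      refine ⟨a, b, l, z a / 2, 1, Ne.symm hb.1, hak, hb.2, l1, l2, l3, ?_, one_mul 1, l4, ?_, h8 l l1⟩
      · rcases h7 with h | h <;> simp [h]
      · rw [h8 b (Ne.symm hb.1)]; rcases h7 with h | h <;> simp [h]
  obtain ⟨a, b, l, s, t, hab, hak, hbk, l1, l2, l3, hs, ht, l4, e1, e2⟩ := this
  refine ⟨_, four_mem σ h2 hs ht (one_mul 1) (one_mul 1) l4, _,
    four_mem σ h2 hs ht (one_mul 1) (by norm_num : (-1 : ℤ) * -1 = 1) l4, ?_⟩
  simp only [ip_four]
  simp [four, hab, hak, hbk, l1, l2, l3, hab.symm, hak.symm, hbk.symm, l1.symm, l2.symm, l3.symm,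
    hs, ht, hk, e1, e2]

end Pool.Agent.H18.Jam
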