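import Mathlib

open CategoryTheory

namespace Pool.Agent.H18.KCoh

abbrev C2 := Multiplicative (ZMod 2)

def gen : C2 := Multiplicative.ofAdd 1

lemma hgen : ∀ x : C2, x ∈ Subgroup.zpowers gen := by
  intro x
  have : x = 1 ∨ x = gen := by revert x; decide
  rcases this with h | h
  · rw [h]; exact one_mem _
  · rw [h]; exact Subgroup.mem_zpowers _

lemma norm_zero (v : ZMod 2) : (Rep.trivial ℤ C2 (ZMod 2)).norm.hom.toLinearMap v = 0 := by
  have : (Rep.trivial ℤ C2 (ZMod 2)).norm.hom.toLinearMap v = ∑ _g : C2, v := by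
    simp [Rep.norm, Representation.norm]
  rw [this]
  clear this
  revert v
  decide

lemma sub_zero' (v : ZMod 2) :
    (Rep.applyAsHom (Rep.trivial ℤ C2 (ZMod 2)) gen - 𝟙 _).hom.toLinearMap v = 0 := by
  simp [Rep.sub_hom, Rep.applyAsHom]

lemma nontrivial_C2 (n : ℕ) : Nontrivial (groupCohomology (Rep.trivial ℤ C2 (ZMod 2)) n) := by
  rcases Nat.even_or_odd n with h | h
  · by_cases h0 : n = 0
    · subst h0
      have e := (Rep.FiniteCyclicGroup.groupCohomologyIso₀ (Rep.trivial ℤ C2 (ZMod 2)) gen hgen).toLinearEquiv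
      have : Nontrivial (LinearMap.ker (Rep.applyAsHom (Rep.trivial ℤ C2 (ZMod 2)) gen - 𝟙 _).hom.toLinearMap) := by
        refine ⟨⟨⟨(1 : ZMod 2), sub_zero' 1⟩, 0, fun h => ?_⟩⟩
        have : (1 : ZMod 2) = 0 := congrArg Subtype.val h
        exact absurd this (by decide)
      exact e.symm.injective.nontrivial
    · haveI : NeZero n := ⟨h0⟩
      refine ⟨⟨Rep.FiniteCyclicGroup.groupCohomologyπEven (Rep.trivial ℤ C2 (ZMod 2)) gen hgen n h
        ⟨(1 : ZMod 2), sub_zero' 1⟩, 0, fun h' => ?_⟩⟩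
      rw [Rep.FiniteCyclicGroup.groupCohomologyπEven_eq_zero_iff] at h'
      obtain ⟨v, hv⟩ := h'
      rw [norm_zero] at hv
      exact absurd (show (0 : ZMod 2) = 1 from hv) (by decide)
  · refine ⟨⟨Rep.FiniteCyclicGroup.groupCohomologyπOdd (Rep.trivial ℤ C2 (ZMod 2)) gen hgen n h
        ⟨(1 : ZMod 2), norm_zero 1⟩, 0, fun h' => ?_⟩⟩
    rw [Rep.FiniteCyclicGroup.groupCohomologyπOdd_eq_zero_iff] at h'
    obtain ⟨v, hv⟩ := h'
    rw [sub_zero'] at hv
    exact absurd (show (0 : ZMod 2) = 1 from hv) (by decide)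

def resTriv {G H : Type} [Group G] [Group H] (f : G →* H) :
    Rep.res f (Rep.trivial ℤ H (ZMod 2)) ⟶ Rep.trivial ℤ G (ZMod 2) :=
  Rep.ofHom ⟨LinearMap.id, fun _ => rfl⟩

lemma nontrivial_of_retract {Q : Type} [Group Q] (r : Q →* C2) (s : C2 →* Q)
    (hrs : r.comp s = MonoidHom.id C2) (n : ℕ) :
    Nontrivial (groupCohomology (Rep.trivial ℤ Q (ZMod 2)) n) := by
  have h1 := groupCohomology.map_comp r s (resTriv r) (resTriv s) n
  have h2 : groupCohomology.map (A := Rep.trivial ℤ C2 (ZMod 2)) (r.comp s)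
      ((Rep.resFunctor s).map (resTriv r) ≫ resTriv s) n
      = groupCohomology.map (A := Rep.trivial ℤ C2 (ZMod 2)) (MonoidHom.id C2)
        (𝟙 (Rep.trivial ℤ C2 (ZMod 2))) n :=
    groupCohomology.map_congr hrs (LinearMap.ext fun _ => rfl) n
  have h3 := groupCohomology.map_id (B := Rep.trivial ℤ C2 (ZMod 2)) n
  replace h1 := (h2.trans h3).symm.trans h1
  haveI := nontrivial_C2 n
  have hinj : Function.Injective (groupCohomology.map r (resTriv r) n) := by
    intro a b hab
    have ha := congrArg (fun φ => φ.hom a) h1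
    have hb := congrArg (fun φ => φ.hom b) h1
    simp only [ModuleCat.hom_id, LinearMap.id_coe, id_eq, ModuleCat.hom_comp, LinearMap.coe_comp,
      Function.comp_apply] at ha hb
    rw [ha, hb]
    exact congrArg _ hab
  exact hinj.nontrivial

lemma nontrivial_of_invol {Q : Type} [Group Q] (r : Q →* C2) (a : Q) (ha : a * a = 1)
    (hr : r a = gen) (n : ℕ) :
    Nontrivial (groupCohomology (Rep.trivial ℤ Q (ZMod 2)) n) := by
  have hc : ∀ x : C2, x = 1 ∨ x = gen := by decide
  have hg : gen ≠ 1 := by decide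
  have hgg : gen * gen = 1 := by decide
  let s : C2 →* Q :=
    { toFun := fun x => if x = 1 then 1 else a
      map_one' := by simp
      map_mul' := fun x y => by
        rcases hc x with rfl | rfl <;> rcases hc y with rfl | rfl <;> simp [hg, hgg, ha] }
  refine nontrivial_of_retract r s ?_ n
  refine MonoidHom.ext fun x => ?_
  rcases hc x with rfl | rfl
  · simp
  · simp [s, hg, hr]

end Pool.Agent.H18.KCoh
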