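import Mathlib

open Set Metric Topology

namespace Pool.Agent.H18.Klein

def eps (n : ℤ) : ℤ := if n % 2 = 0 then 1 else -1

lemma eps_cases (n : ℤ) : (n % 2 = 0 ∧ eps n = 1) ∨ (n % 2 = 1 ∧ eps n = -1) := by
  unfold eps; split_ifs with h
  · exact Or.inl ⟨h, rfl⟩
  · exact Or.inr ⟨by omega, rfl⟩

lemma eps_add (a b : ℤ) : eps (a + b) = eps a * eps b := by
  rcases eps_cases a with ⟨h1, h2⟩ | ⟨h1, h2⟩ <;> rcases eps_cases b with ⟨h3, h4⟩ | ⟨h3, h4⟩ <;>
    rcases eps_cases (a + b) with ⟨h5, h6⟩ | ⟨h5, h6⟩ <;> simp [h2, h4, h6] <;> omega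

lemma eps_neg (a : ℤ) : eps (-a) = eps a := by
  rcases eps_cases a with ⟨h1, h2⟩ | ⟨h1, h2⟩ <;> rcases eps_cases (-a) with ⟨h3, h4⟩ | ⟨h3, h4⟩ <;>
    simp [h2, h4] <;> omega

lemma eps_sq (a : ℤ) : eps a * eps a = 1 := by
  rcases eps_cases a with ⟨h1, h2⟩ | ⟨h1, h2⟩ <;> simp [h2]

lemma eps_zero : eps 0 = 1 := rfl

@[ext] structure Gm where
  n : ℤ
  k : ℤ
  h : (n + k) % 2 = 0

instance : Mul Gm := ⟨fun a b => ⟨a.n + b.n, eps a.n * b.k + a.k, by
  have := a.h; have := b.h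
  rcases eps_cases a.n with ⟨h1, h2⟩ | ⟨h1, h2⟩ <;> rw [h2] <;> omega⟩⟩
instance : One Gm := ⟨⟨0, 0, rfl⟩⟩
instance : Inv Gm := ⟨fun a => ⟨-a.n, -(eps a.n * a.k), by
  have := a.h
  rcases eps_cases a.n with ⟨h1, h2⟩ | ⟨h1, h2⟩ <;> rw [h2] <;> omega⟩⟩

@[simp] lemma mul_n (a b : Gm) : (a * b).n = a.n + b.n := rfl
@[simp] lemma mul_k (a b : Gm) : (a * b).k = eps a.n * b.k + a.k := rfl
@[simp] lemma one_n : (1 : Gm).n = 0 := rfl
@[simp] lemma one_k : (1 : Gm).k = 0 := rfl
@[simp] lemma inv_n (a : Gm) : (a⁻¹).n = -a.n := rfl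
@[simp] lemma inv_k (a : Gm) : (a⁻¹).k = -(eps a.n * a.k) := rfl

instance : Group Gm := Group.ofLeftAxioms
  (fun a b c => by
    ext
    · simp [add_assoc]
    · simp [eps_add]; ring)
  (fun a => by ext <;> simp [eps_zero])
  (fun a => by ext <;> simp [eps_neg])

abbrev E := ℝ × ℝ

instance : SMul Gm E := ⟨fun g e => (e.1 + g.n, (eps g.n : ℝ) * e.2 + g.k)⟩

@[simp] lemma smul_fst (g : Gm) (e : E) : (g • e).1 = e.1 + g.n := rfl
@[simp] lemma smul_snd (g : Gm) (e : E) : (g • e).2 = (eps g.n : ℝ) * e.2 + g.k := rfl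

instance : MulAction Gm E where
  one_smul e := by ext <;> simp [eps_zero]
  mul_smul a b e := by
    ext
    · simp; ring
    · simp [eps_add]; ring

instance : ContinuousConstSMul Gm E := ⟨fun g => by
  change Continuous fun e : E => (e.1 + (g.n : ℝ), (eps g.n : ℝ) * e.2 + g.k)
  fun_prop⟩

instance : IsCancelSMul Gm E := isCancelSMul_iff_eq_one_of_smul_eq.mpr fun g e h => by
  have h1 := congrArg Prod.fst h
  have h2 := congrArg Prod.snd h
  simp only [smul_fst, smul_snd, add_eq_left, Int.cast_eq_zero] at h1 h2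
  rw [h1, eps_zero] at h2
  ext
  · simpa using h1
  · simpa using h2

lemma abs_eps (n : ℤ) : |(eps n : ℝ)| = 1 := by
  rcases eps_cases n with ⟨h1, h2⟩ | ⟨h1, h2⟩ <;> simp [h2]

instance : ProperlyDiscontinuousSMul Gm E := ⟨fun {K L} hK hL => by
  obtain ⟨R, hR⟩ := (hK.union hL).isBounded.exists_norm_le
  obtain ⟨N, hN⟩ := exists_nat_ge (2 * R)
  have hfin : ((fun g : Gm => (g.n, g.k)) ⁻¹' (Icc (-(N : ℤ)) N ×ˢ Icc (-(N : ℤ)) N)).Finite :=
    Set.Finite.preimage (fun a _ b _ h => by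
      ext
      · exact congrArg Prod.fst h
      · exact congrArg Prod.snd h) ((finite_Icc _ _).prod (finite_Icc _ _))
  refine hfin.subset ?_
  rintro g ⟨_, ⟨e, he, rfl⟩, hl⟩
  have h1 := hR e (Or.inl he)
  have h2 := hR _ (Or.inr hl)
  have a1 : |e.1| ≤ R := (norm_fst_le e).trans h1
  have a2 : |e.2| ≤ R := (norm_snd_le e).trans h1
  have a3 : |e.1 + g.n| ≤ R := (norm_fst_le (g • e)).trans h2
  have a4 : |(eps g.n : ℝ) * e.2 + g.k| ≤ R := (norm_snd_le (g • e)).trans h2
  have a5 : |(eps g.n : ℝ) * e.2| ≤ R := by rw [abs_mul, abs_eps, one_mul]; exact a2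
  rw [abs_le] at a1 a3 a4 a5
  have b1 : -(N : ℝ) ≤ g.n ∧ (g.n : ℝ) ≤ N := ⟨by linarith, by linarith⟩
  have b2 : -(N : ℝ) ≤ g.k ∧ (g.k : ℝ) ≤ N := ⟨by linarith, by linarith⟩
  refine ⟨⟨?_, ?_⟩, ?_, ?_⟩
  · exact_mod_cast b1.1
  · exact_mod_cast b1.2
  · exact_mod_cast b2.1
  · exact_mod_cast b2.2⟩

def X : Type := Quotient (MulAction.orbitRel Gm E)

instance : TopologicalSpace X := inferInstanceAs (TopologicalSpace (Quotient _))

instance : T2Space X := inferInstanceAs (T2Space (Quotient (MulAction.orbitRel Gm E)))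

def p : E → X := Quotient.mk (MulAction.orbitRel Gm E)

lemma hp : IsQuotientCoveringMap p Gm :=
  isQuotientCoveringMap_quotientMk_of_properlyDiscontinuousSMul

lemma p_cont : Continuous p := hp.continuous

lemma p_eq {e e' : E} : p e = p e' ↔ ∃ g : Gm, g • e' = e := hp.apply_eq_iff_mem_orbit

lemma p_smul (g : Gm) (e : E) : p (g • e) = p e := p_eq.2 ⟨g, rfl⟩

lemma key {e e' : E} (h : p e = p e') (h1 : |e.1 - e'.1| < 1) (h2 : |e.2 - e'.2| < 2) : e = e' := by
  obtain ⟨g, rfl⟩ := p_eq.1 h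
  simp only [smul_fst, add_sub_cancel_left] at h1
  have hn : g.n = 0 := by
    have : |g.n| < 1 := by exact_mod_cast h1
    exact Int.abs_lt_one_iff.1 this
  simp only [smul_snd, hn, eps_zero, Int.cast_one, one_mul, add_sub_cancel_left] at h2
  have hk : g.k = 0 := by
    have h3 : |g.k| < 2 := by exact_mod_cast h2
    have := g.h
    rw [abs_lt] at h3
    omega
  have : g = 1 := by ext <;> simp [hn, hk]
  rw [this, one_smul]

lemma exists_rep (x : X) : ∃ e : E, p e = x ∧ 0 ≤ e.1 ∧ e.1 < 1 ∧ -1 / 2 ≤ e.2 ∧ e.2 < 3 / 2 := by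
  obtain ⟨e, rfl⟩ := hp.surjective x
  let g : Gm := ⟨-⌊e.1⌋, -⌊e.1⌋, by omega⟩
  let e1 := g • e
  let m : ℤ := ⌊(e1.2 + 1 / 2) / 2⌋
  let g2 : Gm := ⟨0, -2 * m, by omega⟩
  have hm1 : (m : ℝ) ≤ (e1.2 + 1 / 2) / 2 := Int.floor_le _
  have hm2 : (e1.2 + 1 / 2) / 2 < m + 1 := Int.lt_floor_add_one _
  have f1 := Int.floor_le e.1
  have f2 := Int.lt_floor_add_one e.1
  refine ⟨g2 • e1, by rw [p_smul, p_smul], ?_, ?_, ?_, ?_⟩
  · simp only [g2, e1, g, smul_fst]; push_cast; linarith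
  · simp only [g2, e1, g, smul_fst]; push_cast; linarith
  · simp only [g2, smul_snd, eps_zero]; push_cast; linarith
  · simp only [g2, smul_snd, eps_zero]; push_cast; linarith

instance : CompactSpace X := ⟨by
  have : (univ : Set X) = p '' (Icc 0 1 ×ˢ Icc (-1 / 2) (3 / 2)) := by
    refine (eq_univ_of_forall fun x => ?_).symm
    obtain ⟨e, rfl, h1, h2, h3, h4⟩ := exists_rep x
    exact ⟨e, ⟨⟨h1, h2.le⟩, h3, h4.le⟩, rfl⟩
  rw [this]
  exact (isCompact_Icc.prod isCompact_Icc).image p_cont⟩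

instance : PathConnectedSpace X := hp.surjective.pathConnectedSpace p_cont

lemma contOn_inv {F Y : Type} [NormedAddCommGroup F] [ProperSpace F] [TopologicalSpace Y] [T2Space Y]
    (f : F → Y) (hf : Continuous f)
    (hi : ∀ x ∈ ball (0 : F) 1, ∀ y ∈ closedBall (0 : F) 1, f x = f y → x = y)
    (h : InjOn f (ball 0 1)) :
    ContinuousOn (h.toPartialEquiv f (ball 0 1)).symm (h.toPartialEquiv f (ball 0 1)).target := by
  rw [continuousOn_iff_isClosed]
  intro C hC
  refine ⟨f '' (closedBall 0 1 ∩ C), (((isCompact_closedBall 0 1).inter_right hC).image hf).isClosed, ?_⟩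
  ext y
  constructor
  · rintro ⟨hy, x, hx, rfl⟩
    refine ⟨⟨x, ⟨ball_subset_closedBall hx, ?_⟩, rfl⟩, x, hx, rfl⟩
    have := (h.toPartialEquiv f (ball 0 1)).left_inv (x := x) hx
    rw [← this]
    exact hy
  · rintro ⟨⟨z, ⟨hz, hzC⟩, hzy⟩, x, hx, rfl⟩
    refine ⟨?_, x, hx, rfl⟩
    have h1 := (h.toPartialEquiv f (ball 0 1)).left_inv (x := x) hx
    have h2 := hi x hx z hz hzy.symm
    change (h.toPartialEquiv f (ball 0 1)).symm ((h.toPartialEquiv f (ball 0 1)) x) ∈ C
    rw [h1, h2]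
    exact hzC

def cell : ℕ → Type
  | 0 => Unit
  | 1 => Bool
  | 2 => Unit
  | _ + 3 => Empty

noncomputable def cm : (n : ℕ) → cell n → (Fin n → ℝ) → E
  | 0, _, _ => (0, -1 / 2)
  | 1, true, x => ((x 0 + 1) / 2, -1 / 2)
  | 1, false, x => (0, x 0 + 1 / 2)
  | 2, _, x => ((x 0 + 1) / 2, x 1 + 1 / 2)
  | _ + 3, i, _ => i.elim

lemma cm_cont : ∀ (n : ℕ) (i : cell n), Continuous (cm n i)
  | 0, _ => continuous_const
  | 1, true => by unfold cm; fun_prop
  | 1, false => by unfold cm; fun_prop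
  | 2, _ => by unfold cm; fun_prop
  | _ + 3, i => i.elim

lemma ball_co {n : ℕ} {x : Fin n → ℝ} (hx : x ∈ ball (0 : Fin n → ℝ) 1) (i : Fin n) :
    -1 < x i ∧ x i < 1 := by
  rw [mem_ball_zero_iff] at hx
  exact abs_lt.1 ((norm_le_pi_norm x i).trans_lt hx)

lemma cball_co {n : ℕ} {x : Fin n → ℝ} (hx : x ∈ closedBall (0 : Fin n → ℝ) 1) (i : Fin n) :
    -1 ≤ x i ∧ x i ≤ 1 := by
  rw [mem_closedBall_zero_iff] at hx
  exact abs_le.1 ((norm_le_pi_norm x i).trans hx)

lemma mem_cball {n : ℕ} {x : Fin n → ℝ} (h : ∀ i, -1 ≤ x i ∧ x i ≤ 1) :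
    x ∈ closedBall (0 : Fin n → ℝ) 1 := by
  rw [mem_closedBall_zero_iff, pi_norm_le_iff_of_nonneg zero_le_one]
  exact fun i => abs_le.2 (h i)

lemma sphere_co {n : ℕ} {x : Fin n → ℝ} (hx : x ∈ sphere (0 : Fin n → ℝ) 1) :
    ∃ i, x i = 1 ∨ x i = -1 := by
  by_contra hc
  push Not at hc
  have h1 : x ∈ ball (0 : Fin n → ℝ) 1 := by
    rw [mem_ball_zero_iff, pi_norm_lt_iff zero_lt_one]
    intro i
    have := cball_co (sphere_subset_closedBall hx) i
    exact abs_lt.2 ⟨lt_of_le_of_ne this.1 (hc i).2.symm, lt_of_le_of_ne this.2 (hc i).1⟩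
  rw [mem_ball_zero_iff] at h1
  rw [mem_sphere_zero_iff_norm] at hx
  linarith

lemma cm_inj : ∀ (n : ℕ) (i : cell n), ∀ x ∈ ball (0 : Fin n → ℝ) 1,
    ∀ y ∈ closedBall (0 : Fin n → ℝ) 1, p (cm n i x) = p (cm n i y) → x = y
  | 0, _ => fun _ _ _ _ _ => Subsingleton.elim _ _
  | 1, true => fun x hx y hy h => by
      have a := ball_co hx 0
      have b := cball_co hy 0
      have := key h (by simp only [cm]; rw [abs_lt]; constructor <;> linarith)
        (by simp [cm])
      have h1 := congrArg Prod.fst this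
      simp only [cm] at h1
      ext i; fin_cases i; change x 0 = y 0; linarith
  | 1, false => fun x hx y hy h => by
      have a := ball_co hx 0
      have b := cball_co hy 0
      have := key h (by simp [cm]) (by simp only [cm]; rw [abs_lt]; constructor <;> linarith)
      have h1 := congrArg Prod.snd this
      simp only [cm] at h1
      ext i; fin_cases i; change x 0 = y 0; linarith
  | 2, _ => fun x hx y hy h => by
      have a := ball_co hx 0
      have b := cball_co hy 0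
      have a' := ball_co hx 1
      have b' := cball_co hy 1
      have := key h (by simp only [cm]; rw [abs_lt]; constructor <;> linarith)
        (by simp only [cm]; rw [abs_lt]; constructor <;> linarith)
      have h1 := congrArg Prod.fst this
      have h2 := congrArg Prod.snd this
      simp only [cm] at h1 h2
      ext i; fin_cases i
      · change x 0 = y 0; linarith
      · change x 1 = y 1; linarith
  | _ + 3, i => i.elim

lemma cm_injOn (n : ℕ) (i : cell n) : InjOn (fun x => p (cm n i x)) (ball 0 1) :=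
  fun x hx y hy h => cm_inj n i x hx y (ball_subset_closedBall hy) h

noncomputable def cmap (n : ℕ) (i : cell n) : PartialEquiv (Fin n → ℝ) X :=
  (cm_injOn n i).toPartialEquiv _ _

lemma cmap_apply (n : ℕ) (i : cell n) (x : Fin n → ℝ) : cmap n i x = p (cm n i x) := rfl

open Classical in
/-- Type of an open cell, read off from a point. -/
noncomputable def tp (e : E) : Σ n, cell n :=
  if e.1 = 0 then (if e.2 = -1 / 2 then ⟨0, ()⟩ else ⟨1, false⟩)
  else (if e.2 = -1 / 2 then ⟨1, true⟩ else ⟨2, ()⟩)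

lemma cm_ball : ∀ (n : ℕ) (i : cell n), ∀ x ∈ ball (0 : Fin n → ℝ) 1,
    tp (cm n i x) = ⟨n, i⟩ ∧ 0 ≤ (cm n i x).1 ∧ (cm n i x).1 < 1 ∧ -1 / 2 ≤ (cm n i x).2 ∧
      (cm n i x).2 < 3 / 2
  | 0, _ => fun _ _ => by
      refine ⟨?_, ?_, ?_, ?_, ?_⟩
      · simp only [cm, tp, if_true]; rfl
      all_goals (simp only [cm]; norm_num)
  | 1, true => fun x hx => by
      have a := ball_co hx 0
      have h : (x 0 + 1) / 2 ≠ 0 := by linarith
      refine ⟨?_, ?_, ?_, ?_, ?_⟩
      · simp only [cm, tp, if_true, h, if_false]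
      all_goals (simp only [cm]; linarith)
  | 1, false => fun x hx => by
      have a := ball_co hx 0
      have h : x 0 + 1 / 2 ≠ -1 / 2 := by linarith
      refine ⟨?_, ?_, ?_, ?_, ?_⟩
      · simp only [cm, tp, if_true, h, if_false]
      all_goals (simp only [cm]; linarith)
  | 2, _ => fun x hx => by
      have a := ball_co hx 0
      have a' := ball_co hx 1
      have h : (x 0 + 1) / 2 ≠ 0 := by linarith
      have h' : x 1 + 1 / 2 ≠ -1 / 2 := by linarith
      refine ⟨?_, ?_, ?_, ?_, ?_⟩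
      · simp only [cm, tp, h, h', if_false]; rfl
      all_goals (simp only [cm]; linarith)
  | _ + 3, i => i.elim

lemma cells_disjoint : (univ : Set (Σ n, cell n)).PairwiseDisjoint
    (fun ni => cmap ni.1 ni.2 '' ball 0 1) := by
  rintro ⟨n, i⟩ - ⟨m, j⟩ - hne
  refine Set.disjoint_left.2 ?_
  rintro _ ⟨x, hx, rfl⟩ ⟨y, hy, h⟩
  obtain ⟨a0, a1, a2, a3, a4⟩ := cm_ball n i x hx
  obtain ⟨b0, b1, b2, b3, b4⟩ := cm_ball m j y hy
  have := key (h : p (cm m j y) = p (cm n i x)) (by rw [abs_lt]; constructor <;> linarith)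
    (by rw [abs_lt]; constructor <;> linarith)
  exact hne (by rw [← a0, ← b0, this])

lemma p_top (s : ℝ) : p (s, 3 / 2) = p (s, -1 / 2) :=
  p_eq.2 ⟨⟨0, 2, rfl⟩, by ext <;> simp [eps_zero]; norm_num⟩

lemma p_right (u : ℝ) : p (1, u) = p (0, 1 - u) :=
  p_eq.2 ⟨⟨1, 1, rfl⟩, by ext <;> simp [eps]⟩

lemma cells_mapsTo : ∀ (n : ℕ) (i : cell n), MapsTo (cmap n i) (sphere 0 1)
    (⋃ (m < n) (j : cell m), cmap m j '' closedBall 0 1)
  | 0, _ => fun x hx => by
      obtain ⟨i, _⟩ := sphere_co hx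
      exact i.elim0
  | 1, true => fun x hx => by
      obtain ⟨i, hi⟩ := sphere_co hx
      have hi0 : i = 0 := Subsingleton.elim _ _
      subst hi0
      simp only [mem_iUnion]
      refine ⟨0, zero_lt_one, (), 0, mem_closedBall_self zero_le_one, ?_⟩
      simp only [cmap_apply, cm]
      rcases hi with hi | hi <;> rw [hi]
      · rw [show ((1 : ℝ) + 1) / 2 = 1 by norm_num, p_right, ← p_top]; norm_num
      · norm_num
  | 1, false => fun x hx => by
      obtain ⟨i, hi⟩ := sphere_co hx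
      have hi0 : i = 0 := Subsingleton.elim _ _
      subst hi0
      simp only [mem_iUnion]
      refine ⟨0, zero_lt_one, (), 0, mem_closedBall_self zero_le_one, ?_⟩
      simp only [cmap_apply, cm]
      rcases hi with hi | hi <;> rw [hi]
      · rw [← p_top]; norm_num
      · norm_num
  | 2, _ => fun x hx => by
      obtain ⟨i, hi⟩ := sphere_co hx
      have a := cball_co (sphere_subset_closedBall hx) 0
      have a' := cball_co (sphere_subset_closedBall hx) 1
      simp only [mem_iUnion]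
      fin_cases i
      · change x 0 = 1 ∨ x 0 = -1 at hi
        rcases hi with hi | hi
        · refine ⟨1, one_lt_two, false, fun _ => -x 1, mem_cball fun _ => ⟨by linarith, by linarith⟩, ?_⟩
          simp only [cmap_apply, cm]
          rw [hi, show ((1 : ℝ) + 1) / 2 = 1 by norm_num, p_right]
          congr 2; ring
        · refine ⟨1, one_lt_two, false, fun _ => x 1, mem_cball fun _ => a', ?_⟩
          simp only [cmap_apply, cm]
          rw [hi]; norm_num
      · change x 1 = 1 ∨ x 1 = -1 at hi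
        refine ⟨1, one_lt_two, true, fun _ => x 0, mem_cball fun _ => a, ?_⟩
        simp only [cmap_apply, cm]
        rcases hi with hi | hi <;> rw [hi]
        · rw [← p_top]; norm_num
        · norm_num
  | _ + 3, i => i.elim

lemma cells_union : ⋃ (n : ℕ) (j : cell n), cmap n j '' closedBall 0 1 = univ := by
  refine eq_univ_of_forall fun x => ?_
  obtain ⟨e, rfl, h1, h2, h3, h4⟩ := exists_rep x
  simp only [mem_iUnion]
  refine ⟨2, (), ![2 * e.1 - 1, e.2 - 1 / 2], mem_cball fun i => ?_, ?_⟩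
  · fin_cases i
    · change -1 ≤ 2 * e.1 - 1 ∧ 2 * e.1 - 1 ≤ 1
      constructor <;> linarith
    · change -1 ≤ e.2 - 1 / 2 ∧ e.2 - 1 / 2 ≤ 1
      constructor <;> linarith
  · simp only [cmap_apply, cm]
    congr 1
    ext <;> simp

lemma cell_empty : ∀ᶠ n in Filter.atTop, IsEmpty (cell n) := by
  refine Filter.eventually_atTop.2 ⟨3, fun n hn => ?_⟩
  obtain ⟨m, rfl⟩ := Nat.exists_eq_add_of_le' hn
  exact inferInstanceAs (IsEmpty Empty)

lemma cell_finite : ∀ n, Finite (cell n)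
  | 0 => inferInstanceAs (Finite Unit)
  | 1 => inferInstanceAs (Finite Bool)
  | 2 => inferInstanceAs (Finite Unit)
  | _ + 3 => inferInstanceAs (Finite Empty)

lemma exists_cw : ∃ _ : CWComplex (univ : Set X), Nonempty (CWComplex.Finite (univ : Set X)) :=
  ⟨_, ⟨CWComplex.finite_mkFinite (univ : Set X) cell cmap cell_empty cell_finite (fun _ _ => rfl)
    (fun n i => (p_cont.comp (cm_cont n i)).continuousOn)
    (fun n i => contOn_inv _ (p_cont.comp (cm_cont n i)) (cm_inj n i) (cm_injOn n i))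
    cells_disjoint cells_mapsTo cells_union⟩⟩

end Pool.Agent.H18.Klein
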