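import Pool.Agent.H18.Klein1
import Pool.Agent.H18.KCoh

open Set Metric Topology

namespace Pool.Agent.H18.Klein

def phi : Gm →* Gm where
  toFun g := ⟨g.n, 3 * g.k, by have := g.h; omega⟩
  map_one' := by ext <;> simp
  map_mul' a b := by
    ext
    · simp
    · simp; ring

@[simp] lemma phi_n (g : Gm) : (phi g).n = g.n := rfl
@[simp] lemma phi_k (g : Gm) : (phi g).k = 3 * g.k := rfl

noncomputable def A : E ≃ₜ E where
  toFun e := (e.1, 3 * e.2)
  invFun e := (e.1, e.2 / 3)
  left_inv e := by ext <;> simp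
  right_inv e := by
    ext
    · simp
    · simp; ring
  continuous_toFun := by fun_prop
  continuous_invFun := by fun_prop

lemma A_apply (e : E) : A e = (e.1, 3 * e.2) := rfl

lemma A_smul (g : Gm) (e : E) : A (g • e) = phi g • A e := by
  ext
  · simp [A_apply]
  · simp [A_apply]; ring

noncomputable def qf : X → X :=
  Quotient.lift (fun e => p (A e)) (fun a b h => by
    obtain ⟨g, rfl⟩ := p_eq.1 (Quotient.sound h : p a = p b)
    simp only [A_smul, p_smul])

lemma qf_p (e : E) : qf (p e) = p (A e) := rfl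

lemma qf_cont : Continuous qf := hp.toIsQuotientMap.continuous_iff.2 (p_cont.comp A.continuous)

noncomputable def q : C(X, X) := ⟨qf, qf_cont⟩

lemma q_cov : IsCoveringMap q := by
  rw [← isLocalHomeomorph_iff_isCoveringMap]
  have h1 : IsLocalHomeomorph (qf ∘ p) := hp.isCoveringMap.isLocalHomeomorph.comp A.isLocalHomeomorph
  have h2 := h1.isLocalHomeomorphOn (s := univ) |>.of_comp_right
    hp.isCoveringMap.isLocalHomeomorph.isLocalHomeomorphOn
  rw [image_univ, hp.surjective.range_eq] at h2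
  exact isLocalHomeomorph_iff_isLocalHomeomorphOn_univ.2 h2

lemma q_fiber (x : X) : (q ⁻¹' {x}).ncard = 3 := by
  obtain ⟨e, rfl⟩ := hp.surjective x
  rw [Set.ncard_eq_three]
  refine ⟨p (e.1, e.2 / 3), p (e.1, (e.2 + 2) / 3), p (e.1, (e.2 + 4) / 3), ?_, ?_, ?_, ?_⟩
  · intro h
    have := congrArg Prod.snd (key h (by simp) (by simp only []; rw [abs_lt]; constructor <;> linarith))
    simp only [] at this
    linarith
  · intro h
    have := congrArg Prod.snd (key h (by simp) (by simp only []; rw [abs_lt]; constructor <;> linarith))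
    simp only [] at this
    linarith
  · intro h
    have := congrArg Prod.snd (key h (by simp) (by simp only []; rw [abs_lt]; constructor <;> linarith))
    simp only [] at this
    linarith
  · ext y
    obtain ⟨f, rfl⟩ := hp.surjective y
    simp only [mem_preimage, mem_singleton_iff, mem_insert_iff]
    change p (A f) = p e ↔ _
    constructor
    · intro h
      obtain ⟨g, rfl⟩ := p_eq.1 h.symm
      have hg := g.h
      have h3 : g.k % 3 = 0 ∨ (g.k + 2) % 3 = 0 ∨ (g.k + 4) % 3 = 0 := by omega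
      rcases h3 with h3 | h3 | h3
      · left
        obtain ⟨c, hc⟩ : ∃ c, g.k = 3 * c := ⟨g.k / 3, by omega⟩
        refine (p_eq.2 ⟨⟨g.n, c, by omega⟩, ?_⟩).symm
        ext
        · simp [A_apply]
        · simp [A_apply, hc]; ring
      · right; left
        obtain ⟨c, hc⟩ : ∃ c, g.k = 3 * c - 2 := ⟨(g.k + 2) / 3, by omega⟩
        refine (p_eq.2 ⟨⟨g.n, c, by omega⟩, ?_⟩).symm
        ext
        · simp [A_apply]
        · simp [A_apply, hc]; ring
      · right; right
        obtain ⟨c, hc⟩ : ∃ c, g.k = 3 * c - 4 := ⟨(g.k + 4) / 3, by omega⟩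
        refine (p_eq.2 ⟨⟨g.n, c, by omega⟩, ?_⟩).symm
        ext
        · simp [A_apply]
        · simp [A_apply, hc]; ring
    · rintro (h | h | h)
      · rw [← qf_p, h, qf_p]; congr 1
        ext
        · simp [A_apply]
        · simp [A_apply]; ring
      · rw [← qf_p, h, qf_p]
        refine p_eq.2 ⟨⟨0, 2, rfl⟩, ?_⟩
        ext
        · simp [A_apply]
        · simp [A_apply, eps_zero]; ring
      · rw [← qf_p, h, qf_p]
        refine p_eq.2 ⟨⟨0, 4, rfl⟩, ?_⟩
        ext
        · simp [A_apply]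
        · simp [A_apply, eps_zero]; ring

def x0 : X := p 0

lemma A_zero : A 0 = 0 := by ext <;> simp [A_apply]

lemma q_x0 : q x0 = x0 := by
  change p (A 0) = p 0
  rw [A_zero]

def e0 : p ⁻¹' {x0} := ⟨0, rfl⟩

noncomputable def Phi : FundamentalGroup X x0 ≃* Gmᵐᵒᵖ := hp.fundamentalGroupEquiv e0

lemma Phi_nat (f : C(X, X)) (hf : ∀ x, f x = q x) (hx : f x0 = x0) (γ : FundamentalGroup X x0) :
    Phi (FundamentalGroup.mapOfEq f hx γ) = MulOpposite.op (phi (Phi γ).unop) := by
  have hfq : f = q := ContinuousMap.ext hf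
  subst hfq
  change hp.fundamentalGroupToMulOpposite e0 _ = _
  rw [IsQuotientCoveringMap.fundamentalGroupToMulOpposite_apply_eq_Iff]
  have h0 : (Phi γ).unop • (0 : E) = hp.isCoveringMap.monodromy γ e0 :=
    hp.unop_fundamentalGroupToMulOpposite_smul (e := e0) (γ := γ)
  set g := (Phi γ).unop
  obtain ⟨c⟩ := γ
  have hc0 : c 0 = p 0 := c.source
  let l := hp.isCoveringMap.liftPath c 0 hc0
  have hl1 : g • (0 : E) = l 1 := h0
  have hl0 : l 0 = 0 := hp.isCoveringMap.liftPath_zero ..
  have hll : ∀ t, p (l t) = c t := fun t => congrFun (hp.isCoveringMap.liftPath_lifts c 0 hc0) t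
  let ey : p ⁻¹' {x0} := ⟨phi g • (0 : E), p_smul _ _⟩
  let Γ : Path (e0 : E) (ey : E) :=
    { toFun := fun t => A (l t)
      continuous_toFun := A.continuous.comp l.continuous
      source' := by rw [hl0, A_zero]; rfl
      target' := by rw [← hl1, A_smul, A_zero] }
  have := hp.isCoveringMap.monodromy_eq_of_map_eq
    (γ := FundamentalGroup.mapOfEq q hx (Path.Homotopic.Quotient.mk c)) (ex := e0) (ey := ey)
    (Path.Homotopic.Quotient.mk Γ) (by
      rw [FundamentalGroup.mapOfEq_apply]
      refine congrArg Path.Homotopic.Quotient.mk ?_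
      ext t
      change p (A (l t)) = qf (c t)
      rw [← hll, qf_p])
  exact (congrArg Subtype.val this).symm

noncomputable def theta : FundamentalGroup X x0 ≃* Gm := Phi.trans (MulEquiv.inv' Gm).symm

lemma theta_nat (f : C(X, X)) (hf : ∀ x, f x = q x) (hx : f x0 = x0) (γ : FundamentalGroup X x0) :
    theta (FundamentalGroup.mapOfEq f hx γ) = phi (theta γ) := by
  have h1 : ∀ γ, theta γ = ((Phi γ).unop)⁻¹ := fun _ => rfl
  rw [h1, h1, Phi_nat f hf hx, MulOpposite.unop_op, map_inv]

section Abstract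

variable {P : Type} [Group P] (f : P →* P) (θ : P ≃* Gm) (hθ : ∀ x, θ (f x) = phi (θ x))
include hθ

lemma iter_k (j : ℕ) (x : P) : (θ (f^[j] x)).k = 3 ^ j * (θ x).k := by
  induction j with
  | zero => simp
  | succ j ih => rw [Function.iterate_succ_apply', hθ, phi_k, ih]; ring

lemma mem_iff (x : P) : (∀ j : ℕ, 1 ≤ j → x ∈ range f^[j]) ↔ (θ x).k = 0 := by
  constructor
  · intro h
    by_contra hk
    obtain ⟨y, hy⟩ := h ((θ x).k.natAbs + 1) (by omega)
    have h1 := iter_k f θ hθ ((θ x).k.natAbs + 1) y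
    rw [hy] at h1
    have h2 : ((3 : ℤ) ^ ((θ x).k.natAbs + 1)).natAbs ≤ (θ x).k.natAbs :=
      Int.natAbs_le_of_dvd_ne_zero ⟨_, h1⟩ hk
    rw [Int.natAbs_pow] at h2
    have h3 : (θ x).k.natAbs + 1 < 3 ^ ((θ x).k.natAbs + 1) := Nat.lt_pow_self (by norm_num)
    change 3 ^ ((θ x).k.natAbs + 1) ≤ _ at h2
    omega
  · intro h j _
    have hx : f x = x := θ.injective (by rw [hθ]; ext <;> simp [h])
    exact ⟨x, Function.iterate_fixed hx j⟩

end Abstract

lemma abstract {P : Type} [Group P] (θ : P ≃* Gm) (G : Subgroup P)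
    (hG : ∀ x, x ∈ G ↔ (θ x).k = 0) :
    ∃ _ : G.Normal, Group.IsFinitelyPresented G ∧ (∃ a : P ⧸ G, a ≠ 1 ∧ a ^ 2 = 1) ∧
      ∀ n, Nontrivial (groupCohomology (Rep.trivial ℤ (P ⧸ G) (ZMod 2)) n) := by
  have hN : G.Normal := ⟨fun x hx y => by
    rw [hG] at hx ⊢
    have h1 := (θ x).h
    have h2 : eps (θ x).n = 1 := by
      rcases eps_cases (θ x).n with h | h
      · exact h.2
      · omega
    simp only [map_mul, map_inv, mul_k, mul_n, inv_k, hx, eps_add, h2]
    linear_combination (-(θ y).k) * eps_sq (θ y).n⟩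
  let z : Multiplicative ℤ →* G :=
    { toFun := fun m => ⟨θ.symm ⟨2 * m.toAdd, 0, by omega⟩, by rw [hG]; simp⟩
      map_one' := by
        ext
        apply θ.injective
        ext <;> simp
      map_mul' := fun a b => by
        ext
        apply θ.injective
        ext
        · simp; ring
        · simp }
  have hz : Function.Bijective z := by
    constructor
    · intro a b h
      have h1 := congrArg (fun x : G => (θ x).n) h
      simp only [z, MonoidHom.coe_mk, OneHom.coe_mk, MulEquiv.apply_symm_apply] at h1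
      exact Multiplicative.toAdd.injective (by omega)
    · rintro ⟨x, hx⟩
      have h1 := (hG x).1 hx
      have h2 := (θ x).h
      refine ⟨Multiplicative.ofAdd ((θ x).n / 2), ?_⟩
      ext
      apply θ.injective
      ext
      · simp [z]; omega
      · simp [z, h1]
  let r0 : P →* KCoh.C2 :=
    { toFun := fun x => Multiplicative.ofAdd ((θ x).n : ZMod 2)
      map_one' := by simp
      map_mul' := fun a b => by simp [ofAdd_add] }
  have hr0 : G ≤ r0.ker := fun x hx => by
    have h1 := (hG x).1 hx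
    have h2 := (θ x).h
    obtain ⟨c, hc⟩ : ∃ c, (θ x).n = 2 * c := ⟨(θ x).n / 2, by omega⟩
    change Multiplicative.ofAdd ((θ x).n : ZMod 2) = 1
    rw [hc]
    have : ((2 * c : ℤ) : ZMod 2) = 0 := (ZMod.intCast_zmod_eq_zero_iff_dvd _ 2).2 ⟨c, by push_cast; ring⟩
    rw [this]; rfl
  let a : P ⧸ G := QuotientGroup.mk (θ.symm ⟨1, 1, rfl⟩)
  have haa : a * a = 1 := by
    rw [← QuotientGroup.mk_mul, QuotientGroup.eq_one_iff, hG]
    simp [eps]
  have hra : QuotientGroup.lift G r0 hr0 a = KCoh.gen := by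
    rw [QuotientGroup.lift_mk]
    simp [r0, KCoh.gen]
  refine ⟨hN, Group.IsFinitelyPresented.equiv (MulEquiv.ofBijective z hz), ⟨a, ?_, ?_⟩,
    KCoh.nontrivial_of_invol _ a haa hra⟩
  · intro h
    rw [h, map_one] at hra
    exact absurd hra (by decide)
  · rw [sq, haa]

end Pool.Agent.H18.Klein
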