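import Mathlib

set_option autoImplicit false

namespace Pool.Agent.H18.MT

open Set Filter

noncomputable section
open Classical

/-- finite sets under union -/
def FU : Type := Finset ℕ

instance : Semigroup FU where
  mul a b := @Union.union (Finset ℕ) _ a b
  mul_assoc a b c := @Finset.union_assoc ℕ _ a b c

lemma idem : ∃ U : Ultrafilter (Finset ℕ), (∀ n, ∀ᶠ e : Finset ℕ in U, e.Nonempty ∧ ∀ i ∈ e, n ≤ i) ∧
    ∀ p : Finset ℕ → Prop, (∀ᶠ e in U, p e) ↔ ∀ᶠ e in U, ∀ᶠ f in U, p (e ∪ f) := by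
  letI : Semigroup (Ultrafilter FU) := Ultrafilter.semigroup
  let T : ℕ → Set FU := fun n => {e | @Finset.Nonempty ℕ e ∧
    ∀ i : ℕ, @Membership.mem ℕ (Finset ℕ) _ e i → n ≤ i}
  let S : Set (Ultrafilter FU) := ⋂ n, {U | T n ∈ U}
  obtain ⟨U, hU, hi⟩ := exists_idempotent_in_compact_subsemigroup
    (M := Ultrafilter FU) Ultrafilter.continuous_mul_left S (by
      apply IsCompact.nonempty_iInter_of_sequence_nonempty_isCompact_isClosed
      · intro n U hU
        exact mem_of_superset hU fun e he => ⟨he.1, fun i hi => by have := he.2 i hi; omega⟩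
      · intro n
        exact ⟨pure ({n} : Finset ℕ), mem_pure.mpr ⟨Finset.singleton_nonempty n, fun i hi =>
          (Finset.mem_singleton.mp hi).ge⟩⟩
      · exact (ultrafilter_isClosed_basic _).isCompact
      · intro n
        apply ultrafilter_isClosed_basic)
    (IsClosed.isCompact (isClosed_iInter fun i => ultrafilter_isClosed_basic _)) (by
      intro U hU V hV
      rw [Set.mem_iInter] at *
      intro n
      refine (Ultrafilter.eventually_mul U V (fun e => e ∈ T n)).mpr ?_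
      filter_upwards [hU n] with e he
      filter_upwards [hV n] with f hf
      refine ⟨he.1.mono Finset.subset_union_left, fun i hi => ?_⟩
      rcases Finset.mem_union.mp hi with t | t
      · exact he.2 i t
      · exact hf.2 i t)
  refine ⟨U, fun n => mem_iInter.mp hU n, fun p => ?_⟩
  have := Ultrafilter.eventually_mul U U p
  have e : Ultrafilter.mul.mul U U = U := hi
  exact (show (∀ᶠ e in (U : Filter FU), p e) ↔ ∀ᶠ e in ((Ultrafilter.mul.mul U U : Ultrafilter FU) :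
    Filter FU), p e by rw [e]).trans this

lemma uiff {α : Type} (U : Ultrafilter α) (p : α → Prop) :
    ∀ᶠ e in U, (p e ↔ ∀ᶠ f in U, p f) := by
  by_cases h : ∀ᶠ f in U, p f
  · filter_upwards [h] with e he using iff_of_true he h
  · filter_upwards [Ultrafilter.eventually_not.mpr h] with e he using iff_of_false he h

/-- combinatorially open families -/
def Op (V : Set (Set ℕ)) : Prop := ∀ x ∈ V, ∃ n, ∀ z : Set ℕ, (∀ p < n, p ∈ z ↔ p ∈ x) → z ∈ V

/-- no cut point separates `p` and `q` -/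
def Same (N : Set ℕ) (p q : ℕ) : Prop := ∀ c ∈ N, c ≤ p ↔ c ≤ q

/-- `x` is almost a union of blocks -/
def Sub (x t N : Set ℕ) : Prop := ∀ᶠ p in atTop, p ∈ x → p ∈ t ∧ ∀ q ∈ t, Same N p q → q ∈ x

/-- union of the blocks with indices in `e` -/
def cc (y : Set ℕ) (m : ℕ → ℕ) (e : Finset ℕ) : Set ℕ :=
  {p | p ∈ y ∧ ∃ j ∈ e, m j ≤ p ∧ p < m (j + 1)}

lemma cc_union (y : Set ℕ) (m : ℕ → ℕ) (e f : Finset ℕ) :
    cc y m (e ∪ f) = cc y m e ∪ cc y m f := by
  ext p
  simp only [cc, mem_setOf_eq, mem_union, Finset.mem_union]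
  constructor
  · rintro ⟨a, j, b | b, c⟩
    · exact Or.inl ⟨a, j, b, c⟩
    · exact Or.inr ⟨a, j, b, c⟩
  · rintro (⟨a, j, b, c⟩ | ⟨a, j, b, c⟩)
    · exact ⟨a, j, Or.inl b, c⟩
    · exact ⟨a, j, Or.inr b, c⟩

/-- forcing -/
def PP (y : Set ℕ) (m : ℕ → ℕ) (W : Set (Set ℕ)) (h : Set ℕ) (w : Finset ℕ) : Prop :=
  ∀ z : Set ℕ, (∀ p, (∃ i ∈ w, p < m (i + 1)) → (p ∈ z ↔ p ∈ h ∪ cc y m w)) → z ∈ W

lemma PP_union {y : Set ℕ} {m : ℕ → ℕ} (hm : StrictMono m) (W : Set (Set ℕ)) (h : Set ℕ)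
    {f g : Finset ℕ} (hg : g.Nonempty) (hfg : ∀ i ∈ g, f.sup id ≤ i) :
    PP y m W h (f ∪ g) ↔ PP y m W (h ∪ cc y m f) g := by
  have : ∀ p, (∃ i ∈ f ∪ g, p < m (i + 1)) ↔ ∃ i ∈ g, p < m (i + 1) := by
    intro p
    constructor
    · rintro ⟨i, i1, i2⟩
      rcases Finset.mem_union.mp i1 with t | t
      · obtain ⟨k, hk⟩ := hg
        have : i ≤ k := (Finset.le_sup (f := id) t).trans (hfg k hk)
        exact ⟨k, hk, i2.trans_le (hm.monotone (by omega))⟩
      · exact ⟨i, t, i2⟩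
    · rintro ⟨i, i1, i2⟩
      exact ⟨i, Finset.mem_union_right _ i1, i2⟩
  simp only [PP, this, cc_union, union_assoc]

lemma find_blk {n : ℕ → ℕ} (hn : StrictMono n) {p : ℕ} (i0 : ℕ) (h : n i0 ≤ p) :
    ∃ i, i0 ≤ i ∧ n i ≤ p ∧ p < n (i + 1) := by
  have ex : ∃ k, p < n (k + 1) := ⟨p, by have := hn.id_le (p + 1); simp at this; omega⟩
  refine ⟨Nat.find ex, ?_, ?_, Nat.find_spec ex⟩
  · by_contra t
    have := Nat.find_spec ex
    have := hn.monotone (show Nat.find ex + 1 ≤ i0 by omega)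
    omega
  · rcases Nat.eq_zero_or_pos (Nat.find ex) with t | t
    · rw [t]; exact (hn.monotone (Nat.zero_le _)).trans h
    · have := Nat.find_min ex (show Nat.find ex - 1 < Nat.find ex by omega)
      rw [show Nat.find ex - 1 + 1 = Nat.find ex by omega] at this
      omega

lemma freq_blk {n : ℕ → ℕ} (hn : StrictMono n) {x : Set ℕ} (hx : x.Infinite) :
    ∃ᶠ i in atTop, ∃ p ∈ x, n i ≤ p ∧ p < n (i + 1) := by
  rw [frequently_atTop]
  intro a
  obtain ⟨p, p1, p2⟩ := hx.exists_gt (n a)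
  obtain ⟨i, i1, i2⟩ := find_blk hn a p2.le
  exact ⟨i, i1, p, p1, i2⟩

theorem mt {y : Set ℕ} {m : ℕ → ℕ} (hm : StrictMono m)
    (hne : ∀ j, ∃ p ∈ y, m j ≤ p ∧ p < m (j + 1)) {V : Bool → ℕ → Set (Set ℕ)}
    (hV : ∀ b j, Op (V b j))
    (hfull : ∀ b j (x : Set ℕ), (∀ p, m j ≤ p → p < m (j + 1) → (p ∈ x ↔ p ∈ y)) → x ∈ V b j) :
    ∃ (t : Set ℕ) (K ι : ℕ → ℕ), StrictMono K ∧ StrictMono ι ∧ t.Infinite ∧
      (∀ p ∈ t, p ∈ y ∧ ∀ q ∈ y, Same (range m) p q → q ∈ t) ∧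
      ∀ x : Set ℕ, x.Infinite → Sub x t (range (m ∘ K)) → ∀ b,
        (∀ᶠ i in atTop, x ∈ V b (ι i)) ∨
        ∀ᶠ i in atTop, (x ∈ V b (ι i) ↔ ∃ p ∈ x, (m ∘ K) i ≤ p ∧ p < (m ∘ K) (i + 1)) := by
  obtain ⟨U, u1, u2⟩ := idem
  let A2 : Bool → Set ℕ → ℕ → Prop := fun b h j => ∀ᶠ w in U, PP y m (V b j) h w
  let A1 : Bool → Set ℕ → Prop := fun b h => ∀ᶠ v : Finset ℕ in U, A2 b h (sInf (v : Set ℕ))
  let A0 : Bool → Set ℕ → Prop := fun b h => ∀ᶠ u in U, A1 b (h ∪ cc y m u)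
  have f2 : ∀ b h j, A2 b h j ↔ ∀ᶠ f in U, A2 b (h ∪ cc y m f) j := by
    intro b h j
    refine (u2 _).trans (eventually_congr (Eventually.of_forall fun f => eventually_congr ?_))
    filter_upwards [u1 (f.sup id)] with g hg using PP_union hm _ _ hg.1 hg.2
  have f0 : ∀ b h, A0 b h ↔ ∀ᶠ f in U, A0 b (h ∪ cc y m f) := by
    intro b h
    refine (u2 _).trans ?_
    simp only [A0, cc_union, union_assoc]
  have step : ∀ k : ℕ, ∃ e : Finset ℕ, (e.Nonempty ∧ ∀ i ∈ e, k ≤ i) ∧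
      ∀ h ∈ {h : Set ℕ | h ⊆ Iio (m k)}, ∀ b,
        ((∀ j ∈ Iio k, (PP y m (V b j) h e ↔ A2 b h j) ∧ (A2 b (h ∪ cc y m e) j ↔ A2 b h j)) ∧
        (A2 b h (sInf (e : Set ℕ)) ↔ A1 b h)) ∧ (A1 b (h ∪ cc y m e) ↔ A0 b h) ∧
        (A0 b (h ∪ cc y m e) ↔ A0 b h) := by
    intro k
    refine Eventually.exists (f := (U : Filter (Finset ℕ))) ((u1 k).and ?_)
    rw [eventually_all_finite (finite_Iio (m k)).finite_subsets]
    intro h _
    rw [eventually_all]
    intro b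
    refine (Eventually.and ?_ (uiff U _)).and ((uiff U _).and ?_)
    · rw [eventually_all_finite (finite_Iio k)]
      intro j _
      refine (uiff U _).and ?_
      rw [f2 b h j]
      exact uiff U _
    · rw [f0 b h]
      exact uiff U _
  choose E E1 E2 using step
  let K : ℕ → ℕ := fun i => Nat.rec 0 (fun _ k => (E k).sup id + 1) i
  have K1 : ∀ i, K (i + 1) = (E (K i)).sup id + 1 := fun i => rfl
  have Kb : ∀ i, ∀ j ∈ E (K i), K i ≤ j ∧ j < K (i + 1) := fun i j hj =>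
    ⟨(E1 _).2 j hj, by rw [K1]; exact Nat.lt_succ_of_le (Finset.le_sup (f := id) hj)⟩
  have Km : StrictMono K := strictMono_nat_of_lt_succ fun i => by
    obtain ⟨j, hj⟩ := (E1 (K i)).1
    have := Kb i j hj
    omega
  let ι : ℕ → ℕ := fun i => sInf (E (K i) : Set ℕ)
  have ι1 : ∀ i, ι i ∈ E (K i) := fun i => Nat.sInf_mem (s := (E (K i) : Set ℕ)) (E1 (K i)).1
  have cb : ∀ i, ∀ p ∈ cc y m (E (K i)), m (K i) ≤ p ∧ p < m (K (i + 1)) := by
    rintro i p ⟨-, j, j1, j2, j3⟩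
    have := Kb i j j1
    exact ⟨(hm.monotone this.1).trans j2, j3.trans_le (hm.monotone (by omega))⟩
  have mK : StrictMono (m ∘ K) := hm.comp Km
  refine ⟨⋃ i, cc y m (E (K i)), K, ι, Km, strictMono_nat_of_lt_succ fun i => ?_,
    infinite_of_forall_exists_gt fun a => ?_, ?_, ?_⟩
  · have := Kb i _ (ι1 i)
    have := Kb (i + 1) _ (ι1 (i + 1))
    omega
  · obtain ⟨p, p1, p2⟩ := hne (ι (a + 1))
    have hp : p ∈ cc y m (E (K (a + 1))) := ⟨p1, _, ι1 (a + 1), p2⟩
    have := (cb (a + 1) p hp).1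
    have := mK.id_le (a + 1)
    simp only [id, Function.comp] at this
    exact ⟨p, mem_iUnion.mpr ⟨a + 1, hp⟩, by omega⟩
  · intro p hp
    obtain ⟨i, p1, j, j1, j2, j3⟩ := mem_iUnion.mp hp
    refine ⟨p1, fun q q1 q2 => mem_iUnion.mpr ⟨i, q1, j, j1, (q2 _ ⟨j, rfl⟩).mp j2, ?_⟩⟩
    by_contra t
    have := (q2 _ ⟨j + 1, rfl⟩).mpr (not_lt.mp t)
    omega
  intro x hx hs b
  obtain ⟨P0, hP0⟩ := eventually_atTop.mp hs
  have big : ∀ i, P0 ≤ i → P0 ≤ m (K i) := fun i hi => hi.trans (mK.id_le i)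
  let h : ℕ → Set ℕ := fun i => x ∩ Iio (m (K i))
  let In : ℕ → Prop := fun i => ∃ p ∈ x, m (K i) ≤ p ∧ p < m (K (i + 1))
  have blk : ∀ i, P0 ≤ i → In i → ∀ q, m (K i) ≤ q → q < m (K (i + 1)) →
      (q ∈ x ↔ q ∈ cc y m (E (K i))) := by
    rintro i hi ⟨p, p1, p2, p3⟩ q q1 q2
    constructor
    · intro q3
      obtain ⟨i', t⟩ := mem_iUnion.mp (hP0 q ((big i hi).trans q1) q3).1
      have := cb i' q t
      have a1 : i < i' + 1 := mK.lt_iff_lt.mp (show m (K i) < m (K (i' + 1)) by omega)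
      have a2 : i' < i + 1 := mK.lt_iff_lt.mp (show m (K i') < m (K (i + 1)) by omega)
      rwa [show i = i' by omega]
    · intro q3
      refine (hP0 p ((big i hi).trans p2) p1).2 q (mem_iUnion.mpr ⟨i, q3⟩) ?_
      rintro _ ⟨k, rfl⟩
      rcases le_or_gt k i with t | t
      · have := mK.monotone t
        simp only [Function.comp] at this ⊢
        omega
      · have := mK.monotone (show i + 1 ≤ k from t)
        simp only [Function.comp] at this ⊢
        omega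
  have hin : ∀ i, P0 ≤ i → In i → h (i + 1) = h i ∪ cc y m (E (K i)) := by
    intro i hi t
    have l : m (K i) < m (K (i + 1)) := mK (show i < i + 1 by omega)
    ext q
    simp only [h, mem_inter_iff, mem_Iio, mem_union]
    constructor
    · rintro ⟨q1, q2⟩
      by_cases s : q < m (K i)
      · exact Or.inl ⟨q1, s⟩
      · exact Or.inr ((blk i hi t q (not_lt.mp s) q2).mp q1)
    · rintro (⟨q1, q2⟩ | q1)
      · exact ⟨q1, q2.trans l⟩
      · have := cb i q q1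
        exact ⟨(blk i hi t q this.1 this.2).mpr q1, this.2⟩
  have hout : ∀ i, ¬ In i → h (i + 1) = h i := by
    intro i t
    have l : m (K i) < m (K (i + 1)) := mK (show i < i + 1 by omega)
    ext q
    simp only [h, mem_inter_iff, mem_Iio]
    refine ⟨fun ⟨q1, q2⟩ => ⟨q1, ?_⟩, fun ⟨q1, q2⟩ => ⟨q1, q2.trans l⟩⟩
    by_contra s
    exact t ⟨q, q1, not_lt.mp s, q2⟩
  have EE := fun i => E2 (K i) (h i) inter_subset_right b
  have fr : ∀ a, ∃ i, a ≤ i ∧ In i := fun a => frequently_atTop.mp (freq_blk mK hx) a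
  have s0 : ∀ i, P0 ≤ i → (A0 b (h i) ↔ A0 b (h P0)) := by
    intro i hi
    induction i, hi using Nat.le_induction with
    | base => rfl
    | succ i hi ih =>
      by_cases t : In i
      · rw [hin i hi t, (EE i).2.2, ih]
      · rw [hout i t, ih]
  obtain ⟨i1, i2, i3⟩ := fr P0
  have s1 : ∀ i, i1 + 1 ≤ i → (A1 b (h i) ↔ A0 b (h P0)) := by
    intro i hi
    induction i, hi using Nat.le_induction with
    | base => rw [hin i1 i2 i3, (EE i1).2.1, s0 i1 i2]
    | succ i hi ih =>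
      by_cases t : In i
      · rw [hin i (by omega) t, (EE i).2.1, s0 i (by omega)]
      · rw [hout i t, ih]
  have s2 : ∀ i, i1 + 1 ≤ i → ¬ In i → ∀ k, i + 1 ≤ k → (A2 b (h k) (ι i) ↔ A0 b (h P0)) := by
    intro i hi t k hk
    induction k, hk using Nat.le_induction with
    | base => rw [hout i t, (EE i).1.2, s1 i hi]
    | succ k hk ih =>
      by_cases s : In k
      · rw [hin k (by omega) s, ((EE k).1.1 (ι i) ((Kb i _ (ι1 i)).2.trans_le (Km.monotone hk))).2, ih]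
      · rw [hout k s, ih]
  have s3 : ∀ i, i1 + 1 ≤ i → ¬ In i → ∀ k, i + 1 ≤ k → In k →
      (PP y m (V b (ι i)) (h k) (E (K k)) ↔ A0 b (h P0)) := fun i hi t k hk _ => by
    rw [((EE k).1.1 (ι i) ((Kb i _ (ι1 i)).2.trans_le (Km.monotone hk))).1, s2 i hi t k hk]
  have ag : ∀ k, P0 ≤ k → In k → ∀ p, (∃ j ∈ E (K k), p < m (j + 1)) →
      (p ∈ x ↔ p ∈ h k ∪ cc y m (E (K k))) := by
    rintro k hk t p ⟨j, j1, j2⟩
    rw [← hin k hk t]
    have := hm.monotone (show j + 1 ≤ K (k + 1) from (Kb k j j1).2)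
    exact ⟨fun s => ⟨s, j2.trans_le this⟩, fun s => s.1⟩
  have s4 : ∀ i, i1 + 1 ≤ i → ¬ In i → (x ∈ V b (ι i) ↔ A0 b (h P0)) := by
    intro i hi t
    constructor
    · intro hxv
      obtain ⟨n, hn⟩ := hV b _ x hxv
      obtain ⟨k, k1, k2⟩ := fr (i + 1 + n)
      refine (s3 i hi t k (by omega) k2).mp fun z hz => hn z fun p hp => ?_
      have e : ∃ j ∈ E (K k), p < m (j + 1) := by
        refine ⟨ι k, ι1 k, ?_⟩
        have a1 := (Kb k _ (ι1 k)).1
        have a2 := Km.id_le k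
        have a3 := hm.id_le (ι k + 1)
        simp only [id] at a2 a3
        omega
      rw [hz p e, ag k (by omega) k2 p e]
    · intro ha
      obtain ⟨k, k1, k2⟩ := fr (i + 1)
      exact (s3 i hi t k k1 k2).mpr ha x (ag k (by omega) k2)
  have s5 : ∀ i, P0 ≤ i → In i → x ∈ V b (ι i) := by
    intro i hi t
    refine hfull b _ x fun p p1 p2 => ?_
    have a := Kb i _ (ι1 i)
    rw [blk i hi t p ((hm.monotone a.1).trans p1) (p2.trans_le (hm.monotone (by omega)))]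
    exact ⟨fun s => s.1, fun s => ⟨s, _, ι1 i, p1, p2⟩⟩
  by_cases ha : A0 b (h P0)
  · left
    filter_upwards [eventually_ge_atTop (i1 + 1)] with i hi
    by_cases t : In i
    · exact s5 i (by omega) t
    · exact (s4 i hi t).mpr ha
  · right
    filter_upwards [eventually_ge_atTop (i1 + 1)] with i hi
    by_cases t : In i
    · exact iff_of_true (s5 i (by omega) t) t
    · exact iff_of_false (fun s => ha ((s4 i hi t).mp s)) t

end

end Pool.Agent.H18.MT
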