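import Pool.Agent.H18.Tau2

set_option autoImplicit false

namespace Pool.Agent.H18.Tau

open Set TopologicalSpace

noncomputable section
open Classical

/-- common support -/
def cap (u v : ℕ → Bool) : Set ℕ := {n | u n = true ∧ v n = true}

/-- at most one element in each block -/
def Sel (A : Set ℕ) : Prop := ∀ a, a ∈ A → ∀ b, b ∈ A → Nat.sqrt a = Nat.sqrt b → a = b

/-- two elements in a block beyond `m` -/
def GM (m : ℕ) : Set (ℕ → Bool) :=
  {u | ∃ a b, m ≤ a ∧ m ≤ b ∧ a ≠ b ∧ Nat.sqrt a = Nat.sqrt b ∧ u a = true ∧ u b = true}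

/-- dense open, in terms of cylinders -/
def CD (G : Set (ℕ → Bool)) : Prop := IsOpen G ∧ ∀ x : ℕ → Bool, ∀ n, ∃ x' ∈ G, ∀ i < n, x' i = x i

lemma cap_comm (u v : ℕ → Bool) : cap u v = cap v u := by ext n; exact and_comm

lemma open_ev (a : ℕ) : IsOpen {u : ℕ → Bool | u a = true} :=
  (isOpen_discrete ({true} : Set Bool)).preimage (f := fun u : ℕ → Bool => u a)
    (continuous_apply a)

lemma cd_dense {G : Set (ℕ → Bool)} (h1 : IsOpen G) (h2 : Dense G) : CD G := by
  refine ⟨h1, fun x n => ?_⟩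
  obtain ⟨y, y1, y2⟩ := h2.inter_open_nonempty _ (PiNat.isOpen_cylinder (fun _ => Bool) x n)
    ⟨x, PiNat.self_mem_cylinder _ _⟩
  exact ⟨y, y2, PiNat.mem_cylinder_iff.mp y1⟩

lemma cd_GM (m : ℕ) : CD (GM m) := by
  constructor
  · simp only [GM, setOf_exists, setOf_and]
    exact isOpen_iUnion fun a => isOpen_iUnion fun b => isOpen_const.inter (isOpen_const.inter
      (isOpen_const.inter (isOpen_const.inter ((open_ev a).inter (open_ev b)))))
  · intro x n
    have t : m + n + 1 ≤ (m + n + 1) * (m + n + 1) := Nat.le_mul_self _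
    refine ⟨fun i => if i < n then x i else true, ⟨(m + n + 1) * (m + n + 1),
      (m + n + 1) * (m + n + 1) + 1, by omega, by omega, by omega, ?_, if_neg (by omega),
      if_neg (by omega)⟩, fun i hi => if_pos hi⟩
    rw [Nat.sqrt_eq, Nat.sqrt_add_eq _ (by omega)]

lemma clo (a : ℕ) : IsClopen {k : (ℕ → Bool) × (ℕ → Bool) | a ∈ cap k.1 k.2} :=
  ((isClopen_discrete {true}).preimage ((continuous_apply a).comp continuous_fst)).inter
    ((isClopen_discrete {true}).preimage ((continuous_apply a).comp continuous_snd))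

lemma closed_sel : IsClosed {k : (ℕ → Bool) × (ℕ → Bool) | Sel (cap k.1 k.2)} := by
  simp only [Sel, setOf_forall (ι := ℕ)]
  refine isClosed_iInter fun a => isClosed_imp (clo a).isOpen ?_
  simp only [setOf_forall (ι := ℕ)]
  exact isClosed_iInter fun b => isClosed_imp (clo b).isOpen isClosed_const

lemma cd_nsel {v : ℕ → Bool} (hv : ∀ m, v ∈ GM m) : CD {u | ¬ Sel (cap u v)} := by
  refine ⟨closed_sel.isOpen_compl.preimage (f := fun u => (u, v)) (by fun_prop), fun x n => ?_⟩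
  obtain ⟨a, b, a1, b1, ab, s, a2, b2⟩ := hv n
  exact ⟨fun i => if i < n then x i else true,
    fun t => ab (t a ⟨if_neg (by omega), a2⟩ b ⟨if_neg (by omega), b2⟩ s), fun i hi => if_pos hi⟩

lemma bct {K : Set ((ℕ → Bool) × (ℕ → Bool))} (hK : IsClosed K) (hne : K.Nonempty) {ι : Type}
    [Countable ι] (W : ι → Set ((ℕ → Bool) × (ℕ → Bool))) (h1 : ∀ i, IsOpen (W i))
    (h2 : ∀ i, ∀ k ∈ K, ∀ n, ∃ k' ∈ K, k' ∈ W i ∧ (∀ j < n, k'.1 j = k.1 j) ∧
      ∀ j < n, k'.2 j = k.2 j) : ∃ k ∈ K, ∀ i, k ∈ W i := by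
  haveI : CompactSpace K := isCompact_iff_compactSpace.mp hK.isCompact
  haveI := hne.to_subtype
  have := dense_iInter_of_isOpen (f := fun i => (Subtype.val ⁻¹' W i : Set K))
    (fun i => (h1 i).preimage continuous_subtype_val) (fun i => by
      rw [dense_iff_inter_open]
      rintro O hO ⟨k, hk⟩
      obtain ⟨O', o1, rfl⟩ := isOpen_induced_iff.mp hO
      obtain ⟨u, v, u1, v1, u2, v2, uv⟩ := isOpen_prod_iff.mp o1 k.1.1 k.1.2 hk
      obtain ⟨n1, hn1⟩ := cyl_nhds u1 u2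
      obtain ⟨n2, hn2⟩ := cyl_nhds v1 v2
      obtain ⟨k', a1, a2, a3, a4⟩ := h2 i k.1 k.2 (n1 + n2)
      exact ⟨⟨k', a1⟩, uv ⟨hn1 _ fun j hj => a3 j (by omega), hn2 _ fun j hj => a4 j (by omega)⟩,
        a2⟩)
  obtain ⟨k, hk⟩ := this.nonempty
  exact ⟨k.1, k.2, fun i => mem_iInter.mp hk i⟩

lemma stage {𝒢 : Set (Set (ℕ → Bool))} (hc : 𝒢.Countable) (hG : ∀ G ∈ 𝒢, CD G) {P : Set ℕ}
    (hP : P.Infinite) (n : ℕ) : ∃ k : (ℕ → Bool) × (ℕ → Bool), (∀ G ∈ 𝒢, k.1 ∈ G ∧ k.2 ∈ G) ∧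
      (cap k.1 k.2).Infinite ∧ Sel (cap k.1 k.2) ∧ (cap k.1 k.2 \ P).Finite ∧
      n ∈ cap k.1 k.2 ∧ ∀ j < n, j ∉ cap k.1 k.2 := by
  haveI := hc.to_subtype
  let K : Set ((ℕ → Bool) × (ℕ → Bool)) := {k | Sel (cap k.1 k.2) ∧
    (∀ j, j ∈ cap k.1 k.2 → (j = n ∨ (n < j ∧ j ∈ P))) ∧ n ∈ cap k.1 k.2}
  have hK : IsClosed K := by
    refine closed_sel.inter (IsClosed.inter ?_ (clo n).isClosed)
    change IsClosed {k : (ℕ → Bool) × (ℕ → Bool) | ∀ j, j ∈ cap k.1 k.2 → _}
    simp only [setOf_forall (ι := ℕ)]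
    exact isClosed_iInter fun j => isClosed_imp (clo j).isOpen isClosed_const
  have sub : ∀ k ∈ K, ∀ k' : (ℕ → Bool) × (ℕ → Bool), cap k'.1 k'.2 ⊆ cap k.1 k.2 →
      n ∈ cap k'.1 k'.2 → k' ∈ K := fun k hk k' s t =>
    ⟨fun a ha b hb => hk.1 a (s ha) b (s hb), fun j hj => hk.2.1 j (s hj), t⟩
  obtain ⟨k, k1, k2⟩ := bct hK ⟨(fun i => decide (i = n), fun i => decide (i = n)),
      fun a ha b hb _ => by
        have a1 : a = n := by simpa using ha.1
        have b1 : b = n := by simpa using hb.1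
        rw [a1, b1],
      fun j hj => Or.inl (by simpa using hj.1), by simp [cap]⟩ (ι := 𝒢 ⊕ 𝒢 ⊕ ℕ)
    (fun i => match i with
      | .inl G => {k | k.1 ∈ G.1}
      | .inr (.inl G) => {k | k.2 ∈ G.1}
      | .inr (.inr m) => {k | ∃ p, m ≤ p ∧ p ∈ cap k.1 k.2})
    (by
      rintro (G | G | m)
      · exact (hG _ G.2).1.preimage continuous_fst
      · exact (hG _ G.2).1.preimage continuous_snd
      · simp only [setOf_exists, setOf_and]
        exact isOpen_iUnion fun p => isOpen_const.inter (clo p).isOpen)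
    (by
      rintro (G | G | m) k hk N
      · obtain ⟨x, x1, x2⟩ := (hG _ G.2).2 k.1 (N + n + 1)
        refine ⟨(x, fun i => if i < N + n + 1 then k.2 i else false), sub k hk _ ?_ ?_, x1,
          fun j hj => x2 j (by omega), fun j hj => if_pos (by omega)⟩
        · rintro j ⟨j1, j2⟩
          by_cases t : j < N + n + 1
          · exact ⟨(x2 j t).symm.trans j1, (if_pos t).symm.trans j2⟩
          · simp [t] at j2
        · exact ⟨(x2 n (by omega)).trans hk.2.2.1, (if_pos (by omega)).trans hk.2.2.2⟩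
      · obtain ⟨x, x1, x2⟩ := (hG _ G.2).2 k.2 (N + n + 1)
        refine ⟨(fun i => if i < N + n + 1 then k.1 i else false, x), sub k hk _ ?_ ?_, x1,
          fun j hj => if_pos (by omega), fun j hj => x2 j (by omega)⟩
        · rintro j ⟨j1, j2⟩
          by_cases t : j < N + n + 1
          · exact ⟨(if_pos t).symm.trans j1, (x2 j t).symm.trans j2⟩
          · simp [t] at j1
        · exact ⟨(if_pos (by omega)).trans hk.2.2.1, (x2 n (by omega)).trans hk.2.2.2⟩
      · obtain ⟨p, p1, p2⟩ := hP.exists_gt ((N + n + m + 1) * (N + n + m + 1))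
        have p3 : N + n + m + 1 ≤ Nat.sqrt p := Nat.le_sqrt.mpr p2.le
        have p4 := Nat.sqrt_le_self p
        have c : ∀ j, j ∈ cap (fun i => if i < N + n + 1 then k.1 i else decide (i = p))
            (fun i => if i < N + n + 1 then k.2 i else decide (i = p)) →
            (j < N + n + 1 ∧ j ∈ cap k.1 k.2) ∨ j = p := by
          rintro j ⟨j1, j2⟩
          by_cases t : j < N + n + 1
          · exact Or.inl ⟨t, (if_pos t).symm.trans j1, (if_pos t).symm.trans j2⟩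
          · right; simpa [t] using j1
        refine ⟨(fun i => if i < N + n + 1 then k.1 i else decide (i = p),
          fun i => if i < N + n + 1 then k.2 i else decide (i = p)), ⟨?_, ?_, ?_⟩,
          ⟨p, by omega, ?_⟩, fun j hj => if_pos (by omega), fun j hj => if_pos (by omega)⟩
        · intro a ha b hb s
          have a3 := Nat.sqrt_le_self a
          have b3 := Nat.sqrt_le_self b
          rcases c a ha with t | t <;> rcases c b hb with t' | t'
          · exact hk.1 a t.2 b t'.2 s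
          · rw [t'] at s; omega
          · rw [t] at s; omega
          · rw [t, t']
        · intro j hj
          rcases c j hj with t | t
          · exact hk.2.1 j t.2
          · rw [t]; exact Or.inr ⟨by omega, p1⟩
        · exact ⟨(if_pos (by omega)).trans hk.2.2.1, (if_pos (by omega)).trans hk.2.2.2⟩
        · exact ⟨(if_neg (by omega)).trans (by simp), (if_neg (by omega)).trans (by simp)⟩)
  refine ⟨k, fun G hG => ⟨k2 (.inl ⟨G, hG⟩), k2 (.inr (.inl ⟨G, hG⟩))⟩,
    infinite_of_forall_exists_gt fun m => ?_, k1.1, (finite_singleton n).subset fun j hj => ?_,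
    k1.2.2, fun j hj t => ?_⟩
  · obtain ⟨p, p1, p2⟩ := k2 (.inr (.inr (m + 1)))
    exact ⟨p, p2, p1⟩
  · exact (k1.2.1 j hj.1).resolve_right fun t => hj.2 t.2
  · rcases k1.2.1 j t with s | s <;> omega

lemma enum_open : ∃ f : (ℕ → Bool) → Set (ℕ → Bool), (∀ c, IsOpen (f c)) ∧
    ∀ O, IsOpen O → ∃ c, f c = O := by
  obtain ⟨b, hb⟩ := (countable_countableBasis (ℕ → Bool)).exists_eq_range
    (by
      obtain ⟨v, v1, -⟩ := (isBasis_countableBasis (ℕ → Bool)).exists_subset_of_mem_open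
        (mem_univ (fun _ => true)) isOpen_univ
      exact ⟨v, v1⟩)
  have ho : ∀ n, IsOpen (b n) := fun n => isOpen_of_mem_countableBasis (hb ▸ mem_range_self n)
  refine ⟨fun c => ⋃ n, ⋃ _ : c n = true, b n,
    fun c => isOpen_iUnion fun n => isOpen_iUnion fun _ => ho n, fun O hO =>
    ⟨fun n => decide (b n ⊆ O), ?_⟩⟩
  ext x
  simp only [mem_iUnion, decide_eq_true_eq]
  refine ⟨fun ⟨n, n1, n2⟩ => n1 n2, fun hx => ?_⟩
  obtain ⟨v, v1, v2, v3⟩ := (isBasis_countableBasis _).exists_subset_of_mem_open hx hO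
  rw [hb] at v1
  obtain ⟨n, rfl⟩ := v1
  exact ⟨n, v3, v2⟩

theorem luzin_tower (hCH : Cardinal.continuum.{0} = Cardinal.aleph 1) :
    ∃ L : Set (ℕ → Bool), Luz L ∧
      (∀ u ∈ L, ∀ v ∈ L, Sel (cap u v) → (cap u v).Infinite) ∧
      (∀ u ∈ L, ∀ v ∈ L, ∀ u' ∈ L, ∀ v' ∈ L, Sel (cap u v) → Sel (cap u' v') →
        (cap u v \ cap u' v').Finite ∨ (cap u' v' \ cap u v).Finite) ∧
      (∀ A : Set ℕ, ∀ n : ℕ, ∃ u ∈ L, ∃ v ∈ L, Sel (cap u v) ∧
        ((cap u v \ A).Finite ∨ (cap u v \ Aᶜ).Finite) ∧ n ∈ cap u v ∧ ∀ j < n, j ∉ cap u v) := by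
  obtain ⟨r, wo, hr⟩ := Cardinal.exists_ord_eq ((ℕ → Bool) × ℕ)
  have cnt : ∀ x, {y | r y x}.Countable := by
    intro x
    rw [Cardinal.countable_iff_lt_aleph_one, ← hCH]
    have := Cardinal.card_typein_lt x hr
    rw [Ordinal.card_typein] at this
    refine this.trans_le (le_of_eq ?_)
    simp
  obtain ⟨f, f1, f2⟩ := enum_open
  let Q : (α : (ℕ → Bool) × ℕ) → ((β : (ℕ → Bool) × ℕ) → r β α → (ℕ → Bool) × (ℕ → Bool)) →
      (ℕ → Bool) × (ℕ → Bool) → Prop := fun α g k =>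
    ((cap k.1 k.2).Infinite ∧ Sel (cap k.1 k.2) ∧ α.2 ∈ cap k.1 k.2 ∧
      (∀ j < α.2, j ∉ cap k.1 k.2) ∧ (∀ m, k.1 ∈ GM m) ∧ (∀ m, k.2 ∈ GM m) ∧
      ((cap k.1 k.2 \ {n | α.1 n = true}).Finite ∨ (cap k.1 k.2 \ {n | α.1 n = true}ᶜ).Finite)) ∧
      ∀ β hβ, (cap k.1 k.2 \ cap (g β hβ).1 (g β hβ).2).Finite ∧
        (Dense (f β.1) → k.1 ∈ f β.1 ∧ k.2 ∈ f β.1) ∧
        (¬ Sel (cap k.1 (g β hβ).1) ∧ ¬ Sel (cap k.2 (g β hβ).1)) ∧
        (¬ Sel (cap k.1 (g β hβ).2) ∧ ¬ Sel (cap k.2 (g β hβ).2))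
  let B : (ℕ → Bool) × ℕ → (ℕ → Bool) × (ℕ → Bool) :=
    wo.wf.fix (fun x g => Classical.epsilon (Q x g))
  have hB : ∀ x, B x = Classical.epsilon (Q x (fun y _ => B y)) := fun x => wo.wf.fix_eq _ x
  have key : ∀ x, Q x (fun y _ => B y) (B x) := by
    intro x
    induction x using wo.wf.induction with
    | _ x ih =>
      rw [hB x]
      apply Classical.epsilon_spec
      obtain ⟨C, c1, c2⟩ := pseudo (R := fun _ _ => True)
        (C := insert univ ((fun y => cap (B y).1 (B y).2) '' {y | r y x}))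
        (((cnt x).image _).insert _) (insert_nonempty _ _)
        (by
          rintro A (rfl | ⟨y, hy, rfl⟩)
          · exact pos_true infinite_univ
          · exact pos_true (ih y hy).1.1)
        (by
          rintro A (rfl | ⟨y, hy, rfl⟩) A' (rfl | ⟨y', hy', rfl⟩)
          · simp
          · right; simp
          · left; simp
          · rcases trichotomous_of r y y' with t | t | t
            · exact Or.inr ((ih y' hy').2 y t).1
            · rw [t]; simp
            · exact Or.inl ((ih y hy).2 y' t).1)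
      obtain ⟨P, p1, p2, p3⟩ : ∃ P : Set ℕ, P.Infinite ∧ P ⊆ C ∧
          (P ⊆ {n | x.1 n = true} ∨ P ⊆ {n | x.1 n = true}ᶜ) := by
        by_cases t : (C ∩ {n | x.1 n = true}).Finite
        · exact ⟨C \ {n | x.1 n = true}, fun s => c1.infinite ((t.union s).subset
            (by rw [inter_union_diff])), diff_subset, Or.inr fun n hn => hn.2⟩
        · exact ⟨_, t, inter_subset_left, Or.inl inter_subset_right⟩
      obtain ⟨k, k1, k2, k3, k4, k5, k6⟩ := stage
        (𝒢 := range GM ∪ (fun β => f β.1) '' {β | r β x ∧ Dense (f β.1)} ∪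
          (fun β => {u | ¬ Sel (cap u (B β).1)}) '' {β | r β x} ∪
          (fun β => {u | ¬ Sel (cap u (B β).2)}) '' {β | r β x})
        ((((countable_range _).union (((cnt x).mono fun β t => t.1).image _)).union
          ((cnt x).image _)).union ((cnt x).image _))
        (by
          rintro G (((⟨m, rfl⟩ | ⟨β, t, rfl⟩) | ⟨β, t, rfl⟩) | ⟨β, t, rfl⟩)
          · exact cd_GM m
          · exact cd_dense (f1 _) t.2
          · exact cd_nsel (ih β t).1.2.2.2.2.1
          · exact cd_nsel (ih β t).1.2.2.2.2.2.1) p1 x.2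
      refine ⟨k, ⟨k2, k3, k5, k6, fun m => (k1 _ (Or.inl (Or.inl (Or.inl ⟨m, rfl⟩)))).1,
        fun m => (k1 _ (Or.inl (Or.inl (Or.inl ⟨m, rfl⟩)))).2,
        p3.imp (fun t => k4.subset (diff_subset_diff_right t))
          (fun t => k4.subset (diff_subset_diff_right t))⟩, fun β hβ => ⟨?_,
        fun t => k1 _ (Or.inl (Or.inl (Or.inr ⟨β, ⟨hβ, t⟩, rfl⟩))),
        k1 _ (Or.inl (Or.inr ⟨β, hβ, rfl⟩)), k1 _ (Or.inr ⟨β, hβ, rfl⟩)⟩⟩
      exact fin_trans (k4.subset (diff_subset_diff_right p2)) (c2 _ (Or.inr ⟨β, hβ, rfl⟩))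
  have ns : ∀ u : ℕ → Bool, (∀ m, u ∈ GM m) → ¬ Sel (cap u u) := by
    intro u hu t
    obtain ⟨a, b, -, -, ab, s, a2, b2⟩ := hu 0
    exact ab (t a ⟨a2, a2⟩ b ⟨b2, b2⟩ s)
  let L : Set (ℕ → Bool) := {u | ∃ α, u = (B α).1 ∨ u = (B α).2}
  have cls : ∀ u ∈ L, ∀ v ∈ L, Sel (cap u v) → ∃ α, cap u v = cap (B α).1 (B α).2 := by
    have lt : ∀ α β, r β α → ∀ u v, (u = (B α).1 ∨ u = (B α).2) → (v = (B β).1 ∨ v = (B β).2) →
        ¬ Sel (cap u v) := by
      rintro α β t u v (rfl | rfl) (rfl | rfl)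
      · exact ((key α).2 β t).2.2.1.1
      · exact ((key α).2 β t).2.2.2.1
      · exact ((key α).2 β t).2.2.1.2
      · exact ((key α).2 β t).2.2.2.2
    rintro u ⟨α, hu⟩ v ⟨β, hv⟩ s
    rcases trichotomous_of r α β with t | t | t
    · exact absurd (cap_comm u v ▸ s) (lt β α t v u hv hu)
    · subst t
      rcases hu with rfl | rfl <;> rcases hv with rfl | rfl
      · exact absurd s (ns _ (key α).1.2.2.2.2.1)
      · exact ⟨α, rfl⟩
      · exact ⟨α, cap_comm _ _⟩
      · exact absurd s (ns _ (key α).1.2.2.2.2.2.1)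
    · exact absurd s (lt α β t u v hu hv)
  refine ⟨L, fun N hN => ?_, fun u hu v hv s => ?_, fun u hu v hv u' hu' v' hv' s s' => ?_,
    fun A n => ?_⟩
  · obtain ⟨c, hc⟩ := f2 (closure N)ᶜ isClosed_closure.isOpen_compl
    have d : Dense (f c) := by rw [hc]; exact interior_eq_empty_iff_dense_compl.mp hN
    have cc : {β | ¬ r (c, 0) β}.Countable := by
      refine ((cnt (c, 0)).insert (c, 0)).mono fun β hβ => ?_
      rcases trichotomous_of r β (c, 0) with t | t | t
      · exact Or.inr t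
      · exact Or.inl t
      · exact absurd t hβ
    refine ((cc.image fun β => (B β).1).union (cc.image fun β => (B β).2)).mono ?_
    rintro u ⟨⟨α, hu⟩, hn⟩
    have : ¬ r (c, 0) α := by
      intro t
      have := ((key α).2 _ t).2.1 d
      simp only [hc] at this
      rcases hu with rfl | rfl
      · exact this.1 (subset_closure hn)
      · exact this.2 (subset_closure hn)
    rcases hu with rfl | rfl
    · exact Or.inl ⟨α, this, rfl⟩
    · exact Or.inr ⟨α, this, rfl⟩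
  · obtain ⟨α, e⟩ := cls u hu v hv s
    rw [e]; exact (key α).1.1
  · obtain ⟨α, e⟩ := cls u hu v hv s
    obtain ⟨β, e'⟩ := cls u' hu' v' hv' s'
    rw [e, e']
    rcases trichotomous_of r α β with t | t | t
    · exact Or.inr ((key β).2 α t).1
    · rw [t]; simp
    · exact Or.inl ((key α).2 β t).1
  · obtain ⟨-, a2, a3, a4, -, -, a5⟩ := (key (fun n => decide (n ∈ A), n)).1
    refine ⟨_, ⟨_, Or.inl rfl⟩, _, ⟨_, Or.inr rfl⟩, a2, ?_, a3, a4⟩
    simpa using a5

end

end Pool.Agent.H18.Tau
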