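import Pool.Agent.H18.MT1
import Pool.Agent.H18.Tau3

set_option autoImplicit false

namespace Pool.Agent.H18.MT

open Set Filter

noncomputable section
open Classical

/-- almost equal -/
def Md (x y : Set ℕ) : Prop := ∀ᶠ p in atTop, (p ∈ x ↔ p ∈ y)

/-- condensation order -/
def Le (r s : Set ℕ × Set ℕ) : Prop := Sub r.1 s.1 s.2 ∧ ∀ᶠ c in atTop, c ∈ r.2 → c ∈ s.2

lemma Sub.trans {x t' N' t N : Set ℕ} (h1 : Sub x t' N') (h2 : Sub t' t N)
    (h3 : ∀ᶠ c in atTop, c ∈ N' → c ∈ N) (hN : N.Infinite) : Sub x t N := by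
  obtain ⟨K, hK⟩ := eventually_atTop.mp (h1.and (h2.and h3))
  obtain ⟨c0, c1, c2⟩ := hN.exists_gt K
  filter_upwards [eventually_ge_atTop c0] with p hp hx
  obtain ⟨a1, a2⟩ := (hK p (by omega)).1 hx
  obtain ⟨b1, b2⟩ := (hK p (by omega)).2.1 a1
  refine ⟨b1, fun q q1 q2 => a2 q (b2 q q1 q2) fun c hc => ?_⟩
  by_cases s : K ≤ c
  · exact q2 c ((hK c s).2.2 hc)
  · have := (q2 c0 c1).mp hp
    omega

lemma Sub.md {x x' t N : Set ℕ} (h2 : Sub x' t N) (h1 : Md x x') (hN : N.Infinite) :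
    Sub x t N := by
  obtain ⟨K, hK⟩ := eventually_atTop.mp (h1.and h2)
  obtain ⟨c0, c1, c2⟩ := hN.exists_gt K
  filter_upwards [eventually_ge_atTop c0] with p hp hx
  obtain ⟨a1, a2⟩ := (hK p (by omega)).2 ((hK p (by omega)).1.mp hx)
  refine ⟨a1, fun q q1 q2 => ?_⟩
  have := (q2 c0 c1).mp hp
  exact (hK q (by omega)).1.mpr (a2 q q1 q2)

lemma Le.trans {r s u : Set ℕ × Set ℕ} (h1 : Le r s) (h2 : Le s u) (hu : u.2.Infinite) : Le r u :=
  ⟨h1.1.trans h2.1 h2.2 hu, by filter_upwards [h1.2, h2.2] with c a b using fun t => b (a t)⟩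

lemma Le.rfl (r : Set ℕ × Set ℕ) : Le r r :=
  ⟨Eventually.of_forall fun _ hp => ⟨hp, fun _ hq _ => hq⟩, Eventually.of_forall fun _ h => h⟩

lemma Le.top (r : Set ℕ × Set ℕ) : Le r (univ, univ) :=
  ⟨Eventually.of_forall fun p hp => ⟨trivial, fun q _ s => by
    have a := (s p trivial).mp le_rfl
    have b := (s q trivial).mpr le_rfl
    rwa [show q = p by omega]⟩, Eventually.of_forall fun _ _ => trivial⟩

lemma Md.inf {x y : Set ℕ} (h : Md x y) (hy : y.Infinite) : x.Infinite := by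
  obtain ⟨K, hK⟩ := eventually_atTop.mp h
  refine infinite_of_forall_exists_gt fun a => ?_
  obtain ⟨p, p1, p2⟩ := hy.exists_gt (a + K)
  exact ⟨p, (hK p (by omega)).mpr p1, by omega⟩

lemma count_md (y : Set ℕ) : {x | Md x y}.Countable := by
  refine ((Set.Countable.setOf_finite (α := ℕ)).image (fun s => symmDiff s y)).mono fun x hx => ?_
  obtain ⟨K, hK⟩ := eventually_atTop.mp hx
  refine ⟨symmDiff x y, (finite_lt_nat K).subset fun p hp => ?_, by simp⟩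
  by_contra s
  have := hK p (not_lt.mp s)
  rcases hp with t | t
  · exact t.2 (this.mp t.1)
  · exact t.2 (this.mpr t.1)

lemma fuse (P : ℕ → Set ℕ × Set ℕ) (g : ℕ → ℕ)
    (h : ∀ k, ∃ r : Set ℕ × Set ℕ, r.1.Infinite ∧ r.2.Infinite ∧ ∀ j ≤ k, Le r (P j)) :
    ∃ y M : Set ℕ, y.Infinite ∧ M.Infinite ∧ (∀ j, Le (y, M) (P j)) ∧
      ∃ᶠ n in atTop, ∀ p, n ≤ p → p < g n → p ∉ y := by
  choose r r1 r2 r3 using h
  let Ok : ℕ → ℕ → Prop := fun k c => ∀ j ≤ k, c ∈ (P j).2 ∧ ∀ p, c ≤ p → p ∈ (r k).1 →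
    p ∈ (P j).1 ∧ ∀ q ∈ (P j).1, Same (P j).2 p q → q ∈ (r k).1
  have ok : ∀ k a, ∃ c, a < c ∧ Ok k c := by
    intro k a
    have : ∀ᶠ p in atTop, ∀ j ∈ Iic k, (p ∈ (r k).1 → p ∈ (P j).1 ∧
        ∀ q ∈ (P j).1, Same (P j).2 p q → q ∈ (r k).1) ∧ (p ∈ (r k).2 → p ∈ (P j).2) :=
      (eventually_all_finite (finite_Iic k)).mpr fun j hj => (r3 k j hj).1.and (r3 k j hj).2
    obtain ⟨K, hK⟩ := eventually_atTop.mp this
    obtain ⟨c, c1, c2⟩ := (r2 k).exists_gt (a + K)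
    exact ⟨c, by omega, fun j hj => ⟨(hK c (by omega) j hj).2 c1, fun p hp =>
      (hK p (by omega) j hj).1⟩⟩
  have st : ∀ k c, ∃ c', c < c' ∧ g c ≤ c' ∧ (∃ p ∈ (r k).1, c ≤ p ∧ p < c') ∧ Ok (k + 1) c' := by
    intro k c
    obtain ⟨p, p1, p2⟩ := (r1 k).exists_gt c
    obtain ⟨c', c1, c2⟩ := ok (k + 1) (p + g c)
    exact ⟨c', by omega, by omega, ⟨p, p1, p2.le, by omega⟩, c2⟩
  choose C C1 C2 C3 C4 using st
  obtain ⟨c0, -, c1⟩ := ok 0 0
  let m : ℕ → ℕ := fun k => Nat.rec c0 (fun k c => C k c) k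
  have m1 : ∀ k, m (k + 1) = C k (m k) := fun k => rfl
  have mm : StrictMono m := strictMono_nat_of_lt_succ fun k => by rw [m1]; exact C1 _ _
  have mo : ∀ k, Ok k (m k) := fun k => by
    cases k with
    | zero => exact c1
    | succ k => rw [m1]; exact C4 _ _
  refine ⟨{p | ∃ k, m (2 * k + 1) ≤ p ∧ p < m (2 * k + 1 + 1) ∧ p ∈ (r (2 * k + 1)).1}, range m,
    infinite_of_forall_exists_gt fun a => ?_, infinite_range_of_injective mm.injective,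
    fun j => ⟨?_, ?_⟩, frequently_atTop.mpr fun a => ⟨m (2 * a), ?_, ?_⟩⟩
  · obtain ⟨p, p1, p2, p3⟩ := C3 (2 * a + 1) (m (2 * a + 1))
    have := mm.id_le (2 * a + 1)
    simp only [id] at this
    exact ⟨p, ⟨a, p2, p3, p1⟩, by omega⟩
  · filter_upwards [eventually_ge_atTop (m j)] with p hp
    rintro ⟨k, k1, k2, k3⟩
    have jk : j < 2 * k + 1 + 1 := mm.lt_iff_lt.mp (by omega)
    obtain ⟨a1, a2⟩ := mo (2 * k + 1) j (by omega)
    obtain ⟨b1, b2⟩ := a2 p k1 k3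
    refine ⟨b1, fun q q1 q2 => ⟨k, (q2 _ a1).mp k1, ?_, b2 q q1 q2⟩⟩
    by_contra s
    have := (q2 _ (mo (2 * k + 1 + 1) j jk.le).1).mpr (not_lt.mp s)
    omega
  · filter_upwards [eventually_ge_atTop (m j)] with c hc
    rintro ⟨k, rfl⟩
    exact (mo k j (mm.le_iff_le.mp hc)).1
  · have := mm.id_le (2 * a)
    simp only [id] at this
    omega
  · rintro p p1 p2 ⟨k, k1, k2, -⟩
    have := C2 (2 * a) (m (2 * a))
    rw [← m1] at this
    have a1 : 2 * k + 1 < 2 * a + 1 := mm.lt_iff_lt.mp (by omega)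
    have a2 : 2 * a < 2 * k + 1 + 1 := mm.lt_iff_lt.mp (by omega)
    omega

/-- the double sequence `O` is handled -/
def Hd (Q : Set (Set ℕ)) (O : ℕ → ℕ → Set (Set ℕ)) (t N : Set ℕ) : Prop :=
  (∀ n k, ∀ F : Set (Set ℕ), F.Finite → F ⊆ Q → ∃ a, k ≤ a ∧ F ⊆ O n a) →
    ∃ (ι : ℕ → ℕ) (a : Bool → ℕ → ℕ) (n : ℕ → ℕ), StrictMono ι ∧ StrictMono n ∧
      (∀ b b' i i', a b i = a b' i' → b = b' ∧ i = i') ∧
      (∀ b i, ∃ x ∈ Q, x ∈ O (ι i) (a b i)) ∧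
      (∀ b, ∀ x ∈ Q, ∀ᶠ i in atTop, x ∈ O (ι i) (a b i)) ∧
      ∀ x : Set ℕ, x.Infinite → Sub x t N → ∀ b, (∀ᶠ i in atTop, x ∈ O (ι i) (a b i)) ∨
        ∀ᶠ i in atTop, (x ∈ O (ι i) (a b i) ↔ ∃ p ∈ x, n i ≤ p ∧ p < n (i + 1))

lemma stage {Q : Set (Set ℕ)} (hQ : Q.Countable) {y M : Set ℕ} (hy : y.Infinite)
    (hM : M.Infinite) (hyQ : ∀ x, Md x y → x ∈ Q) {O : ℕ → ℕ → Set (Set ℕ)}
    (hO : ∀ n a, Op (O n a)) :
    ∃ t N : Set ℕ, t.Infinite ∧ N.Infinite ∧ Le (t, N) (y, M) ∧ Hd Q O t N := by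
  by_cases H : ∀ n k, ∀ F : Set (Set ℕ), F.Finite → F ⊆ Q → ∃ a, k ≤ a ∧ F ⊆ O n a
  swap
  · exact ⟨y, M, hy, hM, Le.rfl _, fun h => absurd h H⟩
  obtain ⟨q, hq⟩ := hQ.exists_eq_range ⟨y, hyQ y (Eventually.of_forall fun _ => Iff.rfl)⟩
  have st : ∀ j c k : ℕ, ∃ c' a a' : ℕ, c < c' ∧ c' ∈ M ∧ k ≤ a ∧ a < a' ∧
      (∃ p ∈ y, c ≤ p ∧ p < c') ∧ (∀ i ≤ j, q i ∈ O j a ∧ q i ∈ O j a') ∧
      ∀ x : Set ℕ, (∀ p, c ≤ p → p < c' → (p ∈ x ↔ p ∈ y)) → x ∈ O j a ∧ x ∈ O j a' := by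
    intro j c k
    let F : Set (Set ℕ) := q '' Iic j ∪ (fun s => s ∪ (y \ Iio c)) '' {s | s ⊆ Iio c}
    have F1 : F.Finite :=
      ((finite_Iic j).image _).union ((finite_Iio c).finite_subsets.image _)
    have F2 : F ⊆ Q := by
      rintro _ (⟨i, -, rfl⟩ | ⟨s, hs, rfl⟩)
      · exact hq ▸ mem_range_self i
      · refine hyQ _ ?_
        filter_upwards [eventually_ge_atTop c] with p hp
        refine ⟨fun t => t.elim (fun u => absurd (hs u) (not_lt.mpr hp)) fun u => u.1,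
          fun t => Or.inr ⟨t, not_lt.mpr hp⟩⟩
    obtain ⟨a, a1, a2⟩ := H j k F F1 F2
    obtain ⟨a', b1, b2⟩ := H j (a + 1) F F1 F2
    have rad : ∀ᶠ n in atTop, ∀ x ∈ F, ∀ z : Set ℕ, (∀ p < n, p ∈ z ↔ p ∈ x) →
        z ∈ O j a ∧ z ∈ O j a' := by
      rw [eventually_all_finite F1]
      intro x hx
      obtain ⟨n1, h1⟩ := hO j a x (a2 hx)
      obtain ⟨n2, h2⟩ := hO j a' x (b2 hx)
      filter_upwards [eventually_ge_atTop (n1 + n2)] with n hn z hz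
      exact ⟨h1 z fun p hp => hz p (by omega), h2 z fun p hp => hz p (by omega)⟩
    obtain ⟨R, hR⟩ := eventually_atTop.mp rad
    obtain ⟨p, p1, p2⟩ := hy.exists_gt c
    obtain ⟨c', c1, c2⟩ := hM.exists_gt (p + R)
    refine ⟨c', a, a', by omega, c1, a1, b1, ⟨p, p1, p2.le, by omega⟩,
      fun i hi => ⟨a2 (Or.inl ⟨i, hi, rfl⟩), b2 (Or.inl ⟨i, hi, rfl⟩)⟩, fun x hx =>
      hR c' (by omega) _ (Or.inr ⟨x ∩ Iio c, inter_subset_right, rfl⟩) x fun p hp => ?_⟩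
    by_cases s : p < c
    · exact ⟨fun t => Or.inl ⟨t, s⟩, fun t => t.elim (fun u => u.1) fun u => absurd s u.2⟩
    · rw [hx p (not_lt.mp s) hp]
      exact ⟨fun t => Or.inr ⟨t, s⟩, fun t => t.elim (fun u => absurd u.2 s) fun u => u.1⟩
  choose C A A' s1 s2 s3 s4 s5 s6 s7 using st
  obtain ⟨c0, c1⟩ := hM.nonempty
  let σ : ℕ → ℕ × ℕ := fun j => Nat.rec (c0, 0) (fun j s => (C j s.1 s.2, A' j s.1 s.2 + 1)) j
  let m : ℕ → ℕ := fun j => (σ j).1
  let k : ℕ → ℕ := fun j => (σ j).2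
  have m1 : ∀ j, m (j + 1) = C j (m j) (k j) := fun j => rfl
  have k1 : ∀ j, k (j + 1) = A' j (m j) (k j) + 1 := fun j => rfl
  have mm : StrictMono m := strictMono_nat_of_lt_succ fun j => by rw [m1]; exact s1 _ _ _
  have mM : ∀ j, m j ∈ M := fun j => by
    cases j with
    | zero => exact c1
    | succ j => rw [m1]; exact s2 _ _ _
  let a : Bool → ℕ → ℕ := fun b j => if b then A j (m j) (k j) else A' j (m j) (k j)
  have ab : ∀ b j, k j ≤ a b j ∧ a b j < k (j + 1) := by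
    intro b j
    have := s3 j (m j) (k j)
    have := s4 j (m j) (k j)
    rw [k1]
    cases b <;> simp only [a] <;> simp <;> omega
  have km : StrictMono k := strictMono_nat_of_lt_succ fun j => by have := ab true j; omega
  have aq : ∀ b j i, i ≤ j → q i ∈ O j (a b j) := by
    intro b j i hi
    cases b
    · exact (s6 j (m j) (k j) i hi).2
    · exact (s6 j (m j) (k j) i hi).1
  obtain ⟨t, K, ι, t1, t2, t3, t4, t5⟩ := mt (y := y) mm (fun j => by rw [m1]; exact s5 _ _ _)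
    (V := fun b j => O j (a b j)) (fun b j => hO _ _) (fun b j x hx => by
      rw [m1] at hx
      cases b
      · exact (s7 j (m j) (k j) x hx).2
      · exact (s7 j (m j) (k j) x hx).1)
  refine ⟨t, range (m ∘ K), t3, infinite_range_of_injective (mm.comp t1).injective,
    ⟨Eventually.of_forall fun p hp => ⟨(t4 p hp).1, fun z z1 z2 => (t4 p hp).2 z z1 ?_⟩,
      Eventually.of_forall ?_⟩, fun _ => ⟨ι, fun b i => a b (ι i), m ∘ K, t2, mm.comp t1, ?_,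
      fun b i => ⟨q 0, hq ▸ mem_range_self 0, aq b _ 0 (Nat.zero_le _)⟩, ?_, t5⟩⟩
  · rintro _ ⟨j, rfl⟩
    exact z2 _ (mM j)
  · rintro _ ⟨j, rfl⟩
    exact mM _
  · intro b b' i i' e
    have u1 := ab b (ι i)
    have u2 := ab b' (ι i')
    have v1 : ι i < ι i' + 1 := km.lt_iff_lt.mp (by simp only at e; omega)
    have v2 : ι i' < ι i + 1 := km.lt_iff_lt.mp (by simp only at e; omega)
    have w : i = i' := t2.injective (by omega)
    subst w
    refine ⟨?_, rfl⟩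
    have := s4 (ι i) (m (ι i)) (k (ι i))
    cases b <;> cases b' <;> simp [a] at e ⊢ <;> omega
  · intro b x hx
    rw [hq] at hx
    obtain ⟨i0, rfl⟩ := hx
    filter_upwards [eventually_ge_atTop i0] with i hi
    exact aq b _ i0 (hi.trans (t2.id_le i))

/-- indicator function -/
def ind (x : Set ℕ) : ℕ → Bool := fun n => decide (n ∈ x)

theorem tower (hCH : Cardinal.continuum.{0} = Cardinal.aleph 1) :
    ∃ 𝒳 : Set (Set ℕ), (∀ x ∈ 𝒳, x.Infinite) ∧ (∀ x ∈ 𝒳, ∀ z, Md z x → z ∈ 𝒳) ∧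
      (∀ x ∈ 𝒳, ∀ z ∈ 𝒳, (∀ᶠ p in atTop, p ∈ x → p ∈ z) ∨ ∀ᶠ p in atTop, p ∈ z → p ∈ x) ∧
      (∀ g : ℕ → ℕ, ∃ x ∈ 𝒳, ∃ᶠ n in atTop, ∀ p, n ≤ p → p < g n → p ∉ x) ∧
      ∀ O : ℕ → ℕ → Set (ℕ → Bool), (∀ n a, IsOpen (O n a)) →
        (∀ n k, ∀ F : Set (Set ℕ), F.Finite → F ⊆ 𝒳 → ∃ a, k ≤ a ∧ ∀ x ∈ F, ind x ∈ O n a) →
        ∃ (ι : ℕ → ℕ) (a : Bool → ℕ → ℕ), StrictMono ι ∧
          (∀ b b' i i', a b i = a b' i' → b = b' ∧ i = i') ∧
          (∀ b i, ∃ x ∈ 𝒳, ind x ∈ O (ι i) (a b i)) ∧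
          (∀ b, ∀ x ∈ 𝒳, ∃ᶠ i in atTop, ind x ∈ O (ι i) (a b i)) ∧
          ∀ b, ∀ x ∈ 𝒳, ∀ z ∈ 𝒳,
            (∀ᶠ i in atTop, ind x ∈ O (ι i) (a b i) → ind z ∈ O (ι i) (a b i)) ∨
            ∀ᶠ i in atTop, ind z ∈ O (ι i) (a b i) → ind x ∈ O (ι i) (a b i) := by
  obtain ⟨f, f1, f2⟩ := Tau.enum_open
  obtain ⟨r, wo, hr⟩ := Cardinal.exists_ord_eq ((ℕ → ℕ → ℕ → Bool) × (ℕ → ℕ))
  have cnt : ∀ x, {y | r y x}.Countable := by
    intro x
    rw [Cardinal.countable_iff_lt_aleph_one, ← hCH]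
    have := Cardinal.card_typein_lt x hr
    rw [Ordinal.card_typein] at this
    refine this.trans_le (le_of_eq ?_)
    simp
  let Q : (α : (ℕ → ℕ → ℕ → Bool) × (ℕ → ℕ)) → ((β : (ℕ → ℕ → ℕ → Bool) × (ℕ → ℕ)) → r β α →
      Set ℕ × Set ℕ × Set ℕ) → Set ℕ × Set ℕ × Set ℕ → Prop := fun α F d =>
    d.1.Infinite ∧ d.2.1.Infinite ∧ d.2.2.Infinite ∧
      (∀ β hβ, Sub d.1 (F β hβ).2.1 (F β hβ).2.2 ∧ Le d.2 (F β hβ).2) ∧
      (∀ᶠ p in atTop, p ∈ d.2.1 → p ∈ d.1) ∧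
      (∃ᶠ n in atTop, ∀ p, n ≤ p → p < α.2 n → p ∉ d.1) ∧
      Hd {x | Md x d.1 ∨ ∃ β hβ, Md x (F β hβ).1} (fun n a => ind ⁻¹' f (α.1 n a)) d.2.1 d.2.2
  let B : (ℕ → ℕ → ℕ → Bool) × (ℕ → ℕ) → Set ℕ × Set ℕ × Set ℕ :=
    wo.wf.fix (fun α F => Classical.epsilon (Q α F))
  have hB : ∀ α, B α = Classical.epsilon (Q α (fun β _ => B β)) := fun α => wo.wf.fix_eq _ α
  have key : ∀ α, Q α (fun β _ => B β) (B α) := by
    intro α
    induction α using wo.wf.induction with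
    | _ α ih =>
      rw [hB α]
      apply Classical.epsilon_spec
      let S : Set (Set ℕ × Set ℕ) := insert (univ, univ) ((fun β => (B β).2) '' {β | r β α})
      obtain ⟨P, hP⟩ := (((cnt α).image (fun β => (B β).2)).insert (univ, univ)).exists_eq_range
        (insert_nonempty _ _)
      have gd : ∀ s ∈ S, s.1.Infinite ∧ s.2.Infinite := by
        rintro _ (rfl | ⟨β, hβ, rfl⟩)
        · exact ⟨infinite_univ, infinite_univ⟩
        · exact ⟨(ih β hβ).2.1, (ih β hβ).2.2.1⟩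
      have ch : ∀ s ∈ S, ∀ s' ∈ S, Le s s' ∨ Le s' s := by
        rintro _ (rfl | ⟨β, hβ, rfl⟩) _ (rfl | ⟨β', hβ', rfl⟩)
        · exact Or.inl (Le.top _)
        · exact Or.inr (Le.top _)
        · exact Or.inl (Le.top _)
        · rcases trichotomous_of r β β' with t | t | t
          · exact Or.inr ((ih β' hβ').2.2.2.1 β t).2
          · rw [t]; exact Or.inl (Le.rfl _)
          · exact Or.inl ((ih β hβ).2.2.2.1 β' t).2
      have PS : ∀ j, P j ∈ S := fun j => (show S = range P from hP) ▸ mem_range_self j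
      have low : ∀ k, ∃ i, ∀ j ≤ k, Le (P i) (P j) := by
        intro k
        induction k with
        | zero => exact ⟨0, fun j hj => by rw [Nat.le_zero.mp hj]; exact Le.rfl _⟩
        | succ k ik =>
          obtain ⟨i, hi⟩ := ik
          rcases ch _ (PS i) _ (PS (k + 1)) with t | t
          · refine ⟨i, fun j hj => ?_⟩
            rcases Nat.of_le_succ hj with u | u
            · exact hi j u
            · rw [u]; exact t
          · refine ⟨k + 1, fun j hj => ?_⟩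
            rcases Nat.of_le_succ hj with u | u
            · exact t.trans (hi j u) (gd _ (PS j)).2
            · rw [u]; exact Le.rfl _
      obtain ⟨y, M, y1, y2, y3, y4⟩ := fuse P α.2 fun k => by
        obtain ⟨i, hi⟩ := low k
        exact ⟨P i, (gd _ (PS i)).1, (gd _ (PS i)).2, hi⟩
      obtain ⟨t, N, t1, t2, t3, t4⟩ := stage (Q := {x | Md x y ∨ ∃ β, ∃ _ : r β α, Md x (B β).1})
        (by
          refine ((count_md y).union ((cnt α).biUnion fun β _ => count_md (B β).1)).mono ?_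
          rintro x (hx | ⟨β, hβ, hx⟩)
          · exact Or.inl hx
          · exact Or.inr (mem_biUnion hβ hx)) y1 y2 (fun x hx => Or.inl hx)
        (O := fun n a => ind ⁻¹' f (α.1 n a)) (by
          intro n a x hx
          obtain ⟨k, hk⟩ := Tau.cyl_nhds (f1 _) hx
          exact ⟨k, fun z hz => hk _ fun i hi => by simp only [ind, hz i hi]⟩)
      refine ⟨(y, t, N), y1, t1, t2, fun β hβ => ?_, t3.1.mono fun p hp s => (hp s).1, y4, t4⟩
      have : (B β).2 ∈ range P := (show S = range P from hP) ▸ Or.inr ⟨β, hβ, rfl⟩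
      obtain ⟨j, hj⟩ := this
      have u := y3 j
      rw [hj] at u
      exact ⟨u.1, t3.trans u (ih β hβ).2.2.1⟩
  have lin : ∀ α β x z, r β α → Md x (B α).1 → Md z (B β).1 → ∀ᶠ p in atTop, p ∈ x → p ∈ z := by
    intro α β x z h hx hz
    filter_upwards [hx, hz, ((key α).2.2.2.1 β h).1, (key β).2.2.2.2.1] with p a b c d e
    exact b.mpr (d (c (a.mp e)).1)
  have lin' : ∀ α β x z, Md x (B α).1 → Md z (B β).1 →
      (∀ᶠ p in atTop, p ∈ x → p ∈ z) ∨ ∀ᶠ p in atTop, p ∈ z → p ∈ x := by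
    intro α β x z hx hz
    rcases trichotomous_of r α β with t | t | t
    · exact Or.inr (lin β α z x t hz hx)
    · subst t
      left
      filter_upwards [hx, hz] with p a b c using b.mpr (a.mp c)
    · exact Or.inl (lin α β x z t hx hz)
  refine ⟨{x | ∃ α, Md x (B α).1}, ?_, ?_, ?_, fun g => ⟨(B (fun _ _ _ => true, g)).1,
    ⟨_, Eventually.of_forall fun _ => Iff.rfl⟩, (key (fun _ _ _ => true, g)).2.2.2.2.2.1⟩, fun O hO H => ?_⟩
  · rintro x ⟨α, hx⟩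
    exact hx.inf (key α).1
  · rintro x ⟨α, hx⟩ z hz
    exact ⟨α, by filter_upwards [hx, hz] with p a b using b.trans a⟩
  · rintro x ⟨α, hx⟩ z ⟨β, hz⟩
    exact lin' α β x z hx hz
  choose c hc using fun n a => f2 (O n a) (hO n a)
  let α : (ℕ → ℕ → ℕ → Bool) × (ℕ → ℕ) := (c, id)
  have sub : {x | Md x (B α).1 ∨ ∃ β, ∃ _ : r β α, Md x (B β).1} ⊆ {x | ∃ α, Md x (B α).1} := by
    rintro x (hx | ⟨β, -, hx⟩)
    · exact ⟨α, hx⟩
    · exact ⟨β, hx⟩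
  obtain ⟨ι, a, n, h1, h2, h3, h4, h5, h6⟩ := (key α).2.2.2.2.2.2 fun n k F F1 F2 => by
    obtain ⟨a, a1, a2⟩ := H n k F F1 (F2.trans sub)
    exact ⟨a, a1, fun x hx => by simpa only [α, hc, mem_preimage] using a2 x hx⟩
  simp only [α, hc, mem_preimage] at h4 h5 h6
  have di : ∀ b x β, Md x (B β).1 → (∀ᶠ i in atTop, ind x ∈ O (ι i) (a b i)) ∨
      ∀ᶠ i in atTop, (ind x ∈ O (ι i) (a b i) ↔ ∃ p ∈ x, n i ≤ p ∧ p < n (i + 1)) := by
    intro b x β hx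
    rcases trichotomous_of r α β with t | t | t
    · exact h6 x (hx.inf (key β).1) (((key β).2.2.2.1 α t).1.md hx (key α).2.2.1) b
    · subst t
      exact Or.inl (h5 b x (Or.inl hx))
    · exact Or.inl (h5 b x (Or.inr ⟨β, t, hx⟩))
  have mono : ∀ b (x z : Set ℕ), (∀ᶠ p in atTop, p ∈ x → p ∈ z) →
      (∀ᶠ i in atTop, (ind x ∈ O (ι i) (a b i) ↔ ∃ p ∈ x, n i ≤ p ∧ p < n (i + 1))) →
      (∀ᶠ i in atTop, (ind z ∈ O (ι i) (a b i) ↔ ∃ p ∈ z, n i ≤ p ∧ p < n (i + 1))) →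
      ∀ᶠ i in atTop, ind x ∈ O (ι i) (a b i) → ind z ∈ O (ι i) (a b i) := by
    intro b x z s u v
    obtain ⟨K, hK⟩ := eventually_atTop.mp s
    filter_upwards [u, v, eventually_ge_atTop K] with i u v w e
    obtain ⟨p, p1, p2, p3⟩ := u.mp e
    have := h2.id_le i
    simp only [id] at this
    exact v.mpr ⟨p, hK p (by omega) p1, p2, p3⟩
  refine ⟨ι, a, h1, h3, fun b i => ?_, ?_, ?_⟩
  · obtain ⟨x, x1, x2⟩ := h4 b i
    exact ⟨x, sub x1, x2⟩
  · rintro b x ⟨β, hx⟩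
    rcases di b x β hx with t | t
    · exact t.frequently
    · exact ((freq_blk h2 (hx.inf (key β).1)).and_eventually t).mono fun i hi => hi.2.mpr hi.1
  · rintro b x ⟨β, hx⟩ z ⟨γ, hz⟩
    rcases di b x β hx with t | t
    · exact Or.inr (t.mono fun i hi _ => hi)
    · rcases di b z γ hz with s | s
      · exact Or.inl (s.mono fun i hi _ => hi)
      · exact (lin' β γ x z hx hz).imp (fun u => mono b x z u t s) fun u => mono b z x u s t

end

end Pool.Agent.H18.MT
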