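import Pool.Agent.H18.MT2
import Pool.Agent.H8.Tau3

set_option autoImplicit false

namespace Pool.Agent.H18.MT

open Set Filter TopologicalSpace Pool.Agent.H8.Tau

noncomputable section
open Classical

variable {Z : Type} [TopologicalSpace Z]

/-- the properties of the tower space -/
structure Tw (φ : Z → Set ℕ) : Prop where
  clo : ∀ n, IsClopen {x | n ∈ φ x}
  inf : ∀ x, (φ x).Infinite
  md : ∀ x z, Md z (φ x) → ∃ x', φ x' = z
  lin : ∀ x z, (∀ᶠ p in atTop, p ∈ φ x → p ∈ φ z) ∨ ∀ᶠ p in atTop, p ∈ φ z → p ∈ φ x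
  gap : ∀ g : ℕ → ℕ, ∃ x, ∃ᶠ n in atTop, ∀ p, n ≤ p → p < g n → p ∉ φ x
  sel : ∀ 𝒰 : ℕ → Set (Set Z), (∀ n, Om IsOpen (𝒰 n)) → ∃ (ι : ℕ → ℕ) (V : Bool → ℕ → Set Z),
    StrictMono ι ∧ (∀ b i, V b i ∈ 𝒰 (ι i)) ∧ (∀ b b' i i', V b i = V b' i' → b = b' ∧ i = i') ∧
      ∀ b, IT (V b)

lemma om_count [SecondCountableTopology Z] {𝒰 : Set (Set Z)} (h : Om IsOpen 𝒰) :
    ∃ 𝒱 ⊆ 𝒰, 𝒱.Countable ∧ ∀ F : Set Z, F.Finite → {u ∈ 𝒱 | F ⊆ u}.Infinite := by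
  let S : Set (Set (Set Z)) := {s | (s.Finite ∧ s ⊆ countableBasis Z) ∧ ∃ u ∈ 𝒰, ⋃₀ s ⊆ u}
  have hS : S.Countable :=
    (countable_setOf_finite_subset (countable_countableBasis Z)).mono fun s hs => hs.1
  have : ∀ s : S, ∃ u ∈ 𝒰, ⋃₀ s.1 ⊆ u := fun s => s.2.2
  choose u u1 u2 using this
  haveI := hS.to_subtype
  have hs : range u ⊆ 𝒰 := by rintro _ ⟨s, rfl⟩; exact u1 s
  have om : ∀ F : Set Z, F.Finite → ∃ v ∈ range u, F ⊆ v := by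
    intro F hF
    obtain ⟨v, v1, v2⟩ := h.2 F hF
    have : ∀ x : F, ∃ b ∈ countableBasis Z, x.1 ∈ b ∧ b ⊆ v := fun x =>
      (isBasis_countableBasis Z).exists_subset_of_mem_open (v2 x.2) (h.1.1 v v1)
    choose b b1 b2 b3 using this
    haveI := hF.to_subtype
    refine ⟨u ⟨range b, ⟨finite_range b, by rintro _ ⟨x, rfl⟩; exact b1 x⟩, v, v1, ?_⟩,
      mem_range_self _, fun x hx => u2 _ ⟨_, mem_range_self ⟨x, hx⟩, b2 _⟩⟩
    rintro z ⟨_, ⟨x, rfl⟩, t⟩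
    exact b3 x t
  refine ⟨range u, hs, countable_range u, fun F hF hf => ?_⟩
  have : ∀ v : {v ∈ range u | F ⊆ v}, ∃ p, p ∉ v.1 := fun v => by
    by_contra t
    push Not at t
    exact h.1.2.2 ((eq_univ_of_forall t) ▸ hs v.2.1)
  choose p hp using this
  haveI := hf.to_subtype
  obtain ⟨v, v1, v2⟩ := om (F ∪ range p) (hF.union (finite_range p))
  exact hp ⟨v, v1, subset_union_left.trans v2⟩ (v2 (Or.inr (mem_range_self _)))

theorem real (hCH : Cardinal.continuum.{0} = Cardinal.aleph 1) :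
    ∃ (X : Set ℝ) (φ : X → Set ℕ), Tw φ := by
  obtain ⟨𝒳, x1, x2, x3, x4, x5⟩ := tower hCH
  obtain ⟨e, -, e1, e2⟩ := (isClosed_univ (X := ℝ)).exists_nat_bool_injection_of_not_countable
    Cardinal.not_countable_real
  have he := (e1.isClosedEmbedding e2).isEmbedding
  have ii : Function.Injective ind := fun x z h => by
    ext n
    simpa [ind] using congrFun h n
  let X : Set ℝ := (fun x => e (ind x)) '' 𝒳
  have : ∀ p : X, ∃ x ∈ 𝒳, e (ind x) = p.1 := fun p => p.2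
  choose φ φ1 φ2 using this
  let pt : ∀ x ∈ 𝒳, X := fun x hx => ⟨e (ind x), x, hx, rfl⟩
  have pφ : ∀ x hx, φ (pt x hx) = x := fun x hx => ii (e2 (φ2 _))
  have φp : ∀ p, pt (φ p) (φ1 p) = p := fun p => Subtype.ext (φ2 p)
  have op : ∀ O : Set (ℕ → Bool), IsOpen O → IsOpen {p : X | ind (φ p) ∈ O} := by
    intro O hO
    obtain ⟨w, w1, w2⟩ := he.isInducing.isOpen_iff.mp hO
    convert w1.preimage (continuous_subtype_val (p := fun x => x ∈ X)) using 1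
    ext p
    rw [← w2]
    simp [φ2]
  refine ⟨X, φ, fun n => ⟨?_, ?_⟩, fun p => x1 _ (φ1 p), fun p z hz =>
    ⟨pt z (x2 _ (φ1 p) z hz), pφ z (x2 _ (φ1 p) z hz)⟩, fun p q => x3 _ (φ1 p) _ (φ1 q), fun g => ?_, ?_⟩
  · rw [← isOpen_compl_iff]
    convert op {v | v n = false} ((isOpen_discrete {false}).preimage
      (continuous_apply (A := fun _ : ℕ => Bool) n)) using 1
    ext p; simp [ind]
  · convert op {v | v n = true} ((isOpen_discrete {true}).preimage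
      (continuous_apply (A := fun _ : ℕ => Bool) n)) using 1
    ext p; simp [ind]
  · obtain ⟨x, hx, t⟩ := x4 g
    exact ⟨pt x hx, by rw [pφ x hx]; exact t⟩
  intro 𝒰 hU
  choose 𝒱 v1 v2 v3 using fun n => om_count (hU n)
  obtain ⟨enc, henc⟩ := countable_iff_exists_injOn.mp (countable_iUnion v2)
  have lift : ∀ u : Set X, IsOpen u → ∃ O : Set (ℕ → Bool), IsOpen O ∧
      ∀ x hx, ind x ∈ O ↔ pt x hx ∈ u := by
    intro u hu
    obtain ⟨w, w1, rfl⟩ := isOpen_induced_iff.mp hu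
    exact ⟨e ⁻¹' w, w1.preimage e1, fun x hx => Iff.rfl⟩
  choose O o1 o2 using fun n a => lift (⋃₀ {u ∈ 𝒱 n | enc u = a})
    (isOpen_sUnion fun u hu => (hU n).1.1 u (v1 n hu.1))
  obtain ⟨ι, a, h1, h2, h3, h4, h5⟩ := x5 O o1 (by
    intro n k F F1 F2
    haveI := F1.to_subtype
    have := (v3 n (range fun x : F => pt x (F2 x.2)) (finite_range _)).image
      (henc.mono fun u hu => mem_iUnion.mpr ⟨n, hu.1⟩)
    obtain ⟨_, ⟨u, hu, rfl⟩, t⟩ := this.exists_gt k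
    exact ⟨enc u, t.le, fun x hx => (o2 n _ x (F2 hx)).mpr
      ⟨u, ⟨hu.1, rfl⟩, hu.2 ⟨⟨x, hx⟩, rfl⟩⟩⟩)
  have : ∀ b i, ∃ u ∈ 𝒱 (ι i), enc u = a b i := by
    intro b i
    obtain ⟨x, hx, t⟩ := h3 b i
    obtain ⟨u, hu, -⟩ := (o2 _ _ x hx).mp t
    exact ⟨u, hu.1, hu.2⟩
  choose V V1 V2 using this
  have mem : ∀ b i p, p ∈ V b i ↔ ind (φ p) ∈ O (ι i) (a b i) := by
    intro b i p
    rw [o2 _ _ _ (φ1 p), φp]
    refine ⟨fun t => ⟨_, ⟨V1 b i, V2 b i⟩, t⟩, fun ⟨u, hu, t⟩ => ?_⟩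
    rwa [henc (mem_iUnion.mpr ⟨_, V1 b i⟩) (mem_iUnion.mpr ⟨_, hu.1⟩) ((V2 b i).trans hu.2.symm)]
  refine ⟨ι, V, h1, fun b i => v1 _ (V1 b i), fun b b' i i' t =>
    h2 b b' i i' (by rw [← V2, ← V2, t]), fun b => ⟨fun p => ?_, fun p q => ?_⟩⟩
  · simp only [mem]; exact h4 b _ (φ1 p)
  · simp only [mem]; exact h5 b _ (φ1 p) _ (φ1 q)

variable {φ : Z → Set ℕ}

lemma Tw.ne (h : Tw φ) : Nonempty Z := ⟨(h.gap id).choose⟩

lemma Tw.pre (h : Tw φ) (s : Set ℕ) (K : ℕ) : ∃ x, ∀ p < K, (p ∈ φ x ↔ p ∈ s) := by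
  obtain ⟨z⟩ := h.ne
  obtain ⟨x, hx⟩ := h.md z {p | if p < K then p ∈ s else p ∈ φ z} (by
    filter_upwards [eventually_ge_atTop K] with p hp
    simp [not_lt.mpr hp])
  exact ⟨x, fun p hp => by simp [hx, hp]⟩

lemma Tw.miss' (h : Tw φ) {A : Set ℕ} (hA : A.Infinite) (g : ℕ → ℕ) :
    ∃ x, {a ∈ A | ∀ p, a ≤ p → p < g a → p ∉ φ x}.Infinite := by
  choose l l1 l2 using hA.exists_gt
  obtain ⟨x, hx⟩ := h.gap fun n => g (l n)
  refine ⟨x, infinite_of_forall_exists_gt fun k => ?_⟩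
  obtain ⟨n, n1, n2⟩ := frequently_atTop.mp hx k
  have := l2 n
  exact ⟨l n, ⟨l1 n, fun p p1 p2 => n2 p (by omega) p2⟩, by omega⟩

lemma Tw.miss (h : Tw φ) {A : Set ℕ} (hA : A.Infinite) (c : ℕ) :
    ∃ x, {a ∈ A | a + c ∉ φ x}.Infinite := by
  obtain ⟨x, hx⟩ := h.miss' hA fun a => a + c + 1
  exact ⟨x, hx.mono fun a ha => ⟨ha.1, ha.2 _ (by omega) (by omega)⟩⟩

lemma Tw.it (h : Tw φ) : IT fun n => {x | n ∈ φ x} :=
  ⟨fun x => frequently_atTop.mpr fun a => by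
    obtain ⟨b, b1, b2⟩ := (h.inf x).exists_gt a
    exact ⟨b, b2.le, b1⟩, h.lin⟩

lemma Tw.inj (h : Tw φ) : Function.Injective fun n => {x | n ∈ φ x} := by
  intro a b t
  obtain ⟨x, hx⟩ := h.pre {a} (a + b + 1)
  have : x ∈ {x | b ∈ φ x} := (show {x | a ∈ φ x} = {x | b ∈ φ x} from t) ▸
    (hx a (by omega)).mpr rfl
  exact ((hx b (by omega)).mp this).symm

/-- a `τ`-cover without `γ`-subfamily -/
theorem Tw.nogamma (h : Tw φ) : ∃ 𝒰 : Set (Set Z), Ta IsOpen 𝒰 ∧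
    ∀ 𝒟 ⊆ 𝒰, 𝒟.Infinite → ∃ x, {u | u ∈ 𝒟 ∧ x ∉ u}.Infinite := by
  refine ⟨_, ta_range (fun n => (h.clo n).isOpen) (fun n t => ?_) h.inj h.it, fun 𝒟 d1 d2 => ?_⟩
  · obtain ⟨x, hx⟩ := h.pre ∅ (n + 1)
    exact (hx n (by omega)).mp (show x ∈ {x | n ∈ φ x} from t ▸ mem_univ x)
  · obtain ⟨x, hx⟩ := h.miss (d2.preimage d1) 0
    refine ⟨x, (hx.image h.inj.injOn).mono ?_⟩
    rintro _ ⟨n, hn, rfl⟩
    exact hn

/-- two disjoint `τ`-subcovers -/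
theorem Tw.split (h : Tw φ) {𝒰 : Set (Set Z)} (hU : Om IsOpen 𝒰) :
    ∃ 𝒱 ⊆ 𝒰, ∃ 𝒲 ⊆ 𝒰, Disjoint 𝒱 𝒲 ∧ Ta IsOpen 𝒱 ∧ Ta IsOpen 𝒲 := by
  obtain ⟨ι, V, -, v1, v2, v3⟩ := h.sel (fun _ => 𝒰) fun _ => hU
  have t : ∀ b, Ta IsOpen (range (V b)) := fun b => ta_range (fun i => hU.1.1 _ (v1 b i))
    (fun i e => hU.1.2.2 (e ▸ v1 b i)) (fun i i' e => (v2 b b i i' e).2) (v3 b)
  refine ⟨range (V true), range_subset_iff.mpr (v1 true), range (V false),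
    range_subset_iff.mpr (v1 false), disjoint_left.mpr ?_, t true, t false⟩
  rintro _ ⟨i, rfl⟩ ⟨j, e⟩
  exact absurd (v2 _ _ _ _ e).1 (by simp)

theorem Tw.sfin (h : Tw φ) : Sfin (Om (Z := Z) IsOpen) (Ta IsOpen) := by
  intro 𝒰 hU
  obtain ⟨ι, V, v0, v1, v2, v3⟩ := h.sel 𝒰 hU
  refine ⟨fun n => V true '' {i | ι i = n}, fun n => ⟨(Set.Subsingleton.finite
    fun i hi j hj => v0.injective (hi.trans hj.symm)).image _, ?_⟩, ?_⟩
  · rintro _ ⟨i, rfl, rfl⟩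
    exact v1 true i
  · convert ta_range (fun i => (hU _).1.1 _ (v1 true i))
      (fun i e => (hU _).1.2.2 (e ▸ v1 true i)) (fun i i' e => (v2 true true i i' e).2) (v3 true)
    ext u
    simp

/-- an `ω`-cover of the square without `τ`-subfamily -/
theorem Tw.sq (h : Tw φ) : ∃ 𝒰 : Set (Set (Fin 2 → Z)), Om IsOpen 𝒰 ∧
    ∀ 𝒟 ⊆ 𝒰, ¬ Ta IsOpen 𝒟 := by
  let W : ℕ → Set (Fin 2 → Z) := fun n =>
    {p | n + 1 ∈ φ (p 0) ∨ (0 ∉ φ (p 1) ∧ n + 1 ∉ φ (p 1))}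
  obtain ⟨z1, hz1⟩ := h.pre univ 1
  have z1' : 0 ∈ φ z1 := (hz1 0 (by omega)).mpr trivial
  have m1 : ∀ x n, ![x, z1] ∈ W n ↔ n + 1 ∈ φ x := fun x n => by simp [W, z1']
  have inj : Function.Injective W := by
    intro a b t
    obtain ⟨x, hx⟩ := h.pre {a + 1} (a + b + 2)
    have := (m1 x a).mpr ((hx _ (by omega)).mpr rfl)
    rw [t, m1, hx _ (by omega)] at this
    have : b + 1 = a + 1 := this
    omega
  have om : ∀ F : Set (Fin 2 → Z), F.Finite → ∃ n, F ⊆ W n := by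
    intro F hF
    obtain ⟨n, n1, n2⟩ := frequently_atTop.mp (h.it.fin (hF.image fun p => p 0)) 1
    refine ⟨n - 1, fun p hp => Or.inl ?_⟩
    rw [show n - 1 + 1 = n by omega]
    exact n2 ⟨p, hp, rfl⟩
  refine ⟨range W, ⟨cov_range (fun n => ?_) (fun n t => ?_) fun p => ?_, fun F hF => ?_⟩,
    fun 𝒟 d1 d2 => ?_⟩
  · exact ((h.clo (n + 1)).isOpen.preimage (continuous_apply (A := fun _ : Fin 2 => Z) 0)).union
      (((h.clo 0).compl.isOpen.inter (h.clo (n + 1)).compl.isOpen).preimage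
        (continuous_apply (A := fun _ : Fin 2 => Z) 1))
  · obtain ⟨x, hx⟩ := h.pre ∅ (n + 2)
    exact (hx _ (by omega)).mp ((m1 x n).mp (t ▸ mem_univ _))
  · obtain ⟨n, hn⟩ := om {p} (finite_singleton p)
    exact ⟨n, hn rfl⟩
  · obtain ⟨n, hn⟩ := om F hF
    exact ⟨_, mem_range_self n, hn⟩
  have pre : ∀ P : Set (Fin 2 → Z) → Prop, {u | u ∈ 𝒟 ∧ P u}.Infinite ↔
      {n | W n ∈ 𝒟 ∧ P (W n)}.Infinite := fun P =>
    ⟨fun t => t.preimage fun u hu => d1 hu.1, fun t => (t.image inj.injOn).mono (by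
      rintro _ ⟨n, hn, rfl⟩; exact hn)⟩
  have a0 := ((pre _).mp (d2.2.1 ![z1, z1])).mono fun n hn => (show n ∈ {n | W n ∈ 𝒟} from hn.1)
  obtain ⟨y, hy⟩ := h.miss a0 1
  obtain ⟨y0, hy0⟩ := h.md y (φ y \ {0}) (by
    filter_upwards [eventually_ge_atTop 1] with p hp
    exact ⟨fun t => t.1, fun t => ⟨t, fun s => by have : p = 0 := s; omega⟩⟩)
  obtain ⟨x, hx⟩ := h.miss ((pre _).mp (d2.2.1 ![y, z1])) 1
  have m0 : ∀ n, ![x, y0] ∈ W n ↔ (n + 1 ∈ φ x ∨ n + 1 ∉ φ y) := fun n => by simp [W, hy0]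
  rcases d2.2.2 ![y, z1] ![x, y0] with t | t
  · refine (pre fun u => ![y, z1] ∈ u ∧ ![x, y0] ∉ u).mpr (hx.mono fun n hn => ?_) t
    refine ⟨hn.1.1, hn.1.2, fun s => ?_⟩
    exact ((m0 n).mp s).elim hn.2 fun s => s ((m1 y n).mp hn.1.2)
  · refine (pre fun u => ![x, y0] ∈ u ∧ ![y, z1] ∉ u).mpr (hy.mono fun n hn => ?_) t
    exact ⟨hn.1, (m0 n).mpr (Or.inr hn.2), fun s => hn.2 ((m1 y n).mp s)⟩

theorem Tw.nohur (h : Tw φ) : ¬ Ufin (Ga (Z := Z) IsOpen) (Ga IsOpen) := by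
  intro H
  let u : ℕ → ℕ → Set Z := fun n m => {x | ∃ p ∈ φ x, n ≤ p ∧ p < m}
  have uo : ∀ n m, IsOpen (u n m) := by
    intro n m
    have : u n m = ⋃ p ∈ Ico n m, {x | p ∈ φ x} := by
      ext x
      simp only [u, mem_setOf_eq, mem_iUnion, mem_Ico]
      exact ⟨fun ⟨p, a, b⟩ => ⟨p, b, a⟩, fun ⟨p, a, b⟩ => ⟨p, b, a⟩⟩
    rw [this]
    exact isOpen_biUnion fun p _ => (h.clo p).isOpen
  have un : ∀ n m, u n m ≠ univ := by
    intro n m t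
    obtain ⟨x, hx⟩ := h.pre ∅ m
    obtain ⟨p, p1, -, p2⟩ := (show x ∈ u n m from t ▸ mem_univ x)
    exact (hx p p2).mp p1
  have bd : ∀ n, ∀ F ⊆ range (u n), F.Finite → ∃ m, ⋃₀ F ⊆ u n m := by
    intro n F F1 F2
    obtain ⟨m, hm⟩ := bound F2 (P := fun V m => V ⊆ u n m) (fun V hV => by
      obtain ⟨m, rfl⟩ := F1 hV
      exact ⟨m, le_rfl⟩) fun V a b ab t x hx => by
        obtain ⟨p, p1, p2, p3⟩ := t hx
        exact ⟨p, p1, p2, by omega⟩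
    exact ⟨m, sUnion_subset hm⟩
  obtain ⟨F, F1, F2⟩ := H (fun n => range (u n)) (fun n => ga_range (uo n) (un n) fun x => by
      obtain ⟨p, p1, p2⟩ := (h.inf x).exists_gt n
      filter_upwards [eventually_gt_atTop p] with m hm using ⟨p, p1, p2.le, hm⟩)
    (by
      rintro n ⟨F, F1, F2, F3⟩
      obtain ⟨m, hm⟩ := bd n F F1 F2
      exact un n m (univ_subset_iff.mp (F3 ▸ hm)))
  choose g hg using fun n => bd n (F n) (F1 n).2 (F1 n).1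
  have lt : ∀ n n', n < n' → (⋃₀ F n).Nonempty → ⋃₀ F n ≠ ⋃₀ F n' := by
    rintro n n' nn ⟨z, v, v1, v2⟩ t
    obtain ⟨m, rfl⟩ := (F1 n).2 v1
    obtain ⟨p, -, p2, p3⟩ := v2
    obtain ⟨x, hx⟩ := h.pre {n} (n + 1 + g n')
    have : x ∈ ⋃₀ F n := ⟨_, v1, n, (hx n (by omega)).mpr rfl, le_rfl, by omega⟩
    obtain ⟨q, q1, q2, q3⟩ := hg n' (t ▸ this)
    have : q = n := (hx q (by omega)).mp q1
    omega
  have L : {n | (⋃₀ F n).Nonempty}.Infinite := by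
    intro t
    refine F2.2.1 (((t.image fun n => ⋃₀ F n).insert ∅).subset ?_)
    rintro _ ⟨n, rfl⟩
    by_cases s : (⋃₀ F n).Nonempty
    · exact Or.inr ⟨n, s, rfl⟩
    · exact Or.inl (not_nonempty_iff_eq_empty.mp s)
  obtain ⟨x, hx⟩ := h.miss' L g
  refine (hx.image (f := fun n => ⋃₀ F n) fun a ha b hb e => ?_) ((F2.2.2 x).subset ?_)
  · rcases lt_trichotomy a b with s | s | s
    · exact absurd e (lt a b s ha.1)
    · exact s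
    · exact absurd e.symm (lt b a s hb.1)
  · rintro _ ⟨n, hn, rfl⟩
    refine ⟨mem_range_self n, fun t => ?_⟩
    obtain ⟨p, p1, p2, p3⟩ := hg n t
    exact hn.2 p p2 p3 p1

end

end Pool.Agent.H18.MT
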