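import Mathlib

set_option autoImplicit false

namespace Pool.Agent.H18.Mag

open MeasureTheory Filter Topology Finset ProbabilityTheory Real
open scoped RealInnerProductSpace FourierTransform

variable {V : Type} [NormedAddCommGroup V] [InnerProductSpace ℝ V]
  [MeasurableSpace V] [BorelSpace V] [FiniteDimensional ℝ V]

/-- real positive definite functions -/
def PD (f : V → ℝ) : Prop :=
  ∀ (n : ℕ) (x : Fin n → V) (w : Fin n → ℝ), 0 ≤ ∑ i, ∑ j, w i * w j * f (x i - x j)

omit [MeasurableSpace V] [BorelSpace V] [FiniteDimensional ℝ V] in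
lemma PD.cos {f : V → ℝ} (h : PD f) (ξ : V) : PD fun z => f z * Real.cos ⟪z, ξ⟫ := by
  intro n x w
  have h1 := h n x fun i => w i * Real.cos ⟪x i, ξ⟫
  have h2 := h n x fun i => w i * Real.sin ⟪x i, ξ⟫
  refine le_of_le_of_eq (add_nonneg h1 h2) ?_
  simp only [← sum_add_distrib, inner_sub_left, Real.cos_sub]
  exact sum_congr rfl fun i _ => sum_congr rfl fun j _ => by ring

lemma double_prob (ρ : Measure V) [IsProbabilityMeasure ρ] {h : V → ℝ} (hp : PD h)
    (hc : Continuous h) (hb : ∀ x, |h x| ≤ 1) : 0 ≤ ∫ p : V × V, h (p.1 - p.2) ∂(ρ.prod ρ) := by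
  set I := ∫ p : V × V, h (p.1 - p.2) ∂(ρ.prod ρ) with hI
  by_contra hneg
  push Not at hneg
  obtain ⟨n, hn⟩ := exists_nat_gt ((h 0 - I) / (-I))
  let P : Measure (Fin (n + 1) → V) := Measure.pi fun _ => ρ
  have hi : ∀ i j, Integrable (fun x : Fin (n + 1) → V => h (x i - x j)) P := fun i j =>
    (integrable_const (1 : ℝ)).mono' (Continuous.aestronglyMeasurable (by fun_prop))
      (Eventually.of_forall fun x => hb _)
  have h1 : ∀ i j, ∫ x, h (x i - x j) ∂P = I + if i = j then h 0 - I else 0 := by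
    intro i j
    split_ifs with hij
    · simp [hij]
    · have h2 := (iIndepFun_pi (μ := fun _ : Fin (n + 1) => ρ) (X := fun _ => id)
        fun _ => aemeasurable_id).indepFun hij
      have h3 := h2.map_prod_eq_prod_map_map (measurable_pi_apply i).aemeasurable
        (measurable_pi_apply j).aemeasurable
      erw [(measurePreserving_eval (fun _ : Fin (n + 1) => ρ) i).map_eq,
        (measurePreserving_eval (fun _ : Fin (n + 1) => ρ) j).map_eq] at h3
      rw [add_zero, hI, ← h3, integral_map (by fun_prop)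
        (Continuous.aestronglyMeasurable (by fun_prop))]
  have h2 : 0 ≤ ∫ x, ∑ i, ∑ j, h (x i - x j) ∂P :=
    integral_nonneg fun x => by simpa using hp (n + 1) x fun _ => 1
  rw [integral_finset_sum _ fun i _ => integrable_finset_sum _ fun j _ => hi i j] at h2
  simp only [integral_finset_sum _ fun j _ => hi _ j, h1, sum_add_distrib, sum_const, card_univ,
    Fintype.card_fin, sum_ite_eq, mem_univ, if_true, nsmul_eq_mul] at h2
  rw [div_lt_iff₀ (by linarith)] at hn
  push_cast at h2
  have h3 : (0 : ℝ) ≤ n := by positivity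
  nlinarith

lemma double (ρ : Measure V) [IsFiniteMeasure ρ] {h : V → ℝ} (hp : PD h)
    (hc : Continuous h) (hb : ∀ x, |h x| ≤ 1) : 0 ≤ ∫ x, ∫ y, h (x - y) ∂ρ ∂ρ := by
  rcases eq_zero_or_neZero ρ with rfl | hρ
  · simp
  have := double_prob ((ρ Set.univ)⁻¹ • ρ) hp hc hb
  rw [integral_prod _ ((integrable_const (1 : ℝ)).mono'
    (Continuous.aestronglyMeasurable (by fun_prop)) (Eventually.of_forall fun x => hb _))] at this
  simp only [integral_smul_measure, smul_eq_mul, integral_const_mul] at this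
  have h0 : 0 < ((ρ Set.univ)⁻¹).toReal :=
    ENNReal.toReal_pos (by simp) (by simpa using hρ.out)
  exact le_of_mul_le_mul_left (le_of_mul_le_mul_left (by simpa using this) h0) h0

lemma int_gauss {a : ℝ} (ha : 0 < a) : Integrable fun x : V => Real.exp (-a * ‖x‖ ^ 2) := by
  have := (GaussianFourier.integrable_cexp_neg_mul_sq_norm_add (V := V) (b := a)
    (by simpa) 0 0).norm
  convert this using 2 with x
  rw [Complex.norm_exp]
  norm_cast
  simp

lemma gauss_nonneg {h : V → ℝ} (hp : PD h) (hc : Continuous h) (hb : ∀ x, |h x| ≤ 1)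
    (hi : Integrable h) {a : ℝ} (ha : 0 < a) :
    0 ≤ ∫ z, Real.exp (-(a / 2) * ‖z‖ ^ 2) * h z := by
  let γ : V → ℝ := fun x => Real.exp (-a * ‖x‖ ^ 2)
  have hγ : Continuous γ := by fun_prop
  haveI := isFiniteMeasure_withDensity_ofReal (int_gauss (V := V) ha).2
  have h1 := double (volume.withDensity fun x => ENNReal.ofReal (γ x)) hp hc hb
  have h0 : ∀ x, 0 ≤ γ x := fun x => (Real.exp_pos _).le
  simp only [integral_withDensity_eq_integral_toReal_smul hγ.measurable.ennreal_ofReal
    (Eventually.of_forall fun _ => ENNReal.ofReal_lt_top), ENNReal.toReal_ofReal (h0 _),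
    smul_eq_mul] at h1
  have h2 : ∀ x, γ x * ∫ y, γ y * h (x - y) = ∫ z, γ x * γ (x - z) * h z := by
    intro x
    rw [← integral_sub_left_eq_self _ _ x, ← integral_const_mul]
    simp [mul_assoc]
  simp only [h2] at h1
  rw [integral_integral_swap] at h1
  swap
  · refine ((int_gauss ha).mul_prod hi.norm).mono' (Continuous.aestronglyMeasurable
      (by unfold Function.uncurry; fun_prop)) (Eventually.of_forall fun p => ?_)
    have h3 : γ (p.1 - p.2) ≤ 1 := Real.exp_le_one_iff.2 (by nlinarith [sq_nonneg ‖p.1 - p.2‖])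
    simp only [Function.uncurry, norm_mul, Real.norm_eq_abs, abs_of_nonneg (h0 _)]
    gcongr
    exact mul_le_of_le_one_right (h0 _) h3
  have h3 : ∀ z : V, ∫ x, γ x * γ (x - z) * h z = (∫ x : V, Real.exp (-(2 * a) * ‖x‖ ^ 2)) *
      (Real.exp (-(a / 2) * ‖z‖ ^ 2) * h z) := by
    intro z
    rw [← integral_sub_right_eq_self (fun x : V => Real.exp (-(2 * a) * ‖x‖ ^ 2))
      ((1 / 2 : ℝ) • z), ← integral_mul_const]
    congr with x
    have h4 := parallelogram_law_with_norm ℝ (x - (1 / 2 : ℝ) • z) ((1 / 2 : ℝ) • z)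
    have h5 : x - (1 / 2 : ℝ) • z - (1 / 2 : ℝ) • z = x - z := by module
    rw [sub_add_cancel, h5, norm_smul] at h4
    simp only [γ, ← mul_assoc, ← Real.exp_add]
    congr 2
    norm_num at h4 ⊢
    nlinarith
  simp only [h3, integral_const_mul] at h1
  refine le_of_mul_le_mul_left (by simpa using h1)
    (show 0 < ∫ x : V, Real.exp (-(2 * a) * ‖x‖ ^ 2) from ?_)
  rw [GaussianFourier.integral_rexp_neg_mul_sq_norm (by positivity)]
  positivity

lemma int_nonneg {h : V → ℝ} (hp : PD h) (hc : Continuous h) (hb : ∀ x, |h x| ≤ 1)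
    (hi : Integrable h) : 0 ≤ ∫ z, h z := by
  have : Tendsto (fun c : ℝ => ∫ z, Real.exp (-(c⁻¹ / 2) * ‖z‖ ^ 2) * h z) atTop
      (𝓝 (∫ z, h z)) := by
    refine tendsto_integral_filter_of_dominated_convergence _ ?_ ?_ hi.norm ?_
    · exact Eventually.of_forall fun c => Continuous.aestronglyMeasurable (by fun_prop)
    · filter_upwards [Ici_mem_atTop (0 : ℝ)] with c (hc : 0 ≤ c)
      refine Eventually.of_forall fun z => ?_
      rw [norm_mul, Real.norm_eq_abs, Real.abs_exp]
      refine mul_le_of_le_one_left (norm_nonneg _) (Real.exp_le_one_iff.2 ?_)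
      have : 0 ≤ c⁻¹ / 2 * ‖z‖ ^ 2 := by positivity
      linarith
    · refine Eventually.of_forall fun z => ?_
      have := (((tendsto_inv_atTop_zero (𝕜 := ℝ)).div_const 2).neg.mul_const
        (‖z‖ ^ 2)).rexp.mul_const (h z)
      simpa using this
  refine ge_of_tendsto this ?_
  filter_upwards [Ioi_mem_atTop (0 : ℝ)] with c (hc0 : 0 < c)
  exact gauss_nonneg hp hc hb hi (inv_pos.2 hc0)

theorem bochner {f : V → ℝ} (hp : PD f) (hc : Continuous f) (hb : ∀ x, |f x| ≤ 1)
    (hi : Integrable f) (he : ∀ x, f (-x) = f x) (h0 : f 0 = 1) :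
    ∃ ν : Measure V, IsProbabilityMeasure ν ∧ ∀ x, charFun ν ((2 * π) • x) = f x := by
  let F : V → ℂ := fun x => f x
  have hF : Integrable F := hi.ofReal
  have hFc : Continuous F := Complex.continuous_ofReal.comp hc
  let g : V → ℝ := fun ξ => ∫ z, f z * Real.cos ⟪z, (2 * π) • ξ⟫
  have i1 : ∀ ξ : V, Integrable fun z => f z * Real.cos ⟪z, ξ⟫ := fun ξ =>
    hi.mul_bdd (c := 1) (Continuous.aestronglyMeasurable (by fun_prop))
      (Eventually.of_forall fun z => Real.abs_cos_le_one _)
  have i2 : ∀ ξ : V, Integrable fun z => f z * Real.sin ⟪z, ξ⟫ := fun ξ =>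
    hi.mul_bdd (c := 1) (Continuous.aestronglyMeasurable (by fun_prop))
      (Eventually.of_forall fun z => Real.abs_sin_le_one _)
  have g0 : ∀ ξ, 0 ≤ g ξ := fun ξ => int_nonneg (hp.cos _) (by fun_prop) (fun x => by
    rw [abs_mul]; exact mul_le_one₀ (hb x) (abs_nonneg _) (Real.abs_cos_le_one _)) (i1 _)
  have hg : ∀ ξ, 𝓕 F ξ = g ξ := by
    intro ξ
    have h1 : ∫ z, f z * Real.sin ⟪z, (2 * π) • ξ⟫ = 0 := by
      have := integral_neg_eq_self (fun z => f z * Real.sin ⟪z, (2 * π) • ξ⟫) volume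
      simp only [he, inner_neg_left, Real.sin_neg, mul_neg, integral_neg] at this
      linarith
    have h2 : ∀ z, Complex.exp (((-2 * π * ⟪z, ξ⟫ : ℝ) : ℂ) * Complex.I) • F z =
        ((f z * Real.cos ⟪z, (2 * π) • ξ⟫ : ℝ) : ℂ) -
          ((f z * Real.sin ⟪z, (2 * π) • ξ⟫ : ℝ) : ℂ) * Complex.I := by
      intro z
      have : -2 * π * ⟪z, ξ⟫ = -⟪z, (2 * π) • ξ⟫ := by rw [inner_smul_right]; ring
      rw [this, Complex.exp_mul_I, ← Complex.ofReal_cos, ← Complex.ofReal_sin, Real.cos_neg,
        Real.sin_neg]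
      simp only [F, smul_eq_mul]
      push_cast
      ring
    rw [Real.fourier_eq']
    simp only [h2]
    rw [integral_sub (i1 _).ofReal ((i2 _).ofReal.mul_const _), integral_mul_const,
      integral_complex_ofReal, integral_complex_ofReal, h1]
    simp [g]
  have hcF : Continuous (𝓕 F) := VectorFourier.fourierIntegral_continuous
    Real.continuous_fourierChar continuous_inner hF
  have hgc : Continuous g := by
    have : g = fun ξ => (𝓕 F ξ).re := funext fun ξ => by simp [hg]
    rw [this]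
    exact Complex.continuous_re.comp hcF
  have hgb : ∀ ξ, ‖g ξ‖ ≤ ∫ z, ‖f z‖ := fun ξ =>
    norm_integral_le_of_norm_le hi.norm (Eventually.of_forall fun z => by
      rw [norm_mul]; exact mul_le_of_le_one_right (norm_nonneg _) (Real.abs_cos_le_one _))
  have hlim : Tendsto (fun c : ℝ => ∫ w, Real.exp (-c⁻¹ * ‖w‖ ^ 2) * g w) atTop (𝓝 1) := by
    have A := Real.tendsto_integral_gaussian_smul' hF (v := 0) hFc.continuousAt
    have B : Tendsto (fun c : ℝ => ((∫ w, Real.exp (-c⁻¹ * ‖w‖ ^ 2) * g w : ℝ) : ℂ)) atTop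
        (𝓝 (F 0)) := by
      refine A.congr' ?_
      filter_upwards [Ioi_mem_atTop 0] with c (hc : 0 < c)
      have J : Integrable (fun w : V => Complex.exp (-c⁻¹ * ‖w‖ ^ 2 +
          2 * π * Complex.I * ⟪(0 : V), w⟫)) :=
        GaussianFourier.integrable_cexp_neg_mul_sq_norm_add (by simpa) _ _
      have K : ∫ w : V, 𝓕 (fun w : V => Complex.exp (-c⁻¹ * ‖w‖ ^ 2 +
          2 * π * Complex.I * ⟪(0 : V), w⟫)) w • F w = ∫ w : V, Complex.exp (-c⁻¹ * ‖w‖ ^ 2 +
          2 * π * Complex.I * ⟪(0 : V), w⟫) • 𝓕 F w := by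
        simpa using! (VectorFourier.integral_fourierIntegral_smul_eq_flip (L := innerₗ V)
          Real.continuous_fourierChar continuous_inner J hF)
      rw [← integral_complex_ofReal]
      refine Eq.trans ?_ (K.trans ?_)
      · congr with w
        rw [fourier_gaussian_innerProductSpace' (by simpa)]
        have e1 : (π : ℂ) / ((c⁻¹ : ℝ) : ℂ) = π * c := by simp
        have e2 : -(π : ℂ) ^ 2 * ((‖(0 : V) - w‖ : ℝ) : ℂ) ^ 2 / ((c⁻¹ : ℝ) : ℂ) =
            -π ^ 2 * c * ((‖(0 : V) - w‖ : ℝ) : ℂ) ^ 2 := by simp; ring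
        rw [e1, e2]
      · congr with w
        simp [hg]
    have := (Complex.continuous_re.tendsto _).comp B
    simpa [F, h0, Function.comp_def] using this
  have hgi : Integrable g := by
    refine ⟨hgc.aestronglyMeasurable, ?_⟩
    rw [hasFiniteIntegral_iff_ofReal (Eventually.of_forall g0)]
    have h1 : ∀ w, ENNReal.ofReal (g w) = liminf (fun n : ℕ =>
        ENNReal.ofReal (Real.exp (-(n : ℝ)⁻¹ * ‖w‖ ^ 2) * g w)) atTop := by
      intro w
      have := (((tendsto_inv_atTop_nhds_zero_nat (𝕜 := ℝ))).neg.mul_const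
        (‖w‖ ^ 2)).rexp.mul_const (g w)
      refine (Tendsto.liminf_eq ?_).symm
      simpa using ENNReal.tendsto_ofReal this
    simp only [h1]
    refine (lintegral_liminf_le fun n => Measurable.ennreal_ofReal
      (Continuous.measurable (by fun_prop))).trans_lt ?_
    have h2 : Tendsto (fun n : ℕ => ∫⁻ w, ENNReal.ofReal (Real.exp (-(n : ℝ)⁻¹ * ‖w‖ ^ 2) * g w))
        atTop (𝓝 (ENNReal.ofReal 1)) := by
      refine (ENNReal.tendsto_ofReal (hlim.comp tendsto_natCast_atTop_atTop)).congr' ?_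
      filter_upwards [eventually_gt_atTop 0] with n hn
      have hn' : (0 : ℝ) < n := by exact_mod_cast hn
      exact ofReal_integral_eq_lintegral_ofReal
        ((int_gauss (inv_pos.2 hn')).mul_bdd hgc.aestronglyMeasurable (Eventually.of_forall hgb))
        (Eventually.of_forall fun w => mul_nonneg (Real.exp_pos _).le (g0 w))
    rw [h2.liminf_eq]
    exact ENNReal.ofReal_lt_top
  have hFi : Integrable (𝓕 F) := by
    have : 𝓕 F = fun ξ => (g ξ : ℂ) := funext hg
    rw [this]
    exact hgi.ofReal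
  have hch : ∀ x, charFun (volume.withDensity fun x => ENNReal.ofReal (g x)) ((2 * π) • x) =
      f x := by
    intro x
    have := congrFun (hFc.fourierInv_fourier_eq hF hFi) x
    rw [Real.fourierInv_eq'] at this
    rw [charFun_apply, integral_withDensity_eq_integral_toReal_smul hgc.measurable.ennreal_ofReal
      (Eventually.of_forall fun _ => ENNReal.ofReal_lt_top)]
    refine Eq.trans ?_ this
    congr with ξ
    rw [ENNReal.toReal_ofReal (g0 _), hg, inner_smul_right]
    simp [mul_comm]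
  refine ⟨_, ?_, hch⟩
  have := hch 0
  rw [smul_zero, charFun_zero, h0] at this
  exact ⟨(ENNReal.toReal_eq_one_iff _).1 (by exact_mod_cast this)⟩

end Pool.Agent.H18.Mag
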