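import Pool.Agent.H18.Mag1

set_option autoImplicit false

namespace Pool.Agent.H18.Mag

open MeasureTheory Filter Topology Finset Real

section ps

variable {ι : Type} [Fintype ι]

/-- positive semidefinite kernels -/
def PS (K : ι → ι → ℝ) : Prop :=
  (∀ i j, K i j = K j i) ∧ ∀ w : ι → ℝ, 0 ≤ ∑ i, ∑ j, w i * w j * K i j

lemma quad_eq (K : ι → ι → ℝ) (w : ι → ℝ) :
    star w ⬝ᵥ (Matrix.of K).mulVec w = ∑ i, ∑ j, w i * w j * K i j := by
  simp only [dotProduct, Matrix.mulVec, Matrix.of_apply, mul_sum, star_trivial]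
  exact sum_congr rfl fun i _ => sum_congr rfl fun j _ => by ring

lemma ps_iff {K : ι → ι → ℝ} : PS K ↔ (Matrix.of K).PosSemidef := by
  rw [Matrix.posSemidef_iff_dotProduct_mulVec]
  simp only [quad_eq]
  refine and_congr_left fun _ => ⟨fun h => ?_, fun h i j => ?_⟩
  · ext i j
    simp [h i j]
  · simpa using h.apply j i

lemma PS.mul {K L : ι → ι → ℝ} (hK : PS K) (hL : PS L) : PS fun i j => K i j * L i j :=
  ps_iff.2 ((ps_iff.1 hK).hadamard (ps_iff.1 hL))

lemma PS.conj {K : ι → ι → ℝ} (hK : PS K) (u : ι → ℝ) : PS fun i j => u i * u j * K i j :=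
  ⟨fun i j => by beta_reduce; rw [hK.1 i j]; ring, fun w =>
    le_of_le_of_eq (hK.2 fun i => w i * u i)
      (sum_congr rfl fun i _ => sum_congr rfl fun j _ => by ring)⟩

lemma PS.smul {K : ι → ι → ℝ} (hK : PS K) {c : ℝ} (hc : 0 ≤ c) : PS fun i j => c * K i j :=
  ⟨fun i j => by beta_reduce; rw [hK.1 i j], fun w => by
    refine le_of_le_of_eq (mul_nonneg hc (hK.2 w)) ?_
    simp only [mul_sum]
    exact sum_congr rfl fun i _ => sum_congr rfl fun j _ => by ring⟩

lemma PS.one : PS fun _ _ : ι => (1 : ℝ) :=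
  ⟨fun _ _ => rfl, fun w => by simpa [← sum_mul_sum] using mul_self_nonneg _⟩

lemma PS.exp_mul {K L : ι → ι → ℝ} (hK : PS K) (hL : PS L) (w : ι → ℝ) :
    ∑ i, ∑ j, w i * w j * L i j ≤ ∑ i, ∑ j, w i * w j * (Real.exp (K i j) * L i j) := by
  have h1 : ∀ n : ℕ, PS fun i j => K i j ^ n * L i j := by
    intro n
    induction n with
    | zero => simpa using hL
    | succ n ih => simpa [pow_succ', mul_assoc] using hK.mul ih
  have h2 : HasSum (fun n : ℕ => ∑ i, ∑ j, w i * w j * (K i j ^ n / n.factorial * L i j))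
      (∑ i, ∑ j, w i * w j * (Real.exp (K i j) * L i j)) := by
    refine hasSum_sum fun i _ => hasSum_sum fun j _ => HasSum.mul_left _ (HasSum.mul_right _ ?_)
    rw [Real.exp_eq_exp_ℝ]
    exact NormedSpace.expSeries_div_hasSum_exp _
  have := le_hasSum h2 0 fun n _ =>
    le_of_le_of_eq (((h1 n).smul (c := (n.factorial : ℝ)⁻¹) (by positivity)).2 w)
      (sum_congr rfl fun i _ => sum_congr rfl fun j _ => by ring)
  simpa using this

lemma PS.exp {K : ι → ι → ℝ} (hK : PS K) : PS fun i j => Real.exp (K i j) :=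
  ⟨fun i j => by beta_reduce; rw [hK.1 i j], fun w => by
    simpa using (PS.one.2 w).trans (hK.exp_mul PS.one w)⟩

lemma gram {Ω : Type} [MeasurableSpace Ω] (μ : Measure Ω) (φ : ι → Ω → ℝ)
    (h : ∀ i j, Integrable (fun t => φ i t * φ j t) μ) : PS fun i j => ∫ t, φ i t * φ j t ∂μ :=
  ⟨fun i j => by simp only [mul_comm], fun w => by
    simp only [← integral_const_mul]
    simp only [← integral_finset_sum _ fun j _ => (h _ j).const_mul _]
    rw [← integral_finset_sum _ fun i _ => integrable_finset_sum _ fun j _ => (h i j).const_mul _]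
    refine integral_nonneg fun t => ?_
    refine le_of_le_of_eq (mul_self_nonneg (∑ i, w i * φ i t)) ?_
    rw [sum_mul_sum]
    exact sum_congr rfl fun i _ => sum_congr rfl fun j _ => by ring⟩

lemma cut {Ω : Type} [MeasurableSpace Ω] (μ : Measure Ω) (A : ι → Set Ω) (B : Set Ω)
    (hA : ∀ i, MeasurableSet (A i)) (hB : MeasurableSet B) (hA' : ∀ i, μ (A i) ≠ ⊤)
    (hB' : μ B ≠ ⊤) (R : ℝ) (hR : ∀ i, μ.real (A i) = R) (l : ℝ) (hl : 0 ≤ l) (w : ι → ℝ) :
    Real.exp (-(l * μ.real B / 4)) * ∑ i, ∑ j, w i * w j * Real.exp (-(l *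
      ((μ.real (A i \ B) + μ.real (A j \ B)) / 2 - μ.real ((A i \ B) ∩ (A j \ B))))) ≤
      ∑ i, ∑ j, w i * w j * Real.exp (-(l * (R - μ.real (A i ∩ A j)))) := by
  have ind : ∀ (S T : Set Ω) t, S.indicator (fun _ => (1 : ℝ)) t * T.indicator (fun _ => 1) t =
      (S ∩ T).indicator (fun _ => 1) t := by
    intro S T t
    by_cases h1 : t ∈ S <;> by_cases h2 : t ∈ T <;> simp [h1, h2]
  have fin : ∀ i (S : Set Ω), S ⊆ A i → μ S ≠ ⊤ := fun i S h =>
    ne_top_of_le_ne_top (hA' i) (measure_mono h)
  have h1 : PS fun i j => μ.real ((A i \ B) ∩ (A j \ B)) := by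
    have := gram μ (fun i => (A i \ B).indicator fun _ => (1 : ℝ)) fun i j => by
      simp only [ind]
      exact (integrableOn_const (fin i _ fun t ht => ht.1.1)).integrable_indicator
        (((hA i).diff hB).inter ((hA j).diff hB))
    simpa [ind, integral_indicator (((hA _).diff hB).inter ((hA _).diff hB))] using this
  haveI : IsFiniteMeasure (μ.restrict B) := isFiniteMeasure_restrict.2 hB'
  have h2 : PS fun i j => μ.real (A i ∩ A j ∩ B) - μ.real (A i ∩ B) / 2 - μ.real (A j ∩ B) / 2 +
      μ.real B / 4 := by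
    have e : ∀ i j t, ((A i).indicator (fun _ => (1 : ℝ)) t - 1 / 2) *
        ((A j).indicator (fun _ => (1 : ℝ)) t - 1 / 2) = (A i ∩ A j).indicator (fun _ => 1) t -
          (A i).indicator (fun _ => (1 : ℝ)) t / 2 - (A j).indicator (fun _ => (1 : ℝ)) t / 2 +
          1 / 4 := by
      intro i j t
      rw [← ind]; ring
    have i1 : ∀ S, MeasurableSet S → Integrable (S.indicator fun _ => (1 : ℝ)) (μ.restrict B) :=
      fun S hS => (integrable_const _).indicator hS
    have := gram (μ.restrict B) (fun i t => (A i).indicator (fun _ => (1 : ℝ)) t - 1 / 2)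
      fun i j => by
        simp only [e]
        exact (((i1 _ ((hA i).inter (hA j))).sub ((i1 _ (hA i)).div_const 2)).sub
          ((i1 _ (hA j)).div_const 2)).add (integrable_const _)
    convert this using 3 with i j
    simp only [e]
    have i2 := (i1 _ ((hA i).inter (hA j))).sub ((i1 _ (hA i)).div_const 2)
    rw [integral_add (by exact i2.sub ((i1 _ (hA j)).div_const 2)) (integrable_const _),
      integral_sub (by exact (i1 _ ((hA i).inter (hA j))).sub ((i1 _ (hA i)).div_const 2))
        ((i1 _ (hA j)).div_const 2),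
      integral_sub (i1 _ ((hA i).inter (hA j))) ((i1 _ (hA i)).div_const 2), integral_div,
      integral_div]
    simp [integral_indicator, hA, (hA i).inter (hA j), measureReal_restrict_apply]
    ring
  have h3 := (h2.smul hl).exp_mul (((h1.smul hl).exp).conj
    fun i => Real.exp (-(l * μ.real (A i \ B) / 2))) w
  have h4 := mul_le_mul_of_nonneg_left h3 (Real.exp_pos (-(l * μ.real B / 4))).le
  refine le_of_eq_of_le ?_ (le_of_le_of_eq h4 ?_)
  · refine congrArg _ (sum_congr rfl fun i _ => sum_congr rfl fun j _ => congrArg _ ?_)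
    simp only [← Real.exp_add]
    exact congrArg _ (by ring)
  · simp only [mul_sum]
    refine sum_congr rfl fun i _ => sum_congr rfl fun j _ => ?_
    have e1 := measureReal_inter_add_diff (μ := μ) (s := A i) hB (hA' i)
    have e2 := measureReal_inter_add_diff (μ := μ) (s := A j) hB (hA' j)
    have e3 := measureReal_inter_add_diff (μ := μ) (s := A i ∩ A j) hB
      (fin i _ Set.inter_subset_left)
    have e4 : (A i ∩ A j) \ B = (A i \ B) ∩ (A j \ B) := by
      ext t; simp only [Set.mem_diff, Set.mem_inter_iff]; tauto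
    rw [e4] at e3
    rw [mul_left_comm]
    refine congrArg _ ?_
    simp only [← Real.exp_add]
    refine congrArg _ ?_
    rw [hR] at e1 e2
    linear_combination l * e3 - l / 2 * e1 - l / 2 * e2

end ps

section cauchy

variable (κ : Measure ℝ) [IsProbabilityMeasure κ]
  (hκ : ∀ t : ℝ, charFun κ t = Real.exp (-|t|))

omit hκ in
lemma int_min (r R : ℝ) : Integrable (fun t : ℝ => min |r * t| R) κ :=
  (integrable_const |R|).mono' (Continuous.aestronglyMeasurable (by fun_prop))
    (Eventually.of_forall fun t => by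
      rw [Real.norm_eq_abs, abs_le]
      exact ⟨le_min (by linarith [abs_nonneg (r * t), abs_nonneg R]) (neg_abs_le R),
        (min_le_right _ _).trans (le_abs_self R)⟩)

include hκ

lemma tail {T : ℝ} (hT : 0 < T) : κ.real {t | T < |t|} ≤ 4 / T := by
  refine (measureReal_abs_gt_le_integral_charFun hT).trans ?_
  have h1 : 0 < T⁻¹ := inv_pos.2 hT
  have := intervalIntegral.norm_integral_le_of_norm_le_const (a := -2 * T⁻¹) (b := 2 * T⁻¹)
    (C := 2 * T⁻¹) (f := fun t => 1 - charFun κ t) fun t ht => by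
      rw [Set.uIoc_of_le (by linarith)] at ht
      have h2 : |t| ≤ 2 * T⁻¹ := abs_le.2 ⟨by linarith [ht.1], ht.2⟩
      rw [hκ]
      norm_cast
      have := Real.add_one_le_exp (-|t|)
      have h3 : Real.exp (-|t|) ≤ 1 := Real.exp_le_one_iff.2 (by simp)
      rw [Real.norm_eq_abs, abs_le]
      constructor <;> linarith
  rw [abs_of_pos (by linarith)] at this
  refine (mul_le_mul_of_nonneg_left this (by positivity)).trans (le_of_eq ?_)
  field_simp
  ring

lemma diff_bd {r R : ℝ} (hr : 0 ≤ r) (hR : 0 < R) :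
    |∫ t, min |r * t| R ∂κ - r * ∫ t, min |1 * t| R ∂κ| ≤ 4 * (1 + r) ^ 2 := by
  have hm : MeasurableSet {t : ℝ | R / (1 + r) < |t|} :=
    measurableSet_lt measurable_const (by fun_prop)
  rw [← integral_const_mul, ← integral_sub (int_min κ r R) ((int_min κ 1 R).const_mul r)]
  rw [← Real.norm_eq_abs]
  refine (norm_integral_le_of_norm_le ((integrable_const (μ := κ) ((1 + r) * R)).indicator hm)
    (Eventually.of_forall fun t => ?_)).trans ?_
  · rw [Real.norm_eq_abs, one_mul, abs_mul, abs_of_nonneg hr]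
    have h0 := abs_nonneg t
    by_cases h : R / (1 + r) < |t|
    · rw [Set.indicator_of_mem (by exact h), abs_le]
      have a1 := min_le_right (r * |t|) R
      have a2 : 0 ≤ min (r * |t|) R := le_min (by positivity) hR.le
      have a3 := mul_le_mul_of_nonneg_left (min_le_right |t| R) hr
      have a4 : 0 ≤ r * min |t| R := mul_nonneg hr (le_min h0 hR.le)
      constructor <;> nlinarith
    · rw [Set.indicator_of_notMem (by exact h)]
      rw [not_lt, le_div_iff₀ (by positivity)] at h
      rw [min_eq_left (by nlinarith), min_eq_left (by nlinarith)]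
      simp
  · rw [integral_indicator_const _ hm, smul_eq_mul]
    refine (mul_le_mul_of_nonneg_right (tail κ hκ (by positivity)) (by positivity)).trans
      (le_of_eq ?_)
    field_simp

lemma L_top : Tendsto (fun R => ∫ t, min |1 * t| R ∂κ) atTop atTop := by
  set L : ℝ → ℝ := fun R => ∫ t, min |1 * t| R ∂κ with hL
  refine tendsto_atTop_atTop_of_monotone (fun R S h => integral_mono (int_min κ 1 R)
    (int_min κ 1 S) fun t => min_le_min_left _ h) fun b => ?_
  by_contra hc
  push Not at hc
  have hb : 0 < b := by simpa [hL] using hc 0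
  set δ := 1 / (2 * b) with hδ
  have hδ0 : 0 < δ := by positivity
  have ic : ∀ s, Integrable (fun t => Real.cos (s * t)) κ := fun s =>
    (integrable_const (1 : ℝ)).mono' (Continuous.aestronglyMeasurable (by fun_prop))
      (Eventually.of_forall fun t => Real.abs_cos_le_one _)
  have hcos : ∀ s, ∫ t, Real.cos (s * t) ∂κ = Real.exp (-|s|) := by
    intro s
    have h1 := congrArg Complex.re (hκ s)
    rw [charFun_apply_real, Complex.ofReal_re] at h1
    rw [← h1]
    have := Complex.reCLM.integral_comp_comm (φ := fun t : ℝ => Complex.exp (s * t * Complex.I))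
      (μ := κ) ((integrable_const (1 : ℝ)).mono' (Continuous.aestronglyMeasurable (by fun_prop))
        (Eventually.of_forall fun t => by
          rw [← Complex.ofReal_mul, Complex.norm_exp_ofReal_mul_I]))
    simp only [Complex.reCLM_apply, ← Complex.ofReal_mul, Complex.exp_ofReal_mul_I_re] at this ⊢
    exact this
  have step : ∀ S, δ ≤ S → L (S / 2) + δ / 16 ≤ L S := by
    intro S hS
    have hS0 : 0 < S := hδ0.trans_le hS
    set s := δ / S with hs
    have hs0 : 0 < s := by positivity
    have hs1 : s ≤ 1 := (div_le_one hS0).2 hS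
    have h1 : ∫ t, (1 - Real.cos (s * t)) ∂κ ≤
        ∫ t, (δ * s / 2 * min |1 * t| S + 4 / S * (min |1 * t| S - min |1 * t| (S / 2))) ∂κ := by
      refine integral_mono ((integrable_const _).sub (ic s)) (((int_min κ 1 S).const_mul _).add
        (((int_min κ 1 S).sub (int_min κ 1 _)).const_mul _)) fun t => ?_
      simp only [one_mul]
      have h0 := abs_nonneg t
      rcases le_total |t| S with h | h
      · have a1 := Real.one_sub_sq_div_two_le_cos (x := s * t)
        have a2 : 0 ≤ 4 / S * (min |t| S - min |t| (S / 2)) :=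
          mul_nonneg (by positivity) (sub_nonneg.2 (min_le_min_left _ (by linarith)))
        have a3 : s * |t| ≤ δ := by
          rw [hs, div_mul_eq_mul_div, div_le_iff₀ hS0]; gcongr
        rw [min_eq_left h] at a2 ⊢
        rw [mul_pow, ← sq_abs t] at a1
        nlinarith [mul_le_mul_of_nonneg_right a3 (mul_nonneg hs0.le h0)]
      · rw [min_eq_right h, min_eq_right (by linarith)]
        have e : 4 / S * (S - S / 2) = 2 := by field_simp; ring
        have : 0 ≤ δ * s / 2 * S := by positivity
        linarith [Real.neg_one_le_cos (s * t)]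
    rw [integral_sub (integrable_const _) (ic s), hcos, integral_add
      ((int_min κ 1 S).const_mul _) (by exact ((int_min κ 1 S).sub (int_min κ 1 _)).const_mul _),
      integral_const_mul, integral_const_mul, integral_sub (int_min κ 1 S) (int_min κ 1 _),
      abs_of_pos hs0] at h1
    simp only [integral_const, probReal_univ, smul_eq_mul, mul_one] at h1
    have h2 : Real.exp (-s) ≤ 1 - s / 2 := by
      rw [Real.exp_neg, inv_le_comm₀ (Real.exp_pos _) (by linarith)]
      refine le_trans ?_ (Real.add_one_le_exp s)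
      rw [inv_le_iff_one_le_mul₀ (by linarith)]
      nlinarith
    have h3 : δ * s / 2 * L S ≤ s / 4 := by
      refine (mul_le_mul_of_nonneg_left (hc S).le (by positivity)).trans (le_of_eq ?_)
      rw [hδ]; field_simp; ring
    have h4 : s / 4 ≤ 4 / S * (L S - L (S / 2)) := by
      simp only [hL] at h3 ⊢
      linarith
    rw [hs, div_mul_eq_mul_div, div_div, div_le_div_iff₀ (by positivity) hS0] at h4
    nlinarith
  have h5 : ∀ k : ℕ, k * (δ / 16) ≤ L (2 ^ k * δ) := by
    intro k
    induction k with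
    | zero => simpa using integral_nonneg fun t => le_min (abs_nonneg _) hδ0.le
    | succ k ih =>
      have := step (2 ^ (k + 1) * δ) (le_mul_of_one_le_left hδ0.le (one_le_pow₀ one_le_two))
      have e : 2 ^ (k + 1) * δ / 2 = 2 ^ k * δ := by ring
      rw [e] at this
      push_cast
      linarith
  obtain ⟨k, hk⟩ := exists_nat_gt (b / (δ / 16))
  rw [div_lt_iff₀ (by positivity)] at hk
  linarith [h5 k, hc (2 ^ k * δ)]

lemma ratio {r : ℝ} (hr : 0 ≤ r) :
    Tendsto (fun R => (∫ t, min |1 * t| R ∂κ)⁻¹ * ∫ t, min |r * t| R ∂κ) atTop (𝓝 r) := by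
  have h1 := (L_top κ hκ).inv_tendsto_atTop.const_mul (4 * (1 + r) ^ 2)
  rw [mul_zero] at h1
  rw [tendsto_iff_norm_sub_tendsto_zero]
  refine squeeze_zero' (Eventually.of_forall fun _ => norm_nonneg _) ?_ h1
  filter_upwards [(L_top κ hκ).eventually_gt_atTop 0, eventually_gt_atTop 0] with R h2 h3
  have e : (∫ t, min |1 * t| R ∂κ)⁻¹ * ∫ t, min |r * t| R ∂κ - r = (∫ t, min |r * t| R ∂κ -
      r * ∫ t, min |1 * t| R ∂κ) * (∫ t, min |1 * t| R ∂κ)⁻¹ := by
    rw [sub_mul, mul_assoc, mul_inv_cancel₀ h2.ne']; ring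
  rw [e, norm_mul, Real.norm_eq_abs, Real.norm_eq_abs, abs_of_pos (inv_pos.2 h2)]
  exact mul_le_mul_of_nonneg_right (diff_bd κ hκ hr h3) (inv_pos.2 h2).le

end cauchy

end Pool.Agent.H18.Mag
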