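import Pool.Agent.H18.Mag2

set_option autoImplicit false

namespace Pool.Agent.H18.Mag

open MeasureTheory Filter Topology Finset Real
open scoped RealInnerProductSpace

variable {V : Type} [NormedAddCommGroup V] [InnerProductSpace ℝ V]
  [MeasurableSpace V] [BorelSpace V] [FiniteDimensional ℝ V]

lemma exp_lip {a b : ℝ} (ha : 0 ≤ a) (hb : 0 ≤ b) : |Real.exp (-a) - Real.exp (-b)| ≤ |a - b| := by
  wlog h : a ≤ b generalizing a b
  · rw [abs_sub_comm, abs_sub_comm a]; exact this hb ha (by linarith)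
  have h1 : Real.exp (-b) = Real.exp (-a) * Real.exp (-(b - a)) := by
    rw [← Real.exp_add]; congr 1; ring
  have h2 := Real.add_one_le_exp (-(b - a))
  have h3 : Real.exp (-a) ≤ 1 := Real.exp_le_one_iff.2 (by linarith)
  have h4 : Real.exp (-(b - a)) ≤ 1 := Real.exp_le_one_iff.2 (by linarith)
  have h5 := Real.exp_pos (-a)
  rw [abs_sub_comm a, abs_of_nonneg (sub_nonneg.2 h), h1, abs_of_nonneg (by nlinarith)]
  nlinarith

lemma min_sum {α : Type} (s : Finset α) (a : α → ℝ) (ha : ∀ j, 0 ≤ a j) {T : ℝ} (hT : 0 ≤ T) :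
    min (∑ j ∈ s, a j) T ≤ ∑ j ∈ s, min (a j) T := by
  by_cases h : ∀ j ∈ s, a j ≤ T
  · exact (min_le_left _ _).trans (sum_le_sum fun j hj => (min_eq_left (h j hj)).ge)
  · push Not at h
    obtain ⟨j, hj, h⟩ := h
    refine (min_le_right _ _).trans ((min_eq_right h.le).ge.trans ?_)
    exact single_le_sum (f := fun j => min (a j) T) (fun j _ => le_min (ha j) hT) hj

/-- slabs -/
def slab (R : ℝ) (x : V) : Set (V × ℝ) := {z | z.2 ∈ Set.Ico ⟪z.1, x⟫ (⟪z.1, x⟫ + R)}

lemma slab_meas (R : ℝ) (x : V) : MeasurableSet (slab R x) :=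
  (measurableSet_le (by fun_prop) measurable_snd).inter
    (measurableSet_lt measurable_snd (by fun_prop))

/-- truncated first moments -/
noncomputable def D (ν : Measure V) (R : ℝ) (x : V) : ℝ := ∫ ξ, min |⟪ξ, x⟫| R ∂ν

lemma int_D (ν : Measure V) [IsProbabilityMeasure ν] {R : ℝ} (hR : 0 ≤ R) (x : V) :
    Integrable (fun ξ => min |⟪ξ, x⟫| R) ν :=
  (integrable_const R).mono' (Continuous.aestronglyMeasurable (by fun_prop))
    (Eventually.of_forall fun t => by
      rw [Real.norm_eq_abs, abs_of_nonneg (le_min (abs_nonneg _) hR)]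
      exact min_le_right _ _)

lemma slab_inter (ν : Measure V) [IsProbabilityMeasure ν] {R : ℝ} (hR : 0 ≤ R) (x y : V) :
    (ν.prod volume) (slab R x ∩ slab R y) ≠ ⊤ ∧
      (ν.prod volume).real (slab R x ∩ slab R y) = R - D ν R (x - y) := by
  have h1 : (ν.prod volume) (slab R x ∩ slab R y) =
      ENNReal.ofReal (∫ ξ, (R - min |⟪ξ, x - y⟫| R) ∂ν) := by
    rw [Measure.prod_apply ((slab_meas R x).inter (slab_meas R y)),
      ofReal_integral_eq_lintegral_ofReal (by exact (integrable_const R).sub (int_D ν hR _))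
        (Eventually.of_forall fun ξ => sub_nonneg.2 (min_le_right _ _))]
    refine lintegral_congr fun ξ => ?_
    have : Prod.mk ξ ⁻¹' (slab R x ∩ slab R y) = Set.Ico ⟪ξ, x⟫ (⟪ξ, x⟫ + R) ∩
      Set.Ico ⟪ξ, y⟫ (⟪ξ, y⟫ + R) := rfl
    rw [this, Set.Ico_inter_Ico, Real.volume_Ico, inner_sub_right, min_add_add_right,
      ← max_sub_min_eq_abs']
    rcases le_total (max ⟪ξ, x⟫ ⟪ξ, y⟫ - min ⟪ξ, x⟫ ⟪ξ, y⟫) R with h | h
    · rw [min_eq_left h]; congr 1; ring
    · rw [min_eq_right h, sub_self, ENNReal.ofReal_zero, ENNReal.ofReal_eq_zero]; linarith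
  rw [measureReal_def, h1, ENNReal.toReal_ofReal
    (integral_nonneg fun ξ => sub_nonneg.2 (min_le_right _ _)),
    integral_sub (integrable_const R) (int_D ν hR _)]
  exact ⟨ENNReal.ofReal_ne_top, by simp [D]⟩

lemma D_lim (ν : Measure V) [IsProbabilityMeasure ν] (N : V → ℝ) (h0 : ∀ x, 0 ≤ N x)
    (hs : ∀ (t : ℝ) x, N (t • x) = |t| * N x) (hν : ∀ x, charFun ν x = Real.exp (-N x))
    (e : V) (he : N e = 1) : Tendsto (fun R => D ν R e) atTop atTop ∧
      ∀ x, Tendsto (fun R => (D ν R e)⁻¹ * D ν R x) atTop (𝓝 (N x)) := by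
  have h1 : ∀ x t, charFun (ν.map fun ξ => ⟪ξ, x⟫) t = Real.exp (-(|t| * N x)) := by
    intro x t
    rw [← hs, ← hν, charFun_apply_real, charFun_apply, integral_map (by fun_prop)
      (Continuous.aestronglyMeasurable (by fun_prop))]
    simp [inner_smul_right]
  haveI : ∀ x, IsProbabilityMeasure (ν.map fun ξ => ⟪ξ, x⟫) := fun x =>
    Measure.isProbabilityMeasure_map (by fun_prop)
  set κ := ν.map fun ξ => ⟪ξ, e⟫ with hκ
  have h2 : ∀ t : ℝ, charFun κ t = Real.exp (-|t|) := fun t => by rw [h1, he, mul_one]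
  have h3 : ∀ x R, D ν R x = ∫ t, min |N x * t| R ∂κ := by
    intro x R
    have : (ν.map fun ξ => ⟪ξ, x⟫) = κ.map fun t => N x * t := by
      refine Measure.ext_of_charFun (funext fun t => ?_)
      rw [h1, charFun_map_mul, h2, abs_mul, abs_of_nonneg (h0 x), mul_comm]
    rw [← integral_map (φ := fun t => N x * t) (f := fun t => min |t| R) (by fun_prop)
      (Continuous.aestronglyMeasurable (by fun_prop)), ← this, integral_map (by fun_prop)
      (Continuous.aestronglyMeasurable (by fun_prop)), D]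
  simp only [h3, he]
  exact ⟨L_top κ h2, fun x => ratio κ h2 (h0 x)⟩

theorem key (ν : Measure V) [IsProbabilityMeasure ν] (N : V → ℝ) (h0 : ∀ x, 0 ≤ N x)
    (hs : ∀ (t : ℝ) x, N (t • x) = |t| * N x) (hν : ∀ x, charFun ν x = Real.exp (-N x))
    (e : V) (he : N e = 1) (C : ℝ) (hC0 : 0 ≤ C) (hC : ∀ x, ‖x‖ ≤ C * N x) :
    ∃ C0 : ℝ, 0 ≤ C0 ∧ ∀ (κ ι : Type) [Fintype κ] [Fintype ι] (q : κ → V) (ϖ : ι → κ) (p : ι → V)
      (δ η : ℝ), 0 ≤ δ → (∀ i, N (p i - q (ϖ i)) ≤ δ) → Fintype.card κ * C0 * δ < η →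
      ∀ (w : ι → ℝ) (ε : ℝ), 0 < ε → ∃ (K : κ → κ → ℝ) (t : ℝ), Real.exp (-η) ≤ t ∧
        (∀ x y, |K x y - Real.exp (-N (q x - q y))| ≤ 2 * η) ∧
        t * ∑ i, ∑ j, w i * w j * K (ϖ i) (ϖ j) ≤
          ∑ i, ∑ j, w i * w j * Real.exp (-N (p i - p j)) + ε := by
  obtain ⟨hL, hD⟩ := D_lim ν N h0 hs hν e he
  let b := stdOrthonormalBasis ℝ V
  refine ⟨4 * C * ∑ j, N (b j), by have := sum_nonneg fun j (_ : j ∈ univ) => h0 (b j); positivity,
    fun κ ι _ _ q ϖ p δ η hδ hp hη w ε hε => ?_⟩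
  set k : ℝ := 4 * Fintype.card κ * δ * C with hk
  set M : ℝ := 2 * Fintype.card ι + 1 with hM
  have hk0 : 0 ≤ k := by positivity
  have hM0 : 0 < M := by positivity
  have hη0 : 0 < η := lt_of_le_of_lt (by
    have := sum_nonneg fun j (_ : j ∈ univ) => h0 (b j); positivity) hη
  have l1 := (tendsto_finset_sum univ fun j _ => hD ((k / M) • b j)).const_mul M
  have e1 : M * ∑ j, N ((k / M) • b j) = Fintype.card κ * (4 * C * ∑ j, N (b j)) * δ := by
    simp only [hs, abs_of_nonneg (div_nonneg hk0 hM0.le), ← mul_sum]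
    rw [hk]; field_simp
  rw [e1] at l1
  have l2 : ∀ᶠ R in atTop, ∀ x y, |(D ν R e)⁻¹ * D ν R (q x - q y) - N (q x - q y)| < η :=
    eventually_all.2 fun x => eventually_all.2 fun y =>
      Metric.tendsto_nhds.1 (hD (q x - q y)) η hη0
  have l3 := tendsto_finset_sum univ fun i _ => tendsto_finset_sum univ fun j _ =>
    ((hD (p i - p j)).neg.rexp).const_mul (w i * w j)
  obtain ⟨R, ⟨r1, r2⟩, r3, r4, r5⟩ := (((l1.eventually (Iio_mem_nhds hη)).and l2).and
    ((l3.eventually (Iio_mem_nhds (lt_add_of_pos_right _ hε))).and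
      ((hL.eventually_gt_atTop 0).and (eventually_ge_atTop 0)))).exists
  set l := (D ν R e)⁻¹ with hl
  have hl0 : 0 ≤ l := (inv_pos.2 r4).le
  set μ : Measure (V × ℝ) := ν.prod volume with hμ
  let B : Set (V × ℝ) := ⋃ i, symmDiff (slab R (p i)) (slab R (q (ϖ i)))
  have hB : MeasurableSet B := .iUnion fun i => (slab_meas _ _).symmDiff (slab_meas _ _)
  have hBm : μ B ≤ ENNReal.ofReal (∫ ξ, M * ∑ j, min |⟪ξ, (k / M) • b j⟫| R ∂ν) := by
    rw [hμ, Measure.prod_apply hB, ofReal_integral_eq_lintegral_ofReal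
      ((integrable_finset_sum _ fun j _ => int_D ν r5 _).const_mul M)
      (Eventually.of_forall fun ξ => mul_nonneg hM0.le
        (sum_nonneg fun j _ => le_min (abs_nonneg _) r5))]
    refine lintegral_mono fun ξ => ?_
    set ρ := δ * C * ∑ j, |⟪ξ, b j⟫| with hρ
    have hρ0 : 0 ≤ ρ := by positivity
    have h1 : ∀ i, |⟪ξ, p i⟫ - ⟪ξ, q (ϖ i)⟫| ≤ ρ := by
      intro i
      have h2 : ‖ξ‖ ≤ ∑ j, |⟪ξ, b j⟫| := by
        conv_lhs => rw [← b.sum_repr' ξ]
        refine (norm_sum_le _ _).trans (le_of_eq (sum_congr rfl fun j _ => ?_))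
        rw [norm_smul, b.orthonormal.1 j, mul_one, real_inner_comm, Real.norm_eq_abs]
      rw [← inner_sub_right, hρ, mul_comm]
      refine (abs_real_inner_le_norm _ _).trans (mul_le_mul h2 ((hC _).trans ?_) (norm_nonneg _)
        (by positivity))
      rw [mul_comm]
      exact mul_le_mul_of_nonneg_right (hp i) hC0
    have h2 : volume (Prod.mk ξ ⁻¹' B) ≤ ENNReal.ofReal (Fintype.card κ * (2 * ρ + 2 * ρ)) := by
      refine (measure_mono (t := ⋃ x, Set.Icc (⟪ξ, q x⟫ - ρ) (⟪ξ, q x⟫ + ρ) ∪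
        Set.Icc (⟪ξ, q x⟫ + R - ρ) (⟪ξ, q x⟫ + R + ρ)) fun s hs => ?_).trans
        ((measure_iUnion_fintype_le _ _).trans ?_)
      · obtain ⟨i, hi⟩ := Set.mem_iUnion.1 hs
        refine Set.mem_iUnion.2 ⟨ϖ i, ?_⟩
        have := abs_le.1 (h1 i)
        simp only [Set.mem_symmDiff, slab, Set.mem_setOf_eq, Set.mem_Ico, not_and_or, not_le,
          not_lt] at hi
        simp only [Set.mem_union, Set.mem_Icc]
        rcases hi with ⟨⟨a1, a2⟩, a3 | a3⟩ | ⟨⟨a1, a2⟩, a3 | a3⟩
        · left; constructor <;> linarith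
        · right; constructor <;> linarith
        · left; constructor <;> linarith
        · right; constructor <;> linarith
      · refine (sum_le_card_nsmul _ _ (ENNReal.ofReal (2 * ρ + 2 * ρ)) fun x _ =>
          (measure_union_le _ _).trans (le_of_eq ?_)).trans (le_of_eq ?_)
        · rw [Real.volume_Icc, Real.volume_Icc, ENNReal.ofReal_add (by positivity) (by positivity)]
          congr 2 <;> ring
        · rw [ENNReal.ofReal_mul (by positivity), nsmul_eq_mul, ENNReal.ofReal_natCast, card_univ]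
    have h3 : volume (Prod.mk ξ ⁻¹' B) ≤ ENNReal.ofReal (Fintype.card ι * (R + R)) := by
      refine (measure_mono (t := ⋃ i, Set.Ico ⟪ξ, p i⟫ (⟪ξ, p i⟫ + R) ∪
        Set.Ico ⟪ξ, q (ϖ i)⟫ (⟪ξ, q (ϖ i)⟫ + R)) fun s hs => ?_).trans
        ((measure_iUnion_fintype_le _ _).trans ?_)
      · obtain ⟨i, hi⟩ := Set.mem_iUnion.1 hs
        exact Set.mem_iUnion.2 ⟨i, Set.symmDiff_subset_union hi⟩
      · refine (sum_le_card_nsmul _ _ (ENNReal.ofReal (R + R)) fun x _ =>
          (measure_union_le _ _).trans (le_of_eq ?_)).trans (le_of_eq ?_)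
        · rw [Real.volume_Ico, Real.volume_Ico, ENNReal.ofReal_add r5 r5]
          congr 2 <;> ring
        · rw [ENNReal.ofReal_mul (by positivity), nsmul_eq_mul, ENNReal.ofReal_natCast, card_univ]
    have h4 := mul_le_mul_of_nonneg_left
      (min_sum univ (fun j => |⟪ξ, (k / M) • b j⟫|) (fun j => abs_nonneg _) r5) hM0.le
    have h5 : M * ∑ j, |⟪ξ, (k / M) • b j⟫| = Fintype.card κ * (2 * ρ + 2 * ρ) := by
      simp only [inner_smul_right, abs_mul, abs_of_nonneg (div_nonneg hk0 hM0.le), ← mul_sum]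
      rw [hk, hρ]; field_simp; ring
    rw [mul_min_of_nonneg _ _ hM0.le, h5] at h4
    refine le_trans ?_ (ENNReal.ofReal_le_ofReal h4)
    rw [ENNReal.ofReal_min]
    exact le_min h2 (h3.trans (ENNReal.ofReal_le_ofReal (by rw [hM]; linarith)))
  have hB' : μ B ≠ ⊤ := ne_top_of_le_ne_top ENNReal.ofReal_ne_top hBm
  have hβ : l * μ.real B < η := by
    refine lt_of_le_of_lt ?_ r1
    have := ENNReal.toReal_le_of_le_ofReal (integral_nonneg fun ξ => mul_nonneg hM0.le
      (sum_nonneg fun j _ => le_min (abs_nonneg _) r5)) hBm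
    rw [integral_const_mul, integral_finset_sum _ fun j _ => int_D ν r5 _] at this
    refine (mul_le_mul_of_nonneg_left this hl0).trans (le_of_eq ?_)
    rw [← mul_sum, mul_left_comm]
    rfl
  have hA' : ∀ x, μ (slab R x) ≠ ⊤ := fun x => by simpa using (slab_inter ν r5 x x).1
  have hR : ∀ x, μ.real (slab R x) = R := fun x => by
    simpa [D, r5] using (slab_inter ν r5 x x).2
  have hc := cut μ (fun i => slab R (p i)) B (fun i => slab_meas _ _) hB (fun i => hA' _) hB' R
    (fun i => hR _) l hl0 w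
  have e2 : ∀ i, slab R (p i) \ B = slab R (q (ϖ i)) \ B := by
    intro i
    ext z
    have : z ∈ symmDiff (slab R (p i)) (slab R (q (ϖ i))) → z ∈ B := fun h =>
      Set.mem_iUnion.2 ⟨i, h⟩
    simp only [Set.mem_symmDiff] at this
    simp only [Set.mem_diff]
    tauto
  simp only [e2, hμ, (slab_inter ν r5 _ _).2, sub_sub_cancel] at hc
  have hβ0 : 0 ≤ l * μ.real B := mul_nonneg hl0 measureReal_nonneg
  refine ⟨fun x y => Real.exp (-(l * ((μ.real (slab R (q x) \ B) + μ.real (slab R (q y) \ B)) / 2 -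
    μ.real ((slab R (q x) \ B) ∩ (slab R (q y) \ B))))), _, ?_, fun x y => ?_, hc.trans r3.le⟩
  · exact Real.exp_le_exp.2 (by linarith)
  have fin : ∀ x (S : Set (V × ℝ)), S ⊆ slab R x → μ S ≠ ⊤ := fun i S h =>
    ne_top_of_le_ne_top (hA' i) (measure_mono h)
  have a1 := measureReal_inter_add_diff (μ := μ) (s := slab R (q x)) hB (hA' _)
  have a2 := measureReal_inter_add_diff (μ := μ) (s := slab R (q y)) hB (hA' _)
  have a3 := measureReal_inter_add_diff (μ := μ) (s := slab R (q x) ∩ slab R (q y)) hB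
    (fin _ _ Set.inter_subset_left)
  have a4 : (slab R (q x) ∩ slab R (q y)) \ B = (slab R (q x) \ B) ∩ (slab R (q y) \ B) := by
    ext t; simp only [Set.mem_diff, Set.mem_inter_iff]; tauto
  rw [a4, (slab_inter ν r5 _ _).2] at a3
  rw [hR] at a1 a2
  have a5 := measureReal_mono (μ := μ) (Set.inter_subset_left (s := slab R (q x) \ B)
    (t := slab R (q y) \ B)) (fin _ _ Set.diff_subset)
  have a6 := measureReal_mono (μ := μ) (Set.inter_subset_right (s := slab R (q x) \ B)
    (t := slab R (q y) \ B)) (fin _ _ Set.diff_subset)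
  have a7 := measureReal_mono (μ := μ) (Set.inter_subset_right (s := slab R (q x)) (t := B)) hB'
  have a8 := measureReal_mono (μ := μ) (Set.inter_subset_right (s := slab R (q y)) (t := B)) hB'
  have a9 := measureReal_mono (μ := μ) (Set.inter_subset_inter_left B
    (Set.inter_subset_left (s := slab R (q x)) (t := slab R (q y))))
    (fin _ _ Set.inter_subset_left)
  have a10 := measureReal_mono (μ := μ) (Set.inter_subset_inter_left B
    (Set.inter_subset_right (s := slab R (q x)) (t := slab R (q y))))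
    (fin _ _ Set.inter_subset_left)
  have a11 := measureReal_nonneg (μ := μ) (s := slab R (q x) ∩ slab R (q y) ∩ B)
  obtain ⟨d, hd⟩ : ∃ d, d = (μ.real (slab R (q x) \ B) + μ.real (slab R (q y) \ B)) / 2 -
    μ.real ((slab R (q x) \ B) ∩ (slab R (q y) \ B)) := ⟨_, rfl⟩
  beta_reduce
  rw [← hd]
  have b1 := mul_le_mul_of_nonneg_left (show d ≤ D ν R (q x - q y) by linarith) hl0
  have b2 := mul_le_mul_of_nonneg_left (show D ν R (q x - q y) ≤ d + μ.real B by linarith) hl0
  refine (exp_lip (mul_nonneg hl0 (by linarith)) (h0 _)).trans ?_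
  have := abs_lt.1 (r2 x y)
  rw [abs_le]
  rw [mul_add] at b2
  constructor <;> linarith [this.1, this.2]

end Pool.Agent.H18.Mag
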