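import Pool.Agent.H18.Swindle

open Set Filter Topology unitInterval

namespace Pool.Agent.H18.Swindle

noncomputable def clamp : C(ℝ, I) := ⟨projIcc 0 1 zero_le_one, continuous_projIcc⟩

lemma clamp_of {t : ℝ} (h0 : 0 ≤ t) (h1 : t ≤ 1) : (clamp t : ℝ) = t := by
  change ((projIcc 0 1 zero_le_one t : I) : ℝ) = t
  rw [projIcc_of_mem _ ⟨h0, h1⟩]

noncomputable def a0 (c : ℝ) : C(I, I) := clamp.comp ⟨fun t => (t : ℝ) / c, by fun_prop⟩
noncomputable def a1 (c : ℝ) : C(I, I) := clamp.comp ⟨fun t => ((t : ℝ) - (1 - c)) / c, by fun_prop⟩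
noncomputable def al : C(I, ℝ) := ⟨fun t => (clamp (2 - 3 * t) : ℝ), by fun_prop⟩

lemma al_nonneg (t : I) : 0 ≤ al t := (clamp _).2.1
lemma al_le (t : I) : al t ≤ 1 := (clamp _).2.2
lemma al_one {t : I} (h : (t : ℝ) ≤ 1 / 3) : al t = 1 := by
  change ((projIcc 0 1 zero_le_one (2 - 3 * (t : ℝ)) : I) : ℝ) = 1
  rw [projIcc_of_right_le _ (by linarith)]
lemma al_zero {t : I} (h : 2 / 3 ≤ (t : ℝ)) : al t = 0 := by
  change ((projIcc 0 1 zero_le_one (2 - 3 * (t : ℝ)) : I) : ℝ) = 0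
  rw [projIcc_of_le_left _ (by linarith)]

noncomputable def P (c : ℝ) : ℕ → (C(D, ℝ) →L[ℝ] C(I, ℝ))
  | 0 => (ContinuousLinearMap.const ℝ I).comp (ContinuousMap.evalCLM ℝ fun _ => false)
  | n + 1 =>
    (ContinuousLinearMap.mul ℝ C(I, ℝ) al).comp ((pre (a0 c)).comp ((P c n).comp (pre (cons false)))) +
    (ContinuousLinearMap.mul ℝ C(I, ℝ) (1 - al)).comp
      ((pre (a1 c)).comp ((P c n).comp (pre (cons true))))

lemma P_zero (c : ℝ) (f : C(D, ℝ)) (t : I) : P c 0 f t = f fun _ => false := rfl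

lemma P_succ (c : ℝ) (n : ℕ) (f : C(D, ℝ)) (t : I) : P c (n + 1) f t =
    al t * P c n (f.comp (cons false)) (a0 c t) +
      (1 - al t) * P c n (f.comp (cons true)) (a1 c t) := rfl

lemma conv_abs {a u v w ε : ℝ} (h0 : 0 ≤ a) (h1 : a ≤ 1) (hu : |u - w| ≤ ε) (hv : |v - w| ≤ ε) :
    |a * u + (1 - a) * v - w| ≤ ε := by
  rw [abs_le] at *
  constructor <;> nlinarith [hu.1, hu.2, hv.1, hv.2]

lemma P_near (c : ℝ) (n : ℕ) : ∀ (f : C(D, ℝ)) (w ε : ℝ), (∀ x, |f x - w| ≤ ε) → ∀ t,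
    |P c n f t - w| ≤ ε := by
  induction n with
  | zero => intro f w ε h t; exact h _
  | succ n ih =>
    intro f w ε h t
    rw [P_succ]
    exact conv_abs (al_nonneg t) (al_le t) (ih (f.comp (cons false)) w ε (fun x => h (cons false x)) _)
      (ih (f.comp (cons true)) w ε (fun x => h (cons true x)) _)

lemma P_nonneg (c : ℝ) (n : ℕ) : ∀ (f : C(D, ℝ)), (∀ x, 0 ≤ f x) → ∀ t, 0 ≤ P c n f t := by
  induction n with
  | zero => intro f h t; exact h _
  | succ n ih =>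
    intro f h t
    rw [P_succ]
    exact add_nonneg (mul_nonneg (al_nonneg t) (ih (f.comp (cons false)) (fun x => h (cons false x)) _))
      (mul_nonneg (sub_nonneg.2 (al_le t)) (ih (f.comp (cons true)) (fun x => h (cons true x)) _))

def Osc (n : ℕ) (f : C(D, ℝ)) (ε : ℝ) : Prop :=
  ∀ x y : D, (∀ k < n, x k = y k) → |f x - f y| ≤ ε

lemma Osc.comp {n : ℕ} {f : C(D, ℝ)} {ε : ℝ} (h : Osc (n + 1) f ε) (b : Bool) :
    Osc n (f.comp (cons b)) ε := fun x y hxy => h _ _ fun k hk => by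
  cases k with
  | zero => rfl
  | succ k => exact hxy k (by omega)

lemma Osc.mono {n m : ℕ} {f : C(D, ℝ)} {ε : ℝ} (h : Osc n f ε) (hm : n ≤ m) : Osc m f ε :=
  fun x y hxy => h _ _ fun k hk => hxy k (by omega)

lemma exists_osc (f : C(D, ℝ)) {ε : ℝ} (hε : 0 < ε) : ∃ n, Osc n f ε := by
  have h1 : ∀ x : D, ∃ (z : D) (n : ℕ), x ∈ PiNat.cylinder z n ∧
      PiNat.cylinder z n ⊆ f ⁻¹' Metric.ball (f x) (ε / 2) := fun x => by
    have hn : f ⁻¹' Metric.ball (f x) (ε / 2) ∈ 𝓝 x :=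
      f.continuous.continuousAt (Metric.ball_mem_nhds _ (by positivity))
    obtain ⟨s, ⟨z, n, rfl⟩, hx, hs⟩ :=
      (PiNat.isTopologicalBasis_cylinders (fun _ : ℕ => Bool)).mem_nhds_iff.1 hn
    exact ⟨z, n, hx, hs⟩
  choose z n hx hs using h1
  obtain ⟨T, hT⟩ := isCompact_univ.elim_finite_subcover (fun x => PiNat.cylinder (z x) (n x))
    (fun x => PiNat.isOpen_cylinder _ _ _) (fun x _ => mem_iUnion.2 ⟨x, hx x⟩)
  refine ⟨T.sup n, fun x y hxy => ?_⟩
  obtain ⟨w, hw, hxw⟩ := mem_iUnion₂.1 (hT (mem_univ x))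
  have hyw : y ∈ PiNat.cylinder (z w) (n w) := fun k hk => by
    rw [← hxy k (hk.trans_le (Finset.le_sup hw))]
    exact hxw k hk
  have e1 := hs w hxw
  have e2 := hs w hyw
  rw [mem_preimage, Metric.mem_ball, Real.dist_eq, abs_lt] at e1 e2
  rw [abs_le]
  constructor <;> linarith [e1.1, e1.2, e2.1, e2.2]

lemma P_cauchy (c : ℝ) (n : ℕ) : ∀ (f : C(D, ℝ)) (ε : ℝ) (m m' : ℕ), n ≤ m → n ≤ m' → Osc n f ε →
    ∀ t, |P c m f t - P c m' f t| ≤ 2 * ε := by
  induction n with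
  | zero =>
    intro f ε m m' _ _ h t
    have h0 : ∀ x, |f x - f (fun _ => false)| ≤ ε := fun x => h _ _ fun k hk => absurd hk (by omega)
    have e1 := P_near c m f _ ε h0 t
    have e2 := P_near c m' f _ ε h0 t
    rw [abs_le] at *
    constructor <;> linarith [e1.1, e1.2, e2.1, e2.2]
  | succ n ih =>
    intro f ε m m' hm hm' h t
    obtain ⟨m, rfl⟩ : ∃ k, m = k + 1 := ⟨m - 1, by omega⟩
    obtain ⟨m', rfl⟩ : ∃ k, m' = k + 1 := ⟨m' - 1, by omega⟩
    have e1 := ih _ ε m m' (by omega) (by omega) (h.comp false) (a0 c t)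
    have e2 := ih _ ε m m' (by omega) (by omega) (h.comp true) (a1 c t)
    have e3 := conv_abs (w := 0) (ε := 2 * ε) (al_nonneg t) (al_le t) (by rwa [sub_zero]) (by rwa [sub_zero])
      (u := P c m (f.comp (cons false)) (a0 c t) - P c m' (f.comp (cons false)) (a0 c t))
      (v := P c m (f.comp (cons true)) (a1 c t) - P c m' (f.comp (cons true)) (a1 c t))
    rw [P_succ, P_succ]
    refine le_of_eq_of_le (congrArg abs ?_) e3
    ring

lemma P_cauchySeq (c : ℝ) (f : C(D, ℝ)) : CauchySeq fun n => P c n f := by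
  rw [Metric.cauchySeq_iff]
  intro ε hε
  obtain ⟨n, hn⟩ := exists_osc f (show 0 < ε / 4 by positivity)
  refine ⟨n, fun m hm m' hm' => ?_⟩
  have : dist (P c m f) (P c m' f) ≤ 2 * (ε / 4) :=
    (ContinuousMap.dist_le (by positivity)).2 fun t => P_cauchy c n f _ m m' hm hm' hn t
  linarith

lemma exists_lim (c : ℝ) : ∃ Q : C(D, ℝ) →L[ℝ] C(I, ℝ), ∀ f t,
    Tendsto (fun n => P c n f t) atTop (𝓝 (Q f t)) := by
  choose g hg using fun f => cauchySeq_tendsto_of_complete (P_cauchySeq c f)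
  refine ⟨continuousLinearMapOfTendsto (P c) (f := g) (tendsto_pi_nhds.2 hg), fun f t => ?_⟩
  exact ((continuous_eval_const t).tendsto _).comp (hg f)

section Psi

variable {c : ℝ} (hc0 : 0 < c) (hc1 : c < 1)

noncomputable def term (c : ℝ) (n : ℕ) (x : D) : ℝ := (1 - c) * c ^ n * bif x n then 1 else 0

include hc0 hc1

lemma term_nonneg (n : ℕ) (x : D) : 0 ≤ term c n x := by
  have : 0 ≤ 1 - c := by linarith
  unfold term
  cases x n <;> simp only [cond] <;> positivity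

lemma term_le (n : ℕ) (x : D) : term c n x ≤ (1 - c) * c ^ n := by
  have : 0 ≤ 1 - c := by linarith
  unfold term
  cases x n <;> simp only [cond]
  · rw [mul_zero]; positivity
  · rw [mul_one]

lemma geo_sum : HasSum (fun n => (1 - c) * c ^ n) 1 := by
  have h := (hasSum_geometric_of_lt_one hc0.le hc1).mul_left (1 - c)
  rwa [mul_inv_cancel₀ (by linarith)] at h

lemma term_summable (x : D) : Summable fun n => term c n x :=
  Summable.of_nonneg_of_le (fun n => term_nonneg hc0 hc1 n x) (fun n => term_le hc0 hc1 n x)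
    (geo_sum hc0 hc1).summable

noncomputable def psi : C(D, I) :=
  ⟨fun x => ⟨∑' n, term c n x, tsum_nonneg fun n => term_nonneg hc0 hc1 n x, by
      rw [← (geo_sum hc0 hc1).tsum_eq]
      exact (term_summable hc0 hc1 x).tsum_le_tsum (fun n => term_le hc0 hc1 n x)
        (geo_sum hc0 hc1).summable⟩, by
    refine Continuous.subtype_mk ?_ _
    refine continuous_tsum (fun n => ?_) (geo_sum hc0 hc1).summable fun n x => ?_
    · exact continuous_const.mul ((continuous_of_discreteTopology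
        (f := fun b : Bool => bif b then (1 : ℝ) else 0)).comp (continuous_apply n))
    · rw [Real.norm_eq_abs, abs_of_nonneg (term_nonneg hc0 hc1 n x)]
      exact term_le hc0 hc1 n x⟩

lemma psi_cons (b : Bool) (x : D) : (psi hc0 hc1 (cons b x) : ℝ) =
    (1 - c) * (bif b then 1 else 0) + c * psi hc0 hc1 x := by
  change ∑' n, term c n (cons b x) = _ + c * ∑' n, term c n x
  rw [(term_summable hc0 hc1 _).tsum_eq_zero_add, ← tsum_mul_left]
  congr 1
  · simp [term]
  · refine tsum_congr fun n => ?_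
    simp only [term, cons_succ]
    ring

lemma psi_false (x : D) : (psi hc0 hc1 (cons false x) : ℝ) = c * psi hc0 hc1 x := by
  rw [psi_cons]; simp

lemma psi_true (x : D) : (psi hc0 hc1 (cons true x) : ℝ) = (1 - c) + c * psi hc0 hc1 x := by
  rw [psi_cons]; simp

end Psi

lemma t0 : (0 : ℝ) < 1 / 3 := by norm_num
lemma t1 : (1 / 3 : ℝ) < 1 := by norm_num
lemma u0 : (0 : ℝ) < 2 / 3 := by norm_num
lemma u1 : (2 / 3 : ℝ) < 1 := by norm_num

lemma ext_approx (n : ℕ) : ∀ (f : C(D, ℝ)) (ε : ℝ), Osc n f ε → ∀ x,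
    |P (1 / 3) n f (psi t0 t1 x) - f x| ≤ ε := by
  induction n with
  | zero => intro f ε h x; exact h _ _ fun k hk => absurd hk (by omega)
  | succ n ih =>
    intro f ε h x
    obtain ⟨b, y, rfl⟩ := cons_cases x
    have hy := (psi t0 t1 y).2
    cases b
    · have e1 := psi_false t0 t1 y
      have e2 : a0 (1 / 3) (psi t0 t1 (cons false y)) = psi t0 t1 y := by
        apply Subtype.ext
        change (clamp ((psi t0 t1 (cons false y) : ℝ) / (1 / 3)) : ℝ) = _
        rw [e1, show 1 / 3 * (psi t0 t1 y : ℝ) / (1 / 3) = psi t0 t1 y by ring, clamp_of hy.1 hy.2]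
      rw [P_succ, al_one (by rw [e1]; linarith [hy.2]), e2, sub_self, zero_mul, add_zero, one_mul]
      exact ih _ ε (h.comp false) y
    · have e1 := psi_true t0 t1 y
      have e2 : a1 (1 / 3) (psi t0 t1 (cons true y)) = psi t0 t1 y := by
        apply Subtype.ext
        change (clamp (((psi t0 t1 (cons true y) : ℝ) - (1 - 1 / 3)) / (1 / 3)) : ℝ) = _
        rw [e1, show (1 - 1 / 3 + 1 / 3 * (psi t0 t1 y : ℝ) - (1 - 1 / 3)) / (1 / 3) = psi t0 t1 y by ring,
          clamp_of hy.1 hy.2]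
      rw [P_succ, al_zero (by rw [e1]; linarith [hy.1]), e2, sub_zero, zero_mul, zero_add, one_mul]
      exact ih _ ε (h.comp true) y

noncomputable def s0 : C(I, I) :=
  ⟨fun t => ⟨2 / 3 * t, by have := t.2.1; positivity, by linarith [t.2.2]⟩, by fun_prop⟩
noncomputable def s1 : C(I, I) :=
  ⟨fun t => ⟨1 - 2 / 3 + 2 / 3 * t, by linarith [t.2.1], by linarith [t.2.2]⟩, by fun_prop⟩

def Md (g : C(I, ℝ)) (δ ε : ℝ) : Prop := ∀ s t : I, |(s : ℝ) - t| ≤ δ → |g s - g t| ≤ ε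

lemma avg_approx (n : ℕ) : ∀ (g : C(I, ℝ)) (ε : ℝ), Md g ((2 / 3) ^ n) ε → ∀ t,
    |P (2 / 3) n (g.comp (psi u0 u1)) t - g t| ≤ ε := by
  induction n with
  | zero =>
    intro g ε h t
    refine h _ _ ?_
    have a := (psi u0 u1 fun _ => false).2
    have b := t.2
    rw [pow_zero, abs_le]
    constructor <;> linarith [a.1, a.2, b.1, b.2]
  | succ n ih =>
    intro g ε h t
    have c0 : (g.comp (psi u0 u1)).comp (cons false) = (g.comp s0).comp (psi u0 u1) := by
      ext x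
      exact congrArg g (Subtype.ext (psi_false u0 u1 x))
    have c1 : (g.comp (psi u0 u1)).comp (cons true) = (g.comp s1).comp (psi u0 u1) := by
      ext x
      exact congrArg g (Subtype.ext (psi_true u0 u1 x))
    have m0 : Md (g.comp s0) ((2 / 3) ^ n) ε := fun s t hst => h _ _ (by
      change |2 / 3 * (s : ℝ) - 2 / 3 * t| ≤ _
      rw [← mul_sub, abs_mul, abs_of_pos u0, pow_succ]; linarith)
    have m1 : Md (g.comp s1) ((2 / 3) ^ n) ε := fun s t hst => h _ _ (by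
      change |1 - 2 / 3 + 2 / 3 * (s : ℝ) - (1 - 2 / 3 + 2 / 3 * t)| ≤ _
      rw [add_sub_add_left_eq_sub, ← mul_sub, abs_mul, abs_of_pos u0, pow_succ]; linarith)
    have e0 := ih _ ε m0 (a0 (2 / 3) t)
    have e1 := ih _ ε m1 (a1 (2 / 3) t)
    have f0 : (t : ℝ) ≤ 2 / 3 → (g.comp s0) (a0 (2 / 3) t) = g t := fun ht => by
      refine congrArg g (Subtype.ext ?_)
      change 2 / 3 * (clamp ((t : ℝ) / (2 / 3)) : ℝ) = t
      rw [clamp_of (by have := t.2.1; positivity) (by rw [div_le_one u0]; exact ht)]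
      ring
    have f1 : 1 / 3 ≤ (t : ℝ) → (g.comp s1) (a1 (2 / 3) t) = g t := fun ht => by
      refine congrArg g (Subtype.ext ?_)
      change 1 - 2 / 3 + 2 / 3 * (clamp (((t : ℝ) - (1 - 2 / 3)) / (2 / 3)) : ℝ) = t
      rw [clamp_of (div_nonneg (by linarith) u0.le) (by rw [div_le_one u0]; linarith [t.2.2])]
      ring
    rw [P_succ, c0, c1]
    rcases le_total (t : ℝ) (1 / 3) with h1 | h1
    · rw [al_one h1, sub_self, zero_mul, add_zero, one_mul, ← f0 (by linarith)]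
      exact e0
    · rcases le_total (t : ℝ) (2 / 3) with h2 | h2
      · rw [f0 h2] at e0
        rw [f1 h1] at e1
        exact conv_abs (al_nonneg t) (al_le t) e0 e1
      · rw [al_zero h2, sub_zero, zero_mul, zero_add, one_mul, ← f1 h1]
        exact e1

lemma eq_of_approx {u : ℕ → ℝ} {a b : ℝ} (hu : Tendsto u atTop (𝓝 a))
    (h : ∀ ε > 0, ∃ N, ∀ n ≥ N, |u n - b| ≤ ε) : a = b := by
  refine tendsto_nhds_unique hu (Metric.tendsto_atTop.2 fun ε hε => ?_)
  obtain ⟨N, hN⟩ := h (ε / 2) (by positivity)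
  exact ⟨N, fun n hn => by rw [Real.dist_eq]; linarith [hN n hn]⟩

theorem main : ∃ T : C(D, ℝ) ≃L[ℝ] C(I, ℝ), ∀ f : C(D, ℝ), (∀ x, 0 ≤ f x) → ∀ y, 0 ≤ T f y := by
  obtain ⟨p, hp⟩ := exists_lim (2 / 3)
  obtain ⟨E, hE⟩ := exists_lim (1 / 3)
  obtain ⟨T, hT⟩ := out_step p (pre (psi u0 u1))
    (fun g => by
      ext t
      refine eq_of_approx (hp _ t) fun ε hε => ?_
      obtain ⟨δ, hδ, hg⟩ := Metric.uniformContinuous_iff_le.1
        (CompactSpace.uniformContinuous_of_continuous g.continuous) ε hε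
      obtain ⟨N, hN⟩ := exists_pow_lt_of_lt_one hδ u1
      refine ⟨N, fun n hn => avg_approx n g ε (fun s t hst => hg ?_) t⟩
      exact hst.trans ((pow_le_pow_of_le_one u0.le u1.le hn).trans hN.le))
    (fun f hf t => ge_of_tendsto' (hp f t) fun n => P_nonneg _ n f hf t)
    (fun f hf y => hf _)
  obtain ⟨S, hS⟩ := in_step (pre (psi t0 t1)) E
    (fun f => by
      ext x
      refine eq_of_approx (hE _ _) fun ε hε => ?_
      obtain ⟨N, hN⟩ := exists_osc f hε
      exact ⟨N, fun n hn => ext_approx n f ε (hN.mono hn) x⟩)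
    (fun f hf y => hf _)
    (fun f hf t => ge_of_tendsto' (hE f t) fun n => P_nonneg _ n f hf t)
  refine ⟨(T.trans (ContinuousLinearEquiv.prodComm ℝ _ _)).trans S, fun f hf y => ?_⟩
  exact hS _ (hT f hf).2 (hT f hf).1 y

end Pool.Agent.H18.Swindle
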