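import Pool.Agent.H18.Net7

set_option autoImplicit false

namespace Pool.Agent.H18.Net

open Set

noncomputable section

lemma cos_eq' {A B x y : ℝ} (h : A < x) : (A - x) / dd A B x y = - ga ((B - y) / (x - A)) := by
  have h1 := cos_eq (A := -A) (B := B) (x := -x) (y := y) (by linarith)
  have e : dd (-A) B (-x) y = dd A B x y := by unfold dd; congr 1; ring
  rw [e] at h1
  have e2 : -A - -x = x - A := by ring
  rw [e2] at h1
  rw [← h1]; ring

lemma ga_le_of {t t0 c : ℝ} (h0 : 0 ≤ t0) (h : t0 ≤ t) (hc : 0 < c) (h1 : 1 ≤ c ^ 2 * (1 + t0 ^ 2)) :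
    ga t ≤ c := by
  refine (ga_anti h0 h).trans ?_
  obtain ⟨A, a1, a2, a3⟩ := ga_facts t0
  rw [a3, div_le_iff₀ (by linarith)]
  rw [← a2, ← mul_pow] at h1
  by_contra hh
  push Not at hh
  have : 0 < c * A := by positivity
  nlinarith

lemma ga_ge_of {t t0 c : ℝ} (h0 : 0 ≤ t) (h : t ≤ t0) (h1 : c ^ 2 * (1 + t0 ^ 2) ≤ 1) :
    c ≤ ga t := by
  refine le_trans ?_ (ga_anti h0 h)
  obtain ⟨A, a1, a2, a3⟩ := ga_facts t0
  rw [a3, le_div_iff₀ (by linarith)]
  rw [← a2, ← mul_pow] at h1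
  nlinarith

lemma ga_pos (t : ℝ) : 0 < ga t := by
  obtain ⟨A, a1, -, a3⟩ := ga_facts t
  rw [a3]; positivity

lemma abs_a {a s : ℝ} (h : a ^ 2 + s ^ 2 = 1) : 1 - s ^ 2 ≤ |a| ∧ |a| ≤ 1 := by
  have h1 : |a| ^ 2 = a ^ 2 := sq_abs a
  have h2 := abs_nonneg a
  have h3 : |a| ≤ 1 := by nlinarith [sq_nonneg s]
  exact ⟨by nlinarith, h3⟩

/-- the height bound for three terminals -/
def d3 : ℝ := 1 / 100000

/-- horizontal pull for three terminals -/
def F3 (α β β' x y : ℝ) : ℝ := α * ga (y / (6 - x)) - β * ga ((3 - y) / x) - β' * ga ((3 + y) / x)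

lemma fx3 (α β β' : ℝ) {x : ℝ} (y : ℝ) (h0 : 0 < x) (h1 : x < 6) :
    fx [(α, 6, 0), (β, 0, 3), (β', 0, -3)] x y = F3 α β β' x y := by
  simp only [fx, List.map_cons, List.map_nil, List.sum_cons, List.sum_nil, add_zero]
  rw [cos_eq h1, cos_eq' h0, cos_eq' h0, F3, ← ga_neg (y / (6 - x)), ← ga_neg ((3 + y) / x)]
  have e1 : (0 - y) / (6 - x) = -(y / (6 - x)) := by ring
  have e2 : (-3 - y) / (x - 0) = -((3 + y) / x) := by ring
  rw [e1, e2, sub_zero]
  ring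

lemma fy3 (α β β' x y : ℝ) :
    - fy [(α, 6, 0), (β, 0, 3), (β', 0, -3)] x y = α * (y / dd 6 0 x y) +
      β' * ((3 + y) / dd 0 (-3) x y - (3 - y) / dd 0 3 x y) - (β - β') * ((3 - y) / dd 0 3 x y) := by
  simp only [fy, List.map_cons, List.map_nil, List.sum_cons, List.sum_nil, add_zero]
  ring

lemma cone3 {α β x y x' y' : ℝ} (a1 : 1 ≤ α) (a2 : α ≤ 5) (b1 : 2 ≤ β) (b2 : β ≤ 3)
    (x1 : 16 / 10 ≤ x) (x2 : x ≤ 37 / 10) (x1' : 16 / 10 ≤ x') (x2' : x' ≤ 37 / 10)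
    (c0 : 0 < y') (c1 : y' < y) (c2 : y ≤ d3)
    (h : |F3 α β β x y - F3 α β β x' y'| ≤ 320 * d3 * (y - y')) : |x - x'| ≤ (y - y') / 4 := by
  unfold d3 at c2 h
  have mono : ∀ a b : ℝ, 16 / 10 ≤ a → a ≤ b → b ≤ 37 / 10 →
      F3 α β β b y' + (b - a) * (16 / 1000) ≤ F3 α β β a y' := by
    intro a b h1 h2 h3
    have a0 : 0 < a := by linarith
    have b0 : 0 < b := by linarith
    have g1 : ga (y' / (6 - b)) ≤ ga (y' / (6 - a)) :=
      ga_anti (div_nonneg c0.le (by linarith))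
        (div_le_div_of_nonneg_left c0.le (by linarith) (by linarith))
    have g2 : ga ((3 - y') / a) ≤ ga ((3 - y') / b) :=
      ga_anti (div_nonneg (by linarith) b0.le)
        (div_le_div_of_nonneg_left (by linarith) a0 h2)
    have t1 : (3 + y') / b + (b - a) / 5 ≤ (3 + y') / a := by
      rw [div_add_div _ _ b0.ne' (by norm_num), div_le_div_iff₀ (by positivity) a0]
      have : a * b ≤ 15 := by nlinarith
      nlinarith [mul_le_mul_of_nonneg_left this (sub_nonneg.mpr h2),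
        mul_nonneg c0.le (sub_nonneg.mpr h2)]
    have g3 := ga_gap' (t := (3 + y') / b) (t' := (3 + y') / a)
      (by rw [le_div_iff₀ b0]; linarith) (by linarith) (by rw [div_le_iff₀ a0]; linarith)
    unfold F3
    have m1 := mul_le_mul_of_nonneg_left g1 (by linarith : 0 ≤ α)
    have m2 := mul_le_mul_of_nonneg_left g2 (by linarith : 0 ≤ β)
    have m3 : 2 * ((b - a) / 125) ≤ β * (ga ((3 + y') / b) - ga ((3 + y') / a)) :=
      mul_le_mul b1 (by linarith) (by linarith) (by linarith)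
    linarith
  have vert : |F3 α β β x y - F3 α β β x y'| ≤ 12 * (1 / 100000) * (y - y') := by
    have x0 : 0 < x := by linarith
    have u0 : 0 < 6 - x := by linarith
    have k1 : y' / (6 - x) ≤ y / (6 - x) := div_le_div_of_nonneg_right c1.le u0.le
    have g1 := ga_anti (div_nonneg c0.le u0.le) k1
    have g2 := ga_small (div_nonneg c0.le u0.le) k1
    have k2 : (y / (6 - x)) ^ 2 - (y' / (6 - x)) ^ 2 ≤ (1 / 100000) * (y - y') := by
      have e : (y / (6 - x)) ^ 2 - (y' / (6 - x)) ^ 2 = (y + y') * (y - y') / (6 - x) ^ 2 := by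
        field_simp; ring
      rw [e, div_le_iff₀ (by positivity)]
      have : 4 ≤ (6 - x) ^ 2 := by nlinarith
      nlinarith [mul_le_mul_of_nonneg_left this (by linarith : 0 ≤ y - y')]
    have g3 := ga_pair (3 / x) (s := y / x) (s' := y' / x) (div_nonneg c0.le x0.le)
      (div_le_div_of_nonneg_right c1.le x0.le)
    rw [← sub_div, ← add_div, ← sub_div, ← add_div, ← sub_div] at g3
    have k3 : 2 * (y / x) * ((y - y') / x) ≤ 2 * (1 / 100000) * (y - y') := by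
      have t1 : y / x ≤ 1 / 100000 := (div_le_self (by linarith) (by linarith)).trans c2
      have t2 : (y - y') / x ≤ y - y' := div_le_self (by linarith) (by linarith)
      have t3 : 0 ≤ (y - y') / x := div_nonneg (by linarith) x0.le
      nlinarith
    have g4 := abs_le.mp (g3.trans k3)
    unfold F3
    rw [abs_le]
    constructor <;> nlinarith [g4.1, g4.2]
  have h1 := abs_le.mp h
  have h2 := abs_le.mp vert
  rw [abs_le]
  rcases le_total x x' with hh | hh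
  · have := mono x x' x1 hh x2'
    constructor <;> linarith [h1.1, h1.2, h2.1, h2.2]
  · have := mono x' x x1' hh x2
    constructor <;> linarith [h1.1, h1.2, h2.1, h2.2]

/-- weight towards the axis terminal -/
def wa (k : ℕ) : ℕ := if k = 1 then 1599999 else if k % 2 = 0 then 1 else 5
/-- weight towards the upper terminal -/
def wb (k : ℕ) : ℕ := if k = 1 then 1000001 else if k % 2 = 0 then 3 else 2
/-- weight towards the lower terminal -/
def wc (k : ℕ) : ℕ := if k = 1 then 1000000 else if k % 2 = 0 then 3 else 2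

/-- terminals with weights -/
def L3 (k : ℕ) : List (ℝ × ℝ × ℝ) := [(wa k, 6, 0), (wb k, 0, 3), (wc k, 0, -3)]

/-- the properties of the weighted chain -/
structure Good3 (n : ℕ) (x y : ℕ → ℝ) : Prop where
  x0 : x 0 = 6
  y0 : y 0 = 0
  xn : x (n + 1) = 6
  yn : y (n + 1) = 0
  hx : ∀ k, 1 ≤ k → k ≤ n → 16 / 10 ≤ x k ∧ x k ≤ 41 / 10
  hy : ∀ k, 1 ≤ k → k ≤ n → 0 < y k ∧ y k ≤ d3
  hg : ∀ k, k ≤ n → 1 / 2 ≤ |x (k + 1) - x k|
  hb : ∀ k, k < n → fx (L3 (k + 1)) (x (k + 1)) (y (k + 1)) = aA x y k - aA x y (k + 1) ∧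
      fy (L3 (k + 1)) (x (k + 1)) (y (k + 1)) = sA x y (k + 1) - sA x y k
  hyy : ∀ k l, 1 ≤ k → k < l → l ≤ n + 1 → y l < y k
  hss : ∀ k l, 1 ≤ k → k < l → l ≤ n → 0 < sA x y l ∧ sA x y l < sA x y k
  hA : ∀ k l, 1 ≤ k → k < l → l ≤ n → y l * (6 - x k) < y k * (6 - x l)
  hB : ∀ k l, 1 ≤ k → k < l → l ≤ n →
    x k * (3 - y l) ≠ x l * (3 - y k) ∧ x k * (3 + y l) ≠ x l * (3 + y k)

/-- lower abscissa bound -/
def xl3 (n k : ℕ) : ℝ := if k = 0 ∨ n < k then 6 else if k = 1 then 39 / 10 else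
  if k % 2 = 0 then 16 / 10 else 31 / 10
/-- upper abscissa bound -/
def xh3 (n k : ℕ) : ℝ := if k = 0 ∨ n < k then 6 else if k = 1 then 41 / 10 else
  if k % 2 = 0 then 19 / 10 else 37 / 10
/-- upper ordinate bound -/
def yh3 (n k : ℕ) : ℝ := if k = 0 ∨ n < k then 0 else d3

/-- raw output of the minimisation -/
structure Pre3 (n : ℕ) (x y : ℕ → ℝ) : Prop where
  hn : 2 ≤ n
  hev : n % 2 = 0
  hx : ∀ k, xl3 n k ≤ x k ∧ x k ≤ xh3 n k
  hy : ∀ k, 0 ≤ y k ∧ y k ≤ yh3 n k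
  hk : ∀ k, k < n →
        (x (k + 1) < xh3 n (k + 1) →
          0 ≤ aA x y k - aA x y (k + 1) - fx (L3 (k + 1)) (x (k + 1)) (y (k + 1))) ∧
        (xl3 n (k + 1) < x (k + 1) →
          aA x y k - aA x y (k + 1) - fx (L3 (k + 1)) (x (k + 1)) (y (k + 1)) ≤ 0) ∧
        (y (k + 1) < yh3 n (k + 1) →
          0 ≤ sA x y (k + 1) - sA x y k - fy (L3 (k + 1)) (x (k + 1)) (y (k + 1))) ∧
        (0 < y (k + 1) →
          sA x y (k + 1) - sA x y k - fy (L3 (k + 1)) (x (k + 1)) (y (k + 1)) ≤ 0)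

lemma d3_pos : 0 < d3 := by norm_num [d3]

theorem exists_pre3 (n : ℕ) (hn : 2 ≤ n) (hev : n % 2 = 0) : ∃ x y, Pre3 n x y := by
  obtain ⟨x, y, hx, hy, hk⟩ := exists_kkt n L3 (xl3 n) (xh3 n) (fun _ => 0) (yh3 n)
    (by intro k; unfold xl3 xh3; split_ifs <;> norm_num)
    (by intro k; unfold yh3; split_ifs <;> norm_num [d3])
    (by
      intro k hk t ht a ha b _
      have h1 : ¬ (k + 1 = 0 ∨ n < k + 1) := by omega
      simp only [xl3, xh3, if_neg h1] at ha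
      have h2 : 16 / 10 ≤ a ∧ a ≤ 41 / 10 := by
        split_ifs at ha <;> constructor <;> linarith [ha.1, ha.2]
      simp only [L3, List.mem_cons, List.not_mem_nil, or_false] at ht
      rcases ht with rfl | rfl | rfl
      · exact ne_of_gt (dd_pos (ne_of_lt (by simp only; linarith [h2.2])))
      · exact ne_of_gt (dd_pos (ne_of_gt (by simp only; linarith [h2.1])))
      · exact ne_of_gt (dd_pos (ne_of_gt (by simp only; linarith [h2.1]))))
    (by
      intro k hk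
      unfold xl3 xh3
      simp only [Nat.add_one_ne_zero, false_or]
      split_ifs <;> first | omega | norm_num)
  exact ⟨x, y, hn, hev, hx, hy, hk⟩

lemma CA3 {a b : ℝ} (h1 : a ≤ 5) (h2 : 0 ≤ b) (h3 : b ≤ d3) : 999 / 1000 ≤ ga (b / (6 - a)) := by
  apply ga_ge_of (t0 := 1 / 100) (div_nonneg h2 (by linarith)) _ (by norm_num)
  unfold d3 at h3
  exact (div_le_self h2 (by linarith)).trans (by linarith)

lemma RA3 {a b : ℝ} (h1 : 16 / 10 ≤ a) (h2 : a ≤ 41 / 10) (h3 : 0 ≤ b) (h4 : b ≤ d3) :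
    6 - a ≤ dd 6 0 a b ∧ dd 6 0 a b ≤ 7 - a ∧ 3 ≤ dd 0 3 a b := by
  unfold d3 at h4
  have s0 := dd_sq 6 0 a b
  have s1 := dd_sq 0 3 a b
  have p0 := dd_nonneg 6 0 a b
  have p1 := dd_nonneg 0 3 a b
  refine ⟨by nlinarith, by nlinarith, by nlinarith⟩

lemma face_k {b : ℝ} (h0 : 0 ≤ b) (h1 : b ≤ d3) :
    F3 1599999 1000001 1000000 (41 / 10) b < -2 ∧ 2 < F3 1599999 1000001 1000000 (39 / 10) b := by
  have ca := CA3 (a := 39 / 10) (by norm_num) h0 h1
  have cb := ga_le_one (b / (6 - 41 / 10))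
  unfold d3 at h1
  have g1 := ga_ge_of (t := (3 - b) / (41 / 10)) (t0 := 7318 / 10000)
    (c := 806 / 1000) (by linarith) (by linarith) (by norm_num)
  have g2 := ga_ge_of (t := (3 + b) / (41 / 10)) (t0 := 7318 / 10000)
    (c := 806 / 1000) (by linarith) (by linarith) (by norm_num)
  have g3 := ga_le_of (t := (3 - b) / (39 / 10)) (t0 := 7692 / 10000)
    (c := 7927 / 10000) (by norm_num) (by linarith) (by norm_num) (by norm_num)
  have g4 := ga_le_of (t := (3 + b) / (39 / 10)) (t0 := 7692 / 10000)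
    (c := 7927 / 10000) (by norm_num) (by linarith) (by norm_num) (by norm_num)
  unfold F3
  constructor <;> linarith

lemma face_e {b : ℝ} (h0 : 0 ≤ b) (h1 : b ≤ d3) :
    F3 1 3 3 (19 / 10) b < -2 ∧ -(19 / 10) < F3 1 3 3 (16 / 10) b := by
  have ca := CA3 (a := 16 / 10) (by norm_num) h0 h1
  have cb := ga_le_one (b / (6 - 19 / 10))
  unfold d3 at h1
  have g1 := ga_ge_of (t := (3 - b) / (19 / 10)) (t0 := 158 / 100)
    (c := 53 / 100) (by linarith) (by linarith) (by norm_num)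
  have g2 := ga_ge_of (t := (3 + b) / (19 / 10)) (t0 := 158 / 100)
    (c := 53 / 100) (by linarith) (by linarith) (by norm_num)
  have g3 := ga_le_of (t := (3 - b) / (16 / 10)) (t0 := 187 / 100)
    (c := 48 / 100) (by norm_num) (by linarith) (by norm_num) (by norm_num)
  have g4 := ga_le_of (t := (3 + b) / (16 / 10)) (t0 := 187 / 100)
    (c := 48 / 100) (by norm_num) (by linarith) (by norm_num) (by norm_num)
  unfold F3
  constructor <;> linarith

lemma face_o {b : ℝ} (h0 : 0 ≤ b) (h1 : b ≤ d3) :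
    F3 5 2 2 (37 / 10) b < 19 / 10 ∧ 2 < F3 5 2 2 (31 / 10) b := by
  have ca := CA3 (a := 31 / 10) (by norm_num) h0 h1
  have cb := ga_le_one (b / (6 - 37 / 10))
  unfold d3 at h1
  have g1 := ga_ge_of (t := (3 - b) / (37 / 10)) (t0 := 811 / 1000)
    (c := 776 / 1000) (by linarith) (by linarith) (by norm_num)
  have g2 := ga_ge_of (t := (3 + b) / (37 / 10)) (t0 := 811 / 1000)
    (c := 776 / 1000) (by linarith) (by linarith) (by norm_num)
  have g3 := ga_le_of (t := (3 - b) / (31 / 10)) (t0 := 967 / 1000)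
    (c := 72 / 100) (by norm_num) (by linarith) (by norm_num) (by norm_num)
  have g4 := ga_le_of (t := (3 + b) / (31 / 10)) (t0 := 967 / 1000)
    (c := 72 / 100) (by norm_num) (by linarith) (by norm_num) (by norm_num)
  unfold F3
  constructor <;> linarith

lemma xeq {x lo hi g : ℝ} (h1 : lo ≤ x) (h2 : x ≤ hi) (hlh : lo < hi) (up : x < hi → 0 ≤ g)
    (dn : lo < x → g ≤ 0) (f1 : x = hi → 0 < g) (f2 : x = lo → g < 0) : g = 0 := by
  rcases h1.lt_or_eq with h3 | h3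
  · rcases h2.lt_or_eq with h4 | h4
    · linarith [up h4, dn h3]
    · linarith [f1 h4, dn h3]
  · linarith [f2 h3.symm, up (by linarith)]

lemma sin_bound {u l d : ℝ} (hl : 1 / 2 ≤ l) (hu : |u| ≤ d) : |u / l| ≤ 2 * d := by
  rw [abs_div, abs_of_pos (by linarith : 0 < l), div_le_iff₀ (by linarith)]
  nlinarith [abs_nonneg u]

lemma cos_diff {a1 a2 a3 a4 s1 s2 s3 s4 : ℝ} (h1 : a1 ^ 2 + s1 ^ 2 = 1) (h2 : a2 ^ 2 + s2 ^ 2 = 1)
    (h3 : a3 ^ 2 + s3 ^ 2 = 1) (h4 : a4 ^ 2 + s4 ^ 2 = 1) (p2 : 0 ≤ s2) (p3 : 0 ≤ s3)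
    (p4 : 0 ≤ s4) (l2 : s2 ≤ s1) (l3 : s3 ≤ s1) (l4 : s4 ≤ s1) :
    |(|a1| + |a2|) - (|a3| + |a4|)| ≤ 2 * s1 ^ 2 := by
  have t1 := abs_a h1
  have t2 := abs_a h2
  have t3 := abs_a h3
  have t4 := abs_a h4
  have q2 : s2 ^ 2 ≤ s1 ^ 2 := pow_le_pow_left₀ p2 l2 2
  have q3 : s3 ^ 2 ≤ s1 ^ 2 := pow_le_pow_left₀ p3 l3 2
  have q4 : s4 ^ 2 ≤ s1 ^ 2 := pow_le_pow_left₀ p4 l4 2
  rw [abs_le]
  constructor <;> linarith [t1.1, t1.2, t2.1, t2.2, t3.1, t3.2, t4.1, t4.2]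

lemma below {x0 y0 x1 y1 A : ℝ} (h1 : x0 < x1) (h2 : x1 < A) (h3 : 0 ≤ y1)
    (h4 : y1 / dd A 0 x1 y1 < (y0 - y1) / dd x0 y0 x1 y1) : y1 * (A - x0) < y0 * (A - x1) := by
  have p0 : 0 < dd A 0 x1 y1 := dd_pos h2.ne
  have p1 : 0 < dd x0 y0 x1 y1 := dd_pos h1.ne'
  have q0 := dd_sq A 0 x1 y1
  have q1 := dd_sq x0 y0 x1 y1
  have := (tan_lt (c := (x1 - x0) / dd x0 y0 x1 y1) (s := (y0 - y1) / dd x0 y0 x1 y1)
    (c' := (A - x1) / dd A 0 x1 y1) (s' := y1 / dd A 0 x1 y1) (by field_simp; linarith)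
    (by field_simp; linarith) (div_pos (by linarith) p1)
    (div_pos (by linarith) p0) (div_nonneg h3 p0.le) h4).2
  rw [div_mul_div_comm, div_mul_div_comm, div_lt_div_iff_of_pos_right (by positivity)] at this
  linarith

lemma far3 {x y x' y' : ℝ} (b1 : 16 / 10 ≤ x) (b2 : x ≤ 41 / 10) (b3 : 16 / 10 ≤ x')
    (b4 : x' ≤ 41 / 10) (p1 : y' < y) (p2 : 0 < y') (p3 : y ≤ d3)
    (h : 1 / 5 ≤ |x - x'| ∨ |x - x'| ≤ (y - y') / 4) :
    x * (3 - y') ≠ x' * (3 - y) ∧ x * (3 + y') ≠ x' * (3 + y) := by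
  unfold d3 at p3
  rcases h with h | h
  · constructor <;> intro h0 <;> rcases le_abs.mp h with h2 | h2 <;> nlinarith
  · have hc2 := abs_le.mp h
    constructor <;> intro h0 <;> nlinarith [hc2.1, hc2.2]

variable {n : ℕ} {x y : ℕ → ℝ}

lemma Pre3.x0 (g : Pre3 n x y) : x 0 = 6 := by
  have := g.hx 0; simp [xl3, xh3] at this; linarith [this.1, this.2]
lemma Pre3.y0 (g : Pre3 n x y) : y 0 = 0 := by
  have := g.hy 0; simp [yh3] at this; linarith [this.1, this.2]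
lemma Pre3.xn (g : Pre3 n x y) : x (n + 1) = 6 := by
  have := g.hx (n + 1); simp [xl3, xh3] at this; linarith [this.1, this.2]
lemma Pre3.yn (g : Pre3 n x y) : y (n + 1) = 0 := by
  have := g.hy (n + 1); simp [yh3] at this; linarith [this.1, this.2]

lemma Pre3.hy' (g : Pre3 n x y) (k : ℕ) : 0 ≤ y k ∧ y k ≤ d3 := by
  have := g.hy k
  unfold yh3 at this
  split_ifs at this
  · exact ⟨this.1, by linarith [this.2, d3_pos]⟩
  · exact this

lemma Pre3.hx1 (g : Pre3 n x y) : 39 / 10 ≤ x 1 ∧ x 1 ≤ 41 / 10 := by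
  have := g.hx 1
  have h1 : ¬ (1 = 0 ∨ n < 1) := by have := g.hn; omega
  simpa only [xl3, xh3, if_neg h1, if_true] using this

lemma Pre3.hxe (g : Pre3 n x y) (k : ℕ) (k1 : 2 ≤ k) (k2 : k ≤ n) (k3 : k % 2 = 0) :
    16 / 10 ≤ x k ∧ x k ≤ 19 / 10 := by
  have := g.hx k
  have h1 : ¬ (k = 0 ∨ n < k) := by omega
  have h2 : k ≠ 1 := by omega
  simpa only [xl3, xh3, if_neg h1, if_neg h2, if_pos k3] using this

lemma Pre3.hxo (g : Pre3 n x y) (k : ℕ) (k1 : 2 ≤ k) (k2 : k ≤ n) (k3 : k % 2 = 1) :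
    31 / 10 ≤ x k ∧ x k ≤ 37 / 10 := by
  have := g.hx k
  have h1 : ¬ (k = 0 ∨ n < k) := by omega
  have h2 : k ≠ 1 := by omega
  have h3 : ¬ k % 2 = 0 := by omega
  simpa only [xl3, xh3, if_neg h1, if_neg h2, if_neg h3] using this

lemma Pre3.hxx (g : Pre3 n x y) (k : ℕ) (k1 : 1 ≤ k) (k2 : k ≤ n) :
    16 / 10 ≤ x k ∧ x k ≤ 41 / 10 := by
  rcases k1.lt_or_eq with h | h
  · rcases Nat.mod_two_eq_zero_or_one k with h2 | h2
    · have := g.hxe k h k2 h2; constructor <;> linarith [this.1, this.2]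
    · have := g.hxo k h k2 h2; constructor <;> linarith [this.1, this.2]
  · subst h; constructor <;> linarith [g.hx1.1, g.hx1.2]

lemma Pre3.gE (g : Pre3 n x y) (k : ℕ) (k1 : 2 ≤ k) (k2 : k ≤ n) (k3 : k % 2 = 0) :
    x k + 1 / 2 ≤ x (k + 1) := by
  have := g.hxe k k1 k2 k3
  rcases k2.lt_or_eq with h | h
  · linarith [(g.hxo (k + 1) (by omega) h (by omega)).1, this.2]
  · rw [h] at this ⊢; rw [g.xn]; linarith [this.2]

lemma Pre3.gO (g : Pre3 n x y) (k : ℕ) (k2 : k ≤ n) (k3 : k = 0 ∨ k % 2 = 1) :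
    x (k + 1) + 1 / 2 ≤ x k := by
  have hev := g.hev
  rcases k3 with h | h
  · subst h; rw [g.x0]; linarith [g.hx1.2]
  · have := g.hxe (k + 1) (by omega) (by omega) (by omega)
    by_cases h1 : k = 1
    · subst h1; linarith [g.hx1.1, this.2]
    · linarith [(g.hxo k (by omega) k2 h).1, this.2]

lemma Pre3.hg (g : Pre3 n x y) (k : ℕ) (k2 : k ≤ n) : 1 / 2 ≤ |x (k + 1) - x k| := by
  by_cases h : k = 0 ∨ k % 2 = 1
  · have := g.gO k k2 h
    rw [abs_of_neg (by linarith)]; linarith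
  · have := g.gE k (by omega) k2 (by omega)
    rw [abs_of_pos (by linarith)]; linarith

lemma Pre3.hl (g : Pre3 n x y) (k : ℕ) (k2 : k ≤ n) : 1 / 2 ≤ lA x y k :=
  (g.hg k k2).trans (lA_ge x y k)

lemma Pre3.has (g : Pre3 n x y) (k : ℕ) (k2 : k ≤ n) : aA x y k ^ 2 + sA x y k ^ 2 = 1 :=
  as_sq (by linarith [g.hl k k2])

lemma Pre3.hsb (g : Pre3 n x y) (k : ℕ) (k2 : k ≤ n) : |sA x y k| ≤ 2 * d3 := by
  apply sin_bound (g.hl k k2)
  rw [abs_le]; constructor <;> linarith [g.hy' k, g.hy' (k + 1)]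

lemma Pre3.hc (g : Pre3 n x y) (k : ℕ) (k2 : k ≤ n) :
    999 / 1000 ≤ |aA x y k| ∧ |aA x y k| ≤ 1 := by
  have h1 := abs_a (g.has k k2)
  have h2 := g.hsb k k2
  have h3 : sA x y k ^ 2 ≤ 1 / 1000 := by
    rw [← sq_abs]; unfold d3 at h2; nlinarith [abs_nonneg (sA x y k)]
  exact ⟨by linarith [h1.1], h1.2⟩

lemma Pre3.aE (g : Pre3 n x y) (k : ℕ) (k1 : 2 ≤ k) (k2 : k ≤ n) (k3 : k % 2 = 0) :
    aA x y k = |aA x y k| := by
  rw [abs_of_nonneg]
  exact div_nonneg (by linarith [g.gE k k1 k2 k3]) (by linarith [g.hl k k2])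

lemma Pre3.aO (g : Pre3 n x y) (k : ℕ) (k2 : k ≤ n) (k3 : k = 0 ∨ k % 2 = 1) :
    aA x y k = -|aA x y k| := by
  rw [abs_of_nonpos, neg_neg]
  exact div_nonpos_of_nonpos_of_nonneg (by linarith [g.gO k k2 k3]) (by linarith [g.hl k k2])

lemma Pre3.sP (g : Pre3 n x y) (k : ℕ) (k2 : k ≤ n) (h : y (k + 1) ≤ y k) : 0 ≤ sA x y k :=
  div_nonneg (by linarith) (by linarith [g.hl k k2])

lemma Pre3.sN (g : Pre3 n x y) (k : ℕ) (k2 : k ≤ n) (h : y k ≤ y (k + 1)) : sA x y k ≤ 0 :=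
  div_nonpos_of_nonpos_of_nonneg (by linarith) (by linarith [g.hl k k2])

lemma Pre3.hX (g : Pre3 n x y) (k : ℕ) (k2 : k < n) :
    fx (L3 (k + 1)) (x (k + 1)) (y (k + 1)) = aA x y k - aA x y (k + 1) := by
  obtain ⟨up, dn, -, -⟩ := g.hk k k2
  have h1 : ¬ (k + 1 = 0 ∨ n < k + 1) := by omega
  have b1 := g.hy' (k + 1)
  have b2 := g.hxx (k + 1) (by omega) k2
  have c1 := g.hc k k2.le
  have c2 := g.hc (k + 1) k2
  have q := g.hx (k + 1)
  suffices h : aA x y k - aA x y (k + 1) - fx (L3 (k + 1)) (x (k + 1)) (y (k + 1)) = 0 by linarith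
  refine xeq q.1 q.2 ?_ up dn ?_ ?_
  · unfold xl3 xh3; rw [if_neg h1, if_neg h1]; split_ifs <;> norm_num
  all_goals
    unfold L3
    rw [fx3 _ _ _ _ (by linarith [b2.1]) (by linarith [b2.2])]
    simp only [xl3, xh3, if_neg h1, wa, wb, wc]
    intro h
    have fk := face_k b1.1 b1.2
    have fe := face_e b1.1 b1.2
    have fo := face_o b1.1 b1.2
    rw [h]
    split_ifs with h2 h5
    · have c3 := abs_le.mp c1.2
      have c4 := abs_le.mp c2.2
      push_cast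
      linarith [fk.1, fk.2]
    · have c3 := g.aO k k2.le (by omega)
      have c4 := g.aE (k + 1) (by omega) k2 h5
      push_cast
      linarith [fe.1, fe.2]
    · have c3 := g.aE k (by omega) k2.le (by omega)
      have c4 := g.aO (k + 1) k2 (by omega)
      push_cast
      linarith [fo.1, fo.2]

lemma Pre3.hY1 (g : Pre3 n x y) : 0 < y 1 ∧ fy (L3 1) (x 1) (y 1) = sA x y 1 - sA x y 0 := by
  have hn := g.hn
  obtain ⟨-, -, up, dn⟩ := g.hk 0 (by omega)
  have h1 : ¬ (1 = 0 ∨ n < 1) := by omega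
  simp only [zero_add, yh3, if_neg h1] at up dn
  have b1 := g.hy' 1
  have hx1 := g.hx1
  have hd := d3_pos
  obtain ⟨r1, r2, r3⟩ := RA3 (a := x 1) (by linarith [hx1.1]) hx1.2 b1.1 b1.2
  have e := fy3 (wa 1) (wb 1) (wc 1) (x 1) (y 1)
  have pb := pair_bounds (A := 0) (B := 3) (a := x 1) (b := y 1) (by norm_num) b1.1
    (by unfold d3 at b1; linarith [b1.2]) 3 (by norm_num) r3
  unfold L3 at up dn ⊢
  simp only [wa, wb, wc, if_true] at e up dn ⊢
  push_cast at e up dn ⊢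
  have h0 : 0 < y 1 := by
    rcases b1.1.lt_or_eq with h | h
    · exact h
    · exfalso
      have t1 := up (by linarith)
      have t2 := g.sN 1 (by omega) (by linarith [g.hy' 2])
      have t3 := g.sP 0 (by omega) (by linarith [g.hy' 0])
      have t4 : 0 < (3 - y 1) / dd 0 3 (x 1) (y 1) := div_pos (by linarith) (by linarith)
      have t5 : y 1 / dd 6 0 (x 1) (y 1) = 0 := by rw [← h]; simp
      linarith [pb.2]
  refine ⟨h0, ?_⟩
  rcases b1.2.lt_or_eq with h | h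
  · linarith [up h, dn h0]
  · exfalso
    have t1 := dn h0
    have t2 := g.sP 1 (by omega) (by linarith [g.hy' 2])
    have t3 := g.sN 0 (by omega) (by linarith [g.hy' 0])
    have t4 : (3 - y 1) / dd 0 3 (x 1) (y 1) ≤ 1 := by
      rw [div_le_one (by linarith)]; linarith
    have t5 : y 1 / 4 ≤ y 1 / dd 6 0 (x 1) (y 1) :=
      div_le_div_of_nonneg_left h0.le (by linarith [hx1.2]) (by linarith [hx1.1])
    unfold d3 at h
    linarith [pb.1]

lemma Pre3.hGb (g : Pre3 n x y) (k : ℕ) (k1 : 2 ≤ k) (k2 : k ≤ n) :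
    y k / dd 6 0 (x k) (y k) ≤ - fy (L3 k) (x k) (y k) ∧
      y k / 6 ≤ - fy (L3 k) (x k) (y k) ∧ - fy (L3 k) (x k) (y k) ≤ 6 * y k := by
  have b1 := g.hy' k
  have b2 := g.hxx k (by omega) k2
  obtain ⟨r1, r2, r3⟩ := RA3 b2.1 b2.2 b1.1 b1.2
  have e := fy3 (wa k) (wb k) (wc k) (x k) (y k)
  have pb := pair_bounds (A := 0) (B := 3) (a := x k) (b := y k) (by norm_num) b1.1
    (by unfold d3 at b1; linarith [b1.2]) 3 (by norm_num) r3
  have t1 : y k / 6 ≤ y k / dd 6 0 (x k) (y k) :=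
    div_le_div_of_nonneg_left b1.1 (by linarith) (by linarith)
  have t2 : y k / dd 6 0 (x k) (y k) ≤ y k / (19 / 10) :=
    div_le_div_of_nonneg_left b1.1 (by norm_num) (by linarith)
  have h2 : k ≠ 1 := by omega
  unfold L3
  rw [e]
  simp only [wa, wb, wc, if_neg h2]
  split_ifs <;> push_cast <;> refine ⟨?_, ?_, ?_⟩ <;> linarith [pb.1, pb.2, b1.1]

lemma Pre3.hY (g : Pre3 n x y) (k : ℕ) (k1 : 1 ≤ k) (k2 : k < n) :
    sA x y k = sA x y (k + 1) + - fy (L3 (k + 1)) (x (k + 1)) (y (k + 1)) := by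
  obtain ⟨-, -, up, dn⟩ := g.hk k k2
  have h1 : ¬ (k + 1 = 0 ∨ n < k + 1) := by omega
  simp only [yh3, if_neg h1] at up dn
  obtain ⟨-, g1, g2⟩ := g.hGb (k + 1) (by omega) k2
  refine yeq d3_pos (by norm_num) (g.hy' (k + 1)).1 (g.hy' (k + 1)).2
    (fun h => by linarith [up h])
    (fun h => by linarith [dn h]) (fun h => ⟨g.sN k k2.le (by linarith [g.hy' k]),
      g.sP (k + 1) k2 (by linarith [g.hy' (k + 1 + 1)])⟩)
    (fun h => ⟨g.sP k k2.le (by linarith [g.hy' k]),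
      g.sN (k + 1) k2 (by linarith [g.hy' (k + 1 + 1)])⟩) g1 g2

lemma Pre3.mono (g : Pre3 n x y) :
    (∀ k, 1 ≤ k → k ≤ n → 0 < y k ∧ 0 < sA x y k) ∧
    (∀ k l, 1 ≤ k → k < l → l ≤ n + 1 → y l < y k) ∧
    (∀ k l, 1 ≤ k → k < l → l ≤ n → sA x y l < sA x y k) ∧
    (∀ k, 1 ≤ k → k < n → sA x y k ≤ (2 + 6 * (1 + 2 * 6)) * (y (k + 1) - y (k + 2))) :=
  seq_mono 1 n y (sA x y) (lA x y) 6 (by norm_num)
    (fun k _ k2 => ⟨rfl, g.hl k k2⟩) g.yn g.hY1.1 (fun k _ _ => (g.hy' k).1)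
    (fun k k1 k2 => by
      have := g.hY k k1 k2
      obtain ⟨-, g1, g2⟩ := g.hGb (k + 1) (by omega) k2
      constructor <;> linarith)

lemma Pre3.hA1 (g : Pre3 n x y) (k : ℕ) (k1 : 1 ≤ k) (k2 : k < n) :
    y (k + 1) * (6 - x k) < y k * (6 - x (k + 1)) := by
  obtain ⟨m1, m2, -, -⟩ := g.mono
  have p1 := (m1 (k + 1) (by omega) k2)
  have p2 := m2 k (k + 1) k1 (by omega) (by omega)
  have b1 := g.hxx k k1 k2.le
  have b2 := g.hxx (k + 1) (by omega) k2
  clear m1 m2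
  rcases Nat.mod_two_eq_zero_or_one k with h | h
  · have g0 := g.gE k (by omega) k2.le h
    apply below (by linarith) (by linarith [b2.2]) p1.1.le
    have := g.hY k k1 k2
    have := (g.hGb (k + 1) (by omega) k2).1
    change _ < sA x y k
    linarith [p1.2]
  · have g0 := g.gO k k2.le (Or.inr h)
    nlinarith [p1.1]

lemma Pre3.hA (g : Pre3 n x y) (k l : ℕ) (k1 : 1 ≤ k) (kl : k < l) :
    l ≤ n → y l * (6 - x k) < y k * (6 - x l) := by
  induction l, kl using Nat.le_induction with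
  | base => intro h; exact g.hA1 k k1 h
  | succ l kl ih =>
    intro h
    have i1 := ih (by omega)
    have i2 := g.hA1 l (by omega) h
    have b1 := g.hxx k k1 (by omega)
    have b2 := g.hxx l (by omega) (by omega)
    have b3 := g.hxx (l + 1) (by omega) h
    have u1 : 0 < 6 - x k := by linarith [b1.2]
    have u2 : 0 < 6 - x l := by linarith [b2.2]
    have u3 : 0 < 6 - x (l + 1) := by linarith [b3.2]
    rw [← div_lt_div_iff₀ u2 u1] at i1
    rw [← div_lt_div_iff₀ u3 u2] at i2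
    rw [← div_lt_div_iff₀ u3 u1]
    linarith

lemma Pre3.hdiff (g : Pre3 n x y) (k l : ℕ) (k1 : 1 ≤ k) (kl : k < l) (l2 : l < n) :
    |(|aA x y k| + |aA x y (k + 1)|) - (|aA x y l| + |aA x y (l + 1)|)| ≤
      320 * d3 * (y (k + 1) - y (l + 1)) := by
  obtain ⟨m1, m2, m3, m4⟩ := g.mono
  have s1 := m4 k k1 (by omega)
  have s2 : y (l + 1) ≤ y (k + 2) := by
    rcases (show k + 2 ≤ l + 1 by omega).lt_or_eq with h | h
    · exact (m2 _ _ (by omega) h (by omega)).le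
    · rw [h]
  have s3 := abs_le.mp (g.hsb k (by omega))
  have s4 := (m1 k k1 (by omega)).2
  have s5 : sA x y k ^ 2 ≤ 2 * d3 * (80 * (y (k + 1) - y (l + 1))) := by
    rw [sq]; exact mul_le_mul s3.2 (by linarith) s4.le (by linarith [d3_pos])
  have := cos_diff (g.has k (by omega)) (g.has (k + 1) (by omega)) (g.has l (by omega))
    (g.has (l + 1) l2) (m1 (k + 1) (by omega) (by omega)).2.le (m1 l (by omega) (by omega)).2.le
    (m1 (l + 1) (by omega) l2).2.le (m3 k (k + 1) k1 (by omega) (by omega)).le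
    (m3 k l k1 kl (by omega)).le (m3 k (l + 1) k1 (by omega) l2).le
  linarith

lemma Pre3.cone (g : Pre3 n x y) (k l : ℕ) (k1 : 1 ≤ k) (kl : k < l) (l2 : l < n)
    (hp : k % 2 = l % 2) : |x (k + 1) - x (l + 1)| ≤ (y (k + 1) - y (l + 1)) / 4 := by
  have e1 := g.hX k (by omega)
  have e2 := g.hX l l2
  have hdiff := g.hdiff k l k1 kl l2
  have b1 := g.hxx (k + 1) (by omega) (by omega)
  have b2 := g.hxx (l + 1) (by omega) l2
  have p1 := g.mono.2.1 (k + 1) (l + 1) (by omega) (by omega) (by omega)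
  have p2 := (g.mono.1 (l + 1) (by omega) l2).1
  have p3 := (g.hy' (k + 1)).2
  unfold L3 at e1 e2
  rw [fx3 _ _ _ _ (by linarith [b1.1]) (by linarith [b1.2])] at e1
  rw [fx3 _ _ _ _ (by linarith [b2.1]) (by linarith [b2.2])] at e2
  have n1 : k + 1 ≠ 1 := by omega
  have n2 : l + 1 ≠ 1 := by omega
  rcases Nat.mod_two_eq_zero_or_one (k + 1) with h | h
  · have h' : (l + 1) % 2 = 0 := by omega
    simp only [wa, wb, wc, if_neg n1, if_neg n2, if_pos h, if_pos h'] at e1 e2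
    have t1 := g.hxe (k + 1) (by omega) (by omega) h
    have t2 := g.hxe (l + 1) (by omega) l2 h'
    apply cone3 (α := ((1 : ℕ) : ℝ)) (β := ((3 : ℕ) : ℝ)) (by norm_num) (by norm_num)
      (by norm_num) (by norm_num) t1.1 (by linarith [t1.2]) t2.1 (by linarith [t2.2]) p2 p1 p3
    rw [e1, e2, g.aO k (by omega) (by omega), g.aE (k + 1) (by omega) (by omega) h,
      g.aO l (by omega) (by omega), g.aE (l + 1) (by omega) l2 h', ← abs_neg]
    convert hdiff using 2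
    ring
  · have h' : ¬ (l + 1) % 2 = 0 := by omega
    have h'' : ¬ (k + 1) % 2 = 0 := by omega
    simp only [wa, wb, wc, if_neg n1, if_neg n2, if_neg h', if_neg h''] at e1 e2
    have t1 := g.hxo (k + 1) (by omega) (by omega) h
    have t2 := g.hxo (l + 1) (by omega) l2 (by omega)
    apply cone3 (α := ((5 : ℕ) : ℝ)) (β := ((2 : ℕ) : ℝ)) (by norm_num) (by norm_num)
      (by norm_num) (by norm_num) (by linarith [t1.1]) t1.2 (by linarith [t2.1]) t2.2 p2 p1 p3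
    rw [e1, e2, g.aE k (by omega) (by omega) (by omega), g.aO (k + 1) (by omega) (by omega),
      g.aE l (by omega) (by omega) (by omega), g.aO (l + 1) (by omega) (by omega)]
    convert hdiff using 2
    ring

lemma Pre3.hB (g : Pre3 n x y) (k l : ℕ) (k1 : 1 ≤ k) (kl : k < l) (l2 : l ≤ n) :
    x k * (3 - y l) ≠ x l * (3 - y k) ∧ x k * (3 + y l) ≠ x l * (3 + y k) := by
  have b1 := g.hxx k k1 (by omega)
  have b2 := g.hxx l (by omega) l2
  apply far3 b1.1 b1.2 b2.1 b2.2 (g.mono.2.1 k l k1 kl (by omega))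
    (g.mono.1 l (by omega) l2).1 (g.hy' k).2
  by_cases hsame : 2 ≤ k ∧ k % 2 = l % 2
  · right
    obtain ⟨k, rfl⟩ : ∃ m, k = m + 1 := ⟨k - 1, by omega⟩
    obtain ⟨l, rfl⟩ : ∃ m, l = m + 1 := ⟨l - 1, by omega⟩
    exact g.cone k l (by omega) (by omega) l2 (by omega)
  · left
    have hx1 := g.hx1
    by_cases h1 : k = 1
    · subst h1
      rcases Nat.mod_two_eq_zero_or_one l with h | h
      · have := g.hxe l (by omega) l2 h
        rw [abs_of_pos (by linarith [hx1.1])]; linarith [hx1.1]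
      · have := g.hxo l (by omega) l2 h
        rw [abs_of_pos (by linarith [hx1.1])]; linarith [hx1.1]
    · rcases Nat.mod_two_eq_zero_or_one l with h | h
      · have t1 := g.hxe l (by omega) l2 h
        have t2 := g.hxo k (by omega) (by omega) (by omega)
        rw [abs_of_pos (by linarith)]; linarith
      · have t1 := g.hxo l (by omega) l2 h
        have t2 := g.hxe k (by omega) (by omega) (by omega)
        rw [abs_of_neg (by linarith)]; linarith

theorem exists_good3 (n : ℕ) (hn : 2 ≤ n) (hev : n % 2 = 0) : ∃ x y, Good3 n x y := by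
  obtain ⟨x, y, g⟩ := exists_pre3 n hn hev
  obtain ⟨m1, m2, m3, -⟩ := g.mono
  refine ⟨x, y, g.x0, g.y0, g.xn, g.yn, g.hxx, fun k k1 k2 => ⟨(m1 k k1 k2).1, (g.hy' k).2⟩,
    g.hg, ?_, m2, fun k l k1 kl l2 => ⟨(m1 l (by omega) l2).2, m3 k l k1 kl l2⟩, g.hA, g.hB⟩
  intro k k2
  refine ⟨g.hX k k2, ?_⟩
  rcases Nat.eq_zero_or_pos k with h | h
  · subst h; exact g.hY1.2
  · linarith [g.hY k h k2]

end

end Pool.Agent.H18.Net
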