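import Pool.Agent.H18.Net4
import Pool.Agent.H18.Net8

set_option autoImplicit false

namespace Pool.Agent.H18.Net

open Set

noncomputable section

/-- half width of the rectangle -/
def r3 : ℝ := √3
/-- half height of the rectangle -/
def b4 : ℝ := 200001 / 200000
/-- abscissa of the horizontal virtual terminals -/
def e4 : ℝ := r3 * (1 + b4)
/-- ordinate of the vertical virtual terminals -/
def h4 : ℝ := 800001 / 200000

lemma r3_sq : r3 ^ 2 = 3 := Real.sq_sqrt (by norm_num)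
lemma r3_bd : 1732 / 1000 < r3 ∧ r3 < 17321 / 10000 := by
  have h1 := r3_sq
  have h2 : 0 ≤ r3 := Real.sqrt_nonneg _
  constructor <;> nlinarith
lemma e4_bd : 3464 / 1000 < e4 ∧ e4 < 3465 / 1000 := by
  have := r3_bd
  unfold e4 b4
  constructor <;> linarith [this.1, this.2]

lemma dd_sg {s : ℝ} (hs : s = 1 ∨ s = -1) (A B x y : ℝ) : dd (s * A) B x y = dd A B (s * x) y := by
  unfold dd
  congr 1
  rcases hs with h | h <;> rw [h] <;> ring

/-- terminals of a bouncing vertex -/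
def Lc (s : ℝ) : List (ℝ × ℝ × ℝ) :=
  [(1, s * e4, 0), (1, s * r3, b4), (1, s * r3, -b4), (1, s * 0, h4), (1, s * 0, -h4)]
/-- terminals of the first vertex -/
def Lk : List (ℝ × ℝ × ℝ) := [(1, r3, b4), (1, -r3, b4), (1, 0, -h4)]
/-- terminals -/
def L4 (k : ℕ) : List (ℝ × ℝ × ℝ) := if k = 1 then Lk else Lc (sg k)

/-- horizontal pull in tangent form -/
def F4 (X y : ℝ) : ℝ := ga (y / (e4 - X)) + (ga ((b4 - y) / (r3 - X)) + ga ((b4 + y) / (r3 - X)))
  - (ga ((h4 - y) / X) + ga ((h4 + y) / X))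

lemma fx4 {s : ℝ} (hs : s = 1 ∨ s = -1) {x : ℝ} (y : ℝ) (h0 : 0 < s * x) (h1 : s * x < 1) :
    fx (Lc s) x y = s * F4 (s * x) y := by
  have k : ∀ A B : ℝ, (s * A - x) / dd (s * A) B x y = s * ((A - s * x) / dd A B (s * x) y) := by
    intro A B
    rw [dd_sg hs]
    rcases hs with h | h <;> rw [h] <;> ring
  simp only [fx, Lc, List.map_cons, List.map_nil, List.sum_cons, List.sum_nil, add_zero, one_mul,
    k]
  have := r3_bd
  have := e4_bd
  rw [cos_eq (by linarith), cos_eq (by linarith), cos_eq (by linarith), cos_eq' h0, cos_eq' h0, F4,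
    ← ga_neg (y / (e4 - s * x)), ← ga_neg ((b4 + y) / (r3 - s * x)), ← ga_neg ((h4 + y) / (s * x))]
  have e1 : (0 - y) / (e4 - s * x) = -(y / (e4 - s * x)) := by ring
  have e2 : (-b4 - y) / (r3 - s * x) = -((b4 + y) / (r3 - s * x)) := by ring
  have e3 : (-h4 - y) / (s * x - 0) = -((h4 + y) / (s * x)) := by ring
  rw [e1, e2, e3, sub_zero]
  ring

lemma fy4 {s : ℝ} (hs : s = 1 ∨ s = -1) {x y : ℝ} (h0 : 7 / 10 ≤ s * x) (h1 : s * x ≤ 85 / 100)
    (y0 : 0 ≤ y) (y1 : y ≤ d3) :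
    y / dd (s * e4) 0 x y ≤ - fy (Lc s) x y ∧ y / 3 ≤ - fy (Lc s) x y ∧
      - fy (Lc s) x y ≤ 3 * y := by
  simp only [fy, Lc, List.map_cons, List.map_nil, List.sum_cons, List.sum_nil, add_zero, one_mul,
    dd_sg hs]
  generalize s * x = X at *
  have hr := r3_bd
  have he := e4_bd
  unfold d3 at y1
  have s0 := dd_sq e4 0 X y
  have s1 := dd_sq r3 b4 X y
  have s2 := dd_sq 0 h4 X y
  have p0 := dd_nonneg e4 0 X y
  have p1 := dd_nonneg r3 b4 X y
  have p2 := dd_nonneg 0 h4 X y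
  have l0 : 2 ≤ dd e4 0 X y := by nlinarith
  have u0 : dd e4 0 X y ≤ 3 := by nlinarith
  have l1 : 5 / 4 ≤ dd r3 b4 X y := by unfold b4 at *; nlinarith
  have l2 : 3 ≤ dd 0 h4 X y := by unfold h4 at *; nlinarith
  have q1 := pair_bounds (A := r3) (B := b4) (a := X) (b := y) (by norm_num [b4]) y0
    (by unfold b4; linarith) (5 / 4) (by norm_num) l1
  have q2 := pair_bounds (A := 0) (B := h4) (a := X) (b := y) (by norm_num [h4]) y0
    (by unfold h4; linarith) 3 (by norm_num) l2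
  have t1 : y / 3 ≤ y / dd e4 0 X y := div_le_div_of_nonneg_left y0 (by linarith) u0
  have t2 : y / dd e4 0 X y ≤ y / 2 := div_le_div_of_nonneg_left y0 (by norm_num) l0
  have e : -((0 - y) / dd e4 0 X y + ((b4 - y) / dd r3 b4 X y + ((-b4 - y) / dd r3 (-b4) X y +
      ((h4 - y) / dd 0 h4 X y + (-h4 - y) / dd 0 (-h4) X y)))) = y / dd e4 0 X y +
      ((b4 + y) / dd r3 (-b4) X y - (b4 - y) / dd r3 b4 X y) +
      ((h4 + y) / dd 0 (-h4) X y - (h4 - y) / dd 0 h4 X y) := by ring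
  rw [e]
  refine ⟨?_, ?_, ?_⟩ <;> linarith [q1.1, q1.2, q2.1, q2.2]

lemma face4 {y : ℝ} (y0 : 0 ≤ y) (y1 : y ≤ d3) :
    F4 (85 / 100) y < 195 / 100 ∧ 2 < F4 (7 / 10) y := by
  have hr := r3_bd
  have he := e4_bd
  unfold d3 at y1
  have g0 := ga_le_one (y / (e4 - 85 / 100))
  have g0' := ga_ge_of (t := y / (e4 - 7 / 10)) (t0 := 1 / 100) (c := 999 / 1000)
    (div_nonneg y0 (by linarith)) ((div_le_self y0 (by linarith)).trans (by linarith))
    (by norm_num)
  have g1 := ga_le_of (t := (b4 - y) / (r3 - 85 / 100)) (t0 := 113 / 100) (c := 664 / 1000)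
    (by norm_num) (by rw [le_div_iff₀ (by linarith)]; unfold b4; linarith) (by norm_num)
    (by norm_num)
  have g2 := ga_le_of (t := (b4 + y) / (r3 - 85 / 100)) (t0 := 113 / 100) (c := 664 / 1000)
    (by norm_num) (by rw [le_div_iff₀ (by linarith)]; unfold b4; linarith) (by norm_num)
    (by norm_num)
  have g3 := ga_ge_of (t := (h4 - y) / (85 / 100)) (t0 := 471 / 100) (c := 207 / 1000)
    (by unfold h4; linarith) (by unfold h4; linarith) (by norm_num)
  have g4 := ga_ge_of (t := (h4 + y) / (85 / 100)) (t0 := 471 / 100) (c := 207 / 1000)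
    (by unfold h4; linarith) (by unfold h4; linarith) (by norm_num)
  have g5 := ga_ge_of (t := (b4 - y) / (r3 - 7 / 10)) (t0 := 97 / 100) (c := 717 / 1000)
    (div_nonneg (by unfold b4; linarith) (by linarith))
    (by rw [div_le_iff₀ (by linarith)]; unfold b4; linarith) (by norm_num)
  have g6 := ga_ge_of (t := (b4 + y) / (r3 - 7 / 10)) (t0 := 97 / 100) (c := 717 / 1000)
    (div_nonneg (by unfold b4; linarith) (by linarith))
    (by rw [div_le_iff₀ (by linarith)]; unfold b4; linarith) (by norm_num)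
  have g7 := ga_le_of (t := (h4 - y) / (7 / 10)) (t0 := 57 / 10) (c := 173 / 1000)
    (by norm_num) (by unfold h4; linarith) (by norm_num) (by norm_num)
  have g8 := ga_le_of (t := (h4 + y) / (7 / 10)) (t0 := 57 / 10) (c := 173 / 1000)
    (by norm_num) (by unfold h4; linarith) (by norm_num) (by norm_num)
  unfold F4
  constructor <;> linarith

lemma pair_small {B u y y' : ℝ} (hu : 7 / 10 ≤ u) (c0 : 0 < y') (c1 : y' < y) (c2 : y ≤ d3) :
    |ga ((B - y) / u) + ga ((B + y) / u) - (ga ((B - y') / u) + ga ((B + y') / u))| ≤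
      5 * d3 * (y - y') := by
  have u0 : 0 < u := by linarith
  have g3 := ga_pair (B / u) (s := y / u) (s' := y' / u) (div_nonneg c0.le u0.le)
    (div_le_div_of_nonneg_right c1.le u0.le)
  rw [← sub_div, ← add_div, ← sub_div, ← add_div, ← sub_div] at g3
  refine g3.trans ?_
  have t1 : y / u ≤ d3 * (3 / 2) := by
    rw [div_le_iff₀ u0]; nlinarith [d3_pos]
  have t2 : (y - y') / u ≤ (y - y') * (3 / 2) := by
    rw [div_le_iff₀ u0]; nlinarith
  have t3 : 0 ≤ (y - y') / u := div_nonneg (by linarith) u0.le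
  have t4 := mul_le_mul t1 t2 t3 (by linarith [d3_pos])
  nlinarith [mul_pos d3_pos (sub_pos.mpr c1)]

lemma cone4 {x y x' y' : ℝ} (x1 : 7 / 10 ≤ x) (x2 : x ≤ 85 / 100) (x1' : 7 / 10 ≤ x')
    (x2' : x' ≤ 85 / 100) (c0 : 0 < y') (c1 : y' < y) (c2 : y ≤ d3)
    (h : |F4 x y - F4 x' y'| ≤ 92 * d3 * (y - y')) : |x - x'| ≤ (y - y') / 10 := by
  have hr := r3_bd
  have he := e4_bd
  have p1 := abs_le.mp (pair_small (B := b4) (u := r3 - x) (by linarith) c0 c1 c2)
  have p2 := abs_le.mp (pair_small (B := h4) (u := x) x1 c0 c1 c2)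
  unfold d3 at c2 h p1 p2
  have mono : ∀ a b : ℝ, 7 / 10 ≤ a → a ≤ b → b ≤ 85 / 100 →
      F4 b y' + (b - a) * (3 / 100) ≤ F4 a y' := by
    intro a b h1 h2 h3
    have a0 : 0 < a := by linarith
    have b0 : 0 < b := by linarith
    have ua : 0 < r3 - a := by linarith
    have ub : 0 < r3 - b := by linarith
    have g1 : ga (y' / (e4 - b)) ≤ ga (y' / (e4 - a)) :=
      ga_anti (div_nonneg c0.le (by linarith))
        (div_le_div_of_nonneg_left c0.le (by linarith) (by linarith))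
    have g2 : ga ((h4 - y') / a) ≤ ga ((h4 - y') / b) :=
      ga_anti (div_nonneg (by unfold h4; linarith) b0.le)
        (div_le_div_of_nonneg_left (by unfold h4; linarith) a0 h2)
    have g2' : ga ((h4 + y') / a) ≤ ga ((h4 + y') / b) :=
      ga_anti (div_nonneg (by unfold h4; linarith) b0.le)
        (div_le_div_of_nonneg_left (by unfold h4; linarith) a0 h2)
    have g4 : ga ((b4 - y') / (r3 - b)) ≤ ga ((b4 - y') / (r3 - a)) :=
      ga_anti (div_nonneg (by unfold b4; linarith) ua.le)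
        (div_le_div_of_nonneg_left (by unfold b4; linarith) ub (by linarith))
    have t1 : (b4 + y') / (r3 - a) + (b - a) * (3 / 4) ≤ (b4 + y') / (r3 - b) := by
      have e : (b4 + y') / (r3 - b) - (b4 + y') / (r3 - a) =
          (b4 + y') * (b - a) / ((r3 - a) * (r3 - b)) := by field_simp; ring
      have : (b - a) * (3 / 4) ≤ (b4 + y') * (b - a) / ((r3 - a) * (r3 - b)) := by
        rw [le_div_iff₀ (mul_pos ua ub)]
        have m1 : (r3 - a) * (r3 - b) ≤ 11 / 10 := by nlinarith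
        have m2 : 1 ≤ b4 + y' := by unfold b4; linarith
        nlinarith [mul_le_mul_of_nonneg_left m1 (sub_nonneg.mpr h2),
          mul_le_mul_of_nonneg_right m2 (sub_nonneg.mpr h2)]
      linarith
    have g3 := ga_gap' (t := (b4 + y') / (r3 - a)) (t' := (b4 + y') / (r3 - b))
      (by rw [le_div_iff₀ ua]; unfold b4; linarith) (by linarith)
      (by rw [div_le_iff₀ ub]; unfold b4; linarith)
    unfold F4
    linarith
  have vert : |F4 x y - F4 x y'| ≤ 11 * (1 / 100000) * (y - y') := by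
    have u0 : 0 < e4 - x := by linarith
    have k1 : y' / (e4 - x) ≤ y / (e4 - x) := div_le_div_of_nonneg_right c1.le u0.le
    have g1 := ga_anti (div_nonneg c0.le u0.le) k1
    have g2 := ga_small (div_nonneg c0.le u0.le) k1
    have k2 : (y / (e4 - x)) ^ 2 - (y' / (e4 - x)) ^ 2 ≤ (1 / 100000) * (y - y') := by
      have e : (y / (e4 - x)) ^ 2 - (y' / (e4 - x)) ^ 2 = (y + y') * (y - y') / (e4 - x) ^ 2 := by
        field_simp; ring
      rw [e, div_le_iff₀ (by positivity)]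
      have : 4 ≤ (e4 - x) ^ 2 := by nlinarith
      nlinarith [mul_le_mul_of_nonneg_left this (by linarith : 0 ≤ y - y')]
    unfold F4
    rw [abs_le]
    constructor <;> linarith [p1.1, p1.2, p2.1, p2.2]
  have h1 := abs_le.mp h
  have h2 := abs_le.mp vert
  rw [abs_le]
  rcases le_total x x' with hh | hh
  · have := mono x x' x1 hh x2'
    constructor <;> linarith [h1.1, h1.2, h2.1, h2.2]
  · have := mono x' x x1' hh x2
    constructor <;> linarith [h1.1, h1.2, h2.1, h2.2]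

lemma kick_x {y : ℝ} (y0 : 0 ≤ y) (y1 : y ≤ d3) :
    fx Lk (d3 / 2) y ≤ -(d3 / 10) ∧ d3 / 10 ≤ fx Lk (-(d3 / 2)) y := by
  have hr := r3_bd
  simp only [fx, Lk, List.map_cons, List.map_nil, List.sum_cons, List.sum_nil, add_zero, one_mul]
  unfold d3 at *
  rw [cos_eq (by linarith), cos_eq' (A := -r3) (by linarith), cos_eq (A := r3) (by linarith),
    cos_eq' (A := -r3) (by linarith)]
  have g : ga ((b4 - y) / (r3 - 1 / 100000 / 2)) ≤ ga ((b4 - y) / (r3 + 1 / 100000 / 2)) :=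
    ga_anti (div_nonneg (by unfold b4; linarith) (by linarith))
      (div_le_div_of_nonneg_left (by unfold b4; linarith) (by linarith) (by linarith))
  have k : ∀ a : ℝ, a ^ 2 ≤ 1 → a ≠ 0 → 0 < dd 0 (-h4) a y ∧ dd 0 (-h4) a y ≤ 5 := by
    intro a ha ha'
    have s := dd_sq 0 (-h4) a y
    have p := dd_nonneg 0 (-h4) a y
    refine ⟨dd_pos ha', ?_⟩
    unfold h4 at *
    nlinarith
  obtain ⟨k1, k2⟩ := k (1 / 100000 / 2) (by norm_num) (by norm_num)
  obtain ⟨k3, k4⟩ := k (-(1 / 100000 / 2)) (by norm_num) (by norm_num)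
  have t1 : (1 / 100000 / 2) / 5 ≤ (1 / 100000 / 2) / dd 0 (-h4) (1 / 100000 / 2) y :=
    div_le_div_of_nonneg_left (by norm_num) k1 k2
  have t2 : (1 / 100000 / 2) / 5 ≤ (1 / 100000 / 2) / dd 0 (-h4) (-(1 / 100000 / 2)) y :=
    div_le_div_of_nonneg_left (by norm_num) k3 k4
  have e1 : (1 / 100000 / 2 : ℝ) - -r3 = r3 + 1 / 100000 / 2 := by ring
  have e2 : r3 - -(1 / 100000 / 2 : ℝ) = r3 + 1 / 100000 / 2 := by ring
  have e3 : -(1 / 100000 / 2 : ℝ) - -r3 = r3 - 1 / 100000 / 2 := by ring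
  rw [e1, e2, e3, zero_sub, neg_div, sub_neg_eq_add, zero_add]
  constructor <;> linarith

lemma kick_y {x : ℝ} (x0 : -(d3 / 2) ≤ x) (x1 : x ≤ d3 / 2) :
    0 < fy Lk x 0 ∧ fy Lk x d3 < 0 := by
  have hr := r3_bd
  have hs := r3_sq
  simp only [fy, Lk, List.map_cons, List.map_nil, List.sum_cons, List.sum_nil, add_zero, one_mul]
  unfold d3 at *
  have k1 : ∀ A : ℝ, (x - A) ^ 2 ≤ 3 + 174 / 10000000 → x ≠ A → 1 / 2 < (b4 - 0) / dd A b4 x 0 := by
    intro A hA hne
    have s := dd_sq A b4 x 0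
    have p := dd_pos (B := b4) (y := 0) hne
    rw [lt_div_iff₀ p]
    unfold b4 at *
    nlinarith
  have k2 : ∀ A : ℝ, 3 - 174 / 10000000 ≤ (x - A) ^ 2 → x ≠ A →
      (b4 - 1 / 100000) / dd A b4 x (1 / 100000) ≤ 1 / 2 - 1 / 10000000 := by
    intro A hA hne
    have s := dd_sq A b4 x (1 / 100000)
    have p := dd_pos (B := b4) (y := 1 / 100000) hne
    rw [div_le_iff₀ p]
    unfold b4 at *
    have : 1999993 / 1000000 ≤ dd A (200001 / 200000) x (1 / 100000) := by nlinarith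
    nlinarith
  have a1 := k1 r3 (by nlinarith) (by linarith [hr.1] |> ne_of_lt)
  have a2 := k1 (-r3) (by nlinarith) (by linarith [hr.1] |> ne_of_gt)
  have a3 := k2 r3 (by nlinarith) (by linarith [hr.1] |> ne_of_lt)
  have a4 := k2 (-r3) (by nlinarith) (by linarith [hr.1] |> ne_of_gt)
  have s1 := dd_sq 0 (-h4) x 0
  have p1 := dd_nonneg 0 (-h4) x 0
  have s2 := dd_sq 0 (-h4) x (1 / 100000)
  have p2 := dd_nonneg 0 (-h4) x (1 / 100000)
  unfold h4 at *
  have l1 : 800001 / 200000 ≤ dd 0 (-(800001 / 200000)) x 0 := by nlinarith [sq_nonneg x]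
  have l2 : 4 ≤ dd 0 (-(800001 / 200000)) x (1 / 100000) := by nlinarith [sq_nonneg x]
  have u2 : dd 0 (-(800001 / 200000)) x (1 / 100000) ≤ 800003 / 200000 + 1 / 10000000 := by
    nlinarith
  have a5 : -1 ≤ (-(800001 / 200000) - 0) / dd 0 (-(800001 / 200000)) x 0 := by
    rw [le_div_iff₀ (by linarith)]; linarith
  have a6 : (-(800001 / 200000) - 1 / 100000) / dd 0 (-(800001 / 200000)) x (1 / 100000) ≤
      -(1 - 1 / 10000000) := by
    rw [div_le_iff₀ (by linarith)]; linarith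
  constructor <;> linarith

end

end Pool.Agent.H18.Net
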