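import Pool.Agent.H18.Net10

set_option autoImplicit false

namespace Pool.Agent.H18.Net

open Set

noncomputable section

/-- lower abscissa bound -/
def xl4 (n k : ℕ) : ℝ := if k = 0 ∨ n < k then -e4 else if k = 1 then -(d3 / 2) else
  if k % 2 = 0 then 7 / 10 else -(85 / 100)
/-- upper abscissa bound -/
def xh4 (n k : ℕ) : ℝ := if k = 0 ∨ n < k then -e4 else if k = 1 then d3 / 2 else
  if k % 2 = 0 then 85 / 100 else -(7 / 10)

/-- raw output of the minimisation -/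
structure Pre4 (n : ℕ) (x y : ℕ → ℝ) : Prop where
  hn : 2 ≤ n
  hev : n % 2 = 0
  hx : ∀ k, xl4 n k ≤ x k ∧ x k ≤ xh4 n k
  hy : ∀ k, 0 ≤ y k ∧ y k ≤ yh3 n k
  hk : ∀ k, k < n →
        (x (k + 1) < xh4 n (k + 1) →
          0 ≤ aA x y k - aA x y (k + 1) - fx (L4 (k + 1)) (x (k + 1)) (y (k + 1))) ∧
        (xl4 n (k + 1) < x (k + 1) →
          aA x y k - aA x y (k + 1) - fx (L4 (k + 1)) (x (k + 1)) (y (k + 1)) ≤ 0) ∧
        (y (k + 1) < yh3 n (k + 1) →
          0 ≤ sA x y (k + 1) - sA x y k - fy (L4 (k + 1)) (x (k + 1)) (y (k + 1))) ∧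
        (0 < y (k + 1) →
          sA x y (k + 1) - sA x y k - fy (L4 (k + 1)) (x (k + 1)) (y (k + 1)) ≤ 0)

lemma sg_even {k : ℕ} (h : k % 2 = 0) : sg k = 1 := by
  unfold sg; exact Even.neg_one_pow (Nat.even_iff.mpr h)
lemma sg_odd {k : ℕ} (h : k % 2 = 1) : sg k = -1 := by
  unfold sg; exact Odd.neg_one_pow (Nat.odd_iff.mpr h)

lemma dd_ne_y {A B x y : ℝ} (h : y ≠ B) : dd A B x y ≠ 0 := by
  intro h0
  have := dd_sq A B x y
  rw [h0] at this
  have h1 : 0 < (y - B) ^ 2 := by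
    have := sub_ne_zero.mpr h
    positivity
  nlinarith [sq_nonneg (x - A)]

theorem exists_pre4 (n : ℕ) (hn : 2 ≤ n) (hev : n % 2 = 0) : ∃ x y, Pre4 n x y := by
  have he := e4_bd
  obtain ⟨x, y, hx, hy, hk⟩ := exists_kkt n L4 (xl4 n) (xh4 n) (fun _ => 0) (yh3 n)
    (by intro k; unfold xl4 xh4; split_ifs <;> norm_num [d3])
    (by intro k; unfold yh3; split_ifs <;> norm_num [d3])
    (by
      intro k hk t ht a ha b hb
      have h1 : ¬ (k + 1 = 0 ∨ n < k + 1) := by omega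
      simp only [xl4, xh4, yh3, if_neg h1, d3] at ha hb
      have h2 : -1 ≤ a ∧ a ≤ 1 := by
        split_ifs at ha <;> constructor <;> linarith [ha.1, ha.2]
      have n1 : b ≠ b4 := ne_of_lt (by unfold b4; linarith [hb.2])
      have n2 : b ≠ -b4 := ne_of_gt (by unfold b4; linarith [hb.1])
      have n3 : b ≠ h4 := ne_of_lt (by unfold h4; linarith [hb.2])
      have n4 : b ≠ -h4 := ne_of_gt (by unfold h4; linarith [hb.1])
      unfold L4 at ht
      split_ifs at ht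
      · simp only [Lk, List.mem_cons, List.not_mem_nil, or_false] at ht
        rcases ht with rfl | rfl | rfl
        exacts [dd_ne_y n1, dd_ne_y n1, dd_ne_y n4]
      · simp only [Lc, List.mem_cons, List.not_mem_nil, or_false] at ht
        rcases ht with rfl | rfl | rfl | rfl | rfl
        · apply ne_of_gt
          apply dd_pos
          simp only
          rcases sg_cases (k + 1) with h | h <;> rw [h]
          · exact ne_of_lt (by linarith [h2.2])
          · exact ne_of_gt (by linarith [h2.1])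
        exacts [dd_ne_y n1, dd_ne_y n2, dd_ne_y n3, dd_ne_y n4])
    (by
      intro k hk
      unfold xl4 xh4 d3
      simp only [Nat.add_one_ne_zero, false_or]
      split_ifs <;> first | omega | (left; linarith [he.1]) | (right; linarith [he.1]))
  exact ⟨x, y, hn, hev, hx, hy, hk⟩

lemma below' {x0 y0 x1 y1 A : ℝ} (h1 : x1 < x0) (h2 : A < x1) (h3 : 0 ≤ y1)
    (h4 : y1 / dd A 0 x1 y1 < (y0 - y1) / dd x0 y0 x1 y1) : y1 * (x0 - A) < y0 * (x1 - A) := by
  have e1 : dd (-A) 0 (-x1) y1 = dd A 0 x1 y1 := by unfold dd; congr 1; ring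
  have e2 : dd (-x0) y0 (-x1) y1 = dd x0 y0 x1 y1 := by unfold dd; congr 1; ring
  have := below (x0 := -x0) (y0 := y0) (x1 := -x1) (y1 := y1) (A := -A) (by linarith)
    (by linarith) h3 (by rwa [e1, e2])
  linarith

lemma far4 {x y x' y' A B : ℝ} (p1 : y' < y) (p2 : 0 < y') (p3 : y ≤ d3) (hx : |x| ≤ 1)
    (hA : |A| ≤ 2) (hB : 1 ≤ |B|) (hB' : |B| ≤ 41 / 10)
    (h : 1 / 2 ≤ |x - x'| ∨ (|x - x'| ≤ (y - y') / 10 ∧ 1 / 2 ≤ |A - x|)) :
    (A - x) * (y' - y) ≠ (B - y) * (x' - x) := by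
  unfold d3 at p3
  intro h0
  have h7 : |(A - x) * (y' - y)| = |(B - y) * (x' - x)| := by rw [h0]
  rw [abs_mul, abs_mul, abs_sub_comm x' x, abs_of_neg (by linarith : y' - y < 0)] at h7
  have t1 := abs_sub_abs_le_abs_sub B y
  have t2 := abs_sub B y
  have t3 := abs_sub A x
  rw [abs_of_pos (by linarith : 0 < y)] at t1 t2
  rcases h with h | ⟨h, h'⟩
  · nlinarith [abs_nonneg (A - x)]
  · nlinarith [abs_nonneg (x - x'), abs_nonneg (B - y)]

variable {n : ℕ} {x y : ℕ → ℝ}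

lemma Pre4.x0 (g : Pre4 n x y) : x 0 = -e4 := by
  have := g.hx 0; simp [xl4, xh4] at this; linarith [this.1, this.2]
lemma Pre4.y0 (g : Pre4 n x y) : y 0 = 0 := by
  have := g.hy 0; simp [yh3] at this; linarith [this.1, this.2]
lemma Pre4.xn (g : Pre4 n x y) : x (n + 1) = -e4 := by
  have := g.hx (n + 1); simp [xl4, xh4] at this; linarith [this.1, this.2]
lemma Pre4.yn (g : Pre4 n x y) : y (n + 1) = 0 := by
  have := g.hy (n + 1); simp [yh3] at this; linarith [this.1, this.2]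

lemma Pre4.hy' (g : Pre4 n x y) (k : ℕ) : 0 ≤ y k ∧ y k ≤ d3 := by
  have := g.hy k
  unfold yh3 at this
  split_ifs at this
  · exact ⟨this.1, by linarith [this.2, d3_pos]⟩
  · exact this

lemma Pre4.hx1 (g : Pre4 n x y) : -(d3 / 2) ≤ x 1 ∧ x 1 ≤ d3 / 2 := by
  have := g.hx 1
  have h1 : ¬ (1 = 0 ∨ n < 1) := by have := g.hn; omega
  simpa only [xl4, xh4, if_neg h1, if_true] using this

lemma Pre4.hxe (g : Pre4 n x y) (k : ℕ) (k1 : 2 ≤ k) (k2 : k ≤ n) (k3 : k % 2 = 0) :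
    7 / 10 ≤ x k ∧ x k ≤ 85 / 100 := by
  have := g.hx k
  have h1 : ¬ (k = 0 ∨ n < k) := by omega
  have h2 : k ≠ 1 := by omega
  simpa only [xl4, xh4, if_neg h1, if_neg h2, if_pos k3] using this

lemma Pre4.hxo (g : Pre4 n x y) (k : ℕ) (k1 : 2 ≤ k) (k2 : k ≤ n) (k3 : k % 2 = 1) :
    -(85 / 100) ≤ x k ∧ x k ≤ -(7 / 10) := by
  have := g.hx k
  have h1 : ¬ (k = 0 ∨ n < k) := by omega
  have h2 : k ≠ 1 := by omega
  have h3 : ¬ k % 2 = 0 := by omega
  simpa only [xl4, xh4, if_neg h1, if_neg h2, if_neg h3] using this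

lemma Pre4.hxs (g : Pre4 n x y) (k : ℕ) (k1 : 2 ≤ k) (k2 : k ≤ n) :
    7 / 10 ≤ sg k * x k ∧ sg k * x k ≤ 85 / 100 := by
  rcases Nat.mod_two_eq_zero_or_one k with h | h
  · rw [sg_even h, one_mul]; exact g.hxe k k1 k2 h
  · rw [sg_odd h]; have := g.hxo k k1 k2 h; constructor <;> linarith [this.1, this.2]

lemma Pre4.hxx (g : Pre4 n x y) (k : ℕ) (k1 : 1 ≤ k) (k2 : k ≤ n) :
    -(85 / 100) ≤ x k ∧ x k ≤ 85 / 100 := by
  rcases k1.lt_or_eq with h | h
  · rcases Nat.mod_two_eq_zero_or_one k with h2 | h2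
    · have := g.hxe k h k2 h2; constructor <;> linarith [this.1, this.2]
    · have := g.hxo k h k2 h2; constructor <;> linarith [this.1, this.2]
  · subst h; have := g.hx1; unfold d3 at this; constructor <;> linarith [this.1, this.2]

lemma Pre4.gE (g : Pre4 n x y) (k : ℕ) (k1 : 2 ≤ k) (k2 : k ≤ n) (k3 : k % 2 = 0) :
    x (k + 1) + 1 / 2 ≤ x k := by
  have := g.hxe k k1 k2 k3
  rcases k2.lt_or_eq with h | h
  · linarith [(g.hxo (k + 1) (by omega) h (by omega)).2, this.1]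
  · rw [h] at this ⊢; rw [g.xn]; linarith [this.1, e4_bd.1]

lemma Pre4.gO (g : Pre4 n x y) (k : ℕ) (k2 : k ≤ n) (k3 : k = 0 ∨ k % 2 = 1) :
    x k + 1 / 2 ≤ x (k + 1) := by
  have hev := g.hev
  have h1 := g.hx1
  unfold d3 at h1
  rcases k3 with h | h
  · subst h; rw [g.x0]; linarith [h1.1, e4_bd.1]
  · have := g.hxe (k + 1) (by omega) (by omega) (by omega)
    by_cases h2 : k = 1
    · subst h2; linarith [h1.2, this.1]
    · linarith [(g.hxo k (by omega) k2 h).2, this.1]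

lemma Pre4.hg (g : Pre4 n x y) (k : ℕ) (k2 : k ≤ n) : 1 / 2 ≤ |x (k + 1) - x k| := by
  by_cases h : k = 0 ∨ k % 2 = 1
  · have := g.gO k k2 h
    rw [abs_of_pos (by linarith)]; linarith
  · have := g.gE k (by omega) k2 (by omega)
    rw [abs_of_neg (by linarith)]; linarith

lemma Pre4.hl (g : Pre4 n x y) (k : ℕ) (k2 : k ≤ n) : 1 / 2 ≤ lA x y k :=
  (g.hg k k2).trans (lA_ge x y k)

lemma Pre4.has (g : Pre4 n x y) (k : ℕ) (k2 : k ≤ n) : aA x y k ^ 2 + sA x y k ^ 2 = 1 :=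
  as_sq (by linarith [g.hl k k2])

lemma Pre4.hsb (g : Pre4 n x y) (k : ℕ) (k2 : k ≤ n) : |sA x y k| ≤ 2 * d3 := by
  apply sin_bound (g.hl k k2)
  rw [abs_le]; constructor <;> linarith [g.hy' k, g.hy' (k + 1)]

lemma Pre4.hc (g : Pre4 n x y) (k : ℕ) (k2 : k ≤ n) :
    1 - d3 / 20 ≤ |aA x y k| ∧ |aA x y k| ≤ 1 := by
  have h1 := abs_a (g.has k k2)
  have h2 := g.hsb k k2
  have h3 : sA x y k ^ 2 ≤ d3 / 20 := by
    rw [← sq_abs]; unfold d3 at *; nlinarith [abs_nonneg (sA x y k)]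
  exact ⟨by linarith [h1.1], h1.2⟩

lemma Pre4.aE (g : Pre4 n x y) (k : ℕ) (k1 : 2 ≤ k) (k2 : k ≤ n) (k3 : k % 2 = 0) :
    aA x y k = -|aA x y k| := by
  rw [abs_of_nonpos, neg_neg]
  exact div_nonpos_of_nonpos_of_nonneg (by linarith [g.gE k k1 k2 k3]) (by linarith [g.hl k k2])

lemma Pre4.aO (g : Pre4 n x y) (k : ℕ) (k2 : k ≤ n) (k3 : k = 0 ∨ k % 2 = 1) :
    aA x y k = |aA x y k| := by
  rw [abs_of_nonneg]
  exact div_nonneg (by linarith [g.gO k k2 k3]) (by linarith [g.hl k k2])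

lemma Pre4.aS (g : Pre4 n x y) (k : ℕ) (k1 : 1 ≤ k) (k2 : k < n) :
    aA x y k - aA x y (k + 1) = sg (k + 1) * (|aA x y k| + |aA x y (k + 1)|) := by
  rcases Nat.mod_two_eq_zero_or_one k with h | h
  · have := g.aE k (by omega) k2.le h
    have := g.aO (k + 1) k2 (by omega)
    rw [sg_odd (by omega)]; linarith
  · have := g.aO k k2.le (by omega)
    have := g.aE (k + 1) (by omega) k2 (by omega)
    rw [sg_even (by omega)]; linarith

lemma Pre4.sP (g : Pre4 n x y) (k : ℕ) (k2 : k ≤ n) (h : y (k + 1) ≤ y k) : 0 ≤ sA x y k :=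
  div_nonneg (by linarith) (by linarith [g.hl k k2])

lemma Pre4.sN (g : Pre4 n x y) (k : ℕ) (k2 : k ≤ n) (h : y k ≤ y (k + 1)) : sA x y k ≤ 0 :=
  div_nonpos_of_nonpos_of_nonneg (by linarith) (by linarith [g.hl k k2])

lemma Pre4.hX (g : Pre4 n x y) (k : ℕ) (k2 : k < n) :
    fx (L4 (k + 1)) (x (k + 1)) (y (k + 1)) = aA x y k - aA x y (k + 1) := by
  obtain ⟨up, dn, -, -⟩ := g.hk k k2
  have h1 : ¬ (k + 1 = 0 ∨ n < k + 1) := by omega
  have b1 := g.hy' (k + 1)
  have c1 := g.hc k k2.le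
  have c2 := g.hc (k + 1) k2
  have q := g.hx (k + 1)
  have hd := d3_pos
  suffices h : aA x y k - aA x y (k + 1) - fx (L4 (k + 1)) (x (k + 1)) (y (k + 1)) = 0 by linarith
  refine xeq q.1 q.2 ?_ up dn ?_ ?_
  · unfold xl4 xh4; rw [if_neg h1, if_neg h1]; split_ifs <;> norm_num [d3]
  all_goals
    by_cases h2 : k + 1 = 1
    · simp only [xl4, xh4, if_neg h1, L4, if_pos h2]
      intro h
      rw [h]
      have fk := kick_x b1.1 b1.2
      have c3 := g.aO k k2.le (by omega)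
      have c4 := g.aO (k + 1) k2 (by omega)
      linarith [fk.1, fk.2]
    · have b2 := g.hxs (k + 1) (by omega) k2
      have f := face4 b1.1 b1.2
      rw [g.aS k (by omega) k2]
      simp only [L4, if_neg h2]
      rw [fx4 (sg_cases _) _ (by linarith [b2.1]) (by linarith [b2.2])]
      simp only [xl4, xh4, if_neg h1, if_neg h2]
      unfold d3 at c1 c2
      split_ifs with h5
      · rw [sg_even h5]
        intro h
        rw [h]
        simp only [one_mul]
        linarith [f.1, f.2]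
      · rw [sg_odd (by omega)]
        intro h
        rw [h]
        simp only [neg_mul, one_mul, neg_neg]
        linarith [f.1, f.2]

lemma Pre4.hY1 (g : Pre4 n x y) : 0 < y 1 ∧ fy (L4 1) (x 1) (y 1) = sA x y 1 - sA x y 0 := by
  have hn := g.hn
  obtain ⟨-, -, up, dn⟩ := g.hk 0 (by omega)
  have h1 : ¬ (1 = 0 ∨ n < 1) := by omega
  simp only [zero_add, yh3, if_neg h1] at up dn
  have b1 := g.hy' 1
  have hd := d3_pos
  have f := kick_y g.hx1.1 g.hx1.2
  simp only [L4, if_true] at up dn ⊢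
  have h0 : 0 < y 1 := by
    rcases b1.1.lt_or_eq with h | h
    · exact h
    · exfalso
      have t1 := up (by linarith)
      have t2 := g.sN 1 (by omega) (by linarith [g.hy' 2])
      have t3 := g.sP 0 (by omega) (by linarith [g.hy' 0])
      rw [← h] at t1
      linarith [f.1]
  refine ⟨h0, ?_⟩
  rcases b1.2.lt_or_eq with h | h
  · linarith [up h, dn h0]
  · exfalso
    have t1 := dn h0
    have t2 := g.sP 1 (by omega) (by linarith [g.hy' 2])
    have t3 := g.sN 0 (by omega) (by linarith [g.hy' 0])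
    rw [h] at t1
    linarith [f.2]

lemma Pre4.hGb (g : Pre4 n x y) (k : ℕ) (k1 : 2 ≤ k) (k2 : k ≤ n) :
    y k / dd (sg k * e4) 0 (x k) (y k) ≤ - fy (L4 k) (x k) (y k) ∧
      y k / 3 ≤ - fy (L4 k) (x k) (y k) ∧ - fy (L4 k) (x k) (y k) ≤ 3 * y k := by
  have h2 : k ≠ 1 := by omega
  simp only [L4, if_neg h2]
  exact fy4 (sg_cases k) (g.hxs k k1 k2).1 (g.hxs k k1 k2).2 (g.hy' k).1 (g.hy' k).2

lemma Pre4.hY (g : Pre4 n x y) (k : ℕ) (k1 : 1 ≤ k) (k2 : k < n) :
    sA x y k = sA x y (k + 1) + - fy (L4 (k + 1)) (x (k + 1)) (y (k + 1)) := by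
  obtain ⟨-, -, up, dn⟩ := g.hk k k2
  have h1 : ¬ (k + 1 = 0 ∨ n < k + 1) := by omega
  simp only [yh3, if_neg h1] at up dn
  obtain ⟨-, g1, g2⟩ := g.hGb (k + 1) (by omega) k2
  refine yeq d3_pos (by norm_num) (g.hy' (k + 1)).1 (g.hy' (k + 1)).2
    (fun h => by linarith [up h])
    (fun h => by linarith [dn h]) (fun h => ⟨g.sN k k2.le (by linarith [g.hy' k]),
      g.sP (k + 1) k2 (by linarith [g.hy' (k + 1 + 1)])⟩)
    (fun h => ⟨g.sP k k2.le (by linarith [g.hy' k]),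
      g.sN (k + 1) k2 (by linarith [g.hy' (k + 1 + 1)])⟩) g1 g2

lemma Pre4.mono (g : Pre4 n x y) :
    (∀ k, 1 ≤ k → k ≤ n → 0 < y k ∧ 0 < sA x y k) ∧
    (∀ k l, 1 ≤ k → k < l → l ≤ n + 1 → y l < y k) ∧
    (∀ k l, 1 ≤ k → k < l → l ≤ n → sA x y l < sA x y k) ∧
    (∀ k, 1 ≤ k → k < n → sA x y k ≤ (2 + 3 * (1 + 2 * 3)) * (y (k + 1) - y (k + 2))) :=
  seq_mono 1 n y (sA x y) (lA x y) 3 (by norm_num)
    (fun k _ k2 => ⟨rfl, g.hl k k2⟩) g.yn g.hY1.1 (fun k _ _ => (g.hy' k).1)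
    (fun k k1 k2 => by
      have := g.hY k k1 k2
      obtain ⟨-, g1, g2⟩ := g.hGb (k + 1) (by omega) k2
      constructor <;> linarith)

lemma Pre4.hA1 (g : Pre4 n x y) {s : ℝ} (hs : s = 1 ∨ s = -1) (k : ℕ) (k1 : 1 ≤ k) (k2 : k < n) :
    y (k + 1) * (e4 - s * x k) < y k * (e4 - s * x (k + 1)) := by
  obtain ⟨m1, m2, -, -⟩ := g.mono
  have p1 := (m1 (k + 1) (by omega) k2)
  have p2 := m2 k (k + 1) k1 (by omega) (by omega)
  have b1 := g.hxx k k1 k2.le
  have b2 := g.hxx (k + 1) (by omega) k2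
  have he := e4_bd
  have t1 := g.hY k k1 k2
  have t2 := (g.hGb (k + 1) (by omega) k2).1
  clear m1 m2
  rcases Nat.mod_two_eq_zero_or_one k with h | h
  · have g0 := g.gE k (by omega) k2.le h
    rcases hs with rfl | rfl
    · nlinarith [p1.1]
    · rw [sg_odd (by omega), neg_one_mul] at t2
      have := below' (x0 := x k) (y0 := y k) (x1 := x (k + 1)) (y1 := y (k + 1)) (A := -e4)
        (by linarith) (by linarith [b2.1]) p1.1.le (by change _ < sA x y k; linarith [p1.2])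
      linarith
  · have g0 := g.gO k k2.le (Or.inr h)
    rcases hs with rfl | rfl
    · rw [sg_even (by omega), one_mul] at t2
      have := below (x0 := x k) (y0 := y k) (x1 := x (k + 1)) (y1 := y (k + 1)) (A := e4)
        (by linarith) (by linarith [b2.2]) p1.1.le (by change _ < sA x y k; linarith [p1.2])
      linarith
    · nlinarith [p1.1]

lemma Pre4.hA (g : Pre4 n x y) {s : ℝ} (hs : s = 1 ∨ s = -1) (k l : ℕ) (k1 : 1 ≤ k) (kl : k < l) :
    l ≤ n → y l * (e4 - s * x k) < y k * (e4 - s * x l) := by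
  have he := e4_bd
  have u : ∀ j, 1 ≤ j → j ≤ n → 0 < e4 - s * x j := by
    intro j j1 j2
    have := g.hxx j j1 j2
    rcases hs with rfl | rfl <;> linarith [this.1, this.2]
  induction l, kl using Nat.le_induction with
  | base => intro h; exact g.hA1 hs k k1 h
  | succ l kl ih =>
    intro h
    have i1 := ih (by omega)
    have i2 := g.hA1 hs l (by omega) h
    have u1 := u k k1 (by omega)
    have u2 := u l (by omega) (by omega)
    have u3 := u (l + 1) (by omega) h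
    rw [← div_lt_div_iff₀ u2 u1] at i1
    rw [← div_lt_div_iff₀ u3 u2] at i2
    rw [← div_lt_div_iff₀ u3 u1]
    linarith

lemma Pre4.cone (g : Pre4 n x y) (k l : ℕ) (k1 : 1 ≤ k) (kl : k < l) (l2 : l < n)
    (hp : k % 2 = l % 2) : |x (k + 1) - x (l + 1)| ≤ (y (k + 1) - y (l + 1)) / 10 := by
  obtain ⟨m1, m2, m3, m4⟩ := g.mono
  have s1 := m4 k k1 (by omega)
  have s2 : y (l + 1) ≤ y (k + 2) := by
    rcases (show k + 2 ≤ l + 1 by omega).lt_or_eq with h | h
    · exact (m2 _ _ (by omega) h (by omega)).le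
    · rw [h]
  have s3 := abs_le.mp (g.hsb k (by omega))
  have s4 := (m1 k k1 (by omega)).2
  have s5 : sA x y k ^ 2 ≤ 2 * d3 * (23 * (y (k + 1) - y (l + 1))) := by
    rw [sq]; exact mul_le_mul s3.2 (by linarith) s4.le (by linarith [d3_pos])
  have hd := cos_diff (g.has k (by omega)) (g.has (k + 1) (by omega)) (g.has l (by omega))
    (g.has (l + 1) l2) (m1 (k + 1) (by omega) (by omega)).2.le (m1 l (by omega) (by omega)).2.le
    (m1 (l + 1) (by omega) l2).2.le (m3 k (k + 1) k1 (by omega) (by omega)).le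
    (m3 k l k1 kl (by omega)).le (m3 k (l + 1) k1 (by omega) l2).le
  have e1 := g.hX k (by omega)
  have e2 := g.hX l l2
  have b1 := g.hxs (k + 1) (by omega) (by omega)
  have b2 := g.hxs (l + 1) (by omega) l2
  have n1 : k + 1 ≠ 1 := by omega
  have n2 : l + 1 ≠ 1 := by omega
  simp only [L4, if_neg n1, if_neg n2] at e1 e2
  rw [fx4 (sg_cases _) _ (by linarith [b1.1]) (by linarith [b1.2]), g.aS k k1 (by omega)] at e1
  rw [fx4 (sg_cases _) _ (by linarith [b2.1]) (by linarith [b2.2]), g.aS l (by omega) l2] at e2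
  have s0 : ∀ j, sg j ≠ 0 := fun j => by rcases sg_cases j with e | e <;> rw [e] <;> norm_num
  have e1' := mul_left_cancel₀ (s0 _) e1
  have e2' := mul_left_cancel₀ (s0 _) e2
  have := cone4 b1.1 b1.2 b2.1 b2.2 (m1 (l + 1) (by omega) l2).1
    (m2 (k + 1) (l + 1) (by omega) (by omega) (by omega)) (g.hy' (k + 1)).2
    (by rw [e1', e2']; linarith)
  rcases Nat.mod_two_eq_zero_or_one k with h | h
  · rw [sg_odd (k := k + 1) (by omega), sg_odd (k := l + 1) (by omega)] at this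
    rw [← abs_neg]
    convert this using 2
    ring
  · rw [sg_even (k := k + 1) (by omega), sg_even (k := l + 1) (by omega)] at this
    simpa using this

lemma Pre4.hB (g : Pre4 n x y) (k l : ℕ) (k1 : 1 ≤ k) (kl : k < l) (l2 : l ≤ n) {A B : ℝ}
    (hA : A = 0 ∨ A = r3 ∨ A = -r3) (hB : 1 ≤ |B|) (hB' : |B| ≤ 41 / 10) :
    (A - x k) * (y l - y k) ≠ (B - y k) * (x l - x k) := by
  have b1 := g.hxx k k1 (by omega)
  have hr := r3_bd
  apply far4 (g.mono.2.1 k l k1 kl (by omega)) (g.mono.1 l (by omega) l2).1 (g.hy' k).2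
    (by rw [abs_le]; constructor <;> linarith [b1.1, b1.2])
    (by rw [abs_le]; rcases hA with h | h | h <;> rw [h] <;> constructor <;> linarith) hB hB'
  by_cases hsame : 2 ≤ k ∧ k % 2 = l % 2
  · right
    have b2 := g.hxs k hsame.1 (by omega)
    constructor
    · obtain ⟨k, rfl⟩ : ∃ m, k = m + 1 := ⟨k - 1, by omega⟩
      obtain ⟨l, rfl⟩ : ∃ m, l = m + 1 := ⟨l - 1, by omega⟩
      exact g.cone k l (by omega) (by omega) l2 (by omega)
    · rw [le_abs]
      rcases sg_cases k with e | e <;> rw [e] at b2 <;> rcases hA with h | h | h <;> rw [h] <;>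
        first | (left; linarith [b2.1, b2.2]) | (right; linarith [b2.1, b2.2])
  · left
    have hx1 := g.hx1
    unfold d3 at hx1
    rw [le_abs]
    by_cases h1 : k = 1
    · subst h1
      rcases Nat.mod_two_eq_zero_or_one l with h | h
      · have := g.hxe l (by omega) l2 h
        right; linarith [hx1.2, this.1]
      · have := g.hxo l (by omega) l2 h
        left; linarith [hx1.1, this.2]
    · rcases Nat.mod_two_eq_zero_or_one l with h | h
      · have t1 := g.hxe l (by omega) l2 h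
        have t2 := g.hxo k (by omega) (by omega) (by omega)
        right; linarith [t1.1, t2.2]
      · have t1 := g.hxo l (by omega) l2 h
        have t2 := g.hxe k (by omega) (by omega) (by omega)
        left; linarith [t1.2, t2.1]

lemma Pre4.hb (g : Pre4 n x y) (k : ℕ) (k2 : k < n) :
    fx (L4 (k + 1)) (x (k + 1)) (y (k + 1)) = aA x y k - aA x y (k + 1) ∧
      fy (L4 (k + 1)) (x (k + 1)) (y (k + 1)) = sA x y (k + 1) - sA x y k := by
  refine ⟨g.hX k k2, ?_⟩
  rcases Nat.eq_zero_or_pos k with h | h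
  · subst h; exact g.hY1.2
  · linarith [g.hY k h k2]

end

end Pool.Agent.H18.Net
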