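import Pool.Agent.H18.Net9
import Pool.Agent.H18.Net11

set_option autoImplicit false

namespace Pool.Agent.H18.Net

open Set

noncomputable section

/-- sign of a boolean -/
def sb (b : Bool) : ℝ := if b then 1 else -1

lemma sb_cases (b : Bool) : sb b = 1 ∨ sb b = -1 := by cases b <;> simp [sb]

/-- corners of the rectangle -/
def CC (s t : Bool) : ℂ := ⟨sb s * r3, sb t * b4⟩
/-- horizontal virtual terminals -/
def EH (s : Bool) : ℂ := ⟨sb s * e4, 0⟩
/-- vertical virtual terminals -/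
def EV (t : Bool) : ℂ := ⟨0, sb t * h4⟩
/-- rotation by sixty degrees -/
def rot (η : ℝ) (u : ℂ) : ℂ := ⟨u.re / 2 - η * r3 / 2 * u.im, η * r3 / 2 * u.re + u.im / 2⟩
/-- Steiner point for a vertical side -/
def sH (w : ℂ) (s : Bool) : ℂ :=
  EH s - ((4 * r3 * b4 / 3 * (sb s * (uv w (EH s)).re) : ℝ) : ℂ) * uv w (EH s)
/-- Steiner point for a horizontal side -/
def sV (w : ℂ) (t : Bool) : ℂ := EV t - ((4 * (sb t * (uv w (EV t)).im) : ℝ) : ℂ) * uv w (EV t)
/-- cross product -/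
def cr (a b : ℂ) : ℝ := a.re * b.im - a.im * b.re
/-- `v` is the unit direction from `p` to `q` -/
def SegOK (p q v : ℂ) : Prop := (∃ α : ℝ, 0 < α ∧ q - p = (α : ℂ) * v) ∧ v.re ^ 2 + v.im ^ 2 = 1
/-- strictly inside the rectangle -/
def Ins (z : ℂ) : Prop := -r3 < z.re ∧ z.re < r3 ∧ -b4 < z.im ∧ z.im < b4

lemma rot_add (η : ℝ) (u : ℂ) : rot η u + rot (-η) u = u := by
  apply Complex.ext <;> simp [rot] <;> ring

lemma rot_sq {η : ℝ} (h : η = 1 ∨ η = -1) (u : ℂ) :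
    (rot η u).re ^ 2 + (rot η u).im ^ 2 = u.re ^ 2 + u.im ^ 2 := by
  simp only [rot]
  rcases h with rfl | rfl <;>
    linear_combination (u.re ^ 2 + u.im ^ 2) / 4 * r3_sq

lemma rot_cr {η : ℝ} (h : η = 1 ∨ η = -1) (u v : ℂ) : cr (rot η u) (rot η v) = cr u v := by
  simp only [rot, cr]
  rcases h with rfl | rfl <;>
    linear_combination (u.re * v.im - u.im * v.re) / 4 * r3_sq

lemma SegOK.uv_eq {p q v : ℂ} (h : SegOK p q v) : uv p q = v ∧ p ≠ q := by
  obtain ⟨⟨α, h1, h2⟩, h3⟩ := h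
  have hn : ‖v‖ = 1 := by
    rw [Complex.norm_eq_sqrt_sq_add_sq, h3, Real.sqrt_one]
  have h0 : (α : ℂ) ≠ 0 := by exact_mod_cast h1.ne'
  constructor
  · unfold uv
    rw [h2, norm_mul, hn, Complex.norm_real, Real.norm_eq_abs, abs_of_pos h1, mul_one]
    field_simp
  · intro e
    rw [e, sub_self] at h2
    have : v = 0 := (mul_eq_zero.mp h2.symm).resolve_left h0
    rw [this] at hn
    simp at hn

lemma segOK_uv {p q : ℂ} (h : p ≠ q) : SegOK p q (uv p q) := by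
  have n1 : (0 : ℝ) < ‖q - p‖ := norm_pos_iff.mpr (sub_ne_zero.mpr h.symm)
  have n1' : ((‖q - p‖ : ℝ) : ℂ) ≠ 0 := by exact_mod_cast n1.ne'
  refine ⟨⟨‖q - p‖, n1, by unfold uv; field_simp⟩, ?_⟩
  unfold uv
  rw [Complex.div_ofReal_re, Complex.div_ofReal_im]
  have := Complex.sq_norm (q - p)
  rw [Complex.normSq_apply] at this
  field_simp
  linarith

lemma ov {p q v p' q' v' : ℂ} (h : SegOK p q v) (h' : SegOK p' q' v')
    (hn : ¬ (segment ℝ p q ∩ segment ℝ p' q').Subsingleton) :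
    cr v v' = 0 ∧ cr v (p' - p) = 0 ∧ v.im ^ 2 = v'.im ^ 2 := by
  obtain ⟨h1, h2⟩ := two_pts hn
  obtain ⟨⟨α, a1, a2⟩, a3⟩ := h
  obtain ⟨⟨β, b1, b2⟩, b3⟩ := h'
  have r1 := congrArg Complex.re a2
  have i1 := congrArg Complex.im a2
  have r2 := congrArg Complex.re b2
  have i2 := congrArg Complex.im b2
  simp only [Complex.sub_re, Complex.sub_im, Complex.mul_re, Complex.mul_im, Complex.ofReal_re,
    Complex.ofReal_im, zero_mul, sub_zero, add_zero] at r1 i1 r2 i2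
  rw [r1, i1] at h1 h2
  have k1 : cr v v' = 0 := by
    have : (α * β) * cr v v' = 0 := by
      unfold cr
      linear_combination h2 - h1 - α * v.re * i2 + α * v.im * r2
    exact (mul_eq_zero.mp this).resolve_left (by positivity)
  refine ⟨k1, ?_, ?_⟩
  · have : α * cr v (p' - p) = 0 := by
      unfold cr
      simp only [Complex.sub_re, Complex.sub_im]
      linear_combination h1
    exact (mul_eq_zero.mp this).resolve_left a1.ne'
  · apply par_sin a3 b3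
    unfold cr at k1
    linarith

lemma on1 {p v z : ℂ} {t : ℝ} (h : z - p = (t : ℂ) * v) : cr v (z - p) = 0 := by
  rw [h]; simp [cr]; ring

lemma on2 {p v p' v' z : ℂ} {t : ℝ} (h1 : cr v v' = 0) (h2 : cr v (p' - p) = 0)
    (h : z - p' = (t : ℂ) * v') : cr v (z - p) = 0 := by
  have : z - p = (t : ℂ) * v' + (p' - p) := by rw [← h]; ring
  rw [this]
  simp only [cr, Complex.add_re, Complex.add_im, Complex.mul_re, Complex.mul_im, Complex.ofReal_re,
    Complex.ofReal_im, zero_mul, sub_zero, add_zero] at *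
  linear_combination t * h1 + h2

lemma on0 (p v : ℂ) : cr v (p - p) = 0 := by simp [cr]

lemma col3 {p v a b c : ℂ} (hv : v.re ^ 2 + v.im ^ 2 = 1) (h1 : cr v (a - p) = 0)
    (h2 : cr v (b - p) = 0) (h3 : cr v (c - p) = 0) : cr (a - b) (c - b) = 0 := by
  simp only [cr, Complex.sub_re, Complex.sub_im] at *
  linear_combination (-((a.re - b.re) * (c.im - b.im) - (a.im - b.im) * (c.re - b.re))) * hv +
    (v.re * (a.re - b.re) + v.im * (a.im - b.im)) * (h3 - h2) -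
    (v.re * (c.re - b.re) + v.im * (c.im - b.im)) * (h1 - h2)

lemma uv_facts {x y A B : ℝ} (h : dd A B x y ≠ 0) : ∃ R c s : ℝ, 0 < R ∧
    R ^ 2 = (A - x) ^ 2 + (B - y) ^ 2 ∧ uv ⟨x, y⟩ ⟨A, B⟩ = ⟨c, s⟩ ∧ R * c = A - x ∧
    R * s = B - y ∧ c ^ 2 + s ^ 2 = 1 := by
  have p : 0 < dd A B x y := lt_of_le_of_ne (dd_nonneg _ _ _ _) h.symm
  have q := dd_sq A B x y
  refine ⟨dd A B x y, _, _, p, by linarith, uv_mk x y A B, by field_simp, by field_simp, ?_⟩
  field_simp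
  linarith

lemma H_num {X y R c s : ℝ} (x0 : -(85 / 100) ≤ X) (x1 : X ≤ 85 / 100) (y0 : 0 < y) (y1 : y ≤ d3)
    (hR : 0 < R) (h1 : R ^ 2 = (e4 - X) ^ 2 + (0 - y) ^ 2) (h2 : R * c = e4 - X)
    (h3 : R * s = 0 - y) (h4 : c ^ 2 + s ^ 2 = 1) :
    26 / 10 ≤ R ∧ 999 / 1000 ≤ c ∧ c ≤ 1 ∧ -(1 / 1000) ≤ s ∧ s ≤ 0 := by
  have he := e4_bd
  unfold d3 at y1
  have a1 : 26 / 10 ≤ R := by nlinarith
  have a2 : s ≤ 0 := by nlinarith
  have a3 : -(1 / 1000) ≤ s := by nlinarith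
  have a4 : 0 < c := by nlinarith
  have a5 : c ≤ 1 := by nlinarith
  exact ⟨a1, by nlinarith, a5, a3, a2⟩

theorem H_facts {x y : ℝ} (x0 : -(85 / 100) ≤ x) (x1 : x ≤ 85 / 100) (y0 : 0 < y) (y1 : y ≤ d3)
    (σ : Bool) :
    SegOK ⟨x, y⟩ (sH ⟨x, y⟩ σ) (uv ⟨x, y⟩ (EH σ)) ∧
    (∃ R : ℝ, EH σ - ⟨x, y⟩ = (R : ℂ) * uv ⟨x, y⟩ (EH σ)) ∧
    (uv ⟨x, y⟩ (EH σ)).im ^ 2 ≤ 1 / 100 ∧ Ins (sH ⟨x, y⟩ σ) ∧
    ∀ τ : Bool, SegOK (sH ⟨x, y⟩ σ) (CC σ τ) (rot (sb σ * sb τ) (uv ⟨x, y⟩ (EH σ))) ∧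
      85 / 100 ≤ sb τ * (rot (sb σ * sb τ) (uv ⟨x, y⟩ (EH σ))).im ∧
      sb τ * (rot (sb σ * sb τ) (uv ⟨x, y⟩ (EH σ))).im ≤ 88 / 100 := by
  have he := e4_bd
  have hr := r3_bd
  have hs := r3_sq
  have hne : dd (sb σ * e4) 0 x y ≠ 0 := dd_ne_y y0.ne'
  obtain ⟨R, c, s, hR, h1, hu, h2, h3, h4⟩ := uv_facts hne
  have hb : b4 = 200001 / 200000 := rfl
  have num : 26 / 10 ≤ R ∧ 999 / 1000 ≤ sb σ * c ∧ sb σ * c ≤ 1 ∧ -(1 / 1000) ≤ s ∧ s ≤ 0 := by
    rcases sb_cases σ with e | e <;> rw [e] at h1 h2 ⊢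
    · apply H_num x0 x1 y0 y1 hR (by linarith) (by linarith) h3 (by linarith)
    · apply H_num (X := -x) (by linarith) (by linarith) y0 y1 hR (by linarith) (by linarith) h3
        (by linarith)
  obtain ⟨n1, n2, n3, n4, n5⟩ := num
  have lam : 4 * r3 * b4 / 3 * (sb σ * c) ≤ 5 / 2 := by rw [hb]; nlinarith
  have root : sH ⟨x, y⟩ σ - ⟨x, y⟩ = ((R - 4 * r3 * b4 / 3 * (sb σ * c) : ℝ) : ℂ) * ⟨c, s⟩ := by
    unfold sH EH
    rw [hu]
    apply Complex.ext <;> simp only [Complex.sub_re, Complex.sub_im, Complex.mul_re,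
      Complex.mul_im, Complex.ofReal_re, Complex.ofReal_im] <;> linarith
  have br : ∀ τ : Bool, CC σ τ - sH ⟨x, y⟩ σ =
      ((2 * b4 * (r3 / 3 * (sb σ * c) + sb τ * s) : ℝ) : ℂ) * rot (sb σ * sb τ) ⟨c, s⟩ := by
    intro τ
    unfold sH EH CC rot
    rw [hu]
    unfold e4
    apply Complex.ext <;> simp only [Complex.sub_re, Complex.sub_im, Complex.mul_re,
      Complex.mul_im, Complex.ofReal_re, Complex.ofReal_im] <;>
      rcases sb_cases σ with e | e <;> rcases sb_cases τ with e' | e' <;> rw [e, e'] <;>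
      first
        | linear_combination (b4 * r3) * h4 + (b4 * c * s / 3) * hs
        | linear_combination (b4 * r3) * h4 - (b4 * c * s / 3) * hs
        | linear_combination (-(b4 * r3)) * h4 + (b4 * c * s / 3) * hs
        | linear_combination (-(b4 * r3)) * h4 - (b4 * c * s / 3) * hs
        | linear_combination (-b4) * h4 - (b4 * c ^ 2 / 3) * hs
        | linear_combination b4 * h4 + (b4 * c ^ 2 / 3) * hs
  have al : ∀ τ : Bool, 0 < 2 * b4 * (r3 / 3 * (sb σ * c) + sb τ * s) := by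
    intro τ
    rw [hb]
    rcases sb_cases τ with e | e <;> rw [e] <;> nlinarith
  have S : ∀ τ : Bool, 85 / 100 ≤ sb τ * (rot (sb σ * sb τ) ⟨c, s⟩).im ∧
      sb τ * (rot (sb σ * sb τ) ⟨c, s⟩).im ≤ 88 / 100 := by
    intro τ
    simp only [rot]
    rcases sb_cases τ with e | e <;> rw [e] <;> constructor <;> nlinarith
  have C : ∀ τ : Bool, 0 < sb σ * (rot (sb σ * sb τ) ⟨c, s⟩).re := by
    intro τ
    simp only [rot]
    rcases sb_cases σ with e | e <;> rcases sb_cases τ with e' | e' <;> rw [e] at n2 <;>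
      rw [e, e'] <;> nlinarith
  have ss : ∀ τ : Bool, sb σ * sb τ = 1 ∨ sb σ * sb τ = -1 := by
    intro τ; cases σ <;> cases τ <;> simp [sb]
  have hE : EH σ = ⟨sb σ * e4, 0⟩ := rfl
  rw [hE, hu]
  refine ⟨⟨⟨_, by linarith, root⟩, h4⟩, ⟨R, ?_⟩, by simp only; nlinarith, ?_,
    fun τ => ⟨⟨⟨_, al τ, br τ⟩, by rw [rot_sq (ss τ)]; exact h4⟩, S τ⟩⟩
  · apply Complex.ext <;> simp only [Complex.sub_re, Complex.sub_im, Complex.mul_re,
      Complex.mul_im, Complex.ofReal_re, Complex.ofReal_im] <;> linarith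
  · have q1 := congrArg Complex.re root
    have q2 := congrArg Complex.re (br true)
    have q3 := congrArg Complex.im (br true)
    have q4 := congrArg Complex.im (br false)
    have m1 := mul_pos (al true) (C true)
    have m2 := mul_pos (al true) (lt_of_lt_of_le (by norm_num) (S true).1)
    have m3 := mul_pos (al false) (lt_of_lt_of_le (by norm_num) (S false).1)
    have m4 : 0 < (R - 4 * r3 * b4 / 3 * (sb σ * c)) * (sb σ * c) :=
      mul_pos (by linarith) (by linarith)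
    simp only [Complex.sub_re, Complex.sub_im, Complex.mul_re, Complex.mul_im, Complex.ofReal_re,
      Complex.ofReal_im, CC, zero_mul, sub_zero, add_zero] at q1 q2 q3 q4
    have t1 : sb true = 1 := rfl
    have t2 : sb false = -1 := rfl
    rw [t1] at q2 q3 m1 m2
    rw [t2] at q4 m3
    unfold Ins
    rcases sb_cases σ with e | e <;> rw [e] at q1 q2 q3 q4 m1 m2 m3 m4 <;>
      refine ⟨?_, ?_, ?_, ?_⟩ <;> linarith

end

end Pool.Agent.H18.Net
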