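import Pool.Agent.H18.Net12

set_option autoImplicit false

namespace Pool.Agent.H18.Net

open Set

noncomputable section

lemma V_num {x Y R c s : ℝ} (x0 : -(85 / 100) ≤ x) (x1 : x ≤ 85 / 100) (y0 : -d3 ≤ Y) (y1 : Y ≤ d3)
    (hR : 0 < R) (h1 : R ^ 2 = (0 - x) ^ 2 + (h4 - Y) ^ 2) (h2 : R * c = 0 - x)
    (h3 : R * s = h4 - Y) (h5 : c ^ 2 + s ^ 2 = 1) :
    977 / 1000 ≤ s ∧ s ≤ 1 ∧ -(2131 / 10000) ≤ c ∧ c ≤ 2131 / 10000 ∧
      ((Y ≤ 0 ∨ 7 / 10 ≤ |x|) → 0 < R - 4 * s) ∧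
      (7 / 10 ≤ |x| → 17 / 100 ≤ |c| ∧ s ≤ 9856 / 10000) ∧
      (|x| ≤ d3 → |c| ≤ 1 / 1000 ∧ 999 / 1000 ≤ s) := by
  unfold d3 h4 at *
  have a1 : 399 / 100 ≤ R := by nlinarith [sq_nonneg x]
  have a2 : R ≤ 41 / 10 := by nlinarith
  have a3 : c ≤ 2131 / 10000 := by nlinarith
  have a4 : -(2131 / 10000) ≤ c := by nlinarith
  have a5 : 0 < s := by nlinarith
  have a6 : s ≤ 1 := by nlinarith
  have a7 : 977 / 1000 ≤ s := by nlinarith
  have hx : |x| = R * |c| := by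
    have : x = -(R * c) := by linarith
    rw [this, abs_neg, abs_mul, abs_of_pos hR]
  refine ⟨a7, a6, a4, a3, fun h => ?_, fun h => ?_, fun h => ?_⟩
  · have e : R * (R - 4 * s) = x ^ 2 + (800001 / 200000 - Y) * (1 / 200000 - Y) := by
      linear_combination h1 - 4 * h3
    have : 0 < R * (R - 4 * s) := by
      rw [e]
      rcases h with h | h
      · have : 0 < (800001 / 200000 - Y) * (1 / 200000 - Y) := mul_pos (by linarith) (by linarith)
        nlinarith [sq_nonneg x]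
      · have : 49 / 100 ≤ x ^ 2 := by rw [← sq_abs]; nlinarith
        nlinarith
    exact (mul_pos_iff_of_pos_left hR).mp this
  · have b1 : 17 / 100 ≤ |c| := by
      rw [hx] at h
      nlinarith [abs_nonneg c]
    refine ⟨b1, ?_⟩
    have : 289 / 10000 ≤ c ^ 2 := by rw [← sq_abs]; nlinarith
    nlinarith
  · have b1 : |c| ≤ 1 / 1000 := by
      rw [hx] at h
      nlinarith [abs_nonneg c]
    refine ⟨b1, ?_⟩
    have : c ^ 2 ≤ 1 / 1000000 := by rw [← sq_abs]; nlinarith [abs_nonneg c]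
    nlinarith

theorem V_facts {x y : ℝ} (x0 : -(85 / 100) ≤ x) (x1 : x ≤ 85 / 100) (y0 : 0 < y) (y1 : y ≤ d3)
    (τ : Bool) (hv : τ = false ∨ 7 / 10 ≤ |x|) :
    SegOK ⟨x, y⟩ (sV ⟨x, y⟩ τ) (uv ⟨x, y⟩ (EV τ)) ∧
    (∃ R : ℝ, EV τ - ⟨x, y⟩ = (R : ℂ) * uv ⟨x, y⟩ (EV τ)) ∧
    9 / 10 ≤ (uv ⟨x, y⟩ (EV τ)).im ^ 2 ∧ Ins (sV ⟨x, y⟩ τ) ∧
    (τ = false → (sV ⟨x, y⟩ τ).im < 0) ∧
    ∀ σ : Bool, SegOK (sV ⟨x, y⟩ τ) (CC σ τ) (rot (-(sb σ * sb τ)) (uv ⟨x, y⟩ (EV τ))) ∧
      (7 / 10 ≤ |x| →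
        (30 / 100 ≤ sb τ * (rot (-(sb σ * sb τ)) (uv ⟨x, y⟩ (EV τ))).im ∧
          sb τ * (rot (-(sb σ * sb τ)) (uv ⟨x, y⟩ (EV τ))).im ≤ 35 / 100) ∨
        (63 / 100 ≤ sb τ * (rot (-(sb σ * sb τ)) (uv ⟨x, y⟩ (EV τ))).im ∧
          sb τ * (rot (-(sb σ * sb τ)) (uv ⟨x, y⟩ (EV τ))).im ≤ 68 / 100)) ∧
      (|x| ≤ d3 → 49 / 100 ≤ sb τ * (rot (-(sb σ * sb τ)) (uv ⟨x, y⟩ (EV τ))).im ∧
          sb τ * (rot (-(sb σ * sb τ)) (uv ⟨x, y⟩ (EV τ))).im ≤ 51 / 100) := by
  have hr := r3_bd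
  have hs := r3_sq
  have hd := d3_pos
  have hne : dd 0 (sb τ * h4) x y ≠ 0 := by
    apply dd_ne_y
    unfold d3 at y1
    unfold h4
    rcases sb_cases τ with e | e <;> rw [e]
    · exact ne_of_lt (by linarith)
    · exact ne_of_gt (by linarith)
  obtain ⟨R, c, s, hR, h1, hu, h2, h3, h5⟩ := uv_facts hne
  have num := V_num (Y := sb τ * y) (R := R) (c := c) (s := sb τ * s) x0 x1
    (by rcases sb_cases τ with e | e <;> rw [e] <;> linarith)
    (by rcases sb_cases τ with e | e <;> rw [e] <;> linarith) hR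
    (by rcases sb_cases τ with e | e <;> rw [e] at h1 ⊢ <;> linarith) h2
    (by rcases sb_cases τ with e | e <;> rw [e] at h3 ⊢ <;> linarith)
    (by rcases sb_cases τ with e | e <;> rw [e] <;> linarith)
  obtain ⟨n1, n2, n3, n4, n5, n6, n7⟩ := num
  have gam : 0 < R - 4 * (sb τ * s) := by
    apply n5
    rcases hv with h | h
    · left; rw [h]; simp only [sb, Bool.false_eq_true, if_false]; linarith
    · exact Or.inr h
  have root : sV ⟨x, y⟩ τ - ⟨x, y⟩ = ((R - 4 * (sb τ * s) : ℝ) : ℂ) * ⟨c, s⟩ := by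
    unfold sV EV
    rw [hu]
    apply Complex.ext <;> simp only [Complex.sub_re, Complex.sub_im, Complex.mul_re,
      Complex.mul_im, Complex.ofReal_re, Complex.ofReal_im] <;> linarith
  have br : ∀ σ : Bool, CC σ τ - sV ⟨x, y⟩ τ =
      ((2 * (sb τ * s + sb σ * r3 * c) : ℝ) : ℂ) * rot (-(sb σ * sb τ)) ⟨c, s⟩ := by
    intro σ
    unfold sV EV CC rot
    rw [hu]
    unfold h4 b4
    apply Complex.ext <;> simp only [Complex.sub_re, Complex.sub_im, Complex.mul_re,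
      Complex.mul_im, Complex.ofReal_re, Complex.ofReal_im] <;>
      rcases sb_cases σ with e | e <;> rcases sb_cases τ with e' | e' <;> rw [e, e'] <;>
      first
        | linear_combination r3 * h5 + (c * s) * hs
        | linear_combination r3 * h5 - (c * s) * hs
        | linear_combination (-r3) * h5 + (c * s) * hs
        | linear_combination (-r3) * h5 - (c * s) * hs
        | linear_combination 3 * h5 + c ^ 2 * hs
        | linear_combination (-3) * h5 - c ^ 2 * hs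
  have rc : -(37 / 100) ≤ r3 * c ∧ r3 * c ≤ 37 / 100 := by constructor <;> nlinarith
  have al : ∀ σ : Bool, 0 < 2 * (sb τ * s + sb σ * r3 * c) := by
    intro σ
    rcases sb_cases σ with e | e <;> rw [e] <;> linarith [rc.1, rc.2]
  have S : ∀ σ : Bool, sb τ * (rot (-(sb σ * sb τ)) ⟨c, s⟩).im =
      sb τ * s / 2 - sb σ * (r3 * c) / 2 := by
    intro σ
    simp only [rot]
    rcases sb_cases τ with e | e <;> rw [e] <;> ring
  have C : ∀ σ : Bool, 0 < sb σ * (rot (-(sb σ * sb τ)) ⟨c, s⟩).re := by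
    intro σ
    simp only [rot]
    have : 1 ≤ r3 * (sb τ * s) := by nlinarith
    rcases sb_cases σ with e | e <;> rw [e] <;> linarith
  have ss : ∀ σ : Bool, -(sb σ * sb τ) = 1 ∨ -(sb σ * sb τ) = -1 := by
    intro σ; cases σ <;> cases τ <;> simp [sb]
  have hE : EV τ = ⟨0, sb τ * h4⟩ := rfl
  rw [hE, hu]
  refine ⟨⟨⟨_, gam, root⟩, h5⟩, ⟨R, ?_⟩, ?_, ?_, ?_,
    fun σ => ⟨⟨⟨_, al σ, br σ⟩, by rw [rot_sq (ss σ)]; exact h5⟩, ?_, ?_⟩⟩
  · apply Complex.ext <;> simp only [Complex.sub_re, Complex.sub_im, Complex.mul_re,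
      Complex.mul_im, Complex.ofReal_re, Complex.ofReal_im] <;> linarith
  · simp only; nlinarith
  · have q1 := congrArg Complex.im root
    have q2 := congrArg Complex.im (br true)
    have q3 := congrArg Complex.re (br true)
    have q4 := congrArg Complex.re (br false)
    have m1 : 0 < 2 * (sb τ * s + sb true * r3 * c) *
        (sb τ * (rot (-(sb true * sb τ)) ⟨c, s⟩).im) := by
      apply mul_pos (al true)
      rw [S true]
      simp only [sb, if_true] at *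
      linarith [rc.2]
    have m2 := mul_pos (al true) (C true)
    have m3 := mul_pos (al false) (C false)
    have m4 : 0 < (R - 4 * (sb τ * s)) * (sb τ * s) := mul_pos gam (by linarith)
    simp only [Complex.sub_re, Complex.sub_im, Complex.mul_re, Complex.mul_im, Complex.ofReal_re,
      Complex.ofReal_im, CC, zero_mul, sub_zero, add_zero] at q1 q2 q3 q4
    have t1 : sb true = 1 := rfl
    have t2 : sb false = -1 := rfl
    rw [t1] at q2 q3 m1 m2
    rw [t2] at q4 m3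
    unfold Ins
    have hb : b4 = 200001 / 200000 := rfl
    unfold d3 at y1
    rcases sb_cases τ with e | e <;> rw [e] at q1 q2 q3 q4 m1 m2 m3 m4 <;>
      refine ⟨?_, ?_, ?_, ?_⟩ <;> linarith
  · rintro rfl
    unfold sV EV
    rw [hu]
    simp only [Complex.sub_im, Complex.mul_im, Complex.ofReal_re, Complex.ofReal_im, sb,
      Bool.false_eq_true, if_false, h4]
    nlinarith [sq_nonneg c]
  · intro h
    obtain ⟨k1, k2⟩ := n6 h
    rw [S σ]
    rcases le_abs.mp k1 with k3 | k3 <;> rcases sb_cases σ with e | e <;> rw [e]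
    · left; constructor <;> nlinarith
    · right; constructor <;> nlinarith
    · right; constructor <;> nlinarith
    · left; constructor <;> nlinarith
  · intro h
    obtain ⟨k1, k2⟩ := n7 h
    rw [S σ]
    have k3 := abs_le.mp k1
    have : -(2 / 1000) ≤ r3 * c ∧ r3 * c ≤ 2 / 1000 := by constructor <;> nlinarith [k3.1, k3.2]
    rcases sb_cases σ with e | e <;> rw [e] <;> constructor <;> linarith [this.1, this.2]

lemma C_num {X Y R s : ℝ} (y0 : -d3 ≤ Y) (y1 : Y ≤ d3) (hR : 0 < R)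
    (h1 : R ^ 2 = (r3 - X) ^ 2 + (b4 - Y) ^ 2) (h3 : R * s = b4 - Y) :
    (7 / 10 ≤ X → X ≤ 85 / 100 → 69 / 100 ≤ s ∧ s ≤ 76 / 100) ∧
      (|X| ≤ d3 → 49 / 100 ≤ s ∧ s ≤ 51 / 100) := by
  have hr := r3_bd
  unfold d3 b4 at *
  constructor
  · intro a1 a2
    have b1 : 132 / 100 ≤ R := by nlinarith
    have b2 : R ≤ 144 / 100 := by nlinarith
    constructor <;> nlinarith
  · intro a
    have a' := abs_le.mp a
    have b1 : 199 / 100 ≤ R := by nlinarith [a'.1, a'.2]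
    have b2 : R ≤ 201 / 100 := by nlinarith [a'.1, a'.2]
    constructor <;> nlinarith

theorem C_facts {x y : ℝ} (y0 : 0 < y) (y1 : y ≤ d3) (σ τ : Bool) :
    SegOK ⟨x, y⟩ (CC σ τ) (uv ⟨x, y⟩ (CC σ τ)) ∧
    (7 / 10 ≤ sb σ * x → sb σ * x ≤ 85 / 100 → 69 / 100 ≤ sb τ * (uv ⟨x, y⟩ (CC σ τ)).im ∧
      sb τ * (uv ⟨x, y⟩ (CC σ τ)).im ≤ 76 / 100) ∧
    (|x| ≤ d3 → 49 / 100 ≤ sb τ * (uv ⟨x, y⟩ (CC σ τ)).im ∧
      sb τ * (uv ⟨x, y⟩ (CC σ τ)).im ≤ 51 / 100) := by
  have hd := d3_pos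
  have hy : y ≠ sb τ * b4 := by
    unfold d3 at y1
    unfold b4
    rcases sb_cases τ with e | e <;> rw [e]
    · exact ne_of_lt (by linarith)
    · exact ne_of_gt (by linarith)
  obtain ⟨R, c, s, hR, h1, hu, h2, h3, h5⟩ := uv_facts (A := sb σ * r3) (x := x) (dd_ne_y hy)
  have num := C_num (X := sb σ * x) (Y := sb τ * y) (R := R) (s := sb τ * s)
    (by rcases sb_cases τ with e | e <;> rw [e] <;> linarith)
    (by rcases sb_cases τ with e | e <;> rw [e] <;> linarith) hR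
    (by rcases sb_cases τ with e | e <;> rcases sb_cases σ with e' | e' <;>
      rw [e, e'] at h1 ⊢ <;> linarith)
    (by rcases sb_cases τ with e | e <;> rw [e] at h3 ⊢ <;> linarith)
  refine ⟨segOK_uv (fun h => hy (congrArg Complex.im h)), ?_, ?_⟩
  · unfold CC; rw [hu]; exact num.1
  · unfold CC; rw [hu]
    intro h
    apply num.2
    rcases sb_cases σ with e | e <;> rw [e] <;> simpa using h

lemma ins_seg {p q z : ℂ} (hp : Ins p) (hq : Ins q) (hz : z ∈ segment ℝ p q) : Ins z := by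
  obtain ⟨a, b, a0, b0, ab, rfl⟩ := hz
  obtain ⟨p1, p2, p3, p4⟩ := hp
  obtain ⟨q1, q2, q3, q4⟩ := hq
  have key : ∀ u v L : ℝ, u < L → v < L → a * u + b * v < L := by
    intro u v L h1 h2
    rcases a0.lt_or_eq with h | h
    · have : a * L + b * L = L := by rw [← add_mul, ab, one_mul]
      linarith [mul_lt_mul_of_pos_left h1 h, mul_le_mul_of_nonneg_left h2.le b0]
    · have : b = 1 := by linarith
      rw [← h, this]; linarith
  simp only [Ins, Complex.add_re, Complex.add_im, Complex.smul_re, Complex.smul_im, smul_eq_mul]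
  have k1 := key (-p.re) (-q.re) r3 (by linarith) (by linarith)
  have k2 := key (-p.im) (-q.im) b4 (by linarith) (by linarith)
  exact ⟨by linarith, key _ _ _ p2 q2, by linarith, key _ _ _ p4 q4⟩

lemma not_ins (σ τ : Bool) : ¬ Ins (CC σ τ) := by
  rintro ⟨h1, h2, -, -⟩
  simp only [CC] at h1 h2
  rcases sb_cases σ with e | e <;> rw [e] at h1 h2 <;> linarith

lemma corner_seg {p : ℂ} (hp : Ins p) {σ τ σ' τ' : Bool}
    (hz : CC σ' τ' ∈ segment ℝ p (CC σ τ)) : CC σ' τ' = CC σ τ := by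
  obtain ⟨t, t0, t1, ht⟩ := mem_seg.mp hz
  rcases t1.lt_or_eq with h | h
  · exfalso
    have := congrArg Complex.re ht
    obtain ⟨p1, p2, -, -⟩ := hp
    simp only [CC, Complex.add_re, Complex.mul_re, Complex.ofReal_re, Complex.ofReal_im,
      Complex.sub_re, zero_mul, sub_zero] at this
    have hr := r3_bd
    have m1 := mul_pos (sub_pos.mpr h) (sub_pos.mpr p2)
    have m2 := mul_pos (sub_pos.mpr h) (sub_pos.mpr p1)
    have m3 := mul_nonneg t0 (by linarith : 0 ≤ r3)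
    rcases sb_cases σ with e | e <;> rcases sb_cases σ' with e' | e' <;> rw [e, e'] at this <;>
      nlinarith
  · rw [ht, h]; simp

end

end Pool.Agent.H18.Net
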