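import Pool.Agent.H18.Net13

set_option autoImplicit false

namespace Pool.Agent.H18.Net

open Set

noncomputable section
open Classical

/-- start points -/
def p4 (x y : ℕ → ℝ) (i : ℕ × Fin 6 × Bool × Bool) : ℂ :=
  if i.2.1 = 3 then sH (wv x y i.1) i.2.2.1 else if i.2.1 = 5 then sV (wv x y i.1) i.2.2.2
    else wv x y i.1
/-- end points -/
def q4 (x y : ℕ → ℝ) (i : ℕ × Fin 6 × Bool × Bool) : ℂ :=
  if i.2.1 = 0 then wv x y (i.1 + 1) else if i.2.1 = 2 then sH (wv x y i.1) i.2.2.1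
    else if i.2.1 = 4 then sV (wv x y i.1) i.2.2.2 else CC i.2.2.1 i.2.2.2
/-- directions -/
def v4 (x y : ℕ → ℝ) (i : ℕ × Fin 6 × Bool × Bool) : ℂ :=
  if i.2.1 = 0 then uv (wv x y i.1) (wv x y (i.1 + 1))
  else if i.2.1 = 1 then uv (wv x y i.1) (CC i.2.2.1 i.2.2.2)
  else if i.2.1 = 2 then uv (wv x y i.1) (EH i.2.2.1)
  else if i.2.1 = 3 then rot (sb i.2.2.1 * sb i.2.2.2) (uv (wv x y i.1) (EH i.2.2.1))
  else if i.2.1 = 4 then uv (wv x y i.1) (EV i.2.2.2)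
  else rot (-(sb i.2.2.1 * sb i.2.2.2)) (uv (wv x y i.1) (EV i.2.2.2))

/-- which horizontal gadgets are used -/
def Hok (n k : ℕ) (s : Bool) : Prop := (s = true ∧ k % 2 = 0) ∨ (s = false ∧ (k % 2 = 1 ∨ k = n))
/-- which vertical gadgets are used -/
def Vok (k : ℕ) (t : Bool) : Prop := t = false ∨ 2 ≤ k
/-- which direct edges are used -/
def Rok (k : ℕ) (s t : Bool) : Prop :=
  (k = 1 ∧ t = true) ∨ (2 ≤ k ∧ ((s = true ∧ k % 2 = 0) ∨ (s = false ∧ k % 2 = 1)))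

/-- valid indices -/
def val (n : ℕ) (i : ℕ × Fin 6 × Bool × Bool) : Prop :=
  1 ≤ i.1 ∧ (if i.2.1 = 0 then i.1 < n ∧ i.2.2.1 = true ∧ i.2.2.2 = true
  else if i.2.1 = 1 then Rok i.1 i.2.2.1 i.2.2.2
  else if i.2.1 = 2 then i.2.2.2 = true ∧ Hok n i.1 i.2.2.1
  else if i.2.1 = 3 then Hok n i.1 i.2.2.1
  else if i.2.1 = 4 then i.2.2.1 = true ∧ Vok i.1 i.2.2.2
  else Vok i.1 i.2.2.2)

/-- index set -/
def J4 (n : ℕ) : Finset (ℕ × Fin 6 × Bool × Bool) :=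
  (Finset.range (n + 1) ×ˢ Finset.univ).filter (val n)

lemma mem_J4 {n : ℕ} {i : ℕ × Fin 6 × Bool × Bool} : i ∈ J4 n ↔ i.1 ≤ n ∧ val n i := by
  simp [J4, Nat.lt_succ_iff]

lemma six (t : Fin 6) : t = 0 ∨ t = 1 ∨ t = 2 ∨ t = 3 ∨ t = 4 ∨ t = 5 := by
  fin_cases t <;> simp

variable {n : ℕ} {x y : ℕ → ℝ}

lemma Pre4.yp (g : Pre4 n x y) {k : ℕ} (k1 : 1 ≤ k) (k2 : k ≤ n) : 0 < y k := (g.mono.1 k k1 k2).1

lemma Pre4.absx (g : Pre4 n x y) {k : ℕ} (k1 : 2 ≤ k) (k2 : k ≤ n) : 7 / 10 ≤ |x k| := by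
  have := g.hxs k k1 k2
  rw [le_abs]
  rcases sg_cases k with e | e <;> rw [e] at this
  · left; linarith [this.1]
  · right; linarith [this.1]

lemma Pre4.absx1 (g : Pre4 n x y) : |x 1| ≤ d3 := by
  have := g.hx1
  have := d3_pos
  rw [abs_le]; constructor <;> linarith [g.hx1.1, g.hx1.2]

lemma Pre4.HF (g : Pre4 n x y) {k : ℕ} (k1 : 1 ≤ k) (k2 : k ≤ n) (σ : Bool) :
    SegOK (wv x y k) (sH (wv x y k) σ) (uv (wv x y k) (EH σ)) ∧
    (∃ R : ℝ, EH σ - wv x y k = (R : ℂ) * uv (wv x y k) (EH σ)) ∧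
    (uv (wv x y k) (EH σ)).im ^ 2 ≤ 1 / 100 ∧ Ins (sH (wv x y k) σ) ∧
    ∀ τ : Bool, SegOK (sH (wv x y k) σ) (CC σ τ) (rot (sb σ * sb τ) (uv (wv x y k) (EH σ))) ∧
      85 / 100 ≤ sb τ * (rot (sb σ * sb τ) (uv (wv x y k) (EH σ))).im ∧
      sb τ * (rot (sb σ * sb τ) (uv (wv x y k) (EH σ))).im ≤ 88 / 100 :=
  H_facts (g.hxx k k1 k2).1 (g.hxx k k1 k2).2 (g.yp k1 k2) (g.hy' k).2 σ

lemma Pre4.VF (g : Pre4 n x y) {k : ℕ} (k1 : 1 ≤ k) (k2 : k ≤ n) {τ : Bool} (hv : Vok k τ) :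
    SegOK (wv x y k) (sV (wv x y k) τ) (uv (wv x y k) (EV τ)) ∧
    (∃ R : ℝ, EV τ - wv x y k = (R : ℂ) * uv (wv x y k) (EV τ)) ∧
    9 / 10 ≤ (uv (wv x y k) (EV τ)).im ^ 2 ∧ Ins (sV (wv x y k) τ) ∧
    (τ = false → (sV (wv x y k) τ).im < 0) ∧
    ∀ σ : Bool, SegOK (sV (wv x y k) τ) (CC σ τ) (rot (-(sb σ * sb τ)) (uv (wv x y k) (EV τ))) ∧
      (7 / 10 ≤ |x k| →
        (30 / 100 ≤ sb τ * (rot (-(sb σ * sb τ)) (uv (wv x y k) (EV τ))).im ∧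
          sb τ * (rot (-(sb σ * sb τ)) (uv (wv x y k) (EV τ))).im ≤ 35 / 100) ∨
        (63 / 100 ≤ sb τ * (rot (-(sb σ * sb τ)) (uv (wv x y k) (EV τ))).im ∧
          sb τ * (rot (-(sb σ * sb τ)) (uv (wv x y k) (EV τ))).im ≤ 68 / 100)) ∧
      (|x k| ≤ d3 → 49 / 100 ≤ sb τ * (rot (-(sb σ * sb τ)) (uv (wv x y k) (EV τ))).im ∧
          sb τ * (rot (-(sb σ * sb τ)) (uv (wv x y k) (EV τ))).im ≤ 51 / 100) :=
  V_facts (g.hxx k k1 k2).1 (g.hxx k k1 k2).2 (g.yp k1 k2) (g.hy' k).2 τ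
    (hv.imp id (fun h => g.absx h k2))

lemma Pre4.insw (g : Pre4 n x y) {k : ℕ} (k1 : 1 ≤ k) (k2 : k ≤ n) : Ins (wv x y k) := by
  have h1 := g.hxx k k1 k2
  have h2 := g.hy' k
  have := r3_bd
  unfold d3 at h2
  simp only [Ins, wv, b4]
  refine ⟨?_, ?_, ?_, ?_⟩ <;> linarith [h1.1, h1.2, h2.1, h2.2]

lemma Pre4.inj (g : Pre4 n x y) {a b : ℕ} (a1 : 1 ≤ a) (ha : a ≤ n + 1) (b1 : 1 ≤ b)
    (hb : b ≤ n + 1) (h : wv x y a = wv x y b) : a = b := by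
  have h1 : y a = y b := congrArg Complex.im h
  rcases lt_trichotomy a b with h2 | h2 | h2
  · linarith [g.mono.2.1 a b a1 h2 hb]
  · exact h2
  · linarith [g.mono.2.1 b a b1 h2 ha]

lemma Pre4.seg (g : Pre4 n x y) {i : ℕ × Fin 6 × Bool × Bool} (hi : i ∈ J4 n) :
    SegOK (p4 x y i) (q4 x y i) (v4 x y i) ∧ Ins (p4 x y i) := by
  obtain ⟨k, t, σ, τ⟩ := i
  obtain ⟨k2, k1, hv⟩ := mem_J4.mp hi
  simp only at k1 k2
  rcases six t with rfl | rfl | rfl | rfl | rfl | rfl <;> simp [p4, q4, v4] at hv ⊢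
  · refine ⟨segOK_uv (fun h => ?_), g.insw k1 k2⟩
    have := g.inj k1 (by omega) (by omega) (by omega) h
    omega
  · exact ⟨(C_facts (g.yp k1 k2) (g.hy' k).2 σ τ).1, g.insw k1 k2⟩
  · exact ⟨(g.HF k1 k2 σ).1, g.insw k1 k2⟩
  · exact ⟨((g.HF k1 k2 σ).2.2.2.2 τ).1, (g.HF k1 k2 σ).2.2.2.1⟩
  · exact ⟨(g.VF k1 k2 hv.2).1, g.insw k1 k2⟩
  · exact ⟨((g.VF k1 k2 hv).2.2.2.2.2 σ).1, (g.VF k1 k2 hv).2.2.2.1⟩

lemma cr_swap (E a b : ℂ) : cr (E - a) (b - a) = - cr (E - b) (a - b) := by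
  simp only [cr, Complex.sub_re, Complex.sub_im]; ring

lemma Pre4.NC (g : Pre4 n x y) {k l : ℕ} (k1 : 1 ≤ k) (k2 : k ≤ n) (l1 : 1 ≤ l) (l2 : l ≤ n)
    {E : ℂ} (hE : (∃ σ, E = EH σ) ∨ (∃ τ, E = EV τ) ∨ ∃ σ τ, E = CC σ τ)
    (h : cr (E - wv x y k) (wv x y l - wv x y k) = 0) : k = l := by
  have key : ∀ k l, 1 ≤ k → k < l → l ≤ n → cr (E - wv x y k) (wv x y l - wv x y k) ≠ 0 := by
    intro k l k1 kl l2 h
    simp only [cr, wv, Complex.sub_re, Complex.sub_im] at h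
    rcases hE with ⟨σ, rfl⟩ | ⟨τ, rfl⟩ | ⟨σ, τ, rfl⟩
    · have := g.hA (sb_cases σ) k l k1 kl l2
      simp only [EH] at h
      rcases sb_cases σ with e | e <;> rw [e] at h this <;> linarith
    · apply g.hB k l k1 kl l2 (A := 0) (B := sb τ * h4) (Or.inl rfl)
      · cases τ <;> norm_num [sb, h4, abs_of_pos]
      · cases τ <;> norm_num [sb, h4, abs_of_pos]
      · simp only [EV] at h; linarith
    · apply g.hB k l k1 kl l2 (A := sb σ * r3) (B := sb τ * b4)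
      · cases σ <;> simp [sb]
      · cases τ <;> norm_num [sb, b4, abs_of_pos]
      · cases τ <;> norm_num [sb, b4, abs_of_pos]
      · simp only [CC] at h; linarith
  rcases lt_trichotomy k l with h2 | h2 | h2
  · exact absurd h (key k l k1 h2 l2)
  · exact h2
  · rw [cr_swap, neg_eq_zero] at h
    exact absurd h (key l k l1 h2 k2)

lemma Pre4.low (g : Pre4 n x y) {k : ℕ} {t : Fin 6} {σ τ : Bool} (hi : (k, t, σ, τ) ∈ J4 n)
    (ht : t = 0 ∨ t = 2) : (v4 x y (k, t, σ, τ)).im ^ 2 ≤ 1 / 100 := by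
  obtain ⟨k2, k1, hv⟩ := mem_J4.mp hi
  simp only at k1 k2
  rcases ht with rfl | rfl <;> simp [v4]
  · rw [uv_wv]
    have := g.hsb k k2
    unfold d3 at this
    simp only
    rw [neg_sq, ← sq_abs]
    nlinarith [abs_nonneg (sA x y k)]
  · simpa using (g.HF k1 k2 σ).2.2.1

lemma Pre4.high (g : Pre4 n x y) {k : ℕ} {σ τ : Bool} (hi : (k, (4 : Fin 6), σ, τ) ∈ J4 n) :
    9 / 10 ≤ (v4 x y (k, 4, σ, τ)).im ^ 2 := by
  obtain ⟨k2, k1, hv⟩ := mem_J4.mp hi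
  simp only at k1 k2
  simp [v4] at hv ⊢
  exact (g.VF k1 k2 hv.2).2.2.1

/-- slope classes of the edges ending at a corner -/
def Cls (k : ℕ) (t : Fin 6) (τ : Bool) (S : ℝ) : Prop :=
  (t = 1 ∧ 69 / 100 ≤ S ∧ S ≤ 76 / 100) ∨
  (((t = 1 ∧ τ = true) ∨ (t = 5 ∧ τ = false)) ∧ k = 1 ∧ 49 / 100 ≤ S ∧ S ≤ 51 / 100) ∨
  (t = 3 ∧ 85 / 100 ≤ S ∧ S ≤ 88 / 100) ∨
  (t = 5 ∧ 30 / 100 ≤ S ∧ S ≤ 35 / 100) ∨ (t = 5 ∧ 63 / 100 ≤ S ∧ S ≤ 68 / 100)

lemma Pre4.cls (g : Pre4 n x y) {k : ℕ} {t : Fin 6} {σ τ : Bool} (hi : (k, t, σ, τ) ∈ J4 n)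
    (ht : t = 1 ∨ t = 3 ∨ t = 5) : Cls k t τ (sb τ * (v4 x y (k, t, σ, τ)).im) := by
  obtain ⟨k2, k1, hv⟩ := mem_J4.mp hi
  simp only at k1 k2
  rcases ht with rfl | rfl | rfl
  · have e : v4 x y (k, 1, σ, τ) = uv (wv x y k) (CC σ τ) := by simp [v4]
    rw [e]
    have hv' : Rok k σ τ := by simpa using hv
    have f := C_facts (x := x k) (g.yp k1 k2) (g.hy' k).2 σ τ
    rcases hv' with ⟨rfl, h⟩ | ⟨h1, h2⟩
    · exact Or.inr (Or.inl ⟨Or.inl ⟨rfl, h⟩, rfl, f.2.2 g.absx1⟩)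
    · have b := g.hxs k h1 k2
      have : sg k = sb σ := by
        rcases h2 with ⟨rfl, h⟩ | ⟨rfl, h⟩
        · rw [sg_even h]; rfl
        · rw [sg_odd h]; rfl
      rw [this] at b
      exact Or.inl ⟨rfl, f.2.1 b.1 b.2⟩
  · have e : v4 x y (k, 3, σ, τ) = rot (sb σ * sb τ) (uv (wv x y k) (EH σ)) := by simp [v4]
    rw [e]
    exact Or.inr (Or.inr (Or.inl ⟨rfl, ((g.HF k1 k2 σ).2.2.2.2 τ).2⟩))
  · have e : v4 x y (k, 5, σ, τ) = rot (-(sb σ * sb τ)) (uv (wv x y k) (EV τ)) := by simp [v4]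
    rw [e]
    have hv' : Vok k τ := by simpa using hv
    have f := ((g.VF k1 k2 hv').2.2.2.2.2 σ).2
    rcases k1.lt_or_eq with h | h
    · rcases f.1 (g.absx h k2) with h2 | h2
      · exact Or.inr (Or.inr (Or.inr (Or.inl ⟨rfl, h2⟩)))
      · exact Or.inr (Or.inr (Or.inr (Or.inr ⟨rfl, h2⟩)))
    · subst h
      have : τ = false := hv'.resolve_right (by omega)
      exact Or.inr (Or.inl ⟨Or.inr ⟨rfl, this⟩, rfl, f.2 g.absx1⟩)

lemma Cls.bd {k : ℕ} {t : Fin 6} {τ : Bool} {S : ℝ} (h : Cls k t τ S) :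
    30 / 100 ≤ S ∧ S ≤ 88 / 100 := by
  rcases h with h | h | h | h | h
  · constructor <;> linarith [h.2.1, h.2.2]
  · constructor <;> linarith [h.2.2.1, h.2.2.2]
  all_goals constructor <;> linarith [h.2.1, h.2.2]

lemma Cls.sq {k : ℕ} {t : Fin 6} {τ : Bool} {a : ℝ} (h : Cls k t τ (sb τ * a)) :
    9 / 100 ≤ a ^ 2 ∧ a ^ 2 ≤ 8 / 10 := by
  have := h.bd
  rcases sb_cases τ with e | e <;> rw [e] at this <;> constructor <;> nlinarith [this.1, this.2]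

lemma Cls.same {k l : ℕ} {t t' : Fin 6} {τ : Bool} {S : ℝ} (h : Cls k t τ S) (h' : Cls l t' τ S) :
    t = t' := by
  rcases h with h | h | h | h | h <;> rcases h' with h' | h' | h' | h' | h' <;>
    first
      | exact h.1.trans h'.1.symm
      | (exfalso; linarith [h.2.1, h.2.2, h'.2.1, h'.2.2])
      | (exfalso; linarith [h.2.2.1, h.2.2.2, h'.2.1, h'.2.2])
      | (exfalso; linarith [h.2.1, h.2.2, h'.2.2.1, h'.2.2.2])
      | (rcases h.1 with a | a <;> rcases h'.1 with b | b <;> simp_all)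

lemma Cls.half {k : ℕ} {t : Fin 6} {τ : Bool} {S : ℝ} (h : Cls k t τ S) (h1 : 49 / 100 ≤ S)
    (h2 : S ≤ 51 / 100) : ((t = 1 ∧ τ = true) ∨ (t = 5 ∧ τ = false)) ∧ k = 1 := by
  rcases h with h | h | h | h | h
  · exfalso; linarith [h.2.1]
  · exact ⟨h.1, h.2.1⟩
  all_goals exfalso; linarith [h.2.1, h.2.2]

lemma diag {c s : ℝ} {σ τ σ' τ' : Bool} (h : c ^ 2 + s ^ 2 = 1) (h1 : 9 / 100 ≤ s ^ 2)
    (h2 : s ^ 2 ≤ 8 / 10) (hne : (σ, τ) ≠ (σ', τ'))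
    (hc : cr ⟨c, s⟩ (CC σ' τ' - CC σ τ) = 0) :
    τ ≠ τ' ∧ 2401 / 10000 ≤ s ^ 2 ∧ s ^ 2 ≤ 2601 / 10000 := by
  have hr := r3_bd
  have hs := r3_sq
  have k : ∀ a b : ℝ, a = 1 ∨ a = -1 → c * b4 = a * (s * r3) →
      2401 / 10000 ≤ s ^ 2 ∧ s ^ 2 ≤ 2601 / 10000 := by
    intro a _ ha e
    have e2 : (c * b4) ^ 2 = 3 * s ^ 2 := by
      rw [e]; rcases ha with rfl | rfl <;> linear_combination s ^ 2 * hs
    unfold b4 at e2
    constructor <;> nlinarith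
  have z1 : s * r3 = 0 → False := by
    intro e
    have : s = 0 := (mul_eq_zero.mp e).resolve_right (by linarith)
    rw [this] at h1; norm_num at h1
  have z2 : c * b4 = 0 → False := by
    intro e
    have : c = 0 := (mul_eq_zero.mp e).resolve_right (by norm_num [b4])
    rw [this] at h; nlinarith
  simp only [cr, CC, Complex.sub_re, Complex.sub_im] at hc
  cases σ <;> cases τ <;> cases σ' <;> cases τ' <;>
    simp only [sb, Bool.false_eq_true, if_false, if_true] at hc <;>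
    first
      | exact absurd rfl hne
      | exact (z1 (by linarith)).elim
      | exact (z2 (by linarith)).elim
      | exact ⟨by simp, k 1 0 (Or.inl rfl) (by linarith)⟩
      | exact ⟨by simp, k (-1) 0 (Or.inr rfl) (by linarith)⟩

lemma im_pos {p q z : ℂ} (hp : 0 < p.im) (hq : 0 < q.im) (hz : z ∈ segment ℝ p q) : 0 < z.im := by
  obtain ⟨t, t0, t1, rfl⟩ := mem_seg.mp hz
  simp only [Complex.add_im, Complex.mul_im, Complex.ofReal_re, Complex.ofReal_im,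
    Complex.sub_im, zero_mul, add_zero]
  rcases t1.lt_or_eq with h | h
  · nlinarith [mul_pos (sub_pos.mpr h) hp, mul_nonneg t0 hq.le]
  · rw [h]; linarith

lemma im_neg {p q z : ℂ} (hp : p.im < 0) (hq : q.im < 0) (hz : z ∈ segment ℝ p q) : z.im < 0 := by
  obtain ⟨t, t0, t1, rfl⟩ := mem_seg.mp hz
  simp only [Complex.add_im, Complex.mul_im, Complex.ofReal_re, Complex.ofReal_im,
    Complex.sub_im, zero_mul, add_zero]
  rcases t1.lt_or_eq with h | h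
  · nlinarith [mul_pos (sub_pos.mpr h) (neg_pos.mpr hp), mul_nonneg t0 (neg_pos.mpr hq).le]
  · rw [h]; linarith

lemma par_pole {E a b u v : ℂ} {R R' : ℝ} (h1 : E - a = (R : ℂ) * u) (h2 : E - b = (R' : ℂ) * v)
    (h : cr u v = 0) : cr (E - a) (b - a) = 0 := by
  have : b - a = (R : ℂ) * u - (R' : ℂ) * v := by rw [← h1, ← h2]; ring
  rw [this, h1]
  simp only [cr, Complex.sub_re, Complex.sub_im, Complex.mul_re, Complex.mul_im, Complex.ofReal_re,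
    Complex.ofReal_im, zero_mul, sub_zero, add_zero] at *
  linear_combination (-(R * R')) * h

lemma Pre4.cc (g : Pre4 n x y) {k l : ℕ} {t t' : Fin 6} {σ τ σ' τ' : Bool}
    (hi : (k, t, σ, τ) ∈ J4 n) (hj : (l, t', σ', τ') ∈ J4 n) (ht : t = 1 ∨ t = 3 ∨ t = 5)
    (ht' : t' = 1 ∨ t' = 3 ∨ t' = 5)
    (hn : ¬ (segment ℝ (p4 x y (k, t, σ, τ)) (q4 x y (k, t, σ, τ)) ∩
      segment ℝ (p4 x y (l, t', σ', τ')) (q4 x y (l, t', σ', τ'))).Subsingleton) :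
    (k, t, σ, τ) = (l, t', σ', τ') := by
  have s1 := (g.seg hi).1
  have s2 := (g.seg hj).1
  obtain ⟨o1, o2, o3⟩ := ov s1 s2 hn
  have c1 := g.cls hi ht
  have c2 := g.cls hj ht'
  have qa : q4 x y (k, t, σ, τ) = CC σ τ := by rcases ht with rfl | rfl | rfl <;> simp [q4]
  have qb : q4 x y (l, t', σ', τ') = CC σ' τ' := by rcases ht' with rfl | rfl | rfl <;> simp [q4]
  have eS : sb τ * (v4 x y (k, t, σ, τ)).im = sb τ' * (v4 x y (l, t', σ', τ')).im := by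
    have b1 := c1.bd
    have b2 := c2.bd
    apply (pow_left_inj₀ (by linarith [b1.1]) (by linarith [b2.1]) two_ne_zero).mp
    rcases sb_cases τ with e | e <;> rcases sb_cases τ' with e' | e' <;> rw [e, e'] <;> linarith
  obtain ⟨k2, k1, hv⟩ := mem_J4.mp hi
  obtain ⟨l2, l1, hv'⟩ := mem_J4.mp hj
  simp only at k1 k2 l1 l2
  obtain ⟨⟨α, -, a2⟩, a3⟩ := s1
  obtain ⟨⟨β, -, b2⟩, -⟩ := s2
  by_cases hc : (σ, τ) = (σ', τ')
  · obtain ⟨rfl, rfl⟩ := Prod.ext_iff.mp hc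
    simp only at *
    rw [← eS] at c2
    have := c1.same c2
    subst this
    suffices h : k = l by rw [h]
    rcases ht with rfl | rfl | rfl
    · have e1 : p4 x y (k, 1, σ, τ) = wv x y k := by simp [p4]
      have e2 : p4 x y (l, 1, σ, τ) = wv x y l := by simp [p4]
      apply g.NC k1 k2 l1 l2 (Or.inr (Or.inr ⟨σ, τ, rfl⟩))
      have m := on1 a2
      rw [qa] at m
      rw [e2] at o2
      rw [e1] at o2 m
      exact col3 a3 m (on0 _ _) o2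
    · obtain ⟨R, h1⟩ := (g.HF k1 k2 σ).2.1
      obtain ⟨R', h2⟩ := (g.HF l1 l2 σ).2.1
      apply g.NC k1 k2 l1 l2 (Or.inl ⟨σ, rfl⟩)
      apply par_pole h1 h2
      rw [← rot_cr (η := sb σ * sb τ) (by cases σ <;> cases τ <;> simp [sb])]
      simpa [v4] using o1
    · obtain ⟨R, h1⟩ := (g.VF k1 k2 (τ := τ) (by simpa using hv)).2.1
      obtain ⟨R', h2⟩ := (g.VF l1 l2 (τ := τ) (by simpa using hv')).2.1
      apply g.NC k1 k2 l1 l2 (Or.inr (Or.inl ⟨τ, rfl⟩))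
      apply par_pole h1 h2
      rw [← rot_cr (η := -(sb σ * sb τ)) (by cases σ <;> cases τ <;> simp [sb])]
      simpa [v4] using o1
  · exfalso
    have m1 := on1 a2
    have m2 := on2 o1 o2 b2
    rw [qa] at m1
    rw [qb] at m2
    have m3 : cr (v4 x y (k, t, σ, τ)) (CC σ' τ' - CC σ τ) = 0 := by
      simp only [cr, Complex.sub_re, Complex.sub_im] at m1 m2 ⊢
      linarith
    obtain ⟨d1, d2, d3'⟩ := diag a3 c1.sq.1 c1.sq.2 hc m3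
    have b1 := c1.bd
    have h1 : 49 / 100 ≤ sb τ * (v4 x y (k, t, σ, τ)).im ∧
        sb τ * (v4 x y (k, t, σ, τ)).im ≤ 51 / 100 := by
      rcases sb_cases τ with e | e <;> rw [e] at b1 ⊢ <;> constructor <;> nlinarith [b1.1]
    obtain ⟨u1, rfl⟩ := c1.half h1.1 h1.2
    obtain ⟨u2, rfl⟩ := c2.half (eS ▸ h1.1) (eS ▸ h1.2)
    rw [not_subsingleton_iff] at hn
    obtain ⟨z, ⟨z1, z2⟩, -⟩ := hn
    have y1 : 0 < (wv x y 1).im := g.yp k1 k2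
    have y2 := (g.VF k1 k2 (τ := false) (Or.inl rfl)).2.2.2.2.1 rfl
    have y3 : ∀ s, 0 < (CC s true).im := by intro s; norm_num [CC, sb, b4]
    have y4 : ∀ s, (CC s false).im < 0 := by intro s; norm_num [CC, sb, b4]
    rcases u1 with ⟨rfl, rfl⟩ | ⟨rfl, rfl⟩ <;> rcases u2 with ⟨rfl, rfl⟩ | ⟨rfl, rfl⟩
    · exact d1 rfl
    · rw [qa] at z1; rw [qb] at z2
      simp [p4] at z1 z2
      linarith [im_pos y1 (y3 _) z1, im_neg y2 (y4 _) z2]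
    · rw [qa] at z1; rw [qb] at z2
      simp [p4] at z1 z2
      linarith [im_pos y1 (y3 _) z2, im_neg y2 (y4 _) z1]
    · exact d1 rfl

end

end Pool.Agent.H18.Net
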