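import Pool.Agent.H18.Net14

set_option autoImplicit false

namespace Pool.Agent.H18.Net

open Set

noncomputable section
open Classical

variable {n : ℕ} {x y : ℕ → ℝ}

lemma Pre4.c02 (g : Pre4 n x y) {k l : ℕ} {σ τ σ' τ' : Bool}
    (hi : (k, (2 : Fin 6), σ, τ) ∈ J4 n) (hj : (l, (0 : Fin 6), σ', τ') ∈ J4 n) :
    (segment ℝ (p4 x y (k, 2, σ, τ)) (q4 x y (k, 2, σ, τ)) ∩
      segment ℝ (p4 x y (l, 0, σ', τ')) (q4 x y (l, 0, σ', τ'))).Subsingleton := by
  by_contra hn
  have s1 := (g.seg hi).1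
  have s2 := (g.seg hj).1
  obtain ⟨o1, o2, -⟩ := ov s1 s2 hn
  obtain ⟨k2, k1, -⟩ := mem_J4.mp hi
  obtain ⟨l2, l1, hv'⟩ := mem_J4.mp hj
  simp only at k1 k2 l1 l2
  have l3 : l < n := by simp at hv'; exact hv'.1
  obtain ⟨⟨β, -, b2⟩, -⟩ := s2
  have m2 := on2 o1 o2 b2
  obtain ⟨R, h1⟩ := (g.HF k1 k2 σ).2.1
  have m1 := on1 h1
  have a3 := s1.2
  simp [p4, q4, v4] at o2 m2 a3
  have := g.NC l1 l2 (by omega) l3 (Or.inl ⟨σ, rfl⟩) (col3 a3 m1 o2 m2)
  omega

lemma Pre4.c22 (g : Pre4 n x y) {k l : ℕ} {σ τ σ' τ' : Bool}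
    (hi : (k, (2 : Fin 6), σ, τ) ∈ J4 n) (hj : (l, (2 : Fin 6), σ', τ') ∈ J4 n)
    (hn : ¬ (segment ℝ (p4 x y (k, 2, σ, τ)) (q4 x y (k, 2, σ, τ)) ∩
      segment ℝ (p4 x y (l, 2, σ', τ')) (q4 x y (l, 2, σ', τ'))).Subsingleton) :
    (k, (2 : Fin 6), σ, τ) = (l, 2, σ', τ') := by
  have s1 := (g.seg hi).1
  have s2 := (g.seg hj).1
  obtain ⟨o1, o2, -⟩ := ov s1 s2 hn
  obtain ⟨k2, k1, hv⟩ := mem_J4.mp hi
  obtain ⟨l2, l1, hv'⟩ := mem_J4.mp hj
  simp only at k1 k2 l1 l2
  have t1 : τ = true := by simp at hv; exact hv.1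
  have t2 : τ' = true := by simp at hv'; exact hv'.1
  obtain ⟨R, h1⟩ := (g.HF k1 k2 σ).2.1
  obtain ⟨R', h2⟩ := (g.HF l1 l2 σ').2.1
  have a3 := s1.2
  simp [p4, v4] at o1 o2 a3
  by_cases hs : σ = σ'
  · subst hs
    rw [t1, t2, g.NC k1 k2 l1 l2 (Or.inl ⟨σ, rfl⟩) (par_pole h1 h2 o1)]
  · exfalso
    have m := col3 a3 (on1 h1) (on0 _ _) (on2 o1 o2 h2)
    have := g.yp k1 k2
    have he := e4_bd
    simp only [cr, EH, wv, Complex.sub_re, Complex.sub_im] at m
    cases σ <;> cases σ' <;> simp [sb] at m hs <;> nlinarith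

lemma Pre4.c44 (g : Pre4 n x y) {k l : ℕ} {σ τ σ' τ' : Bool}
    (hi : (k, (4 : Fin 6), σ, τ) ∈ J4 n) (hj : (l, (4 : Fin 6), σ', τ') ∈ J4 n)
    (hn : ¬ (segment ℝ (p4 x y (k, 4, σ, τ)) (q4 x y (k, 4, σ, τ)) ∩
      segment ℝ (p4 x y (l, 4, σ', τ')) (q4 x y (l, 4, σ', τ'))).Subsingleton) :
    (k, (4 : Fin 6), σ, τ) = (l, 4, σ', τ') := by
  have s1 := (g.seg hi).1
  have s2 := (g.seg hj).1
  obtain ⟨o1, o2, -⟩ := ov s1 s2 hn
  obtain ⟨k2, k1, hv⟩ := mem_J4.mp hi
  obtain ⟨l2, l1, hv'⟩ := mem_J4.mp hj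
  simp only at k1 k2 l1 l2
  have t1 : σ = true ∧ Vok k τ := by simpa using hv
  have t2 : σ' = true ∧ Vok l τ' := by simpa using hv'
  obtain ⟨R, h1⟩ := (g.VF k1 k2 t1.2).2.1
  obtain ⟨R', h2⟩ := (g.VF l1 l2 t2.2).2.1
  have a3 := s1.2
  simp [p4, v4] at o1 o2 a3
  by_cases hs : τ = τ'
  · subst hs
    rw [t1.1, t2.1, g.NC k1 k2 l1 l2 (Or.inr (Or.inl ⟨τ, rfl⟩)) (par_pole h1 h2 o1)]
  · exfalso
    have m := col3 a3 (on1 h1) (on0 _ _) (on2 o1 o2 h2)
    have m' := col3 a3 (on1 h1) o2 (on2 o1 o2 h2)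
    simp only [cr, EV, wv, Complex.sub_re, Complex.sub_im] at m m'
    have hh : 0 < h4 := by norm_num [h4]
    cases τ <;> cases τ' <;> simp only [sb, Bool.false_eq_true, if_false, if_true] at m m'
    · exact hs rfl
    · have := g.absx (t2.2.resolve_left (by simp)) l2
      have e : x l * h4 = 0 := by linarith
      rw [(mul_eq_zero.mp e).resolve_right hh.ne'] at this
      norm_num at this
    · have := g.absx (t1.2.resolve_left (by simp)) k2
      have e : x k * h4 = 0 := by linarith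
      rw [(mul_eq_zero.mp e).resolve_right hh.ne'] at this
      norm_num at this
    · exact hs rfl

lemma Pre4.sub (g : Pre4 n x y) : ∀ i ∈ J4 n, ∀ j ∈ J4 n, i ≠ j →
    (segment ℝ (p4 x y i) (q4 x y i) ∩ segment ℝ (p4 x y j) (q4 x y j)).Subsingleton := by
  rintro ⟨k, t, σ, τ⟩ hi ⟨l, t', σ', τ'⟩ hj hne
  by_contra hn
  obtain ⟨-, -, o3⟩ := ov (g.seg hi).1 (g.seg hj).1 hn
  have tri : ∀ t : Fin 6, (t = 0 ∨ t = 2) ∨ t = 4 ∨ (t = 1 ∨ t = 3 ∨ t = 5) := by
    intro t; fin_cases t <;> simp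
  rcases tri t with h | h | h <;> rcases tri t' with h' | h' | h'
  · rcases h with rfl | rfl <;> rcases h' with rfl | rfl
    · obtain ⟨k2, k1, hv⟩ := mem_J4.mp hi
      obtain ⟨l2, l1, hv'⟩ := mem_J4.mp hj
      simp only at k1 k2 l1 l2
      simp at hv hv'
      have hkl : k ≠ l := by
        rintro rfl
        exact hne (by rw [hv.2.1, hv.2.2, hv'.2.1, hv'.2.2])
      simp only [v4, if_true, uv_wv, neg_sq] at o3
      have p1 := (g.mono.1 k k1 k2).2
      have p2 := (g.mono.1 l l1 l2).2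
      rcases lt_or_gt_of_ne hkl with h | h
      · have := g.mono.2.2.1 k l k1 h l2; nlinarith
      · have := g.mono.2.2.1 l k l1 h k2; nlinarith
    · rw [inter_comm] at hn; exact hn (g.c02 hj hi)
    · exact hn (g.c02 hi hj)
    · exact hne (g.c22 hi hj hn)
  · subst h'; linarith [g.low hi h, g.high hj]
  · linarith [g.low hi h, (g.cls hj h').sq.1]
  · subst h; linarith [g.low hj h', g.high hi]
  · subst h; subst h'; exact hne (g.c44 hi hj hn)
  · subst h; linarith [g.high hi, (g.cls hj h').sq.2]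
  · linarith [g.low hj h', (g.cls hi h).sq.1]
  · subst h'; linarith [g.high hj, (g.cls hi h).sq.2]
  · exact hne (g.cc hi hj h h' hn)

lemma Pre4.pq (g : Pre4 n x y) : ∀ i ∈ J4 n, p4 x y i ≠ q4 x y i :=
  fun _ hi => (g.seg hi).1.uv_eq.2

lemma Pre4.balC (g : Pre4 n x y) {k : ℕ} (k2 : k < n) :
    (if k = 0 then uv (wv x y (k + 1)) (CC true true) + uv (wv x y (k + 1)) (CC false true) +
        uv (wv x y (k + 1)) (EV false)
      else if k % 2 = 1 then uv (wv x y (k + 1)) (EH true) + uv (wv x y (k + 1)) (CC true true) +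
        uv (wv x y (k + 1)) (CC true false) + uv (wv x y (k + 1)) (EV true) +
        uv (wv x y (k + 1)) (EV false)
      else uv (wv x y (k + 1)) (EH false) + uv (wv x y (k + 1)) (CC false true) +
        uv (wv x y (k + 1)) (CC false false) + uv (wv x y (k + 1)) (EV true) +
        uv (wv x y (k + 1)) (EV false)) =
      uv (wv x y k) (wv x y (k + 1)) - uv (wv x y (k + 1)) (wv x y (k + 1 + 1)) := by
  obtain ⟨h1, h2⟩ := g.hb k k2
  rw [uv_wv, uv_wv]
  simp only [wv, CC, EH, EV, uv_mk, sb, if_true, Bool.false_eq_true, if_false]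
  split_ifs with c1 c2
  · subst c1
    simp only [L4, Lk, fx, fy, zero_add, if_true, List.map_cons, List.map_nil, List.sum_cons,
      List.sum_nil, one_mul, add_zero, neg_mul] at h1 h2 ⊢
    apply Complex.ext <;> simp only [Complex.add_re, Complex.add_im, Complex.sub_re,
      Complex.sub_im] <;> linarith
  · have n1 : k + 1 ≠ 1 := by omega
    simp only [L4, Lc, fx, fy, if_neg n1, sg_even (k := k + 1) (by omega), List.map_cons,
      List.map_nil, List.sum_cons, List.sum_nil, one_mul, add_zero, neg_mul] at h1 h2 ⊢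
    apply Complex.ext <;> simp only [Complex.add_re, Complex.add_im, Complex.sub_re,
      Complex.sub_im] <;> linarith
  · have n1 : k + 1 ≠ 1 := by omega
    simp only [L4, Lc, fx, fy, if_neg n1, sg_odd (k := k + 1) (by omega), List.map_cons,
      List.map_nil, List.sum_cons, List.sum_nil, one_mul, add_zero, neg_mul, neg_zero] at h1 h2 ⊢
    apply Complex.ext <;> simp only [Complex.add_re, Complex.add_im, Complex.sub_re,
      Complex.sub_im] <;> linarith

lemma Pre4.w0 (g : Pre4 n x y) : wv x y 0 = EH false := by simp [wv, EH, sb, g.x0, g.y0]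
lemma Pre4.wn (g : Pre4 n x y) : wv x y (n + 1) = EH false := by simp [wv, EH, sb, g.xn, g.yn]

/-- indicator -/
def ind (v z : ℂ) : ℂ := if v = z then 1 else 0

lemma gadH (v w : ℂ) (σ : Bool) (hv : ∀ s t, ind v (CC s t) = 0) :
    (ind v w - ind v (sH w σ)) * uv w (EH σ) +
      ((ind v (sH w σ) - ind v (CC σ true)) * rot (sb σ * sb true) (uv w (EH σ)) +
      (ind v (sH w σ) - ind v (CC σ false)) * rot (sb σ * sb false) (uv w (EH σ))) =
      ind v w * uv w (EH σ) := by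
  have := rot_add (sb σ) (uv w (EH σ))
  simp only [hv, sb, if_true, Bool.false_eq_true, if_false, mul_one, mul_neg] at this ⊢
  linear_combination (ind v (sH w σ)) * this

lemma gadV (v w : ℂ) (τ : Bool) (hv : ∀ s t, ind v (CC s t) = 0) :
    (ind v w - ind v (sV w τ)) * uv w (EV τ) +
      ((ind v (sV w τ) - ind v (CC true τ)) * rot (-(sb true * sb τ)) (uv w (EV τ)) +
      (ind v (sV w τ) - ind v (CC false τ)) * rot (-(sb false * sb τ)) (uv w (EV τ))) =
      ind v w * uv w (EV τ) := by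
  have := rot_add (sb τ) (uv w (EV τ))
  simp only [hv, sb, if_true, Bool.false_eq_true, if_false, one_mul, neg_mul, neg_neg] at this ⊢
  linear_combination (ind v (sV w τ)) * this

/-- telescoping term -/
def tel (n : ℕ) (x y : ℕ → ℝ) (v : ℂ) (k : ℕ) : ℂ :=
  if 2 ≤ k ∧ k ≤ n then ind v (wv x y k) * uv (wv x y (k - 1)) (wv x y k) else 0

lemma Pre4.inner (g : Pre4 n x y) {v : ℂ} (hv : ∀ s t, ind v (CC s t) = 0) {k : ℕ} (k2 : k ≤ n) :
    ∑ κ : Fin 6 × Bool × Bool, (if val n (k, κ) then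
      (ind v (p4 x y (k, κ)) - ind v (q4 x y (k, κ))) * v4 x y (k, κ) else 0) =
      tel n x y v k - tel n x y v (k + 1) := by
  have hn := g.hn
  have hev := g.hev
  rcases k with _ | k
  · simp [val, tel]
  have B := g.balC (k := k) k2
  have G1 := gadH v (wv x y (k + 1)) true hv
  have G2 := gadH v (wv x y (k + 1)) false hv
  have G3 := gadV v (wv x y (k + 1)) true hv
  have G4 := gadV v (wv x y (k + 1)) false hv
  simp only [Fintype.sum_prod_type, Fin.sum_univ_six, Fintype.sum_bool, val, p4, q4, v4, tel,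
    Rok, Hok, Vok, Nat.add_sub_cancel]
  by_cases c0 : k = 0
  · subst c0
    rw [if_pos rfl, g.w0, uv_swap (wv x y (0 + 1)) (EH false)] at B
    have c1 : 1 < n := by omega
    have c2 : 2 ≤ n := hn
    simp [c1, c2, hv] at B G1 G2 G3 G4 ⊢
    linear_combination (ind v (wv x y 1)) * B + G2 + G4
  · have c1 : 1 ≤ k := by omega
    rw [if_neg c0] at B
    by_cases c2 : k % 2 = 1
    · rw [if_pos c2] at B
      have c3 : (k + 1) % 2 = 0 := by omega
      by_cases c4 : k + 1 = n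
      · have c5 : ¬ k + 1 < n := by omega
        have c6 : ¬ k + 1 + 1 ≤ n := by omega
        rw [show k + 1 + 1 = n + 1 by omega, g.wn] at B
        have c7 : 1 ≤ n := by omega
        have c8 : n ≠ 1 := by omega
        simp [c0, c1, c3, c4, c7, c8, hev, hn, hv] at B G1 G2 G3 G4 ⊢
        linear_combination (ind v (wv x y n)) * B + G1 + G2 + G3 + G4
      · have c5 : k + 1 < n := by omega
        have c6 : k + 1 + 1 ≤ n := by omega
        simp [c0, c1, c3, c4, c5, c6, k2, hv] at B G1 G2 G3 G4 ⊢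
        linear_combination (ind v (wv x y (k + 1))) * B + G1 + G3 + G4
    · rw [if_neg c2] at B
      have c3 : (k + 1) % 2 = 1 := by omega
      have c5 : k + 1 < n := by omega
      have c6 : k + 1 + 1 ≤ n := by omega
      simp [c0, c1, c3, c5, c6, k2, hv] at B G1 G2 G3 G4 ⊢
      linear_combination (ind v (wv x y (k + 1))) * B + G2 + G3 + G4

lemma Pre4.bal (g : Pre4 n x y) {v : ℂ} (hv : ∀ s t, v ≠ CC s t) :
    IW (J4 n) (p4 x y) (q4 x y) (fun _ => 1) v = 0 := by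
  have h1 : IW (J4 n) (p4 x y) (q4 x y) (fun _ => 1) v =
      ∑ i ∈ J4 n, (ind v (p4 x y i) - ind v (q4 x y i)) * v4 x y i := by
    unfold IW
    apply Finset.sum_congr rfl
    intro i hi
    rw [(g.seg hi).1.uv_eq.1]
    unfold ind
    split_ifs <;> simp
  rw [h1, J4, Finset.sum_filter, Finset.sum_product,
    Finset.sum_congr rfl (fun k hk => g.inner (fun s t => if_neg (hv s t))
      (Nat.lt_succ_iff.mp (Finset.mem_range.mp hk))), Finset.sum_range_sub']
  simp [tel]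

end

end Pool.Agent.H18.Net
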