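import Pool.Agent.H18.Net15

set_option autoImplicit false

namespace Pool.Agent.H18.Net

open Set

noncomputable section
open Classical

variable {n : ℕ} {x y : ℕ → ℝ}

lemma Pre4.qcases (g : Pre4 n x y) {i : ℕ × Fin 6 × Bool × Bool} (hi : i ∈ J4 n) :
    Ins (q4 x y i) ∨ ∃ σ τ, q4 x y i = CC σ τ := by
  obtain ⟨k, t, σ, τ⟩ := i
  obtain ⟨k2, k1, hv⟩ := mem_J4.mp hi
  simp only at k1 k2
  rcases six t with rfl | rfl | rfl | rfl | rfl | rfl <;> simp [q4] at hv ⊢
  · exact Or.inl (g.insw (by omega) hv.1)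
  · cases σ <;> cases τ <;> simp
  · exact Or.inl (g.HF k1 k2 σ).2.2.2.1
  · cases σ <;> cases τ <;> simp
  · exact Or.inl (g.VF k1 k2 hv.2).2.2.2.1
  · cases σ <;> cases τ <;> simp

lemma Pre4.onseg (g : Pre4 n x y) {i : ℕ × Fin 6 × Bool × Bool} (hi : i ∈ J4 n) {σ τ : Bool}
    (h : CC σ τ ∈ segment ℝ (p4 x y i) (q4 x y i)) : CC σ τ = q4 x y i := by
  rcases g.qcases hi with h1 | ⟨s, t, h1⟩
  · exact absurd (ins_seg (g.seg hi).2 h1 h) (not_ins σ τ)
  · rw [h1] at h ⊢
    exact corner_seg (g.seg hi).2 h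

lemma Pre4.mB (g : Pre4 n x y) {k : ℕ} (k1 : 1 ≤ k) (k2 : k ≤ n) (σ : Bool) :
    (k, (4 : Fin 6), true, false) ∈ J4 n ∧ (k, (5 : Fin 6), σ, false) ∈ J4 n := by
  constructor <;> apply mem_J4.mpr <;> simp [val, Vok, k1, k2]

lemma Pre4.unb (g : Pre4 n x y) (σ τ : Bool) :
    IW (J4 n) (p4 x y) (q4 x y) (fun _ => 1) (CC σ τ) ≠ 0 := by
  apply IW_ne _ _ _ _ (fun _ _ => le_rfl) _ (sb σ) 0
  · intro i hi
    have hp := (g.seg hi).2
    refine ⟨fun h => absurd (h ▸ hp) (not_ins σ τ), fun h => ?_⟩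
    rw [← h, uv_re, zero_mul, add_zero, ← mul_div_assoc]
    obtain ⟨p1, p2, -, -⟩ := hp
    have : 0 < sb σ * ((CC σ τ).re - (p4 x y i).re) := by
      simp only [CC]
      rcases sb_cases σ with e | e <;> rw [e] <;> linarith
    apply div_pos this
    apply Real.sqrt_pos.mpr
    have h2 : (CC σ τ).re - (p4 x y i).re ≠ 0 := by
      intro e; rw [e] at this; simp at this
    positivity
  · have hn := g.hn
    refine ⟨(2, 5, σ, τ), mem_J4.mpr ⟨hn, ?_⟩, Or.inr (by simp [q4])⟩
    simp [val, Vok]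

lemma Pre4.deg (g : Pre4 n x y) {i : ℕ × Fin 6 × Bool × Bool} (hi : i ∈ J4 n) {v : ℂ}
    (hv : v = p4 x y i ∨ v = q4 x y i) (hc : ∀ s t, v ≠ CC s t) :
    3 ≤ (act (J4 n) (p4 x y) (q4 x y) v).card := by
  have hw : ∀ k, 1 ≤ k → k ≤ n → 3 ≤ (act (J4 n) (p4 x y) (q4 x y) (wv x y k)).card := by
    intro k k1 k2
    have m := (g.mB k1 k2 true).1
    by_cases c1 : k = 1
    · exact act_three g.pq (i := (k, 1, true, true)) (j := (k, 1, false, true))
        (mem_J4.mpr (by simp [val, Rok, c1]; omega)) (mem_J4.mpr (by simp [val, Rok, c1]; omega)) m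
        (by simp) (by simp) (by simp) (Or.inl (by simp [p4])) (Or.inl (by simp [p4]))
        (Or.inl (by simp [p4]))
    · rcases Nat.mod_two_eq_zero_or_one k with h | h
      · exact act_three g.pq (i := (k, 1, true, true)) (j := (k, 1, true, false))
          (mem_J4.mpr (by simp [val, Rok, h]; omega)) (mem_J4.mpr (by simp [val, Rok, h]; omega)) m
          (by simp) (by simp) (by simp) (Or.inl (by simp [p4])) (Or.inl (by simp [p4]))
          (Or.inl (by simp [p4]))
      · exact act_three g.pq (i := (k, 1, false, true)) (j := (k, 1, false, false))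
          (mem_J4.mpr (by simp [val, Rok, h]; omega)) (mem_J4.mpr (by simp [val, Rok, h]; omega)) m
          (by simp) (by simp) (by simp) (Or.inl (by simp [p4])) (Or.inl (by simp [p4]))
          (Or.inl (by simp [p4]))
  have hH : ∀ k σ, 1 ≤ k → k ≤ n → Hok n k σ →
      3 ≤ (act (J4 n) (p4 x y) (q4 x y) (sH (wv x y k) σ)).card := by
    intro k σ k1 k2 h
    exact act_three g.pq (i := (k, 2, σ, true)) (j := (k, 3, σ, true)) (k := (k, 3, σ, false))
      (mem_J4.mpr (by simp [val, h, k1, k2])) (mem_J4.mpr (by simp [val, h, k1, k2]))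
      (mem_J4.mpr (by simp [val, h, k1, k2]))
      (by simp) (by simp) (by simp) (Or.inr (by simp [q4])) (Or.inl (by simp [p4]))
      (Or.inl (by simp [p4]))
  have hV : ∀ k τ, 1 ≤ k → k ≤ n → Vok k τ →
      3 ≤ (act (J4 n) (p4 x y) (q4 x y) (sV (wv x y k) τ)).card := by
    intro k τ k1 k2 h
    exact act_three g.pq (i := (k, 4, true, τ)) (j := (k, 5, true, τ)) (k := (k, 5, false, τ))
      (mem_J4.mpr (by simp [val, h, k1, k2])) (mem_J4.mpr (by simp [val, h, k1, k2]))
      (mem_J4.mpr (by simp [val, h, k1, k2]))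
      (by simp) (by simp) (by simp) (Or.inr (by simp [q4])) (Or.inl (by simp [p4]))
      (Or.inl (by simp [p4]))
  obtain ⟨k, t, σ, τ⟩ := i
  obtain ⟨k2, k1, h⟩ := mem_J4.mp hi
  simp only at k1 k2
  rcases six t with rfl | rfl | rfl | rfl | rfl | rfl <;> simp [p4, q4, hc] at h hv
  · rcases hv with rfl | rfl
    · exact hw k k1 k2
    · exact hw (k + 1) (by omega) h.1
  · rw [hv]; exact hw k k1 k2
  · rcases hv with rfl | rfl
    · exact hw k k1 k2
    · exact hH k σ k1 k2 h.2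
  · rw [hv]; exact hH k σ k1 k2 h
  · rcases hv with rfl | rfl
    · exact hw k k1 k2
    · exact hV k τ k1 k2 h.2
  · rw [hv]; exact hV k τ k1 k2 h

lemma Pre4.conn (g : Pre4 n x y) {G : SimpleGraph ℂ}
    (h : ∀ i ∈ J4 n, G.Reachable (p4 x y i) (q4 x y i)) :
    ∀ i ∈ J4 n, G.Reachable (p4 x y i) (wv x y 1) := by
  have hw : ∀ k, 1 ≤ k → k ≤ n → G.Reachable (wv x y k) (wv x y 1) := by
    intro k k1
    induction k, k1 using Nat.le_induction with
    | base => intro _; rfl
    | succ k k1 ih =>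
      intro k2
      have := h (k, 0, true, true) (mem_J4.mpr (by simp [val]; omega))
      simp [p4, q4] at this
      exact this.symm.trans (ih (by omega))
  rintro ⟨k, t, σ, τ⟩ hi
  obtain ⟨k2, k1, hv⟩ := mem_J4.mp hi
  simp only at k1 k2
  rcases six t with rfl | rfl | rfl | rfl | rfl | rfl <;> simp [p4] at hv ⊢
  · exact hw k k1 k2
  · exact hw k k1 k2
  · exact hw k k1 k2
  · have := h (k, 2, σ, true) (mem_J4.mpr (by simp [val, hv, k1, k2]))
    simp [p4, q4] at this
    exact this.symm.trans (hw k k1 k2)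
  · exact hw k k1 k2
  · have := h (k, 4, true, τ) (mem_J4.mpr (by simp [val, hv, k1, k2]))
    simp [p4, q4] at this
    exact this.symm.trans (hw k k1 k2)

/-- the four corners -/
def U4 : Finset ℂ := {CC true true, CC true false, CC false true, CC false false}

lemma mem_U4 {v : ℂ} : v ∈ U4 ↔ ∃ s t, v = CC s t := by
  simp only [U4, Finset.mem_insert, Finset.mem_singleton, Bool.exists_bool]
  tauto

lemma card_U4 : U4.card = 4 := by
  have h1 := r3_bd
  have h2 : r3 ≠ -r3 := by intro h; linarith [h1.1]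
  have h3 : b4 ≠ -b4 := by norm_num [b4]
  unfold U4
  rw [Finset.card_insert_of_notMem, Finset.card_insert_of_notMem, Finset.card_insert_of_notMem,
    Finset.card_singleton] <;> simp [CC, sb, Complex.ext_iff, h2, h3]

end

end Pool.Agent.H18.Net
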