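import Mathlib

set_option autoImplicit false

namespace Pool.Agent.H18.Net

open Set

noncomputable section

/-- Euclidean distance in coordinates -/
def dd (A B x y : ℝ) : ℝ := √((x - A) ^ 2 + (y - B) ^ 2)

lemma dd_sq (A B x y : ℝ) : dd A B x y ^ 2 = (x - A) ^ 2 + (y - B) ^ 2 :=
  Real.sq_sqrt (by positivity)

lemma dd_nonneg (A B x y : ℝ) : 0 ≤ dd A B x y := Real.sqrt_nonneg _

lemma dd_ge (A B x y : ℝ) : |x - A| ≤ dd A B x y := by
  apply Real.abs_le_sqrt
  nlinarith [sq_nonneg (y - B)]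

lemma dd_pos {A B x y : ℝ} (h : x ≠ A) : 0 < dd A B x y :=
  lt_of_lt_of_le (abs_pos.mpr (sub_ne_zero.mpr h)) (dd_ge A B x y)

lemma dd_dx {A B x y : ℝ} (h : x ≠ A) :
    HasDerivAt (fun t => dd A B t y) ((x - A) / dd A B x y) x := by
  have h0 : (x - A) ^ 2 + (y - B) ^ 2 ≠ 0 := by
    have : 0 < (x - A) ^ 2 := by
      have := sub_ne_zero.mpr h
      positivity
    positivity
  have h1 : HasDerivAt (fun t : ℝ => (t - A) ^ 2 + (y - B) ^ 2) (2 * (x - A)) x := by
    have := (((hasDerivAt_id x).sub_const A).pow 2).add_const ((y - B) ^ 2)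
    simpa using this
  have h2 := h1.sqrt h0
  unfold dd
  convert h2 using 1
  rw [mul_div_mul_left _ _ (two_ne_zero)]

lemma dd_dy {A B x y : ℝ} (h : x ≠ A) :
    HasDerivAt (fun t => dd A B x t) ((y - B) / dd A B x y) y := by
  have h0 : (x - A) ^ 2 + (y - B) ^ 2 ≠ 0 := by
    have : 0 < (x - A) ^ 2 := by
      have := sub_ne_zero.mpr h
      positivity
    positivity
  have h1 : HasDerivAt (fun t : ℝ => (x - A) ^ 2 + (t - B) ^ 2) (2 * (y - B)) y := by
    have := (((hasDerivAt_id y).sub_const B).pow 2).const_add ((x - A) ^ 2)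
    simpa using this
  have h2 := h1.sqrt h0
  unfold dd
  convert h2 using 1
  rw [mul_div_mul_left _ _ (two_ne_zero)]

lemma der_nonneg {f : ℝ → ℝ} {f' a b : ℝ} (h : HasDerivAt f f' a) (hab : a < b)
    (hm : ∀ t ∈ Icc a b, f a ≤ f t) : 0 ≤ f' := by
  have h1 := h.tendsto_slope_zero_right
  apply ge_of_tendsto h1
  have : Ioo (0 : ℝ) (b - a) ∈ nhdsWithin (0 : ℝ) (Ioi 0) := Ioo_mem_nhdsGT (by linarith)
  filter_upwards [this] with t ht
  have := hm (a + t) ⟨by linarith [ht.1], by linarith [ht.2]⟩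
  have h2 : 0 < t⁻¹ := inv_pos.mpr ht.1
  simp only [smul_eq_mul]
  apply mul_nonneg h2.le
  linarith

lemma der_nonpos {f : ℝ → ℝ} {f' a b : ℝ} (h : HasDerivAt f f' a) (hab : b < a)
    (hm : ∀ t ∈ Icc b a, f a ≤ f t) : f' ≤ 0 := by
  have h1 := h.tendsto_slope_zero_left
  apply le_of_tendsto h1
  have : Ioo (b - a) (0 : ℝ) ∈ nhdsWithin (0 : ℝ) (Iio 0) := Ioo_mem_nhdsLT (by linarith)
  filter_upwards [this] with t ht
  have := hm (a + t) ⟨by linarith [ht.1], by linarith [ht.2]⟩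
  have h2 : t⁻¹ < 0 := inv_lt_zero.mpr ht.2
  simp only [smul_eq_mul]
  apply mul_nonpos_of_nonpos_of_nonneg h2.le
  linarith

/-- sum of distances to the three terminals -/
def ph (a b : ℝ) : ℝ := dd 3 0 a b + dd 5 6 a b + dd 5 (-6) a b

/-- the height of the starting terminal -/
def d0 : ℝ := 1 / 1000

lemma dd_symm (a b a' b' : ℝ) : dd (-a') b' a b = dd (-a) b a' b' := by
  unfold dd; congr 1; ring

theorem exists_min (n : ℕ) : ∃ x y : ℕ → ℝ, x 0 = 0 ∧ y 0 = d0 ∧ x (n + 1) = 0 ∧ y (n + 1) = 0 ∧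
    ∀ k, k < n → x (k + 1) ∈ Icc (1 : ℝ) 2 ∧ y (k + 1) ∈ Icc (0 : ℝ) d0 ∧
      ∀ a ∈ Icc (1 : ℝ) 2, ∀ b ∈ Icc (0 : ℝ) d0,
        ph (x (k + 1)) (y (k + 1)) + dd (-x k) (y k) (x (k + 1)) (y (k + 1))
          + dd (-x (k + 2)) (y (k + 2)) (x (k + 1)) (y (k + 1)) ≤
        ph a b + dd (-x k) (y k) a b + dd (-x (k + 2)) (y (k + 2)) a b := by
  classical
  let B : ℕ → Set (ℝ × ℝ) := fun k =>
    if k = 0 then {(0, d0)} else if k ≤ n then Icc (1 : ℝ) 2 ×ˢ Icc (0 : ℝ) d0 else {(0, 0)}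
  have hB : ∀ k, IsCompact (B k) := by
    intro k
    simp only [B]
    split_ifs
    · exact isCompact_singleton
    · exact isCompact_Icc.prod isCompact_Icc
    · exact isCompact_singleton
  have hK : IsCompact (Set.pi univ B) := isCompact_univ_pi hB
  have hne : (Set.pi univ B).Nonempty := by
    rw [univ_pi_nonempty_iff]
    intro k
    simp only [B]
    split_ifs
    · exact singleton_nonempty _
    · exact ⟨(1, 0), ⟨le_rfl, by norm_num⟩, le_rfl, by norm_num [d0]⟩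
    · exact singleton_nonempty _
  let T : (ℕ → ℝ × ℝ) → ℕ → ℝ := fun z j =>
    ph (z j).1 (z j).2 + dd (-(z (j + 1)).1) (z (j + 1)).2 (z j).1 (z j).2
  have hc : Continuous (fun z : ℕ → ℝ × ℝ => ∑ j ∈ Finset.range (n + 1), T z j) := by
    apply continuous_finset_sum
    intro j _
    simp only [T, ph, dd]
    fun_prop
  obtain ⟨z, hz, hmin⟩ := hK.exists_isMinOn hne hc.continuousOn
  have hz' : ∀ k, z k ∈ B k := fun k => hz k (mem_univ k)
  have h0 : z 0 = (0, d0) := by simpa [B] using hz' 0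
  have hn : z (n + 1) = (0, 0) := by simpa [B] using hz' (n + 1)
  refine ⟨fun k => (z k).1, fun k => (z k).2, by simp [h0], by simp [h0], by simp [hn],
    by simp [hn], fun k hk => ?_⟩
  have hk1 : z (k + 1) ∈ Icc (1 : ℝ) 2 ×ˢ Icc (0 : ℝ) d0 := by
    have := hz' (k + 1)
    simp only [B, Nat.add_one_ne_zero, if_false, show k + 1 ≤ n from hk, if_true] at this
    exact this
  refine ⟨hk1.1, hk1.2, fun a ha b hb => ?_⟩
  have hmem : Function.update z (k + 1) (a, b) ∈ Set.pi univ B := by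
    intro j _
    by_cases hj : j = k + 1
    · subst hj
      simp only [Function.update_self, B, Nat.add_one_ne_zero, if_false,
        show k + 1 ≤ n from hk, if_true]
      exact ⟨ha, hb⟩
    · rw [Function.update_of_ne hj]; exact hz' j
  have hle : ∑ j ∈ Finset.range (n + 1), T z j ≤
      ∑ j ∈ Finset.range (n + 1), T (Function.update z (k + 1) (a, b)) j := hmin hmem
  have m1 : k ∈ Finset.range (n + 1) := Finset.mem_range.mpr (by omega)
  have m2 : k + 1 ∈ (Finset.range (n + 1)).erase k :=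
    Finset.mem_erase.mpr ⟨by omega, Finset.mem_range.mpr (by omega)⟩
  rw [← Finset.add_sum_erase _ _ m1, ← Finset.add_sum_erase _ _ m2,
    ← Finset.add_sum_erase _ _ m1, ← Finset.add_sum_erase _ _ m2] at hle
  have hrest : ∑ j ∈ ((Finset.range (n + 1)).erase k).erase (k + 1),
      T (Function.update z (k + 1) (a, b)) j =
      ∑ j ∈ ((Finset.range (n + 1)).erase k).erase (k + 1), T z j := by
    apply Finset.sum_congr rfl
    intro j hj
    simp only [Finset.mem_erase] at hj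
    simp only [T]
    rw [Function.update_of_ne hj.1, Function.update_of_ne (by omega : j + 1 ≠ k + 1)]
  rw [hrest] at hle
  simp only [T, Function.update_self, Function.update_of_ne (by omega : k ≠ k + 1),
    Function.update_of_ne (by omega : k + 1 + 1 ≠ k + 1)] at hle
  rw [dd_symm (z k).1 (z k).2 a b, dd_symm (z k).1 (z k).2 (z (k + 1)).1 (z (k + 1)).2] at hle
  have e : k + 2 = k + 1 + 1 := rfl
  simp only [e]
  linarith

/-- cosine as a function of the tangent -/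
def ga (t : ℝ) : ℝ := 1 / √(1 + t ^ 2)

lemma ga_neg (t : ℝ) : ga (-t) = ga t := by simp [ga]

lemma cos_eq {A B x y : ℝ} (h : x < A) : (A - x) / dd A B x y = ga ((B - y) / (A - x)) := by
  have hu : 0 < A - x := by linarith
  have e : dd A B x y = (A - x) * √(1 + ((B - y) / (A - x)) ^ 2) := by
    unfold dd
    rw [← Real.sqrt_sq hu.le, ← Real.sqrt_mul (sq_nonneg _), Real.sqrt_sq hu.le]
    congr 1
    field_simp
    ring
  have hp : 0 < √(1 + ((B - y) / (A - x)) ^ 2) := Real.sqrt_pos.mpr (by positivity)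
  rw [e, ga]
  field_simp

lemma ga_facts (t : ℝ) : ∃ A : ℝ, 1 ≤ A ∧ A ^ 2 = 1 + t ^ 2 ∧ ga t = 1 / A :=
  ⟨√(1 + t ^ 2), Real.one_le_sqrt.mpr (by nlinarith [sq_nonneg t]),
    Real.sq_sqrt (by positivity), rfl⟩

lemma ga_anti {t t' : ℝ} (h0 : 0 ≤ t) (h : t ≤ t') : ga t' ≤ ga t := by
  unfold ga
  apply one_div_le_one_div_of_le (Real.sqrt_pos.mpr (by positivity))
  apply Real.sqrt_le_sqrt
  nlinarith

lemma ga_le_one (t : ℝ) : ga t ≤ 1 := by
  obtain ⟨A, h1, -, h3⟩ := ga_facts t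
  rw [h3, div_le_one (by linarith)]
  exact h1

lemma ga_gap {t t' : ℝ} (h0 : 7 / 5 ≤ t) (h : t ≤ t') (h1 : t' ≤ 21 / 10) :
    (t' - t) / 10 ≤ ga t - ga t' := by
  obtain ⟨A, a1, a2, a3⟩ := ga_facts t
  obtain ⟨B, b1, b2, b3⟩ := ga_facts t'
  have hA : A ≤ 233 / 100 := by nlinarith
  have hB : B ≤ 233 / 100 := by nlinarith
  have hAB : A ≤ B := by nlinarith
  rw [a3, b3, div_sub_div _ _ (by linarith) (by linarith), div_le_div_iff₀ (by norm_num)
    (by positivity)]
  have e : (B - A) * (B + A) = (t' - t) * (t' + t) := by nlinarith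
  have h2 : A * B ≤ 543 / 100 := by nlinarith
  have h3 : (t' - t) * (14 / 5) ≤ (B - A) * (466 / 100) := by nlinarith
  have h4 : (t' - t) * (A * B) ≤ (t' - t) * (543 / 100) :=
    mul_le_mul_of_nonneg_left h2 (by linarith)
  nlinarith

lemma ga_small {t t' : ℝ} (h0 : 0 ≤ t') (h : t' ≤ t) : ga t' - ga t ≤ t ^ 2 - t' ^ 2 := by
  obtain ⟨A, a1, a2, a3⟩ := ga_facts t
  obtain ⟨B, b1, b2, b3⟩ := ga_facts t'
  have hAB : B ≤ A := by nlinarith
  rw [a3, b3, div_sub_div _ _ (by linarith) (by linarith), div_le_iff₀ (by positivity)]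
  have e : t ^ 2 - t' ^ 2 = (A - B) * (A + B) := by nlinarith
  rw [e]
  have h1 : 1 ≤ (A + B) * (B * A) := by nlinarith [mul_le_mul a1 b1 zero_le_one (by linarith)]
  nlinarith

lemma ga_ub {t : ℝ} (h : 199 / 100 ≤ t) : ga t ≤ 9 / 20 := by
  obtain ⟨A, a1, a2, a3⟩ := ga_facts t
  rw [a3, div_le_iff₀ (by linarith)]
  nlinarith

lemma ga_lb {t : ℝ} (h0 : 0 ≤ t) (h : t ≤ 151 / 100) : 11 / 20 ≤ ga t := by
  obtain ⟨A, a1, a2, a3⟩ := ga_facts t
  rw [a3, le_div_iff₀ (by linarith)]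
  nlinarith

lemma ga_lb' {t : ℝ} (h0 : 0 ≤ t) (h : t ≤ 1 / 100) : 99 / 100 ≤ ga t := by
  obtain ⟨A, a1, a2, a3⟩ := ga_facts t
  rw [a3, le_div_iff₀ (by linarith)]
  nlinarith

/-- horizontal pull of the terminals -/
def FX (a b : ℝ) : ℝ := (3 - a) / dd 3 0 a b + (5 - a) / dd 5 6 a b + (5 - a) / dd 5 (-6) a b
/-- vertical pull of the terminals -/
def FY (a b : ℝ) : ℝ := (0 - b) / dd 3 0 a b + (6 - b) / dd 5 6 a b + (-6 - b) / dd 5 (-6) a b

lemma FX_eq {a : ℝ} (b : ℝ) (ha : a ≤ 2) :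
    FX a b = ga (b / (3 - a)) + ga ((6 - b) / (5 - a)) + ga ((6 + b) / (5 - a)) := by
  unfold FX
  rw [cos_eq (by linarith), cos_eq (by linarith), cos_eq (by linarith),
    ← ga_neg (b / (3 - a)), ← ga_neg ((6 + b) / (5 - a))]
  congr 3 <;> ring

lemma FX_two {b : ℝ} (h0 : 0 ≤ b) (h1 : b ≤ d0) : FX 2 b ≤ 19 / 10 := by
  rw [FX_eq b le_rfl]
  unfold d0 at h1
  have := ga_le_one (b / (3 - 2))
  have := ga_ub (t := (6 - b) / (5 - 2)) (by linarith)
  have := ga_ub (t := (6 + b) / (5 - 2)) (by linarith)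
  linarith

lemma FX_one {b : ℝ} (h0 : 0 ≤ b) (h1 : b ≤ d0) : 2 < FX 1 b := by
  rw [FX_eq b (by norm_num)]
  unfold d0 at h1
  have := ga_lb' (t := b / (3 - 1)) (by linarith) (by linarith)
  have := ga_lb (t := (6 - b) / (5 - 1)) (by linarith) (by linarith)
  have := ga_lb (t := (6 + b) / (5 - 1)) (by linarith) (by linarith)
  linarith

lemma FY_bounds {a b : ℝ} (a1 : 1 ≤ a) (a2 : a ≤ 2) (h0 : 0 ≤ b) (h1 : b ≤ d0) :
    b / dd 3 0 a b ≤ - FY a b ∧ b / 3 ≤ b / dd 3 0 a b ∧ - FY a b ≤ 2 * b := by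
  unfold d0 at h1
  have p0 : 0 < dd 3 0 a b := dd_pos (by linarith)
  have p1 : 0 < dd 5 6 a b := dd_pos (by linarith)
  have p2 : 0 < dd 5 (-6) a b := dd_pos (by linarith)
  have s0 := dd_sq 3 0 a b
  have s1 := dd_sq 5 6 a b
  have s2 := dd_sq 5 (-6) a b
  have l0 : 1 ≤ dd 3 0 a b := by nlinarith
  have u0 : dd 3 0 a b ≤ 3 := by nlinarith
  have l1 : 3 ≤ dd 5 6 a b := by nlinarith
  have l2 : dd 5 6 a b ≤ dd 5 (-6) a b := by nlinarith
  have k1 : (6 - b) / dd 5 6 a b ≤ (6 + b) / dd 5 (-6) a b := by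
    rw [div_le_div_iff₀ p1 p2]
    have hb6 : 0 ≤ 6 + b := by linarith
    apply le_of_sq_le_sq _ (mul_nonneg hb6 p1.le)
    rw [mul_pow, mul_pow, s1, s2]
    nlinarith [mul_nonneg h0 (sq_nonneg (a - 5))]
  have k2 : (6 + b) / dd 5 (-6) a b ≤ (6 + b) / dd 5 6 a b :=
    div_le_div_of_nonneg_left (by linarith) p1 l2
  have k3 : (6 + b) / dd 5 6 a b = (6 - b) / dd 5 6 a b + 2 * b / dd 5 6 a b := by ring
  have k4 : 2 * b / dd 5 6 a b ≤ 2 * b / 3 := div_le_div_of_nonneg_left (by linarith) (by norm_num) l1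
  have k5 : b / dd 3 0 a b ≤ b := div_le_self h0 l0
  have k6 : b / 3 ≤ b / dd 3 0 a b := div_le_div_of_nonneg_left h0 p0 u0
  have e : - FY a b = b / dd 3 0 a b + ((6 + b) / dd 5 (-6) a b - (6 - b) / dd 5 6 a b) := by
    unfold FY; ring
  refine ⟨by linarith, k6, by linarith⟩

/-- no two of the vertices are collinear with a terminal -/
lemma noncol {x y x' y' : ℝ} (a1 : 1 ≤ x) (a2 : x ≤ 2) (b1 : 1 ≤ x') (b2 : x' ≤ 2)
    (c0 : 0 < y') (c1 : y' < y) (c2 : y ≤ d0) (h1 : FX x y ≤ FX x' y')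
    (h2 : FX x' y' - FX x y ≤ 18 * d0 * (y - y')) :
    y * (3 - x') ≠ y' * (3 - x) ∧ (6 - y) * (5 - x') ≠ (6 - y') * (5 - x) ∧
      (6 + y) * (5 - x') ≠ (6 + y') * (5 - x) := by
  rw [FX_eq y a2, FX_eq y' b2] at h1 h2
  unfold d0 at c2 h2
  have u0 : 0 < 5 - x := by linarith
  have u0' : 0 < 5 - x' := by linarith
  have r0 : 0 < 3 - x := by linarith
  have r0' : 0 < 3 - x' := by linarith
  have lo : ∀ a b : ℝ, 1 ≤ a → a ≤ 2 → -(1 / 1000) ≤ b → b ≤ 1 / 1000 →
      7 / 5 ≤ (6 + b) / (5 - a) ∧ (6 + b) / (5 - a) ≤ 21 / 10 := by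
    intro a b h1 h2 h3 h4
    constructor
    · rw [le_div_iff₀ (by linarith)]; linarith
    · rw [div_le_iff₀ (by linarith)]; linarith
  have m1 := lo x y a1 a2 (by linarith) (by linarith)
  have m2 := lo x' y' b1 b2 (by linarith) (by linarith)
  have m3 := lo x (-y) a1 a2 (by linarith) (by linarith)
  have m4 := lo x' (-y') b1 b2 (by linarith) (by linarith)
  rw [← sub_eq_add_neg] at m3 m4
  refine ⟨fun h => ?_, fun h => ?_, fun h => ?_⟩
  · have e : y / (3 - x) = y' / (3 - x') := by rw [div_eq_div_iff r0.ne' r0'.ne']; exact h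
    have hx : 1000 * (y - y') ≤ x' - x := by nlinarith
    have k1 : (6 - y) / (5 - x) < (6 - y') / (5 - x') := by
      rw [div_lt_div_iff₀ u0 u0']; nlinarith
    have k2 : (6 + y) / (5 - x) ≤ (6 + y') / (5 - x') := by
      rw [div_le_div_iff₀ u0 u0']; nlinarith
    have g1 := ga_gap m3.1 k1.le m4.2
    have g2 := ga_anti (by linarith [m1.1]) k2
    rw [e] at h1
    linarith
  · have e : (6 - y) / (5 - x) = (6 - y') / (5 - x') := by
      rw [div_eq_div_iff u0.ne' u0'.ne']; exact h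
    have hx : x' ≤ x := by nlinarith
    have k1 : (6 + y') / (5 - x') + (y - y') / 4 ≤ (6 + y) / (5 - x) := by
      have t1 : (6 + y) / (5 - x') ≤ (6 + y) / (5 - x) :=
        div_le_div_of_nonneg_left (by linarith) u0 (by linarith)
      have t2 : (y - y') / 4 ≤ (y - y') / (5 - x') :=
        div_le_div_of_nonneg_left (by linarith) u0' (by linarith)
      have t3 : (6 + y) / (5 - x') = (6 + y') / (5 - x') + (y - y') / (5 - x') := by ring
      linarith
    have k2 : y' / (3 - x') ≤ y / (3 - x) := by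
      rw [div_le_div_iff₀ r0' r0]; nlinarith
    have g1 := ga_gap m2.1 (by linarith : (6 + y') / (5 - x') ≤ (6 + y) / (5 - x)) m1.2
    have g2 := ga_anti (by positivity) k2
    rw [e] at h2
    linarith
  · have e : (6 + y) / (5 - x) = (6 + y') / (5 - x') := by
      rw [div_eq_div_iff u0.ne' u0'.ne']; exact h
    have hx : x ≤ x' := by nlinarith
    have k1 : (6 - y) / (5 - x) + (y - y') / 4 ≤ (6 - y') / (5 - x') := by
      have t1 : (6 - y') / (5 - x) ≤ (6 - y') / (5 - x') :=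
        div_le_div_of_nonneg_left (by linarith) u0' (by linarith)
      have t2 : (y - y') / 4 ≤ (y - y') / (5 - x) :=
        div_le_div_of_nonneg_left (by linarith) u0 (by linarith)
      have t3 : (6 - y') / (5 - x) = (6 - y) / (5 - x) + (y - y') / (5 - x) := by ring
      linarith
    have g1 := ga_gap m3.1 (by linarith : (6 - y) / (5 - x) ≤ (6 - y') / (5 - x')) m4.2
    have g2 : ga (y' / (3 - x')) - ga (y / (3 - x)) ≤ (y - y') / 500 := by
      rcases le_total (y / (3 - x)) (y' / (3 - x')) with hh | hh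
      · have := ga_anti (by have : 0 < y := by linarith
                            positivity) hh
        linarith
      · have t0 := ga_small (by positivity) hh
        have t1 : y' / (3 - x) ≤ y' / (3 - x') :=
          div_le_div_of_nonneg_left c0.le r0' (by linarith)
        have t2 : (y - y') / (3 - x) ≤ y - y' := div_le_self (by linarith) (by linarith)
        have t3 : y / (3 - x) = y' / (3 - x) + (y - y') / (3 - x) := by ring
        have t4 : y / (3 - x) ≤ y := div_le_self (by linarith) (by linarith)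
        have t5 : 0 ≤ y' / (3 - x') := by positivity
        nlinarith
    rw [e] at h1
    linarith

end

end Pool.Agent.H18.Net
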