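import Pool.Agent.H18.Net2

set_option autoImplicit false

namespace Pool.Agent.H18.Net

open Set

noncomputable section

/-- length of the `k`-th chain edge -/
def ll (x y : ℕ → ℝ) (k : ℕ) : ℝ := dd (-x k) (y k) (x (k + 1)) (y (k + 1))
/-- cosine of the `k`-th chain edge -/
def cc (x y : ℕ → ℝ) (k : ℕ) : ℝ := (x k + x (k + 1)) / ll x y k
/-- sine of the `k`-th chain edge -/
def ss (x y : ℕ → ℝ) (k : ℕ) : ℝ := (y k - y (k + 1)) / ll x y k

lemma ll_sq (x y : ℕ → ℝ) (k : ℕ) :
    ll x y k ^ 2 = (x k + x (k + 1)) ^ 2 + (y k - y (k + 1)) ^ 2 := by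
  unfold ll; rw [dd_sq]; ring

lemma ll_ge (x y : ℕ → ℝ) (k : ℕ) : x k + x (k + 1) ≤ ll x y k := by
  have := dd_ge (-x k) (y k) (x (k + 1)) (y (k + 1))
  have h2 := le_abs_self (x (k + 1) - -x k)
  unfold ll
  linarith

lemma cs_sq {x y : ℕ → ℝ} {k : ℕ} (h : 1 ≤ x k + x (k + 1)) :
    cc x y k ^ 2 + ss x y k ^ 2 = 1 := by
  have h1 := ll_ge x y k
  have h2 := ll_sq x y k
  have h3 : 0 < ll x y k := by linarith
  unfold cc ss
  field_simp
  linarith

lemma cc_pos {x y : ℕ → ℝ} {k : ℕ} (h : 1 ≤ x k + x (k + 1)) : 0 < cc x y k := by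
  have h1 := ll_ge x y k
  unfold cc
  apply div_pos <;> linarith

lemma ss_le {x y : ℕ → ℝ} {k : ℕ} (h : 1 ≤ x k + x (k + 1)) (h2 : y (k + 1) ≤ y k) :
    0 ≤ ss x y k ∧ ss x y k ≤ y k - y (k + 1) := by
  have h1 := ll_ge x y k
  unfold ss
  exact ⟨div_nonneg (by linarith) (by linarith), div_le_self (by linarith) (by linarith)⟩

lemma ss_le' {x y : ℕ → ℝ} {k : ℕ} (h : 1 ≤ x k + x (k + 1)) (h2 : y k ≤ y (k + 1)) :
    ss x y k ≤ 0 ∧ y k - y (k + 1) ≤ ss x y k := by
  have h1 := ll_ge x y k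
  unfold ss
  refine ⟨div_nonpos_of_nonpos_of_nonneg (by linarith) (by linarith), ?_⟩
  have := div_le_self (a := y (k + 1) - y k) (b := ll x y k) (by linarith) (by linarith)
  have e : (y k - y (k + 1)) / ll x y k = - ((y (k + 1) - y k) / ll x y k) := by ring
  linarith

theorem balance (n : ℕ) (hn : 1 ≤ n) : ∃ x y : ℕ → ℝ, x 0 = 0 ∧ y 0 = d0 ∧ x (n + 1) = 0 ∧
    y (n + 1) = 0 ∧ (∀ k, k < n → 1 ≤ x (k + 1) ∧ x (k + 1) ≤ 2) ∧
    (∀ k, k ≤ n + 1 → 0 ≤ y k ∧ y k ≤ d0) ∧ (∀ k, k ≤ n → 1 ≤ x k + x (k + 1)) ∧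
    ∀ k, k < n → FX (x (k + 1)) (y (k + 1)) = cc x y k + cc x y (k + 1) ∧
      FY (x (k + 1)) (y (k + 1)) = ss x y (k + 1) - ss x y k := by
  obtain ⟨x, y, x0, y0, xn, yn, h⟩ := exists_min n
  have hd : 0 < d0 := by norm_num [d0]
  have hy : ∀ k, k ≤ n + 1 → 0 ≤ y k ∧ y k ≤ d0 := by
    intro k hk
    rcases k with _ | k
    · rw [y0]; exact ⟨hd.le, le_rfl⟩
    · rcases Nat.lt_or_ge k n with h1 | h1
      · exact (h k h1).2.1
      · have : k = n := by omega
        subst this
        rw [yn]; exact ⟨le_rfl, hd.le⟩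
  have hx0 : ∀ k, k ≤ n + 1 → 0 ≤ x k := by
    intro k hk
    rcases k with _ | k
    · rw [x0]
    · rcases Nat.lt_or_ge k n with h1 | h1
      · linarith [(h k h1).1.1]
      · have : k = n := by omega
        subst this
        rw [xn]
  have hX : ∀ k, k ≤ n → 1 ≤ x k + x (k + 1) := by
    intro k hk
    rcases Nat.lt_or_ge k n with h1 | h1
    · linarith [(h k h1).1.1, hx0 k (by omega)]
    · have : k = n := by omega
      subst this
      obtain ⟨m, rfl⟩ : ∃ m, k = m + 1 := ⟨k - 1, by omega⟩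
      linarith [(h m (by omega)).1.1, hx0 (m + 1 + 1) le_rfl]
  refine ⟨x, y, x0, y0, xn, yn, fun k hk => (h k hk).1, hy, hX, fun k hk => ?_⟩
  obtain ⟨⟨a1, a2⟩, ⟨b1, b2⟩, hm⟩ := h k hk
  have p1 := hx0 k (by omega)
  have p2 := hx0 (k + 2) (by omega)
  have e2 : dd (-x (k + 2)) (y (k + 2)) (x (k + 1)) (y (k + 1)) = ll x y (k + 1) := by
    unfold ll; rw [dd_symm]
  have n1 : x (k + 1) ≠ 3 := by linarith [a2] |> ne_of_lt
  have n2 : x (k + 1) ≠ 5 := by linarith [a2] |> ne_of_lt
  have n3 : x (k + 1) ≠ -x k := by linarith [a1] |> ne_of_gt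
  have n4 : x (k + 1) ≠ -x (k + 2) := by linarith [a1] |> ne_of_gt
  have q1 := hy k (by omega)
  have q2 := hy (k + 2) (by omega)
  have X1 := hX k (by omega)
  have X2 := hX (k + 1) (by omega)
  constructor
  · have hD : HasDerivAt (fun t => ph t (y (k + 1)) + dd (-x k) (y k) t (y (k + 1))
        + dd (-x (k + 2)) (y (k + 2)) t (y (k + 1)))
        (cc x y k + cc x y (k + 1) - FX (x (k + 1)) (y (k + 1))) (x (k + 1)) := by
      have := ((((dd_dx (B := 0) (y := y (k + 1)) n1).add (dd_dx (B := 6) (y := y (k + 1)) n2)).add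
        (dd_dx (B := -6) (y := y (k + 1)) n2)).add (dd_dx (B := y k) (y := y (k + 1)) n3)).add
        (dd_dx (B := y (k + 2)) (y := y (k + 1)) n4)
      refine this.congr_deriv ?_
      rw [e2]
      unfold cc FX ll
      ring
    have c1 := cs_sq (y := y) X1
    have c2 := cs_sq (y := y) X2
    have c3 := cc_pos (y := y) X1
    have c4 := cc_pos (y := y) X2
    have hs : ∀ j, j ≤ n → |ss x y j| ≤ d0 := by
      intro j hj
      have r1 := hy j (by omega)
      have r2 := hy (j + 1) (by omega)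
      rcases le_total (y j) (y (j + 1)) with hh | hh
      · have := ss_le' (hX j hj) hh
        rw [abs_le]; constructor <;> linarith
      · have := ss_le (hX j hj) hh
        rw [abs_le]; constructor <;> linarith
    have s1 := abs_le.mp (hs k (by omega))
    have s2 := abs_le.mp (hs (k + 1) (by omega))
    unfold d0 at s1 s2
    have c5 : 99 / 100 ≤ cc x y k := by nlinarith
    have c6 : 99 / 100 ≤ cc x y (k + 1) := by nlinarith
    have c7 : cc x y k ≤ 1 := by nlinarith
    have c8 : cc x y (k + 1) ≤ 1 := by nlinarith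
    have up : x (k + 1) < 2 → 0 ≤ cc x y k + cc x y (k + 1) - FX (x (k + 1)) (y (k + 1)) :=
      fun hh => der_nonneg hD hh (fun t ht => hm t ⟨by linarith [ht.1], ht.2⟩ _ ⟨b1, b2⟩)
    have dn : 1 < x (k + 1) → cc x y k + cc x y (k + 1) - FX (x (k + 1)) (y (k + 1)) ≤ 0 :=
      fun hh => der_nonpos hD hh (fun t ht => hm t ⟨ht.1, by linarith [ht.2]⟩ _ ⟨b1, b2⟩)
    rcases a1.lt_or_eq with h1 | h1
    · rcases a2.lt_or_eq with h2 | h2
      · linarith [up h2, dn h1]
      · have := dn h1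
        rw [h2] at this
        linarith [FX_two b1 b2]
    · have := up (by linarith)
      rw [← h1] at this
      linarith [FX_one b1 b2]
  · have hD : HasDerivAt (fun t => ph (x (k + 1)) t + dd (-x k) (y k) (x (k + 1)) t
        + dd (-x (k + 2)) (y (k + 2)) (x (k + 1)) t)
        (ss x y (k + 1) - ss x y k - FY (x (k + 1)) (y (k + 1))) (y (k + 1)) := by
      have := ((((dd_dy (B := 0) (y := y (k + 1)) n1).add (dd_dy (B := 6) (y := y (k + 1)) n2)).add
        (dd_dy (B := -6) (y := y (k + 1)) n2)).add (dd_dy (B := y k) (y := y (k + 1)) n3)).add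
        (dd_dy (B := y (k + 2)) (y := y (k + 1)) n4)
      refine this.congr_deriv ?_
      rw [e2]
      unfold ss FY ll
      ring
    have up : y (k + 1) < d0 → 0 ≤ ss x y (k + 1) - ss x y k - FY (x (k + 1)) (y (k + 1)) :=
      fun hh => der_nonneg hD hh (fun t ht => hm _ ⟨a1, a2⟩ t ⟨by linarith [ht.1], ht.2⟩)
    have dn : 0 < y (k + 1) → ss x y (k + 1) - ss x y k - FY (x (k + 1)) (y (k + 1)) ≤ 0 :=
      fun hh => der_nonpos hD hh (fun t ht => hm _ ⟨a1, a2⟩ t ⟨ht.1, by linarith [ht.2]⟩)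
    obtain ⟨f1, f2, f3⟩ := FY_bounds a1 a2 b1 b2
    rcases b1.lt_or_eq with h1 | h1
    · rcases b2.lt_or_eq with h2 | h2
      · linarith [up h2, dn h1]
      · have := dn h1
        have t1 := (ss_le' (y := y) X1 (by linarith)).1
        have t2 := (ss_le (y := y) X2 (by linarith)).1
        linarith
    · have := up (by linarith)
      have t1 := (ss_le (y := y) X1 (by linarith)).1
      have t2 := (ss_le' (y := y) X2 (by linarith)).1
      linarith

lemma tan_lt {c s c' s' : ℝ} (h : c ^ 2 + s ^ 2 = 1) (h' : c' ^ 2 + s' ^ 2 = 1) (hc : 0 < c)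
    (hc' : 0 < c') (hs : 0 ≤ s') (hlt : s' < s) : c ≤ c' ∧ c * s' < s * c' := by
  have h1 : c ≤ c' := by nlinarith
  exact ⟨h1, by nlinarith⟩

theorem chain (n : ℕ) (hn : 1 ≤ n) : ∃ x y : ℕ → ℝ, x 0 = 0 ∧ y 0 = d0 ∧ x (n + 1) = 0 ∧
    y (n + 1) = 0 ∧ (∀ k, 1 ≤ k → k ≤ n → 1 ≤ x k ∧ x k ≤ 2) ∧
    (∀ k, k ≤ n + 1 → 0 ≤ y k ∧ y k ≤ d0) ∧ (∀ k, k ≤ n → 1 ≤ x k + x (k + 1)) ∧
    (∀ k, k < n → FX (x (k + 1)) (y (k + 1)) = cc x y k + cc x y (k + 1) ∧
      FY (x (k + 1)) (y (k + 1)) = ss x y (k + 1) - ss x y k) ∧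
    (∀ k l, k < l → l ≤ n + 1 → y l < y k) ∧
    (∀ k l, k < l → l ≤ n →
      (x k + x (k + 1)) * (y l - y (l + 1)) < (y k - y (k + 1)) * (x l + x (l + 1))) ∧
    (∀ k, k < n → (x k + x (k + 1)) * y (k + 1) < (y k - y (k + 1)) * (3 - x (k + 1))) ∧
    (∀ k l, 1 ≤ k → k < l → l ≤ n → y k * (3 - x l) ≠ y l * (3 - x k) ∧
      (6 - y k) * (5 - x l) ≠ (6 - y l) * (5 - x k) ∧
      (6 + y k) * (5 - x l) ≠ (6 + y l) * (5 - x k)) := by
  obtain ⟨x, y, x0, y0, xn, yn, hx, hy, hX, hb⟩ := balance n hn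
  have hd : 0 < d0 := by norm_num [d0]
  have hl : ∀ k, k ≤ n → 0 < ll x y k := fun k hk => by linarith [ll_ge x y k, hX k hk]
  have hG : ∀ k, k < n →
      ss x y (k + 1) + y (k + 1) / dd 3 0 (x (k + 1)) (y (k + 1)) ≤ ss x y k ∧
      ss x y (k + 1) + y (k + 1) / 3 ≤ ss x y k ∧ ss x y k ≤ ss x y (k + 1) + 2 * y (k + 1) := by
    intro k hk
    obtain ⟨f1, f2, f3⟩ := FY_bounds (hx k hk).1 (hx k hk).2 (hy (k + 1) (by omega)).1
      (hy (k + 1) (by omega)).2
    have := (hb k hk).2
    refine ⟨by linarith, by linarith, by linarith⟩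
  have hs0 : ∀ j k, k + j = n → 0 ≤ ss x y k := by
    intro j
    induction j with
    | zero =>
      intro k hk
      have : k = n := by omega
      subst this
      exact (ss_le (y := y) (hX k le_rfl) (by rw [yn]; exact (hy k (by omega)).1)).1
    | succ j ih =>
      intro k hk
      have h1 := ih (k + 1) (by omega)
      have h2 := (hG k (by omega)).2.1
      have h3 := (hy (k + 1) (by omega)).1
      linarith
  have hs0' : ∀ k, k ≤ n → 0 ≤ ss x y k := fun k hk => hs0 (n - k) k (by omega)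
  have hmono : ∀ k, k ≤ n → y (k + 1) ≤ y k := by
    intro k hk
    have h1 := hs0' k hk
    unfold ss at h1
    have := (div_nonneg_iff.mp h1)
    rcases this with h | h
    · linarith [h.1]
    · linarith [h.2, hl k hk]
  have hpos : ∀ k, k ≤ n → 0 < y k := by
    intro k
    induction k with
    | zero => intro _; rw [y0]; exact hd
    | succ k ih =>
      intro hk
      have h1 := ih (by omega)
      rcases (hy (k + 1) (by omega)).1.lt_or_eq with h | h
      · exact h
      · exfalso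
        have h2 := (hG k (by omega)).2.2
        have h3 := (ss_le' (y := y) (hX (k + 1) hk) (by rw [← h]; exact (hy (k + 2) (by omega)).1)).1
        have h4 : 0 < ss x y k := by
          unfold ss
          exact div_pos (by linarith) (hl k (by omega))
        linarith
  have hsdec : ∀ k, k < n → ss x y (k + 1) < ss x y k := by
    intro k hk
    have := (hG k hk).2.1
    have := hpos (k + 1) hk
    linarith
  have hspos : ∀ k, k ≤ n → 0 < ss x y k := by
    intro k hk
    rcases hk.lt_or_eq with h | h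
    · linarith [hsdec k h, hs0' (k + 1) h]
    · subst h
      unfold ss
      exact div_pos (by rw [yn]; linarith [hpos k le_rfl]) (hl k le_rfl)
  have hydec : ∀ k, k ≤ n → y (k + 1) < y k := by
    intro k hk
    have h1 := hspos k hk
    have h2 := (ss_le (hX k hk) (hmono k hk)).2
    linarith
  have hyy : ∀ k l, k < l → l ≤ n + 1 → y l < y k := by
    intro k l hkl
    induction l, hkl using Nat.le_induction with
    | base => intro h; exact hydec k (by omega)
    | succ l _ ih => intro h; linarith [ih (by omega), hydec l (by omega)]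
  have hss : ∀ k l, k < l → l ≤ n → ss x y l < ss x y k := by
    intro k l hkl
    induction l, hkl using Nat.le_induction with
    | base => intro h; exact hsdec k (by omega)
    | succ l _ ih => intro h; linarith [ih (by omega), hsdec l (by omega)]
  have htan : ∀ k l, k < l → l ≤ n →
      cc x y k ≤ cc x y l ∧ cc x y k * ss x y l < ss x y k * cc x y l := by
    intro k l hkl hl'
    exact tan_lt (cs_sq (hX k (by omega))) (cs_sq (hX l hl')) (cc_pos (hX k (by omega)))
      (cc_pos (hX l hl')) (hs0' l hl') (hss k l hkl hl')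
  refine ⟨x, y, x0, y0, xn, yn, ?_, hy, hX, hb, hyy, ?_, ?_, ?_⟩
  · intro k h1 h2
    obtain ⟨m, rfl⟩ : ∃ m, k = m + 1 := ⟨k - 1, by omega⟩
    exact hx m (by omega)
  · intro k l hkl hl'
    have := (htan k l hkl hl').2
    unfold cc ss at this
    have p1 := hl k (by omega)
    have p2 := hl l hl'
    rw [div_mul_div_comm, div_mul_div_comm, div_lt_div_iff_of_pos_right (by positivity)] at this
    exact this
  · intro k hk
    have a2 := (hx k hk).2
    have p0 : 0 < dd 3 0 (x (k + 1)) (y (k + 1)) := dd_pos (by linarith)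
    have q0 := dd_sq 3 0 (x (k + 1)) (y (k + 1))
    have p1 := hl k (by omega)
    have := (tan_lt (c' := (3 - x (k + 1)) / dd 3 0 (x (k + 1)) (y (k + 1)))
      (s' := y (k + 1) / dd 3 0 (x (k + 1)) (y (k + 1))) (cs_sq (y := y) (hX k (by omega)))
      (by field_simp; linarith) (cc_pos (hX k (by omega))) (div_pos (by linarith) p0)
      (div_nonneg (hy (k + 1) (by omega)).1 p0.le)
      (by linarith [(hG k hk).1, hspos (k + 1) hk])).2
    unfold cc ss at this
    rw [div_mul_div_comm, div_mul_div_comm, div_lt_div_iff_of_pos_right (by positivity)] at this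
    exact this
  · intro k l h1 hkl hl'
    obtain ⟨k, rfl⟩ : ∃ m, k = m + 1 := ⟨k - 1, by omega⟩
    obtain ⟨l, rfl⟩ : ∃ m, l = m + 1 := ⟨l - 1, by omega⟩
    have hk : k < n := by omega
    have hl2 : l < n := by omega
    apply noncol (hx k hk).1 (hx k hk).2 (hx l hl2).1 (hx l hl2).2 (hpos _ hl')
      (hyy _ _ hkl (by omega)) (hy _ (by omega)).2
    · rw [(hb k hk).1, (hb l hl2).1]
      linarith [(htan k l (by omega) (by omega)).1, (htan (k + 1) (l + 1) hkl hl').1]
    · rw [(hb k hk).1, (hb l hl2).1]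
      have c1 := cs_sq (y := y) (hX k (by omega))
      have c2 := cs_sq (y := y) (hX l (by omega))
      have c3 := cs_sq (y := y) (hX (l + 1) hl')
      have c4 := cc_pos (y := y) (hX k (by omega))
      have c5 : cc x y l ≤ 1 := by nlinarith [cc_pos (y := y) (hX l (by omega))]
      have c6 : cc x y (l + 1) ≤ 1 := by nlinarith [cc_pos (y := y) (hX (l + 1) hl')]
      have c7 := (htan k (k + 1) (by omega) (by omega)).1
      have c8 : cc x y k ≤ 1 := by nlinarith
      have c9 : 1 - ss x y k ^ 2 ≤ cc x y k := by nlinarith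
      have d1 := (ss_le (hX (k + 1) (by omega)) (hmono (k + 1) (by omega))).2
      have d2 := (hG (k + 1) (by omega)).2.1
      have d3 := hs0' (k + 1 + 1) (by omega)
      have d4 := (hG k hk).2.2
      have d5 : y (l + 1) ≤ y (k + 1 + 1) := by
        rcases (show k + 1 + 1 ≤ l + 1 from hkl).lt_or_eq with h | h
        · exact (hyy _ _ h (by omega)).le
        · rw [h]
      have d6 : ss x y k ≤ 9 * (y (k + 1) - y (l + 1)) := by linarith
      have d7 : ss x y k ≤ d0 := by
        have := (ss_le (hX k (by omega)) (hmono k (by omega))).2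
        linarith [(hy k (by omega)).2, (hy (k + 1) (by omega)).1]
      have d8 := hs0' k (by omega)
      have d9 : ss x y k ^ 2 ≤ d0 * (9 * (y (k + 1) - y (l + 1))) := by
        rw [sq]; exact mul_le_mul d7 d6 d8 hd.le
      linarith

end

end Pool.Agent.H18.Net
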