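import Pool.Agent.H18.Net1
import Pool.Agent.H18.Net3

set_option autoImplicit false

namespace Pool.Agent.H18.Net

open Set

noncomputable section
open Classical

/-- alternating sign -/
def sg (k : ℕ) : ℝ := (-1) ^ k

lemma sg_succ (k : ℕ) : sg (k + 1) = - sg k := by unfold sg; ring

lemma sg_cases (k : ℕ) : sg k = 1 ∨ sg k = -1 := neg_one_pow_eq_or ℝ k

/-- position of the `k`-th chain vertex -/
def ww (x y : ℕ → ℝ) (k : ℕ) : ℂ := ⟨sg k * x k, y k⟩
/-- abscissa of a terminal -/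
def tA (j : Fin 4) : ℝ := if j = 1 then 3 else 5
/-- ordinate of a terminal -/
def tB (j : Fin 4) : ℝ := if j = 1 then 0 else if j = 2 then 6 else -6
/-- start points -/
def pP (x y : ℕ → ℝ) (i : ℕ × Fin 4) : ℂ := ww x y i.1
/-- end points -/
def qQ (x y : ℕ → ℝ) (i : ℕ × Fin 4) : ℂ :=
  if i.2 = 0 then ww x y (i.1 + 1) else ⟨sg i.1 * tA i.2, tB i.2⟩
/-- index set -/
def JJ (n : ℕ) : Finset (ℕ × Fin 4) :=
  (Finset.range (n + 1) ×ˢ Finset.univ).filter (fun i => i.2 = 0 ∨ 1 ≤ i.1)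

lemma mem_JJ {n : ℕ} {i : ℕ × Fin 4} : i ∈ JJ n ↔ i.1 ≤ n ∧ (i.2 = 0 ∨ 1 ≤ i.1) := by
  simp [JJ, Nat.lt_succ_iff]

lemma tA_ge (j : Fin 4) : 3 ≤ tA j := by unfold tA; split_ifs <;> norm_num

lemma uv_re (v w : ℂ) : (uv v w).re = (w.re - v.re) / √((w.re - v.re) ^ 2 + (w.im - v.im) ^ 2) := by
  unfold uv
  rw [Complex.div_ofReal_re, Complex.norm_eq_sqrt_sq_add_sq]
  simp

lemma uv_im (v w : ℂ) : (uv v w).im = (w.im - v.im) / √((w.re - v.re) ^ 2 + (w.im - v.im) ^ 2) := by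
  unfold uv
  rw [Complex.div_ofReal_im, Complex.norm_eq_sqrt_sq_add_sq]
  simp

lemma uv_chain (x y : ℕ → ℝ) (k : ℕ) :
    uv (ww x y k) (ww x y (k + 1)) = ⟨- sg k * cc x y k, - ss x y k⟩ := by
  have e : √((sg (k + 1) * x (k + 1) - sg k * x k) ^ 2 + (y (k + 1) - y k) ^ 2) = ll x y k := by
    unfold ll dd
    congr 1
    rw [sg_succ]
    rcases sg_cases k with h | h <;> rw [h] <;> ring
  apply Complex.ext
  · rw [uv_re]
    simp only [ww]
    rw [e, sg_succ]
    unfold cc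
    ring
  · rw [uv_im]
    simp only [ww]
    rw [e]
    unfold ss
    ring

lemma uv_spoke (x y : ℕ → ℝ) (k : ℕ) (A B : ℝ) :
    uv (ww x y k) ⟨sg k * A, B⟩ =
      ⟨sg k * ((A - x k) / dd A B (x k) (y k)), (B - y k) / dd A B (x k) (y k)⟩ := by
  have e : √((sg k * A - sg k * x k) ^ 2 + (B - y k) ^ 2) = dd A B (x k) (y k) := by
    unfold dd
    congr 1
    rcases sg_cases k with h | h <;> rw [h] <;> ring
  apply Complex.ext
  · rw [uv_re]
    simp only [ww]
    rw [e]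
    ring
  · rw [uv_im]
    simp only [ww]
    rw [e]

lemma II_ne {ι : Type*} (J : Finset ι) (p q : ι → ℂ) (v : ℂ) (a b : ℝ)
    (h : ∀ i ∈ J, (v = p i → a * (uv (p i) (q i)).re + b * (uv (p i) (q i)).im < 0) ∧
      (v = q i → 0 < a * (uv (p i) (q i)).re + b * (uv (p i) (q i)).im))
    (h0 : ∃ i ∈ J, v = p i ∨ v = q i) : II J p q v ≠ 0 := by
  intro hI
  have h1 : a * (II J p q v).re + b * (II J p q v).im = 0 := by rw [hI]; simp
  unfold II at h1
  rw [Complex.re_sum, Complex.im_sum, Finset.mul_sum, Finset.mul_sum,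
    ← Finset.sum_add_distrib] at h1
  have h2 : ∑ i ∈ J, (a * ((if v = p i then uv (p i) (q i) else 0) -
      (if v = q i then uv (p i) (q i) else 0)).re + b * ((if v = p i then uv (p i) (q i) else 0) -
      (if v = q i then uv (p i) (q i) else 0)).im) < ∑ i ∈ J, (0 : ℝ) := by
    apply Finset.sum_lt_sum
    · intro i hi
      obtain ⟨k1, k2⟩ := h i hi
      by_cases e1 : v = p i <;> by_cases e2 : v = q i
      · linarith [k1 e1, k2 e2]
      · rw [if_pos e1, if_neg e2]; simpa using (k1 e1).le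
      · rw [if_neg e1, if_pos e2]; simp; linarith [k2 e2]
      · rw [if_neg e1, if_neg e2]; simp
    · obtain ⟨i, hi, hv⟩ := h0
      refine ⟨i, hi, ?_⟩
      obtain ⟨k1, k2⟩ := h i hi
      by_cases e1 : v = p i <;> by_cases e2 : v = q i
      · linarith [k1 e1, k2 e2]
      · rw [if_pos e1, if_neg e2]; simpa using (k1 e1)
      · rw [if_neg e1, if_pos e2]; simp; linarith [k2 e2]
      · exact absurd hv (by tauto)
  simp only [Finset.sum_const_zero] at h2
  linarith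

lemma two_pts {p q p' q' : ℂ} (h : ¬ (segment ℝ p q ∩ segment ℝ p' q').Subsingleton) :
    (q.re - p.re) * (p'.im - p.im) = (q.im - p.im) * (p'.re - p.re) ∧
    (q.re - p.re) * (q'.im - p.im) = (q.im - p.im) * (q'.re - p.re) := by
  rw [not_subsingleton_iff] at h
  obtain ⟨a, ⟨a1, a2⟩, b, ⟨b1, b2⟩, hab⟩ := h
  obtain ⟨t, -, -, ht⟩ := mem_seg.mp a1
  obtain ⟨s, -, -, hs⟩ := mem_seg.mp a2
  obtain ⟨t', -, -, ht'⟩ := mem_seg.mp b1
  obtain ⟨s', -, -, hs'⟩ := mem_seg.mp b2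
  have hne : s - s' ≠ 0 := by
    intro h
    apply hab
    rw [hs, hs', sub_eq_zero.mp h]
  have e1 := congrArg Complex.re (ht.symm.trans hs)
  have e2 := congrArg Complex.im (ht.symm.trans hs)
  have e3 := congrArg Complex.re (ht'.symm.trans hs')
  have e4 := congrArg Complex.im (ht'.symm.trans hs')
  simp only [Complex.add_re, Complex.add_im, Complex.mul_re, Complex.mul_im, Complex.ofReal_re,
    Complex.ofReal_im, Complex.sub_re, Complex.sub_im, zero_mul, sub_zero, add_zero] at e1 e2 e3 e4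
  have k : (s - s') * ((q.re - p.re) * (q'.im - p'.im) - (q.im - p.im) * (q'.re - p'.re)) = 0 := by
    linear_combination (q.im - p.im) * (e1 - e3) - (q.re - p.re) * (e2 - e4)
  have k2 := (mul_eq_zero.mp k).resolve_left hne
  constructor
  · linear_combination (q.im - p.im) * e1 - (q.re - p.re) * e2 - s * k2
  · linear_combination (q.im - p.im) * e1 - (q.re - p.re) * e2 - s * k2 + k2

lemma spoke_side {x y : ℕ → ℝ} {k : ℕ} {A B : ℝ} (h1 : 1 ≤ x k) (h2 : 1 ≤ A) {z : ℂ}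
    (hz : z ∈ segment ℝ (ww x y k) ⟨sg k * A, B⟩) : 1 ≤ sg k * z.re := by
  obtain ⟨t, t0, t1, rfl⟩ := mem_seg.mp hz
  simp only [ww, Complex.add_re, Complex.mul_re, Complex.ofReal_re, Complex.ofReal_im,
    Complex.sub_re, zero_mul, sub_zero]
  rcases sg_cases k with h | h <;> rw [h] <;> nlinarith

end

end Pool.Agent.H18.Net
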