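import Pool.Agent.H18.Net4

set_option autoImplicit false

namespace Pool.Agent.H18.Net

open Set

noncomputable section
open Classical

/-- the properties of the chain -/
structure Good (n : ℕ) (x y : ℕ → ℝ) : Prop where
  x0 : x 0 = 0
  y0 : y 0 = d0
  xn : x (n + 1) = 0
  yn : y (n + 1) = 0
  hx : ∀ k, 1 ≤ k → k ≤ n → 1 ≤ x k ∧ x k ≤ 2
  hy : ∀ k, k ≤ n + 1 → 0 ≤ y k ∧ y k ≤ d0
  hX : ∀ k, k ≤ n → 1 ≤ x k + x (k + 1)
  hb : ∀ k, k < n → FX (x (k + 1)) (y (k + 1)) = cc x y k + cc x y (k + 1) ∧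
      FY (x (k + 1)) (y (k + 1)) = ss x y (k + 1) - ss x y k
  hyy : ∀ k l, k < l → l ≤ n + 1 → y l < y k
  hm : ∀ k l, k < l → l ≤ n →
      (x k + x (k + 1)) * (y l - y (l + 1)) < (y k - y (k + 1)) * (x l + x (l + 1))
  h0 : ∀ k, k < n → (x k + x (k + 1)) * y (k + 1) < (y k - y (k + 1)) * (3 - x (k + 1))
  hc : ∀ k l, 1 ≤ k → k < l → l ≤ n → y k * (3 - x l) ≠ y l * (3 - x k) ∧
      (6 - y k) * (5 - x l) ≠ (6 - y l) * (5 - x k) ∧
      (6 + y k) * (5 - x l) ≠ (6 + y l) * (5 - x k)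

lemma exists_good (n : ℕ) (hn : 1 ≤ n) : ∃ x y, Good n x y := by
  obtain ⟨x, y, h1, h2, h3, h4, h5, h6, h7, h8, h9, h10, h11, h12⟩ := chain n hn
  exact ⟨x, y, ⟨h1, h2, h3, h4, h5, h6, h7, h8, h9, h10, h11, h12⟩⟩

variable {n : ℕ} {x y : ℕ → ℝ}

lemma Good.xb (g : Good n x y) {k : ℕ} (hk : k ≤ n + 1) : 0 ≤ x k ∧ x k ≤ 2 := by
  rcases Nat.eq_zero_or_pos k with h | h
  · subst h; rw [g.x0]; norm_num
  · rcases hk.lt_or_eq with h2 | h2
    · have := g.hx k h (by omega); constructor <;> linarith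
    · subst h2; rw [g.xn]; norm_num

lemma Good.inj (g : Good n x y) {a b : ℕ} (ha : a ≤ n + 1) (hb : b ≤ n + 1)
    (h : ww x y a = ww x y b) : a = b := by
  have h1 : y a = y b := congrArg Complex.im h
  rcases lt_trichotomy a b with h2 | h2 | h2
  · linarith [g.hyy a b h2 hb]
  · exact h2
  · linarith [g.hyy b a h2 ha]

lemma Good.ne_term (g : Good n x y) {a : ℕ} (ha : a ≤ n + 1) {s A B : ℝ} (hs : s = 1 ∨ s = -1)
    (hA : 3 ≤ A) : ww x y a ≠ ⟨s * A, B⟩ := by
  intro h
  have h1 : sg a * x a = s * A := congrArg Complex.re h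
  obtain ⟨k1, k2⟩ := g.xb ha
  rcases sg_cases a with h2 | h2 <;> rcases hs with h3 | h3 <;> rw [h2, h3] at h1 <;> linarith

lemma Good.hc' (g : Good n x y) {k l : ℕ} (k1 : 1 ≤ k) (k2 : k ≤ n) (l1 : 1 ≤ l) (l2 : l ≤ n)
    (hkl : k ≠ l) {j : Fin 4} (hj : j ≠ 0) :
    (tA j - x k) * (y l - y k) ≠ (tB j - y k) * (x l - x k) := by
  have key : y k * (3 - x l) ≠ y l * (3 - x k) ∧
      (6 - y k) * (5 - x l) ≠ (6 - y l) * (5 - x k) ∧
      (6 + y k) * (5 - x l) ≠ (6 + y l) * (5 - x k) := by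
    rcases lt_or_gt_of_ne hkl with h | h
    · exact g.hc k l k1 h l2
    · obtain ⟨a, b, c⟩ := g.hc l k l1 h k2
      exact ⟨a.symm, b.symm, c.symm⟩
  obtain ⟨a, b, c⟩ := key
  intro h
  fin_cases j
  · exact hj rfl
  · simp [tA, tB] at h
    apply a; linarith
  · simp [tA, tB] at h
    apply b; linarith
  · simp [tA, tB] at h
    apply c; linarith

lemma Good.chain_chain (g : Good n x y) {k l : ℕ} (hkl : k < l) (hl : l ≤ n) :
    (segment ℝ (ww x y k) (ww x y (k + 1)) ∩ segment ℝ (ww x y l) (ww x y (l + 1))).Subsingleton := by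
  by_contra h
  obtain ⟨h1, h2⟩ := two_pts h
  simp only [ww, sg_succ] at h1 h2
  have m := g.hm k l hkl hl
  have a1 := g.hX k (by omega)
  have a2 := g.hX l hl
  have a3 := g.hyy k (k + 1) (by omega) (by omega)
  have a4 := g.hyy l (l + 1) (by omega) (by omega)
  have p1 : 0 < (x k + x (k + 1)) * (y l - y (l + 1)) := mul_pos (by linarith) (by linarith)
  rcases sg_cases k with e | e <;> rcases sg_cases l with e' | e' <;> rw [e, e'] at h1 h2 <;>
    nlinarith

lemma Good.chain_spoke (g : Good n x y) {k l : ℕ} (hl : l ≤ n) (k1 : 1 ≤ k) (k2 : k ≤ n)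
    {j : Fin 4} (hj : j ≠ 0) :
    (segment ℝ (ww x y k) ⟨sg k * tA j, tB j⟩ ∩
      segment ℝ (ww x y l) (ww x y (l + 1))).Subsingleton := by
  by_contra h
  obtain ⟨h1, h2⟩ := two_pts h
  simp only [ww] at h1 h2
  have a1 := g.hX l hl
  have a3 := g.hyy l (l + 1) (by omega) (by omega)
  obtain ⟨b1, b2⟩ := g.hx k k1 k2
  have c1 := g.hy k (by omega)
  have c2 := g.hy l (by omega)
  have c3 := g.hy (l + 1) (by omega)
  have yk : 0 < y k := by linarith [g.hyy k (n + 1) (by omega) le_rfl, g.yn]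
  have h3 : sg k * (tA j - x k) * (y (l + 1) - y l) =
      (tB j - y k) * (sg (l + 1) * (x l + x (l + 1))) := by
    rw [sg_succ] at *
    linear_combination h2 - h1
  unfold d0 at c1 c2 c3
  by_cases hj1 : j = 1
  · subst hj1
    have hA : tA 1 = 3 := by simp [tA]
    have hB : tB 1 = 0 := by simp [tB]
    rw [hA, hB] at h3
    have p1 : 0 < (3 - x k) * (y l - y (l + 1)) := mul_pos (by linarith) (by linarith)
    have p2 : 0 < y k * (x l + x (l + 1)) := mul_pos yk (by linarith)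
    have hs : sg (l + 1) = sg k := by
      rcases sg_cases k with e | e <;> rcases sg_cases (l + 1) with e' | e' <;>
        rw [e, e'] at h3 ⊢ <;> nlinarith
    rw [hs] at h2 h3
    have s0 : sg k ≠ 0 := by rcases sg_cases k with e | e <;> rw [e] <;> norm_num
    by_cases hkl : k = l + 1
    · subst hkl
      have := g.h0 l (by omega)
      have h4 : (3 - x (l + 1)) * (y (l + 1) - y l) = (0 - y (l + 1)) * (x l + x (l + 1)) := by
        apply mul_left_cancel₀ s0
        linear_combination h3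
      nlinarith
    · have h4 : (tA 1 - x k) * (y (l + 1) - y k) = (tB 1 - y k) * (x (l + 1) - x k) := by
        apply mul_left_cancel₀ s0
        linear_combination h2
      rcases hl.lt_or_eq with h5 | h5
      · exact g.hc' k1 k2 (by omega) h5 hkl hj h4
      · subst h5
        rw [hA, hB, g.xn, g.yn] at h4
        nlinarith
  · have hA : tA j = 5 := by simp [tA, hj1]
    have hB : tB j = 6 ∨ tB j = -6 := by
      unfold tB; rw [if_neg hj1]; split_ifs <;> simp
    rw [hA] at h3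
    have p1 : (5 - x k) * (y l - y (l + 1)) ≤ 4 * (1 / 1000) :=
      mul_le_mul (by linarith) (by linarith) (by linarith) (by norm_num)
    have p0 : 0 ≤ (5 - x k) * (y l - y (l + 1)) := mul_nonneg (by linarith) (by linarith)
    have p2 : 5 * 1 ≤ (6 - y k) * (x l + x (l + 1)) :=
      mul_le_mul (by linarith) a1 (by norm_num) (by linarith)
    have p3 : 5 * 1 ≤ (6 + y k) * (x l + x (l + 1)) :=
      mul_le_mul (by linarith) a1 (by norm_num) (by linarith)
    rcases hB with e0 | e0 <;> rcases sg_cases k with e | e <;>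
      rcases sg_cases (l + 1) with e' | e' <;> rw [e0, e, e'] at h3 <;> nlinarith

lemma Good.spoke_spoke (g : Good n x y) {k l : ℕ} (k1 : 1 ≤ k) (k2 : k ≤ n) (l1 : 1 ≤ l)
    (l2 : l ≤ n) {j j' : Fin 4} (hj : j ≠ 0) (hj' : j' ≠ 0) (hne : (k, j) ≠ (l, j')) :
    (segment ℝ (ww x y k) ⟨sg k * tA j, tB j⟩ ∩
      segment ℝ (ww x y l) ⟨sg l * tA j', tB j'⟩).Subsingleton := by
  obtain ⟨b1, b2⟩ := g.hx k k1 k2
  obtain ⟨b3, b4⟩ := g.hx l l1 l2
  by_cases hs : sg l = sg k
  · by_contra h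
    obtain ⟨h1, h2⟩ := two_pts h
    simp only [ww, hs] at h1 h2
    have s0 : sg k ≠ 0 := by rcases sg_cases k with e | e <;> rw [e] <;> norm_num
    have h3 : (tA j - x k) * (y l - y k) = (tB j - y k) * (x l - x k) := by
      apply mul_left_cancel₀ s0
      linear_combination h1
    have h4 : (tA j - x k) * (tB j' - y l) = (tB j - y k) * (tA j' - x l) := by
      apply mul_left_cancel₀ s0
      linear_combination h2 - h1
    by_cases hjj : j = j'
    · subst hjj
      exact g.hc' k1 k2 l1 l2 (fun h => hne (by rw [h])) hj h3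
    · have c1 := g.hy k (by omega)
      have c2 := g.hy l (by omega)
      unfold d0 at c1 c2
      fin_cases j <;> fin_cases j' <;> simp [tA, tB] at h4 hj hj' hjj <;> nlinarith
  · intro a ha
    exfalso
    have h1 := spoke_side b1 (by linarith [tA_ge j]) ha.1
    have h2 := spoke_side b3 (by linarith [tA_ge j']) ha.2
    rcases sg_cases k with e | e <;> rcases sg_cases l with e' | e' <;> rw [e] at h1 hs <;>
      rw [e'] at h2 hs <;> first | exact hs rfl | linarith

lemma Good.sub (g : Good n x y) : ∀ i ∈ JJ n, ∀ i' ∈ JJ n, i ≠ i' →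
    (segment ℝ (pP x y i) (qQ x y i) ∩ segment ℝ (pP x y i') (qQ x y i')).Subsingleton := by
  rintro ⟨k, j⟩ hi ⟨l, j'⟩ hi' hne
  obtain ⟨a1, a2⟩ := mem_JJ.mp hi
  obtain ⟨b1, b2⟩ := mem_JJ.mp hi'
  simp only at a1 a2 b1 b2
  simp only [pP, qQ]
  by_cases h1 : j = 0 <;> by_cases h2 : j' = 0
  · rw [if_pos h1, if_pos h2]
    have hkl : k ≠ l := fun h => hne (by rw [h, h1, h2])
    rcases lt_or_gt_of_ne hkl with h | h
    · exact g.chain_chain h b1
    · rw [inter_comm]; exact g.chain_chain h a1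
  · rw [if_pos h1, if_neg h2, inter_comm]
    exact g.chain_spoke a1 (b2.resolve_left h2) b1 h2
  · rw [if_neg h1, if_pos h2]
    exact g.chain_spoke b1 (a2.resolve_left h1) a1 h1
  · rw [if_neg h1, if_neg h2]
    exact g.spoke_spoke (a2.resolve_left h1) a1 (b2.resolve_left h2) b1 h1 h2 hne

lemma Good.pq (g : Good n x y) : ∀ i ∈ JJ n, pP x y i ≠ qQ x y i := by
  rintro ⟨k, j⟩ hi
  obtain ⟨a1, -⟩ := mem_JJ.mp hi
  simp only at a1
  simp only [pP, qQ]
  split_ifs
  · intro h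
    have := g.inj (by omega) (by omega) h
    omega
  · exact g.ne_term (by omega) (sg_cases k) (tA_ge j)

lemma Good.filterP (g : Good n x y) {k : ℕ} (hk : k < n) :
    (JJ n).filter (fun i => ww x y (k + 1) = pP x y i) = {k + 1} ×ˢ Finset.univ := by
  ext ⟨m, j⟩
  simp only [Finset.mem_filter, mem_JJ, pP, Finset.mem_product, Finset.mem_singleton,
    Finset.mem_univ, and_true]
  constructor
  · rintro ⟨⟨h1, -⟩, h2⟩
    exact (g.inj (by omega) (by omega) h2).symm
  · rintro rfl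
    exact ⟨⟨hk, Or.inr (by omega)⟩, rfl⟩

lemma Good.filterQ (g : Good n x y) {k : ℕ} (hk : k < n) :
    (JJ n).filter (fun i => ww x y (k + 1) = qQ x y i) = {(k, 0)} := by
  ext ⟨m, j⟩
  simp only [Finset.mem_filter, mem_JJ, qQ, Finset.mem_singleton, Prod.mk.injEq]
  constructor
  · rintro ⟨⟨h1, -⟩, h2⟩
    split_ifs at h2 with h3
    · have := g.inj (by omega) (by omega) h2
      exact ⟨by omega, h3⟩
    · exact absurd h2 (g.ne_term (by omega) (sg_cases m) (tA_ge j))
  · rintro ⟨rfl, rfl⟩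
    exact ⟨⟨hk.le, Or.inl rfl⟩, by simp⟩

lemma Good.bal (g : Good n x y) {k : ℕ} (hk : k < n) :
    II (JJ n) (pP x y) (qQ x y) (ww x y (k + 1)) = 0 := by
  unfold II
  rw [Finset.sum_sub_distrib, ← Finset.sum_filter, ← Finset.sum_filter, g.filterP hk,
    g.filterQ hk, Finset.sum_product, Finset.sum_singleton, Finset.sum_singleton,
    Fin.sum_univ_four]
  have e1 : qQ x y (k + 1, 1) = ⟨sg (k + 1) * 3, 0⟩ := by simp [qQ, tA, tB]
  have e2 : qQ x y (k + 1, 2) = ⟨sg (k + 1) * 5, 6⟩ := by simp [qQ, tA, tB]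
  have e3 : qQ x y (k + 1, 3) = ⟨sg (k + 1) * 5, -6⟩ := by simp [qQ, tA, tB]
  have e4 : qQ x y (k + 1, 0) = ww x y (k + 1 + 1) := by simp [qQ]
  have e5 : qQ x y (k, 0) = ww x y (k + 1) := by simp [qQ]
  rw [e1, e2, e3, e4, e5]
  simp only [pP]
  rw [uv_chain, uv_chain, uv_spoke, uv_spoke, uv_spoke]
  obtain ⟨h1, h2⟩ := g.hb k hk
  unfold FX at h1
  unfold FY at h2
  apply Complex.ext
  · simp only [Complex.add_re, Complex.sub_re, Complex.zero_re, sg_succ]
    linear_combination (- sg k) * h1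
  · simp only [Complex.add_im, Complex.sub_im, Complex.zero_im]
    linear_combination h2

lemma Good.ss_pos (g : Good n x y) {k : ℕ} (hk : k ≤ n) : 0 < ss x y k := by
  unfold ss
  exact div_pos (by linarith [g.hyy k (k + 1) (by omega) (by omega)])
    (by linarith [ll_ge x y k, g.hX k hk])

lemma Good.unb0 (g : Good n x y) : II (JJ n) (pP x y) (qQ x y) (ww x y 0) ≠ 0 := by
  apply II_ne _ _ _ _ 0 1
  · rintro ⟨m, j⟩ hi
    obtain ⟨a1, a2⟩ := mem_JJ.mp hi
    simp only at a1 a2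
    constructor
    · intro h
      have hm : 0 = m := g.inj (by omega) (by omega) h
      subst hm
      have hj : j = 0 := by omega
      subst hj
      simp only [pP, qQ, if_true]
      rw [uv_chain]
      simpa using g.ss_pos a1
    · intro h
      exfalso
      simp only [qQ] at h
      split_ifs at h
      · have := g.inj (by omega) (by omega) h
        omega
      · exact g.ne_term (by omega) (sg_cases m) (tA_ge j) h
  · exact ⟨(0, 0), mem_JJ.mpr ⟨by simp, Or.inl rfl⟩, Or.inl rfl⟩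

lemma Good.unbn (g : Good n x y) : II (JJ n) (pP x y) (qQ x y) (ww x y (n + 1)) ≠ 0 := by
  apply II_ne _ _ _ _ 0 (-1)
  · rintro ⟨m, j⟩ hi
    obtain ⟨a1, a2⟩ := mem_JJ.mp hi
    simp only at a1 a2
    constructor
    · intro h
      have hm : n + 1 = m := g.inj (by omega) (by omega) h
      omega
    · intro h
      simp only [qQ] at h
      split_ifs at h with hj
      · subst hj
        simp only [pP, qQ, if_true]
        rw [uv_chain]
        simpa using g.ss_pos a1
      · exact absurd h (g.ne_term (by omega) (sg_cases m) (tA_ge j))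
  · exact ⟨(n, 0), mem_JJ.mpr ⟨by simp, Or.inl rfl⟩, Or.inr (by simp [qQ])⟩

lemma Good.unbT (g : Good n x y) {k : ℕ} (k1 : 1 ≤ k) (k2 : k ≤ n) {j : Fin 4} (hj : j ≠ 0) :
    II (JJ n) (pP x y) (qQ x y) ⟨sg k * tA j, tB j⟩ ≠ 0 := by
  apply II_ne _ _ _ _ (sg k) 0
  · rintro ⟨m, j'⟩ hi
    obtain ⟨a1, a2⟩ := mem_JJ.mp hi
    simp only at a1 a2
    constructor
    · intro h
      exact absurd h.symm (g.ne_term (by omega) (sg_cases k) (tA_ge j))
    · intro h
      simp only [qQ] at h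
      split_ifs at h with hj'
      · exact absurd h.symm (g.ne_term (by omega) (sg_cases k) (tA_ge j))
      · simp only [pP, qQ, if_neg hj']
        rw [uv_spoke]
        have h1 : sg k * tA j = sg m * tA j' := congrArg Complex.re h
        have t1 := tA_ge j
        have t2 := tA_ge j'
        obtain ⟨b1, b2⟩ := g.hx m (a2.resolve_left hj') a1
        have p0 : 0 < dd (tA j') (tB j') (x m) (y m) := dd_pos (by linarith)
        have p1 : 0 < (tA j' - x m) / dd (tA j') (tB j') (x m) (y m) := div_pos (by linarith) p0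
        rcases sg_cases k with e | e <;> rcases sg_cases m with e' | e' <;>
          rw [e, e'] at h1 ⊢ <;> simp only [] <;> linarith
  · exact ⟨(k, j), mem_JJ.mpr ⟨k2, Or.inr k1⟩, Or.inr (by simp [qQ, hj])⟩

/-- the fixed set of unbalanced vertices -/
def SS : Finset ℂ :=
  {⟨0, d0⟩, 0} ∪ (({1, 2} : Finset ℕ) ×ˢ (Finset.univ.erase (0 : Fin 4))).image
    (fun i => (⟨sg i.1 * tA i.2, tB i.2⟩ : ℂ))

lemma mem_SS {v : ℂ} : v ∈ SS ↔ v = ⟨0, d0⟩ ∨ v = 0 ∨
    ∃ k : ℕ, ∃ j : Fin 4, (k = 1 ∨ k = 2) ∧ j ≠ 0 ∧ v = ⟨sg k * tA j, tB j⟩ := by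
  simp only [SS, Finset.mem_union, Finset.mem_insert, Finset.mem_singleton, Finset.mem_image,
    Finset.mem_product, Finset.mem_erase, Finset.mem_univ, and_true, Prod.exists, or_assoc]
  constructor
  · rintro (h | h | ⟨k, j, ⟨h1, h2⟩, h3⟩)
    · exact Or.inl h
    · exact Or.inr (Or.inl h)
    · exact Or.inr (Or.inr ⟨k, j, h1, h2, h3.symm⟩)
  · rintro (h | h | ⟨k, j, h1, h2, h3⟩)
    · exact Or.inl h
    · exact Or.inr (Or.inl h)
    · exact Or.inr (Or.inr ⟨k, j, ⟨h1, h2⟩, h3.symm⟩)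

lemma Good.w0 (g : Good n x y) : ww x y 0 = ⟨0, d0⟩ := by simp [ww, g.x0, g.y0]

lemma Good.wn (g : Good n x y) : ww x y (n + 1) = 0 := by
  apply Complex.ext <;> simp [ww, g.xn, g.yn]

end

end Pool.Agent.H18.Net
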