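import Pool.Agent.H18.Net1

set_option autoImplicit false

namespace Pool.Agent.H18.Net

open Set

noncomputable section
open Classical

variable {ι : Type*}

/-- multiplicity of an edge of the subdivision -/
def mu (J : Finset ι) (p q : ι → ℂ) (m : ι → ℕ) (a b : ℂ) : ℕ :=
  ∑ i ∈ J, if a ∈ segment ℝ (p i) (q i) ∧ b ∈ segment ℝ (p i) (q i) then m i else 0

lemma mu_eq (J : Finset ι) (p q : ι → ℂ) (m : ι → ℕ)
    (hs : ∀ i ∈ J, ∀ j ∈ J, i ≠ j → (segment ℝ (p i) (q i) ∩ segment ℝ (p j) (q j)).Subsingleton)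
    {a b : ℂ} (hab : a ≠ b) {i : ι} (hi : i ∈ J) (ha : a ∈ segment ℝ (p i) (q i))
    (hb : b ∈ segment ℝ (p i) (q i)) : mu J p q m a b = m i := by
  unfold mu
  rw [Finset.sum_eq_single i]
  · rw [if_pos ⟨ha, hb⟩]
  · intro j hj hji
    rw [if_neg]
    rintro ⟨h1, h2⟩
    exact hab (hs j hj i hi hji ⟨h1, ha⟩ ⟨h2, hb⟩)
  · intro h; exact absurd hi h

lemma nbr' (J : Finset ι) (p q : ι → ℂ) (hpq : ∀ i ∈ J, p i ≠ q i)
    (hs : ∀ i ∈ J, ∀ j ∈ J, i ≠ j → (segment ℝ (p i) (q i) ∩ segment ℝ (p j) (q j)).Subsingleton)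
    {v : ℂ} (hv : v ∈ VV J p q) :
    ∃ nb : ι × Bool → ℂ, InjOn nb (act J p q v) ∧
      (GG J p q).neighborSet v = nb '' (act J p q v) ∧
      ∀ κ ∈ act J p q v, uv v (nb κ) = uv (PP p q κ) (QQ p q κ) ∧
        nb κ ∈ segment ℝ v (QQ p q κ) := by
  obtain ⟨nb, h1, h2, h3⟩ := nbr J p q hpq hs hv
  refine ⟨nb, h1, h2, fun κ hκ => ⟨h3 κ hκ, ?_⟩⟩
  obtain ⟨k1, k2, k3⟩ := mem_act.mp hκ
  have hadj : (GG J p q).Adj v (nb κ) := by
    have : nb κ ∈ (GG J p q).neighborSet v := by rw [h2]; exact ⟨κ, hκ, rfl⟩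
    exact this
  obtain ⟨a1, a2, a3, -, a5⟩ := hadj
  have hu : uv v (nb κ) = uv v (QQ p q κ) := by
    rw [h3 κ hκ, uv_seg (p := PP p q κ) (by rwa [seg_PQ]) k3]
  have hQ : QQ p q κ ∈ VV J p q := by
    refine Or.inl ⟨κ.1, k1, ?_⟩
    unfold QQ
    split_ifs
    · exact Or.inr rfl
    · exact Or.inl rfl
  have n1 : (0 : ℝ) < ‖nb κ - v‖ := norm_pos_iff.mpr (sub_ne_zero.mpr a1.symm)
  have n2 : (0 : ℝ) < ‖QQ p q κ - v‖ := norm_pos_iff.mpr (sub_ne_zero.mpr k3.symm)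
  have n1' : ((‖nb κ - v‖ : ℝ) : ℂ) ≠ 0 := by exact_mod_cast n1.ne'
  have n2' : ((‖QQ p q κ - v‖ : ℝ) : ℂ) ≠ 0 := by exact_mod_cast n2.ne'
  unfold uv at hu
  rw [div_eq_div_iff n1' n2'] at hu
  rcases le_total ‖nb κ - v‖ ‖QQ p q κ - v‖ with h | h
  · refine mem_seg.mpr ⟨‖nb κ - v‖ / ‖QQ p q κ - v‖, by positivity, (div_le_one n2).mpr h, ?_⟩
    push_cast
    field_simp
    linear_combination hu
  · have : QQ p q κ ∈ segment ℝ v (nb κ) := by
      refine mem_seg.mpr ⟨‖QQ p q κ - v‖ / ‖nb κ - v‖, by positivity, (div_le_one n1).mpr h, ?_⟩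
      push_cast
      field_simp
      linear_combination -hu
    rcases a5 _ hQ this with h' | h'
    · exact absurd h'.symm k3
    · rw [← h']; exact right_mem_segment _ _ _

lemma reach (J : Finset ι) (p q : ι → ℂ) (hpq : ∀ i ∈ J, p i ≠ q i)
    (hs : ∀ i ∈ J, ∀ j ∈ J, i ≠ j → (segment ℝ (p i) (q i) ∩ segment ℝ (p j) (q j)).Subsingleton)
    {i : ι} (hi : i ∈ J) : ∀ (c : ℕ) (v : ℂ), v ∈ VV J p q → v ∈ segment ℝ (p i) (q i) →
      (VV J p q ∩ segment ℝ v (q i)).ncard ≤ c → (GG J p q).Reachable v (q i) := by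
  have hfin := VV_finite J p q hs
  intro c
  induction c with
  | zero =>
    intro v hv _ hc
    exfalso
    have : (VV J p q ∩ segment ℝ v (q i)).Nonempty := ⟨v, hv, left_mem_segment _ _ _⟩
    have := (Set.ncard_pos (hfin.inter_of_left _)).mpr this
    omega
  | succ c ih =>
    intro v hv hseg hc
    by_cases hq : v = q i
    · rw [hq]
    · obtain ⟨nb, h1, h2, h3⟩ := nbr' J p q hpq hs hv
      have hκ : (i, true) ∈ act J p q v := mem_act.mpr ⟨hi, hseg, by simpa [QQ] using hq⟩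
      have hadj : (GG J p q).Adj v (nb (i, true)) := by
        have : nb (i, true) ∈ (GG J p q).neighborSet v := by rw [h2]; exact ⟨_, hκ, rfl⟩
        exact this
      have hm : nb (i, true) ∈ segment ℝ v (q i) := by simpa [QQ] using (h3 _ hκ).2
      refine hadj.reachable.trans (ih _ hadj.2.2.1 ?_ ?_)
      · exact (convex_segment _ _).segment_subset hseg (right_mem_segment _ _ _) hm
      · have hss : VV J p q ∩ segment ℝ (nb (i, true)) (q i) ⊂ VV J p q ∩ segment ℝ v (q i) := by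
          refine ⟨fun z hz => ⟨hz.1, (convex_segment _ _).segment_subset hm
            (right_mem_segment _ _ _) hz.2⟩, fun hsub => ?_⟩
          have hv2 := (hsub ⟨hv, left_mem_segment _ _ _⟩).2
          obtain ⟨t, t0, t1, ht⟩ := mem_seg.mp hm
          have e0 : v = v + ((0 : ℝ) : ℂ) * (q i - v) := by simp
          have e1 : q i = v + ((1 : ℝ) : ℂ) * (q i - v) := by simp
          rw [ht] at hv2
          conv at hv2 => enter [2]; rw [e0]
          conv at hv2 => enter [1, 3]; rw [e1]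
          rw [seg_param hq, mem_uIcc] at hv2
          have : t = 0 := by rcases hv2 with h | h <;> linarith [h.1, h.2]
          apply hadj.1
          rw [ht, this]; simp
        have := Set.ncard_lt_ncard hss (hfin.inter_of_left _)
        omega

/-- weighted imbalance of the family of segments at a point -/
def IW (J : Finset ι) (p q : ι → ℂ) (m : ι → ℕ) (v : ℂ) : ℂ :=
  ∑ i ∈ J, ((if v = p i then (m i : ℂ) * uv (p i) (q i) else 0) -
    (if v = q i then (m i : ℂ) * uv (p i) (q i) else 0))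

lemma sum_actW (J : Finset ι) (p q : ι → ℂ) (m : ι → ℕ) (hpq : ∀ i ∈ J, p i ≠ q i) (v : ℂ) :
    ∑ κ ∈ act J p q v, (m κ.1 : ℂ) * uv (PP p q κ) (QQ p q κ) = IW J p q m v := by
  unfold act IW
  rw [Finset.sum_filter, Finset.sum_product]
  apply Finset.sum_congr rfl
  intro i hi
  have hp := hpq i hi
  simp only [Fintype.sum_bool, PP, QQ, if_true, Bool.false_eq_true, if_false]
  rw [uv_swap (p i) (q i)]
  by_cases h1 : v = p i
  · subst h1
    simp [left_mem_segment, hp]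
  · by_cases h2 : v = q i
    · subst h2
      simp [right_mem_segment, h1]
    · by_cases h3 : v ∈ segment ℝ (p i) (q i) <;> simp [h1, h2, h3]

theorem subdivW (J : Finset ι) (p q : ι → ℂ) (m : ι → ℕ) (hpq : ∀ i ∈ J, p i ≠ q i)
    (hs : ∀ i ∈ J, ∀ j ∈ J, i ≠ j → (segment ℝ (p i) (q i) ∩ segment ℝ (p j) (q j)).Subsingleton) :
    ∃ V : Finset ℂ, ∃ G : SimpleGraph ℂ, ∃ μ : ℂ → ℂ → ℕ,
      (∀ a b : ℂ, G.Adj a b → a ∈ V ∧ b ∈ V) ∧
      (∀ a b c d : ℂ, G.Adj a b → G.Adj c d →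
          ¬ ((a = c ∧ b = d) ∨ (a = d ∧ b = c)) →
          ∀ x ∈ segment ℝ a b ∩ segment ℝ c d, (x = a ∨ x = b) ∧ (x = c ∨ x = d)) ∧
      (∀ a b v : ℂ, G.Adj a b → v ∈ V → v ∈ segment ℝ a b → v = a ∨ v = b) ∧
      (∀ i ∈ J, p i ∈ V ∧ q i ∈ V) ∧
      (∀ v ∈ V, (∑ᶠ w ∈ G.neighborSet v, (μ v w : ℂ) * ((w - v) / ((‖w - v‖ : ℝ) : ℂ))) =
        IW J p q m v) ∧
      (∀ v ∈ V, (act J p q v).card = (G.neighborSet v).ncard) ∧
      (∀ v ∈ V, (∀ i ∈ J, v ≠ p i ∧ v ≠ q i) → 3 ≤ (G.neighborSet v).ncard) ∧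
      (∀ a b : ℂ, μ a b = μ b a) ∧
      (∀ a b : ℂ, G.Adj a b → ∃ i ∈ J, a ∈ segment ℝ (p i) (q i) ∧ b ∈ segment ℝ (p i) (q i) ∧
        μ a b = m i) ∧
      (∀ v ∈ V, ∃ i ∈ J, G.Reachable v (q i)) ∧
      (∀ i ∈ J, G.Reachable (p i) (q i)) := by
  have hfin := VV_finite J p q hs
  have hcard : ∀ v ∈ VV J p q, ((GG J p q).neighborSet v).ncard = (act J p q v).card := by
    intro v hv
    obtain ⟨nb, h1, h2, -⟩ := nbr J p q hpq hs hv
    rw [h2, h1.ncard_image, ncard_coe_finset]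
  refine ⟨hfin.toFinset, GG J p q, mu J p q m, ?_, ?_, ?_, ?_, ?_, ?_, ?_, ?_, ?_, ?_, ?_⟩
  · intro a b h
    simp only [Finite.mem_toFinset]
    exact ⟨h.2.1, h.2.2.1⟩
  · intro a b c d hab hcd hne x hx
    refine ⟨GG_cross J p q hpq hab hcd hne hx.1 hx.2, GG_cross J p q hpq hcd hab ?_ hx.2 hx.1⟩
    rintro (⟨h1, h2⟩ | ⟨h1, h2⟩)
    · exact hne (Or.inl ⟨h1.symm, h2.symm⟩)
    · exact hne (Or.inr ⟨h2.symm, h1.symm⟩)
  · intro a b v h hv hs
    rw [Finite.mem_toFinset] at hv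
    exact h.2.2.2.2 v hv hs
  · intro i hi
    simp only [Finite.mem_toFinset]
    exact ⟨Or.inl ⟨i, hi, Or.inl rfl⟩, Or.inl ⟨i, hi, Or.inr rfl⟩⟩
  · intro v hv
    rw [Finite.mem_toFinset] at hv
    obtain ⟨nb, h1, h2, h3⟩ := nbr' J p q hpq hs hv
    rw [h2, finsum_mem_image h1, finsum_mem_coe_finset, ← sum_actW J p q m hpq]
    apply Finset.sum_congr rfl
    intro κ hκ
    obtain ⟨k1, k2, k3⟩ := mem_act.mp hκ
    have hadj : (GG J p q).Adj v (nb κ) := by
      have : nb κ ∈ (GG J p q).neighborSet v := by rw [h2]; exact ⟨κ, hκ, rfl⟩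
      exact this
    rw [mu_eq J p q m hs hadj.1 k1 k2
      ((convex_segment _ _).segment_subset k2 (QQ_mem p q κ) (h3 κ hκ).2), ← (h3 κ hκ).1]
    rfl
  · intro v hv
    rw [Finite.mem_toFinset] at hv
    rw [hcard v hv]
  · intro v hv hn
    rw [Finite.mem_toFinset] at hv
    rw [hcard v hv]
    rcases hv with ⟨i, hi, h | h⟩ | ⟨i, hi, j, hj, hij, h1, h2⟩
    · exact absurd h (hn i hi).1
    · exact absurd h (hn i hi).2
    · rw [Nat.succ_le_iff, Finset.two_lt_card_iff]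
      refine ⟨(i, true), (i, false), (j, true), ?_, ?_, ?_, by simp, by simp [hij], by simp⟩
      · exact mem_act.mpr ⟨hi, h1, by simpa [QQ] using (hn i hi).2⟩
      · exact mem_act.mpr ⟨hi, h1, by simpa [QQ] using (hn i hi).1⟩
      · exact mem_act.mpr ⟨hj, h2, by simpa [QQ] using (hn j hj).2⟩
  · intro a b
    unfold mu
    apply Finset.sum_congr rfl
    intro i _
    simp only [and_comm]
  · rintro a b ⟨h1, -, -, ⟨i, hi, h4, h5⟩, -⟩
    exact ⟨i, hi, h4, h5, mu_eq J p q m hs h1 hi h4 h5⟩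
  · intro v hv
    rw [Finite.mem_toFinset] at hv
    have : ∃ i ∈ J, v ∈ segment ℝ (p i) (q i) := by
      rcases hv with ⟨i, hi, h | h⟩ | ⟨i, hi, j, hj, hij, h1, h2⟩
      · exact ⟨i, hi, h ▸ left_mem_segment _ _ _⟩
      · exact ⟨i, hi, h ▸ right_mem_segment _ _ _⟩
      · exact ⟨i, hi, h1⟩
    obtain ⟨i, hi, h⟩ := this
    exact ⟨i, hi, reach J p q hpq hs hi _ v hv h le_rfl⟩
  · intro i hi
    exact reach J p q hpq hs hi _ _ (Or.inl ⟨i, hi, Or.inl rfl⟩) (left_mem_segment _ _ _) le_rfl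

lemma act_three {J : Finset ι} {p q : ι → ℂ} (hpq : ∀ i ∈ J, p i ≠ q i) {v : ℂ} {i j k : ι}
    (hi : i ∈ J) (hj : j ∈ J) (hk : k ∈ J) (hij : i ≠ j) (hik : i ≠ k) (hjk : j ≠ k)
    (vi : v = p i ∨ v = q i) (vj : v = p j ∨ v = q j) (vk : v = p k ∨ v = q k) :
    3 ≤ (act J p q v).card := by
  have key : ∀ i ∈ J, (v = p i ∨ v = q i) → ∃ b, (i, b) ∈ act J p q v := by
    rintro i hi (h | h)
    · exact ⟨true, mem_act.mpr ⟨hi, h ▸ left_mem_segment _ _ _, by
        simp only [QQ, if_true]; rw [h]; exact hpq i hi⟩⟩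
    · exact ⟨false, mem_act.mpr ⟨hi, h ▸ right_mem_segment _ _ _, by
        simp only [QQ, Bool.false_eq_true, if_false]; rw [h]; exact (hpq i hi).symm⟩⟩
  obtain ⟨a, ha⟩ := key i hi vi
  obtain ⟨b, hb⟩ := key j hj vj
  obtain ⟨c, hc⟩ := key k hk vk
  rw [Nat.succ_le_iff, Finset.two_lt_card_iff]
  exact ⟨_, _, _, ha, hb, hc, by simp [hij], by simp [hik], by simp [hjk]⟩

lemma IW_ne (J : Finset ι) (p q : ι → ℂ) (m : ι → ℕ) (hm : ∀ i ∈ J, 1 ≤ m i) (v : ℂ) (a b : ℝ)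
    (h : ∀ i ∈ J, (v = p i → a * (uv (p i) (q i)).re + b * (uv (p i) (q i)).im < 0) ∧
      (v = q i → 0 < a * (uv (p i) (q i)).re + b * (uv (p i) (q i)).im))
    (h0 : ∃ i ∈ J, v = p i ∨ v = q i) : IW J p q m v ≠ 0 := by
  intro hI
  have h1 : a * (IW J p q m v).re + b * (IW J p q m v).im = 0 := by rw [hI]; simp
  unfold IW at h1
  rw [Complex.re_sum, Complex.im_sum, Finset.mul_sum, Finset.mul_sum,
    ← Finset.sum_add_distrib] at h1
  have key : ∀ i ∈ J, (v = p i ∨ v = q i) →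
      (a * ((if v = p i then (m i : ℂ) * uv (p i) (q i) else 0) -
      (if v = q i then (m i : ℂ) * uv (p i) (q i) else 0)).re +
      b * ((if v = p i then (m i : ℂ) * uv (p i) (q i) else 0) -
      (if v = q i then (m i : ℂ) * uv (p i) (q i) else 0)).im) < 0 := by
    intro i hi hv
    obtain ⟨k1, k2⟩ := h i hi
    have m1 : (1 : ℝ) ≤ m i := by exact_mod_cast hm i hi
    by_cases e1 : v = p i <;> by_cases e2 : v = q i
    · linarith [k1 e1, k2 e2]
    · rw [if_pos e1, if_neg e2]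
      simp only [sub_zero, Complex.mul_re, Complex.mul_im, Complex.natCast_re, Complex.natCast_im,
        zero_mul, add_zero]
      nlinarith [k1 e1]
    · rw [if_neg e1, if_pos e2]
      simp only [zero_sub, Complex.neg_re, Complex.neg_im, Complex.mul_re, Complex.mul_im,
        Complex.natCast_re, Complex.natCast_im, zero_mul, add_zero, sub_zero]
      nlinarith [k2 e2]
    · exact absurd hv (by tauto)
  have h2 : ∑ i ∈ J, (a * ((if v = p i then (m i : ℂ) * uv (p i) (q i) else 0) -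
      (if v = q i then (m i : ℂ) * uv (p i) (q i) else 0)).re +
      b * ((if v = p i then (m i : ℂ) * uv (p i) (q i) else 0) -
      (if v = q i then (m i : ℂ) * uv (p i) (q i) else 0)).im) < ∑ i ∈ J, (0 : ℝ) := by
    apply Finset.sum_lt_sum
    · intro i hi
      by_cases hv : v = p i ∨ v = q i
      · exact (key i hi hv).le
      · push Not at hv
        rw [if_neg hv.1, if_neg hv.2]; simp
    · obtain ⟨i, hi, hv⟩ := h0
      exact ⟨i, hi, key i hi hv⟩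
  simp only [Finset.sum_const_zero] at h2
  linarith

end

end Pool.Agent.H18.Net
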