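import Pool.Agent.H18.Net3

set_option autoImplicit false

namespace Pool.Agent.H18.Net

open Set

noncomputable section

lemma dd_dx' {A B x y : ℝ} (h : dd A B x y ≠ 0) :
    HasDerivAt (fun t => dd A B t y) ((x - A) / dd A B x y) x := by
  have h0 : (x - A) ^ 2 + (y - B) ^ 2 ≠ 0 := by
    rw [← dd_sq]; positivity
  have h1 : HasDerivAt (fun t : ℝ => (t - A) ^ 2 + (y - B) ^ 2) (2 * (x - A)) x := by
    have := (((hasDerivAt_id x).sub_const A).pow 2).add_const ((y - B) ^ 2)
    simpa using this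
  have h2 := h1.sqrt h0
  unfold dd
  convert h2 using 1
  rw [mul_div_mul_left _ _ (two_ne_zero)]

lemma dd_dy' {A B x y : ℝ} (h : dd A B x y ≠ 0) :
    HasDerivAt (fun t => dd A B x t) ((y - B) / dd A B x y) y := by
  have h0 : (x - A) ^ 2 + (y - B) ^ 2 ≠ 0 := by
    rw [← dd_sq]; positivity
  have h1 : HasDerivAt (fun t : ℝ => (x - A) ^ 2 + (t - B) ^ 2) (2 * (y - B)) y := by
    have := (((hasDerivAt_id y).sub_const B).pow 2).const_add ((x - A) ^ 2)
    simpa using this
  have h2 := h1.sqrt h0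
  unfold dd
  convert h2 using 1
  rw [mul_div_mul_left _ _ (two_ne_zero)]

lemma dd_comm (a b a' b' : ℝ) : dd a' b' a b = dd a b a' b' := by
  unfold dd; congr 1; ring

/-- weighted sum of distances -/
def pl (L : List (ℝ × ℝ × ℝ)) (x y : ℝ) : ℝ := (L.map (fun t => t.1 * dd t.2.1 t.2.2 x y)).sum
/-- weighted horizontal pull -/
def fx (L : List (ℝ × ℝ × ℝ)) (x y : ℝ) : ℝ :=
  (L.map (fun t => t.1 * ((t.2.1 - x) / dd t.2.1 t.2.2 x y))).sum
/-- weighted vertical pull -/
def fy (L : List (ℝ × ℝ × ℝ)) (x y : ℝ) : ℝ :=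
  (L.map (fun t => t.1 * ((t.2.2 - y) / dd t.2.1 t.2.2 x y))).sum

lemma pl_cont (L : List (ℝ × ℝ × ℝ)) : Continuous (fun z : ℝ × ℝ => pl L z.1 z.2) := by
  induction L with
  | nil => simpa [pl] using continuous_const
  | cons t L ih =>
    simp only [pl, List.map_cons, List.sum_cons] at ih ⊢
    refine Continuous.add ?_ ih
    simp only [dd]
    fun_prop

lemma pl_dx (L : List (ℝ × ℝ × ℝ)) {x y : ℝ} (h : ∀ t ∈ L, dd t.2.1 t.2.2 x y ≠ 0) :
    HasDerivAt (fun s => pl L s y) (- fx L x y) x := by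
  induction L with
  | nil => simpa [pl, fx] using hasDerivAt_const x (0 : ℝ)
  | cons t L ih =>
    have h1 := ih (fun t ht => h t (List.mem_cons_of_mem _ ht))
    have h2 := (dd_dx' (h t List.mem_cons_self)).const_mul t.1
    simp only [pl, fx, List.map_cons, List.sum_cons] at h1 ⊢
    refine (h2.add h1).congr_deriv ?_
    ring

lemma pl_dy (L : List (ℝ × ℝ × ℝ)) {x y : ℝ} (h : ∀ t ∈ L, dd t.2.1 t.2.2 x y ≠ 0) :
    HasDerivAt (fun s => pl L x s) (- fy L x y) y := by
  induction L with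
  | nil => simpa [pl, fy] using hasDerivAt_const y (0 : ℝ)
  | cons t L ih =>
    have h1 := ih (fun t ht => h t (List.mem_cons_of_mem _ ht))
    have h2 := (dd_dy' (h t List.mem_cons_self)).const_mul t.1
    simp only [pl, fy, List.map_cons, List.sum_cons] at h1 ⊢
    refine (h2.add h1).congr_deriv ?_
    ring

/-- length of a chain edge -/
def lA (x y : ℕ → ℝ) (k : ℕ) : ℝ := dd (x k) (y k) (x (k + 1)) (y (k + 1))
/-- signed cosine of a chain edge -/
def aA (x y : ℕ → ℝ) (k : ℕ) : ℝ := (x (k + 1) - x k) / lA x y k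
/-- descent sine of a chain edge -/
def sA (x y : ℕ → ℝ) (k : ℕ) : ℝ := (y k - y (k + 1)) / lA x y k

theorem exists_kkt (n : ℕ) (L : ℕ → List (ℝ × ℝ × ℝ)) (xl xh yl yh : ℕ → ℝ)
    (hx : ∀ k, xl k ≤ xh k) (hy : ∀ k, yl k ≤ yh k)
    (hL : ∀ k, k < n → ∀ t ∈ L (k + 1), ∀ a ∈ Icc (xl (k + 1)) (xh (k + 1)),
      ∀ b ∈ Icc (yl (k + 1)) (yh (k + 1)), dd t.2.1 t.2.2 a b ≠ 0)
    (hg : ∀ k, k ≤ n → xh k < xl (k + 1) ∨ xh (k + 1) < xl k) :
    ∃ x y : ℕ → ℝ, (∀ k, xl k ≤ x k ∧ x k ≤ xh k) ∧ (∀ k, yl k ≤ y k ∧ y k ≤ yh k) ∧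
      ∀ k, k < n →
        (x (k + 1) < xh (k + 1) →
          0 ≤ aA x y k - aA x y (k + 1) - fx (L (k + 1)) (x (k + 1)) (y (k + 1))) ∧
        (xl (k + 1) < x (k + 1) →
          aA x y k - aA x y (k + 1) - fx (L (k + 1)) (x (k + 1)) (y (k + 1)) ≤ 0) ∧
        (y (k + 1) < yh (k + 1) →
          0 ≤ sA x y (k + 1) - sA x y k - fy (L (k + 1)) (x (k + 1)) (y (k + 1))) ∧
        (yl (k + 1) < y (k + 1) →
          sA x y (k + 1) - sA x y k - fy (L (k + 1)) (x (k + 1)) (y (k + 1)) ≤ 0) := by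
  classical
  let B : ℕ → Set (ℝ × ℝ) := fun k => Icc (xl k) (xh k) ×ˢ Icc (yl k) (yh k)
  have hK : IsCompact (Set.pi univ B) :=
    isCompact_univ_pi (fun k => isCompact_Icc.prod isCompact_Icc)
  have hne : (Set.pi univ B).Nonempty := by
    rw [univ_pi_nonempty_iff]
    intro k
    exact ⟨(xl k, yl k), ⟨le_rfl, hx k⟩, le_rfl, hy k⟩
  let T : (ℕ → ℝ × ℝ) → ℕ → ℝ := fun z j =>
    pl (L j) (z j).1 (z j).2 + dd (z j).1 (z j).2 (z (j + 1)).1 (z (j + 1)).2
  have hc : Continuous (fun z : ℕ → ℝ × ℝ => ∑ j ∈ Finset.range (n + 1), T z j) := by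
    apply continuous_finset_sum
    intro j _
    refine Continuous.add ((pl_cont (L j)).comp (continuous_apply j)) ?_
    simp only [dd]
    fun_prop
  obtain ⟨z, hz, hmin⟩ := hK.exists_isMinOn hne hc.continuousOn
  have hz' : ∀ k, z k ∈ B k := fun k => hz k (mem_univ k)
  refine ⟨fun k => (z k).1, fun k => (z k).2, fun k => (hz' k).1, fun k => (hz' k).2,
    fun k hk => ?_⟩
  have hm : ∀ a ∈ Icc (xl (k + 1)) (xh (k + 1)), ∀ b ∈ Icc (yl (k + 1)) (yh (k + 1)),
      pl (L (k + 1)) (z (k + 1)).1 (z (k + 1)).2 +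
        dd (z k).1 (z k).2 (z (k + 1)).1 (z (k + 1)).2 +
        dd (z (k + 1 + 1)).1 (z (k + 1 + 1)).2 (z (k + 1)).1 (z (k + 1)).2 ≤
      pl (L (k + 1)) a b + dd (z k).1 (z k).2 a b +
        dd (z (k + 1 + 1)).1 (z (k + 1 + 1)).2 a b := by
    intro a ha b hb
    have hmem : Function.update z (k + 1) (a, b) ∈ Set.pi univ B := by
      intro j _
      by_cases hj : j = k + 1
      · subst hj
        simp only [Function.update_self]
        exact ⟨ha, hb⟩
      · rw [Function.update_of_ne hj]; exact hz' j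
    have hle : ∑ j ∈ Finset.range (n + 1), T z j ≤
        ∑ j ∈ Finset.range (n + 1), T (Function.update z (k + 1) (a, b)) j := hmin hmem
    have m1 : k ∈ Finset.range (n + 1) := Finset.mem_range.mpr (by omega)
    have m2 : k + 1 ∈ (Finset.range (n + 1)).erase k :=
      Finset.mem_erase.mpr ⟨by omega, Finset.mem_range.mpr (by omega)⟩
    rw [← Finset.add_sum_erase _ _ m1, ← Finset.add_sum_erase _ _ m2,
      ← Finset.add_sum_erase _ _ m1, ← Finset.add_sum_erase _ _ m2] at hle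
    have hrest : ∑ j ∈ ((Finset.range (n + 1)).erase k).erase (k + 1),
        T (Function.update z (k + 1) (a, b)) j =
        ∑ j ∈ ((Finset.range (n + 1)).erase k).erase (k + 1), T z j := by
      apply Finset.sum_congr rfl
      intro j hj
      simp only [Finset.mem_erase] at hj
      simp only [T]
      rw [Function.update_of_ne hj.1, Function.update_of_ne (by omega : j + 1 ≠ k + 1)]
    rw [hrest] at hle
    simp only [T, Function.update_self, Function.update_of_ne (by omega : k ≠ k + 1),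
      Function.update_of_ne (by omega : k + 1 + 1 ≠ k + 1)] at hle
    rw [dd_comm (z (k + 1 + 1)).1 (z (k + 1 + 1)).2 a b,
      dd_comm (z (k + 1 + 1)).1 (z (k + 1 + 1)).2 (z (k + 1)).1 (z (k + 1)).2] at hle
    linarith
  have b0 := hz' k
  have b1 := hz' (k + 1)
  have b2 := hz' (k + 1 + 1)
  have n1 : dd (z k).1 (z k).2 (z (k + 1)).1 (z (k + 1)).2 ≠ 0 := by
    apply ne_of_gt
    apply dd_pos
    intro h
    rcases hg k hk.le with h1 | h1 <;> linarith [b0.1.1, b0.1.2, b1.1.1, b1.1.2]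
  have n2 : dd (z (k + 1 + 1)).1 (z (k + 1 + 1)).2 (z (k + 1)).1 (z (k + 1)).2 ≠ 0 := by
    apply ne_of_gt
    apply dd_pos
    intro h
    rcases hg (k + 1) hk with h1 | h1 <;> linarith [b2.1.1, b2.1.2, b1.1.1, b1.1.2]
  have n3 := fun t ht => hL k hk t ht _ b1.1 _ b1.2
  have hDx : HasDerivAt (fun s => pl (L (k + 1)) s (z (k + 1)).2 +
      dd (z k).1 (z k).2 s (z (k + 1)).2 + dd (z (k + 1 + 1)).1 (z (k + 1 + 1)).2 s (z (k + 1)).2)
      (aA (fun k => (z k).1) (fun k => (z k).2) k - aA (fun k => (z k).1) (fun k => (z k).2) (k + 1)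
        - fx (L (k + 1)) (z (k + 1)).1 (z (k + 1)).2) (z (k + 1)).1 := by
    refine (((pl_dx _ n3).add (dd_dx' n1)).add (dd_dx' n2)).congr_deriv ?_
    unfold aA lA
    rw [dd_comm (z (k + 1 + 1)).1 (z (k + 1 + 1)).2 (z (k + 1)).1 (z (k + 1)).2]
    ring
  have hDy : HasDerivAt (fun s => pl (L (k + 1)) (z (k + 1)).1 s +
      dd (z k).1 (z k).2 (z (k + 1)).1 s + dd (z (k + 1 + 1)).1 (z (k + 1 + 1)).2 (z (k + 1)).1 s)
      (sA (fun k => (z k).1) (fun k => (z k).2) (k + 1) - sA (fun k => (z k).1) (fun k => (z k).2) k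
        - fy (L (k + 1)) (z (k + 1)).1 (z (k + 1)).2) (z (k + 1)).2 := by
    refine (((pl_dy _ n3).add (dd_dy' n1)).add (dd_dy' n2)).congr_deriv ?_
    unfold sA lA
    rw [dd_comm (z (k + 1 + 1)).1 (z (k + 1 + 1)).2 (z (k + 1)).1 (z (k + 1)).2]
    ring
  refine ⟨fun hh => der_nonneg hDx hh (fun t ht => hm t ⟨by linarith [ht.1, b1.1.1], ht.2⟩ _ b1.2),
    fun hh => der_nonpos hDx hh (fun t ht => hm t ⟨ht.1, by linarith [ht.2, b1.1.2]⟩ _ b1.2),
    fun hh => der_nonneg hDy hh (fun t ht => hm _ b1.1 t ⟨by linarith [ht.1, b1.2.1], ht.2⟩),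
    fun hh => der_nonpos hDy hh (fun t ht => hm _ b1.1 t ⟨ht.1, by linarith [ht.2, b1.2.2]⟩)⟩

lemma as_sq {x y : ℕ → ℝ} {k : ℕ} (h : 0 < lA x y k) : aA x y k ^ 2 + sA x y k ^ 2 = 1 := by
  have h2 : lA x y k ^ 2 = (x (k + 1) - x k) ^ 2 + (y (k + 1) - y k) ^ 2 := dd_sq _ _ _ _
  unfold aA sA
  field_simp
  linarith

lemma lA_ge (x y : ℕ → ℝ) (k : ℕ) : |x (k + 1) - x k| ≤ lA x y k := dd_ge _ _ _ _

lemma yeq {y d s1 s2 G H : ℝ} (hd : 0 < d) (hH : 0 < H) (y0 : 0 ≤ y) (y1 : y ≤ d)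
    (hup : y < d → 0 ≤ s2 - s1 + G) (hdn : 0 < y → s2 - s1 + G ≤ 0)
    (top : y = d → s1 ≤ 0 ∧ 0 ≤ s2) (bot : y = 0 → 0 ≤ s1 ∧ s2 ≤ 0)
    (g1 : y / H ≤ G) (g2 : G ≤ H * y) : s1 = s2 + G := by
  rcases y0.lt_or_eq with h1 | h1
  · rcases y1.lt_or_eq with h2 | h2
    · linarith [hup h2, hdn h1]
    · have := hdn h1
      have := top h2
      have : 0 < y / H := div_pos h1 hH
      linarith
  · have := hup (by linarith)
    have := bot h1.symm
    rw [← h1] at g1 g2
    simp only [zero_div, mul_zero] at g1 g2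
    linarith

theorem seq_mono (r m : ℕ) (y s l : ℕ → ℝ) (H : ℝ) (hH : 0 < H)
    (hs : ∀ k, r ≤ k → k ≤ m → s k = (y k - y (k + 1)) / l k ∧ 1 / 2 ≤ l k)
    (yn : y (m + 1) = 0) (y0 : 0 < y r) (hy : ∀ k, r ≤ k → k ≤ m + 1 → 0 ≤ y k)
    (hG : ∀ k, r ≤ k → k < m →
      s (k + 1) + y (k + 1) / H ≤ s k ∧ s k ≤ s (k + 1) + H * y (k + 1)) :
    (∀ k, r ≤ k → k ≤ m → 0 < y k ∧ 0 < s k) ∧
    (∀ k l, r ≤ k → k < l → l ≤ m + 1 → y l < y k) ∧
    (∀ k l, r ≤ k → k < l → l ≤ m → s l < s k) ∧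
    (∀ k, r ≤ k → k < m → s k ≤ (2 + H * (1 + 2 * H)) * (y (k + 1) - y (k + 2))) := by
  have hs0 : ∀ j k, r ≤ k → k + j = m → 0 ≤ s k := by
    intro j
    induction j with
    | zero =>
      intro k hr hk
      have : k = m := by omega
      subst this
      obtain ⟨e, e2⟩ := hs k hr le_rfl
      rw [e, yn, sub_zero]
      exact div_nonneg (hy k hr (by omega)) (by linarith)
    | succ j ih =>
      intro k hr hk
      have h1 := ih (k + 1) (by omega) (by omega)
      have h2 := (hG k hr (by omega)).1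
      have h3 := div_nonneg (hy (k + 1) (by omega) (by omega)) hH.le
      linarith
  have hs0' : ∀ k, r ≤ k → k ≤ m → 0 ≤ s k := fun k hr hk => hs0 (m - k) k hr (by omega)
  have hpos : ∀ k, r ≤ k → k ≤ m → 0 < y k := by
    intro k hr
    induction k, hr using Nat.le_induction with
    | base => intro _; exact y0
    | succ k hr ih =>
      intro hk
      have h1 := ih (by omega)
      rcases (hy (k + 1) (by omega) (by omega)).lt_or_eq with h | h
      · exact h
      · exfalso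
        have h2 := (hG k hr (by omega)).2
        obtain ⟨e, e2⟩ := hs k hr (by omega)
        obtain ⟨e', e2'⟩ := hs (k + 1) (by omega) hk
        have h3 : s (k + 1) ≤ 0 := by
          rw [e']
          exact div_nonpos_of_nonpos_of_nonneg
            (by linarith [hy (k + 1 + 1) (by omega) (by omega)]) (by linarith)
        have h4 : 0 < s k := by
          rw [e]
          exact div_pos (by linarith) (by linarith)
        rw [← h] at h2
        linarith
  have hsdec : ∀ k, r ≤ k → k < m → s (k + 1) < s k := by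
    intro k hr hk
    have := (hG k hr hk).1
    have := div_pos (hpos (k + 1) (by omega) hk) hH
    linarith
  have hspos : ∀ k, r ≤ k → k ≤ m → 0 < s k := by
    intro k hr hk
    rcases hk.lt_or_eq with h | h
    · linarith [hsdec k hr h, hs0' (k + 1) (by omega) h]
    · subst h
      obtain ⟨e, e2⟩ := hs k hr le_rfl
      rw [e, yn, sub_zero]
      exact div_pos (hpos k hr le_rfl) (by linarith)
  have hle : ∀ k, r ≤ k → k ≤ m → s k ≤ 2 * (y k - y (k + 1)) := by
    intro k hr hk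
    obtain ⟨e, e2⟩ := hs k hr hk
    have h1 := hspos k hr hk
    have h2 : s k * l k = y k - y (k + 1) := by
      rw [e]; field_simp
    nlinarith
  have hydec : ∀ k, r ≤ k → k ≤ m → y (k + 1) < y k := by
    intro k hr hk
    linarith [hspos k hr hk, hle k hr hk]
  refine ⟨fun k hr hk => ⟨hpos k hr hk, hspos k hr hk⟩, ?_, ?_, ?_⟩
  · intro k l hr hkl
    induction l, hkl using Nat.le_induction with
    | base => intro h; exact hydec k hr (by omega)
    | succ l _ ih => intro h; linarith [ih (by omega), hydec l (by omega) (by omega)]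
  · intro k l hr hkl
    induction l, hkl using Nat.le_induction with
    | base => intro h; exact hsdec k hr (by omega)
    | succ l _ ih => intro h; linarith [ih (by omega), hsdec l (by omega) (by omega)]
  · intro k hr hk
    have d1 := hle (k + 1) (by omega) hk
    have d2 : y (k + 2) ≤ H * s (k + 1) := by
      rcases (show k + 1 ≤ m from hk).lt_or_eq with h | h
      · have h1 := (hG (k + 1) (by omega) h).1
        have h2 := hs0' (k + 1 + 1) (by omega) h
        have h3 : y (k + 2) / H ≤ s (k + 1) := by linarith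
        rwa [div_le_iff₀' hH] at h3
      · have : y (k + 2) = 0 := by rw [← yn, ← h]
        rw [this]
        exact mul_nonneg hH.le (hs0' _ (by omega) hk)
    have d3 := (hG k hr hk).2
    have e : k + 1 + 1 = k + 2 := rfl
    rw [e] at d1
    have d4 : y (k + 2) ≤ H * (2 * (y (k + 1) - y (k + 2))) :=
      d2.trans (mul_le_mul_of_nonneg_left d1 hH.le)
    have d5 : H * y (k + 1) ≤ H * ((1 + 2 * H) * (y (k + 1) - y (k + 2))) :=
      mul_le_mul_of_nonneg_left (by linarith) hH.le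
    linarith

lemma sq_deriv (t : ℝ) : HasDerivAt (fun s : ℝ => √(1 + s ^ 2)) (t / √(1 + t ^ 2)) t := by
  have h1 : HasDerivAt (fun s : ℝ => 1 + s ^ 2) (2 * t) t := by
    simpa using ((hasDerivAt_id t).pow 2).const_add 1
  refine (h1.sqrt (by positivity)).congr_deriv ?_
  rw [mul_div_mul_left _ _ (two_ne_zero)]

/-- minus the derivative of `ga` -/
def psi (t : ℝ) : ℝ := t / √(1 + t ^ 2) ^ 3

lemma ga_deriv (t : ℝ) : HasDerivAt ga (- psi t) t := by
  have hp : 0 < √(1 + t ^ 2) := Real.sqrt_pos.mpr (by positivity)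
  have := (sq_deriv t).inv hp.ne'
  have e : ga = (fun s : ℝ => √(1 + s ^ 2))⁻¹ := by
    funext s; simp [ga]
  rw [e]
  refine this.congr_deriv ?_
  unfold psi
  field_simp

lemma psi_lip (a b : ℝ) : |psi a - psi b| ≤ |a - b| := by
  have hd : ∀ t : ℝ, HasDerivAt psi ((1 - 2 * t ^ 2) / √(1 + t ^ 2) ^ 5) t := by
    intro t
    have hp : 0 < √(1 + t ^ 2) := Real.sqrt_pos.mpr (by positivity)
    have hs : √(1 + t ^ 2) ^ 2 = 1 + t ^ 2 := Real.sq_sqrt (by positivity)
    have := (hasDerivAt_id t).div ((sq_deriv t).pow 3) (pow_ne_zero 3 hp.ne')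
    refine this.congr_deriv ?_
    simp only [id, Pi.pow_apply]
    generalize √(1 + t ^ 2) = A at *
    field_simp
    push_cast
    linear_combination A ^ 2 * hs
  have hb : ∀ t : ℝ, ‖(1 - 2 * t ^ 2) / √(1 + t ^ 2) ^ 5‖ ≤ 1 := by
    intro t
    obtain ⟨A, a1, a2, -⟩ := ga_facts t
    have hA : √(1 + t ^ 2) = A := by
      rw [← a2, Real.sqrt_sq (by linarith)]
    rw [hA, Real.norm_eq_abs, abs_div, abs_of_pos (by positivity : 0 < A ^ 5),
      div_le_one (by positivity)]
    have h4 : A ^ 4 ≤ A ^ 5 := pow_le_pow_right₀ a1 (by norm_num)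
    have h5 : A ^ 4 = (1 + t ^ 2) ^ 2 := by rw [← a2]; ring
    rw [abs_le]
    constructor <;> nlinarith [sq_nonneg (t ^ 2), sq_nonneg t]
  have := Convex.norm_image_sub_le_of_norm_hasDerivWithin_le (s := univ) (f := psi)
    (fun t _ => (hd t).hasDerivWithinAt) (fun t _ => hb t) convex_univ (mem_univ b) (mem_univ a)
  simpa using this

lemma ga_pair (t : ℝ) {s s' : ℝ} (h0 : 0 ≤ s') (h : s' ≤ s) :
    |ga (t - s) + ga (t + s) - (ga (t - s') + ga (t + s'))| ≤ 2 * s * (s - s') := by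
  have hd : ∀ u : ℝ, HasDerivAt (fun u => ga (t - u) + ga (t + u)) (psi (t - u) - psi (t + u)) u := by
    intro u
    have h1 := (ga_deriv (t - u)).comp u ((hasDerivAt_id u).const_sub t)
    have h2 := (ga_deriv (t + u)).comp u ((hasDerivAt_id u).const_add t)
    refine (h1.add h2).congr_deriv ?_
    ring
  have hb : ∀ u ∈ Icc s' s, ‖psi (t - u) - psi (t + u)‖ ≤ 2 * s := by
    intro u hu
    have := psi_lip (t - u) (t + u)
    rw [Real.norm_eq_abs]
    refine this.trans ?_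
    rw [abs_le]
    constructor <;> linarith [hu.1, hu.2]
  have := Convex.norm_image_sub_le_of_norm_hasDerivWithin_le (s := Icc s' s)
    (f := fun u => ga (t - u) + ga (t + u))
    (fun u _ => (hd u).hasDerivWithinAt) hb (convex_Icc _ _) ⟨le_rfl, h⟩ ⟨h, le_rfl⟩
  rw [Real.norm_eq_abs, Real.norm_eq_abs, abs_of_nonneg (by linarith : 0 ≤ s - s')] at this
  exact this

lemma ga_gap' {t t' : ℝ} (h0 : 1 / 2 ≤ t) (h : t ≤ t') (h1 : t' ≤ 2) :
    (t' - t) / 25 ≤ ga t - ga t' := by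
  obtain ⟨A, a1, a2, a3⟩ := ga_facts t
  obtain ⟨B, b1, b2, b3⟩ := ga_facts t'
  have hA : A ≤ 224 / 100 := by nlinarith
  have hB : B ≤ 224 / 100 := by nlinarith
  have hAB : A ≤ B := by nlinarith
  rw [a3, b3, div_sub_div _ _ (by linarith) (by linarith), div_le_div_iff₀ (by norm_num)
    (by positivity)]
  have e : (B - A) * (B + A) = (t' - t) * (t' + t) := by nlinarith
  have h2 : A * B ≤ 502 / 100 := by nlinarith
  have h3 : (t' - t) * 1 ≤ (B - A) * (448 / 100) := by nlinarith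
  have h4 : (t' - t) * (A * B) ≤ (t' - t) * (502 / 100) :=
    mul_le_mul_of_nonneg_left h2 (by linarith)
  nlinarith

/-- the pull of a symmetric pair is at most proportional to the height -/
lemma pair_bounds {A B a b : ℝ} (hB : 0 < B) (h0 : 0 ≤ b) (h1 : b ≤ B) (R : ℝ) (hR : 0 < R)
    (hR' : R ≤ dd A B a b) :
    0 ≤ (B + b) / dd A (-B) a b - (B - b) / dd A B a b ∧
      (B + b) / dd A (-B) a b - (B - b) / dd A B a b ≤ 2 * b / R := by
  have p1 : 0 < dd A B a b := by linarith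
  have s1 := dd_sq A B a b
  have s2 := dd_sq A (-B) a b
  have l2 : dd A B a b ≤ dd A (-B) a b := by
    apply le_of_sq_le_sq _ (dd_nonneg _ _ _ _)
    rw [s1, s2]
    nlinarith
  have p2 : 0 < dd A (-B) a b := by linarith
  have k1 : (B - b) / dd A B a b ≤ (B + b) / dd A (-B) a b := by
    rw [div_le_div_iff₀ p1 p2]
    have hb6 : 0 ≤ B + b := by linarith
    apply le_of_sq_le_sq _ (mul_nonneg hb6 p1.le)
    rw [mul_pow, mul_pow, s1, s2]
    nlinarith [mul_nonneg (mul_nonneg h0 hB.le) (sq_nonneg (a - A))]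
  have k2 : (B + b) / dd A (-B) a b ≤ (B + b) / dd A B a b :=
    div_le_div_of_nonneg_left (by linarith) p1 l2
  have k3 : (B + b) / dd A B a b = (B - b) / dd A B a b + 2 * b / dd A B a b := by ring
  have k4 : 2 * b / dd A B a b ≤ 2 * b / R := div_le_div_of_nonneg_left (by linarith) hR hR'
  constructor <;> linarith

end

end Pool.Agent.H18.Net
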