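import Pool.Agent.H18.Net4
import Pool.Agent.H18.Net6
import Pool.Agent.H18.Net8

set_option autoImplicit false

namespace Pool.Agent.H18.Net

open Set

noncomputable section
open Classical

lemma uv_mk (a b A B : ℝ) :
    uv ⟨a, b⟩ ⟨A, B⟩ = ⟨(A - a) / dd A B a b, (B - b) / dd A B a b⟩ := by
  have e : √((A - a) ^ 2 + (B - b) ^ 2) = dd A B a b := by
    unfold dd; congr 1; ring
  apply Complex.ext
  · rw [uv_re]; simp only; rw [e]
  · rw [uv_im]; simp only; rw [e]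

/-- position of a chain vertex -/
def wv (x y : ℕ → ℝ) (k : ℕ) : ℂ := ⟨x k, y k⟩

lemma uv_wv (x y : ℕ → ℝ) (k : ℕ) :
    uv (wv x y k) (wv x y (k + 1)) = ⟨aA x y k, - sA x y k⟩ := by
  unfold wv
  rw [uv_mk, dd_comm]
  unfold aA sA lA
  congr 1
  ring

lemma par_sin {a s a' s' : ℝ} (h : a ^ 2 + s ^ 2 = 1) (h' : a' ^ 2 + s' ^ 2 = 1)
    (hc : a * s' = s * a') : s ^ 2 = s' ^ 2 := by
  have : (a * s') ^ 2 = (s * a') ^ 2 := by rw [hc]
  nlinarith

lemma chain_par {x y : ℕ → ℝ} {k l : ℕ} (hk : 0 < lA x y k) (hl : 0 < lA x y l)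
    (h : ¬ (segment ℝ (wv x y k) (wv x y (k + 1)) ∩
      segment ℝ (wv x y l) (wv x y (l + 1))).Subsingleton) : sA x y k ^ 2 = sA x y l ^ 2 := by
  obtain ⟨h1, h2⟩ := two_pts h
  simp only [wv] at h1 h2
  apply par_sin (as_sq hk) (as_sq hl)
  unfold aA sA
  rw [div_mul_div_comm, div_mul_div_comm]
  congr 1
  linear_combination h1 - h2

lemma IW_split {ι : Type*} (J : Finset ι) (p q : ι → ℂ) (m : ι → ℕ) (v : ℂ) :
    IW J p q m v = ∑ i ∈ J.filter (fun i => v = p i), (m i : ℂ) * uv (p i) (q i) -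
      ∑ i ∈ J.filter (fun i => v = q i), (m i : ℂ) * uv (p i) (q i) := by
  unfold IW
  rw [Finset.sum_sub_distrib, Finset.sum_filter, Finset.sum_filter]

/-- the three terminals -/
def T3 (j : Fin 4) : ℂ := if j = 1 then ⟨6, 0⟩ else if j = 2 then ⟨0, 3⟩ else ⟨0, -3⟩
/-- start points -/
def p3 (x y : ℕ → ℝ) (i : ℕ × Fin 4) : ℂ := wv x y i.1
/-- end points -/
def q3 (x y : ℕ → ℝ) (i : ℕ × Fin 4) : ℂ := if i.2 = 0 then wv x y (i.1 + 1) else T3 i.2
/-- multiplicities -/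
def m3 (n : ℕ) (i : ℕ × Fin 4) : ℕ :=
  if i.2 = 0 then 1 else if i.2 = 1 then wa i.1 + (if i.1 = 1 ∨ i.1 = n then 1 else 0)
    else if i.2 = 2 then wb i.1 else wc i.1
/-- index set -/
def J3 (n : ℕ) : Finset (ℕ × Fin 4) :=
  (Finset.range (n + 1) ×ˢ Finset.univ).filter (fun i => 1 ≤ i.1 ∧ (i.2 = 0 → i.1 < n))

lemma mem_J3 {n : ℕ} {i : ℕ × Fin 4} : i ∈ J3 n ↔ i.1 ≤ n ∧ 1 ≤ i.1 ∧ (i.2 = 0 → i.1 < n) := by
  simp [J3, Nat.lt_succ_iff]

lemma m3_bd (n : ℕ) (i : ℕ × Fin 4) : 1 ≤ m3 n i ∧ m3 n i ≤ 1600000 := by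
  unfold m3 wa wb wc
  split_ifs <;> omega

lemma T3_re (j : Fin 4) : (T3 j).re = 6 ∨ (T3 j).re = 0 := by
  unfold T3; split_ifs <;> simp

variable {n : ℕ} {x y : ℕ → ℝ}

lemma Good3.inj (g : Good3 n x y) {a b : ℕ} (a1 : 1 ≤ a) (ha : a ≤ n) (b1 : 1 ≤ b) (hb : b ≤ n)
    (h : wv x y a = wv x y b) : a = b := by
  have h1 : y a = y b := congrArg Complex.im h
  rcases lt_trichotomy a b with h2 | h2 | h2
  · linarith [g.hyy a b a1 h2 (by omega)]
  · exact h2
  · linarith [g.hyy b a b1 h2 (by omega)]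

lemma Good3.neT (g : Good3 n x y) {a : ℕ} (a1 : 1 ≤ a) (ha : a ≤ n) (j : Fin 4) :
    wv x y a ≠ T3 j := by
  intro h
  have h1 : x a = (T3 j).re := congrArg Complex.re h
  have := g.hx a a1 ha
  rcases T3_re j with h2 | h2 <;> linarith [this.1, this.2]

lemma Good3.lpos (g : Good3 n x y) {k : ℕ} (hk : k ≤ n) : 0 < lA x y k := by
  linarith [g.hg k hk, lA_ge x y k]

lemma Good3.lineA (g : Good3 n x y) {k l : ℕ} (k1 : 1 ≤ k) (k2 : k ≤ n) (l1 : 1 ≤ l) (l2 : l ≤ n)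
    (h : (6 - x k) * (y l - y k) = (0 - y k) * (x l - x k)) : k = l := by
  rcases lt_trichotomy k l with h2 | h2 | h2
  · have := g.hA k l k1 h2 l2; linarith
  · exact h2
  · have := g.hA l k l1 h2 k2; linarith

lemma steep {u v a b B : ℝ} (h1 : 1 / 2 ≤ |u|) (h2 : |v| ≤ d3) (h3 : 0 ≤ a) (h4 : a ≤ 5)
    (h5 : 0 ≤ b) (h6 : b ≤ d3) (hB : B = 3 ∨ B = -3) : (0 - a) * v ≠ (B - b) * u := by
  unfold d3 at h2 h6
  intro h
  have h7 : |(0 - a) * v| = |(B - b) * u| := by rw [h]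
  rw [abs_mul, abs_mul] at h7
  have h8 : 2 ≤ |B - b| := by
    rcases hB with e | e <;> rw [e]
    · rw [abs_of_pos (by linarith)]; linarith
    · rw [abs_of_neg (by linarith)]; linarith
  have h9 : |0 - a| ≤ 5 := by rw [abs_le]; constructor <;> linarith
  nlinarith [abs_nonneg v, abs_nonneg (0 - a)]

lemma Good3.chain_spoke (g : Good3 n x y) {k l : ℕ} (k1 : 1 ≤ k) (k2 : k ≤ n) (l1 : 1 ≤ l)
    (l2 : l < n) {j : Fin 4} :
    (segment ℝ (wv x y k) (T3 j) ∩ segment ℝ (wv x y l) (wv x y (l + 1))).Subsingleton := by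
  by_contra h
  obtain ⟨h1, h2⟩ := two_pts h
  by_cases hj : j = 1
  · simp only [wv, T3, if_pos hj] at h1 h2
    have e1 := g.lineA k1 k2 l1 l2.le h1
    have e2 := g.lineA k1 k2 (by omega) l2 h2
    omega
  · have c1 := g.hy l l1 l2.le
    have c2 := g.hy (l + 1) (by omega) l2
    have c3 := g.hy k k1 k2
    have b := g.hx k k1 k2
    have hv : |y (l + 1) - y l| ≤ d3 := by
      rw [abs_le]; constructor <;> linarith [c1.1, c1.2, c2.1, c2.2]
    simp only [wv, T3, if_neg hj] at h1 h2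
    split_ifs at h1 h2
    · apply steep (g.hg l l2.le) hv (a := x k) (by linarith [b.1]) (by linarith [b.2]) c3.1.le c3.2
        (Or.inl rfl)
      linear_combination h2 - h1
    · apply steep (g.hg l l2.le) hv (a := x k) (by linarith [b.1]) (by linarith [b.2]) c3.1.le c3.2
        (Or.inr rfl)
      linear_combination h2 - h1

lemma Good3.spoke_spoke (g : Good3 n x y) {k l : ℕ} (k1 : 1 ≤ k) (k2 : k ≤ n) (l1 : 1 ≤ l)
    (l2 : l ≤ n) {j j' : Fin 4} (hj : j ≠ 0) (hj' : j' ≠ 0) (hne : (k, j) ≠ (l, j')) :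
    (segment ℝ (wv x y k) (T3 j) ∩ segment ℝ (wv x y l) (T3 j')).Subsingleton := by
  by_contra h
  obtain ⟨h1, h2⟩ := two_pts h
  have c3 := g.hy k k1 k2
  have b := g.hx k k1 k2
  unfold d3 at c3
  by_cases hjj : j = j'
  · subst hjj
    have hkl : k ≠ l := fun h => hne (by rw [h])
    have key : x k * (3 - y l) ≠ x l * (3 - y k) ∧ x k * (3 + y l) ≠ x l * (3 + y k) := by
      rcases lt_or_gt_of_ne hkl with h | h
      · exact g.hB k l k1 h l2
      · exact ⟨(g.hB l k l1 h k2).1.symm, (g.hB l k l1 h k2).2.symm⟩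
    simp only [wv, T3] at h1
    split_ifs at h1
    · exact hkl (g.lineA k1 k2 l1 l2 h1)
    · apply key.1; linarith
    · apply key.2; linarith
  · fin_cases j <;> fin_cases j' <;> simp [wv, T3] at h2 hj hj' hjj <;>
      nlinarith [b.1, b.2, c3.1, c3.2]

lemma Good3.sub (g : Good3 n x y) : ∀ i ∈ J3 n, ∀ i' ∈ J3 n, i ≠ i' →
    (segment ℝ (p3 x y i) (q3 x y i) ∩ segment ℝ (p3 x y i') (q3 x y i')).Subsingleton := by
  rintro ⟨k, j⟩ hi ⟨l, j'⟩ hi' hne
  obtain ⟨a1, a2, a3⟩ := mem_J3.mp hi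
  obtain ⟨b1, b2, b3⟩ := mem_J3.mp hi'
  simp only at a1 a2 a3 b1 b2 b3
  simp only [p3, q3]
  by_cases h1 : j = 0 <;> by_cases h2 : j' = 0
  · rw [if_pos h1, if_pos h2]
    have hkl : k ≠ l := fun h => hne (by rw [h, h1, h2])
    by_contra h
    have := chain_par (g.lpos a1) (g.lpos b1) h
    rcases lt_or_gt_of_ne hkl with h | h
    · have := g.hss k l a2 h b1; nlinarith [this.1, this.2]
    · have := g.hss l k b2 h a1; nlinarith [this.1, this.2]
  · rw [if_pos h1, if_neg h2, inter_comm]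
    exact g.chain_spoke b2 b1 a2 (a3 h1)
  · rw [if_neg h1, if_pos h2]
    exact g.chain_spoke a2 a1 b2 (b3 h2)
  · rw [if_neg h1, if_neg h2]
    exact g.spoke_spoke a2 a1 b2 b1 h1 h2 hne

lemma Good3.pq (g : Good3 n x y) : ∀ i ∈ J3 n, p3 x y i ≠ q3 x y i := by
  rintro ⟨k, j⟩ hi
  obtain ⟨a1, a2, a3⟩ := mem_J3.mp hi
  simp only at a1 a2 a3
  simp only [p3, q3]
  split_ifs with h
  · intro h2
    have := g.inj a2 a1 (by omega) (a3 h) h2
    omega
  · exact g.neT a2 a1 j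

lemma Good3.onseg (g : Good3 n x y) {i : ℕ × Fin 4} (hi : i ∈ J3 n) {j : Fin 4}
    (h : T3 j ∈ segment ℝ (p3 x y i) (q3 x y i)) : T3 j = q3 x y i := by
  obtain ⟨k, j'⟩ := i
  obtain ⟨a1, a2, a3⟩ := mem_J3.mp hi
  simp only at a1 a2 a3
  obtain ⟨t, t0, t1, ht⟩ := mem_seg.mp h
  have hre := congrArg Complex.re ht
  have b := g.hx k a2 a1
  simp only [p3, q3, Complex.add_re, Complex.mul_re, Complex.ofReal_re, Complex.ofReal_im,
    Complex.sub_re, zero_mul, sub_zero] at hre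
  have ht1 : t = 1 := by
    split_ifs at hre with h0
    · have b' := g.hx (k + 1) (by omega) (a3 h0)
      simp only [wv] at hre
      rcases T3_re j with e | e <;> rw [e] at hre <;> nlinarith [b.1, b.2, b'.1, b'.2]
    · simp only [wv] at hre
      rcases T3_re j with e | e <;> rcases T3_re j' with e' | e' <;> rw [e, e'] at hre <;>
        nlinarith [b.1, b.2]
  rw [ht, ht1]; simp

lemma Good3.filterP (g : Good3 n x y) {k : ℕ} (k1 : 1 ≤ k) (k2 : k ≤ n) :
    (J3 n).filter (fun i => wv x y k = p3 x y i) =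
      {k} ×ˢ (if k < n then Finset.univ else {1, 2, 3}) := by
  ext ⟨m, j⟩
  simp only [Finset.mem_filter, mem_J3, p3, Finset.mem_product, Finset.mem_singleton]
  constructor
  · rintro ⟨⟨h1, h2, h3⟩, h4⟩
    have := g.inj k1 k2 h2 h1 h4
    subst this
    refine ⟨rfl, ?_⟩
    split_ifs with h5
    · simp
    · fin_cases j <;> simp_all
  · rintro ⟨rfl, h⟩
    refine ⟨⟨k2, k1, ?_⟩, rfl⟩
    rintro rfl
    split_ifs at h with h5
    · exact h5
    · simp at h

lemma Good3.filterQ (g : Good3 n x y) {k : ℕ} (k2 : k < n) :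
    (J3 n).filter (fun i => wv x y (k + 1) = q3 x y i) = if k = 0 then ∅ else {(k, 0)} := by
  ext ⟨m, j⟩
  simp only [Finset.mem_filter, mem_J3, q3]
  constructor
  · rintro ⟨⟨h1, h2, h3⟩, h4⟩
    split_ifs at h4 with h5
    · have := g.inj (by omega) k2 (by omega) (h3 h5) h4
      have hk : k ≠ 0 := by omega
      rw [if_neg hk, Finset.mem_singleton, h5]
      congr 1; omega
    · exact absurd h4 (g.neT (by omega) k2 j)
  · intro h
    split_ifs at h with h5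
    · simp at h
    · simp only [Finset.mem_singleton, Prod.mk.injEq] at h
      obtain ⟨rfl, rfl⟩ := h
      exact ⟨⟨k2.le, by omega, fun _ => k2⟩, by simp⟩

lemma Good3.bal (g : Good3 n x y) (hn : 2 ≤ n) {k : ℕ} (hk : k < n) :
    IW (J3 n) (p3 x y) (q3 x y) (m3 n) (wv x y (k + 1)) = 0 := by
  rw [IW_split, g.filterP (by omega) hk, g.filterQ hk, Finset.sum_product, Finset.sum_singleton]
  obtain ⟨h1, h2⟩ := g.hb k hk
  simp only [L3, fx, fy, List.map_cons, List.map_nil, List.sum_cons, List.sum_nil,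
    add_zero] at h1 h2
  have u1 : uv (wv x y (k + 1)) (T3 1) = ⟨(6 - x (k + 1)) / dd 6 0 (x (k + 1)) (y (k + 1)),
      (0 - y (k + 1)) / dd 6 0 (x (k + 1)) (y (k + 1))⟩ := by
    rw [← uv_mk]; simp [wv, T3]
  have u2 : uv (wv x y (k + 1)) (T3 2) = ⟨(0 - x (k + 1)) / dd 0 3 (x (k + 1)) (y (k + 1)),
      (3 - y (k + 1)) / dd 0 3 (x (k + 1)) (y (k + 1))⟩ := by
    rw [← uv_mk]; simp [wv, T3]
  have u3 : uv (wv x y (k + 1)) (T3 3) = ⟨(0 - x (k + 1)) / dd 0 (-3) (x (k + 1)) (y (k + 1)),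
      (-3 - y (k + 1)) / dd 0 (-3) (x (k + 1)) (y (k + 1))⟩ := by
    rw [← uv_mk]; simp [wv, T3]
  have s3 : ∑ j ∈ ({1, 2, 3} : Finset (Fin 4)), (m3 n (k + 1, j) : ℂ) *
      uv (p3 x y (k + 1, j)) (q3 x y (k + 1, j)) =
      ((wa (k + 1) : ℂ) + (if k + 1 = 1 ∨ k + 1 = n then 1 else 0)) * uv (wv x y (k + 1)) (T3 1) +
      (wb (k + 1) : ℂ) * uv (wv x y (k + 1)) (T3 2) +
      (wc (k + 1) : ℂ) * uv (wv x y (k + 1)) (T3 3) := by
    rw [Finset.sum_insert (by decide), Finset.sum_insert (by decide), Finset.sum_singleton]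
    simp only [m3, p3, q3]
    simp
    ring
  have s4 : ∑ j : Fin 4, (m3 n (k + 1, j) : ℂ) * uv (p3 x y (k + 1, j)) (q3 x y (k + 1, j)) =
      uv (wv x y (k + 1)) (wv x y (k + 1 + 1)) + ∑ j ∈ ({1, 2, 3} : Finset (Fin 4)),
        (m3 n (k + 1, j) : ℂ) * uv (p3 x y (k + 1, j)) (q3 x y (k + 1, j)) := by
    have : (Finset.univ : Finset (Fin 4)) = insert 0 {1, 2, 3} := by decide
    rw [this, Finset.sum_insert (by decide)]
    simp [m3, p3, q3]
  have key : uv (wv x y (k + 1)) (wv x y (k + 1 + 1)) + ((wa (k + 1) : ℂ) *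
      uv (wv x y (k + 1)) (T3 1) + (wb (k + 1) : ℂ) * uv (wv x y (k + 1)) (T3 2) +
      (wc (k + 1) : ℂ) * uv (wv x y (k + 1)) (T3 3)) - uv (wv x y k) (wv x y (k + 1)) = 0 := by
    rw [uv_wv, uv_wv, u1, u2, u3]
    apply Complex.ext
    · simp only [Complex.add_re, Complex.sub_re, Complex.mul_re, Complex.natCast_re,
        Complex.natCast_im, zero_mul, sub_zero, Complex.zero_re] at h1 ⊢
      linear_combination h1
    · simp only [Complex.add_im, Complex.sub_im, Complex.mul_im, Complex.natCast_re,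
        Complex.natCast_im, zero_mul, add_zero, Complex.zero_im] at h2 ⊢
      linear_combination h2
  have w0 : wv x y 0 = T3 1 := by simp [wv, T3, g.x0, g.y0]
  have wn : wv x y (n + 1) = T3 1 := by simp [wv, T3, g.xn, g.yn]
  by_cases h0 : k = 0
  · subst h0
    rw [if_pos (by omega), if_pos rfl, s4, s3, if_pos (Or.inl rfl), Finset.sum_empty]
    rw [w0, uv_swap (wv x y (0 + 1)) (T3 1)] at key
    linear_combination key
  · rw [if_neg h0, Finset.sum_singleton]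
    have e : (m3 n (k, 0) : ℂ) * uv (p3 x y (k, 0)) (q3 x y (k, 0)) =
        uv (wv x y k) (wv x y (k + 1)) := by simp [m3, p3, q3]
    rw [e]
    by_cases h3 : k + 1 < n
    · rw [if_pos h3, s4, s3, if_neg (by omega)]
      linear_combination key
    · have h4 : k + 1 = n := by omega
      rw [if_neg h3, s3, if_pos (Or.inr h4)]
      rw [show k + 1 + 1 = n + 1 by omega, wn] at key
      linear_combination key

lemma Good3.unb (g : Good3 n x y) (hn : 2 ≤ n) {j : Fin 4} (hj : j ≠ 0) :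
    IW (J3 n) (p3 x y) (q3 x y) (m3 n) (T3 j) ≠ 0 := by
  apply IW_ne _ _ _ _ (fun i _ => (m3_bd n i).1) _ ((T3 j).re - 1) (T3 j).im
  · rintro ⟨m, j'⟩ hi
    obtain ⟨a1, a2, a3⟩ := mem_J3.mp hi
    simp only at a1 a2 a3
    refine ⟨fun h => absurd h.symm (g.neT a2 a1 j), fun h => ?_⟩
    rw [← h]
    have b := g.hx m a2 a1
    have c := g.hy m a2 a1
    unfold d3 at c
    simp only [p3, wv]
    have e : T3 j = ⟨(T3 j).re, (T3 j).im⟩ := rfl
    rw [e, uv_mk]
    have p0 : 0 < dd (T3 j).re (T3 j).im (x m) (y m) := by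
      apply dd_pos
      rcases T3_re j with h | h <;> rw [h]
      · exact ne_of_lt (by linarith [b.2])
      · exact ne_of_gt (by linarith [b.1])
    simp only
    rw [← mul_div_assoc, ← mul_div_assoc, ← add_div]
    apply div_pos _ p0
    unfold T3
    split_ifs <;> simp only <;> nlinarith [b.1, b.2, c.1, c.2]
  · exact ⟨(1, j), mem_J3.mpr ⟨by simp only; omega, le_rfl, fun h => absurd h hj⟩,
      Or.inr (by simp [q3, hj])⟩

end

end Pool.Agent.H18.Net
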