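import Pool.Agent.H8.Tau3

set_option autoImplicit false

namespace Pool.Agent.H18.OT

open Set Filter Topology Pool.Agent.H8.Tau

noncomputable section
open Classical

lemma ftr {I : Type} {A B C : Set I} (h1 : (A \ B).Finite) (h2 : (B \ C).Finite) :
    (A \ C).Finite :=
  (h1.union h2).subset fun a ha => by
    by_cases hb : a ∈ B
    · exact Or.inr ⟨hb, ha.2⟩
    · exact Or.inl ⟨ha.1, hb⟩

/-- infinite sets, linearly ordered by almost inclusion -/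
def Tow {Z I : Type} (A : Z → Set I) : Prop :=
  (∀ x, (A x).Infinite) ∧ ∀ x y, (A x \ A y).Finite ∨ (A y \ A x).Finite

lemma Tow.min {Z I : Type} {A : Z → Set I} (h : Tow A) {F : Set Z} (hF : F.Finite) (z : Z) :
    ∃ w, (A w \ A z).Finite ∧ ∀ x ∈ F, (A w \ A x).Finite := by
  induction F, hF using Set.Finite.induction_on with
  | empty => exact ⟨z, by simp, by simp⟩
  | @insert a s _ _ ih =>
    obtain ⟨w, w1, w2⟩ := ih
    rcases h.2 w a with t | t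
    · exact ⟨w, w1, forall_mem_insert.mpr ⟨t, w2⟩⟩
    · exact ⟨a, ftr t w1, forall_mem_insert.mpr ⟨by simp, fun x hx => ftr t (w2 x hx)⟩⟩

lemma Tow.cent {Z I : Type} {A : Z → Set I} (h : Tow A) {F : Set Z} (hF : F.Finite) (z : Z) :
    {i | i ∈ A z ∧ ∀ x ∈ F, i ∈ A x}.Infinite := by
  obtain ⟨w, w1, w2⟩ := h.min hF z
  refine ((h.1 w).diff (w1.union (hF.biUnion w2))).mono fun i hi => ⟨?_, fun x hx => ?_⟩
  · by_contra t
    exact hi.2 (Or.inl ⟨hi.1, t⟩)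
  · by_contra t
    exact hi.2 (Or.inr (mem_biUnion hx ⟨hi.1, t⟩))

lemma Tow.psi {Z I : Type} {A : Z → Set I} (h : Tow A) (p : ℕ → Z) :
    ∃ T ⊆ A (p 0), T.Infinite ∧ ∀ k, (T \ A (p k)).Finite := by
  choose F F1 F2 using fun m =>
    (h.cent ((finite_Iic m).image p) (p 0)).exists_subset_card_eq m
  refine ⟨⋃ m, (F m : Set I), iUnion_subset fun m i hi => (F1 m hi).1, fun hf => ?_, fun k => ?_⟩
  · have := Finset.card_le_card (show F (hf.toFinset.card + 1) ⊆ hf.toFinset from fun i hi =>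
      hf.mem_toFinset.mpr (mem_iUnion.mpr ⟨_, hi⟩))
    rw [F2] at this
    omega
  · refine ((finite_lt_nat k).biUnion fun m _ => (F m).finite_toSet).subset ?_
    rintro i ⟨i1, i2⟩
    obtain ⟨m, hm⟩ := mem_iUnion.mp i1
    refine mem_biUnion (show m ∈ {m | m < k} from ?_) hm
    by_contra t
    exact i2 ((F1 m hm).2 _ ⟨k, mem_Iic.mpr (not_lt.mp t), rfl⟩)

lemma lev {I : Type} {a S : Set I} {l : I → ℕ} (ha : ∀ n, {i ∈ a | l i = n}.Finite)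
    (hS : S.Infinite) (hs : S ⊆ a) (N : ℕ) : ∃ i ∈ S, N ≤ l i := by
  by_contra t
  push Not at t
  exact hS (((finite_lt_nat N).biUnion fun n _ => ha n).subset fun i hi =>
    mem_biUnion (show l i ∈ {n | n < N} from t i hi) ⟨hs hi, rfl⟩)

lemma bnd {I : Type} {D : Set I} (l : I → ℕ) (hD : D.Finite) : ∃ N, ∀ i, N ≤ l i → i ∉ D := by
  obtain ⟨N, hN⟩ := (hD.image l).bddAbove
  exact ⟨N + 1, fun i hi t => by have := hN ⟨i, t, rfl⟩; omega⟩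

variable {Z : Type} [TopologicalSpace Z]

/-- every open `ω`-cover contains a `τ`-cover -/
def OT (Z : Type) [TopologicalSpace Z] : Prop :=
  ∀ 𝒰 : Set (Set Z), Om IsOpen 𝒰 → ∃ 𝒟 ⊆ 𝒰, Ta IsOpen 𝒟

theorem OT.idx [T1Space Z] [Infinite Z] (h : OT Z) {I : Type} (l : I → ℕ) (W : I → Set Z)
    (hW : ∀ i, IsOpen (W i)) (hom : ∀ n, ∀ F : Set Z, F.Finite → ∃ i, n ≤ l i ∧ F ⊆ W i) :
    ∃ a : Set I, (∀ n, {i ∈ a | l i = n}.Finite) ∧ Tow fun x => {i ∈ a | x ∈ W i} := by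
  let p := Infinite.natEmbedding Z
  let W' : I → Set Z := fun i => W i \ {p (l i)}
  have om : ∀ F : Set Z, F.Finite → ∃ i, F ⊆ W' i := by
    intro F hF
    obtain ⟨N, hN⟩ := bnd id (hF.preimage p.injective.injOn)
    obtain ⟨i, i1, i2⟩ := hom N F hF
    exact ⟨i, fun x hx => ⟨i2 hx, fun t => hN (l i) i1 (show p (l i) ∈ F from t ▸ hx)⟩⟩
  obtain ⟨𝒟, d1, -, d2, d3⟩ := h (range W') ⟨⟨by
      rintro _ ⟨i, rfl⟩
      exact (hW i).sdiff isClosed_singleton, eq_univ_of_forall fun x => by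
      obtain ⟨i, hi⟩ := om {x} (finite_singleton x)
      exact ⟨_, ⟨i, rfl⟩, hi rfl⟩, by
      rintro ⟨i, t⟩
      exact (show p (l i) ∈ W' i from t ▸ mem_univ _).2 rfl⟩, fun F hF => by
      obtain ⟨i, hi⟩ := om F hF
      exact ⟨_, ⟨i, rfl⟩, hi⟩⟩
  have : ∀ D : 𝒟, ∃ i, W' i = D.1 := fun D => d1 D.2
  choose ix hix using this
  let A : Z → Set I := fun x => {i ∈ range ix | x ∈ W' i}
  have inj : InjOn W' (range ix) := by
    rintro _ ⟨D, rfl⟩ _ ⟨D', rfl⟩ t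
    rw [hix, hix] at t
    rw [Subtype.ext t]
  have mem : ∀ i ∈ range ix, W' i ∈ 𝒟 := by
    rintro _ ⟨D, rfl⟩
    rw [hix]; exact D.2
  have fin : ∀ x y, {U | U ∈ 𝒟 ∧ x ∈ U ∧ y ∉ U}.Finite → (A x \ A y).Finite := fun x y t =>
    Set.Finite.of_finite_image (t.subset (by
      rintro _ ⟨i, hi, rfl⟩
      exact ⟨mem i hi.1.1, hi.1.2, fun s => hi.2 ⟨hi.1.1, s⟩⟩)) (inj.mono fun i hi => hi.1.1)
  have tw : Tow A := ⟨fun x t => d2 x ((t.image W').subset fun U hU =>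
      ⟨ix ⟨U, hU.1⟩, ⟨⟨_, rfl⟩, by rw [hix]; exact hU.2⟩, hix _⟩),
    fun x y => (d3 x y).imp (fin x y) (fin y x)⟩
  have : ∃ T : Set I, (∀ k, (T \ A (p k)).Finite) ∧ ∀ x, (T ∩ A x).Infinite := by
    by_cases c : ∃ z, ∀ k, (A z \ A (p k)).Finite
    · obtain ⟨z, hz⟩ := c
      exact ⟨A z, hz, fun x => (tw.cent (finite_singleton x) z).mono fun i hi =>
        ⟨hi.1, hi.2 x rfl⟩⟩
    · push Not at c
      obtain ⟨T, -, t1, t2⟩ := tw.psi p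
      refine ⟨T, t2, fun x => ?_⟩
      obtain ⟨k, hk⟩ := c x
      refine (t1.diff (ftr (t2 k) ((tw.2 x (p k)).resolve_left hk))).mono fun i hi => ⟨hi.1, ?_⟩
      by_contra s
      exact hi.2 ⟨hi.1, s⟩
  obtain ⟨T, t1, t2⟩ := this
  have fl : ∀ n, {i ∈ T | l i = n}.Finite := fun n => (t1 n).subset fun i hi =>
    ⟨hi.1, fun s => s.2.2 (by rw [hi.2]; rfl)⟩
  have ex : ∀ x, {i ∈ T | x = p (l i)}.Finite := by
    intro x
    by_cases c : ∃ n, x = p n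
    · obtain ⟨n, rfl⟩ := c
      exact (fl n).subset fun i hi => ⟨hi.1, (p.injective hi.2).symm⟩
    · exact finite_empty.subset fun i hi => c ⟨_, hi.2⟩
  have fin' : ∀ x y, (A x \ A y).Finite →
      ({i ∈ T ∩ range ix | x ∈ W i} \ {i ∈ T ∩ range ix | y ∈ W i}).Finite := fun x y t =>
    (t.union (ex x)).subset fun i hi => by
      by_cases s : x = p (l i)
      · exact Or.inr ⟨hi.1.1.1, s⟩
      · exact Or.inl ⟨⟨hi.1.1.2, hi.1.2, s⟩, fun u => hi.2 ⟨hi.1.1, u.2.1⟩⟩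
  exact ⟨T ∩ range ix, fun n => (fl n).subset fun i hi => ⟨hi.1.1, hi.2⟩,
    fun x => (t2 x).mono fun i hi => ⟨⟨hi.1, hi.2.1⟩, hi.2.2.1⟩,
    fun x y => (tw.2 x y).imp (fin' x y) (fin' y x)⟩

theorem OT.sel [T1Space Z] [Infinite Z] (h : OT Z) {Q : Type} [Countable Q] [Inhabited Q]
    (q q' : Q → Set Z) {E : Set Z} (hE : E.Countable) (q1 : ∀ v, IsOpen (q v))
    (q2 : ∀ v, IsClosed (q' v)) (q3 : ∀ v, q v ⊆ q' v) (q4 : ∀ v, q' v \ E ⊆ q v)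
    (q5 : ∀ F U : Set Z, F.Finite → IsOpen U → F ⊆ U → ∃ v, F ⊆ q v ∧ q v ⊆ U)
    (𝒰 : ℕ → Set (Set Z)) (u1 : ∀ r, ∀ U ∈ 𝒰 r, IsOpen U)
    (u2 : ∀ r, ∀ F : Set Z, F.Finite → ∃ U ∈ 𝒰 r, F ⊆ U) :
    ∃ U : ℕ → Set Z, (∀ r, U r ∈ 𝒰 r) ∧ ∀ F : Set Z, F.Finite → ∃ r, F ⊆ U r := by
  by_contra hcon
  have done : ∀ {K : Type} (c : K → ℕ), Function.Injective c → ∀ s : K → Set Z,
      (∀ k, ∃ U ∈ 𝒰 (c k), s k ⊆ U) → ∃ F : Set Z, F.Finite ∧ ∀ k, ¬ F ⊆ s k := by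
    intro K c hc s hs
    by_contra t
    push Not at t
    have : ∀ r, ∃ U ∈ 𝒰 r, ∀ k, c k = r → s k ⊆ U := by
      intro r
      by_cases e : ∃ k, c k = r
      · obtain ⟨k, rfl⟩ := e
        obtain ⟨U, a, b⟩ := hs k
        exact ⟨U, a, fun k' e => hc e ▸ b⟩
      · obtain ⟨U, a, -⟩ := u2 r ∅ finite_empty
        exact ⟨U, a, fun k e' => absurd ⟨k, e'⟩ e⟩
    choose U U1 U2 using this
    refine hcon ⟨U, U1, fun F hF => ?_⟩
    obtain ⟨k, hk⟩ := t F hF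
    exact ⟨c k, hk.trans (U2 _ k rfl)⟩
  let sm : ℕ → Q → Prop := fun r v => ∃ U ∈ 𝒰 r, q v ⊆ U
  have sm1 : ∀ r, ∀ F : Set Z, F.Finite → ∃ v, sm r v ∧ F ⊆ q v := by
    intro r F hF
    obtain ⟨U, a, b⟩ := u2 r F hF
    obtain ⟨v, c, d⟩ := q5 F U hF (u1 r U a) b
    exact ⟨v, ⟨U, a, d⟩, c⟩
  let W : ℕ × Q → Set Z := fun i => {x | sm i.1 i.2 ∧ x ∈ q i.2}
  have Wo : ∀ i, IsOpen (W i) := fun i => isOpen_const.inter (q1 _)
  obtain ⟨a, a1, a2⟩ := h.idx Prod.fst W Wo fun n F hF => by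
    obtain ⟨v, b, c⟩ := sm1 n F hF
    exact ⟨(n, v), le_rfl, fun x hx => ⟨b, c hx⟩⟩
  let A : Z → Set (ℕ × Q) := fun x => {i ∈ a | x ∈ W i}
  have d1 : ∀ T : Set (ℕ × Q), ∃ G : Set Z, G.Finite ∧
      ∀ j ∈ T, ∃ i ∈ T, i.1 = j.1 ∧ ¬ G ⊆ W i := by
    intro T
    have : ∀ n, ∃ s : Set Z, (∃ U ∈ 𝒰 n, s ⊆ U) ∧ ∀ j ∈ T, j.1 = n → ∃ i ∈ T, i.1 = n ∧ W i ⊆ s := by
      intro n
      by_cases e : ∃ j ∈ T, j.1 = n
      · obtain ⟨j, j1, rfl⟩ := e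
        refine ⟨W j, ?_, fun _ _ _ => ⟨j, j1, rfl, le_rfl⟩⟩
        by_cases t : sm j.1 j.2
        · obtain ⟨U, b, c⟩ := t
          exact ⟨U, b, fun x hx => c hx.2⟩
        · obtain ⟨U, b, -⟩ := u2 j.1 ∅ finite_empty
          exact ⟨U, b, fun x hx => absurd hx.1 t⟩
      · obtain ⟨U, b, -⟩ := u2 n ∅ finite_empty
        exact ⟨∅, ⟨U, b, empty_subset _⟩, fun j j1 j2 => absurd ⟨j, j1, j2⟩ e⟩
    choose s s1 s2 using this
    obtain ⟨G, g1, g2⟩ := done id Function.injective_id s s1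
    refine ⟨G, g1, fun j hj => ?_⟩
    obtain ⟨i, i1, i2, i3⟩ := s2 j.1 j hj rfl
    exact ⟨i, i1, i2, fun t => g2 _ (t.trans i3)⟩
  have nb : ∀ T ⊆ a, T.Infinite → ∃ g, ¬ (T \ A g).Finite := by
    intro T t1 t2
    by_contra t
    push Not at t
    obtain ⟨G, g1, g2⟩ := d1 T
    obtain ⟨N, hN⟩ := bnd Prod.fst (g1.biUnion fun x _ => t x)
    obtain ⟨j, j1, j2⟩ := lev a1 t2 t1 N
    obtain ⟨i, i1, i2, i3⟩ := g2 j j1
    refine i3 fun x hx => ?_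
    by_contra s
    exact hN i (i2 ▸ j2) (mem_biUnion hx ⟨i1, fun u => s u.2⟩)
  let cl : ℕ → Z → ℕ := fun n x => {i | (i ∈ a ∧ i.1 = n) ∧ sm i.1 i.2 ∧ x ∈ q' i.2}.ncard
  let K : ℕ → ℕ := fun n => {i ∈ a | i.1 = n}.ncard
  have clK : ∀ n x, cl n x ≤ K n := fun n x => ncard_le_ncard (fun i hi => hi.1) (a1 n)
  have usc : ∀ n x, ∀ᶠ z in 𝓝 x, cl n z ≤ cl n x := by
    intro n x
    have : ∀ᶠ z in 𝓝 x, ∀ i ∈ {i ∈ a | i.1 = n}, z ∈ q' i.2 → x ∈ q' i.2 := by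
      rw [eventually_all_finite (a1 n)]
      intro i _
      by_cases t : x ∈ q' i.2
      · exact Eventually.of_forall fun _ _ => t
      · filter_upwards [(q2 i.2).isOpen_compl.mem_nhds t] with z hz s using absurd s hz
    filter_upwards [this] with z hz
    exact ncard_le_ncard (fun i hi => ⟨hi.1, hi.2.1, hz i hi.1 hi.2.2⟩)
      ((a1 n).subset fun i hi => hi.1)
  obtain ⟨cd, hcd⟩ := Countable.exists_injective_nat ((ℕ × Q) × List Q)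
  let vv : List Q → ℕ → Q := fun l j => l.getD j default
  let tk : List Q → ℕ → List Q := fun l j => (List.range j).map (vv l)
  have vm : ∀ (v : ℕ → Q) (k j : ℕ), j < k → vv ((List.range k).map v) j = v j := by
    intro v k j hj
    simp [vv, hj]
  let ok : (ℕ × Q) × List Q → Prop := fun j =>
    j.1 ∈ a ∧ ∀ t < K j.1.1, sm (cd (j.1, tk j.2 t)) (vv j.2 t)
  let W' : (ℕ × Q) × List Q → Set Z := fun j =>
    {x | ok j ∧ x ∈ W j.1 ∧ ∀ t < cl j.1.1 x, x ∈ q (vv j.2 t)}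
  obtain ⟨z0⟩ : Nonempty Z := inferInstance
  obtain ⟨a', b1, b2⟩ := h.idx (fun j : (ℕ × Q) × List Q => j.1.1) W' (by
      intro j
      rw [isOpen_iff_mem_nhds]
      rintro x ⟨x1, x2, x3⟩
      have : ∀ᶠ z in 𝓝 x, ∀ t ∈ Iio (cl j.1.1 x), z ∈ q (vv j.2 t) :=
        (eventually_all_finite (finite_Iio _)).mpr fun t ht => (q1 _).mem_nhds (x3 t ht)
      filter_upwards [this, usc j.1.1 x, (Wo j.1).mem_nhds x2] with z z1 z2 z3
      exact ⟨x1, z3, fun t ht => z1 t (ht.trans_le z2)⟩) (by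
      intro n F hF
      obtain ⟨i, i1, i2⟩ := lev a1 (a2.cent hF z0) (fun i hi => hi.1.1) n
      choose f f1 f2 using fun l : List Q => sm1 (cd (i, l)) F hF
      let L : ℕ → List Q := fun k => Nat.rec [] (fun _ l => l ++ [f l]) k
      have hL : ∀ k, L k = (List.range k).map fun j => f (L j) := by
        intro k
        induction k with
        | zero => rfl
        | succ k ih => rw [List.range_succ, List.map_append, ← ih]; rfl
      have e1 : ∀ t < K i.1, vv (L (K i.1)) t = f (L t) := fun t ht => by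
        rw [hL]; exact vm _ _ _ ht
      have e2 : ∀ t < K i.1, tk (L (K i.1)) t = L t := fun t ht => by
        rw [hL t]
        exact List.map_congr_left fun j hj => e1 j ((List.mem_range.mp hj).trans ht)
      refine ⟨(i, L (K i.1)), i2, fun x hx => ⟨⟨i1.1.1, fun t ht => ?_⟩, (i1.2 x hx).2,
        fun t ht => ?_⟩⟩
      · rw [e1 t ht, e2 t ht]; exact f1 _
      · rw [e1 t (ht.trans_le (clK _ _))]; exact f2 _ hx)
  let A' : Z → Set ((ℕ × Q) × List Q) := fun x => {j ∈ a' | x ∈ W' j}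
  have low : ∀ H : Set Z, H.Finite → ∃ y, y ∉ E ∧
      ∀ x ∈ H, (A y \ A x).Finite ∧ (A' y \ A' x).Finite := by
    intro H hH
    by_contra t
    push Not at t
    have : ∀ x, ∃ g, ∀ y, (A' x \ A' y).Finite → (A g \ A y).Finite := by
      intro x
      obtain ⟨g, hg⟩ := nb (Prod.fst '' A' x) (by rintro _ ⟨j, hj, rfl⟩; exact hj.2.1.1) (by
        intro s
        obtain ⟨N, hN⟩ := bnd Prod.fst s
        obtain ⟨j, j1, j2⟩ := lev b1 (b2.1 x) (fun j hj => hj.1) N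
        exact hN _ j2 ⟨j, j1, rfl⟩)
      refine ⟨g, fun y hy => (a2.2 y g).resolve_left fun s => hg (ftr ((hy.image Prod.fst).subset ?_) s)⟩
      rintro _ ⟨⟨j, hj, rfl⟩, u⟩
      exact ⟨j, ⟨hj, fun w => u ⟨w.2.1.1, w.2.2.1⟩⟩, rfl⟩
    choose g hg using this
    obtain ⟨p, hp⟩ := (((hE.union hH.countable).union (hH.image g).countable).insert
      z0).exists_eq_range (insert_nonempty _ _)
    obtain ⟨T, t1, t2, t3⟩ := a2.psi p
    obtain ⟨y, hy⟩ := nb T (fun i hi => (t1 hi).1) t2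
    have pk : ∀ c, (c ∈ E ∨ c ∈ H) ∨ c ∈ g '' H → (T \ A c).Finite := by
      intro c hc
      obtain ⟨k, rfl⟩ := (show c ∈ range p from hp ▸ Or.inr hc)
      exact t3 k
    by_cases e : y ∈ E
    · exact hy (pk y (Or.inl (Or.inl e)))
    obtain ⟨x, x1, x2⟩ := t y e
    by_cases s : (A y \ A x).Finite
    · exact hy (ftr (pk _ (Or.inr ⟨x, x1, rfl⟩)) (hg x y ((b2.2 y x).resolve_left (x2 s))))
    · exact hy (ftr (pk _ (Or.inl (Or.inr x1))) ((a2.2 y x).resolve_left s))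
  have : ∀ κ : (ℕ × Q) × List Q, ∃ s : Set Z, (∃ U ∈ 𝒰 (cd κ), s ⊆ U) ∧
      ∀ l t, t < K κ.1.1 → (κ.1, l) ∈ a' → ok (κ.1, l) → tk l t = κ.2 →
        ∃ l', (κ.1, l') ∈ a' ∧ ok (κ.1, l') ∧ tk l' t = κ.2 ∧ q (vv l' t) ⊆ s := by
    intro κ
    by_cases e : ∃ l t, t < K κ.1.1 ∧ (κ.1, l) ∈ a' ∧ ok (κ.1, l) ∧ tk l t = κ.2
    · obtain ⟨l, t, e1, e2, e3, e4⟩ := e
      refine ⟨q (vv l t), by have := e3.2 t e1; rwa [e4] at this, fun l' t' _ _ _ e5 => ?_⟩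
      have : t' = t := by simpa [tk] using congrArg List.length (e5.trans e4.symm)
      subst this
      exact ⟨l, e2, e3, e4, le_rfl⟩
    · obtain ⟨U, b, -⟩ := u2 (cd κ) ∅ finite_empty
      exact ⟨∅, ⟨U, b, empty_subset _⟩, fun l t e1 e2 e3 e4 => absurd ⟨l, t, e1, e2, e3, e4⟩ e⟩
  choose s s1 s2 using this
  obtain ⟨F, F1, F2⟩ := done cd hcd s s1
  obtain ⟨G, G1, G2⟩ := d1 {i | ∀ x ∈ F, i ∈ A x}
  obtain ⟨y, y1, y2⟩ := low (F ∪ G) (F1.union G1)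
  obtain ⟨N, hN⟩ := bnd Prod.fst ((F1.union G1).biUnion fun x hx => (y2 x hx).1)
  obtain ⟨N', hN'⟩ := bnd (fun j : (ℕ × Q) × List Q => j.1.1)
    ((F1.union G1).biUnion fun x hx => (y2 x hx).2)
  obtain ⟨j, j1, j2⟩ := lev b1 (b2.1 y) (fun j hj => hj.1) (N + N')
  have m1 : ∀ x ∈ F ∪ G, ∀ i, i.1 = j.1.1 → i ∈ A y → i ∈ A x := by
    intro x hx i i1 i2
    by_contra t
    exact hN i (by omega) (mem_biUnion hx ⟨i2, t⟩)
  have ex : ∃ x ∈ F, cl j.1.1 x ≤ cl j.1.1 y := by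
    by_contra t
    push Not at t
    obtain ⟨x0, hx0⟩ := not_subset.mp (F2 j)
    obtain ⟨l', l1, l2, l3, l4⟩ := s2 (j.1, tk j.2 (cl j.1.1 y)) j.2 (cl j.1.1 y)
      ((t x0 hx0.1).trans_le (clK _ _)) j1.1 j1.2.1 rfl
    have my : (j.1, l') ∈ A' y := ⟨l1, l2, j1.2.2.1, fun u hu => by
      have := congrArg (fun l => vv l u) l3
      simp only [tk, vm _ _ _ hu] at this
      rw [this]
      exact j1.2.2.2 u hu⟩
    refine F2 _ (Subset.trans (fun x hx => ?_) l4)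
    have : (j.1, l') ∈ A' x := by
      by_contra u
      exact hN' (j.1, l') (by simp only; omega) (mem_biUnion (Or.inl hx) ⟨my, u⟩)
    exact this.2.2.2 _ (t x hx)
  obtain ⟨x, x1, x2⟩ := ex
  have eq := eq_of_subset_of_ncard_le (show {i | (i ∈ a ∧ i.1 = j.1.1) ∧ sm i.1 i.2 ∧ y ∈ q' i.2} ⊆
      {i | (i ∈ a ∧ i.1 = j.1.1) ∧ sm i.1 i.2 ∧ x ∈ q' i.2} from fun i hi =>
        ⟨hi.1, hi.2.1, q3 _ (m1 x (Or.inl x1) i hi.1.2
          ⟨hi.1.1, hi.2.1, q4 _ ⟨hi.2.2, y1⟩⟩).2.2⟩) x2 ((a1 _).subset fun i hi => hi.1)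
  obtain ⟨i, i1, i2, i3⟩ := G2 j.1 fun x hx => m1 x (Or.inl hx) j.1 rfl ⟨j1.2.1.1, j1.2.2.1⟩
  have ix := i1 x x1
  have iy : i ∈ {i | (i ∈ a ∧ i.1 = j.1.1) ∧ sm i.1 i.2 ∧ y ∈ q' i.2} :=
    eq ▸ ⟨⟨ix.1, i2⟩, ix.2.1, q3 _ ix.2.2⟩
  exact i3 fun g hg => (m1 g (Or.inr hg) i i2 ⟨ix.1, ix.2.1, q4 _ ⟨iy.2.2, y1⟩⟩).2

end

end Pool.Agent.H18.OT
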