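import Pool.Agent.H18.OT1

set_option autoImplicit false

namespace Pool.Agent.H18.OT

open Set Filter Topology Pool.Agent.H8.Tau

noncomputable section
open Classical

theorem sel_real {X : Set ℝ} [Infinite X] (h : OT X)
    (𝒰 : ℕ → Set (Set X)) (u1 : ∀ r, ∀ U ∈ 𝒰 r, IsOpen U)
    (u2 : ∀ r, ∀ F : Set X, F.Finite → ∃ U ∈ 𝒰 r, F ⊆ U) :
    ∃ U : ℕ → Set X, (∀ r, U r ∈ 𝒰 r) ∧ ∀ F : Set X, F.Finite → ∃ r, F ⊆ U r := by
  refine h.sel (Q := Finset (ℚ × ℚ))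
    (fun v => Subtype.val ⁻¹' ⋃ p ∈ v, Ioo (p.1 : ℝ) (p.2 : ℝ))
    (fun v => Subtype.val ⁻¹' ⋃ p ∈ v, Icc (p.1 : ℝ) (p.2 : ℝ))
    (E := Subtype.val ⁻¹' range (Rat.cast : ℚ → ℝ))
    ((countable_range _).preimage Subtype.val_injective)
    (fun v => (isOpen_biUnion fun _ _ => isOpen_Ioo).preimage continuous_subtype_val)
    (fun v => (isClosed_biUnion_finset fun _ _ => isClosed_Icc).preimage continuous_subtype_val)
    (fun v => preimage_mono (iUnion₂_mono fun _ _ => Ioo_subset_Icc_self)) ?_ ?_ 𝒰 u1 u2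
  · rintro v x ⟨x1, x2⟩
    obtain ⟨p, p1, p2⟩ := mem_iUnion₂.mp x1
    exact mem_iUnion₂.mpr ⟨p, p1, lt_of_le_of_ne p2.1 fun t => x2 ⟨_, t⟩,
      lt_of_le_of_ne p2.2 fun t => x2 ⟨_, t.symm⟩⟩
  · intro F U hF hU hFU
    obtain ⟨w, w1, rfl⟩ := isOpen_induced_iff.mp hU
    have : ∀ x : F, ∃ p : ℚ × ℚ, x.1.1 ∈ Ioo (p.1 : ℝ) p.2 ∧ Ioo (p.1 : ℝ) p.2 ⊆ w := by
      intro x
      obtain ⟨l, u, a, b⟩ := mem_nhds_iff_exists_Ioo_subset.mp (w1.mem_nhds (hFU x.2))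
      obtain ⟨p, p1, p2⟩ := exists_rat_btwn a.1
      obtain ⟨r, r1, r2⟩ := exists_rat_btwn a.2
      exact ⟨(p, r), ⟨p2, r1⟩, (Ioo_subset_Ioo p1.le r2.le).trans b⟩
    choose p p1 p2 using this
    haveI := hF.to_subtype
    refine ⟨(finite_range p).toFinset, fun x hx => mem_iUnion₂.mpr ⟨p ⟨x, hx⟩, by simp, p1 _⟩,
      preimage_mono (iUnion₂_subset fun r hr => ?_)⟩
    obtain ⟨x, rfl⟩ := (finite_range p).mem_toFinset.mp hr
    exact p2 x

/-- every set of reals in which open `ω`-covers contain `τ`-covers satisfies `S₁(Ω, Ω)` -/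
theorem s1oo {X : Set ℝ} (h : OT X) : S1 (Om (Z := X) IsOpen) (Om IsOpen) := by
  intro 𝒰 hU
  rcases finite_or_infinite X with f | f
  · obtain ⟨U, a, b⟩ := (hU 0).2 univ finite_univ
    exact absurd (univ_subset_iff.mp b ▸ a) (hU 0).1.2.2
  obtain ⟨U, a, b⟩ := sel_real h 𝒰 (fun r => (hU r).1.1) fun r => (hU r).2
  refine ⟨U, a, cov_range (fun n => (hU n).1.1 _ (a n)) (fun n t => (hU n).1.2.2 (t ▸ a n))
    fun x => ?_, fun F hF => ?_⟩
  · obtain ⟨r, hr⟩ := b {x} (finite_singleton x)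
    exact ⟨r, hr rfl⟩
  · obtain ⟨r, hr⟩ := b F hF
    exact ⟨_, mem_range_self r, hr⟩

theorem roth {X : Set ℝ} [Infinite X] (h : OT X) (𝒞 : ℕ → Set (Set X))
    (c1 : ∀ n, ∀ U ∈ 𝒞 n, IsOpen U) (c2 : ∀ n x, ∃ U ∈ 𝒞 n, x ∈ U) :
    ∃ C : ℕ → Set X, (∀ n, C n ∈ 𝒞 n) ∧ ∀ x, ∃ᶠ n in atTop, x ∈ C n := by
  obtain ⟨z⟩ : Nonempty X := inferInstance
  have : ∀ m, ∃ C : ℕ → ℕ → Set X, (∀ r j, C r j ∈ 𝒞 (Nat.pair m (Nat.pair r j))) ∧
      ∀ x, ∃ r j, x ∈ C r j := by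
    intro m
    obtain ⟨U, a, b⟩ := sel_real h (fun r => {U | ∃ C : ℕ → Set X,
      (∀ j, C j ∈ 𝒞 (Nat.pair m (Nat.pair r j))) ∧ U = ⋃ j, C j}) (by
        rintro r _ ⟨C, a, rfl⟩
        exact isOpen_iUnion fun j => c1 _ _ (a j)) (by
        intro r F hF
        obtain ⟨f, hf⟩ := (hF.countable.insert z).exists_eq_range (insert_nonempty _ _)
        choose C a b using fun j => c2 (Nat.pair m (Nat.pair r j)) (f j)
        refine ⟨_, ⟨C, a, rfl⟩, fun x hx => ?_⟩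
        obtain ⟨j, rfl⟩ := (show x ∈ range f from hf ▸ Or.inr hx)
        exact mem_iUnion.mpr ⟨j, b j⟩)
    choose C a1 a2 using a
    refine ⟨C, a1, fun x => ?_⟩
    obtain ⟨r, hr⟩ := b {x} (finite_singleton x)
    have := hr rfl
    rw [a2] at this
    exact ⟨r, mem_iUnion.mp this⟩
  choose C a b using this
  refine ⟨fun n => C n.unpair.1 n.unpair.2.unpair.1 n.unpair.2.unpair.2, fun n => ?_,
    fun x => frequently_atTop.mpr fun m => ?_⟩
  · simpa using a n.unpair.1 n.unpair.2.unpair.1 n.unpair.2.unpair.2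
  · obtain ⟨r, j, t⟩ := b m x
    exact ⟨Nat.pair m (Nat.pair r j), Nat.left_le_pair _ _, by simpa using t⟩

lemma greedy {α : Type} (S : ℕ → Finset α) (hS : ∀ k, k < (S k).card) :
    ∃ e : ℕ → α, Function.Injective e ∧ ∀ k, e k ∈ S k := by
  have : ∀ k (L : Finset α), ∃ a ∈ S k, L.card ≤ k → a ∉ L := by
    intro k L
    by_cases c : L.card ≤ k
    · obtain ⟨a, a1, a2⟩ := Finset.exists_mem_notMem_of_card_lt_card (c.trans_lt (hS k))
      exact ⟨a, a1, fun _ => a2⟩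
    · obtain ⟨a, a1⟩ := Finset.card_pos.mp ((Nat.zero_le k).trans_lt (hS k))
      exact ⟨a, a1, fun t => absurd t c⟩
  choose f f1 f2 using this
  let L : ℕ → Finset α := fun k => Nat.rec ∅ (fun k l => insert (f k l) l) k
  have L1 : ∀ k, L (k + 1) = insert (f k (L k)) (L k) := fun k => rfl
  have L2 : ∀ k, (L k).card ≤ k := by
    intro k
    induction k with
    | zero => rfl
    | succ k ih => rw [L1]; exact (Finset.card_insert_le _ _).trans (by omega)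
  have L3 : Monotone L := monotone_nat_of_le_succ fun k => by
    rw [L1]; exact Finset.subset_insert _ _
  have lt : ∀ i j, i < j → f i (L i) ≠ f j (L j) := fun i j ij t =>
    f2 j (L j) (L2 j) (t ▸ L3 (show i + 1 ≤ j from ij) (by rw [L1]; exact Finset.mem_insert_self _ _))
  refine ⟨fun k => f k (L k), fun i j t => ?_, fun k => f1 _ _⟩
  rcases lt_trichotomy i j with s | s | s
  · exact absurd t (lt i j s)
  · exact s
  · exact absurd t.symm (lt j i s)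

theorem splitL {X : Set ℝ} (h : OT X) (𝒰 : Set (Set X)) (u1 : ∀ U ∈ 𝒰, IsOpen U)
    (u2 : ∀ x, {U | U ∈ 𝒰 ∧ x ∈ U}.Infinite) :
    ∃ 𝒱 ⊆ 𝒰, ∃ 𝒲 ⊆ 𝒰, Disjoint 𝒱 𝒲 ∧ (∀ x, {U | U ∈ 𝒱 ∧ x ∈ U}.Infinite) ∧
      ∀ x, {U | U ∈ 𝒲 ∧ x ∈ U}.Infinite := by
  rcases finite_or_infinite X with f | f
  · exact ⟨∅, empty_subset _, ∅, empty_subset _, disjoint_empty _,
      fun x => absurd (toFinite _) (u2 x), fun x => absurd (toFinite _) (u2 x)⟩
  obtain ⟨C, c1, c2⟩ := roth h (fun n => {U | ∃ S : Finset (Set X), (↑S : Set (Set X)) ⊆ 𝒰 ∧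
      S.card = 2 * n + 2 ∧ U = ⋂₀ ↑S}) (by
      rintro n _ ⟨S, a, -, rfl⟩
      exact S.finite_toSet.isOpen_sInter fun U hU => u1 U (a hU)) (by
      intro n x
      obtain ⟨S, a, b⟩ := (u2 x).exists_subset_card_eq (2 * n + 2)
      exact ⟨_, ⟨S, fun U hU => (a hU).1, b, rfl⟩, fun U hU => (a hU).2⟩)
  choose S s1 s2 s3 using c1
  obtain ⟨e, e1, e2⟩ := greedy (fun k => S (k / 2)) fun k => by rw [s2]; omega
  have big : ∀ c < 2, ∀ x, {U | U ∈ range (fun n => e (2 * n + c)) ∧ x ∈ U}.Infinite := by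
    intro c hc x
    have : {n | x ∈ C n}.Infinite := by
      rw [← Nat.cofinite_eq_atTop] at c2
      exact frequently_cofinite_iff_infinite.mp (c2 x)
    refine (this.image (f := fun n => e (2 * n + c)) fun a _ b _ t => by
      have := e1 t; omega).mono ?_
    rintro _ ⟨n, hn, rfl⟩
    refine ⟨mem_range_self n, ?_⟩
    have t := e2 (2 * n + c)
    rw [show (2 * n + c) / 2 = n by omega] at t
    have : x ∈ ⋂₀ (↑(S n) : Set (Set X)) := s3 n ▸ hn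
    exact this _ t
  refine ⟨range fun n => e (2 * n + 0), ?_, range fun n => e (2 * n + 1), ?_,
    disjoint_left.mpr ?_, big 0 (by omega), big 1 (by omega)⟩
  · rintro _ ⟨n, rfl⟩; exact s1 _ (e2 _)
  · rintro _ ⟨n, rfl⟩; exact s1 _ (e2 _)
  · rintro _ ⟨n, rfl⟩ ⟨m, t⟩
    have := e1 t
    omega

end

end Pool.Agent.H18.OT
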