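import Mathlib

open Set Filter Topology Finset

namespace Pool.Agent.H18.PiBase

variable {X : Type} [NormedAddCommGroup X] [NormedSpace ℝ X]

structure UB (e : ℕ → X) (c : ℕ → X →L[ℝ] ℝ) : Prop where
  sum : ∀ x, HasSum (fun n => c n x • e n) x
  uniq : ∀ x (a : ℕ → ℝ), HasSum (fun n => a n • e n) x → ∀ n, c n x = a n
  unc : ∀ (s : Finset ℕ) (a ε : ℕ → ℝ), (∀ n, ε n = 1 ∨ ε n = -1) →
    ‖∑ n ∈ s, (ε n * a n) • e n‖ ≤ ‖∑ n ∈ s, a n • e n‖

lemma suppress {e : ℕ → X} (h : ∀ (s : Finset ℕ) (a ε : ℕ → ℝ), (∀ n, ε n = 1 ∨ ε n = -1) →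
    ‖∑ n ∈ s, (ε n * a n) • e n‖ ≤ ‖∑ n ∈ s, a n • e n‖) (a : ℕ → ℝ) {s t : Finset ℕ} (hst : s ⊆ t) :
    ‖∑ n ∈ s, a n • e n‖ ≤ ‖∑ n ∈ t, a n • e n‖ := by
  have h1 := h t a (fun n => if n ∈ s then 1 else -1) (fun n => by split_ifs <;> simp)
  have h2 : (2 : ℝ) • ∑ n ∈ s, a n • e n =
      ∑ n ∈ t, a n • e n + ∑ n ∈ t, ((if n ∈ s then (1 : ℝ) else -1) * a n) • e n := by
    rw [← Finset.sum_add_distrib, Finset.smul_sum]
    rw [← Finset.sum_subset hst (f := fun n => a n • e n + ((if n ∈ s then (1 : ℝ) else -1) * a n) • e n)]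
    · refine Finset.sum_congr rfl fun n hn => ?_
      rw [if_pos hn, one_mul, two_smul]
    · intro n _ hn
      rw [if_neg hn]; simp
  have h3 := norm_add_le (∑ n ∈ t, a n • e n) (∑ n ∈ t, ((if n ∈ s then (1 : ℝ) else -1) * a n) • e n)
  rw [← h2, norm_smul, Real.norm_eq_abs, abs_two] at h3
  linarith

lemma part_le {e : ℕ → X} (h : ∀ (s : Finset ℕ) (a ε : ℕ → ℝ), (∀ n, ε n = 1 ∨ ε n = -1) →
    ‖∑ n ∈ s, (ε n * a n) • e n‖ ≤ ‖∑ n ∈ s, a n • e n‖) {a : ℕ → ℝ} {x : X}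
    (hx : HasSum (fun n => a n • e n) x) (s : Finset ℕ) : ‖∑ n ∈ s, a n • e n‖ ≤ ‖x‖ :=
  ge_of_tendsto hx.norm (Filter.eventually_atTop.2 ⟨s, fun _ ht => suppress h a ht⟩)

lemma exists_UB (e : ℕ → X) (h1 : ∀ x : X, ∃! a : ℕ → ℝ, HasSum (fun n => a n • e n) x)
    (h : ∀ (s : Finset ℕ) (a ε : ℕ → ℝ), (∀ n, ε n = 1 ∨ ε n = -1) →
    ‖∑ n ∈ s, (ε n * a n) • e n‖ ≤ ‖∑ n ∈ s, a n • e n‖) : ∃ c, UB e c := by
  choose c hc hu using h1
  have he : ∀ n, e n ≠ 0 := fun n hn => by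
    have a1 := hu 0 (fun _ => 0) (by simpa using hasSum_zero)
    have a2 := hu 0 (fun m => if m = n then 1 else 0) (by
      have : (fun m => (if m = n then (1 : ℝ) else 0) • e m) = fun _ => 0 := by
        funext m; split_ifs with hm
        · rw [hm, hn, smul_zero]
        · rw [zero_smul]
      simp only [this]
      exact hasSum_zero)
    have := congrFun (a1.trans a2.symm) n
    simp at this
  let L : ℕ → X →ₗ[ℝ] ℝ := fun n =>
    { toFun := fun x => c x n
      map_add' := fun x y => by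
        have := hu (x + y) (fun n => c x n + c y n) (by
          simpa only [add_smul] using (hc x).add (hc y))
        exact (congrFun this n).symm
      map_smul' := fun r x => by
        have := hu (r • x) (fun n => r * c x n) (by
          simpa only [mul_smul] using (hc x).const_smul r)
        exact (congrFun this n).symm }
  refine ⟨fun n => (L n).mkContinuous ‖e n‖⁻¹ fun x => ?_, fun x => hc x,
    fun x a ha n => (congrFun (hu x a ha) n).symm, h⟩
  have h2 := part_le h (hc x) {n}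
  rw [Finset.sum_singleton, norm_smul] at h2
  have h3 : 0 < ‖e n‖ := norm_pos_iff.2 (he n)
  rw [inv_mul_eq_div, le_div_iff₀ h3]
  exact h2

variable {e : ℕ → X} {c : ℕ → X →L[ℝ] ℝ}

noncomputable def P (e : ℕ → X) (c : ℕ → X →L[ℝ] ℝ) (N : ℕ) (x : X) : X :=
  ∑ n ∈ range N, c n x • e n

lemma UB.P_le (h : UB e c) (N : ℕ) (x : X) : ‖P e c N x‖ ≤ ‖x‖ := part_le h.unc (h.sum x) _

lemma UB.P_tendsto (h : UB e c) (x : X) : Tendsto (fun N => P e c N x) atTop (𝓝 x) :=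
  (h.sum x).tendsto_sum_nat

lemma UB.c_P (h : UB e c) (N : ℕ) (x : X) (n : ℕ) :
    c n (P e c N x) = if n < N then c n x else 0 := by
  refine h.uniq _ (fun n => if n < N then c n x else 0) ?_ n
  have : P e c N x = ∑ n ∈ range N, (if n < N then c n x else 0) • e n :=
    Finset.sum_congr rfl fun n hn => by rw [if_pos (Finset.mem_range.1 hn)]
  rw [this]
  exact hasSum_sum_of_ne_finset_zero fun n hn => by
    rw [if_neg (by simpa using hn), zero_smul]

lemma UB.P_eq (h : UB e c) {N : ℕ} {x : X} (hx : ∀ n, N ≤ n → c n x = 0) : P e c N x = x :=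
  (hasSum_sum_of_ne_finset_zero fun n hn => by
    rw [hx n (by simpa using hn), zero_smul]).unique (h.sum x)

lemma UB.refl_le (h : UB e c) (N : ℕ) (w : X) : ‖(2 : ℝ) • P e c N w - w‖ ≤ ‖w‖ := by
  have ht : Tendsto (fun M => ‖(2 : ℝ) • P e c N w - P e c M w‖) atTop
      (𝓝 ‖(2 : ℝ) • P e c N w - w‖) := (tendsto_const_nhds.sub (h.P_tendsto w)).norm
  refine le_of_tendsto ht (Filter.eventually_atTop.2 ⟨N, fun M hM => ?_⟩)
  have h1 := h.unc (range M) (fun n => c n w) (fun n => if n < N then 1 else -1)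
    (fun n => by split_ifs <;> simp)
  have h2 : (2 : ℝ) • P e c N w - P e c M w =
      ∑ n ∈ range M, ((if n < N then (1 : ℝ) else -1) * c n w) • e n := by
    have h3 : P e c N w = ∑ n ∈ range M, c n (P e c N w) • e n :=
      (h.P_eq (N := M) fun n hn => by rw [h.c_P, if_neg (by omega)]).symm
    rw [h3, Finset.smul_sum, show P e c M w = ∑ n ∈ range M, c n w • e n from rfl,
      ← Finset.sum_sub_distrib]
    refine Finset.sum_congr rfl fun n _ => ?_
    rw [h.c_P, smul_smul, ← sub_smul]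
    congr 1
    split_ifs <;> ring
  rw [h2]
  exact h1.trans (h.P_le M w)

lemma P_close (N : ℕ) (x y : X) {δ : ℝ} (hδ : ∀ n < N, |c n x - c n y| ≤ δ) :
    ‖P e c N x - P e c N y‖ ≤ δ * ∑ n ∈ range N, ‖e n‖ := by
  rw [P, P, ← Finset.sum_sub_distrib, Finset.mul_sum]
  refine (norm_sum_le _ _).trans (Finset.sum_le_sum fun n hn => ?_)
  rw [← sub_smul, norm_smul]
  exact mul_le_mul_of_nonneg_right (hδ n (Finset.mem_range.1 hn)) (norm_nonneg _)

variable {ι : Type} [Fintype ι]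

noncomputable def Phi (e : ℕ → X) (c : ℕ → X →L[ℝ] ℝ) (f : ι → X →L[ℝ] ℝ) (N : ℕ) (x : X) : ℝ :=
  ∑ i, ∑ n ∈ range N, |c n x * f i (e n)|

lemma UB.Phi_le (h : UB e c) (f : ι → X →L[ℝ] ℝ) (N : ℕ) (x : X) (hx : ‖x‖ ≤ 1) :
    Phi e c f N x ≤ ∑ i, ‖f i‖ := by
  refine Finset.sum_le_sum fun i _ => ?_
  let ε : ℕ → ℝ := fun n => if 0 ≤ c n x * f i (e n) then 1 else -1
  have h1 := h.unc (range N) (fun n => c n x) ε (fun n => by simp only [ε]; split_ifs <;> simp)
  have h2 : ∑ n ∈ range N, |c n x * f i (e n)| = f i (∑ n ∈ range N, (ε n * c n x) • e n) := by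
    rw [map_sum]
    refine Finset.sum_congr rfl fun n _ => ?_
    rw [map_smul, smul_eq_mul]
    simp only [ε]
    split_ifs with h0
    · rw [abs_of_nonneg h0]; ring
    · rw [abs_of_neg (not_le.1 h0)]; ring
  rw [h2]
  refine (le_abs_self _).trans (((f i).le_opNorm _).trans ?_)
  exact mul_le_of_le_one_right (norm_nonneg _) (h1.trans ((h.P_le N x).trans hx))

lemma le_Phi (f : ι → X →L[ℝ] ℝ) (N : ℕ) (x : X) (i : ι) : |f i (P e c N x)| ≤ Phi e c f N x := by
  refine le_trans ?_ (Finset.single_le_sum (f := fun i => ∑ n ∈ range N, |c n x * f i (e n)|)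
    (fun i _ => Finset.sum_nonneg fun n _ => abs_nonneg _) (Finset.mem_univ i))
  rw [P, map_sum]
  refine (Finset.abs_sum_le_sum_abs _ _).trans (le_of_eq (Finset.sum_congr rfl fun n _ => ?_))
  rw [map_smul, smul_eq_mul]

lemma Phi_mono (f : ι → X →L[ℝ] ℝ) {N M : ℕ} (hNM : N ≤ M) (x : X) :
    Phi e c f N x ≤ Phi e c f M x :=
  Finset.sum_le_sum fun _ _ => Finset.sum_le_sum_of_subset_of_nonneg
    (Finset.range_mono hNM) fun _ _ _ => abs_nonneg _

theorem saturate (h : UB e c) (f : ι → X →L[ℝ] ℝ) (x0 : X) (hx0 : ‖x0‖ ≤ 1) {ε : ℝ} (hε : 0 < ε) :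
    ∃ (w : X) (N : ℕ) (δ : ℝ), 0 < δ ∧ ‖w‖ ≤ 1 ∧ P e c N w = w ∧ (∀ i, |f i w - f i x0| < ε) ∧
      ∀ x, ‖x‖ ≤ 1 → (∀ n < N, |c n x - c n w| ≤ δ) → ∀ i, |f i (x - P e c N x)| ≤ ε := by
  let T : Set ℝ := {r | ∃ N x, ‖x‖ ≤ 1 ∧ (∀ i, |f i x - f i x0| < ε) ∧ r = Phi e c f N x}
  have hTb : BddAbove T := ⟨∑ i, ‖f i‖, by rintro _ ⟨N, x, hx, -, rfl⟩; exact h.Phi_le f N x hx⟩
  have hTn : T.Nonempty := ⟨_, 0, x0, hx0, fun i => by simpa using hε, rfl⟩
  obtain ⟨_, ⟨N1, x1, hx1, hf1, rfl⟩, hr⟩ := exists_lt_of_lt_csSup hTn (show sSup T - ε / 2 < sSup T by linarith)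
  have hev : ∀ᶠ N in atTop, ∀ i, |f i (P e c N x1) - f i x0| < ε :=
    Filter.eventually_all.2 fun i =>
      ((((f i).continuous.tendsto _).comp (h.P_tendsto x1)).sub_const _).abs.eventually
        (gt_mem_nhds (hf1 i))
  obtain ⟨N0, hN0, hN01⟩ := (hev.and (eventually_ge_atTop N1)).exists
  set w := P e c N0 x1 with hw
  have hw1 : ‖w‖ ≤ 1 := (h.P_le _ _).trans hx1
  have hw0 : ∀ n, N0 ≤ n → c n w = 0 := fun n hn => by rw [hw, h.c_P, if_neg (by omega)]
  have hwP : sSup T - ε / 2 < Phi e c f N0 w := by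
    refine hr.trans_le ((Phi_mono f hN01 x1).trans (le_of_eq ?_))
    refine Finset.sum_congr rfl fun i _ => Finset.sum_congr rfl fun n hn => ?_
    rw [hw, h.c_P, if_pos (Finset.mem_range.1 hn)]
  by_contra hcon
  push Not at hcon
  have hη : ∀ᶠ η in 𝓝[>] (0 : ℝ), (∀ i, η * (1 + ‖f i‖) < ε - |f i w - f i x0|) ∧
      η * sSup T < ε / 2 := by
    refine Filter.Eventually.filter_mono nhdsWithin_le_nhds (Filter.Eventually.and
      (Filter.eventually_all.2 fun i => ?_) ?_)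
    · have : Tendsto (fun η : ℝ => η * (1 + ‖f i‖)) (𝓝 0) (𝓝 (0 * (1 + ‖f i‖))) :=
        tendsto_id.mul_const _
      exact this.eventually (gt_mem_nhds (by linarith [hN0 i]))
    · have : Tendsto (fun η : ℝ => η * sSup T) (𝓝 0) (𝓝 (0 * sSup T)) := tendsto_id.mul_const _
      exact this.eventually (gt_mem_nhds (by linarith))
  obtain ⟨η, ⟨hη1, hη2⟩, hη0⟩ := (hη.and self_mem_nhdsWithin).exists
  replace hη0 : 0 < η := hη0
  have hy : ∀ k : ℕ, ∃ (y : X) (M : ℕ), N0 + k ≤ M ∧ (∀ n, n < N0 + k ∨ M ≤ n → c n y = 0) ∧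
      ‖w + y‖ ≤ 1 + η ∧ ε < Phi e c f M y := fun k => by
    have hS : 0 ≤ ∑ n ∈ range (N0 + k), ‖e n‖ := Finset.sum_nonneg fun _ _ => norm_nonneg _
    have hwk : P e c (N0 + k) w = w := h.P_eq fun n hn => hw0 n (by omega)
    obtain ⟨x, hx, hxc, i, hi⟩ := hcon w (N0 + k) (η / (∑ n ∈ range (N0 + k), ‖e n‖ + 1))
      (by positivity) hw1 hwk hN0
    have hev2 : ∀ᶠ M in atTop, ε < |f i (P e c M x - P e c (N0 + k) x)| :=
      (((f i).continuous.tendsto _).comp ((h.P_tendsto x).sub_const _)).abs.eventually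
        (lt_mem_nhds hi)
    obtain ⟨M, hM, hM1⟩ := (hev2.and (eventually_ge_atTop (N0 + k))).exists
    have hsupp : ∀ n, n < N0 + k ∨ M ≤ n → c n (P e c M x - P e c (N0 + k) x) = 0 := fun n hn => by
      rw [map_sub, h.c_P, h.c_P]
      rcases hn with hn | hn
      · rw [if_pos (by omega), if_pos hn, sub_self]
      · rw [if_neg (by omega), if_neg (by omega), sub_self]
    refine ⟨P e c M x - P e c (N0 + k) x, M, hM1, hsupp, ?_, ?_⟩
    · have h1 := P_close (e := e) (N0 + k) x w hxc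
      rw [hwk] at h1
      have h2 : η / (∑ n ∈ range (N0 + k), ‖e n‖ + 1) * ∑ n ∈ range (N0 + k), ‖e n‖ ≤ η := by
        rw [div_mul_eq_mul_div, div_le_iff₀ (by positivity)]
        nlinarith
      have h3 : w + (P e c M x - P e c (N0 + k) x) = P e c M x - (P e c (N0 + k) x - w) := by abel
      rw [h3]
      exact (norm_sub_le _ _).trans (add_le_add ((h.P_le M x).trans hx) (h1.trans h2))
    · have := le_Phi (e := e) (c := c) f M (P e c M x - P e c (N0 + k) x) i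
      rw [h.P_eq fun n hn => hsupp n (Or.inr hn)] at this
      exact hM.trans_le this
  choose y M hM hsupp hn hΦ using hy
  let v : ℕ → ι → ℝ := fun k i => f i (y k)
  have hvb : Bornology.IsBounded (Set.pi univ fun i => Set.Icc (-(‖f i‖ * (2 + η))) (‖f i‖ * (2 + η))) :=
    Bornology.IsBounded.pi fun i => Metric.isBounded_Icc _ _
  obtain ⟨a, -, φ, hφ, hlim⟩ := tendsto_subseq_of_bounded hvb (x := v) fun k i _ => by
    have h1 : ‖y k‖ ≤ 2 + η := by
      have := norm_sub_le (w + y k) w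
      rw [add_sub_cancel_left] at this
      linarith [hn k]
    exact abs_le.1 (((f i).le_opNorm _).trans (mul_le_mul_of_nonneg_left h1 (norm_nonneg _)))
  obtain ⟨j, hj⟩ := Metric.tendsto_atTop.1 hlim η hη0
  set k1 := φ j
  set k2 := φ (max j (M k1))
  have hk2 : M k1 ≤ k2 := (le_max_right _ _).trans (hφ.id_le _)
  have hv : ∀ i, |f i (y k1) - f i (y k2)| ≤ 2 * η := fun i => by
    have a1 : dist (f i (y k1)) (a i) ≤ η := (dist_le_pi_dist _ _ i).trans (hj j le_rfl).le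
    have a2 : dist (f i (y k2)) (a i) ≤ η :=
      (dist_le_pi_dist _ _ i).trans (hj (max j (M k1)) (le_max_left _ _)).le
    rw [Real.dist_eq, abs_le] at a1 a2
    rw [abs_le]
    constructor <;> linarith [a1.1, a1.2, a2.1, a2.2]
  have hneg : ‖w - y k2‖ ≤ 1 + η := by
    have h1 := h.refl_le (N0 + k2) (w + y k2)
    have h2 : P e c (N0 + k2) (w + y k2) = w := by
      rw [← h.P_eq (N := N0 + k2) (x := w) fun n hn => hw0 n (by omega)]
      refine Finset.sum_congr rfl fun n hn => ?_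
      rw [h.P_eq (N := N0 + k2) (x := w) fun n hn => hw0 n (by omega), map_add,
        hsupp k2 n (Or.inl (Finset.mem_range.1 hn)), add_zero]
    rw [h2, two_smul, show w + w - (w + y k2) = w - y k2 by abel] at h1
    exact h1.trans (hn k2)
  let z0 : X := (1 / 2 : ℝ) • (w + y k1) + (1 / 2 : ℝ) • (w - y k2)
  have hz0 : ‖z0‖ ≤ 1 + η := by
    refine (norm_add_le _ _).trans ?_
    rw [norm_smul, norm_smul, Real.norm_eq_abs, abs_of_pos (by norm_num)]
    linarith [hn k1]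
  have hη3 : 0 < 1 + η := by linarith
  let z : X := (1 + η)⁻¹ • z0
  have hz : ‖z‖ ≤ 1 := by
    rw [norm_smul, Real.norm_eq_abs, abs_of_pos (inv_pos.2 hη3), inv_mul_le_iff₀ hη3, mul_one]
    exact hz0
  have hzf : ∀ i, |f i z - f i x0| < ε := fun i => by
    have h1 : f i z - f i w = (1 + η)⁻¹ * ((f i (y k1) - f i (y k2)) / 2 - η * f i w) := by
      simp only [z, z0, map_smul, map_add, map_sub, smul_eq_mul]
      field_simp
      ring
    have h2 : |f i w| ≤ ‖f i‖ :=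
      ((f i).le_opNorm _).trans (mul_le_of_le_one_right (norm_nonneg _) hw1)
    have h3 : |(f i (y k1) - f i (y k2)) / 2 - η * f i w| ≤ η * (1 + ‖f i‖) := by
      have a1 := abs_le.1 (hv i)
      have a2 := abs_le.1 h2
      rw [abs_le]
      constructor <;> nlinarith [a1.1, a1.2, a2.1, a2.2]
    have h4 : |f i z - f i w| ≤ η * (1 + ‖f i‖) := by
      rw [h1, abs_mul, abs_of_pos (inv_pos.2 hη3)]
      refine le_trans (mul_le_of_le_one_left (abs_nonneg _) ?_) h3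
      exact inv_le_one_of_one_le₀ (by linarith)
    have h5 := abs_sub_le (f i z) (f i w) (f i x0)
    linarith [hη1 i]
  have hle : Phi e c f (M k2) z ≤ sSup T := le_csSup hTb ⟨M k2, z, hz, hzf, rfl⟩
  have hM12 : M k1 ≤ M k2 := by have := hM k2; omega
  have hsplit : (1 + η) * Phi e c f (M k2) z =
      Phi e c f (M k2) w + Phi e c f (M k2) (y k1) / 2 + Phi e c f (M k2) (y k2) / 2 := by
    simp only [Phi, Finset.mul_sum, Finset.sum_div, ← Finset.sum_add_distrib]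
    refine Finset.sum_congr rfl fun i _ => Finset.sum_congr rfl fun n _ => ?_
    have h1 : (1 + η) * |c n z * f i (e n)| =
        |(c n w + c n (y k1) / 2 - c n (y k2) / 2) * f i (e n)| := by
      rw [← abs_of_pos hη3, ← abs_mul]
      congr 1
      simp only [z, z0, map_smul, map_add, map_sub, smul_eq_mul]
      field_simp
      ring
    rw [h1]
    by_cases hn1 : n < N0
    · rw [hsupp k1 n (Or.inl (by omega)), hsupp k2 n (Or.inl (by omega))]; simp
    · rw [hw0 n (by omega)]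
      by_cases hn2 : n < M k1
      · rw [hsupp k2 n (Or.inl (by omega))]
        simp only [zero_add, zero_div, sub_zero, zero_mul, abs_zero, add_zero]
        rw [div_mul_eq_mul_div, abs_div, abs_two]
      · rw [hsupp k1 n (Or.inr (by omega))]
        simp only [zero_add, zero_div, zero_sub, zero_mul, abs_zero, add_zero]
        rw [neg_mul, abs_neg, div_mul_eq_mul_div, abs_div, abs_two]
  have b1 := Phi_mono (e := e) (c := c) f (show N0 ≤ M k2 by have := hM k2; omega) w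
  have b2 := Phi_mono (e := e) (c := c) f hM12 (y k1)
  have b3 := mul_le_mul_of_nonneg_left hle hη3.le
  linarith [hΦ k1, hΦ k2]

theorem main (h : UB e c) : ∃ U : ℕ → Set (WeakSpace ℝ X),
    (∀ n, IsOpen (U n) ∧ (U n ∩ (toWeakSpace ℝ X) '' Metric.closedBall (0 : X) 1).Nonempty) ∧
    ∀ V : Set (WeakSpace ℝ X), IsOpen V →
      (V ∩ (toWeakSpace ℝ X) '' Metric.closedBall (0 : X) 1).Nonempty →
        ∃ n, U n ∩ (toWeakSpace ℝ X) '' Metric.closedBall (0 : X) 1 ⊆ V := by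
  classical
  let W : ℕ × (ℕ →₀ ℚ) × ℕ → Set (WeakSpace ℝ X) := fun p =>
    ⋂ n ∈ range p.1, {x | |c n ((toWeakSpace ℝ X).symm x) - p.2.1 n| < 1 / ((p.2.2 : ℝ) + 1)}
  have hW : ∀ p, IsOpen (W p) := fun p => isOpen_biInter_finset fun n _ => by
    have : Continuous fun x : WeakSpace ℝ X => c n ((toWeakSpace ℝ X).symm x) :=
      WeakBilin.eval_continuous (topDualPairing ℝ X).flip (c n)
    exact isOpen_lt (this.sub continuous_const).abs continuous_const
  obtain ⟨g, hg⟩ := exists_surjective_nat (ℕ × (ℕ →₀ ℚ) × ℕ)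
  refine ⟨fun n => if (W (g n) ∩ (toWeakSpace ℝ X) '' Metric.closedBall (0 : X) 1).Nonempty
    then W (g n) else univ, fun n => ?_, ?_⟩
  · dsimp only
    split_ifs with h1
    · exact ⟨hW _, h1⟩
    · exact ⟨isOpen_univ, _, mem_univ _, 0, Metric.mem_closedBall_self zero_le_one, rfl⟩
  rintro V hV ⟨_, hx0V, x0, hx0, rfl⟩
  obtain ⟨O, hO, rfl⟩ := isOpen_induced_iff.1 hV
  obtain ⟨I, u, hu, hIO⟩ := isOpen_pi_iff.1 hO _ hx0V
  have hε : ∀ᶠ ε in 𝓝[>] (0 : ℝ), ∀ i : I, ∀ t, |t - i.1 x0| < 3 * ε → t ∈ u i := by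
    refine Filter.eventually_all.2 fun i => ?_
    obtain ⟨r, hr, hr'⟩ := Metric.isOpen_iff.1 (hu i i.2).1 _ (hu i i.2).2
    filter_upwards [Ioo_mem_nhdsGT (show (0 : ℝ) < r / 3 by positivity)] with ε hε t ht
    exact hr' (show dist t (i.1 x0) < r by rw [Real.dist_eq]; linarith [hε.2])
  obtain ⟨ε, hε1, hε0⟩ := (hε.and self_mem_nhdsWithin).exists
  replace hε0 : 0 < ε := hε0
  obtain ⟨w, N, δ, hδ, hw1, hwP, hwf, hsat⟩ := saturate h (fun i : I => i.1) x0
    (mem_closedBall_zero_iff.1 hx0) hε0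
  have hm : ∀ᶠ m : ℕ in atTop, 2 * (1 / ((m : ℝ) + 1)) ≤ δ ∧ ∀ i : I,
      ‖i.1‖ * (2 * (1 / ((m : ℝ) + 1)) * ∑ n ∈ range N, ‖e n‖) ≤ ε := by
    have t0 : Tendsto (fun m : ℕ => 2 * (1 / ((m : ℝ) + 1))) atTop (𝓝 (2 * 0)) :=
      tendsto_one_div_add_atTop_nhds_zero_nat.const_mul _
    refine Filter.Eventually.and (t0.eventually (ge_mem_nhds (by linarith)))
      (Filter.eventually_all.2 fun i => ?_)
    exact ((t0.mul_const _).const_mul _).eventually (ge_mem_nhds (by simpa using hε0))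
  obtain ⟨m, hm1, hm2⟩ := hm.exists
  have hq : ∀ n, ∃ q : ℚ, |c n w - q| < 1 / ((m : ℝ) + 1) := fun n =>
    exists_rat_near _ (by positivity)
  choose q hq using hq
  let q' : ℕ →₀ ℚ := Finsupp.onFinset (range N) (fun n => if n < N then q n else 0)
    (fun n hn => by
      by_contra h1
      exact hn (if_neg (by simpa using h1)))
  have hq' : ∀ n ∈ range N, q' n = q n := fun n hn => if_pos (Finset.mem_range.1 hn)
  obtain ⟨k, hk⟩ := hg (N, q', m)
  have hne : (W (g k) ∩ (toWeakSpace ℝ X) '' Metric.closedBall (0 : X) 1).Nonempty := by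
    refine ⟨toWeakSpace ℝ X w, ?_, w, mem_closedBall_zero_iff.2 hw1, rfl⟩
    rw [hk]
    refine mem_iInter₂.2 fun n hn => ?_
    change |c n w - q' n| < _
    rw [hq' n hn]
    exact hq n
  refine ⟨k, ?_⟩
  dsimp only
  rw [if_pos hne, hk]
  rintro _ ⟨hxW, x, hx, rfl⟩
  have hcl : ∀ n < N, |c n x - c n w| ≤ 2 * (1 / ((m : ℝ) + 1)) := fun n hn => by
    have a1 : |c n x - q' n| < 1 / ((m : ℝ) + 1) := mem_iInter₂.1 hxW n (Finset.mem_range.2 hn)
    rw [hq' n (Finset.mem_range.2 hn)] at a1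
    have a2 := hq n
    rw [abs_lt] at a1 a2
    rw [abs_le]
    constructor <;> linarith [a1.1, a1.2, a2.1, a2.2]
  refine hIO fun i hi => hε1 ⟨i, hi⟩ _ ?_
  change |i x - i x0| < 3 * ε
  have a1 := hsat x (mem_closedBall_zero_iff.1 hx) (fun n hn => (hcl n hn).trans hm1) ⟨i, hi⟩
  have a2 := P_close (e := e) N x w hcl
  rw [hwP] at a2
  have a3 : |i (P e c N x - w)| ≤ ε :=
    (i.le_opNorm _).trans ((mul_le_mul_of_nonneg_left a2 (norm_nonneg _)).trans (hm2 ⟨i, hi⟩))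
  have a4 := hwf ⟨i, hi⟩
  simp only [map_sub] at a1 a3 a4
  rw [abs_le] at a1 a3
  rw [abs_lt] at a4 ⊢
  constructor <;> linarith [a1.1, a1.2, a3.1, a3.2, a4.1, a4.2]

end Pool.Agent.H18.PiBase
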