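import Mathlib
import Pool.Agent.H18.PiBase

open Set Filter Topology Finset

namespace Pool.Agent.H18.PiBase

variable {X : Type} [NormedAddCommGroup X] [NormedSpace ℝ X]

lemma hasSum_iff [CompleteSpace X] {e : ℕ → X} (h : ∀ (s : Finset ℕ) (a ε : ℕ → ℝ), (∀ n, ε n = 1 ∨ ε n = -1) →
    ‖∑ n ∈ s, (ε n * a n) • e n‖ ≤ ‖∑ n ∈ s, a n • e n‖) (a : ℕ → ℝ) (x : X) :
    HasSum (fun n => a n • e n) x ↔ Tendsto (fun N => ∑ n ∈ range N, a n • e n) atTop (𝓝 x) := by
  refine ⟨HasSum.tendsto_sum_nat, fun hx => ?_⟩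
  have hs : Summable fun n => a n • e n := by
    refine summable_iff_vanishing_norm.2 fun ε hε => ?_
    obtain ⟨N, hN⟩ := Metric.cauchySeq_iff'.1 hx.cauchySeq ε hε
    refine ⟨range N, fun t ht => (suppress h a (t := Ico N (N + t.sup id + 1)) fun n hn => ?_).trans_lt ?_⟩
    · have h1 : n ≤ t.sup id := Finset.le_sup (f := id) hn
      have h2 : ¬ n < N := fun h' => Finset.disjoint_left.1 ht hn (Finset.mem_range.2 h')
      exact Finset.mem_Ico.2 ⟨by omega, by omega⟩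
    · rw [Finset.sum_Ico_eq_sub _ (by omega), ← dist_eq_norm]
      exact hN _ (by omega)
  rw [← tendsto_nhds_unique hs.hasSum.tendsto_sum_nat hx]
  exact hs.hasSum

end Pool.Agent.H18.PiBase
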