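import Mathlib

set_option autoImplicit false

namespace Pool.Agent.H18.ProdInt

universe u v

/-- The set of products a₁ a₂ ⋯ a_h with all factors in A (empty when h = 0). -/
def prodSet {S : Type v} [Semigroup S] (A : Set S) (h : ℕ) : Set S :=
  {x | ∃ (a : S) (l : List S), a ∈ A ∧ (∀ b ∈ l, b ∈ A) ∧ l.length + 1 = h ∧ x = l.foldl (· * ·) a}

/-- The product intersection set H(A_q). -/
def Hset {Q : Type u} {S : Type v} [Semigroup S] (A : Q → Set S) : Set ℕ :=
  {h | 1 ≤ h ∧ prodSet (⋂ q, A q) h = ⋂ q, prodSet (A q) h}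

/-- The collection H_Q. -/
def HQ (Q : Type u) : Set (Set ℕ) :=
  {X | ∃ (S : Type v) (_ : Semigroup S) (A : Q → Set S), (Set.range A).Infinite ∧ X = Hset A}

/-- The collection H*_N. -/
def HStar : Set (Set ℕ) :=
  {X | ∃ (S : Type v) (_ : Semigroup S) (A : ℕ → Set S), (∀ q, A (q + 1) ⊆ A q) ∧
    {q | A q ≠ A (q + 1)}.Infinite ∧ X = Hset A}

inductive T : Type v
  | zero : T
  | top (h : ℕ) : T
  | el (h r i : ℕ) : T

def T.mul : T.{v} → T.{v} → T.{v}
  | .el h r i, .el h' r' j =>
      if h = h' ∧ r = r' then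
        (if i + j + 2 < h then .el h r (i + j + 1) else if i + j + 2 = h then .top h else .zero)
      else .zero
  | _, _ => .zero

theorem T.zero_mul' (a : T.{v}) : T.mul .zero a = .zero := rfl
theorem T.top_mul' (h : ℕ) (a : T.{v}) : T.mul (.top h) a = .zero := rfl
theorem T.mul_zero' (a : T.{v}) : T.mul a .zero = .zero := by cases a <;> rfl
theorem T.mul_top' (h : ℕ) (a : T.{v}) : T.mul a (.top h) = .zero := by cases a <;> rfl
theorem T.el_mul (h r i h' r' j : ℕ) : T.mul (.el h r i) (.el h' r' j) =
    if h = h' ∧ r = r' then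
      (if i + j + 2 < h then T.el.{v} h r (i + j + 1) else if i + j + 2 = h then .top h else .zero)
    else .zero := rfl

instance : Semigroup T.{v} where
  mul := T.mul
  mul_assoc := by
    intro a b c
    show T.mul (T.mul a b) c = T.mul a (T.mul b c)
    rcases a with _ | _ | ⟨h, r, i⟩ <;> rcases b with _ | _ | ⟨h', r', j⟩ <;>
      rcases c with _ | _ | ⟨h'', r'', k⟩ <;>
      try (simp only [T.zero_mul', T.top_mul', T.mul_zero', T.mul_top']; done)
    by_cases h1 : h = h' ∧ r = r'
    · obtain ⟨rfl, rfl⟩ := h1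
      by_cases h2 : h = h'' ∧ r = r''
      · obtain ⟨rfl, rfl⟩ := h2
        simp only [T.el_mul, and_self, if_true]
        split_ifs <;>
          simp only [T.el_mul, and_self, if_true, T.zero_mul', T.top_mul', T.mul_zero', T.mul_top'] <;>
          split_ifs <;> first | rfl | omega | (congr 1; omega)
      · simp only [T.el_mul, and_self, if_true, if_neg h2]
        split_ifs <;>
          simp only [T.el_mul, if_neg h2, T.zero_mul', T.top_mul', T.mul_zero']
    · simp only [T.el_mul, if_neg h1]
      split_ifs <;> simp only [T.el_mul, if_neg h1, T.zero_mul', T.mul_zero', T.mul_top']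

theorem mul_def (a b : T.{v}) : a * b = T.mul a b := rfl

def fam (X : Set ℕ) (q : ℕ) : Set T.{v} := {x | x = .zero ∨ ∃ h r, h ∉ X ∧ q ≤ r ∧ x = .el h r 0}

theorem fold_zero (l : List T.{v}) : l.foldl (· * ·) T.zero = T.zero := by
  induction l with
  | nil => rfl
  | cons b l ih => exact ih

theorem fold_top (h : ℕ) (l : List T.{v}) (hl : l ≠ []) : l.foldl (· * ·) (T.top h) = T.zero := by
  cases l with
  | nil => exact absurd rfl hl
  | cons b l => exact fold_zero l

theorem fold_el (X : Set ℕ) (q h r : ℕ) (l : List T.{v}) (hl : ∀ b ∈ l, b ∈ fam X q) (i : ℕ) :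
    l.foldl (· * ·) (T.el h r i) = T.zero ∨ l.foldl (· * ·) (T.el h r i) = T.el h r (i + l.length) ∨
      (l.foldl (· * ·) (T.el h r i) = T.top h ∧ h = i + l.length + 1) := by
  induction l generalizing i with
  | nil => exact Or.inr (Or.inl rfl)
  | cons b l ih =>
    have hb := hl b (List.mem_cons_self ..)
    have ih' := ih (fun c hc => hl c (List.mem_cons_of_mem _ hc))
    rw [List.foldl_cons, mul_def]
    rcases hb with rfl | ⟨h', r', -, -, rfl⟩
    · exact Or.inl (fold_zero l)
    · simp only [T.mul]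
      split_ifs with h1 h2 h3
      · rcases ih' (i + 0 + 1) with h4 | h4 | ⟨h4, h5⟩
        · exact Or.inl h4
        · refine Or.inr (Or.inl ?_)
          rw [h4, List.length_cons]; congr 1; omega
        · exact Or.inr (Or.inr ⟨h4, by rw [List.length_cons]; omega⟩)
      · by_cases hl' : l = []
        · subst hl'
          exact Or.inr (Or.inr ⟨rfl, by simp; omega⟩)
        · exact Or.inl (fold_top _ l hl')
      · exact Or.inl (fold_zero l)
      · exact Or.inl (fold_zero l)

theorem fold_rep (h r n i : ℕ) (hi : i + n + 2 = h) :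
    (List.replicate (n + 1) (T.el.{v} h r 0)).foldl (· * ·) (T.el h r i) = T.top h := by
  induction n generalizing i with
  | zero =>
    simp only [List.replicate, List.foldl, mul_def, T.mul, and_self, if_true]
    rw [if_neg (by omega), if_pos (by omega)]
  | succ n ih =>
    rw [List.replicate_succ, List.foldl_cons, mul_def]
    simp only [T.mul, and_self, if_true]
    rw [if_pos (by omega)]
    exact ih _ (by omega)

theorem iInter_fam (X : Set ℕ) : ⋂ q, fam.{v} X q = {T.zero} := by
  ext x
  simp only [Set.mem_iInter, Set.mem_singleton_iff]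
  constructor
  · intro hx
    rcases hx 0 with h | ⟨h, r, -, -, rfl⟩
    · exact h
    · rcases hx (r + 1) with h' | ⟨h', r', -, h2, h3⟩
      · exact h'
      · injection h3 with _ h4 _
        omega
  · rintro rfl q
    exact Or.inl rfl

theorem Hset_fam (X : Set ℕ) (h0 : 0 ∉ X) (h1 : 1 ∈ X) : Hset (fam.{v} X) = X := by
  ext h
  simp only [Hset, iInter_fam, Set.mem_ofPred_eq]
  constructor
  · rintro ⟨hh, heq⟩
    by_contra hX
    have h2 : 2 ≤ h := by
      rcases Nat.lt_or_ge h 2 with h3 | h3
      · have : h = 1 := by omega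
        exact absurd (this ▸ h1) hX
      · exact h3
    have hmem : T.top.{v} h ∈ ⋂ q, prodSet (fam X q) h := by
      refine Set.mem_iInter.2 fun q => ⟨T.el h q 0, List.replicate (h - 2 + 1) (T.el h q 0),
        Or.inr ⟨h, q, hX, le_rfl, rfl⟩, fun b hb => ?_, by simp; omega,
        (fold_rep h q (h - 2) 0 (by omega)).symm⟩
      rw [List.eq_of_mem_replicate hb]
      exact Or.inr ⟨h, q, hX, le_rfl, rfl⟩
    rw [← heq] at hmem
    obtain ⟨a, l, ha, -, -, hx⟩ := hmem
    rw [Set.mem_singleton_iff.1 ha, fold_zero] at hx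
    cases hx
  · intro hX
    have hh : 1 ≤ h := Nat.pos_of_ne_zero (fun h' => h0 (h' ▸ hX))
    refine ⟨hh, ?_⟩
    have hz : ∀ A : Set T.{v}, T.zero ∈ A → T.zero ∈ prodSet A h := fun A hA =>
      ⟨T.zero, List.replicate (h - 1) T.zero, hA,
        fun b hb => List.eq_of_mem_replicate hb ▸ hA, by simp; omega, (fold_zero _).symm⟩
    ext x
    simp only [Set.mem_iInter]
    constructor
    · rintro ⟨a, l, ha, -, -, rfl⟩ q
      rw [Set.mem_singleton_iff.1 ha, fold_zero]
      exact hz _ (Or.inl rfl)
    · intro hx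
      have key : ∀ q, x = T.zero ∨ ∃ h' r i, q ≤ r ∧ x = T.el h' r i := by
        intro q
        obtain ⟨a, l, ha, hl, hlen, rfl⟩ := hx q
        rcases ha with rfl | ⟨h', r, hX', hr, rfl⟩
        · exact Or.inl (fold_zero l)
        · rcases fold_el X q h' r l hl 0 with h4 | h4 | ⟨-, h5⟩
          · exact Or.inl h4
          · exact Or.inr ⟨h', r, _, hr, h4⟩
          · exact absurd (by rw [h5, zero_add, hlen]; exact hX) hX'
      have : x = T.zero := by
        rcases key 0 with h2 | ⟨h', r, i, -, rfl⟩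
        · exact h2
        · rcases key (r + 1) with h3 | ⟨h'', r', j, h3, h4⟩
          · exact h3
          · injection h4 with _ h5 _
            omega
      rw [this]
      exact hz _ rfl

theorem fam_anti (X : Set ℕ) (q : ℕ) : fam.{v} X (q + 1) ⊆ fam X q := by
  rintro x (h | ⟨h, r, h1, h2, h3⟩)
  · exact Or.inl h
  · exact Or.inr ⟨h, r, h1, by omega, h3⟩

theorem fam_inj (X : Set ℕ) (h0 : 0 ∉ X) : Function.Injective (fam.{v} X) := by
  have key : ∀ p q, fam.{v} X p = fam X q → q ≤ p := by
    intro p q h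
    have : T.el.{v} 0 p 0 ∈ fam X q := h ▸ Or.inr ⟨0, p, h0, le_rfl, rfl⟩
    rcases this with h' | ⟨h', r, -, h2, h3⟩
    · cases h'
    · injection h3 with _ h4 _
      omega
  exact fun p q h => le_antisymm (key q p h.symm) (key p q h)

theorem Hset_basic {Q : Type u} {S : Type v} [Semigroup S] (A : Q → Set S) [Nonempty Q] :
    0 ∉ Hset A ∧ 1 ∈ Hset A := by
  refine ⟨fun h => absurd h.1 (by norm_num), le_rfl, ?_⟩
  have : ∀ B : Set S, prodSet B 1 = B := by
    intro B
    ext x
    constructor
    · rintro ⟨a, l, ha, -, hl, rfl⟩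
      have : l = [] := List.length_eq_zero_iff.1 (by omega)
      subst this
      exact ha
    · exact fun hx => ⟨x, [], hx, by simp, rfl, rfl⟩
  simp only [this]

theorem HQ_eq (Q : Type u) [Infinite Q] : HQ.{u, v} Q = {X | 0 ∉ X ∧ 1 ∈ X} := by
  ext X
  constructor
  · rintro ⟨S, _, A, -, rfl⟩
    exact Hset_basic A
  · rintro ⟨h0, h1⟩
    obtain ⟨f, hf⟩ : ∃ f : Q → ℕ, Function.Surjective f :=
      ⟨Function.invFun (Infinite.natEmbedding Q),
        Function.invFun_surjective (Infinite.natEmbedding Q).injective⟩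
    refine ⟨T.{v}, inferInstance, fun q => fam X (f q), ?_, ?_⟩
    · have : Set.range (fun q => fam.{v} X (f q)) = Set.range (fam X) :=
        hf.range_comp (fam X)
      rw [this]
      exact Set.infinite_range_of_injective (fam_inj X h0)
    · refine (Hset_fam.{v} X h0 h1).symm.trans ?_
      ext h
      simp only [Hset, Set.mem_ofPred_eq]
      rw [hf.iInter_comp (fam.{v} X), hf.iInter_comp (fun n => prodSet (fam.{v} X n) h)]

theorem HStar_eq : HStar.{v} = {X | 0 ∉ X ∧ 1 ∈ X} := by
  ext X
  constructor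
  · rintro ⟨S, _, A, -, -, rfl⟩
    exact Hset_basic A
  · rintro ⟨h0, h1⟩
    refine ⟨T.{v}, inferInstance, fam X, fam_anti X, ?_, (Hset_fam X h0 h1).symm⟩
    have : {q | fam.{v} X q ≠ fam X (q + 1)} = Set.univ :=
      Set.eq_univ_of_forall fun q h => absurd (fam_inj X h0 h) (by omega)
    rw [this]
    exact Set.infinite_univ

end Pool.Agent.H18.ProdInt
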