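import Mathlib

set_option autoImplicit false

namespace Pool.Agent.H18.Rec

open Filter Topology

def fm {M : ℕ} (hM : 3 ≤ M) (z : ℤ) : Fin M :=
  ⟨(z % M).toNat, by
    have h1 := Int.emod_lt_of_pos z (show (0 : ℤ) < M by omega)
    have h2 := Int.emod_nonneg z (show (M : ℤ) ≠ 0 by omega)
    omega⟩

lemma fm_val {M : ℕ} (hM : 3 ≤ M) (z : ℤ) : ((fm hM z : ℕ) : ℤ) = z % M :=
  Int.toNat_of_nonneg (Int.emod_nonneg z (show (M : ℤ) ≠ 0 by omega))

lemma fm_eq {M : ℕ} (hM : 3 ≤ M) (z q : ℤ) (i : Fin M) (h : z = M * q + (i : ℕ)) :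
    fm hM z = i ∧ z / M = q := by
  have hi := i.2
  have h1 : z / M = q ∧ z % M = (i : ℕ) :=
    (Int.ediv_emod_unique (show (0 : ℤ) < M by omega)).2 ⟨by omega, by omega, by omega⟩
  refine ⟨Fin.ext ?_, h1.1⟩
  have := fm_val hM z
  omega

lemma fm_spec {M : ℕ} (hM : 3 ≤ M) (z : ℤ) : z = M * (z / M) + (fm hM z : ℕ) := by
  rw [fm_val]; exact (Int.mul_ediv_add_emod z M).symm

lemma fm_add {M : ℕ} (hM : 3 ≤ M) (a z : ℤ) :
    fm hM (a + (fm hM z : ℕ)) = fm hM (a + z) ∧
      (a + (fm hM z : ℕ)) / M + z / M = (a + z) / M := by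
  have h1 := fm_spec hM z
  have h2 := fm_spec hM (a + z)
  have := fm_eq hM (a + (fm hM z : ℕ)) ((a + z) / M - z / M) (fm hM (a + z)) (by
    rw [mul_sub]; omega)
  exact ⟨this.1, by omega⟩

lemma div_small {M : ℕ} (hM : 3 ≤ M) (m : ℤ) (j : Fin M) :
    (2 ≤ m.natAbs → ((m + (j : ℕ)) / M).natAbs < m.natAbs) ∧
    (m.natAbs ≤ 1 → ((m + (j : ℕ)) / M).natAbs ≤ 1) ∧ (0 < m → 0 ≤ (m + (j : ℕ)) / M) := by
  have h1 := fm_spec hM (m + (j : ℕ))
  have h2 := (fm hM (m + (j : ℕ))).2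
  have h3 := j.2
  set q := (m + (j : ℕ)) / M
  set r := (fm hM (m + (j : ℕ)) : ℕ)
  have hM' : (3 : ℤ) ≤ M := by omega
  refine ⟨fun h => ?_, fun h => ?_, fun h => ?_⟩
  · by_contra hc
    rcases le_total 0 q with hq | hq
    · have : (2 : ℤ) ≤ q := by omega
      have : m ≤ q := by omega
      nlinarith
    · have : q ≤ -2 := by omega
      have : q ≤ m := by omega
      nlinarith
  · by_contra hc
    rcases le_total 0 q with hq | hq
    · have : (2 : ℤ) ≤ q := by omega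
      have : m ≤ 1 := by omega
      nlinarith
    · have : q ≤ -2 := by omega
      have : -1 ≤ m := by omega
      nlinarith
  · by_contra hc
    have : q ≤ -1 := by omega
    nlinarith

structure Tw where
  B : ℕ → Type
  fin : ∀ k, Finite (B k)
  ne : Nonempty (B 0)
  M : ℕ → ℕ
  hM : ∀ k, 3 ≤ M k
  sub : ∀ k, B (k + 1) → Fin (M k) → B k
  surj : ∀ k u b, ∃ i, sub k u i = b
  tri : ∀ k (t : ℤ → B k), ∃ u, ∀ m : ℤ, m.natAbs ≤ 1 → sub k u (fm (hM k) (m + 1)) = t m

namespace Tw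

variable (T : Tw)

instance (k : ℕ) : Finite (T.B k) := T.fin k
instance (k : ℕ) : TopologicalSpace (T.B k) := ⊥
instance (k : ℕ) : DiscreteTopology (T.B k) := ⟨rfl⟩
instance (k : ℕ) : SecondCountableTopology (T.B k) :=
  DiscreteTopology.secondCountableTopology_of_countable

abbrev Amb : Type := (∀ k, Fin (T.M k)) × (∀ k, ℤ → T.B k)

def Cons (x : T.Amb) (k : ℕ) (m : ℤ) : Prop :=
  x.2 k m = T.sub k (x.2 (k + 1) ((m + (x.1 k : ℕ)) / T.M k)) (fm (T.hM k) (m + (x.1 k : ℕ)))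

def X : Type := {x : T.Amb // ∀ k m, T.Cons x k m}

instance : TopologicalSpace T.X := inferInstanceAs (TopologicalSpace {x : T.Amb // _})

lemma cont_sw {Y Z ι : Type} [TopologicalSpace Y] [TopologicalSpace Z] [TopologicalSpace ι]
    [DiscreteTopology ι] (h : ι → Y → Z) (hh : ∀ i, Continuous (h i)) (j : Y → ι)
    (hj : Continuous j) : Continuous fun y => h (j y) y :=
  (continuous_prod_of_discrete_left (f := fun z : ι × Y => h z.1 z.2).2 hh).comp
    (hj.prodMk continuous_id)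

lemma isClosed_X : IsClosed {x : T.Amb | ∀ k m, T.Cons x k m} := by
  simp only [Set.setOf_forall]
  refine isClosed_iInter fun k => isClosed_iInter fun m => isClosed_eq (by fun_prop) ?_
  refine cont_sw (fun (j : Fin (T.M k)) (x : T.Amb) =>
    T.sub k (x.2 (k + 1) ((m + (j : ℕ)) / T.M k)) (fm (T.hM k) (m + (j : ℕ)))) (fun j => ?_)
    (fun x => x.1 k) (by fun_prop)
  exact (continuous_of_discreteTopology (f := fun u => T.sub k u _)).comp (by fun_prop)

instance : CompactSpace T.X := isCompact_iff_compactSpace.1 T.isClosed_X.isCompact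

instance : TopologicalSpace.MetrizableSpace T.X := by
  haveI : ∀ k, SecondCountableTopology (ℤ → T.B k) := fun k => inferInstance
  haveI : SecondCountableTopology (∀ k, ℤ → T.B k) := inferInstance
  haveI : ∀ k, SecondCountableTopology (Fin (T.M k)) := fun k => inferInstance
  haveI : SecondCountableTopology (∀ k, Fin (T.M k)) := inferInstance
  haveI : SecondCountableTopology T.Amb := inferInstance
  haveI : SecondCountableTopology T.X :=
    TopologicalSpace.Subtype.secondCountableTopology {x : T.Amb | ∀ k m, T.Cons x k m}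
  haveI : T2Space T.X := inferInstanceAs (T2Space {x : T.Amb // _})
  infer_instance

variable {T}

lemma agree (x y : T.X) (K : ℕ) (h1 : ∀ k < K, x.1.1 k = y.1.1 k)
    (h2 : ∀ m : ℤ, m.natAbs ≤ 1 → x.1.2 K m = y.1.2 K m) :
    ∀ d k, k + d = K → ∀ m : ℤ, m.natAbs ≤ d + 1 → x.1.2 k m = y.1.2 k m := by
  intro d
  induction d with
  | zero => rintro k rfl m hm; exact h2 m hm
  | succ d ih =>
    intro k hk m hm
    rw [x.2 k m, y.2 k m, h1 k (by omega), ih (k + 1) (by omega)]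
    have := div_small (T.hM k) m (y.1.1 k)
    omega

lemma ext' (x y : T.X) (h1 : x.1.1 = y.1.1)
    (h2 : ∀ k (m : ℤ), m.natAbs ≤ 1 → x.1.2 k m = y.1.2 k m) : x = y := by
  refine Subtype.ext (Prod.ext h1 ?_)
  funext k m
  exact agree x y (k + m.natAbs) (fun k _ => by rw [h1]) (h2 _) _ k rfl m (by omega)

variable (T) in
def g (j : ∀ k, Fin (T.M k)) (t : ∀ k, ℤ → T.B k) (k : ℕ) (m : ℤ) : T.B k :=
  if m.natAbs ≤ 1 then t k m else
    T.sub k (g j t (k + 1) ((m + (j k : ℕ)) / T.M k)) (fm (T.hM k) (m + (j k : ℕ)))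
termination_by m.natAbs
decreasing_by exact (div_small (T.hM k) m (j k)).1 (by omega)

lemma g_small (j : ∀ k, Fin (T.M k)) (t : ∀ k, ℤ → T.B k) (k : ℕ) (m : ℤ) (h : m.natAbs ≤ 1) :
    T.g j t k m = t k m := by rw [g, if_pos h]

def mkX (x : T.Amb) (h : ∀ k (m : ℤ), m.natAbs ≤ 1 → T.Cons x k m) : T.X :=
  ⟨(x.1, T.g x.1 x.2), fun k m => by
    unfold Cons
    by_cases hm : m.natAbs ≤ 1
    · simp only
      rw [g_small _ _ _ _ hm, g_small _ _ _ _ ((div_small (T.hM k) m (x.1 k)).2.1 hm)]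
      exact h k m hm
    · simp only
      rw [g, if_neg hm]⟩

lemma cont_g (k : ℕ) (m : ℤ) : Continuous fun x : T.Amb => T.g x.1 x.2 k m := by
  induction h : m.natAbs using Nat.strong_induction_on generalizing k m with
  | _ n ih =>
    by_cases hm : m.natAbs ≤ 1
    · simp only [g_small _ _ _ _ hm]; fun_prop
    · have : (fun x : T.Amb => T.g x.1 x.2 k m) = fun x =>
          T.sub k (T.g x.1 x.2 (k + 1) ((m + (x.1 k : ℕ)) / T.M k))
            (fm (T.hM k) (m + (x.1 k : ℕ))) := by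
        funext x; rw [g, if_neg hm]
      rw [this]
      refine cont_sw (fun (j : Fin (T.M k)) (x : T.Amb) =>
        T.sub k (T.g x.1 x.2 (k + 1) ((m + (j : ℕ)) / T.M k)) (fm (T.hM k) (m + (j : ℕ))))
        (fun j => ?_) (fun x => x.1 k) (by fun_prop)
      refine (continuous_of_discreteTopology (f := fun u => T.sub k u _)).comp
        (ih _ ?_ _ _ rfl)
      rw [← h]; exact (div_small (T.hM k) m j).1 (by omega)

instance : Nonempty T.X := by
  have h := fun k (b : T.B k) => T.tri k (fun _ => b)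
  choose f hf using h
  let w : ∀ k, T.B k := fun k => Nat.rec T.ne.some (fun k b => f k b) k
  refine ⟨mkX (fun k => ⟨1, by have := T.hM k; omega⟩, fun k _ => w k) fun k m hm => ?_⟩
  exact (hf k (w k) m hm).symm

def s (x : T.X) (n : ℤ) : ℕ → ℤ
  | 0 => n
  | k + 1 => (s x n k + (x.1.1 k : ℕ)) / T.M k

def act (n : ℤ) (x : T.X) : T.X :=
  ⟨(fun k => fm (T.hM k) (s x n k + (x.1.1 k : ℕ)), fun k m => x.1.2 k (m + s x n k)),
    fun k m => by
      unfold Cons
      have h := fm_add (T.hM k) m (s x n k + (x.1.1 k : ℕ))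
      simp only
      rw [x.2 k (m + s x n k), h.1, s, h.2, add_assoc]⟩

lemma s_act (x : T.X) (n n' : ℤ) (k : ℕ) : s (act n' x) n k + s x n' k = s x (n + n') k := by
  induction k with
  | zero => rfl
  | succ k ih =>
    simp only [s]
    rw [← ih, add_assoc]
    exact (fm_add (T.hM k) _ _).2

lemma act_act (x : T.X) (n n' : ℤ) : act n (act n' x) = act (n + n') x := by
  refine Subtype.ext (Prod.ext ?_ ?_)
  · funext k
    change fm (T.hM k) _ = fm (T.hM k) _
    rw [← s_act, add_assoc]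
    exact (fm_add (T.hM k) _ _).1
  · funext k m
    change x.1.2 k _ = x.1.2 k _
    rw [← s_act, add_assoc]

lemma s_zero (x : T.X) (k : ℕ) : s x 0 k = 0 := by
  induction k with
  | zero => rfl
  | succ k ih => rw [s, ih]; exact (fm_eq (T.hM k) _ 0 (x.1.1 k) (by simp)).2

lemma act_zero (x : T.X) : act 0 x = x := by
  refine Subtype.ext (Prod.ext ?_ ?_)
  · funext k
    change fm (T.hM k) _ = _
    rw [s_zero]
    exact (fm_eq (T.hM k) _ 0 (x.1.1 k) (by simp)).1
  · funext k m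
    change x.1.2 k _ = x.1.2 k _
    rw [s_zero, add_zero]

lemma cont_j (k : ℕ) : Continuous fun x : T.X => x.1.1 k :=
  (continuous_apply k).comp (continuous_fst.comp continuous_subtype_val)

lemma cont_b (k : ℕ) (m : ℤ) : Continuous fun x : T.X => x.1.2 k m :=
  (continuous_apply m).comp ((continuous_apply k).comp (continuous_snd.comp continuous_subtype_val))

lemma cont_s (n : ℤ) (k : ℕ) : Continuous fun x : T.X => s x n k := by
  induction k with
  | zero => exact continuous_const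
  | succ k ih =>
    exact (continuous_of_discreteTopology
      (f := fun z : ℤ × Fin (T.M k) => (z.1 + (z.2 : ℕ)) / T.M k)).comp (ih.prodMk (cont_j k))

lemma cont_act (n : ℤ) : Continuous (act n : T.X → T.X) := by
  refine Continuous.subtype_mk (Continuous.prodMk (continuous_pi fun k => ?_)
    (continuous_pi fun k => continuous_pi fun m => ?_)) _
  · exact (continuous_of_discreteTopology
      (f := fun z : ℤ × Fin (T.M k) => fm (T.hM k) (z.1 + (z.2 : ℕ)))).comp
      ((cont_s n k).prodMk (cont_j k))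
  · exact cont_sw (fun (i : ℤ) (x : T.X) => x.1.2 k (m + i)) (fun i => cont_b k _) _ (cont_s n k)

variable (T) in
def sh : T.X ≃ₜ T.X where
  toFun := act 1
  invFun := act (-1)
  left_inv x := by rw [act_act]; exact act_zero x
  right_inv x := by rw [act_act]; exact act_zero x
  continuous_toFun := cont_act 1
  continuous_invFun := cont_act (-1)

lemma sh_iter (n : ℕ) (x : T.X) : (⇑T.sh)^[n] x = act n x := by
  induction n with
  | zero => exact (act_zero x).symm
  | succ n ih =>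
    rw [Function.iterate_succ_apply', ih]
    change act 1 _ = _
    rw [act_act]; congr 1; push_cast; ring

lemma reach (x : T.X) (j : ∀ k, Fin (T.M k)) (K : ℕ) : ∀ a : ℤ, 0 < a →
    ∃ n : ℤ, 0 < n ∧ s x n K = a ∧ ∀ k < K, (act n x).1.1 k = j k := by
  induction K with
  | zero => exact fun a ha => ⟨a, ha, rfl, fun k hk => by omega⟩
  | succ K ih =>
    intro a ha
    have h1 := (x.1.1 K).2
    obtain ⟨n, hn, h2, h3⟩ := ih (T.M K * a + (j K : ℕ) - (x.1.1 K : ℕ)) (by nlinarith)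
    have h4 := fm_eq (T.hM K) (s x n K + (x.1.1 K : ℕ)) a (j K) (by rw [h2]; ring)
    refine ⟨n, hn, h4.2, fun k hk => ?_⟩
    rcases Nat.lt_succ_iff_lt_or_eq.1 hk with h | rfl
    · exact h3 k h
    · exact h4.1

lemma minimal (x : T.X) : Dense (Set.range fun n : ℕ => (⇑T.sh)^[n] x) := by
  intro y
  have key : ∀ K, ∃ n : ℕ, (∀ k < K, (act n x).1.1 k = y.1.1 k) ∧
      ∀ m : ℤ, m.natAbs ≤ 1 → (act n x).1.2 K m = y.1.2 K m := by
    intro K
    obtain ⟨u, hu⟩ := T.tri K (y.1.2 K)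
    obtain ⟨i, hi⟩ := T.surj (K + 1) (x.1.2 (K + 2) 1) u
    have h1 := (x.1.1 K).2
    have h2 := (x.1.1 (K + 1)).2
    set a : ℤ := T.M (K + 1) * 1 + (i : ℕ) - (x.1.1 (K + 1) : ℕ) with ha
    have ha0 : 0 < a := by omega
    have h3 := fm_eq (T.hM (K + 1)) (a + (x.1.1 (K + 1) : ℕ)) 1 i (by rw [ha]; ring)
    have h4 : x.1.2 (K + 1) a = u := by rw [x.2 (K + 1) a, h3.1, h3.2, hi]
    obtain ⟨n, hn, h5, h6⟩ := reach x y.1.1 K (T.M K * a + 1 - (x.1.1 K : ℕ)) (by nlinarith)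
    lift n to ℕ using hn.le
    refine ⟨n, h6, fun m hm => ?_⟩
    change x.1.2 K (m + s x n K) = _
    have h7 := T.hM K
    have h8 := fm_eq (T.hM K) (m + 1) 0 ⟨(m + 1).toNat, by omega⟩ (by simp only; omega)
    have h9 := fm_eq (T.hM K) (m + s x n K + (x.1.1 K : ℕ)) a ⟨(m + 1).toNat, by omega⟩
      (by rw [h5]; simp only; omega)
    rw [x.2 K, h9.1, h9.2, h4, ← hu m hm, h8.1]
  choose n hn using key
  refine mem_closure_of_tendsto (b := atTop) (f := fun K => act (n K) x) ?_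
    (Eventually.of_forall fun K => ⟨n K, sh_iter _ _⟩)
  refine tendsto_subtype_rng.2 ((Prod.tendsto_iff _ _).2 ⟨tendsto_pi_nhds.2 fun k => ?_,
    tendsto_pi_nhds.2 fun k => tendsto_pi_nhds.2 fun m => ?_⟩)
  · refine tendsto_const_nhds.congr' ?_
    filter_upwards [eventually_gt_atTop k] with K hK
    exact ((hn K).1 k hK).symm
  · refine tendsto_const_nhds.congr' ?_
    filter_upwards [eventually_ge_atTop (k + m.natAbs)] with K hK
    exact (agree _ _ K (hn K).1 (hn K).2 (K - k) k (by omega) m (by omega)).symm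

structure Mv (T : Tw) where
  p : ∀ k, T.B k → T.B k
  ψ : ∀ k, Fin (T.M k) → T.B k → T.B (k + 1) → T.B (k + 1)
  hp : ∀ k u i, T.sub k (p (k + 1) u) i = p k (T.sub k u i)
  h0 : ∀ k j c u, T.sub k (ψ k j c u) j = c
  h1 : ∀ k (j : Fin (T.M k)) c u (i : Fin (T.M k)), ((i : ℤ) - (j : ℕ)).natAbs = 1 →
    T.sub k (ψ k j c u) i = p k (T.sub k u i)

def Mv.c (V : Mv T) (x : T.X) : ∀ k, T.B k
  | 0 => x.1.2 0 0
  | k + 1 => V.ψ k (x.1.1 k) (V.c x k) (x.1.2 (k + 1) 0)

def Mv.am (V : Mv T) (x : T.X) : T.Amb :=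
  (x.1.1, fun k m => if m = 0 then V.c x k else V.p k (x.1.2 k m))

def Mv.F (V : Mv T) (x : T.X) : T.X :=
  mkX (V.am x) fun k m hm => by
    unfold Cons Mv.am
    simp only
    have h1 := fm_spec (T.hM k) (m + (x.1.1 k : ℕ))
    by_cases h : m = 0
    · subst h
      have := fm_eq (T.hM k) (0 + (x.1.1 k : ℕ)) 0 (x.1.1 k) (by simp)
      rw [this.1, this.2, if_pos rfl, if_pos rfl, Mv.c, V.h0]
    · rw [if_neg h, x.2 k m]
      by_cases hq : (m + (x.1.1 k : ℕ)) / T.M k = 0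
      · rw [if_pos hq, Mv.c, V.h1, hq]
        rw [hq] at h1; omega
      · rw [if_neg hq, V.hp]

lemma Mv.F_j (V : Mv T) (x : T.X) : (V.F x).1.1 = x.1.1 := rfl

lemma Mv.F_b (V : Mv T) (x : T.X) (k : ℕ) (m : ℤ) (hm : m.natAbs ≤ 1) :
    (V.F x).1.2 k m = if m = 0 then V.c x k else V.p k (x.1.2 k m) :=
  g_small _ _ _ _ hm

lemma Mv.cont_c (V : Mv T) (k : ℕ) : Continuous fun x => V.c x k := by
  induction k with
  | zero => exact cont_b 0 0
  | succ k ih =>
    exact (continuous_of_discreteTopology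
      (f := fun z : Fin (T.M k) × T.B k × T.B (k + 1) => V.ψ k z.1 z.2.1 z.2.2)).comp
      ((cont_j k).prodMk (ih.prodMk (cont_b _ _)))

lemma Mv.cont_F (V : Mv T) : Continuous V.F := by
  have h : Continuous V.am := by
    refine Continuous.prodMk (continuous_pi cont_j)
      (continuous_pi fun k => continuous_pi fun m => ?_)
    by_cases hm : m = 0
    · simp only [if_pos hm]; exact V.cont_c k
    · simp only [if_neg hm]
      exact (continuous_of_discreteTopology (f := V.p k)).comp (cont_b k m)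
  refine Continuous.subtype_mk (Continuous.prodMk (continuous_pi cont_j)
    (continuous_pi fun k => continuous_pi fun m => (cont_g k m).comp h)) _

lemma Mv.inv (V W : Mv T) (hp : ∀ k b, W.p k (V.p k b) = b)
    (hψ : ∀ k j c u, W.ψ k j (T.sub k u j) (V.ψ k j c u) = u) (x : T.X) : W.F (V.F x) = x := by
  refine ext' _ _ rfl fun k m hm => ?_
  rw [W.F_b _ _ _ hm]
  by_cases h : m = 0
  · rw [if_pos h, h]
    clear hm h
    induction k with
    | zero => rw [Mv.c, V.F_b _ _ _ (by simp)]; rfl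
    | succ k ih =>
      have := fm_eq (T.hM k) (0 + (x.1.1 k : ℕ)) 0 (x.1.1 k) (by simp)
      rw [Mv.c, ih, V.F_b _ _ _ (by simp), if_pos rfl, Mv.c, V.F_j, x.2 k 0, this.1, this.2, hψ]
  · rw [if_neg h, V.F_b _ _ _ hm, if_neg h, hp]

lemma Mv.avoid (V : Mv T) (r : ∀ k, T.B k → T.B k → Prop) (h1 : ∀ k b, r k b (V.p k b))
    (h2 : ∀ k u v i, r (k + 1) u v → r k (T.sub k u i) (T.sub k v i))
    (h3 : ∀ k j c u i, i ≠ j → r k (T.sub k u i) (T.sub k (V.ψ k j c u) i)) (x : T.X)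
    (k : ℕ) (m : ℤ) (hm : m ≠ 0) : r k (x.1.2 k m) ((V.F x).1.2 k m) := by
  induction h : m.natAbs using Nat.strong_induction_on generalizing k m with
  | _ n ih =>
    by_cases hm1 : m.natAbs ≤ 1
    · rw [V.F_b _ _ _ hm1, if_neg hm]; exact h1 _ _
    · rw [x.2 k m, (V.F x).2 k m, V.F_j]
      by_cases hq : (m + (x.1.1 k : ℕ)) / T.M k = 0
      · rw [hq, V.F_b _ _ _ (by simp), if_pos rfl, Mv.c]
        apply h3
        intro he
        have h1 := fm_spec (T.hM k) (m + (x.1.1 k : ℕ))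
        rw [hq, he] at h1; omega
      · refine h2 _ _ _ _ (ih _ ?_ _ _ hq rfl)
        rw [← h]; exact (div_small (T.hM k) m _).1 (by omega)

theorem main (V W : Mv T) (hp : ∀ k b, W.p k (V.p k b) = b) (hp' : ∀ k b, V.p k (W.p k b) = b)
    (hψ : ∀ k j c u, W.ψ k j (T.sub k u j) (V.ψ k j c u) = u)
    (hψ' : ∀ k j c u, V.ψ k j (T.sub k u j) (W.ψ k j c u) = u)
    (r : ∀ k, T.B k → T.B k → Prop) (h0 : ∀ b, ¬ r 0 b b) (h1 : ∀ k b, r k b (V.p k b))
    (h2 : ∀ k u v i, r (k + 1) u v → r k (T.sub k u i) (T.sub k v i))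
    (h3 : ∀ k j c u i, i ≠ j → r k (T.sub k u i) (T.sub k (V.ψ k j c u) i)) :
    ∃ (X : Type) (_ : MetricSpace X) (_ : CompactSpace X) (_ : Nonempty X) (T S : X ≃ₜ X),
      (∀ x : X, Dense (Set.range (fun n : ℕ => (⇑T)^[n] x))) ∧
      (∀ x : X, Dense (Set.range (fun n : ℕ => (⇑S)^[n] x))) ∧
      ∀ x : X, ¬ (∀ ε : ℝ, 0 < ε →
        ∃ n : ℕ, 0 < n ∧ dist ((⇑T)^[n] x) x < ε ∧ dist ((⇑S)^[n] x) x < ε) := by
  let φ : T.X ≃ₜ T.X := ⟨⟨V.F, W.F, V.inv W hp hψ, W.inv V hp' hψ'⟩, V.cont_F, W.cont_F⟩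
  let S : T.X ≃ₜ T.X := (φ.trans T.sh).trans φ.symm
  have hS : ∀ n x, (⇑S)^[n] x = φ.symm ((⇑T.sh)^[n] (φ x)) := by
    intro n x
    induction n with
    | zero => simp
    | succ n ih => rw [Function.iterate_succ_apply', ih, Function.iterate_succ_apply']; simp [S]
  letI : MetricSpace T.X := TopologicalSpace.metrizableSpaceMetric T.X
  refine ⟨T.X, inferInstance, inferInstance, inferInstance, T.sh, S, minimal, fun x => ?_,
    fun x hx => ?_⟩
  · simp only [hS]
    exact φ.symm.surjective.denseRange.comp (minimal (φ x)) φ.symm.continuous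
  · have hU : IsOpen {w : T.X | w.1.2 0 0 = x.1.2 0 0} :=
      (isOpen_discrete {x.1.2 0 0}).preimage (cont_b 0 0)
    obtain ⟨ε, hε, hb⟩ := Metric.isOpen_iff.1 hU x rfl
    obtain ⟨n, hn, a1, a2⟩ := hx ε hε
    have b1 : ((⇑T.sh)^[n] x).1.2 0 0 = x.1.2 0 0 := hb a1
    have b2 : ((⇑S)^[n] x).1.2 0 0 = x.1.2 0 0 := hb a2
    have b3 : ∀ w : T.X, (W.F w).1.2 0 0 = w.1.2 0 0 := fun w => by
      rw [W.F_b _ _ _ (by simp)]; rfl
    rw [hS, sh_iter] at b2
    rw [sh_iter] at b1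
    have b4 : (V.F x).1.2 0 (0 + n) = x.1.2 0 0 := (b3 _).symm.trans b2
    have b5 : x.1.2 0 (0 + n) = x.1.2 0 0 := b1
    have := V.avoid r h1 h2 h3 x 0 (0 + n) (by omega)
    rw [b4, b5] at this
    exact h0 _ this

end Tw

end Pool.Agent.H18.Rec
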