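import Mathlib

set_option autoImplicit false

namespace Pool.Agent.H18.Rec2

open Set Filter Topology

variable {X : Type} [TopologicalSpace X]

/-- `A` is not decided by `C`. -/
def Und (A C : Set X) : Prop := (A ∩ C).Nonempty ∧ (A ∩ Cᶜ).Nonempty

lemma split [CompactSpace X] [T2Space X] [TotallyDisconnectedSpace X] (G G' R A C : Set X) (hGG : G ⊆ G')
    (hR : IsClosed R) (hd : Disjoint G R)
    (hp : ∀ U, IsClopen U → ∀ x ∈ U ∩ G, ∃ y ∈ U ∩ G', y ≠ x) (hA : IsClopen A) (hC : IsClopen C)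
    (hne : (A ∩ G).Nonempty) : ∃ B, IsClopen B ∧ B ⊆ A ∧ Disjoint B R ∧ (B ∩ G').Nonempty ∧
      ((A \ B) ∩ G').Nonempty ∧ ¬ Und B C ∧
      (∀ S, S = C ∨ S = Cᶜ → ((A \ B) ∩ S ∩ G').Nonempty ∨ (A \ B) ∩ S = A ∩ S) := by
  obtain ⟨g, hg⟩ := hne
  obtain ⟨S, hS, hgS, hS1, hS2⟩ : ∃ S, IsClopen S ∧ g ∈ S ∧ (∀ B ⊆ S, ¬ Und B C) ∧
      ∀ S', S' = C ∨ S' = Cᶜ → S' = S ∨ Disjoint S S' := by
    by_cases h : g ∈ C
    · refine ⟨C, hC, h, fun B hB ⟨_, x, hx⟩ => hx.2 (hB hx.1), ?_⟩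
      rintro _ (rfl | rfl)
      · exact Or.inl rfl
      · exact Or.inr disjoint_compl_right
    · refine ⟨Cᶜ, hC.compl, h, fun B hB ⟨⟨x, hx⟩, _⟩ => hB hx.1 hx.2, ?_⟩
      rintro _ (rfl | rfl)
      · exact Or.inr disjoint_compl_left
      · exact Or.inl rfl
  obtain ⟨y, hy, hyg⟩ := hp (A ∩ S) (hA.inter hS) g ⟨⟨hg.1, hgS⟩, hg.2⟩
  obtain ⟨B, hB, hgB, hsub⟩ := isTopologicalBasis_isClopen.exists_subset_of_mem_open
    (show g ∈ A ∩ S ∩ Rᶜ ∩ {y}ᶜ from ⟨⟨⟨hg.1, hgS⟩, disjoint_left.1 hd hg.2⟩, hyg.symm⟩)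
    (((hA.inter hS).isOpen.inter hR.isOpen_compl).inter isOpen_compl_singleton)
  have hyB : y ∉ B := fun h => (hsub h).2 rfl
  refine ⟨B, hB, fun x hx => (hsub hx).1.1.1, disjoint_left.2 fun x hx => (hsub hx).1.2, ⟨g, hgB, hGG hg.2⟩,
    ⟨y, ⟨hy.1.1, hyB⟩, hy.2⟩, hS1 B fun x hx => (hsub hx).1.1.2, fun S' h => ?_⟩
  rcases hS2 S' h with rfl | h
  · exact Or.inl ⟨y, ⟨⟨hy.1.1, hyB⟩, hy.1.2⟩, hy.2⟩
  · exact Or.inr (subset_antisymm (fun x hx => ⟨hx.1.1, hx.2⟩) fun x hx =>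
      ⟨⟨hx.1, fun hB => disjoint_left.1 h (hsub hB).1.1.2 hx.2⟩, hx.2⟩)

/-- Coding theorem. -/
theorem coding [CompactSpace X] [T2Space X] [TotallyDisconnectedSpace X] [SecondCountableTopology X]
    (G R : ℕ → Set X) (hG : Monotone G) (h0 : (G 0).Nonempty) (hR : ∀ n, IsClosed (R n))
    (hd : ∀ n, Disjoint (G n) (R n)) (hev : ∀ n, R (2 * n) = ∅)
    (hden : ∀ U, IsClopen U → U.Nonempty → ∃ n, (U ∩ G n).Nonempty)
    (hp : ∀ n U, IsClopen U → ∀ x ∈ U ∩ G n, ∃ y ∈ U ∩ G (n + 1), y ≠ x) :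
    ∃ α : X ≃ₜ (ℕ → Bool), ∀ x n, x ∈ R n → α x n = true := by
  classical
  obtain ⟨C, hC, hsep⟩ : ∃ C : ℕ → Set X, (∀ i, IsClopen (C i)) ∧ ∀ x y, x ≠ y → ∃ i, x ∈ C i ∧ y ∉ C i := by
    obtain ⟨s, hs, hc, hb⟩ := (isTopologicalBasis_isClopen (X := X)).exists_countable
    obtain ⟨C, hC⟩ := (hc.insert ∅).exists_eq_range (insert_nonempty _ _)
    refine ⟨C, fun i => ?_, fun x y hxy => ?_⟩
    · rcases (show C i ∈ insert ∅ s from hC ▸ ⟨i, rfl⟩) with h | h
      · rw [h]; exact isClopen_empty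
      · exact hs h
    · obtain ⟨V, hV, hx, hsub⟩ := hb.exists_subset_of_mem_open (show x ∈ ({y}ᶜ : Set X) from hxy)
        isOpen_compl_singleton
      obtain ⟨i, rfl⟩ : V ∈ range C := hC ▸ mem_insert_of_mem _ hV
      exact ⟨i, hx, fun h => hsub h rfl⟩
  let ix : Set X → ℕ := fun A => sInf {i | Und A (C i)}
  have key : ∀ n A, IsClopen A → (A ∩ G n).Nonempty → ∃ B, IsClopen B ∧ B ⊆ A ∧ Disjoint B (R n) ∧
      (B ∩ G (n + 1)).Nonempty ∧ ((A \ B) ∩ G (n + 1)).Nonempty ∧ ¬ Und B (C (ix A)) ∧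
      (¬ Und (A \ B) (C (ix A)) ∨ ((Even n → ¬ ((A ∩ C (ix A) ∩ G n).Nonempty ∧ (A ∩ (C (ix A))ᶜ ∩ G n).Nonempty)) ∧
        ∀ S, S = C (ix A) ∨ S = (C (ix A))ᶜ → ((A \ B) ∩ S ∩ G (n + 1)).Nonempty ∨ (A \ B) ∩ S = A ∩ S)) := by
    intro n A hA hne
    by_cases h : Even n ∧ (A ∩ C (ix A) ∩ G n).Nonempty ∧ (A ∩ (C (ix A))ᶜ ∩ G n).Nonempty
    · obtain ⟨⟨k, rfl⟩, ⟨x, hx⟩, y, hy⟩ := h
      refine ⟨A ∩ C (ix A), hA.inter (hC _), inter_subset_left, by rw [← two_mul, hev]; simp,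
        ⟨x, hx.1, hG (Nat.le_succ _) hx.2⟩, ⟨y, ⟨hy.1.1, fun h => hy.1.2 h.2⟩, hG (Nat.le_succ _) hy.2⟩,
        fun ⟨_, z, hz⟩ => hz.2 hz.1.2, Or.inl fun ⟨⟨z, hz⟩, _⟩ => hz.1.2 ⟨hz.1.1, hz.2⟩⟩
    · obtain ⟨B, h1, h2, h3, h4, h5, h6, h7⟩ := split (G n) (G (n + 1)) (R n) A (C (ix A))
        (hG (Nat.le_succ _)) (hR n) (hd n) (hp n) hA (hC _) hne
      exact ⟨B, h1, h2, h3, h4, h5, h6, Or.inr ⟨fun he h' => h ⟨he, h'⟩, h7⟩⟩
  choose! B hB using key
  let cell : (ℕ → Bool) → ℕ → Set X := fun b n =>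
    Nat.rec univ (fun n A => if b n then A \ B n A else B n A) n
  have hs : ∀ b n, cell b (n + 1) = if b n then cell b n \ B n (cell b n) else B n (cell b n) := fun _ _ => rfl
  have hc : ∀ b n, IsClopen (cell b n) ∧ (cell b n ∩ G n).Nonempty := by
    intro b n
    induction n with
    | zero => exact ⟨isClopen_univ, by simpa [cell] using h0⟩
    | succ n ih =>
      have := hB n _ ih.1 ih.2
      rw [hs]
      split_ifs
      · exact ⟨ih.1.diff this.1, this.2.2.2.2.1⟩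
      · exact ⟨this.1, this.2.2.2.1⟩
  have hanti : ∀ b, Antitone (cell b) := fun b => antitone_nat_of_succ_le fun n => by
    rw [hs]
    split_ifs
    · exact sdiff_subset
    · exact (hB n _ (hc b n).1 (hc b n).2).2.1
  have hU : ∀ b i m n, m ≤ n → Und (cell b n) (C i) → Und (cell b m) (C i) := fun b i m n h hu =>
    ⟨hu.1.mono (inter_subset_inter_left _ (hanti b h)), hu.2.mono (inter_subset_inter_left _ (hanti b h))⟩
  have hdec : ∀ b i, ∃ n, ∀ j < i, ¬ Und (cell b n) (C j) := by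
    intro b i
    induction i with
    | zero => exact ⟨0, fun j hj => absurd hj (Nat.not_lt_zero _)⟩
    | succ i ih =>
      obtain ⟨n0, hn0⟩ := ih
      suffices h : ∃ n, ¬ Und (cell b n) (C i) by
        obtain ⟨n, hn⟩ := h
        refine ⟨max n0 n, fun j hj hu => ?_⟩
        rcases Nat.lt_succ_iff_lt_or_eq.1 hj with h | rfl
        · exact hn0 j h (hU b j _ _ (le_max_left _ _) hu)
        · exact hn (hU b j _ _ (le_max_right _ _) hu)
      by_contra hn
      push Not at hn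
      have hix : ∀ n, n0 ≤ n → ix (cell b n) = i := fun n h =>
        le_antisymm (Nat.sInf_le (hn n)) (le_csInf ⟨i, hn n⟩ fun j hj =>
          not_lt.1 fun hji => hn0 j hji (hU b j _ _ h hj))
      have hst : ∀ n, n0 ≤ n → (Even n → ¬ ((cell b n ∩ C i ∩ G n).Nonempty ∧ (cell b n ∩ (C i)ᶜ ∩ G n).Nonempty)) ∧
          ∀ S, S = C i ∨ S = (C i)ᶜ → (cell b (n + 1) ∩ S ∩ G (n + 1)).Nonempty ∨
            cell b (n + 1) ∩ S = cell b n ∩ S := by
        intro n h
        have h1 := (hB n _ (hc b n).1 (hc b n).2).2.2.2.2.2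
        have h2 := hn (n + 1)
        rw [hix n h] at h1
        rw [hs] at h2 ⊢
        split_ifs at h2 ⊢
        · exact h1.2.resolve_left (not_not.2 h2)
        · exact absurd h2 h1.1
      have hS : ∀ S, S = C i ∨ S = (C i)ᶜ → ∃ N, ∀ n, N ≤ n → (cell b n ∩ S ∩ G n).Nonempty := by
        intro S hS
        have h1 : IsClopen S := by rcases hS with rfl | rfl; exacts [hC i, (hC i).compl]
        have h2 : (cell b n0 ∩ S).Nonempty := by rcases hS with rfl | rfl; exacts [(hn n0).1, (hn n0).2]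
        obtain ⟨N, hN⟩ := hden _ ((hc b n0).1.inter h1) h2
        have h3 : ∀ n, n0 ≤ n → (cell b n ∩ S ∩ G n).Nonempty ∨ cell b n ∩ S = cell b n0 ∩ S := by
          intro n hn
          induction n, hn using Nat.le_induction with
          | base => exact Or.inr rfl
          | succ n h ih =>
            rcases (hst n h).2 S hS with h4 | h4
            · exact Or.inl h4
            · rw [h4]
              exact ih.imp_left fun h5 => h5.mono (inter_subset_inter_right _ (hG (Nat.le_succ _)))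
        refine ⟨max n0 N, fun n h => (h3 n ((le_max_left _ _).trans h)).elim id fun h4 => ?_⟩
        rw [h4]
        exact hN.mono (inter_subset_inter_right _ (hG ((le_max_right _ _).trans h)))
      obtain ⟨N1, h1⟩ := hS _ (Or.inl rfl)
      obtain ⟨N2, h2⟩ := hS _ (Or.inr rfl)
      exact (hst (2 * (n0 + N1 + N2)) (by omega)).1 (even_two_mul _) ⟨h1 _ (by omega), h2 _ (by omega)⟩
  have huniq : ∀ b x y, (∀ n, x ∈ cell b n) → (∀ n, y ∈ cell b n) → x = y := by
    intro b x y hx hy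
    by_contra hxy
    obtain ⟨i, h1, h2⟩ := hsep x y hxy
    obtain ⟨n, hn⟩ := hdec b (i + 1)
    exact hn i (Nat.lt_succ_self i) ⟨⟨x, hx n, h1⟩, y, hy n, h2⟩
  let cx : X → ℕ → Set X := fun x n =>
    Nat.rec univ (fun n A => if x ∈ B n A then B n A else A \ B n A) n
  let a : X → ℕ → Bool := fun x n => decide (x ∉ B n (cx x n))
  have hcx : ∀ x n, cx x n = cell (a x) n ∧ x ∈ cx x n := by
    intro x n
    induction n with
    | zero => exact ⟨rfl, mem_univ _⟩
    | succ n ih =>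
      have : cx x (n + 1) = if x ∈ B n (cx x n) then B n (cx x n) else cx x n \ B n (cx x n) := rfl
      rw [this, hs, ← ih.1]
      by_cases h : x ∈ B n (cx x n)
      · simp [a, h]
      · simp [a, h, ih.2]
  have hiff : ∀ b x n, x ∈ cell b n → cx x n = cell b n := by
    intro b x n
    induction n with
    | zero => exact fun _ => rfl
    | succ n ih =>
      intro h
      have : cx x (n + 1) = if x ∈ B n (cx x n) then B n (cx x n) else cx x n \ B n (cx x n) := rfl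
      rw [this, ih (hanti b (Nat.le_succ n) h)]
      rw [hs] at h ⊢
      by_cases hb : b n = true
      · rw [if_pos hb] at h ⊢
        rw [if_neg h.2]
      · rw [if_neg hb] at h ⊢
        rw [if_pos h]
  have hval : ∀ b x n, x ∈ cell b (n + 1) → a x n = b n := by
    intro b x n h
    have h1 := hiff b x n (hanti b (Nat.le_succ n) h)
    rw [hs] at h
    simp only [a, h1]
    by_cases hb : b n = true
    · rw [if_pos hb] at h
      simp [hb, h.2]
    · rw [if_neg hb] at h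
      simp [hb, h]
  have hmem : ∀ x n, x ∈ cell (a x) n := fun x n => (hcx x n).1 ▸ (hcx x n).2
  have hcont : Continuous a := continuous_pi fun n => (IsLocallyConstant.iff_eventually_eq _).2 (fun x => by
    filter_upwards [(hc (a x) (n + 1)).1.isOpen.mem_nhds (hmem x (n + 1))] with y hy
    exact hval _ y n hy) |>.continuous
  have hbij : Function.Bijective a := by
    refine ⟨fun x y h => huniq (a x) x y (hmem x) (h ▸ hmem y), fun b => ?_⟩
    obtain ⟨x, hx⟩ := IsCompact.nonempty_iInter_of_sequence_nonempty_isCompact_isClosed (cell b)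
      (fun n => hanti b (Nat.le_succ n)) (fun n => (hc b n).2.mono inter_subset_left)
      (hc b 0).1.isClosed.isCompact fun n => (hc b n).1.isClosed
    exact ⟨x, funext fun n => hval b x n (mem_iInter.1 hx (n + 1))⟩
  refine ⟨Continuous.homeoOfEquivCompactToT2 (f := Equiv.ofBijective a hbij) hcont, fun x n hx => ?_⟩
  show decide (x ∉ B n (cx x n)) = true
  rw [decide_eq_true_iff, (hcx x n).1]
  exact fun h => disjoint_left.1 (hB n _ (hc _ n).1 (hc _ n).2).2.2.1 h hx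

end Pool.Agent.H18.Rec2
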