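import Mathlib
import Pool.Agent.H18.Rec2

set_option autoImplicit false

namespace Pool.Agent.H18.Rec3

open Set Filter Topology

variable (μ : ℕ → ℕ)

def L : ℕ → ℕ
  | 0 => 1
  | k + 1 => μ (L k) * L k

def Blk : ℕ → (ℤ → Fin 3) → ℤ → Prop
  | 0, _, _ => True
  | k + 1, x, o => (∀ i : ℕ, i < μ (L μ k) → Blk k x (o + i * L μ k)) ∧ ∀ y, Blk k y 0 →
      ∃ i : ℕ, i < μ (L μ k) ∧ ∀ t : ℤ, 0 ≤ t → t < L μ k → x (o + i * L μ k + t) = y t

def Good (P : Set ℤ) : Prop := ∀ l : ℕ, 0 < l → ∀ o j : ℤ, ∃ i0 : ℕ, i0 + 3 ^ l ≤ μ l ∧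
  ∀ t, (t ∈ P ∨ (j ≤ t ∧ t < j + 3 * l)) → ¬ (o + i0 * l ≤ t ∧ t < o + (i0 + (3 ^ l : ℕ)) * l)

def Xk (k : ℕ) : Set (ℤ → Fin 3) := {x | ∃ o : ℤ, ∀ q : ℤ, Blk μ k x (o + q * L μ k)}

def X : Set (ℤ → Fin 3) := ⋂ k, Xk μ k

variable {μ}

lemma loc (k : ℕ) : ∀ {x x' : ℤ → Fin 3} {o o' : ℤ}, Blk μ k x o →
    (∀ t : ℤ, 0 ≤ t → t < L μ k → x' (o' + t) = x (o + t)) → Blk μ k x' o' := by
  induction k with
  | zero => intros; trivial
  | succ k ih =>
    intro x x' o o' h he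
    have key : ∀ i : ℕ, i < μ (L μ k) → ∀ t : ℤ, 0 ≤ t → t < L μ k →
        x' (o' + i * L μ k + t) = x (o + i * L μ k + t) := by
      intro i hi t h0 h1
      rw [add_assoc, add_assoc]
      refine he _ (by positivity) ?_
      have : ((i + 1 : ℕ) : ℤ) * L μ k ≤ μ (L μ k) * L μ k :=
        mul_le_mul_of_nonneg_right (by exact_mod_cast hi) (by positivity)
      simp only [L]
      push_cast at this ⊢
      linarith
    refine ⟨fun i hi => ih (h.1 i hi) (key i hi), fun y hy => ?_⟩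
    obtain ⟨i, hi, e⟩ := h.2 y hy
    exact ⟨i, hi, fun t h0 h1 => (key i hi t h0 h1).trans (e t h0 h1)⟩

lemma closed_Blk (k : ℕ) : ∀ o, IsClosed {x | Blk μ k x o} := by
  induction k with
  | zero => exact fun _ => isClosed_univ
  | succ k ih =>
    intro o
    refine IsClosed.inter (s₁ := {x | _}) (s₂ := {x | _}) ?_ ?_
    · simp only [setOf_forall]
      exact isClosed_iInter fun i => isClosed_iInter fun _ => ih _
    · simp only [setOf_forall]
      refine isClosed_iInter fun y => isClosed_iInter fun _ => ?_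
      have : {x : ℤ → Fin 3 | ∃ i : ℕ, i < μ (L μ k) ∧ ∀ t : ℤ, 0 ≤ t → t < L μ k → x (o + i * L μ k + t) = y t} =
          ⋃ i ∈ Iio (μ (L μ k)), {x | ∀ t : ℤ, 0 ≤ t → t < L μ k → x (o + i * L μ k + t) = y t} := by
        ext x; simp
      rw [this]
      refine (finite_Iio _).isClosed_biUnion fun i _ => ?_
      simp only [setOf_forall]
      exact isClosed_iInter fun t => isClosed_iInter fun _ => isClosed_iInter fun _ =>
        isClosed_eq (continuous_apply _) continuous_const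

variable {P : Set ℤ}

lemma mu3 (h : Good μ P) {l : ℕ} (hl : 0 < l) : 3 ≤ μ l := by
  obtain ⟨i, hi, -⟩ := h l hl 0 0
  have := Nat.le_self_pow hl.ne' 3
  omega

lemma Lpos (h : Good μ P) (k : ℕ) : k < L μ k := by
  induction k with
  | zero => exact Nat.one_pos
  | succ k ih =>
    have := mu3 h (show 0 < L μ k by omega)
    simp only [L]
    nlinarith

lemma Lpos' (h : Good μ P) (k : ℕ) : (0 : ℤ) < L μ k := by
  have := Lpos h k
  omega

lemma gl (l : ℤ) (hl : 0 < l) (o : ℤ) (y : ℤ → ℤ → Fin 3) : ∃ z : ℤ → Fin 3,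
    ∀ q t, 0 ≤ t → t < l → z (o + q * l + t) = y q t := by
  refine ⟨fun t => y ((t - o) / l) ((t - o) % l), fun q t h0 h1 => ?_⟩
  have := (Int.ediv_emod_unique (a := o + q * l + t - o) (r := t) (q := q) hl).2 ⟨by ring, h0, h1⟩
  simp only [this.1, this.2]

lemma dec (l : ℤ) (hl : 0 < l) (o t : ℤ) : ∃ q r, 0 ≤ r ∧ r < l ∧ t = o + q * l + r :=
  ⟨(t - o) / l, (t - o) % l, Int.emod_nonneg _ hl.ne', Int.emod_lt_of_pos _ hl, by
    have := Int.ediv_mul_add_emod (t - o) l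
    linarith⟩

lemma glue (h : Good μ P) (k : ℕ) (F : Set ℤ) (f : ℤ → Fin 3) (o : ℤ)
    (ih : ∀ q : ℤ, ∃ x, Blk μ k x (o + q * L μ k) ∧
      ∀ t ∈ F, o + q * L μ k ≤ t → t < o + q * L μ k + L μ k → x t = f t) :
    ∃ z, (∀ q : ℤ, Blk μ k z (o + q * L μ k)) ∧ ∀ t ∈ F, z t = f t := by
  choose x hx using ih
  obtain ⟨z, hz⟩ := gl _ (Lpos' h k) o fun q t => x q (o + q * L μ k + t)
  refine ⟨z, fun q => loc k (hx q).1 (hz q), fun t ht => ?_⟩
  obtain ⟨q, r, h0, h1, rfl⟩ := dec _ (Lpos' h k) o t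
  rw [hz q r h0 h1]
  exact (hx q).2 _ ht (by linarith) (by linarith)

lemma fill (h : Good μ P) (k : ℕ) (x : ℤ → Fin 3) (o j : ℤ) (hx : ∀ q : ℤ, Blk μ k x (o + q * L μ k)) :
    ∃ z, Blk μ (k + 1) z o ∧ ∀ t, (t ∈ P ∨ (j ≤ t ∧ t < j + 3 * L μ k)) → z t = x t := by
  classical
  obtain ⟨i0, h1, h2⟩ := h (L μ k) (by have := Lpos h k; omega) o j
  have hw : ∀ r : Fin (3 ^ L μ k), ∃ y, Blk μ k y 0 ∧ ∀ y', Blk μ k y' 0 →
      finFunctionFinEquiv (fun t : Fin (L μ k) => y' t) = r → ∀ t : ℤ, 0 ≤ t → t < L μ k → y t = y' t := by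
    intro r
    by_cases hr : ∃ y, Blk μ k y 0 ∧ finFunctionFinEquiv (fun t : Fin (L μ k) => y t) = r
    · obtain ⟨y, hy, e⟩ := hr
      refine ⟨y, hy, fun y' _ e' t h0 h1 => ?_⟩
      lift t to ℕ using h0
      exact congrFun (finFunctionFinEquiv.injective (e.trans e'.symm)) ⟨t, by exact_mod_cast h1⟩
    · exact ⟨fun t => x (o + 0 * L μ k + t), loc k (hx 0) fun t _ _ => by simp,
        fun y' hy' e => absurd ⟨y', hy', e⟩ hr⟩
  choose w hw using hw
  obtain ⟨z, hz⟩ := gl _ (Lpos' h k) o fun q t =>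
    if hq : i0 ≤ q ∧ q < i0 + (3 ^ L μ k : ℕ) then w ⟨(q - i0).toNat, by omega⟩ t else x (o + q * L μ k + t)
  refine ⟨z, ⟨fun i _ => ?_, fun y hy => ?_⟩, fun t ht => ?_⟩
  · by_cases hq : (i0 : ℤ) ≤ i ∧ (i : ℤ) < i0 + (3 ^ L μ k : ℕ)
    · exact loc k (hw _).1 fun t h0 h1 => by rw [hz i t h0 h1, dif_pos hq, zero_add]
    · exact loc k (hx i) fun t h0 h1 => by rw [hz i t h0 h1, dif_neg hq]
  · set r := finFunctionFinEquiv (fun t : Fin (L μ k) => y t) with hr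
    have := r.2
    refine ⟨i0 + r, by omega, fun t h0 h1 => ?_⟩
    rw [hz _ t h0 h1, dif_pos ⟨by omega, by omega⟩]
    exact (hw _).2 y hy (Fin.ext (by rw [← hr]; simp)) t h0 h1
  · obtain ⟨q, r, h0, h1, rfl⟩ := dec _ (Lpos' h k) o t
    rw [hz q r h0 h1, dif_neg]
    rintro ⟨h3, h4⟩
    refine h2 _ ht ⟨?_, ?_⟩
    · nlinarith
    · nlinarith

lemma av (h : Good μ P) (f : ℤ → Fin 3) (k : ℕ) : ∀ o, ∃ x, Blk μ k x o ∧ ∀ t ∈ P, x t = f t := by
  induction k with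
  | zero => exact fun _ => ⟨f, trivial, fun _ _ => rfl⟩
  | succ k ih =>
    intro o
    obtain ⟨x, h1, h2⟩ := glue h k P f o fun q => (ih _).imp fun x hx => ⟨hx.1, fun t ht _ _ => hx.2 t ht⟩
    obtain ⟨z, h3, h4⟩ := fill h k x o 0 h1
    exact ⟨z, h3, fun t ht => (h4 t (Or.inl ht)).trans (h2 t ht)⟩

lemma Xk_succ (h : Good μ P) (k : ℕ) : Xk μ (k + 1) ⊆ Xk μ k := by
  rintro x ⟨o, ho⟩
  refine ⟨o, fun q => ?_⟩
  have := mu3 h (show 0 < L μ k by have := Lpos h k; omega)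
  obtain ⟨a, r, h0, h1, rfl⟩ := dec (μ (L μ k)) (by omega) 0 q
  lift r to ℕ using h0
  have h2 := (ho a).1 r (by exact_mod_cast h1)
  simp only [L] at h2
  push_cast at h2
  rwa [show o + (0 + a * μ (L μ k) + r) * L μ k = o + a * (μ (L μ k) * L μ k) + r * L μ k by ring]

lemma closed_Xk (h : Good μ P) (k : ℕ) : IsClosed (Xk μ k) := by
  have : Xk μ k = ⋃ o ∈ Ico (0 : ℤ) (L μ k), ⋂ q : ℤ, {x | Blk μ k x (o + q * L μ k)} := by
    ext x
    simp only [mem_iUnion, mem_iInter, mem_setOf_eq]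
    refine ⟨fun ⟨o, ho⟩ => ?_, fun ⟨o, _, ho⟩ => ⟨o, ho⟩⟩
    obtain ⟨a, r, h0, h1, rfl⟩ := dec _ (Lpos' h k) 0 o
    refine ⟨r, ⟨h0, h1⟩, fun q => ?_⟩
    have := ho (q - a)
    rwa [show 0 + a * L μ k + r + (q - a) * L μ k = r + q * L μ k by ring] at this
  rw [this]
  exact (finite_Ico _ _).isClosed_biUnion fun o _ => isClosed_iInter fun q => closed_Blk k _

lemma pt (h : Good μ P) (K : ℕ) (o : ℤ) (f : ℤ → Fin 3)
    (hf : ∀ q : ℤ, 0 ≤ q → q < 3 → Blk μ K f (o + q * L μ K)) :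
    ∃ z ∈ X μ, ∀ t, (t ∈ P ∨ (o ≤ t ∧ t < o + 3 * L μ K)) → z t = f t := by
  have key : ∀ d, ∃ z, (∀ q : ℤ, Blk μ (K + d) z (o + q * L μ (K + d))) ∧
      ∀ t ∈ {t | t ∈ P ∨ (o ≤ t ∧ t < o + 3 * L μ K)}, z t = f t := by
    intro d
    induction d with
    | zero =>
      refine glue h K _ f o fun q => ?_
      by_cases hq : 0 ≤ q ∧ q < 3
      · exact ⟨f, hf q hq.1 hq.2, fun _ _ _ _ => rfl⟩
      obtain ⟨x, h1, h2⟩ := av h f K (o + q * L μ K)
      refine ⟨x, h1, fun t ht h3 h4 => h2 t (ht.resolve_right fun h5 => hq ⟨?_, ?_⟩)⟩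
      · by_contra h6
        have := Lpos' h K
        have : q + 1 ≤ 0 := by omega
        nlinarith [h5.1]
      · by_contra h6
        have := Lpos' h K
        have : 3 ≤ q := by omega
        nlinarith [h5.2]
    | succ d ih =>
      obtain ⟨x, h1, h2⟩ := ih
      refine glue h (K + d + 1) _ f o fun q => ?_
      obtain ⟨z, h3, h4⟩ := fill h (K + d) x (o + q * L μ (K + d + 1)) o fun r => by
        have := h1 (q * μ (L μ (K + d)) + r)
        simp only [L]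
        push_cast
        rwa [show o + q * (μ (L μ (K + d)) * L μ (K + d)) + r * L μ (K + d) =
          o + (q * μ (L μ (K + d)) + r) * L μ (K + d) by ring]
      refine ⟨z, h3, fun t ht _ _ => (h4 t (ht.imp_right fun h5 => ⟨h5.1, ?_⟩)).trans (h2 t ht)⟩
      have h6 : L μ K ≤ L μ (K + d) := monotone_nat_of_le_succ (fun k => by
        have := mu3 h (show 0 < L μ k by have := Lpos h k; omega)
        simp only [L]
        nlinarith) (Nat.le_add_right K d)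
      omega
  have hcl : ∀ d, IsClosed (Xk μ (K + d) ∩
      {z | ∀ t ∈ {t | t ∈ P ∨ (o ≤ t ∧ t < o + 3 * L μ K)}, z t = f t}) := fun d => by
    refine (closed_Xk h _).inter ?_
    simp only [setOf_forall]
    exact isClosed_iInter fun t => isClosed_iInter fun _ => isClosed_eq (continuous_apply _) continuous_const
  obtain ⟨z, hz⟩ := IsCompact.nonempty_iInter_of_sequence_nonempty_isCompact_isClosed
    (fun d => Xk μ (K + d) ∩ {z | ∀ t ∈ {t | t ∈ P ∨ (o ≤ t ∧ t < o + 3 * L μ K)}, z t = f t})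
    (fun d => inter_subset_inter_left _ (Xk_succ h _))
    (fun d => (key d).imp fun z hz => ⟨⟨o, hz.1⟩, hz.2⟩) (hcl 0).isCompact hcl
  refine ⟨z, mem_iInter.2 fun k => ?_, (mem_iInter.1 hz 0).2⟩
  exact antitone_nat_of_succ_le (Xk_succ h) (Nat.le_add_left k K) (mem_iInter.1 hz k).1

lemma win (h : Good μ P) {x : ℤ → Fin 3} (hx : x ∈ X μ) (W : ℕ) : ∃ K o,
    (∀ q : ℤ, Blk μ K x (o + q * L μ K)) ∧ o ≤ -W ∧ W < o + 3 * L μ K := by
  obtain ⟨o, ho⟩ := mem_iInter.1 hx W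
  obtain ⟨a, r, h0, h1, e⟩ := dec _ (Lpos' h W) o 0
  have := Lpos h W
  refine ⟨W, o + (a - 1) * L μ W, fun q => ?_, by nlinarith, by nlinarith⟩
  have := ho (a - 1 + q)
  rwa [show o + (a - 1 + q) * L μ W = o + (a - 1) * L μ W + q * L μ W by ring] at this

lemma recur (h : Good μ P) {x y : ℤ → Fin 3} (hx : x ∈ X μ) (hy : y ∈ X μ) (W : ℕ) :
    ∃ n : ℤ, ∀ t : ℤ, t.natAbs ≤ W → y (t + n) = x t := by
  obtain ⟨K, o, h1, h2, h3⟩ := win h hx W
  obtain ⟨u, h4, h5⟩ := fill h K x o o h1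
  obtain ⟨o2, h6⟩ := mem_iInter.1 hy (K + 2)
  obtain ⟨i, -, h7⟩ := (h6 0).2 (fun t => u (o + t)) (loc _ h4 fun t _ _ => by simp)
  refine ⟨o2 + 0 * L μ (K + 2) + i * L μ (K + 1) - o, fun t ht => ?_⟩
  have h8 := mu3 h (show 0 < L μ K by have := Lpos h K; omega)
  have h9 : 3 * L μ K ≤ L μ (K + 1) := Nat.mul_le_mul_right _ h8
  rw [← h5 t (Or.inr ⟨by omega, by omega⟩), show t + (o2 + 0 * L μ (K + 2) + i * L μ (K + 1) - o) =
    o2 + 0 * L μ (K + 2) + i * L μ (K + 1) + (t - o) by ring, h7 (t - o) (by omega) (by omega)]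
  simp

lemma shift_mem (n : ℤ) {x : ℤ → Fin 3} (hx : x ∈ X μ) : (fun t => x (t + n)) ∈ X μ := by
  refine mem_iInter.2 fun k => ?_
  obtain ⟨o, ho⟩ := mem_iInter.1 hx k
  exact ⟨o - n, fun q => loc k (ho q) fun t _ _ => congrArg x (by ring)⟩

lemma cev (t : ℤ) : Continuous fun x : X μ => x.1 t := (continuous_apply t).comp continuous_subtype_val

variable (μ) in
def sh (n : ℤ) : X μ ≃ₜ X μ where
  toFun x := ⟨fun t => x.1 (t + n), shift_mem n x.2⟩
  invFun x := ⟨fun t => x.1 (t + -n), shift_mem _ x.2⟩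
  left_inv x := Subtype.ext (funext fun t => by simp)
  right_inv x := Subtype.ext (funext fun t => by simp)
  continuous_toFun := (continuous_pi fun _ => cev _).subtype_mk _
  continuous_invFun := (continuous_pi fun _ => cev _).subtype_mk _

lemma sh_zpow (n : ℤ) (x : X μ) (t : ℤ) : ((sh μ 1 ^ n) x).1 t = x.1 (t + n) := by
  induction n using Int.induction_on generalizing x t with
  | zero => simp
  | succ n ih =>
    rw [zpow_add_one, Homeomorph.mul_apply, ih]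
    exact congrArg x.1 (by ring)
  | pred n ih =>
    rw [zpow_sub_one, Homeomorph.mul_apply, ih]
    exact congrArg x.1 (by ring)

lemma cyl {U : Set (X μ)} (hU : IsOpen U) {x : X μ} (hx : x ∈ U) :
    ∃ W : ℕ, ∀ y : X μ, (∀ t : ℤ, t.natAbs ≤ W → y.1 t = x.1 t) → y ∈ U := by
  obtain ⟨V, hV, rfl⟩ := isOpen_induced_iff.1 hU
  obtain ⟨I, u, h1, h2⟩ := isOpen_pi_iff.1 hV x.1 hx
  refine ⟨I.sup Int.natAbs, fun y hy => h2 fun t ht => ?_⟩
  rw [hy t (Finset.le_sup (f := Int.natAbs) ht)]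
  exact (h1 t ht).2

/-- Not piecewise syndetic, for one gap length. -/
def Sp (A : Set ℤ) (G : ℕ) : Prop := ∃ R : ℕ, ∀ a : ℤ, ∃ b, a ≤ b ∧ b ≤ a + R ∧ ∀ t ∈ A, ¬ (b ≤ t ∧ t < b + G)

lemma good_of (h : ∀ G, Sp P G) : ∃ μ, Good μ P := by
  choose R hR using h
  refine ⟨fun l => R ((2 * 3 ^ l + 5) * l) + 2 * 3 ^ l + 5, fun l hl o j => ?_⟩
  obtain ⟨b, h1, h2, h3⟩ := hR ((2 * 3 ^ l + 5) * l) o
  beta_reduce
  generalize R ((2 * 3 ^ l + 5) * l) = r at *
  generalize 3 ^ l = s at *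
  obtain ⟨a, c, h4, h5, rfl⟩ := dec l (by omega) o b
  have h6 : 0 ≤ a := by nlinarith
  have h7 : a ≤ r := by nlinarith
  lift a to ℕ using h6
  push_cast at h3
  by_cases hj : j < o + (a + 1 + s) * l
  · refine ⟨a + 4 + s, by omega, ?_⟩
    rintro t (ht | ht) ⟨h8, h9⟩
    · push_cast at h8 h9
      exact h3 t ht ⟨by nlinarith, by nlinarith⟩
    · push_cast at h8 h9
      nlinarith [ht.2]
  · refine ⟨a + 1, by omega, ?_⟩
    rintro t (ht | ht) ⟨h8, h9⟩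
    · push_cast at h8 h9
      exact h3 t ht ⟨by nlinarith, by nlinarith⟩
    · push_cast at h8 h9
      nlinarith [ht.1]

lemma conj_zpow {A B : Type} [TopologicalSpace A] [TopologicalSpace B] (α : A ≃ₜ B) (T : A ≃ₜ A) (n : ℤ)
    (z : B) : (((α.symm.trans T).trans α) ^ n) z = α ((T ^ n) (α.symm z)) := by
  induction n using Int.induction_on generalizing z with
  | zero => simp
  | succ n ih =>
    rw [zpow_add_one, zpow_add_one, Homeomorph.mul_apply, ih, Homeomorph.mul_apply]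
    simp
  | pred n ih =>
    rw [zpow_sub_one, zpow_sub_one, Homeomorph.mul_apply, ih, Homeomorph.mul_apply]
    simp [Homeomorph.inv_apply]

theorem side (p : ℤ → ℤ) (h1 : ∀ G, Sp (range p) G) (h2 : ∀ t, {m | p m = t}.Finite) :
    ∃ (T : (ℕ → Bool) ≃ₜ (ℕ → Bool)) (c : (ℕ → Bool) → Fin 3), Continuous c ∧
      (∀ z, Dense (range fun n : ℤ => (T ^ n) z)) ∧
      ∃ N : ℕ, ∀ z (m : ℤ), N ≤ m.natAbs → c ((T ^ p m) z) = c z → z (2 * m.natAbs + 1) = true := by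
  classical
  obtain ⟨μ, h⟩ := good_of h1
  haveI : CompactSpace (X μ) := isCompact_iff_compactSpace.1 (isClosed_iInter (closed_Xk h)).isCompact
  have hout : ∀ a b : ℤ, ∃ N : ℕ, ∀ m : ℤ, N ≤ m.natAbs → ¬ (a ≤ p m ∧ p m < b) := by
    intro a b
    obtain ⟨N, hN⟩ := (((finite_Ico a b).biUnion fun t _ => h2 t).image Int.natAbs).bddAbove
    refine ⟨N + 1, fun m hm hh => ?_⟩
    have := hN ⟨m, mem_biUnion (show p m ∈ Ico a b from hh) rfl, rfl⟩
    omega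
  let G : ℕ → Set (X μ) := fun n => {x | ∀ m : ℤ, n ≤ m.natAbs → x.1 (p m) ≠ x.1 0}
  have hden : ∀ U : Set (X μ), IsClopen U → U.Nonempty → ∃ n, (U ∩ G n).Nonempty := by
    rintro U hU ⟨x, hx⟩
    obtain ⟨W, hW⟩ := cyl hU.isOpen hx
    obtain ⟨K, o, h3, h4, h5⟩ := win h x.2 W
    obtain ⟨z, hz, h6⟩ := pt h K o (fun t => if o ≤ t ∧ t < o + 3 * L μ K then x.1 t else x.1 0 + 1)
      fun q h7 h8 => loc K (h3 q) fun t h9 h10 => if_pos ⟨by nlinarith, by nlinarith⟩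
    obtain ⟨N, hN⟩ := hout o (o + 3 * L μ K)
    have h7 : ∀ t : ℤ, t.natAbs ≤ W → z t = x.1 t := fun t ht => by
      rw [h6 t (Or.inr ⟨by omega, by omega⟩), if_pos ⟨by omega, by omega⟩]
    refine ⟨N, ⟨z, hz⟩, hW _ h7, fun m hm => ?_⟩
    show z (p m) ≠ z 0
    rw [h6 _ (Or.inl ⟨m, rfl⟩), if_neg (hN m hm), h7 0 (by simp)]
    simp
  have hper : ∀ n (U : Set (X μ)), IsClopen U → ∀ x ∈ U ∩ G n, ∃ y ∈ U ∩ G n, y ≠ x := by
    intro n U hU x hx
    obtain ⟨W, hW⟩ := cyl hU.isOpen hx.1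
    obtain ⟨K, o, h3, h4, h5⟩ := win h x.2 W
    obtain ⟨N, hN⟩ := hout o (o + 3 * L μ K)
    obtain ⟨c, hc1, hc2⟩ : ∃ c : Fin 3, c ≠ x.1 0 ∧ c ≠ x.1 (p N) := by
      generalize x.1 0 = a, x.1 (p N) = b
      revert a b; decide
    obtain ⟨z, hz, h6⟩ := pt h K o (Function.update x.1 (p N) c)
      fun q h7 h8 => loc K (h3 q) fun t h9 h10 => Function.update_of_ne (fun e =>
        hN N (by simp) (by rw [← e]; exact ⟨by nlinarith, by nlinarith⟩)) _ _
    have h7 : ∀ t : ℤ, t.natAbs ≤ W → z t = x.1 t := fun t ht => by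
      rw [h6 t (Or.inr ⟨by omega, by omega⟩), Function.update_of_ne]
      intro e
      exact hN N (by simp) (by omega)
    refine ⟨⟨z, hz⟩, ⟨hW _ h7, fun m hm => ?_⟩, fun e => hc2 ?_⟩
    · show z (p m) ≠ z 0
      rw [h6 _ (Or.inl ⟨m, rfl⟩), h7 0 (by simp)]
      by_cases e : p m = p N
      · rwa [e, Function.update_self]
      · rw [Function.update_of_ne e]
        exact hx.2 m hm
    · rw [← e]
      show c = z (p N)
      rw [h6 _ (Or.inl ⟨N, rfl⟩), Function.update_self]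
  obtain ⟨x0, hx0, -⟩ := pt h 0 0 0 fun _ _ _ => trivial
  obtain ⟨N, hN⟩ := hden univ isClopen_univ ⟨⟨x0, hx0⟩, trivial⟩
  have hGm : Monotone G := fun a b hab x hx m hm => hx m (hab.trans hm)
  obtain ⟨α, hα⟩ := Rec2.coding (fun n => G (max (n / 2) N))
    (fun n => {x | n % 2 = 1 ∧ N ≤ n / 2 ∧ (x.1 (p (n / 2 : ℕ)) = x.1 0 ∨ x.1 (p (-(n / 2 : ℕ))) = x.1 0)})
    (fun a b hab => hGm (max_le_max (Nat.div_le_div_right hab) le_rfl))
    (hN.mono fun x hx => hGm (le_max_right _ _) hx.2)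
    (fun n => isClosed_const.inter (isClosed_const.inter (IsClosed.union (isClosed_eq (cev _) (cev _))
      (isClosed_eq (cev _) (cev _)))))
    (fun n => disjoint_left.2 fun x hx hx' => hx'.2.2.elim (hx _ (by have := hx'.2.1; omega))
      (hx _ (by have := hx'.2.1; omega)))
    (fun n => eq_empty_of_forall_notMem fun x hx => by have := hx.1; omega)
    (fun U hU hne => (hden U hU hne).elim fun n hn => ⟨2 * n, hn.mono (inter_subset_inter_right _ (hGm (by omega)))⟩)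
    (fun n U hU x hx => (hper _ U hU x hx).imp fun y hy => ⟨⟨hy.1.1, hGm (by omega) hy.1.2⟩, hy.2⟩)
  refine ⟨(α.symm.trans (sh μ 1)).trans α, fun z => (α.symm z).1 0, (cev 0).comp α.symm.continuous, fun z => ?_, N,
    fun z m hm hc => ?_⟩
  · simp only [conj_zpow]
    refine α.surjective.denseRange.comp (f := fun n : ℤ => (sh μ 1 ^ n) (α.symm z)) ?_ α.continuous
    refine dense_iff_inter_open.2 fun U hU ⟨x, hx⟩ => ?_
    obtain ⟨W, hW⟩ := cyl hU hx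
    obtain ⟨n, hn⟩ := recur h x.2 (α.symm z).2 W
    exact ⟨_, hW _ fun t ht => (sh_zpow n _ t).trans (hn t ht), n, rfl⟩
  · simp only [conj_zpow, Homeomorph.symm_apply_apply, sh_zpow, zero_add] at hc
    rw [← α.apply_symm_apply z]
    have e : (2 * m.natAbs + 1) / 2 = m.natAbs := by omega
    refine hα _ _ ⟨by omega, by omega, ?_⟩
    rw [e]
    rcases Int.natAbs_eq m with h3 | h3
    · exact Or.inl (h3 ▸ hc)
    · exact Or.inr (h3 ▸ hc)

end Pool.Agent.H18.Rec3
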