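import Mathlib
import Pool.Agent.H18.Rec3

set_option autoImplicit false

namespace Pool.Agent.H18.Rec4

open Set Filter Topology Relation

abbrev Sq : Type := ℤ → Fin 3

abbrev Rel3 : Type := Sq → ℤ → ℤ → Prop

def Cat (B : Rel3) (x : Sq) : ℤ → ℤ → Prop := ReflTransGen (B x)

def Occ (x : Sq) (s : ℤ) (z : Sq) (n : ℤ) : Prop := ∀ t, 0 ≤ t → t < n → x (s + t) = z t

def pp (L : ℕ) : ℕ := 2 * L ^ 2 + 4 * L + 3

def gg (L : ℕ) : ℕ := 4 * pp L * (pp L * 3 ^ pp L)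

def mm (L : ℕ) : ℕ := 4 * 3 ^ pp L

def Cl (L : ℕ) (B : Rel3) (x : Sq) (s : ℤ) : Prop := ∀ z, Cat B z 0 (pp L) → ∀ r : ℤ,
  ∃ u, s ≤ u ∧ u + pp L ≤ s + gg L ∧ (pp L : ℤ) ∣ u - r ∧ Occ x u z (pp L)

def Per (L : ℕ) (x : Sq) (s : ℤ) (z : Sq) : Prop :=
  ∀ u, s + 5 * gg L ≤ u → u + pp L ≤ s + 16 * gg L → (pp L : ℤ) ∣ u - s → Occ x u z (pp L)

def Str (L : ℕ) (B : Rel3) (x : Sq) (s : ℤ) : Prop := Cat B x s (s + 16 * gg L * mm L) ∧
  (∀ j : ℤ, 0 ≤ j → j < mm L → Cl L B x (s + 16 * gg L * j) ∧ Cl L B x (s + 16 * gg L * j + 4 * gg L)) ∧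
  ∀ z, Cat B z 0 (pp L) → ∃ j : ℤ, 0 ≤ j ∧ j + 4 ≤ mm L ∧
    ∀ i : ℤ, 0 ≤ i → i < 4 → Per L x (s + 16 * gg L * (j + i)) z

def Next (L : ℕ) (B : Rel3) : Rel3 := fun x a b =>
  ∃ s, (s = a + pp L ∨ s = a + pp L + 1) ∧ b = s + 16 * gg L * mm L ∧ Cat B x a s ∧ Str L B x s

def nL (L : ℕ) : ℕ := pp L + 16 * gg L * mm L

structure Ok (L : ℕ) (B : Rel3) : Prop where
  pos : 0 < L
  len : ∀ {x a b}, B x a b → b = a + L ∨ b = a + L + 1
  loc : ∀ {x a b} (x' : Sq) (d : ℤ) (c : Fin 3), B x a b → (∀ t, a ≤ t → t < b → x' (t + d) = x t + c) →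
    B x' (a + d) (b + d)
  ex0 : ∃ x, B x 0 L
  ex1 : ∃ x, B x 0 (L + 1)

variable {L : ℕ} {B : Rel3}

lemma Ok.le (h : Ok L B) {x : Sq} {a b : ℤ} (hc : Cat B x a b) : a ≤ b := by
  induction hc with
  | refl => exact le_rfl
  | tail _ h2 ih => have := h.len h2; omega

lemma Ok.cloc (h : Ok L B) {x : Sq} {a b : ℤ} (x' : Sq) (d : ℤ) (c : Fin 3) (hc : Cat B x a b)
    (he : ∀ t, a ≤ t → t < b → x' (t + d) = x t + c) : Cat B x' (a + d) (b + d) := by
  induction hc with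
  | refl => exact ReflTransGen.refl
  | tail h1 h2 ih =>
    have h3 := h.len h2
    have h4 := h.le h1
    exact (ih fun t h5 h6 => he t h5 (by omega)).tail (h.loc x' d c h2 fun t h5 h6 => he t (by omega) h6)

lemma Ok.cl0 (h : Ok L B) {x : Sq} {a b : ℤ} (x' : Sq) (c : Fin 3) (hc : Cat B x a b)
    (he : ∀ t, a ≤ t → t < b → x' t = x t + c) : Cat B x' a b := by
  simpa using h.cloc x' 0 c hc (by simpa using he)

lemma Ok.cl1 (h : Ok L B) {x : Sq} {a b : ℤ} (x' : Sq) (hc : Cat B x a b)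
    (he : ∀ t, a ≤ t → t < b → x' t = x t) : Cat B x' a b := h.cl0 x' 0 hc (by simpa using he)

lemma Ok.occ (h : Ok L B) {x z : Sq} {s n : ℤ} (hz : Cat B z 0 n) (ho : Occ x s z n) : Cat B x s (s + n) := by
  have := h.cloc x s 0 hz fun t h1 h2 => by rw [add_comm t, ho t h1 h2, add_zero]
  rwa [zero_add, add_comm n] at this

lemma Ok.app (h : Ok L B) {n m : ℤ} (h1 : ∃ x, Cat B x 0 n) (h2 : ∃ y, Cat B y 0 m) :
    ∃ w, Cat B w 0 (n + m) := by
  obtain ⟨x, hx⟩ := h1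
  obtain ⟨y, hy⟩ := h2
  refine ⟨fun t => if t < n then x t else y (t - n), (h.cl1 _ hx fun t _ h3 => if_pos h3).trans
    (h.occ hy fun t h3 _ => ?_)⟩
  rw [if_neg (by omega), add_sub_cancel_left]

lemma Ok.fil (h : Ok L B) (a b : ℤ) (hab : a + L ^ 2 ≤ b) : ∃ w, Cat B w a b := by
  have h1 : ∀ i j : ℕ, ∃ w, Cat B w 0 (i * L + j * (L + 1)) := by
    intro i j
    induction i with
    | zero =>
      induction j with
      | zero => exact ⟨0, by simp only [Nat.cast_zero, zero_mul, add_zero]; exact ReflTransGen.refl⟩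
      | succ j ih =>
        have := h.app ih (h.ex1.imp fun _ => ReflTransGen.single)
        rwa [show ((0 : ℕ) : ℤ) * L + j * (L + 1) + (L + 1) = (0 : ℕ) * L + (j + 1 : ℕ) * (L + 1) by
          push_cast; ring] at this
    | succ i ih =>
      have := h.app ih (h.ex0.imp fun _ => ReflTransGen.single)
      rwa [show (i : ℤ) * L + j * (L + 1) + L = (i + 1 : ℕ) * L + j * (L + 1) by push_cast; ring] at this
  have hL := h.pos
  obtain ⟨q, r, h0, h2, rfl⟩ := Rec3.dec L (by omega) a b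
  have h3 : r ≤ q := by nlinarith
  obtain ⟨w, hw⟩ := h1 (q - r).toNat r.toNat
  rw [Int.toNat_of_nonneg h0, Int.toNat_of_nonneg (by omega)] at hw
  have := h.occ (x := fun t => w (t - a)) (s := a) hw fun t _ _ => by simp
  exact ⟨_, by rwa [show a + ((q - r) * L + r * (L + 1)) = a + q * L + r by ring] at this⟩

lemma Ok.pad (h : Ok L B) {y : Sq} {a b : ℤ} (A C : ℤ) (hy : Cat B y a b) (h1 : A + L ^ 2 ≤ a)
    (h2 : b + L ^ 2 ≤ C) : ∃ w, Cat B w A C ∧ ∀ t, a ≤ t → t < b → w t = y t := by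
  obtain ⟨u, hu⟩ := h.fil A a h1
  obtain ⟨v, hv⟩ := h.fil b C h2
  have := h.le hy
  refine ⟨fun t => if t < a then u t else if t < b then y t else v t, ((h.cl1 _ hu fun t _ h3 => if_pos h3).trans
    (h.cl1 _ hy fun t _ _ => ?_)).trans (h.cl1 _ hv fun t _ _ => ?_), fun t _ _ => ?_⟩
  · rw [if_neg (by omega), if_pos (by omega)]
  · rw [if_neg (by omega), if_neg (by omega)]
  · simp only
    rw [if_neg (by omega), if_pos (by omega)]

lemma cat_rep {x : Sq} {o l : ℤ} (n : ℕ) (h : ∀ i : ℤ, 0 ≤ i → i < n → Cat B x (o + i * l) (o + i * l + l)) :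
    Cat B x o (o + n * l) := by
  induction n with
  | zero => simp only [Nat.cast_zero, zero_mul, add_zero]; exact ReflTransGen.refl
  | succ n ih =>
    have := (ih fun i h1 h2 => h i h1 (by omega)).trans (h n (by omega) (by omega))
    rwa [show o + n * l + l = o + (n + 1 : ℕ) * l by push_cast; ring] at this

lemma pp_pos (L : ℕ) : (0 : ℤ) < pp L := by unfold pp; positivity

lemma pp_sq (L : ℕ) : (pp L : ℤ) = 2 * L ^ 2 + 4 * L + 3 := by unfold pp; push_cast; ring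

lemma pp_le (L : ℕ) : 4 * (pp L : ℤ) ≤ gg L := by
  have : 0 < pp L * 3 ^ pp L := by unfold pp; positivity
  unfold gg
  exact_mod_cast Nat.le_mul_of_pos_right _ this

lemma pp_dvd (L : ℕ) : (pp L : ℤ) ∣ gg L := ⟨4 * (pp L * 3 ^ pp L), by unfold gg; push_cast; ring⟩

lemma Ok.reps (h : Ok L B) : ∃ f : ℤ → Sq, (∀ i, Cat B (f i) 0 (pp L)) ∧ ∀ z, Cat B z 0 (pp L) →
    ∃ i : ℤ, 0 ≤ i ∧ i < (3 ^ pp L : ℕ) ∧ ∀ t : ℤ, 0 ≤ t → t < pp L → f i t = z t := by
  have hw : ∀ r : ℤ, ∃ y, Cat B y 0 (pp L) ∧ ∀ y', Cat B y' 0 (pp L) →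
      ((finFunctionFinEquiv (fun t : Fin (pp L) => y' t) : ℕ) : ℤ) = r →
        ∀ t : ℤ, 0 ≤ t → t < pp L → y t = y' t := by
    intro r
    by_cases hr : ∃ y, Cat B y 0 (pp L) ∧ ((finFunctionFinEquiv (fun t : Fin (pp L) => y t) : ℕ) : ℤ) = r
    · obtain ⟨y, hy, e⟩ := hr
      refine ⟨y, hy, fun y' _ e' t h0 h1 => ?_⟩
      lift t to ℕ using h0
      exact congrFun (finFunctionFinEquiv.injective (Fin.ext (by exact_mod_cast e.trans e'.symm)))
        ⟨t, by exact_mod_cast h1⟩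
    · obtain ⟨w, hw⟩ := h.fil 0 (pp L) (by rw [pp_sq]; nlinarith)
      exact ⟨w, hw, fun y' hy' e => absurd ⟨y', hy', e⟩ hr⟩
  choose f hf using hw
  exact ⟨f, fun i => (hf i).1, fun z hz => ⟨_, by positivity, by exact_mod_cast Fin.is_lt _, (hf _).2 z hz rfl⟩⟩

lemma Ok.clus (h : Ok L B) : ∃ w, Cat B w 0 (gg L) ∧ Cl L B w 0 := by
  obtain ⟨f, hf, hf'⟩ := h.reps
  have hp := pp_pos L
  have hq := pp_sq L
  have h1 : ∀ i : ℤ, ∃ w, Cat B w 0 (4 * pp L) ∧ Occ w (pp L + i % pp L) (f (i / pp L)) (pp L) := by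
    intro i
    have h2 := Int.emod_nonneg i hp.ne'
    have h3 := Int.emod_lt_of_pos i hp
    obtain ⟨w, h4, h5⟩ := h.pad 0 (4 * pp L) (h.occ (x := fun t => f (i / pp L) (t - (pp L + i % pp L)))
      (s := pp L + i % pp L) (hf (i / pp L)) fun t _ _ => by simp) (by nlinarith) (by nlinarith)
    exact ⟨w, h4, fun t h6 h7 => by rw [h5 _ (by omega) (by omega)]; simp⟩
  choose y hy using h1
  obtain ⟨w, hw⟩ := Rec3.gl (4 * pp L) (by omega) 0 y
  refine ⟨w, ?_, fun z hz r => ?_⟩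
  · have := cat_rep (x := w) (o := 0) (l := 4 * pp L) (pp L * 3 ^ pp L) fun i _ _ => h.occ (hy i).1 (hw i)
    rwa [show (0 : ℤ) + (pp L * 3 ^ pp L : ℕ) * (4 * pp L) = gg L by unfold gg; push_cast; ring] at this
  · obtain ⟨i, h2, h3, h4⟩ := hf' z hz
    obtain ⟨q, ρ, h5, h6, rfl⟩ := Rec3.dec _ hp 0 r
    have h7 := (Int.ediv_emod_unique (a := ρ + pp L * i) (r := ρ) (q := i) hp).2 ⟨rfl, h5, h6⟩
    have h8 := (hy (ρ + pp L * i)).2
    rw [h7.1, h7.2] at h8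
    refine ⟨0 + (ρ + pp L * i) * (4 * pp L) + (pp L + ρ), by positivity, ?_,
      ⟨4 * (ρ + pp L * i) + 1 - q, by ring⟩, fun t h9 h10 => ?_⟩
    · have : (ρ + pp L * i + 1) * (4 * pp L) ≤ (pp L * (3 ^ pp L : ℕ)) * (4 * pp L) :=
        mul_le_mul_of_nonneg_right (by nlinarith) (by omega)
      have e : (gg L : ℤ) = (pp L * (3 ^ pp L : ℕ)) * (4 * pp L) := by unfold gg; push_cast; ring
      nlinarith
    · rw [add_assoc _ _ t, hw _ _ (by omega) (by omega), h8 t h9 h10, h4 t h9 h10]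

lemma Ok.clloc (h : Ok L B) {x : Sq} {s : ℤ} (x' : Sq) (d : ℤ) (c : Fin 3) (hc : Cl L B x s)
    (he : ∀ t, s ≤ t → t < s + gg L → x' (t + d) = x t + c) : Cl L B x' (s + d) := by
  intro z hz r
  obtain ⟨u, h1, h2, h3, h4⟩ := hc (fun t => z t + -c) (h.cl0 _ (-c) hz fun _ _ _ => rfl) (r - d)
  refine ⟨u + d, by omega, by omega, by rwa [show u + d - r = u - (r - d) by ring], fun t h5 h6 => ?_⟩
  rw [add_right_comm, he _ (by omega) (by omega), h4 t h5 h6]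
  simp

lemma perloc {x z z' : Sq} {s : ℤ} (x' : Sq) (d : ℤ) (c : Fin 3) (hc : Per L x s z)
    (he : ∀ t, s ≤ t → t < s + 16 * gg L → x' (t + d) = x t + c)
    (hz : ∀ t : ℤ, 0 ≤ t → t < pp L → z t + c = z' t) : Per L x' (s + d) z' := by
  intro u h1 h2 h3 t h4 h5
  rw [show u + t = u - d + t + d by ring, he _ (by omega) (by omega),
    hc (u - d) (by omega) (by omega) (by rwa [show u - d - s = u - (s + d) by ring]) t h4 h5, hz t h4 h5]

lemma Ok.strloc (h : Ok L B) {x : Sq} {s : ℤ} (x' : Sq) (d : ℤ) (c : Fin 3) (hc : Str L B x s)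
    (he : ∀ t, s ≤ t → t < s + 16 * gg L * mm L → x' (t + d) = x t + c) : Str L B x' (s + d) := by
  have hg : (0 : ℤ) ≤ gg L := by positivity
  refine ⟨by rw [add_right_comm]; exact h.cloc x' d c hc.1 he, fun j h1 h2 => ⟨?_, ?_⟩, fun z hz => ?_⟩
  · rw [add_right_comm]
    exact h.clloc x' d c (hc.2.1 j h1 h2).1 fun t h3 h4 => he t (by nlinarith) (by nlinarith)
  · rw [add_right_comm s, add_right_comm _ d]
    exact h.clloc x' d c (hc.2.1 j h1 h2).2 fun t h3 h4 => he t (by nlinarith) (by nlinarith)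
  · obtain ⟨j, h1, h2, h3⟩ := hc.2.2 (fun t => z t + -c) (h.cl0 _ (-c) hz fun _ _ _ => rfl)
    refine ⟨j, h1, h2, fun i h4 h5 => ?_⟩
    rw [add_right_comm]
    exact perloc x' d c (h3 i h4 h5) (fun t h6 h7 => he t (by nlinarith) (by nlinarith)) fun t _ _ => by simp

lemma Ok.blk (h : Ok L B) (z : Sq) (hz : Cat B z 0 (pp L)) :
    ∃ w, Cat B w 0 (16 * gg L) ∧ Cl L B w 0 ∧ Cl L B w (4 * gg L) ∧ Per L w 0 z := by
  obtain ⟨C, h1, h2⟩ := h.clus
  have hp := pp_pos L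
  have hg := pp_le L
  obtain ⟨N, hN⟩ := pp_dvd L
  have hN0 : 0 ≤ N := by nlinarith
  lift N to ℕ using hN0
  have h3 : ∀ u, (pp L : ℤ) ∣ u → Occ (fun t => z (t % pp L)) u z (pp L) := by
    rintro _ ⟨q, rfl⟩ t h4 h5
    simp only
    rw [Int.mul_add_emod_self_left, Int.emod_eq_of_lt h4 h5]
  have h4 : ∀ i n : ℕ, Cat B (fun t => z (t % pp L)) (i * gg L) ((i + n) * gg L) := fun i n => by
    have := cat_rep (o := i * gg L) (n * N) fun j _ _ => h.occ hz (h3 (i * gg L + j * pp L)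
      (((pp_dvd L).mul_left _).add (dvd_mul_left _ _)))
    rwa [show (i : ℤ) * gg L + (n * N : ℕ) * pp L = (i + n) * gg L by rw [hN]; push_cast; ring] at this
  let w : Sq := fun t => if t < gg L then C t else if 4 * gg L ≤ t ∧ t < 5 * gg L then C (t - 4 * gg L)
    else z (t % pp L)
  have h5 : ∀ t : ℤ, 0 ≤ t → t < gg L → w (t + 4 * gg L) = C t + 0 := fun t _ _ => by
    simp only [w]
    rw [if_neg (by omega), if_pos (by omega)]
    simp
  refine ⟨w, ?_, ?_, ?_, fun u h6 h7 h8 t h9 h10 => ?_⟩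
  · have a1 : Cat B w 0 (gg L) := h.cl1 w h1 fun t _ h6 => if_pos h6
    have a2 := h.cl1 w (h4 1 3) fun t _ _ => by simp only [w]; rw [if_neg (by omega), if_neg (by omega)]
    have a3 := h.cloc w (4 * gg L) 0 h1 h5
    have a4 := h.cl1 w (h4 5 11) fun t _ _ => by simp only [w]; rw [if_neg (by omega), if_neg (by omega)]
    norm_num at a2 a3 a4
    rw [show (gg L : ℤ) + 4 * gg L = 5 * gg L by ring] at a3
    exact ((a1.trans a2).trans a3).trans a4
  · simpa using h.clloc w 0 0 h2 fun t _ h6 => by simp only [w, add_zero]; rw [if_pos (by omega)]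
  · simpa using h.clloc w (4 * gg L) 0 h2 fun t h6 h7 => h5 t h6 (by omega)
  · simp only [w]
    rw [if_neg (by omega), if_neg (by omega)]
    exact h3 u (by simpa using h8) t h9 h10

lemma Ok.str (h : Ok L B) : ∃ w, Str L B w 0 := by
  obtain ⟨f, hf, hf'⟩ := h.reps
  choose y hy using fun i : ℤ => h.blk (f (i / 4)) (hf _)
  have hp := pp_pos L
  have hg := pp_le L
  obtain ⟨w, hw⟩ := Rec3.gl (16 * gg L) (by omega) 0 y
  have hw' : ∀ j t : ℤ, 0 ≤ t → t < 16 * gg L → w (t + 16 * gg L * j) = y j t + 0 := fun j t h1 h2 => by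
    rw [add_zero, ← hw j t h1 h2]
    congr 1; ring
  refine ⟨w, ?_, fun j _ _ => ⟨?_, ?_⟩, fun z hz => ?_⟩
  · have := cat_rep (x := w) (o := 0) (l := 16 * gg L) (mm L) fun i _ _ => h.occ (hy i).1 (hw i)
    rwa [mul_comm] at this
  · exact h.clloc w _ 0 (hy j).2.1 fun t _ _ => hw' j t (by omega) (by omega)
  · rw [zero_add, add_comm]
    exact h.clloc w _ 0 (hy j).2.2.1 fun t _ _ => hw' j t (by omega) (by omega)
  · obtain ⟨i, h1, h2, h3⟩ := hf' z hz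
    refine ⟨4 * i, by omega, by unfold mm; omega, fun k h4 h5 => perloc w _ 0 (hy (4 * i + k)).2.2.2
      (fun t _ _ => hw' _ t (by omega) (by omega)) fun t h6 h7 => ?_⟩
    rw [show (4 * i + k) / 4 = i by omega, add_zero, h3 t h6 h7]

lemma Ok.top (h : Ok L B) (s : ℤ) : ∃ w : Sq, ∀ (y : Sq) (c : Fin 3) (a : ℤ), (s = a + pp L ∨ s = a + pp L + 1) →
    Cat B y a s → (∀ t, s ≤ t → t < s + 16 * gg L * mm L → y t = w t + c) →
      Next L B y a (s + 16 * gg L * mm L) := by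
  obtain ⟨w, hw⟩ := h.str
  refine ⟨fun t => w (t - s), fun y c a h1 h2 h3 => ⟨s, h1, rfl, h2, ?_⟩⟩
  simpa using h.strloc y s c hw fun t _ _ => by rw [h3 _ (by omega) (by omega)]; simp

lemma Ok.next (h : Ok L B) : Ok (nL L) (Next L B) := by
  have hp := pp_sq L
  have ex : ∀ s : ℤ, (s = 0 + pp L ∨ s = 0 + pp L + 1) → ∃ x, Next L B x 0 (s + 16 * gg L * mm L) := fun s hs => by
    obtain ⟨w, hw⟩ := h.top s
    obtain ⟨u, hu⟩ := h.fil 0 s (by rcases hs with rfl | rfl <;> nlinarith)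
    exact ⟨fun t => if t < s then u t else w t, hw _ 0 0 hs (h.cl1 _ hu fun t _ h1 => if_pos h1)
      fun t _ _ => by simp only [add_zero]; rw [if_neg (by omega)]⟩
  refine ⟨by unfold nL pp; omega, ?_, ?_, ?_, ?_⟩
  · rintro x a b ⟨s, h1, rfl, -⟩
    unfold nL
    push_cast
    omega
  · rintro x a b x' d c ⟨s, h1, rfl, h2, h3⟩ he
    have := h.le h3.1
    exact ⟨s + d, by omega, by ring, h.cloc x' d c h2 fun t h4 _ => he t h4 (by omega),
      h.strloc x' d c h3 fun t _ h4 => he t (by omega) h4⟩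
  · simpa [nL] using ex _ (Or.inl rfl)
  · have := ex _ (Or.inr rfl)
    rwa [show 0 + (pp L : ℤ) + 1 + 16 * gg L * mm L = nL L + 1 by unfold nL; push_cast; ring] at this

lemma cat_next {x : Sq} {a b : ℤ} (h : Cat (Next L B) x a b) : Cat B x a b := by
  induction h with
  | refl => exact ReflTransGen.refl
  | tail _ h2 ih =>
    obtain ⟨s, -, rfl, h3, h4⟩ := h2
    exact (ih.trans h3).trans h4.1

lemma cut {x : Sq} {a b t : ℤ} (h : Cat B x a b) (h1 : a ≤ t) (h2 : t < b) :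
    ∃ c d, c ≤ t ∧ t < d ∧ Cat B x a c ∧ B x c d ∧ Cat B x d b := by
  induction h with
  | refl => omega
  | @tail c d h3 h4 ih =>
    by_cases h5 : t < c
    · obtain ⟨c', d', h6, h7, h8, h9, h10⟩ := ih h5
      exact ⟨c', d', h6, h7, h8, h9, h10.tail h4⟩
    · exact ⟨c, d, by omega, h2, h3, h4, ReflTransGen.refl⟩

lemma joint {y y' z z' : Sq} {a b : ℤ} (hy : Next L B y a b) (hy' : ∀ t, ∃ c d, c ≤ t ∧ t < d ∧ Next L B y' c d)
    (hz : Cat B z 0 (pp L)) (hz' : Cat B z' 0 (pp L)) (δ : ℤ) :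
    ∃ u, Occ y (2 * u + δ) z (pp L) ∧ Occ y' u z' (pp L) := by
  obtain ⟨s, -, -, -, -, -, h1⟩ := hy
  obtain ⟨j, -, -, h2⟩ := h1 z hz
  have hp := pp_pos L
  have hg := pp_le L
  set A := s + 16 * gg L * j with hA
  obtain ⟨t, h3, h4, h5, h6⟩ : ∃ t, A ≤ 2 * t + δ ∧ 2 * t + δ ≤ A + 37 * gg L ∧ Cl L B y' t ∧
      Cl L B y' (t + 4 * gg L) := by
    obtain ⟨c, d, h3, h4, s', h5, rfl, -, -, h6, -⟩ := hy' ((A - δ + 1) / 2 + 16 * gg L)
    have hm : 0 < mm L := by unfold mm; positivity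
    by_cases h7 : s' ≤ (A - δ + 1) / 2 + 16 * gg L
    · obtain ⟨q, r, h8, h9, h10⟩ := Rec3.dec (16 * gg L) (by omega) s' ((A - δ + 1) / 2 + 16 * gg L)
      rw [mul_comm q] at h10
      have := h6 q (by nlinarith) (by nlinarith)
      exact ⟨_, by omega, by omega, this⟩
    · have := h6 0 le_rfl (by omega)
      rw [mul_zero, add_zero] at this
      exact ⟨s', by omega, by omega, this⟩
  have key : ∀ t' i : ℤ, 0 ≤ i → i < 4 → Cl L B y' t' → A + 16 * gg L * i + 5 * gg L ≤ 2 * t' + δ →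
      2 * t' + δ ≤ A + 16 * gg L * i + 14 * gg L → ∃ u, Occ y (2 * u + δ) z (pp L) ∧ Occ y' u z' (pp L) := by
    intro t' i h7 h8 h9 h10 h11
    obtain ⟨u, h12, h13, ⟨e, he⟩, h14⟩ := h9 z' hz' ((A - δ) * (L ^ 2 + 2 * L + 2))
    have h15 := h2 i h7 h8
    rw [show s + 16 * gg L * (j + i) = A + 16 * gg L * i by rw [hA]; ring] at h15
    refine ⟨u, h15 _ (by omega) (by omega) ?_, h14⟩
    obtain ⟨N, hN⟩ := pp_dvd L
    refine ⟨2 * e + (A - δ) - 16 * N * i, ?_⟩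
    rw [hN]
    linear_combination 2 * he - (A - δ) * pp_sq L
  obtain ⟨i, ρ, h7, h8, h9⟩ := Rec3.dec (16 * gg L) (by omega) A (2 * t + δ)
  rw [mul_comm i] at h9
  have h10 : 0 ≤ i := by nlinarith
  have h11 : i < 3 := by nlinarith
  by_cases h12 : ρ < 5 * gg L
  · exact key _ i h10 (by omega) h6 (by omega) (by omega)
  by_cases h13 : ρ ≤ 14 * gg L
  · exact key _ i h10 (by omega) h5 (by omega) (by omega)
  · exact key _ (i + 1) (by omega) (by omega) h6 (by rw [mul_add]; omega) (by rw [mul_add _ i]; omega)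

end Pool.Agent.H18.Rec4
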