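import Mathlib
import Pool.Agent.H18.Rec4

set_option autoImplicit false

namespace Pool.Agent.H18.Rec4

open Set Filter Topology Relation

def LL : ℕ → ℕ
  | 0 => 1
  | k + 1 => nL (LL k)

def Bk : ℕ → Rel3
  | 0 => fun _ a b => b = a + 1 ∨ b = a + 1 + 1
  | k + 1 => Next (LL k) (Bk k)

lemma ok : ∀ k, Ok (LL k) (Bk k)
  | 0 => ⟨Nat.one_pos, fun h => h, fun _ d _ h _ => by rcases h with rfl | rfl <;> [left; right] <;> ring,
      ⟨0, Or.inl rfl⟩, ⟨0, Or.inr rfl⟩⟩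
  | k + 1 => (ok k).next

lemma LL_gt (k : ℕ) : k < LL k := by
  induction k with
  | zero => exact Nat.one_pos
  | succ k ih => simp only [LL, nL, pp]; omega

def Y : Set Sq := {x | ∀ (k : ℕ) (W : ℤ), ∃ a b, a ≤ -W ∧ W < b ∧ Cat (Bk k) x a b}

lemma blk_at {x : Sq} (hx : x ∈ Y) (k : ℕ) (t : ℤ) : ∃ c d, c ≤ t ∧ t < d ∧ Bk k x c d := by
  obtain ⟨a, b, h1, h2, h3⟩ := hx k t.natAbs
  obtain ⟨c, d, h4, h5, -, h6, -⟩ := cut (t := t) h3 (by omega) (by omega)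
  exact ⟨c, d, h4, h5, h6⟩

lemma tight {x : Sq} {k : ℕ} {W : ℕ} {a b : ℤ} (h1 : a ≤ -W) (h2 : W < b) (h3 : Cat (Bk k) x a b) :
    ∃ a b : ℤ, -W - LL k ≤ a ∧ a ≤ -W ∧ W < b ∧ b ≤ W + LL k + 1 ∧ Cat (Bk k) x a b := by
  obtain ⟨c, d, h4, h5, -, h6, h7⟩ := cut (t := -W) h3 h1 (by omega)
  obtain ⟨c', d', h8, h9, h10, h11, -⟩ := cut (t := W) (ReflTransGen.head h6 h7) (by omega) h2
  have := (ok k).len h6
  have := (ok k).len h11
  exact ⟨c, d', by omega, h4, h9, by omega, h10.tail h11⟩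

lemma closed_Y : IsClosed Y := by
  refine isClosed_of_closure_subset fun x hx k W => ?_
  have hn : {y : Sq | ∀ t ∈ Icc (-(W.natAbs + LL k + 1 : ℤ)) (W.natAbs + LL k + 1), y t = x t} ∈ 𝓝 x := by
    simp only [setOf_forall]
    refine (biInter_mem (finite_Icc _ _)).2 fun t _ => ?_
    exact (continuous_apply t).continuousAt.preimage_mem_nhds (t := {x t}) ((isOpen_discrete _).mem_nhds rfl)
  obtain ⟨y, h1, h2⟩ := mem_closure_iff_nhds.1 hx _ hn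
  obtain ⟨a, b, h3, h4, h5⟩ := h2 k W.natAbs
  obtain ⟨a', b', h6, h7, h8, h9, h10⟩ := tight h3 h4 h5
  exact ⟨a', b', by omega, by omega, (ok k).cl1 x h10 fun t _ _ => (h1 t ⟨by omega, by omega⟩).symm⟩

lemma shift_mem (n : ℤ) {x : Sq} (hx : x ∈ Y) : (fun t => x (t + n)) ∈ Y := fun k W => by
  obtain ⟨a, b, h1, h2, h3⟩ := hx k (W + n.natAbs)
  exact ⟨a + -n, b + -n, by omega, by omega, (ok k).cloc _ (-n) 0 h3 fun t _ _ => by simp⟩

def hh (K : ℕ) : ℤ := LL K ^ 2 + 2 * LL K + 1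

lemma unit {x : Sq} (hx : x ∈ Y) (W : ℕ) :
    ∃ z, Cat (Bk W) z 0 (pp (LL W)) ∧ ∀ t : ℤ, t.natAbs ≤ W → z (t + hh W) = x t := by
  obtain ⟨a, b, h1, h2, h3⟩ := hx W W
  obtain ⟨a', b', h4, h5, h6, h7, h8⟩ := tight h1 h2 h3
  have := LL_gt W
  obtain ⟨w, h9, h10⟩ := (ok W).pad 0 (pp (LL W)) ((ok W).cloc (fun t => x (t - hh W)) (hh W) 0 h8
    fun t _ _ => by simp) (by unfold hh; omega) (by rw [pp_sq]; unfold hh; omega)
  exact ⟨w, h9, fun t ht => by rw [h10 _ (by omega) (by omega)]; simp⟩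

lemma recur {x x' y y' : Sq} (hx : x ∈ Y) (hx' : x' ∈ Y) (hy : y ∈ Y) (hy' : y' ∈ Y) (W : ℕ) :
    ∃ n : ℤ, ∀ t : ℤ, t.natAbs ≤ W → y (t + 2 * n) = x t ∧ y' (t + n) = x' t := by
  obtain ⟨z, h1, h2⟩ := unit hx W
  obtain ⟨z', h3, h4⟩ := unit hx' W
  obtain ⟨c, d, -, -, h5⟩ := blk_at hy (W + 1) 0
  obtain ⟨u, h6, h7⟩ := joint h5 (blk_at hy' (W + 1)) h1 h3 (hh W)
  have := LL_gt W
  have h8 : ∀ t : ℤ, t.natAbs ≤ W → 0 ≤ t + hh W ∧ t + hh W < pp (LL W) := fun t ht => by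
    rw [pp_sq]
    unfold hh
    have : (0 : ℤ) ≤ LL W ^ 2 := by positivity
    omega
  refine ⟨u + hh W, fun t ht => ⟨?_, ?_⟩⟩
  · rw [← h2 t ht, ← h6 _ (h8 t ht).1 (h8 t ht).2]
    congr 1; ring
  · rw [← h4 t ht, ← h7 _ (h8 t ht).1 (h8 t ht).2]
    congr 1; ring

def Tower (y : Sq) : Prop := ∃ (K : ℕ) (a b : ℕ → ℤ), Bk K y (a K) (b K) ∧ ∀ k, K ≤ k →
  a (k + 1) < a k ∧ b k < b (k + 1) ∧ Cat (Bk k) y (a (k + 1)) (a k) ∧
    ∀ y2 : Sq, (∀ t, b k ≤ t → t < b (k + 1) → y2 t = y t) → Cat (Bk k) y2 (a (k + 1)) (b k) →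
      Bk (k + 1) y2 (a (k + 1)) (b (k + 1))

lemma cat_down {x : Sq} {a b : ℤ} {k l : ℕ} (hkl : k ≤ l) (h : Cat (Bk l) x a b) : Cat (Bk k) x a b := by
  induction l, hkl using Nat.le_induction with
  | base => exact h
  | succ l _ ih => exact ih (cat_next h)

lemma mono_ab {K : ℕ} {a b : ℕ → ℤ} (h : ∀ k, K ≤ k → a (k + 1) < a k ∧ b k < b (k + 1)) {k l : ℕ}
    (h1 : K ≤ k) (h2 : k ≤ l) : a l + (l - k) ≤ a k ∧ b k + (l - k) ≤ b l := by
  induction l, h2 using Nat.le_induction with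
  | base => omega
  | succ l h3 ih => have := h l (by omega); omega

lemma Tower.mem {y : Sq} (h : Tower y) : y ∈ Y := by
  obtain ⟨K, a, b, h1, h2⟩ := h
  have h3 : ∀ k, K ≤ k → Bk k y (a k) (b k) := fun k hk => by
    induction k, hk using Nat.le_induction with
    | base => exact h1
    | succ k hk ih => exact (h2 k hk).2.2.2 y (fun _ _ _ => rfl) ((h2 k hk).2.2.1.tail ih)
  intro k W
  have h4 := mono_ab (fun k hk => ⟨(h2 k hk).1, (h2 k hk).2.1⟩) le_rfl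
    (show K ≤ K + k + W.natAbs + (a K).natAbs + (b K).natAbs + 1 by omega)
  exact ⟨_, _, by omega, by omega, cat_down (l := K + k + W.natAbs + (a K).natAbs + (b K).natAbs + 1) (by omega)
    (ReflTransGen.single (h3 _ (by omega)))⟩

lemma Tower.modify {y : Sq} (h : Tower y) (W : ℕ) :
    ∃ y2, Tower y2 ∧ y2 ≠ y ∧ ∀ t : ℤ, -W ≤ t → y2 t = y t := by
  obtain ⟨K, a, b, h1, h2⟩ := h
  have h3 : ∀ k, K ≤ k → Bk k y (a k) (b k) := fun k hk => by
    induction k, hk using Nat.le_induction with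
    | base => exact h1
    | succ k hk ih => exact (h2 k hk).2.2.2 y (fun _ _ _ => rfl) ((h2 k hk).2.2.1.tail ih)
  have hm := fun {k l} => mono_ab (k := k) (l := l) (fun k hk => ⟨(h2 k hk).1, (h2 k hk).2.1⟩)
  obtain ⟨j, hj, h4⟩ : ∃ j, K ≤ j ∧ a j ≤ -W := ⟨K + W + (a K).natAbs, by omega, by
    have := hm le_rfl (show K ≤ K + W + (a K).natAbs by omega)
    omega⟩
  have h5 := (ok j).len (h3 j hj)
  have h6 := (h2 j hj).1
  refine ⟨fun t => if a (j + 1) ≤ t ∧ t < a j then y t + 1 else y t, ⟨j + 1, a, b, ?_, fun k hk => ?_⟩,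
    fun e => ?_, fun t ht => if_neg (by omega)⟩
  · refine (h2 j hj).2.2.2 _ (fun t _ _ => if_neg (by omega))
      (((ok j).cl0 _ 1 (h2 j hj).2.2.1 fun t h7 h8 => if_pos ⟨h7, h8⟩).trans
        ((ok j).cl1 _ (ReflTransGen.single (h3 j hj)) fun t _ _ => if_neg (by omega)))
  · have h7 := hm (k := j + 1) (by omega) hk
    have h8 := hm hj (show j ≤ k by omega)
    have h9 := h2 k (by omega)
    exact ⟨h9.1, h9.2.1, (ok k).cl1 _ h9.2.2.1 fun t _ _ => if_neg (by omega), fun y2 h10 =>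
      h9.2.2.2 y2 fun t h11 h12 => (h10 t h11 h12).trans (if_neg (by omega))⟩
  · have := congrFun e (a (j + 1))
    rw [if_pos ⟨le_rfl, h6⟩] at this
    simp at this

lemma ann (k : ℕ) (a b : ℤ) : ∃ (A C : ℤ) (w : Sq), a ≤ b ∧ b ≤ a + LL k + 1 → A < a ∧ b < C ∧ C ≤ A + LL (k + 1) + 1 ∧
    Cat (Bk k) w A a ∧ ∀ (y : Sq) (c : Fin 3), (∀ t, b ≤ t → t < C → y t = w t + c) → Cat (Bk k) y A b →
      Bk (k + 1) y A C := by
  by_cases hab : a ≤ b ∧ b ≤ a + LL k + 1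
  swap
  · exact ⟨0, 0, 0, fun h' => absurd h' hab⟩
  have hL := (ok k).pos
  have hp := pp_sq (LL k)
  have h0 : (0 : ℤ) < LL k ^ 2 := by positivity
  obtain ⟨u, hu⟩ := (ok k).fil (a - LL k ^ 2) a (by omega)
  obtain ⟨v, hv⟩ := (ok k).fil b (a - LL k ^ 2 + pp (LL k)) (by omega)
  obtain ⟨w, hw⟩ := (ok k).top (a - LL k ^ 2 + pp (LL k))
  have h1 : (0 : ℤ) ≤ 16 * gg (LL k) * mm (LL k) := by positivity
  refine ⟨a - LL k ^ 2, a - LL k ^ 2 + pp (LL k) + 16 * gg (LL k) * mm (LL k),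
    fun t => if t < a then u t else if t < a - LL k ^ 2 + pp (LL k) then v t else w t, fun _ =>
    ⟨by omega, by omega, by simp only [LL, nL]; push_cast; omega, (ok k).cl1 _ hu fun t _ h => if_pos h,
      fun y c h2 h3 => hw y c _ (Or.inl rfl) (h3.trans ((ok k).cl0 _ c hv fun t _ _ => ?_)) fun t _ _ => ?_⟩⟩
  · rw [h2 t (by omega) (by omega)]
    beta_reduce
    rw [if_neg (by omega), if_pos (by omega)]
  · rw [h2 t (by omega) (by omega)]
    beta_reduce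
    rw [if_neg (by omega), if_neg (by omega)]

lemma tower_ex (K : ℕ) (a0 b0 : ℤ) (h0 : a0 ≤ b0 ∧ b0 ≤ a0 + LL K + 1) : ∃ v : Sq, ∀ (u : Sq) (c : Fin 3),
    Bk K u a0 b0 → (∀ t, ¬ (a0 ≤ t ∧ t < b0) → u t = v t + c) → Tower u := by
  choose A C w hw using ann
  let s : ℕ → ℤ × ℤ := fun k => Nat.rec (a0, b0)
    (fun k p => if K ≤ k then (A k p.1 p.2, C k p.1 p.2) else p) k
  have hs : ∀ k, K ≤ k → s (k + 1) = (A k (s k).1 (s k).2, C k (s k).1 (s k).2) := fun k hk => if_pos hk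
  have hK : ∀ k, k ≤ K → s k = (a0, b0) := fun k => by
    induction k with
    | zero => exact fun _ => rfl
    | succ k ih => exact fun hk => (if_neg (by omega)).trans (ih (by omega))
  have hi : ∀ k, K ≤ k → (s k).1 ≤ (s k).2 ∧ (s k).2 ≤ (s k).1 + LL k + 1 := fun k hk => by
    induction k, hk using Nat.le_induction with
    | base => rw [hK K le_rfl]; exact h0
    | succ k hk ih =>
      have := hw k _ _ ih
      rw [hs k hk]
      exact ⟨by simp only; omega, this.2.2.1⟩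
  have hm : ∀ k, K ≤ k → (s (k + 1)).1 < (s k).1 ∧ (s k).2 < (s (k + 1)).2 := fun k hk => by
    have := hw k _ _ (hi k hk)
    rw [hs k hk]
    exact ⟨this.1, this.2.1⟩
  let κ : ℤ → ℕ := fun t => sInf {k | K ≤ k ∧ (s (k + 1)).1 ≤ t ∧ t < (s (k + 1)).2}
  have hκ : ∀ k t, K ≤ k → (s (k + 1)).1 ≤ t → t < (s (k + 1)).2 → ¬ ((s k).1 ≤ t ∧ t < (s k).2) → κ t = k := by
    intro k t h1 h2 h3 h4
    refine le_antisymm (Nat.sInf_le ⟨h1, h2, h3⟩) (le_csInf ⟨k, h1, h2, h3⟩ fun l hl => not_lt.1 fun hlk => ?_)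
    have := mono_ab (a := fun k => (s k).1) (b := fun k => (s k).2) hm (k := l + 1) (l := k)
      (hl.1.trans (Nat.le_succ l)) hlk
    have h5 := hl.2
    omega
  refine ⟨fun t => w (κ t) (s (κ t)).1 (s (κ t)).2 t, fun u c h1 h2 => ⟨K, fun k => (s k).1, fun k => (s k).2,
    by simpa only [hK K le_rfl] using h1, fun k hk => ?_⟩⟩
  have h3 := hw k _ _ (hi k hk)
  have h4 := mono_ab (a := fun k => (s k).1) (b := fun k => (s k).2) hm le_rfl hk
  have h5 := hi k hk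
  have h6 := hm k hk
  simp only [hK K le_rfl] at h4
  have h7 : ∀ t, (s (k + 1)).1 ≤ t → t < (s (k + 1)).2 → ¬ ((s k).1 ≤ t ∧ t < (s k).2) →
      u t = w k (s k).1 (s k).2 t + c := fun t h7 h8 h9 => by
    rw [h2 t (by omega)]
    simp only [hκ k t hk h7 h8 h9]
  beta_reduce
  refine ⟨h6.1, h6.2, ?_, fun y2 h8 h9 => ?_⟩
  · have := h3.2.2.2.1
    rw [show A k (s k).1 (s k).2 = (s (k + 1)).1 by rw [hs k hk]] at this
    exact (ok k).cl0 _ c this fun t _ _ => h7 t (by omega) (by omega) (by omega)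
  · have := h3.2.2.2.2 y2 c
    rw [show A k (s k).1 (s k).2 = (s (k + 1)).1 by rw [hs k hk],
      show C k (s k).1 (s k).2 = (s (k + 1)).2 by rw [hs k hk]] at this
    exact this (fun t h10 h11 => (h8 t h10 h11).trans (h7 t (by omega) h11 (by omega))) h9

lemma pair {z z' : Sq} {W : ℕ} (hz : Cat (Bk W) z 0 (pp (LL W))) (hz' : Cat (Bk W) z' 0 (pp (LL W))) (c : Fin 3) :
    ∃ y y', Tower y ∧ Tower y' ∧ (∀ t, -hh W ≤ t → t < -hh W + pp (LL W) → y t = z (t + hh W) ∧ y' t = z' (t + hh W)) ∧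
      ∀ t, -hh W + pp (LL W) ≤ t → y' t = y t + c := by
  obtain ⟨w, hw⟩ := (ok W).top (-hh W + pp (LL W))
  have h1 : (0 : ℤ) ≤ 16 * gg (LL W) * mm (LL W) := by positivity
  have hp := pp_pos (LL W)
  obtain ⟨v, hv⟩ := tower_ex (W + 1) (-hh W) (-hh W + pp (LL W) + 16 * gg (LL W) * mm (LL W))
    ⟨by omega, by simp only [LL, nL]; push_cast; omega⟩
  have key : ∀ (z : Sq) (c : Fin 3), Cat (Bk W) z 0 (pp (LL W)) → Tower fun t =>
      if -hh W ≤ t ∧ t < -hh W + pp (LL W) then z (t + hh W) else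
        (if -hh W ≤ t ∧ t < -hh W + pp (LL W) + 16 * gg (LL W) * mm (LL W) then w t else v t) + c :=
    fun z c hz => hv _ c (hw _ c _ (Or.inl rfl) ((ok W).occ hz fun t _ _ => by
      beta_reduce; rw [if_pos (by omega)]; simp) fun t _ _ => by
        beta_reduce; rw [if_neg (by omega), if_pos (by omega)]) fun t ht => by
          beta_reduce; rw [if_neg (by omega), if_neg ht]
  refine ⟨_, _, key z 0 hz, key z' c hz', fun t h2 h3 => ⟨if_pos ⟨h2, h3⟩, if_pos ⟨h2, h3⟩⟩, fun t ht => ?_⟩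
  beta_reduce
  rw [if_neg (by omega), if_neg (show ¬ (-hh W ≤ t ∧ t < -hh W + pp (LL W)) by omega), add_zero]

lemma cev (t : ℤ) : Continuous fun x : Y => x.1 t := (continuous_apply t).comp continuous_subtype_val

def sh (n : ℤ) : Y ≃ₜ Y where
  toFun x := ⟨fun t => x.1 (t + n), shift_mem n x.2⟩
  invFun x := ⟨fun t => x.1 (t + -n), shift_mem _ x.2⟩
  left_inv x := Subtype.ext (funext fun t => by simp)
  right_inv x := Subtype.ext (funext fun t => by simp)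
  continuous_toFun := (continuous_pi fun _ => cev _).subtype_mk _
  continuous_invFun := (continuous_pi fun _ => cev _).subtype_mk _

def UU : Y × Y ≃ₜ Y × Y := (sh 2).prodCongr (sh 1)

lemma UU_zpow (n : ℤ) (x : Y × Y) (t : ℤ) :
    ((UU ^ n) x).1.1 t = x.1.1 (t + 2 * n) ∧ ((UU ^ n) x).2.1 t = x.2.1 (t + n) := by
  induction n using Int.induction_on generalizing x t with
  | zero => simp
  | succ n ih =>
    rw [zpow_add_one, Homeomorph.mul_apply, (ih _ _).1, (ih _ _).2]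
    exact ⟨congrArg x.1.1 (by ring), congrArg x.2.1 (by ring)⟩
  | pred n ih =>
    rw [zpow_sub_one, Homeomorph.mul_apply, (ih _ _).1, (ih _ _).2]
    exact ⟨congrArg x.1.1 (by ring), congrArg x.2.1 (by ring)⟩

lemma cyl1 {U : Set Y} (hU : IsOpen U) {x : Y} (hx : x ∈ U) :
    ∃ W : ℕ, ∀ y : Y, (∀ t : ℤ, t.natAbs ≤ W → y.1 t = x.1 t) → y ∈ U := by
  obtain ⟨V, hV, rfl⟩ := isOpen_induced_iff.1 hU
  obtain ⟨I, u, h1, h2⟩ := isOpen_pi_iff.1 hV x.1 hx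
  refine ⟨I.sup Int.natAbs, fun y hy => h2 fun t ht => ?_⟩
  rw [hy t (Finset.le_sup (f := Int.natAbs) ht)]
  exact (h1 t ht).2

lemma cyl {U : Set (Y × Y)} (hU : IsOpen U) {x : Y × Y} (hx : x ∈ U) :
    ∃ W : ℕ, ∀ y : Y × Y, (∀ t : ℤ, t.natAbs ≤ W → y.1.1 t = x.1.1 t ∧ y.2.1 t = x.2.1 t) → y ∈ U := by
  obtain ⟨u, v, hu, hv, h1, h2, h3⟩ := isOpen_prod_iff.1 hU x.1 x.2 hx
  obtain ⟨W, hW⟩ := cyl1 hu h1
  obtain ⟨W', hW'⟩ := cyl1 hv h2
  exact ⟨W + W', fun y hy => h3 ⟨hW _ fun t ht => (hy t (by omega)).1, hW' _ fun t ht => (hy t (by omega)).2⟩⟩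

theorem side : ∃ (T : (ℕ → Bool) ≃ₜ (ℕ → Bool)) (c d : (ℕ → Bool) → Fin 3), Continuous c ∧ Continuous d ∧
    (∀ z, Dense (range fun n : ℤ => (T ^ n) z)) ∧ ∃ N : ℕ, ∀ z (m : ℕ), N ≤ m →
      c ((T ^ (m : ℤ)) z) = c z → d ((T ^ (2 * m : ℤ)) z) = d z → z (2 * m + 1) = true := by
  haveI : CompactSpace Y := isCompact_iff_compactSpace.1 closed_Y.isCompact
  let G : ℕ → Set (Y × Y) := fun n => {x | Tower x.1.1 ∧ ∀ m : ℕ, n ≤ m →
    ¬ (x.1.1 (2 * m) = x.1.1 0 ∧ x.2.1 (2 * m) = x.2.1 0)}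
  have hden : ∀ U : Set (Y × Y), IsClopen U → U.Nonempty → ∃ n, (U ∩ G n).Nonempty := by
    rintro U hU ⟨x, hx⟩
    obtain ⟨W, hW⟩ := cyl hU.isOpen hx
    obtain ⟨z, h1, h2⟩ := unit x.1.2 W
    obtain ⟨z', h3, h4⟩ := unit x.2.2 W
    obtain ⟨y, y', h5, h6, h7, h8⟩ := pair h1 h3 (x.2.1 0 - x.1.1 0 + 1)
    have h9 : ∀ t : ℤ, t.natAbs ≤ W → y t = x.1.1 t ∧ y' t = x.2.1 t := fun t ht => by
      have := LL_gt W
      have h0 : (0 : ℤ) ≤ LL W ^ 2 := by positivity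
      rw [← h2 t ht, ← h4 t ht]
      exact h7 t (by unfold hh; omega) (by rw [pp_sq]; unfold hh; omega)
    refine ⟨(-hh W + pp (LL W)).natAbs, (⟨y, h5.mem⟩, ⟨y', h6.mem⟩), hW _ h9, h5, fun m hm h => ?_⟩
    have h10 : y' (2 * m) = y' 0 := h.2
    rw [h8 _ (by omega), show y (2 * m) = y 0 from h.1, (h9 0 (by simp)).1, (h9 0 (by simp)).2] at h10
    revert h10
    generalize x.1.1 0 = a, x.2.1 0 = b
    revert a b; decide
  have hper : ∀ n (U : Set (Y × Y)), IsClopen U → ∀ x ∈ U ∩ G n, ∃ y ∈ U ∩ G n, y ≠ x := by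
    intro n U hU x hx
    obtain ⟨W, hW⟩ := cyl hU.isOpen hx.1
    obtain ⟨y, h1, h2, h3⟩ := hx.2.1.modify W
    refine ⟨(⟨y, h1.mem⟩, x.2), ⟨hW _ fun t ht => ⟨h3 t (by omega), rfl⟩, h1, fun m hm h => hx.2.2 m hm ⟨?_, h.2⟩⟩,
      fun e => h2 (congrArg (fun p : Y × Y => p.1.1) e)⟩
    rw [← h3 _ (by omega), ← h3 0 (by omega)]
    exact h.1
  obtain ⟨z0, hz0⟩ := (ok 0).fil 0 (pp (LL 0)) (by rw [pp_sq]; simp [LL])
  obtain ⟨y0, -, hy0, -⟩ := pair hz0 hz0 0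
  obtain ⟨N, hN⟩ := hden univ isClopen_univ ⟨(⟨y0, hy0.mem⟩, ⟨y0, hy0.mem⟩), trivial⟩
  have hGm : Monotone G := fun a b hab x hx => ⟨hx.1, fun m hm => hx.2 m (hab.trans hm)⟩
  have c1 : ∀ t, Continuous fun x : Y × Y => x.1.1 t := fun t => (cev t).comp continuous_fst
  have c2 : ∀ t, Continuous fun x : Y × Y => x.2.1 t := fun t => (cev t).comp continuous_snd
  obtain ⟨α, hα⟩ := Rec2.coding (fun n => G (max (n / 2) N))
    (fun n => {x | n % 2 = 1 ∧ N ≤ n / 2 ∧ x.1.1 (2 * (n / 2 : ℕ)) = x.1.1 0 ∧ x.2.1 (2 * (n / 2 : ℕ)) = x.2.1 0})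
    (fun a b hab => hGm (max_le_max (Nat.div_le_div_right hab) le_rfl))
    (hN.mono fun x hx => hGm (le_max_right _ _) hx.2)
    (fun n => isClosed_const.inter (isClosed_const.inter (IsClosed.inter (isClosed_eq (c1 _) (c1 _))
      (isClosed_eq (c2 _) (c2 _)))))
    (fun n => disjoint_left.2 fun x hx hx' => hx.2 _ (by have := hx'.2.1; omega) hx'.2.2)
    (fun n => eq_empty_of_forall_notMem fun x hx => by have := hx.1; omega)
    (fun U hU hne => (hden U hU hne).elim fun n hn => ⟨2 * n, hn.mono (inter_subset_inter_right _ (hGm (by omega)))⟩)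
    (fun n U hU x hx => (hper _ U hU x hx).imp fun y hy => ⟨⟨hy.1.1, hGm (by omega) hy.1.2⟩, hy.2⟩)
  refine ⟨(α.symm.trans UU).trans α, fun z => (α.symm z).1.1 0, fun z => (α.symm z).2.1 0,
    (c1 0).comp α.symm.continuous, (c2 0).comp α.symm.continuous, fun z => ?_, N, fun z m hm hc hd => ?_⟩
  · simp only [Rec3.conj_zpow]
    refine α.surjective.denseRange.comp (f := fun n : ℤ => (UU ^ n) (α.symm z)) ?_ α.continuous
    refine dense_iff_inter_open.2 fun U hU ⟨x, hx⟩ => ?_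
    obtain ⟨W, hW⟩ := cyl hU hx
    obtain ⟨n, hn⟩ := recur x.1.2 x.2.2 (α.symm z).1.2 (α.symm z).2.2 W
    exact ⟨_, hW _ fun t ht => ⟨(UU_zpow n _ t).1.trans (hn t ht).1, (UU_zpow n _ t).2.trans (hn t ht).2⟩, n, rfl⟩
  · simp only [Rec3.conj_zpow, Homeomorph.symm_apply_apply, (UU_zpow _ _ _).1, (UU_zpow _ _ _).2,
      zero_add] at hc hd
    rw [← α.apply_symm_apply z]
    have e : (2 * m + 1) / 2 = m := by omega
    refine hα _ _ ⟨by omega, by omega, ?_⟩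
    rw [e]
    exact ⟨hc, hd⟩

end Pool.Agent.H18.Rec4
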