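import Pool.Agent.H18.Dl

set_option autoImplicit false

namespace Pool.Agent.H18.Sel

open Set Filter Function

noncomputable section
open Classical

/-- on each column `F` is constant, or it is injective on the union of the remaining columns -/
def Hom (F : ℕ → ℕ → ℕ) (d : ℕ → Set ℕ) : Prop := ∃ G : Set ℕ,
  (∀ n ∉ G, ∃ c, ∀ x ∈ d n, F n x = c) ∧
    ∀ n ∈ G, ∀ m ∈ G, ∀ x ∈ d n, ∀ y ∈ d m, F n x = F m y → n = m ∧ x = y

lemma step {A : ℕ → Set ℕ} (hA : ∀ n, (A n).Infinite) (F : ℕ → ℕ → ℕ) :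
    ∃ d : ℕ → Set ℕ, (∀ n, d n ⊆ A n ∧ (d n).Infinite) ∧ Hom F d := by
  let G : Set ℕ := {n | (F n '' A n).Infinite}
  have h1 : ∀ j v : ℕ, ∃ x, j.unpair.1 ∈ G → x ∈ A j.unpair.1 ∧ v < F j.unpair.1 x := by
    intro j v
    by_cases c : j.unpair.1 ∈ G
    · obtain ⟨_, ⟨x, a, rfl⟩, b⟩ := Set.Infinite.exists_gt c v
      exact ⟨x, fun _ => ⟨a, b⟩⟩
    · exact ⟨0, fun t => absurd t c⟩
  have h2 : ∀ n, ∃ B : Set ℕ, n ∉ G → B ⊆ A n ∧ B.Infinite ∧ ∃ c, ∀ x ∈ B, F n x = c := by
    intro n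
    by_cases c : n ∈ G
    · exact ⟨∅, fun t => absurd c t⟩
    · by_contra t
      push Not at t
      refine hA n (((not_infinite.mp c).biUnion (t := fun c => {x ∈ A n | F n x = c})
        fun c _ => ?_).subset fun x hx => mem_biUnion ⟨x, hx, rfl⟩ ⟨hx, rfl⟩)
      by_contra s
      obtain ⟨x, a, b⟩ := (t _).2 (sep_subset _ _) s c
      exact b a.2
  choose nx h1 using h1
  choose B h2 using h2
  obtain ⟨v, hv⟩ : ∃ v : ℕ → ℕ, ∀ j, v (j + 1) = max (v j) (F j.unpair.1 (nx j (v j))) :=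
    ⟨fun j => Nat.rec 0 (fun j w => max w (F j.unpair.1 (nx j w))) j, fun _ => rfl⟩
  have vm : Monotone v := monotone_nat_of_le_succ fun j => by rw [hv]; exact le_max_left _ _
  have lt : ∀ i j, i < j → j.unpair.1 ∈ G →
      F i.unpair.1 (nx i (v i)) < F j.unpair.1 (nx j (v j)) := fun i j h t =>
    ((le_max_right _ _).trans ((hv i).symm.trans_le (vm h))).trans_lt (h1 j (v j) t).2
  have inj : ∀ n ∈ G, ∀ m ∈ G, ∀ k l, F n (nx (n.pair k) (v (n.pair k))) =
      F m (nx (m.pair l) (v (m.pair l))) → n = m ∧ k = l := by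
    intro n hn m hm k l h
    rw [← Nat.pair_eq_pair]
    rcases lt_trichotomy (n.pair k) (m.pair l) with t | t | t
    · have := lt _ _ t (by simpa using hm)
      simp only [Nat.unpair_pair] at this
      omega
    · exact t
    · have := lt _ _ t (by simpa using hn)
      simp only [Nat.unpair_pair] at this
      omega
  refine ⟨fun n => if n ∈ G then range fun k => nx (n.pair k) (v (n.pair k)) else B n,
    fun n => ?_, G, fun n hn => ?_, fun n hn m hm => ?_⟩
  · beta_reduce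
    split_ifs with c
    · refine ⟨?_, infinite_range_of_injective fun k l h => (inj n c n c k l (by rw [h])).2⟩
      rintro _ ⟨k, rfl⟩
      simpa using (h1 (n.pair k) (v _) (by simpa using c)).1
    · exact ⟨(h2 n c).1, (h2 n c).2.1⟩
  · simpa [hn] using (h2 n hn).2.2
  · simp only [if_pos hn, if_pos hm]
    rintro _ ⟨k, rfl⟩ _ ⟨l, rfl⟩ h
    obtain ⟨rfl, rfl⟩ := inj n hn m hm k l h
    exact ⟨rfl, rfl⟩

theorem main (hCH : Cardinal.continuum.{0} = Cardinal.aleph 1) :
    ∃ Y : ℕ → Ultrafilter ℕ, (∀ n, ∀ S ∈ Y n, S.Infinite) ∧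
      ∀ F, ∃ d : ℕ → Set ℕ, (∀ n, d n ∈ Y n) ∧ Hom F d := by
  obtain ⟨r, wo, hr⟩ := Cardinal.exists_ord_eq (ℕ → ℕ → ℕ)
  have cI : Cardinal.mk (ℕ → ℕ → ℕ) = Cardinal.continuum := by simp
  have cnt : ∀ x, {y | r y x}.Countable := by
    intro x
    rw [Cardinal.countable_iff_lt_aleph_one, ← hCH]
    have := Cardinal.card_typein_lt x hr
    rw [Ordinal.card_typein] at this
    exact this.trans_le (le_of_eq cI)
  let Q : (α : ℕ → ℕ → ℕ) → ((β : ℕ → ℕ → ℕ) → r β α → ℕ → Set ℕ) → (ℕ → Set ℕ) → Prop :=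
    fun α F d => (∀ n, (d n).Infinite) ∧ (∀ β hβ n, (d n \ F β hβ n).Finite) ∧ Hom α d
  let D : (ℕ → ℕ → ℕ) → ℕ → Set ℕ := wo.wf.fix (fun α F => Classical.epsilon (Q α F))
  have hD : ∀ α, D α = Classical.epsilon (Q α (fun β _ => D β)) := fun α => wo.wf.fix_eq _ α
  have key : ∀ α, Q α (fun β _ => D β) (D α) := by
    intro α
    induction α using wo.wf.induction with
    | _ α ih =>
      rw [hD α]
      apply Classical.epsilon_spec
      obtain ⟨P, hP⟩ := (((cnt α).image D).insert fun _ => univ).exists_eq_range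
        (insert_nonempty _ _)
      have PS : ∀ j, (P j = fun _ => univ) ∨ ∃ β, r β α ∧ D β = P j := fun j =>
        show P j ∈ insert (fun _ => univ) (D '' {β | r β α}) from hP ▸ mem_range_self j
      have ch : ∀ n a b, (P a n \ P b n).Finite ∨ (P b n \ P a n).Finite := by
        intro n a b
        rcases PS a with s | ⟨β, hβ, s⟩
        · right; rw [s]; simp
        rcases PS b with t | ⟨γ, hγ, t⟩
        · left; rw [t]; simp
        rw [← s, ← t]
        rcases trichotomous_of r β γ with u | u | u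
        · exact Or.inr ((ih γ hγ).2.1 β u n)
        · left; rw [u]; simp
        · exact Or.inl ((ih β hβ).2.1 γ u n)
      choose A a1 a2 using fun n => Dl.psi (A := fun j => P j n) fun k => by
        have : ∃ j, ∀ i ≤ k, (P j n \ P i n).Finite := by
          induction k with
          | zero => exact ⟨0, fun i hi => by simp [Nat.le_zero.mp hi]⟩
          | succ k ik =>
            obtain ⟨j, hj⟩ := ik
            rcases ch n j (k + 1) with t | t
            · exact ⟨j, fun i hi => (Nat.of_le_succ hi).elim (hj i) fun u => u ▸ t⟩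
            · refine ⟨k + 1, fun i hi => (Nat.of_le_succ hi).elim (fun u =>
                (t.union (hj i u)).subset fun x hn => ?_) fun u => by simp [u]⟩
              by_cases c : x ∈ P j n
              exacts [Or.inr ⟨c, hn.2⟩, Or.inl ⟨hn.1, c⟩]
        obtain ⟨j, hj⟩ := this
        refine ⟨_, ?_, hj⟩
        rcases PS j with s | ⟨β, hβ, s⟩
        · rw [s]; exact infinite_univ
        · rw [← s]; exact (ih β hβ).1 n
      obtain ⟨d, d1, d2⟩ := step a1 α
      refine ⟨d, fun n => (d1 n).2, fun β hβ n => ?_, d2⟩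
      obtain ⟨j, hj⟩ : D β ∈ range P := hP ▸ mem_insert_of_mem _ (mem_image_of_mem D hβ)
      exact (a2 n j).subset fun x hx => ⟨(d1 n).1 hx.1, hj ▸ hx.2⟩
  have : ∀ n, ∃ Y : Ultrafilter ℕ, (Y : Filter ℕ) ≤ ⨅ α, cofinite ⊓ 𝓟 (D α n) := by
    intro n
    have le : ∀ α β, (D α n \ D β n).Finite →
        cofinite ⊓ 𝓟 (D α n) ≤ cofinite ⊓ 𝓟 (D β n) := fun α β h =>
      le_inf inf_le_left (le_principal_iff.mpr (mem_inf_principal.mpr
        (h.subset fun x hx => by simpa using hx)))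
    haveI : NeBot (⨅ α, cofinite ⊓ 𝓟 (D α n)) := iInf_neBot_of_directed (fun α β => by
      rcases trichotomous_of r α β with u | u | u
      · exact ⟨β, le _ _ ((key β).2.1 α u n), le_rfl⟩
      · exact ⟨β, u ▸ le_rfl, le_rfl⟩
      · exact ⟨α, le_rfl, le _ _ ((key α).2.1 β u n)⟩)
        fun α => ((key α).1 n).cofinite_inf_principal_neBot
    exact Ultrafilter.exists_le _
  choose Y hY using this
  refine ⟨Y, fun n S hS t => ?_, fun F => ⟨D F, fun n =>
    le_principal_iff.mp ((hY n).trans ((iInf_le _ F).trans inf_le_right)), (key F).2.2⟩⟩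
  exact Ultrafilter.compl_mem_iff_notMem.mp
    (((hY n).trans ((iInf_le _ fun _ _ => 0).trans inf_le_left)) t.compl_mem_cofinite) hS

end

end Pool.Agent.H18.Sel
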