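import Mathlib

open Set Filter Topology

namespace Pool.Agent.H18.Swindle

section Abstract

variable {X Z : Type*} [NormedAddCommGroup X] [NormedSpace ℝ X] [CompleteSpace X]
  [NormedAddCommGroup Z] [NormedSpace ℝ Z] [CompleteSpace Z]

theorem swindle (U J : X →L[ℝ] Z) (L J' : Z →L[ℝ] X)
    (ha : ∀ x, U (L (U x)) = U x) (hb : ∀ z, L (U (L z)) = L z)
    (hc : ∀ x, J (L (U x)) = U (L (J x))) (hd : ∀ z, J' (U (L z)) = L (U (J' z)))
    (he : ∀ x, J' (J (x - L (U x))) = x - L (U x))
    (hf : ∀ z, J (J' (z - U (L z))) = z - U (L z)) :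
    ∃ c : ℝ, 0 < c ∧ ∃ T : X ≃L[ℝ] Z, ∀ x, T x = c • U x + J x := by
  set c : ℝ := ‖J.comp L‖ + 1 with hc0
  have hcpos : 0 < c := by positivity
  let T' : X →L[ℝ] Z := c • U + J - J.comp (L.comp U)
  let S' : Z →L[ℝ] X := c⁻¹ • L + J' - J'.comp (U.comp L)
  have hT' : ∀ x, T' x = c • U x + J (x - L (U x)) := fun x => by
    simp only [T', ContinuousLinearMap.sub_apply, ContinuousLinearMap.add_apply,
      ContinuousLinearMap.smul_apply, ContinuousLinearMap.comp_apply, map_sub]
    abel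
  have hS' : ∀ z, S' z = c⁻¹ • L z + J' (z - U (L z)) := fun z => by
    simp only [S', ContinuousLinearMap.sub_apply, ContinuousLinearMap.add_apply,
      ContinuousLinearMap.smul_apply, ContinuousLinearMap.comp_apply, map_sub]
    abel
  have h1 : ∀ x, S' (T' x) = x := fun x => by
    have e1 : L (J (x - L (U x))) = 0 := by
      rw [map_sub, hc, map_sub, hb, sub_self]
    have e2 : L (T' x) = c • L (U x) := by rw [hT', map_add, map_smul, e1, add_zero]
    have e3 : T' x - U (L (T' x)) = J (x - L (U x)) := by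
      rw [e2, map_smul, ha, hT']; abel
    rw [hS', e3, e2, he, smul_smul, inv_mul_cancel₀ hcpos.ne', one_smul]
    abel
  have h2 : ∀ z, T' (S' z) = z := fun z => by
    have e1 : U (J' (z - U (L z))) = 0 := by
      rw [map_sub, hd, map_sub, ha, sub_self]
    have e2 : U (S' z) = c⁻¹ • U (L z) := by rw [hS', map_add, map_smul, e1, add_zero]
    have e3 : S' z - L (U (S' z)) = J' (z - U (L z)) := by
      rw [e2, map_smul, hb, hS']; abel
    rw [hT', e3, e2, hf, smul_smul, mul_inv_cancel₀ hcpos.ne', one_smul]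
    abel
  let N : Z →L[ℝ] Z := -(c⁻¹ • J.comp L)
  have hN : ‖N‖ < 1 := by
    simp only [N, norm_neg, norm_smul, Real.norm_eq_abs, abs_inv, abs_of_pos hcpos]
    rw [inv_mul_lt_iff₀ hcpos]
    linarith
  refine ⟨c, hcpos, (ContinuousLinearEquiv.equivOfInverse T' S' h1 h2).trans
    (ContinuousLinearEquiv.ofUnit (Units.oneSub N hN)), fun x => ?_⟩
  change (1 - N) (T' x) = _
  have e1 : L (J (x - L (U x))) = 0 := by
    rw [map_sub, hc, map_sub, hb, sub_self]
  have e2 : L (T' x) = c • L (U x) := by rw [hT', map_add, map_smul, e1, add_zero]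
  have e3 : N (T' x) = -J (L (U x)) := by
    simp only [N, ContinuousLinearMap.neg_apply, ContinuousLinearMap.smul_apply,
      ContinuousLinearMap.comp_apply, e2, map_smul, smul_smul, inv_mul_cancel₀ hcpos.ne', one_smul]
  rw [ContinuousLinearMap.sub_apply, ContinuousLinearMap.one_apply, e3, hT', map_sub]
  abel

variable {B : Type*} [NormedAddCommGroup B] [NormedSpace ℝ B] [CompleteSpace B]

theorem swindle_out (U : X →L[ℝ] B × X) (L : B × X →L[ℝ] X)
    (h1 : ∀ b g, U (L (b, g)) = (b, L (U g))) (h2 : ∀ b g, L (b, L (U g)) = L (b, g))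
    (h3 : ∀ x, U (L (U x)) = U x) :
    ∃ c : ℝ, 0 < c ∧ ∃ T : X ≃L[ℝ] B × X, ∀ x, T x = c • U x + (0, x) := by
  refine swindle U (ContinuousLinearMap.inr ℝ B X) L (ContinuousLinearMap.snd ℝ B X) h3 ?_ ?_ ?_ ?_ ?_
  · rintro ⟨b, g⟩; rw [h1, h2]
  · intro x; simp [h1]
  · rintro ⟨b, g⟩; simp [h1]
  · intro x; simp
  · rintro ⟨b, g⟩; rw [h1]; simp

theorem swindle_in (U : X →L[ℝ] B × X) (L : B × X →L[ℝ] X)
    (h1 : ∀ b g, U (L (b, g)) = (b, L (U g))) (h2 : ∀ b g, L (b, L (U g)) = L (b, g))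
    (h3 : ∀ x, U (L (U x)) = U x) :
    ∃ c : ℝ, 0 < c ∧ ∃ T : (B × X) ≃L[ℝ] X, ∀ z, T z = c • L z + z.2 := by
  refine swindle L (ContinuousLinearMap.snd ℝ B X) U (ContinuousLinearMap.inr ℝ B X) ?_ h3 ?_ ?_ ?_ ?_
  · rintro ⟨b, g⟩; rw [h1, h2]
  · rintro ⟨b, g⟩; simp [h1]
  · intro x; simp [h1]
  · rintro ⟨b, g⟩; rw [h1]; simp
  · intro x; simp

end Abstract

abbrev D := ℕ → Bool

def cons (b : Bool) : C(D, D) :=
  ⟨fun x n => Nat.casesOn n b x, continuous_pi fun n => by
    cases n with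
    | zero => exact continuous_const
    | succ n => exact continuous_apply n⟩

def tail : C(D, D) := ⟨fun x n => x (n + 1), by fun_prop⟩

@[simp] lemma cons_zero (b : Bool) (x : D) : cons b x 0 = b := rfl
@[simp] lemma cons_succ (b : Bool) (x : D) (n : ℕ) : cons b x (n + 1) = x n := rfl
@[simp] lemma tail_cons (b : Bool) (x : D) : tail (cons b x) = x := rfl
lemma cons_tail (x : D) : cons (x 0) (tail x) = x := by
  funext n; cases n <;> rfl

lemma cons_cases (x : D) : ∃ b y, x = cons b y := ⟨_, _, (cons_tail x).symm⟩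

section Ops

variable {K K' V : Type*} [TopologicalSpace K] [TopologicalSpace K']
  [NormedAddCommGroup V] [NormedSpace ℝ V]

def pre (φ : C(K', K)) : C(K, V) →L[ℝ] C(K', V) where
  toFun f := f.comp φ
  map_add' _ _ := rfl
  map_smul' _ _ := rfl
  cont := ContinuousMap.continuous_precomp φ

@[simp] lemma pre_apply (φ : C(K', K)) (f : C(K, V)) (x : K') : pre φ f x = f (φ x) := rfl

def glue0 (a b : C(D, V)) : C(D, V) :=
  ⟨fun x => bif x 0 then a (tail x) else b (tail x),
    by
      have h : Continuous fun z : Bool × V × V => bif z.1 then z.2.1 else z.2.2 := by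
        refine continuous_prod_of_discrete_left.2 fun c => ?_
        cases c
        · exact continuous_snd
        · exact continuous_fst
      exact h.comp (f := fun x : D => (x 0, a (tail x), b (tail x))) (by fun_prop)⟩

noncomputable def glue : C(D, V) × C(D, V) →L[ℝ] C(D, V) :=
  LinearMap.mkContinuous
    { toFun := fun z => glue0 z.1 z.2
      map_add' := fun z w => by
        ext x
        simp only [glue0, ContinuousMap.coe_mk, ContinuousMap.add_apply, Prod.fst_add, Prod.snd_add]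
        cases x 0 <;> rfl
      map_smul' := fun c z => by
        ext x
        simp only [glue0, ContinuousMap.coe_mk, ContinuousMap.smul_apply, RingHom.id_apply]
        cases x 0 <;> rfl } 1 (fun z => by
      rw [one_mul]
      refine (ContinuousMap.norm_le _ (norm_nonneg _)).2 fun x => ?_
      simp only [glue0, LinearMap.coe_mk, AddHom.coe_mk, ContinuousMap.coe_mk]
      cases x 0
      · exact (ContinuousMap.norm_coe_le_norm _ _).trans (norm_snd_le z)
      · exact (ContinuousMap.norm_coe_le_norm _ _).trans (norm_fst_le z))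

@[simp] lemma glue_true (a b : C(D, V)) (x : D) : glue (a, b) (cons true x) = a x := rfl
@[simp] lemma glue_false (a b : C(D, V)) (x : D) : glue (a, b) (cons false x) = b x := rfl

end Ops

def rho : C(D, D) :=
  ⟨fun x n => x n && decide (∀ m : Fin n, x m = false), continuous_pi fun n => by
    have h1 : Continuous fun x : D => (x n, fun m : Fin n => x m) := by fun_prop
    exact (continuous_of_discreteTopology
      (f := fun z : Bool × (Fin n → Bool) => z.1 && decide (∀ m, z.2 m = false))).comp h1⟩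

def e0 : D := cons true fun _ => false

lemma rho_true (x : D) : rho (cons true x) = e0 := by
  funext n
  cases n with
  | zero => simp [rho, e0]
  | succ n =>
    simp only [rho, e0, ContinuousMap.coe_mk, cons_succ, Bool.and_eq_false_imp, decide_eq_false_iff_not]
    intro _ h
    simpa using h 0

lemma rho_false (x : D) : rho (cons false x) = cons false (rho x) := by
  funext n
  cases n with
  | zero => simp [rho]
  | succ n =>
    simp only [rho, ContinuousMap.coe_mk, cons_succ]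
    congr 1
    simp [Fin.forall_fin_succ]

lemma rho_rho (x : D) : rho (rho x) = rho x := by
  funext n
  induction n generalizing x with
  | zero => simp [rho]
  | succ n ih =>
    obtain ⟨b, y, rfl⟩ := cons_cases x
    cases b
    · rw [rho_false, rho_false, cons_succ, cons_succ, ih]
    · rw [rho_true, e0, rho_true, e0]

/-- `C(D × D) = C(D)`. -/
noncomputable def pairH : D × D ≃ₜ D where
  toFun z n := if n % 2 = 0 then z.1 (n / 2) else z.2 (n / 2)
  invFun x := (fun n => x (2 * n), fun n => x (2 * n + 1))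
  left_inv z := by
    ext n
    · simp
    · have h1 : (2 * n + 1) % 2 ≠ 0 := by omega
      have h2 : (2 * n + 1) / 2 = n := by omega
      simp only [h1, if_false, h2]
  right_inv x := by
    funext n
    dsimp only
    split_ifs with h
    · congr 1; omega
    · congr 1; omega
  continuous_toFun := continuous_pi fun n => by
    split_ifs <;> fun_prop
  continuous_invFun := by fun_prop

noncomputable def Theta : C(D, ℝ) ≃L[ℝ] C(D, C(D, ℝ)) where
  toFun f := (f.comp (pairH : C(D × D, D))).curry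
  invFun g := g.uncurry.comp (pairH.symm : C(D, D × D))
  map_add' _ _ := by ext; rfl
  map_smul' _ _ := by ext; rfl
  left_inv f := by
    ext x
    change f (pairH (pairH.symm x)) = f x
    rw [Homeomorph.apply_symm_apply]
  right_inv g := by
    ext x y
    change g (pairH.symm (pairH (x, y))).1 (pairH.symm (pairH (x, y))).2 = g x y
    rw [Homeomorph.symm_apply_apply]
  continuous_toFun := ContinuousMap.continuous_curry.comp (ContinuousMap.continuous_precomp _)
  continuous_invFun := (ContinuousMap.continuous_precomp _).comp ContinuousMap.continuous_uncurry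

lemma Theta_apply (f : C(D, ℝ)) (x y : D) : Theta f x y = f (pairH (x, y)) := rfl
lemma Theta_symm_apply (g : C(D, C(D, ℝ))) (x : D) :
    Theta.symm g x = g (pairH.symm x).1 (pairH.symm x).2 := rfl

section Main

variable {K : Type} [TopologicalSpace K] [CompactSpace K]

/-- `C(D)` maps positively and isomorphically onto `C(K) × C(D)` when `C(K)` is positively
complemented in `C(D)`. -/
theorem out_step (p : C(D, ℝ) →L[ℝ] C(K, ℝ)) (i : C(K, ℝ) →L[ℝ] C(D, ℝ))
    (hpi : ∀ b, p (i b) = b) (hp : ∀ f : C(D, ℝ), (∀ x, 0 ≤ f x) → ∀ y, 0 ≤ p f y)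
    (hi : ∀ f : C(K, ℝ), (∀ x, 0 ≤ f x) → ∀ y, 0 ≤ i f y) :
    ∃ T : C(D, ℝ) ≃L[ℝ] C(K, ℝ) × C(D, ℝ), ∀ f : C(D, ℝ), (∀ x, 0 ≤ f x) →
      (∀ y, 0 ≤ (T f).1 y) ∧ ∀ y, 0 ≤ (T f).2 y := by
  let W : C(D, C(D, ℝ)) →L[ℝ] C(D, C(D, ℝ)) := (i.comp p).compLeftContinuous ℝ D
  have hW : ∀ f x, W f x = i (p (f x)) := fun _ _ => rfl
  let U : C(D, C(D, ℝ)) →L[ℝ] C(K, ℝ) × C(D, C(D, ℝ)) :=
    (p.comp (ContinuousMap.evalCLM ℝ e0)).prod (W.comp (pre ((cons false).comp rho)))
  have hU1 : ∀ f, (U f).1 = p (f e0) := fun _ => rfl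
  have hU2 : ∀ f x, (U f).2 x = i (p (f (cons false (rho x)))) := fun _ _ => rfl
  let L : C(K, ℝ) × C(D, C(D, ℝ)) →L[ℝ] C(D, C(D, ℝ)) :=
    glue.comp (((ContinuousLinearMap.const ℝ D).comp i).prodMap (W.comp (pre rho)))
  have hL1 : ∀ z x, L z (cons true x) = i z.1 := fun _ _ => rfl
  have hL2 : ∀ z x, L z (cons false x) = i (p (z.2 (rho x))) := fun _ _ => rfl
  have hLU : ∀ g x, L (U g) x = i (p (g (rho x))) := fun g x => by
    obtain ⟨b, y, rfl⟩ := cons_cases x
    cases b
    · rw [hL2, hU2, hpi, rho_rho, rho_false]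
    · rw [hL1, hU1, rho_true]
  obtain ⟨c, hc, T, hT⟩ := swindle_out (X := C(D, C(D, ℝ))) (B := C(K, ℝ)) U L
    (fun b g => by
      refine Prod.ext ?_ ?_
      · rw [hU1, e0, hL1, hpi]
      · refine ContinuousMap.ext fun x => ?_
        rw [hU2, hL2, hpi, rho_rho, hLU])
    (fun b g => by
      refine ContinuousMap.ext fun x => ?_
      obtain ⟨b, y, rfl⟩ := cons_cases x
      cases b
      · rw [hL2, hL2, hLU, hpi, rho_rho]
      · rw [hL1, hL1])
    (fun g => by
      refine Prod.ext ?_ ?_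
      · rw [hU1, hU1, hLU, hpi, e0, rho_true, e0]
      · refine ContinuousMap.ext fun x => ?_
        rw [hU2, hU2, hLU, hpi, rho_false, rho_rho])
  refine ⟨(Theta.trans T).trans ((ContinuousLinearEquiv.refl ℝ _).prodCongr Theta.symm),
    fun f hf => ⟨fun y => ?_, fun y => ?_⟩⟩
  · change 0 ≤ (T (Theta f)).1 y
    rw [hT, Prod.fst_add, add_zero, Prod.smul_fst, hU1]
    exact mul_nonneg hc.le (hp (Theta f e0) (fun x => hf (pairH (_, x))) _)
  · change 0 ≤ Theta.symm (T (Theta f)).2 y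
    rw [Theta_symm_apply, hT, Prod.snd_add, Prod.smul_snd]
    refine add_nonneg (mul_nonneg hc.le ?_) (hf _)
    rw [hU2]
    exact hi _ (hp (Theta f _) fun x => hf (pairH (_, x))) _

/-- `C(D) × C(K)` maps positively and isomorphically onto `C(K)` when `C(D)` is positively
complemented in `C(K)`. -/
theorem in_step (r : C(K, ℝ) →L[ℝ] C(D, ℝ)) (E : C(D, ℝ) →L[ℝ] C(K, ℝ))
    (hrE : ∀ b, r (E b) = b) (hr : ∀ f : C(K, ℝ), (∀ x, 0 ≤ f x) → ∀ y, 0 ≤ r f y)
    (hE : ∀ f : C(D, ℝ), (∀ x, 0 ≤ f x) → ∀ y, 0 ≤ E f y) :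
    ∃ S : (C(D, ℝ) × C(K, ℝ)) ≃L[ℝ] C(K, ℝ), ∀ z : C(D, ℝ) × C(K, ℝ), (∀ x, 0 ≤ z.1 x) →
      (∀ x, 0 ≤ z.2 x) → ∀ y, 0 ≤ S z y := by
  let U : C(K, ℝ) →L[ℝ] C(D, ℝ) × C(K, ℝ) :=
    ((pre (cons true)).comp r).prod (E.comp ((pre (cons false)).comp r))
  let L : C(D, ℝ) × C(K, ℝ) →L[ℝ] C(K, ℝ) :=
    E.comp (glue.comp ((ContinuousLinearMap.id ℝ _).prodMap r))
  have hU : ∀ f, U f = (pre (cons true) (r f), E (pre (cons false) (r f))) := fun _ => rfl
  have hL : ∀ b g, L (b, g) = E (glue (b, r g)) := fun _ _ => rfl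
  have hg : ∀ h : C(D, ℝ), glue (pre (cons true) h, pre (cons false) h) = h := fun h => by
    ext x
    obtain ⟨b, y, rfl⟩ := cons_cases x
    cases b <;> rfl
  have hLU : ∀ g, L (U g) = E (r g) := fun g => by rw [hU, hL, hrE, hg]
  obtain ⟨c, hc, S, hS⟩ := swindle_in (X := C(K, ℝ)) (B := C(D, ℝ)) U L
    (fun b g => by rw [hLU, hL, hU, hrE]; rfl)
    (fun b g => by rw [hLU, hL, hL, hrE])
    (fun g => by rw [hLU, hU, hU, hrE])
  refine ⟨S, fun z h1 h2 y => ?_⟩
  rw [hS]
  refine add_nonneg (mul_nonneg hc.le ?_) (h2 y)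
  obtain ⟨b, g⟩ := z
  rw [hL]
  refine hE _ (fun x => ?_) y
  obtain ⟨b', w, rfl⟩ := cons_cases x
  cases b'
  · exact hr _ h2 _
  · exact h1 _

end Main

end Pool.Agent.H18.Swindle
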