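import Mathlib

set_option autoImplicit false

namespace Pool.Agent.H18.Tau

open Set

noncomputable section
open Classical

/-- the set contains arbitrarily large finite homogeneous subsets -/
def Pos (R : ℕ → ℕ → Prop) (A : Set ℕ) : Prop :=
  ∀ m : ℕ, ∃ F : Finset ℕ, m ≤ F.card ∧ (↑F : Set ℕ) ⊆ A ∧ ∀ a ∈ F, ∀ b ∈ F, R a b

lemma Pos.infinite {R : ℕ → ℕ → Prop} {A : Set ℕ} (h : Pos R A) : A.Infinite := by
  intro hf
  obtain ⟨F, h1, h2, -⟩ := h (hf.toFinset.card + 1)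
  have : F ⊆ hf.toFinset := fun a ha => hf.mem_toFinset.mpr (h2 ha)
  have := Finset.card_le_card this
  omega

lemma pos_true {A : Set ℕ} (h : A.Infinite) : Pos (fun _ _ => True) A := by
  intro m
  obtain ⟨F, h1, h2⟩ := h.exists_subset_card_eq m
  exact ⟨F, h2.ge, h1, fun _ _ _ _ => trivial⟩

lemma Pos.mono {R : ℕ → ℕ → Prop} {A B : Set ℕ} (h : Pos R A) (hf : (A \ B).Finite) :
    Pos R B := by
  intro m
  obtain ⟨F, h1, h2, h3⟩ := h (m + hf.toFinset.card)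
  refine ⟨F \ hf.toFinset, ?_, fun a ha => ?_, fun a ha b hb =>
    h3 a (Finset.mem_sdiff.mp ha).1 b (Finset.mem_sdiff.mp hb).1⟩
  · have := Finset.le_card_sdiff hf.toFinset F
    omega
  · obtain ⟨a1, a2⟩ := Finset.mem_sdiff.mp ha
    by_contra hb
    exact a2 (hf.mem_toFinset.mpr ⟨h2 a1, hb⟩)

lemma fin_trans {A B C : Set ℕ} (h1 : (A \ B).Finite) (h2 : (B \ C).Finite) : (A \ C).Finite :=
  (h1.union h2).subset (fun a ha => by
    by_cases hb : a ∈ B
    · exact Or.inr ⟨hb, ha.2⟩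
    · exact Or.inl ⟨ha.1, hb⟩)

lemma pseudo {R : ℕ → ℕ → Prop} {C : Set (Set ℕ)} (hc : C.Countable) (hne : C.Nonempty)
    (hp : ∀ A ∈ C, Pos R A) (hch : ∀ A ∈ C, ∀ B ∈ C, (A \ B).Finite ∨ (B \ A).Finite) :
    ∃ B, Pos R B ∧ ∀ A ∈ C, (B \ A).Finite := by
  obtain ⟨f, rfl⟩ := hc.exists_eq_range hne
  have a : ∀ m : ℕ, ∃ j, ∀ i, i ≤ m → (f j \ f i).Finite := by
    intro m
    induction m with
    | zero => exact ⟨0, fun i hi => by rw [Nat.le_zero.mp hi]; simp⟩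
    | succ m ih =>
      obtain ⟨j, hj⟩ := ih
      rcases hch _ ⟨j, rfl⟩ _ ⟨m + 1, rfl⟩ with t | t
      · refine ⟨j, fun i hi => ?_⟩
        rcases Nat.of_le_succ hi with u | u
        · exact hj i u
        · rw [u]; exact t
      · refine ⟨m + 1, fun i hi => ?_⟩
        rcases Nat.of_le_succ hi with u | u
        · exact fin_trans t (hj i u)
        · rw [u]; simp
  have b : ∀ m : ℕ, Pos R {n | ∀ i, i ≤ m → n ∈ f i} := by
    intro m
    obtain ⟨j, hj⟩ := a m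
    refine (hp _ ⟨j, rfl⟩).mono (((finite_le_nat m).biUnion (fun i hi => hj i hi)).subset ?_)
    intro n hn
    have := hn.2
    simp only [mem_setOf_eq, not_forall] at this
    obtain ⟨i, i1, i2⟩ := this
    exact mem_biUnion (show i ∈ {i | i ≤ m} from i1) ⟨hn.1, i2⟩
  choose F F1 F2 F3 using fun m => b m m
  refine ⟨⋃ m, (F m : Set ℕ), fun m => ⟨F m, F1 m, subset_iUnion (fun m => (F m : Set ℕ)) m, F3 m⟩, ?_⟩
  rintro A ⟨i, rfl⟩
  refine (((finite_lt_nat i).biUnion (fun m _ => (F m).finite_toSet))).subset ?_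
  rintro n ⟨n1, n2⟩
  obtain ⟨m, hm⟩ := mem_iUnion.mp n1
  refine mem_biUnion (show m ∈ {m | m < i} from ?_) hm
  by_contra hh
  exact n2 (F2 m hm i (not_lt.mp hh))

/-- open sets of the cover -/
def UU (n : ℕ) : Set (ℕ → Bool) :=
  {x | ¬ (x n = true ∧ ∀ m, m < n → Nat.sqrt m = Nat.sqrt n → x m = false)}

lemma UU_open (n : ℕ) : IsOpen (UU n) := by
  refine isOpen_compl_iff.mpr (show IsClosed {x : ℕ → Bool | x n = true ∧
    ∀ m, m < n → Nat.sqrt m = Nat.sqrt n → x m = false} from ?_)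
  simp only [setOf_and, setOf_forall]
  exact (isClosed_eq (continuous_apply n) continuous_const).inter
    (isClosed_iInter fun m => isClosed_iInter fun _ => isClosed_iInter fun _ =>
      isClosed_eq (continuous_apply m) continuous_const)

lemma single_UU (n m : ℕ) : (fun k => decide (k = n)) ∈ UU m ↔ m ≠ n := by
  simp only [UU, mem_setOf_eq, decide_eq_true_eq, decide_eq_false_iff_not]
  constructor
  · rintro h rfl
    exact h ⟨rfl, fun k hk _ => hk.ne⟩
  · exact fun h t => h t.1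

lemma pos_univ : Pos (fun a b => Nat.sqrt a = Nat.sqrt b) univ := by
  intro m
  refine ⟨Finset.Ico (m * m) (m * m + m), by simp, subset_univ _, ?_⟩
  have : ∀ a ∈ Finset.Ico (m * m) (m * m + m), Nat.sqrt a = m := by
    intro a ha
    rw [Finset.mem_Ico] at ha
    symm
    rw [Nat.eq_sqrt]
    constructor <;> nlinarith [ha.1, ha.2]
  exact fun a ha b hb => (this a ha).trans (this b hb).symm

lemma Pos.inter {A : Set ℕ} (h : Pos (fun a b => Nat.sqrt a = Nat.sqrt b) A) (x : ℕ → Bool) :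
    Pos (fun a b => Nat.sqrt a = Nat.sqrt b) (A ∩ {n | x ∈ UU n}) := by
  intro m
  obtain ⟨F, h1, h2, h3⟩ := h (m + 1)
  refine ⟨F.filter (fun n => x ∈ UU n), ?_, fun a ha => ?_, fun a ha b hb =>
    h3 a (Finset.mem_filter.mp ha).1 b (Finset.mem_filter.mp hb).1⟩
  · have e := Finset.card_filter_add_card_filter_not (s := F) (fun n => x ∈ UU n)
    have : (F.filter (fun n => ¬ x ∈ UU n)).card ≤ 1 := by
      rw [Finset.card_le_one]
      intro a ha b hb
      obtain ⟨a1, a2⟩ := Finset.mem_filter.mp ha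
      obtain ⟨b1, b2⟩ := Finset.mem_filter.mp hb
      have a3 := not_not.mp a2
      have b3 := not_not.mp b2
      rcases lt_trichotomy a b with t | t | t
      · have := b3.2 a t (h3 a a1 b b1)
        rw [a3.1] at this; exact absurd this (by simp)
      · exact t
      · have := a3.2 b t (h3 b b1 a a1)
        rw [b3.1] at this; exact absurd this (by simp)
    omega
  · obtain ⟨a1, a2⟩ := Finset.mem_filter.mp ha
    exact ⟨h2 a1, a2⟩

lemma no_gamma {A : Set ℕ} (hA : A.Infinite) :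
    ∃ x : ℕ → Bool, {n : ℕ | n ∈ A ∧ x ∉ UU n}.Infinite := by
  refine ⟨fun n => decide (n ∈ A), infinite_of_forall_exists_gt fun N => ?_⟩
  obtain ⟨a, ha, a2⟩ := hA.exists_gt ((N + 1) * (N + 1))
  have ex : ∃ m, m ∈ A ∧ Nat.sqrt m = Nat.sqrt a := ⟨a, ha, rfl⟩
  obtain ⟨m1, m2⟩ := Nat.find_spec ex
  refine ⟨Nat.find ex, ⟨m1, not_not.mpr ⟨by simpa using m1, fun k hk t => ?_⟩⟩, ?_⟩
  · simpa using fun u => Nat.find_min ex hk ⟨u, t.trans m2⟩
  · have t1 : N + 1 ≤ Nat.sqrt a := Nat.le_sqrt.mpr a2.le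
    have t2 := Nat.sqrt_le_self (Nat.find ex)
    omega

lemma tower (hCH : Cardinal.continuum.{0} = Cardinal.aleph 1) :
    ∃ B : (ℕ → Bool) → Set ℕ, (∀ x, B x ⊆ {n : ℕ | x ∈ UU n} ∧ (B x).Infinite) ∧
      ∀ x y, (B x \ B y).Finite ∨ (B y \ B x).Finite := by
  obtain ⟨r, wo, hr⟩ := Cardinal.exists_ord_eq (ℕ → Bool)
  have cnt : ∀ x, {y | r y x}.Countable := by
    intro x
    rw [Cardinal.countable_iff_lt_aleph_one, ← hCH]
    have := Cardinal.card_typein_lt x hr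
    rw [Ordinal.card_typein] at this
    refine this.trans_le (le_of_eq ?_)
    simp
  let Q : (x : ℕ → Bool) → ((y : ℕ → Bool) → r y x → Set ℕ) → Set ℕ → Prop := fun x f C =>
    Pos (fun a b => Nat.sqrt a = Nat.sqrt b) C ∧ C ⊆ {n : ℕ | x ∈ UU n} ∧
      ∀ y hy, (C \ f y hy).Finite
  let B : (ℕ → Bool) → Set ℕ := wo.wf.fix (fun x f => Classical.epsilon (Q x f))
  have hB : ∀ x, B x = Classical.epsilon (Q x (fun y _ => B y)) := fun x => wo.wf.fix_eq _ x
  have key : ∀ x, Q x (fun y _ => B y) (B x) := by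
    intro x
    induction x using wo.wf.induction with
    | _ x ih =>
      rw [hB x]
      apply Classical.epsilon_spec
      obtain ⟨C, c1, c2⟩ := pseudo (R := fun a b => Nat.sqrt a = Nat.sqrt b)
        (C := insert univ (B '' {y | r y x})) (((cnt x).image _).insert _) (insert_nonempty _ _)
        (by
          rintro A (rfl | ⟨y, hy, rfl⟩)
          · exact pos_univ
          · exact (ih y hy).1)
        (by
          rintro A (rfl | ⟨y, hy, rfl⟩) A' (rfl | ⟨y', hy', rfl⟩)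
          · simp
          · right; simp
          · left; simp
          · rcases trichotomous_of r y y' with t | t | t
            · exact Or.inr ((ih y' hy').2.2 y t)
            · rw [t]; simp
            · exact Or.inl ((ih y hy).2.2 y' t))
      exact ⟨C ∩ {n | x ∈ UU n}, c1.inter x, inter_subset_right, fun y hy =>
        (c2 _ (Or.inr ⟨y, hy, rfl⟩)).subset (fun n hn => ⟨hn.1.1, hn.2⟩)⟩
  refine ⟨B, fun x => ⟨(key x).2.1, (key x).1.infinite⟩, fun x y => ?_⟩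
  rcases trichotomous_of r x y with t | t | t
  · exact Or.inr ((key y).2.2 x t)
  · rw [t]; simp
  · exact Or.inl ((key x).2.2 y t)

/-- an open retraction of the Cantor space onto a closed set -/
def phi (K : Set (ℕ → Bool)) (x : ℕ → Bool) (n : ℕ) : Bool :=
  if ∃ y ∈ K, (∀ i : Fin n, y i = phi K x i) ∧ y n = x n then x n else !x n
termination_by n
decreasing_by exact i.2

lemma phi_ext {K : Set (ℕ → Bool)} (hne : K.Nonempty) (x : ℕ → Bool) (n : ℕ) :
    ∃ y ∈ K, ∀ i < n, y i = phi K x i := by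
  induction n with
  | zero => obtain ⟨y, hy⟩ := hne; exact ⟨y, hy, fun i hi => absurd hi (by omega)⟩
  | succ n ih =>
    by_cases h : ∃ y ∈ K, (∀ i : Fin n, y i = phi K x i) ∧ y n = x n
    · have e : phi K x n = x n := by rw [phi, if_pos h]
      obtain ⟨y, y1, y2, y3⟩ := h
      refine ⟨y, y1, fun i hi => ?_⟩
      rcases Nat.lt_succ_iff_lt_or_eq.mp hi with t | t
      · exact y2 ⟨i, t⟩
      · rw [t, e, y3]
    · have e : phi K x n = !x n := by rw [phi, if_neg h]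
      obtain ⟨y, y1, y2⟩ := ih
      refine ⟨y, y1, fun i hi => ?_⟩
      rcases Nat.lt_succ_iff_lt_or_eq.mp hi with t | t
      · exact y2 i t
      · rw [t, e]
        have : y n ≠ x n := fun u => h ⟨y, y1, fun i => y2 i i.2, u⟩
        revert this
        cases y n <;> cases x n <;> simp

lemma phi_loc (K : Set (ℕ → Bool)) {x x' : ℕ → Bool} (n : ℕ) (h : ∀ i < n, x' i = x i) :
    ∀ i < n, phi K x' i = phi K x i := by
  intro i
  induction i using Nat.strong_induction_on with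
  | _ i ih =>
    intro hi
    rw [phi, phi, h i hi]
    have : ∀ j : Fin i, phi K x' j = phi K x j := fun j => ih j j.2 (j.2.trans hi)
    simp only [this]

lemma cyl_nhds {x : ℕ → Bool} {O : Set (ℕ → Bool)} (hO : IsOpen O) (hx : x ∈ O) :
    ∃ n, ∀ y : ℕ → Bool, (∀ i < n, y i = x i) → y ∈ O := by
  obtain ⟨v, ⟨z, n, rfl⟩, v1, v2⟩ :=
    (PiNat.isTopologicalBasis_cylinders (fun _ => Bool)).exists_subset_of_mem_open hx hO
  refine ⟨n, fun y hy => v2 (PiNat.mem_cylinder_iff.mpr fun i hi => ?_)⟩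
  rw [hy i hi, PiNat.mem_cylinder_iff.mp v1 i hi]

lemma phi_mem {K : Set (ℕ → Bool)} (hK : IsClosed K) (hne : K.Nonempty) (x : ℕ → Bool) :
    phi K x ∈ K := by
  by_contra hn
  obtain ⟨n, h⟩ := cyl_nhds hK.isOpen_compl hn
  obtain ⟨y, y1, y2⟩ := phi_ext hne x n
  exact h y y2 y1

lemma phi_cont (K : Set (ℕ → Bool)) : Continuous (phi K) := by
  refine continuous_pi fun n => (IsLocallyConstant.iff_exists_open _).mpr (fun x => ?_) |>.continuous
  exact ⟨PiNat.cylinder x (n + 1), PiNat.isOpen_cylinder _ x _, PiNat.self_mem_cylinder _ _,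
    fun y hy => phi_loc K (n + 1) (PiNat.mem_cylinder_iff.mp hy) n (by omega)⟩

lemma phi_open {K : Set (ℕ → Bool)} {x y : ℕ → Bool} (n : ℕ) (hy : y ∈ K)
    (h : ∀ i < n, y i = phi K x i) : ∃ x' : ℕ → Bool, (∀ i < n, x' i = x i) ∧ phi K x' = y := by
  have l : ∀ i < n, (fun i => if i < n then x i else y i) i = x i := fun i hi => if_pos hi
  refine ⟨fun i => if i < n then x i else y i, l, funext fun i => ?_⟩
  induction i using Nat.strong_induction_on with
  | _ i ih =>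
    by_cases hi : i < n
    · rw [phi_loc K n l i hi, h i hi]
    · rw [phi, if_pos ⟨y, hy, fun j => (ih j j.2).symm, by simp [hi]⟩]
      simp [hi]

lemma baire (H2 : ∀ S : Set (Set (ℕ → Bool)), Cardinal.mk S ≤ Cardinal.aleph 1 →
      (∀ s ∈ S, IsMeagre s) → ⋃₀ S ≠ univ)
    {K : Set (ℕ → Bool)} (hK : IsClosed K) (hne : K.Nonempty) {L : Set (Set ℕ)}
    (hL : Cardinal.mk L ≤ Cardinal.aleph 1)
    (hc : ∀ y ∈ K, ∃ T ∈ L, (T \ {n | y n = true}).Finite) :
    ∃ O : Set (ℕ → Bool), IsOpen O ∧ (O ∩ K).Nonempty ∧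
      ∃ T ∈ L, ∀ y ∈ O ∩ K, (T \ {n | y n = true}).Finite := by
  let D : L × ℕ → Set (ℕ → Bool) := fun p => {x | ∀ n, p.2 ≤ n → n ∈ p.1.1 → phi K x n = true}
  have hD : ∀ p, IsClosed (D p) := by
    intro p
    simp only [D, setOf_forall]
    exact isClosed_iInter fun n => isClosed_iInter fun _ => isClosed_iInter fun _ =>
      isClosed_eq ((continuous_apply n).comp (phi_cont K)) continuous_const
  have card : Cardinal.mk (range D) ≤ Cardinal.aleph 1 := by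
    refine Cardinal.mk_range_le.trans ?_
    rw [Cardinal.mk_prod, Cardinal.lift_id, Cardinal.lift_id, Cardinal.mk_nat]
    exact (mul_le_mul' hL (Cardinal.aleph0_le_aleph 1)).trans
      (Cardinal.mul_eq_self (Cardinal.aleph0_le_aleph 1)).le
  have cov : ⋃₀ range D = univ := by
    refine eq_univ_of_forall fun x => ?_
    obtain ⟨T, t1, t2⟩ := hc _ (phi_mem hK hne x)
    obtain ⟨m, hm⟩ := t2.bddAbove
    refine ⟨_, ⟨(⟨T, t1⟩, m + 1), rfl⟩, fun n n1 n2 => ?_⟩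
    by_contra n3
    have := hm ⟨n2, n3⟩
    simp only at n1
    omega
  have : ∃ p, ¬ IsMeagre (D p) := by
    by_contra hh
    refine H2 _ card ?_ cov
    rintro s ⟨p, rfl⟩
    by_contra t
    exact hh ⟨p, t⟩
  obtain ⟨p, hp⟩ := this
  have ne : (interior (D p)).Nonempty := by
    rw [nonempty_iff_ne_empty]
    exact fun t => hp ((hD p).isNowhereDense_iff.mpr t).isMeagre
  obtain ⟨x, hx⟩ := ne
  obtain ⟨n, hn⟩ := cyl_nhds isOpen_interior hx
  refine ⟨PiNat.cylinder (phi K x) n, PiNat.isOpen_cylinder _ _ _,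
    ⟨phi K x, PiNat.self_mem_cylinder _ _, phi_mem hK hne x⟩, p.1.1, p.1.2, fun y hy => ?_⟩
  obtain ⟨x', x1, rfl⟩ := phi_open n hy.2 (PiNat.mem_cylinder_iff.mp hy.1)
  have := interior_subset (hn x' x1)
  refine (finite_lt_nat p.2).subset fun k hk => ?_
  by_contra hh
  exact hk.2 (this k (not_lt.mp hh) hk.1)

theorem yes (H1 : ∀ L : Set (Set ℕ), (∀ A ∈ L, ∀ B ∈ L, (A \ B).Finite ∨ (B \ A).Finite) →
      ∃ L' ⊆ L, Cardinal.mk L' ≤ Cardinal.aleph 1 ∧ ∀ A ∈ L, ∃ B ∈ L', (B \ A).Finite)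
    (H2 : ∀ S : Set (Set (ℕ → Bool)), Cardinal.mk S ≤ Cardinal.aleph 1 →
      (∀ s ∈ S, IsMeagre s) → ⋃₀ S ≠ univ)
    (U : ℕ → Set (ℕ → Bool)) (hU : ∀ n, IsOpen (U n)) (B : (ℕ → Bool) → Set ℕ)
    (h1 : ∀ x, B x ⊆ {n : ℕ | x ∈ U n} ∧ (B x).Infinite)
    (h2 : ∀ x y, (B x \ B y).Finite ∨ (B y \ B x).Finite) :
    ∃ A : Set ℕ, A.Infinite ∧ ∀ x : ℕ → Bool, {n : ℕ | n ∈ A ∧ x ∉ U n}.Finite := by
  have ch : ∀ A ∈ range B, ∀ A' ∈ range B, (A \ A').Finite ∨ (A' \ A).Finite := by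
    rintro _ ⟨x, rfl⟩ _ ⟨y, rfl⟩; exact h2 x y
  by_contra hcon
  have low : ∀ C ⊆ range B, C.Countable → ∃ T ∈ range B, ∀ A ∈ C, (T \ A).Finite := by
    intro C c1 c2
    by_contra hn
    have hn' : ∀ x, ∃ A ∈ C, (A \ B x).Finite := by
      intro x
      by_contra t
      exact hn ⟨B x, ⟨x, rfl⟩, fun A hA =>
        (ch _ ⟨x, rfl⟩ A (c1 hA)).resolve_right fun u => t ⟨A, hA, u⟩⟩
    obtain ⟨A0, a0, -⟩ := hn' (fun _ => true)
    obtain ⟨P, p1, p2⟩ := pseudo (R := fun _ _ => True) c2 ⟨A0, a0⟩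
      (fun A hA => by obtain ⟨x, rfl⟩ := c1 hA; exact pos_true (h1 x).2)
      (fun A hA A' hA' => ch A (c1 hA) A' (c1 hA'))
    refine hcon ⟨P, p1.infinite, fun x => ?_⟩
    obtain ⟨A, a1, a2⟩ := hn' x
    exact (fin_trans (p2 A a1) a2).subset (fun n hn => ⟨hn.1, fun t => hn.2 ((h1 x).1 t)⟩)
  obtain ⟨L, l1, l2, l3⟩ := H1 _ ch
  let Y : Set (ℕ → Bool) := Prod.snd '' {p : (ℕ → Bool) × (ℕ → Bool) | ∀ n, p.1 ∉ U n ∨ p.2 n = true}
  have hY : IsClosed Y := by
    refine (IsCompact.image (IsClosed.isCompact ?_) continuous_snd).isClosed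
    simp only [setOf_forall, setOf_or]
    exact isClosed_iInter fun n => ((hU n).isClosed_compl.preimage continuous_fst).union
      (isClosed_eq ((continuous_apply n).comp continuous_snd) continuous_const)
  let S : Set (Set (ℕ → Bool)) := {O | IsOpen O ∧
    ∃ T ∈ range B, ∀ y ∈ O ∩ Y, (T \ {n | y n = true}).Finite}
  obtain ⟨S', s1, s2, s3⟩ := TopologicalSpace.isOpen_sUnion_countable S (fun O hO => hO.1)
  have : ∀ O : S', ∃ T ∈ range B, ∀ y ∈ O.1 ∩ Y, (T \ {n | y n = true}).Finite :=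
    fun O => (s2 O.2).2
  choose τ τ1 τ2 using this
  haveI := s1.to_subtype
  obtain ⟨T, t1, t2⟩ := low (range τ) (by rintro _ ⟨O, rfl⟩; exact τ1 O) (countable_range τ)
  have t3 : ∀ y ∈ ⋃₀ S ∩ Y, (T \ {n | y n = true}).Finite := by
    rintro y ⟨y1, y2⟩
    rw [← s3] at y1
    obtain ⟨O, o1, o2⟩ := y1
    exact fin_trans (t2 _ ⟨⟨O, o1⟩, rfl⟩) (τ2 ⟨O, o1⟩ y ⟨o2, y2⟩)
  have all : Y ⊆ ⋃₀ S := by
    by_contra hn
    obtain ⟨y0, y1, y2⟩ := not_subset.mp hn
    obtain ⟨O, o1, ⟨y, o2, o3⟩, T', u1, u2⟩ := baire H2 (K := Y ∩ (⋃₀ S)ᶜ)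
      (hY.inter (isOpen_sUnion fun O hO => hO.1).isClosed_compl) ⟨y0, y1, y2⟩ l2 (by
        rintro y ⟨⟨p, p1, rfl⟩, -⟩
        obtain ⟨A, a1, a2⟩ := l3 _ ⟨p.1, rfl⟩
        exact ⟨A, a1, a2.subset fun n hn => ⟨hn.1, fun t =>
          hn.2 ((p1 n).resolve_left (not_not.mpr ((h1 p.1).1 t)))⟩⟩)
    obtain ⟨T'', v1, v2⟩ := low {T, T'} (by
      rintro _ (rfl | rfl)
      · exact t1
      · exact l1 u1) (toFinite _).countable
    refine o3.2 ⟨O, ⟨o1, T'', v1, fun w hw => ?_⟩, o2⟩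
    by_cases hs : w ∈ ⋃₀ S
    · exact fin_trans (v2 T (Or.inl rfl)) (t3 w ⟨hs, hw.2⟩)
    · exact fin_trans (v2 T' (Or.inr rfl)) (u2 w ⟨hw.1, hw.2, hs⟩)
  obtain ⟨x0, rfl⟩ := t1
  refine hcon ⟨B x0, (h1 x0).2, fun x => ?_⟩
  have hy : (fun n => decide (x ∈ U n)) ∈ Y :=
    ⟨(x, fun n => decide (x ∈ U n)), fun n => by by_cases t : x ∈ U n <;> simp [t], rfl⟩
  exact (t3 _ ⟨all hy, hy⟩).subset fun n hn => ⟨hn.1, by simpa using hn.2⟩

end

end Pool.Agent.H18.Tau
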