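import Pool.Agent.H18.Tau1

set_option autoImplicit false

namespace Pool.Agent.H18.Tau

open Set TopologicalSpace

noncomputable section
open Classical

section Luzin

variable {Z : Type} [TopologicalSpace Z]

/-- the set meets every nowhere dense set in a countable set -/
def Luz (L : Set Z) : Prop := ∀ N : Set Z, IsNowhereDense N → (L ∩ N).Countable

lemma Luz.baire {L : Set Z} (hL : Luz L) {O : Set Z} (hO : IsOpen O) (hu : ¬ (L ∩ O).Countable)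
    {ι : Type} [Countable ι] (S : ι → Set Z) (hc : L ∩ O ⊆ ⋃ i, S i) :
    ∃ i, ∃ O' : Set Z, IsOpen O' ∧ O'.Nonempty ∧ O' ⊆ O ∧ O' ⊆ closure (S i) := by
  have : ∃ i, ¬ IsNowhereDense (S i ∩ O) := by
    by_contra hn
    apply hu
    refine (countable_iUnion fun i => hL (S i ∩ O) (by
      by_contra t
      exact hn ⟨i, t⟩)).mono ?_
    intro y hy
    obtain ⟨i, hi⟩ := mem_iUnion.mp (hc hy)
    exact mem_iUnion.mpr ⟨i, hy.1, hi, hy.2⟩
  obtain ⟨i, hi⟩ := this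
  have ne : (interior (closure (S i ∩ O))).Nonempty := nonempty_iff_ne_empty.mpr hi
  obtain ⟨p, hp⟩ := ne
  obtain ⟨q, q1, q2⟩ := mem_closure_iff.mp (interior_subset hp) _ isOpen_interior hp
  exact ⟨i, interior (closure (S i ∩ O)) ∩ O, isOpen_interior.inter hO, ⟨q, q1, q2.2⟩,
    inter_subset_right, fun y hy => closure_mono inter_subset_left (interior_subset hy.1)⟩

lemma fin_bound {A B : Set ℕ} (h : (A \ B).Finite) : ∃ m, ∀ n, m ≤ n → n ∈ A → n ∈ B := by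
  obtain ⟨m, hm⟩ := h.bddAbove
  refine ⟨m + 1, fun n n1 n2 => ?_⟩
  by_contra n3
  have := hm ⟨n2, n3⟩
  omega

lemma bound_fin {A B : Set ℕ} {m : ℕ} (h : ∀ n, m ≤ n → n ∈ A → n ∈ B) : (A \ B).Finite :=
  (finite_lt_nat m).subset fun n hn => by
    by_contra t
    exact hn.2 (h n (not_lt.mp t) hn.1)

lemma Luz.good [SecondCountableTopology Z] {L : Set Z} (hL : Luz L) {U : ℕ → Set Z}
    (hU : ∀ n, IsOpen (U n))
    (h2 : ∀ x ∈ L, ∀ y ∈ L, ({n | x ∈ U n} \ {n | y ∈ U n}).Finite ∨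
      ({n | y ∈ U n} \ {n | x ∈ U n}).Finite) {O0 : Set Z} (hO : IsOpen O0) (hne : O0.Nonempty) :
    ∃ O : Set Z, IsOpen O ∧ O.Nonempty ∧ O ⊆ O0 ∧ ((L ∩ O).Countable ∨
      ∃ y ∈ L, ({n | y ∈ U n} \ {n | O ⊆ closure (U n)}).Finite) := by
  by_contra hcon
  have H1 : ∀ O : Set Z, IsOpen O → O.Nonempty → O ⊆ O0 → ¬ (L ∩ O).Countable :=
    fun O a b c t => hcon ⟨O, a, b, c, Or.inl t⟩
  have H2 : ∀ O : Set Z, IsOpen O → O.Nonempty → O ⊆ O0 → ∀ y ∈ L, ∀ m : ℕ,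
      ¬ ∀ n, m ≤ n → y ∈ U n → O ⊆ closure (U n) :=
    fun O a b c y hy m t => hcon ⟨O, a, b, c, Or.inr ⟨y, hy, bound_fin t⟩⟩
  let B : Set (Set Z) := {O ∈ countableBasis Z | O.Nonempty ∧ O ⊆ O0}
  haveI : Countable B := ((countable_countableBasis Z).mono (sep_subset _ _)).to_subtype
  have a : ∀ y ∈ L, ∃ p : B × ℕ, ∀ n, p.2 ≤ n → (U n ∩ p.1.1).Nonempty → y ∈ U n := by
    intro y hy
    obtain ⟨i, O, o1, o2, o3, o4⟩ := hL.baire hO (H1 O0 hO hne subset_rfl) (ι := Bool × ℕ)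
      (fun i => if i.1 then {y' | ∀ n, i.2 ≤ n → y' ∈ U n → y ∈ U n}
        else {y' | ∀ n, i.2 ≤ n → y ∈ U n → y' ∈ U n}) (by
        intro y' hy'
        rcases h2 y' hy'.1 y hy with t | t
        · obtain ⟨m, hm⟩ := fin_bound t
          exact mem_iUnion.mpr ⟨(true, m), hm⟩
        · obtain ⟨m, hm⟩ := fin_bound t
          exact mem_iUnion.mpr ⟨(false, m), hm⟩)
    obtain ⟨b, m⟩ := i
    cases b
    · exfalso
      exact H2 O o1 o2 o3 y hy m fun n n1 n2 => o4.trans (closure_mono fun y' t => t n n1 n2)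
    · obtain ⟨q, hq⟩ := o2
      obtain ⟨O', u1, u2, u3⟩ := (isBasis_countableBasis Z).exists_subset_of_mem_open hq o1
      refine ⟨(⟨O', u1, ⟨q, u2⟩, u3.trans o3⟩, m), fun n n1 ⟨w, w1, w2⟩ => ?_⟩
      obtain ⟨w', w3, w4⟩ := mem_closure_iff.mp (o4 (u3 w2)) _ (hU n) w1
      exact w4 n n1 w3
  obtain ⟨p, O, o1, o2, o3, o4⟩ := hL.baire hO (H1 O0 hO hne subset_rfl) (ι := B × ℕ)
    (fun p => {y | ∀ n, p.2 ≤ n → (U n ∩ p.1.1).Nonempty → y ∈ U n})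
    (fun y hy => mem_iUnion.mpr (a y hy.1))
  have : (L ∩ p.1.1).Nonempty := by
    rw [nonempty_iff_ne_empty]
    intro t
    exact H1 _ (isOpen_of_mem_countableBasis p.1.2.1) p.1.2.2.1 p.1.2.2.2 (t ▸ countable_empty)
  obtain ⟨y, y1, y2⟩ := this
  exact H2 O o1 o2 o3 y y1 p.2 fun n n1 n2 =>
    o4.trans (closure_mono fun y' t => t n n1 ⟨y, n2, y2⟩)

theorem Luz.gamma [SecondCountableTopology Z] {L : Set Z} (hL : Luz L) {U : ℕ → Set Z}
    (hU : ∀ n, IsOpen (U n)) (h1 : ∀ x ∈ L, {n | x ∈ U n}.Infinite)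
    (h2 : ∀ x ∈ L, ∀ y ∈ L, ({n | x ∈ U n} \ {n | y ∈ U n}).Finite ∨
      ({n | y ∈ U n} \ {n | x ∈ U n}).Finite) :
    ∃ A : Set ℕ, A.Infinite ∧ ∀ x ∈ L, (A \ {n | x ∈ U n}).Finite := by
  let B : Set (Set Z) := {O ∈ countableBasis Z | (L ∩ O).Countable ∨
      ∃ y ∈ L, ({n | y ∈ U n} \ {n | O ⊆ closure (U n)}).Finite}
  have hB : B.Countable := (countable_countableBasis Z).mono (sep_subset _ _)
  haveI : Countable B := hB.to_subtype
  have hW : IsOpen (⋃₀ B) := isOpen_sUnion fun O hO => isOpen_of_mem_countableBasis hO.1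
  have dW : IsNowhereDense (⋃₀ B)ᶜ := by
    rw [hW.isClosed_compl.isNowhereDense_iff]
    by_contra t
    obtain ⟨O, o1, ⟨q, hq⟩, o3, o4⟩ := hL.good hU h2 isOpen_interior (nonempty_iff_ne_empty.mpr t)
    obtain ⟨O', u1, u2, u3⟩ := (isBasis_countableBasis Z).exists_subset_of_mem_open hq o1
    refine interior_subset (o3 hq) ⟨O', ⟨u1, ?_⟩, u2⟩
    rcases o4 with s | ⟨y, y1, y2⟩
    · exact Or.inl (s.mono (inter_subset_inter_right _ u3))
    · exact Or.inr ⟨y, y1, y2.subset fun n hn => ⟨hn.1, fun s => hn.2 (u3.trans s)⟩⟩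
  have dU : ∀ n, IsNowhereDense (closure (U n) \ U n) := by
    intro n
    rw [(isClosed_closure.sdiff (hU n)).isNowhereDense_iff]
    have := interior_frontier (hU n).isClosed_compl
    rwa [frontier_compl, (hU n).frontier_eq] at this
  have : ∀ O : B, ∃ C : Set Z, C.Countable ∧ C ⊆ L ∧ (L ∩ O.1 ⊆ C ∨
      ∃ y ∈ C, ({n | y ∈ U n} \ {n | O.1 ⊆ closure (U n)}).Finite) := by
    intro O
    rcases O.2.2 with s | ⟨y, y1, y2⟩
    · exact ⟨_, s, inter_subset_left, Or.inl subset_rfl⟩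
    · exact ⟨{y}, countable_singleton y, singleton_subset_iff.mpr y1, Or.inr ⟨y, rfl, y2⟩⟩
  choose C c1 c2 c3 using this
  let C0 : Set Z := (L ∩ (⋃₀ B)ᶜ) ∪ (⋃ n, L ∩ (closure (U n) \ U n)) ∪ ⋃ O, C O
  have d1 : C0.Countable :=
    ((hL _ dW).union (countable_iUnion fun n => hL _ (dU n))).union (countable_iUnion c1)
  have d2 : C0 ⊆ L :=
    union_subset (union_subset inter_subset_left (iUnion_subset fun _ => inter_subset_left))
      (iUnion_subset c2)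
  have d3 : ∀ x ∈ L, ∃ y ∈ C0, ({n | y ∈ U n} \ {n | x ∈ U n}).Finite := by
    intro x hx
    by_cases t : x ∈ C0
    · exact ⟨x, t, by simp⟩
    have t1 : x ∈ ⋃₀ B := by
      by_contra s
      exact t (Or.inl (Or.inl ⟨hx, s⟩))
    obtain ⟨O, o1, o2⟩ := t1
    rcases c3 ⟨O, o1⟩ with s | ⟨y, y1, y2⟩
    · exact absurd (Or.inr (mem_iUnion.mpr ⟨_, s ⟨hx, o2⟩⟩)) t
    · refine ⟨y, Or.inr (mem_iUnion.mpr ⟨_, y1⟩), y2.subset fun n hn => ⟨hn.1, fun s => ?_⟩⟩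
      exact t (Or.inl (Or.inr (mem_iUnion.mpr ⟨n, hx, s o2, hn.2⟩)))
  obtain ⟨A, a1, a2⟩ := pseudo (R := fun _ _ => True)
    (C := insert univ ((fun y => {n | y ∈ U n}) '' C0)) ((d1.image _).insert _)
    (insert_nonempty _ _)
    (by
      rintro _ (rfl | ⟨y, hy, rfl⟩)
      · exact pos_true infinite_univ
      · exact pos_true (h1 y (d2 hy)))
    (by
      rintro _ (rfl | ⟨y, hy, rfl⟩) _ (rfl | ⟨y', hy', rfl⟩)
      · simp
      · right; simp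
      · left; simp
      · exact h2 y (d2 hy) y' (d2 hy'))
  refine ⟨A, a1.infinite, fun x hx => ?_⟩
  obtain ⟨y, y1, y2⟩ := d3 x hx
  exact fin_trans (a2 _ (Or.inr ⟨y, y1, rfl⟩)) y2

lemma countable_large [SecondCountableTopology Z] {𝒰 : Set (Set Z)} (h0 : ∀ u ∈ 𝒰, IsOpen u)
    (h1 : ∀ x, {u ∈ 𝒰 | x ∈ u}.Infinite) :
    ∃ 𝒱 ⊆ 𝒰, 𝒱.Countable ∧ ∀ x, {u ∈ 𝒱 | x ∈ u}.Infinite := by
  have : ∀ b : Set Z, ∃ S ⊆ {u ∈ 𝒰 | b ⊆ u}, S.Countable ∧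
      (S.Infinite ∨ S = {u ∈ 𝒰 | b ⊆ u}) := by
    intro b
    by_cases t : {u ∈ 𝒰 | b ⊆ u}.Finite
    · exact ⟨_, subset_rfl, t.countable, Or.inr rfl⟩
    · refine ⟨range (fun n => (Set.Infinite.natEmbedding _ t n).1), ?_, countable_range _, Or.inl ?_⟩
      · rintro _ ⟨n, rfl⟩; exact (Set.Infinite.natEmbedding _ t n).2
      · exact infinite_range_of_injective
          (Subtype.val_injective.comp (Set.Infinite.natEmbedding _ t).injective)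
  choose S s1 s2 s3 using this
  refine ⟨⋃ b ∈ countableBasis Z, S b, iUnion₂_subset fun b _ u hu => (s1 b hu).1,
    (countable_countableBasis Z).biUnion fun b _ => s2 b, fun x => ?_⟩
  by_cases t : ∃ b ∈ countableBasis Z, x ∈ b ∧ (S b).Infinite
  · obtain ⟨b, b1, b2, b3⟩ := t
    exact b3.mono fun u hu => ⟨mem_biUnion b1 hu, (s1 b hu).2 b2⟩
  · refine (h1 x).mono fun u hu => ⟨?_, hu.2⟩
    obtain ⟨b, b1, b2, b3⟩ := (isBasis_countableBasis Z).exists_subset_of_mem_open hu.2 (h0 u hu.1)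
    have := (s3 b).resolve_left fun s => t ⟨b, b1, b2, s⟩
    exact mem_biUnion b1 (this ▸ ⟨hu.1, b3⟩)

/-- open `τ`-families on an embedded Luzin set have `γ`-subfamilies -/
theorem Luz.sub [SecondCountableTopology Z] {L : Set Z} (hL : Luz L) (hne : L.Nonempty)
    {e : Z → ℝ} (he : Continuous e) {𝒰 : Set (Set (e '' L))} (h0 : ∀ u ∈ 𝒰, IsOpen u)
    (h1 : ∀ x, {u ∈ 𝒰 | x ∈ u}.Infinite)
    (h2 : ∀ x y, {u ∈ 𝒰 | x ∈ u ∧ y ∉ u}.Finite ∨ {u ∈ 𝒰 | y ∈ u ∧ x ∉ u}.Finite) :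
    ∃ 𝒱 ⊆ 𝒰, 𝒱.Infinite ∧ ∀ x, {u ∈ 𝒱 | x ∉ u}.Finite := by
  obtain ⟨𝒱, v1, v2, v3⟩ := countable_large h0 h1
  obtain ⟨x0, hx0⟩ := hne
  have v4 : 𝒱.Infinite := (v3 ⟨e x0, x0, hx0, rfl⟩).mono (sep_subset _ _)
  obtain ⟨u, u1, u2⟩ : ∃ u : ℕ → Set (e '' L), Function.Injective u ∧ range u = 𝒱 := by
    haveI := v2.to_subtype
    haveI := v4.to_subtype
    obtain ⟨d⟩ : Nonempty (Denumerable 𝒱) := nonempty_denumerable 𝒱
    refine ⟨fun n => ((Denumerable.eqv 𝒱).symm n).1,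
      Subtype.val_injective.comp (Denumerable.eqv 𝒱).symm.injective, ?_⟩
    rw [show (fun n => ((Denumerable.eqv 𝒱).symm n).1) =
      Subtype.val ∘ (Denumerable.eqv 𝒱).symm from rfl, range_comp,
      (Denumerable.eqv 𝒱).symm.surjective.range_eq, image_univ, Subtype.range_coe]
  have um : ∀ n, u n ∈ 𝒰 := fun n => v1 (u2 ▸ mem_range_self n)
  have : ∀ n, ∃ W : Set ℝ, IsOpen W ∧ Subtype.val ⁻¹' W = u n :=
    fun n => isOpen_induced_iff.mp (h0 _ (um n))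
  choose W w1 w2 using this
  have mm : ∀ x (hx : x ∈ L) n, x ∈ e ⁻¹' W n ↔ (⟨e x, x, hx, rfl⟩ : e '' L) ∈ u n := by
    intro x hx n
    rw [← w2]; rfl
  have fin : ∀ x (hx : x ∈ L) y (hy : y ∈ L),
      {v ∈ 𝒰 | (⟨e x, x, hx, rfl⟩ : e '' L) ∈ v ∧ (⟨e y, y, hy, rfl⟩ : e '' L) ∉ v}.Finite →
      ({n | x ∈ e ⁻¹' W n} \ {n | y ∈ e ⁻¹' W n}).Finite := by
    intro x hx y hy t
    refine (t.preimage u1.injOn).subset fun n hn => ⟨um n, (mm x hx n).mp hn.1, fun s => ?_⟩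
    exact hn.2 ((mm y hy n).mpr s)
  obtain ⟨A, a1, a2⟩ := hL.gamma (U := fun n => e ⁻¹' W n) (fun n => (w1 n).preimage he)
    (fun x hx => by
      refine Infinite.of_image u ((v3 ⟨e x, x, hx, rfl⟩).mono ?_)
      rintro v ⟨s1, s2⟩
      rw [← u2] at s1
      obtain ⟨n, rfl⟩ := s1
      exact ⟨n, (mm x hx n).mpr s2, rfl⟩)
    (fun x hx y hy => (h2 _ _).imp (fin x hx y hy) (fin y hy x hx))
  refine ⟨u '' A, ?_, a1.image u1.injOn, ?_⟩
  · rintro _ ⟨n, -, rfl⟩; exact um n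
  · rintro ⟨_, x, hx, rfl⟩
    refine ((a2 x hx).image u).subset ?_
    rintro _ ⟨⟨n, n1, rfl⟩, n2⟩
    exact ⟨n, ⟨n1, fun s => n2 ((mm x hx n).mp s)⟩, rfl⟩

end Luzin

end

end Pool.Agent.H18.Tau
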