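import Pool.Agent.H18.Tau3

set_option autoImplicit false

namespace Pool.Agent.H18.Tau

open Set TopologicalSpace

noncomputable section
open Classical

lemma split_inf {α : Type} {S : Set α} (h : S.Infinite) :
    ∃ A ⊆ S, ∃ B ⊆ S, Disjoint A B ∧ A.Infinite ∧ B.Infinite := by
  let e : ℕ → α := fun n => (Set.Infinite.natEmbedding _ h n).1
  have he : Function.Injective e :=
    Subtype.val_injective.comp (Set.Infinite.natEmbedding _ h).injective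
  have hs : ∀ n, e n ∈ S := fun n => (Set.Infinite.natEmbedding _ h n).2
  refine ⟨range (fun n => e (2 * n)), ?_, range (fun n => e (2 * n + 1)), ?_, ?_,
    infinite_range_of_injective fun a b t => ?_, infinite_range_of_injective fun a b t => ?_⟩
  · rintro _ ⟨n, rfl⟩; exact hs _
  · rintro _ ⟨n, rfl⟩; exact hs _
  · rw [disjoint_left]
    rintro _ ⟨n, rfl⟩ ⟨m, t⟩
    have := he t
    omega
  · have := he t; omega
  · have := he t; omega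

/-- Under CH: a set of reals all of whose open `τ`-families have `γ`-subfamilies, together with an
unsplittable sequence of open sets of its square. -/
theorem main (hCH : Cardinal.continuum.{0} = Cardinal.aleph 1) :
    ∃ X : Set ℝ, X.Nonempty ∧
      (∀ 𝒰 : Set (Set X), (∀ u ∈ 𝒰, IsOpen u) → (∀ x, {u ∈ 𝒰 | x ∈ u}.Infinite) →
        (∀ x y, {u ∈ 𝒰 | x ∈ u ∧ y ∉ u}.Finite ∨ {u ∈ 𝒰 | y ∈ u ∧ x ∉ u}.Finite) →
        ∃ 𝒱 ⊆ 𝒰, 𝒱.Infinite ∧ ∀ x, {u ∈ 𝒱 | x ∉ u}.Finite) ∧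
      ∃ W : ℕ → Set (ℝ × ℝ), (∀ n, IsOpen (W n)) ∧
        (∀ p ∈ X ×ˢ X, {n | p ∈ W n}.Infinite) ∧
        (∀ p ∈ X ×ˢ X, ∀ q ∈ X ×ˢ X, ({n | p ∈ W n} \ {n | q ∈ W n}).Finite ∨
          ({n | q ∈ W n} \ {n | p ∈ W n}).Finite) ∧
        ∀ A : Set ℕ, ∀ n : ℕ, ∃ p ∈ X ×ˢ X,
          (({n | p ∈ W n} \ A).Finite ∨ ({n | p ∈ W n} \ Aᶜ).Finite) ∧ p ∈ W n ∧
            ∀ j < n, p ∉ W j := by
  obtain ⟨L, l1, l2, l3, l4⟩ := luzin_tower hCH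
  obtain ⟨e, -, e1, e2⟩ := (isClosed_univ (X := ℝ)).exists_nat_bool_injection_of_not_countable
    Cardinal.not_countable_real
  have he := (e1.isClosedEmbedding e2).isEmbedding
  have hne : L.Nonempty := by
    obtain ⟨u, hu, -⟩ := l4 ∅ 0
    exact ⟨u, hu⟩
  have : ∀ n, ∃ W : Set (ℝ × ℝ), IsOpen W ∧ Prod.map e e ⁻¹' W =
      {k | ¬ Sel (cap k.1 k.2)} ∪ {k | n ∈ cap k.1 k.2} := fun n =>
    (he.prodMap he).isInducing.isOpen_iff.mp (closed_sel.isOpen_compl.union (clo n).isOpen)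
  choose W w1 w2 using this
  have mm : ∀ u v n, (e u, e v) ∈ W n ↔ (¬ Sel (cap u v) ∨ n ∈ cap u v) := fun u v n =>
    Set.ext_iff.mp (w2 n) (u, v)
  have s1 : ∀ u v, Sel (cap u v) → {n | (e u, e v) ∈ W n} = cap u v := by
    intro u v s; ext n; simp [mm, s]
  have s2 : ∀ u v, ¬ Sel (cap u v) → {n | (e u, e v) ∈ W n} = univ := by
    intro u v s; ext n; simp [mm, s]
  refine ⟨e '' L, hne.image e, fun 𝒰 h0 h1 h2 => l1.sub hne e1 h0 h1 h2, W, w1, ?_, ?_, ?_⟩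
  · rintro ⟨_, _⟩ ⟨⟨u, hu, rfl⟩, ⟨v, hv, rfl⟩⟩
    by_cases s : Sel (cap u v)
    · rw [s1 u v s]; exact l2 u hu v hv s
    · rw [s2 u v s]; exact infinite_univ
  · rintro ⟨_, _⟩ ⟨⟨u, hu, rfl⟩, ⟨v, hv, rfl⟩⟩ ⟨_, _⟩ ⟨⟨u', hu', rfl⟩, ⟨v', hv', rfl⟩⟩
    by_cases s : Sel (cap u v)
    · by_cases s' : Sel (cap u' v')
      · rw [s1 u v s, s1 u' v' s']; exact l3 u hu v hv u' hu' v' hv' s s'
      · rw [s2 u' v' s']; left; simp
    · rw [s2 u v s]; right; simp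
  · intro A n
    obtain ⟨u, hu, v, hv, s, a1, a2, a3⟩ := l4 A n
    refine ⟨(e u, e v), ⟨⟨u, hu, rfl⟩, ⟨v, hv, rfl⟩⟩, by rw [s1 u v s]; exact a1,
      (mm u v n).mpr (Or.inr a2), fun j hj t => ?_⟩
    exact ((mm u v j).mp t).elim (fun t => t s) (a3 j hj)

/-- an unsplittable `τ`-family from an unsplittable sequence -/
lemma nosplit {Z : Type} [TopologicalSpace Z] {V : ℕ → Set Z} (h0 : ∀ n, IsOpen (V n))
    (h1 : ∀ p, {n | p ∈ V n}.Infinite)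
    (h2 : ∀ p q, ({n | p ∈ V n} \ {n | q ∈ V n}).Finite ∨ ({n | q ∈ V n} \ {n | p ∈ V n}).Finite)
    (h3 : ∀ A : Set ℕ, ∀ n : ℕ, ∃ p, (({n | p ∈ V n} \ A).Finite ∨ ({n | p ∈ V n} \ Aᶜ).Finite) ∧
      p ∈ V n ∧ ∀ j < n, p ∉ V j) :
    (∀ u ∈ range V, IsOpen u) ∧ univ ∉ range V ∧ (∀ x, {u ∈ range V | x ∈ u}.Infinite) ∧
    (∀ x y, {u ∈ range V | x ∈ u ∧ y ∉ u}.Finite ∨ {u ∈ range V | y ∈ u ∧ x ∉ u}.Finite) ∧
    ∀ 𝒜 ⊆ range V, ∀ ℬ ⊆ range V, Disjoint 𝒜 ℬ → (∀ x, {u ∈ 𝒜 | x ∈ u}.Infinite) →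
      ¬ ∀ x, {u ∈ ℬ | x ∈ u}.Infinite := by
  have inj : Function.Injective V := by
    have : ∀ a b, a < b → V a ≠ V b := by
      intro a b ab t
      obtain ⟨p, -, p1, p2⟩ := h3 ∅ b
      exact p2 a ab (t ▸ p1)
    intro a b t
    rcases lt_trichotomy a b with s | s | s
    · exact absurd t (this a b s)
    · exact s
    · exact absurd t.symm (this b a s)
  have fin : ∀ x y, ({n | x ∈ V n} \ {n | y ∈ V n}).Finite →
      {u ∈ range V | x ∈ u ∧ y ∉ u}.Finite := by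
    intro x y t
    refine (t.image V).subset ?_
    rintro _ ⟨⟨n, rfl⟩, s⟩
    exact ⟨n, s, rfl⟩
  refine ⟨?_, ?_, fun x => ((h1 x).image inj.injOn).mono ?_,
    fun x y => (h2 x y).imp (fin x y) (fin y x), fun 𝒜 a1 ℬ b1 d a2 b2 => ?_⟩
  · rintro _ ⟨n, rfl⟩; exact h0 n
  · rintro ⟨n, t⟩
    obtain ⟨p, -, -, p2⟩ := h3 ∅ (n + 1)
    exact p2 n (by omega) (t ▸ mem_univ p)
  · rintro _ ⟨n, t, rfl⟩; exact ⟨⟨n, rfl⟩, t⟩
  · obtain ⟨p, t | t, -⟩ := h3 {n | V n ∈ 𝒜} 0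
    · refine b2 p ((t.image V).subset fun u hu => ?_)
      obtain ⟨n, rfl⟩ := b1 hu.1
      exact ⟨n, ⟨hu.2, fun s => disjoint_left.mp d s hu.1⟩, rfl⟩
    · refine a2 p ((t.image V).subset fun u hu => ?_)
      obtain ⟨n, rfl⟩ := a1 hu.1
      exact ⟨n, ⟨hu.2, fun s => s hu.1⟩, rfl⟩

lemma gamma_large {Z : Type} {𝒱 : Set (Set Z)} (h1 : 𝒱.Infinite) {x : Z}
    (h2 : {u ∈ 𝒱 | x ∉ u}.Finite) : {u ∈ 𝒱 | x ∈ u}.Infinite := fun t =>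
  h1 ((t.union h2).subset fun u hu => by
    by_cases s : x ∈ u
    · exact Or.inl ⟨hu, s⟩
    · exact Or.inr ⟨hu, s⟩)

end

end Pool.Agent.H18.Tau
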