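import Mathlib

set_option autoImplicit false

namespace Pool.Agent.H18.Tsi

open Filter Topology Finset
open scoped Classical ENNReal

/-- the norming set of Tsirelson's space -/
inductive K : (ℕ → ℝ) → Prop
  | base (j : ℕ) (s : ℝ) (hs : |s| ≤ 1) : K fun i => if i = j then s else 0
  | step (p : ℕ) (c : ℕ → ℕ) (hc : Monotone c) (S : Finset ℕ) (hS : S.card ≤ p)
      (g : ℕ → ℕ → ℝ) (hg : ∀ k, K (g k)) :
      K fun i => if p ≤ i ∧ c i ∈ S then g (c i) i / 2 else 0

lemma K.mul {f : ℕ → ℝ} (h : K f) (σ : ℕ → ℝ) (hσ : ∀ i, |σ i| ≤ 1) : K fun i => σ i * f i := by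
  induction h with
  | base j s hs =>
    have := K.base j (σ j * s) (by rw [abs_mul]; exact mul_le_one₀ (hσ j) (abs_nonneg _) hs)
    convert this using 2 with i
    beta_reduce
    split_ifs with h
    · rw [h]
    · simp
  | step p c hc S hS g hg ih =>
    have := K.step p c hc S hS _ ih
    convert this using 2 with i
    beta_reduce
    split_ifs with h
    · ring
    · simp

lemma K.abs_le {f : ℕ → ℝ} (h : K f) (i : ℕ) : |f i| ≤ 1 := by
  induction h with
  | base j s hs => beta_reduce; split_ifs <;> simp [hs]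
  | step p c hc S hS g hg ih =>
    beta_reduce
    split_ifs
    · have := ih (c i)
      rw [abs_div, abs_two]
      linarith [abs_nonneg (g (c i) i)]
    · simp

lemma K.res {f : ℕ → ℝ} (h : K f) (s : Set ℕ) [∀ i, Decidable (i ∈ s)] :
    K fun i => if i ∈ s then f i else 0 := by
  have := h.mul (fun i => if i ∈ s then 1 else 0) fun i => by split_ifs <;> simp
  convert this using 2 with i
  split_ifs <;> simp

abbrev Ix : Type := {f // K f} × ℕ

abbrev E : Type := lp (fun _ : Ix => ℝ) ∞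

/-- index of the `i`-th coordinate -/
def ix (i : ℕ) : Ix := (⟨_, K.base i 1 (by simp)⟩, i + 1)

/-- Tsirelson's space as a subspace -/
def Y0 : Submodule ℝ E where
  carrier := {F | ∀ a : Ix, F a = ∑ i ∈ range a.2, a.1.1 i * F (ix i)}
  add_mem' := by
    intro F G hF hG a
    simp only [lp.coeFn_add, Pi.add_apply, mul_add, sum_add_distrib]
    rw [← hF a, ← hG a]
  zero_mem' := by intro a; simp
  smul_mem' := by
    intro c F hF a
    simp only [lp.coeFn_smul, Pi.smul_apply, smul_eq_mul]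
    rw [hF a, mul_sum]
    exact sum_congr rfl fun i _ => by ring

/-- Tsirelson's space -/
def Y : Type := Y0

noncomputable instance : NormedAddCommGroup Y := inferInstanceAs (NormedAddCommGroup Y0)

noncomputable instance : NormedSpace ℝ Y := inferInstanceAs (NormedSpace ℝ Y0)

/-- coordinates -/
noncomputable def co (i : ℕ) : Y →L[ℝ] ℝ :=
  ((lp.evalCLM ℝ (fun _ : Ix => ℝ) ∞ (ix i)).comp Y0.subtypeL : Y0 →L[ℝ] ℝ)

lemma co_apply (i : ℕ) (y : Y) : co i y = (y.1 : E) (ix i) := rfl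

/-- pairing -/
noncomputable def pr (f : ℕ → ℝ) (n : ℕ) : Y →L[ℝ] ℝ := ∑ i ∈ range n, f i • co i

lemma pr_apply (f : ℕ → ℝ) (n : ℕ) (y : Y) : pr f n y = ∑ i ∈ range n, f i * co i y := by
  simp [pr, ContinuousLinearMap.sum_apply]

lemma abs_pr_le {f : ℕ → ℝ} (h : K f) (n : ℕ) (y : Y) : |pr f n y| ≤ ‖y‖ := by
  have := lp.norm_apply_le_norm (p := ∞) (by simp) (y.1 : E) (⟨f, h⟩, n)
  rw [y.2 (⟨f, h⟩, n)] at this
  rw [pr_apply]
  exact this

lemma pr_le {f : ℕ → ℝ} (h : K f) (n : ℕ) (y : Y) : pr f n y ≤ ‖y‖ :=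
  (le_abs_self _).trans (abs_pr_le h n y)

lemma K.neg {f : ℕ → ℝ} (h : K f) : K fun i => -f i := by
  simpa using h.mul (fun _ => -1) (by simp)

lemma norm_le {y : Y} {C : ℝ} (h : ∀ f, K f → ∀ n, pr f n y ≤ C) : ‖y‖ ≤ C := by
  have h0 : 0 ≤ C := by simpa [pr_apply] using h _ (K.base 0 0 (by simp)) 0
  refine lp.norm_le_of_forall_le (f := (y.1 : E)) h0 fun a => ?_
  rw [y.2 a, Real.norm_eq_abs, abs_le]
  have h1 := h _ a.1.2 a.2
  have h2 := h _ a.1.2.neg a.2
  simp only [pr_apply, neg_mul, sum_neg_distrib, co_apply] at h1 h2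
  exact ⟨by linarith, h1⟩

lemma exists_pr {y : Y} {s : ℝ} (h : s < ‖y‖) : ∃ f, K f ∧ ∃ n, s < pr f n y := by
  by_contra hc
  push Not at hc
  exact absurd (norm_le hc) (not_le.2 h)

lemma ext {y z : Y} (h : ∀ i, co i y = co i z) : y = z := by
  refine Subtype.ext (lp.ext (funext fun a => ?_))
  rw [y.2 a, z.2 a]
  exact sum_congr rfl fun i _ => by rw [← co_apply, ← co_apply, h]

lemma exists_mk (a : ℕ → ℝ) (C : ℝ) (h : ∀ f, K f → ∀ n, ∑ i ∈ range n, f i * a i ≤ C) :
    ∃ y : Y, ∀ i, co i y = a i := by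
  have hm : Memℓp (fun b : Ix => ∑ i ∈ range b.2, b.1.1 i * a i) ∞ := by
    refine memℓp_infty ⟨C, ?_⟩
    rintro _ ⟨b, rfl⟩
    have h1 := h _ b.1.2 b.2
    have h2 := h _ b.1.2.neg b.2
    simp only [neg_mul, sum_neg_distrib] at h2
    exact abs_le.2 ⟨by linarith, h1⟩
  have e : ∀ i, ∑ j ∈ range (ix i).2, (ix i).1.1 j * a j = a i := by
    intro i
    simp [ix]
  refine ⟨⟨⟨_, hm⟩, fun b => ?_⟩, e⟩
  change ∑ i ∈ range b.2, b.1.1 i * a i = ∑ i ∈ range b.2, b.1.1 i *
    ∑ j ∈ range (ix i).2, (ix i).1.1 j * a j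
  simp only [e]

lemma abs_co_le (i : ℕ) (y : Y) : |co i y| ≤ ‖y‖ :=
  lp.norm_apply_le_norm (p := ∞) (by simp) (y.1 : E) (ix i)

lemma exists_R (s : Set ℕ) : ∃ R : Y →L[ℝ] Y, (∀ y i, co i (R y) = if i ∈ s then co i y else 0) := by
  have h1 : ∀ (y : Y) f, K f → ∀ n,
      ∑ i ∈ range n, f i * (if i ∈ s then co i y else 0) ≤ ‖y‖ := by
    intro y f hf n
    have := pr_le (hf.res s) n y
    rw [pr_apply] at this
    convert this using 2 with i
    split_ifs <;> simp
  choose r hr using fun y : Y => exists_mk _ _ (h1 y)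
  let L : Y →ₗ[ℝ] Y :=
    { toFun := r
      map_add' := fun y z => ext fun i => by
        simp only [hr, map_add]; split_ifs <;> simp
      map_smul' := fun c y => ext fun i => by
        simp only [hr, map_smul]; split_ifs <;> simp }
  refine ⟨L.mkContinuous 1 fun y => ?_, hr⟩
  rw [one_mul]
  refine norm_le fun f hf n => ?_
  rw [pr_apply]
  simpa [L, hr] using h1 y f hf n

/-- restriction operator -/
noncomputable def R (s : Set ℕ) : Y →L[ℝ] Y := (exists_R s).choose

lemma co_R (s : Set ℕ) (y : Y) (i : ℕ) [Decidable (i ∈ s)] :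
    co i (R s y) = if i ∈ s then co i y else 0 := by
  refine ((exists_R s).choose_spec y i).trans ?_
  congr

lemma pr_R (s : Set ℕ) [∀ i, Decidable (i ∈ s)] (y : Y) (f : ℕ → ℝ) (n : ℕ) :
    pr f n (R s y) = pr (fun i => if i ∈ s then f i else 0) n y := by
  simp only [pr_apply, co_R]
  exact sum_congr rfl fun i _ => by split_ifs <;> simp

lemma norm_R_le (s : Set ℕ) (y : Y) : ‖R s y‖ ≤ ‖y‖ :=
  norm_le fun f hf n => by rw [pr_R]; exact pr_le (hf.res s) n y

lemma R_R (s t : Set ℕ) (y : Y) : R s (R t y) = R (s ∩ t) y :=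
  ext fun i => by
    simp only [co_R, Set.mem_inter_iff]
    by_cases h1 : i ∈ s <;> by_cases h2 : i ∈ t <;> simp [h1, h2]

lemma exists_e (j : ℕ) : ∃ y : Y, ∀ i, co i y = if i = j then 1 else 0 :=
  exists_mk _ 1 fun f hf n => by
    simp only [mul_ite, mul_one, mul_zero, sum_ite_eq']
    split_ifs
    · exact (le_abs_self _).trans (hf.abs_le j)
    · norm_num

/-- unit vectors -/
noncomputable def e (j : ℕ) : Y := (exists_e j).choose

lemma co_e (j i : ℕ) : co i (e j) = if i = j then 1 else 0 := (exists_e j).choose_spec i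

lemma R_Iio (n : ℕ) (y : Y) : R (Set.Iio n) y = ∑ j ∈ range n, co j y • e j :=
  ext fun i => by simp [co_R, map_sum, co_e]

lemma lower (a : ℕ → ℕ) (ha : StrictMono a) (y : Y) (s : ℝ) (S : Finset ℕ)
    (h1 : ∀ k ∈ S, s < ‖R (Set.Ico (a k) (a (k + 1))) y‖) (h2 : ∀ k ∈ S, S.card ≤ k) :
    S.card * s ≤ 2 * ‖y‖ := by
  have : ∀ k, ∃ f, K f ∧ (k ∈ S → ∃ n, s < pr f n (R (Set.Ico (a k) (a (k + 1))) y)) := by
    intro k
    by_cases hk : k ∈ S
    · obtain ⟨f, hf, h⟩ := exists_pr (h1 k hk)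
      exact ⟨f, hf, fun _ => h⟩
    · exact ⟨_, K.base 0 0 (by simp), fun h => absurd h hk⟩
  choose f hf hn using this
  choose! n hn using hn
  let g : ℕ → ℕ → ℝ := fun k i =>
    if i ∈ Set.Ico (a k) (a (k + 1)) ∩ Set.Iio (n k) then f k i else 0
  let c : ℕ → ℕ := fun i => Nat.findGreatest (fun k => a k ≤ i) i
  have hc : Monotone c := fun i j hij =>
    Nat.findGreatest_mono (fun k hk => le_trans hk hij) hij
  have hck : ∀ k i, i ∈ Set.Ico (a k) (a (k + 1)) → c i = k := by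
    intro k i hi
    refine Nat.findGreatest_eq_iff.2 ⟨ha.le_apply.trans hi.1, fun _ => hi.1, fun m hm _ h => ?_⟩
    exact absurd (hi.2.trans_le ((ha.monotone hm).trans h)) (lt_irrefl _)
  have hK := K.step S.card c hc S le_rfl g fun k =>
    (hf k).res (Set.Ico (a k) (a (k + 1)) ∩ Set.Iio (n k))
  have h3 := pr_le hK (S.sup n) y
  have e1 : ∀ i, (if S.card ≤ i ∧ c i ∈ S then g (c i) i / 2 else 0) = ∑ k ∈ S, g k i / 2 := by
    intro i
    have h4 : ∀ k ∈ S, k ≠ c i → g k i / 2 = 0 := by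
      intro k _ hk
      simp only [g]
      rw [if_neg fun h => hk (hck k i h.1).symm, zero_div]
    by_cases h5 : c i ∈ S
    · rw [sum_eq_single_of_mem _ h5 h4]
      split_ifs with h6
      · rfl
      · simp only [g]
        rw [if_neg fun h => h6 ⟨(h2 _ h5).trans (ha.le_apply.trans h.1.1), h5⟩, zero_div]
    · rw [if_neg fun h => h5 h.2]
      exact (sum_eq_zero fun k hk => h4 k hk fun h => h5 (h ▸ hk)).symm
  simp only [pr_apply, e1, sum_mul] at h3
  rw [sum_comm] at h3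
  have h4 : ∀ k ∈ S, s / 2 ≤ ∑ i ∈ range (S.sup n), g k i / 2 * co i y := by
    intro k hk
    have h5 := hn k hk
    rw [pr_R, pr_apply] at h5
    have h6 : ∑ i ∈ range (S.sup n), g k i / 2 * co i y = ∑ i ∈ range (n k), g k i / 2 * co i y := by
      refine (sum_subset (range_subset_range.2 (le_sup hk)) fun i _ hi => ?_).symm
      simp only [g]
      rw [if_neg fun h => hi (mem_range.2 h.2)]
      simp
    rw [h6]
    refine (div_le_div_of_nonneg_right h5.le two_pos.le).trans (le_of_eq ?_)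
    rw [sum_div]
    refine sum_congr rfl fun i hi => ?_
    have : i ∈ Set.Iio (n k) := mem_range.1 hi
    simp only [g, Set.mem_inter_iff, this, and_true]
    ring
  have := card_nsmul_le_sum S _ _ h4
  rw [nsmul_eq_mul] at this
  linarith

lemma weak (a : ℕ → ℕ) (ha : StrictMono a) (y : Y) (s : ℝ) (hs : 0 < s) (S : Finset ℕ)
    (h1 : ∀ k ∈ S, s < ‖R (Set.Ico (a k) (a (k + 1))) y‖) :
    (S.card : ℝ) ≤ 2 * (2 * ‖y‖ / s + 1) := by
  set q := ⌊2 * ‖y‖ / s⌋₊ + 1 with hq
  have h2 : (q : ℝ) ≤ 2 * ‖y‖ / s + 1 := by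
    rw [hq]; push_cast
    linarith [Nat.floor_le (show 0 ≤ 2 * ‖y‖ / s by positivity)]
  have h3 : 2 * ‖y‖ / s < q := by rw [hq]; push_cast; exact Nat.lt_floor_add_one _
  by_contra hc
  have h4 : 2 * q ≤ S.card := by
    have : ((2 * q : ℕ) : ℝ) ≤ S.card := by push_cast; linarith
    exact_mod_cast this
  have h5 : q ≤ (S \ range q).card := by
    have := le_card_sdiff (range q) S
    rw [card_range] at this
    omega
  obtain ⟨T, hT, hTc⟩ := exists_subset_card_eq h5
  have := lower a ha y s T (fun k hk => h1 k (mem_sdiff.1 (hT hk)).1) fun k hk => by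
    have := (mem_sdiff.1 (hT hk)).2
    rw [mem_range] at this
    omega
  rw [hTc] at this
  rw [div_lt_iff₀ hs] at h3
  linarith

lemma weak_finite (a : ℕ → ℕ) (ha : StrictMono a) (y : Y) (s : ℝ) (hs : 0 < s) :
    {k | s < ‖R (Set.Ico (a k) (a (k + 1))) y‖}.Finite := by
  by_contra h
  obtain ⟨N, hN⟩ := exists_nat_gt (2 * (2 * ‖y‖ / s + 1))
  obtain ⟨S, hS, hc⟩ := Set.Infinite.exists_subset_card_eq h N
  have := weak a ha y s hs S fun k hk => hS hk
  rw [hc] at this
  linarith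

lemma tail (y : Y) (ε : ℝ) (hε : 0 < ε) : ∃ n, ‖R (Set.Ici n) y‖ ≤ ε := by
  by_contra hc
  push Not at hc
  have : ∀ n, ∃ m, n < m ∧ ε < ‖R (Set.Ico n m) y‖ := by
    intro n
    obtain ⟨f, hf, m, hm⟩ := exists_pr (hc n)
    refine ⟨max m (n + 1), by omega, hm.trans_le (le_of_eq_of_le ?_ (pr_le hf m _))⟩
    simp only [pr_apply, co_R]
    refine sum_congr rfl fun i hi => ?_
    have := mem_range.1 hi
    have h2 : i ∈ Set.Ici n ↔ i ∈ Set.Ico n (max m (n + 1)) := by
      simp only [Set.mem_Ici, Set.mem_Ico]; omega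
    simp only [h2]
  choose m hm1 hm2 using this
  let a : ℕ → ℕ := fun k => m^[k] 0
  have ha : ∀ k, a (k + 1) = m (a k) := fun k => Function.iterate_succ_apply' _ _ _
  have := weak_finite a (strictMono_nat_of_lt_succ fun k => by rw [ha]; exact hm1 _) y ε hε
  refine Set.infinite_univ (this.subset fun k _ => ?_)
  simp only [Set.mem_setOf_eq, ha]
  exact hm2 _

lemma split (n : ℕ) (y : Y) : R (Set.Iio n) y + R (Set.Ici n) y = y :=
  ext fun i => by
    simp only [map_add, co_R, Set.mem_Iio, Set.mem_Ici]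
    split_ifs <;> first | omega | simp

end Pool.Agent.H18.Tsi
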