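import Pool.Agent.H18.Tsi1

set_option autoImplicit false

namespace Pool.Agent.H18.Tsi

open Filter Topology Finset
open scoped Classical ENNReal

lemma pr_zero {f : ℕ → ℝ} {n : ℕ} {y : Y} (h : ∀ i, co i y ≠ 0 → f i = 0) : pr f n y = 0 := by
  rw [pr_apply]
  refine sum_eq_zero fun i _ => ?_
  by_cases hi : co i y = 0
  · simp [hi]
  · simp [h i hi]

lemma improve (a : ℕ → ℕ) (ha : Monotone a) (y : ℕ → Y) (c : ℝ) (hy : ∀ t, ‖y t‖ ≤ c)
    (hs : ∀ t i, co i (y t) ≠ 0 → a t ≤ i ∧ i < a (t + 1)) (N : ℕ) (hN : 2 * a 1 < N) :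
    ‖(1 / 2 : ℝ) • y 0 + (1 / (2 * N) : ℝ) • ∑ t ∈ range N, y (t + 1)‖ ≤ 7 / 8 * c := by
  have hc : 0 ≤ c := (norm_nonneg _).trans (hy 0)
  have hN0 : (0 : ℝ) < N := by exact_mod_cast (show 0 < N by omega)
  refine norm_le fun f hf n => ?_
  simp only [map_add, map_smul, map_sum, smul_eq_mul]
  have h1 : ∀ t, pr f n (y t) ≤ c := fun t => (pr_le hf n _).trans (hy t)
  have h2 : (∀ i, i < a 1 → f i = 0) → 1 / 2 * pr f n (y 0) +
      1 / (2 * N) * ∑ t ∈ range N, pr f n (y (t + 1)) ≤ 7 / 8 * c := by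
    intro h
    rw [pr_zero fun i hi => h i (hs 0 i hi).2]
    have := sum_le_card_nsmul (range N) _ c fun t _ => h1 (t + 1)
    rw [card_range, nsmul_eq_mul] at this
    have h3 : 1 / (2 * N) * ∑ t ∈ range N, pr f n (y (t + 1)) ≤ 1 / (2 * N) * (N * c) := by
      gcongr
    have e : 1 / (2 * N) * (N * c) = c / 2 := by field_simp
    linarith
  cases hf with
  | base j s hj =>
    by_cases h : j < a 1
    · rw [sum_eq_zero fun t _ => pr_zero fun i hi => if_neg fun h' => by
        have := (hs _ i hi).1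
        have := ha (show 1 ≤ t + 1 by omega)
        omega]
      linarith [h1 0]
    · exact h2 fun i hi => if_neg fun h' => by omega
  | step p d hd S hS g hg =>
    by_cases h : a 1 ≤ p
    · exact h2 fun i hi => if_neg fun h' => by omega
    let ρ : ℕ → ℕ := fun i => (S.filter (· ≤ d i)).card
    have hρ : Monotone ρ := fun i j hij =>
      card_le_card (monotone_filter_right _ fun k _ hk => hk.trans (hd hij))
    have h3 : ∀ t, pr (fun i => if p ≤ i ∧ d i ∈ S then g (d i) i / 2 else 0) n (y t) ≤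
        c / 2 + c / 2 * ((ρ (a (t + 1)) : ℝ) - ρ (a t)) := by
      intro t
      rcases (hρ (ha (Nat.le_succ t))).eq_or_lt with h4 | h4
      · have h5 := (pr_le ((hg (d (a t))).res {i | p ≤ i ∧ d i ∈ S}) n (y t)).trans (hy t)
        rw [← h4, sub_self, mul_zero, add_zero]
        refine le_of_eq_of_le ?_ (div_le_div_of_nonneg_right h5 two_pos.le)
        simp only [pr_apply, sum_div, Set.mem_setOf_eq]
        refine sum_congr rfl fun i _ => ?_
        by_cases hi : co i (y t) = 0
        · simp [hi]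
        split_ifs with h6
        · obtain ⟨h7, h8⟩ := hs t i hi
          have : d i = d (a t) := by
            by_contra h9
            have h10 : d (a t) < d i := lt_of_le_of_ne (hd h7) (Ne.symm h9)
            refine absurd h4 (ne_of_lt (card_lt_card ⟨monotone_filter_right _ fun k _ hk =>
              hk.trans (hd (ha (Nat.le_succ t))), fun h11 => ?_⟩))
            have := mem_filter.1 (h11 (mem_filter.2 ⟨h6.2, hd h8.le⟩))
            omega
          rw [this]; ring
        · simp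
      · have h5 : (ρ (a t) : ℝ) + 1 ≤ ρ (a (t + 1)) := by exact_mod_cast h4
        nlinarith [h1 t]
    have h4 := sum_le_sum fun t (_ : t ∈ range N) => h3 (t + 1)
    rw [sum_add_distrib, ← mul_sum, sum_range_sub (fun t => (ρ (a (t + 1)) : ℝ)), sum_const,
      card_range, nsmul_eq_mul] at h4
    have h5 : (ρ (a (N + 1)) : ℝ) ≤ N / 2 := by
      have : 2 * ρ (a (N + 1)) ≤ N := by
        have := (card_filter_le S (· ≤ d (a (N + 1)))).trans hS
        simp only [ρ]
        omega
      have : ((2 * ρ (a (N + 1)) : ℕ) : ℝ) ≤ N := by exact_mod_cast this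
      push_cast at this
      linarith
    have h6 : (0 : ℝ) ≤ ρ (a (0 + 1)) := by positivity
    have h7 := mul_le_mul_of_nonneg_left (h4.trans
      (show _ ≤ N * (3 / 4 * c) by nlinarith)) (show (0 : ℝ) ≤ 1 / (2 * N) by positivity)
    have e : 1 / (2 * N) * (N * (3 / 4 * c)) = 3 / 8 * c := by field_simp; ring
    linarith [h1 0]

lemma norm_comp_R_le (x : Y →L[ℝ] ℝ) (s : Set ℕ) : ‖x.comp (R s)‖ ≤ ‖x‖ :=
  ContinuousLinearMap.opNorm_le_bound _ (norm_nonneg _) fun y =>
    (x.le_opNorm _).trans (by gcongr; exact norm_R_le s y)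

lemma shrink (x : Y →L[ℝ] ℝ) : Tendsto (fun n => ‖x.comp (R (Set.Ici n))‖) atTop (𝓝 0) := by
  have hanti : Antitone fun n => ‖x.comp (R (Set.Ici n))‖ := by
    intro n m hnm
    have : x.comp (R (Set.Ici m)) = (x.comp (R (Set.Ici n))).comp (R (Set.Ici m)) := by
      ext y
      simp [R_R, hnm]
    beta_reduce
    rw [this]
    exact norm_comp_R_le _ _
  rw [Metric.tendsto_atTop]
  intro ε hε
  suffices ∃ n, ‖x.comp (R (Set.Ici n))‖ < ε by
    obtain ⟨n, hn⟩ := this
    exact ⟨n, fun m hm => by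
      rw [Real.dist_eq, sub_zero, abs_of_nonneg (norm_nonneg _)]
      exact (hanti hm).trans_lt hn⟩
  by_contra hc
  push Not at hc
  let P : ℝ → Prop := fun c => ∀ n, ∃ m, ∃ z : Y, (∀ i, co i z ≠ 0 → n ≤ i ∧ i < m) ∧
    ‖z‖ ≤ c ∧ ε / 4 ≤ x z
  have h1 : P 1 := by
    intro n
    obtain ⟨y, hy1, hy2⟩ := (x.comp (R (Set.Ici n))).exists_lt_apply_of_lt_opNorm
      ((half_lt_self hε).trans_le (hc n))
    obtain ⟨y, hy1, hy2⟩ : ∃ y : Y, ‖y‖ ≤ 1 ∧ ε / 2 < x (R (Set.Ici n) y) := by
      rcases lt_abs.1 hy2 with h | h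
      · exact ⟨y, hy1.le, h⟩
      · exact ⟨-y, by simpa using hy1.le, by simpa using h⟩
    obtain ⟨m, hm⟩ := tail (R (Set.Ici n) y) (ε / 4 / (‖x‖ + 1)) (by positivity)
    refine ⟨m, R (Set.Iio m) (R (Set.Ici n) y), fun i hi => ?_,
      (norm_R_le _ _).trans ((norm_R_le _ _).trans hy1), ?_⟩
    · simp only [co_R, Set.mem_Iio, Set.mem_Ici] at hi
      split_ifs at hi <;> first | omega | simp at hi
    · rw [← split m (R (Set.Ici n) y), map_add] at hy2
      have h2 : x (R (Set.Ici m) (R (Set.Ici n) y)) ≤ (‖x‖ + 1) * (ε / 4 / (‖x‖ + 1)) :=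
        ((le_abs_self _).trans (x.le_opNorm _)).trans (by gcongr; linarith)
      have e : (‖x‖ + 1) * (ε / 4 / (‖x‖ + 1)) = ε / 4 := by field_simp
      linarith
  have h2 : ∀ c, P c → P (7 / 8 * c) := by
    intro c hP n
    choose m z h3 h4 h5 using hP
    let a : ℕ → ℕ := fun k => (fun u => max (m u) u)^[k] n
    have ha : ∀ k, a (k + 1) = max (m (a k)) (a k) := fun k => Function.iterate_succ_apply' _ _ _
    have hm : Monotone a := monotone_nat_of_le_succ fun k => by rw [ha]; exact le_max_right _ _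
    have hs : ∀ t i, co i (z (a t)) ≠ 0 → a t ≤ i ∧ i < a (t + 1) := by
      intro t i hi
      have := h3 _ i hi
      rw [ha]; omega
    set N := 2 * a 1 + 1 with hN
    have hN0 : (0 : ℝ) < N := by exact_mod_cast (show 0 < N by omega)
    refine ⟨a (N + 1), _, fun i hi => ?_,
      improve a hm (fun t => z (a t)) c (fun t => h4 _) hs N (by omega), ?_⟩
    · by_contra h6
      refine hi ?_
      have h7 : ∀ t, t ≤ N → co i (z (a t)) = 0 := by
        intro t ht
        by_contra h8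
        have := hs t i h8
        have h9 : n ≤ a t := hm (Nat.zero_le t)
        have := hm (show t + 1 ≤ N + 1 by omega)
        omega
      simp only [map_add, map_smul, map_sum]
      rw [h7 0 (by omega), sum_eq_zero fun t ht => h7 (t + 1) (mem_range.1 ht)]
      simp
    · simp only [map_add, map_smul, map_sum, smul_eq_mul]
      have := card_nsmul_le_sum (range N) _ _ fun t _ => h5 (a (t + 1))
      rw [card_range, nsmul_eq_mul] at this
      have h7 := mul_le_mul_of_nonneg_left this (show (0 : ℝ) ≤ 1 / (2 * N) by positivity)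
      have e : 1 / (2 * N) * (N * (ε / 4)) = ε / 8 := by field_simp; ring
      linarith [h5 (a 0)]
  have h3 : ∀ k : ℕ, P ((7 / 8) ^ k) := by
    intro k
    induction k with
    | zero => simpa using h1
    | succ k ih => rw [pow_succ']; exact h2 _ ih
  obtain ⟨k, hk⟩ := exists_pow_lt_of_lt_one (show 0 < ε / 4 / (‖x‖ + 1) by positivity)
    (show (7 / 8 : ℝ) < 1 by norm_num)
  obtain ⟨-, z, -, h4, h5⟩ := h3 k 0
  have h6 : x z ≤ (‖x‖ + 1) * (7 / 8) ^ k :=
    ((le_abs_self _).trans (x.le_opNorm _)).trans (by gcongr; linarith)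
  rw [lt_div_iff₀ (by positivity)] at hk
  linarith

lemma comp_Iio (x : Y →L[ℝ] ℝ) (n : ℕ) :
    x.comp (R (Set.Iio n)) = ∑ i ∈ range n, x (e i) • co i := by
  ext y
  simp [R_Iio, ContinuousLinearMap.sum_apply, mul_comm]

lemma refl (ψ : StrongDual ℝ (StrongDual ℝ Y)) : ∃ y : Y, ∀ x, ψ x = x y := by
  obtain ⟨y, hy⟩ := exists_mk (fun i => ψ (co i)) ‖ψ‖ fun f hf n => by
    have h1 : ‖pr f n‖ ≤ 1 := ContinuousLinearMap.opNorm_le_bound _ one_pos.le fun y => by
      rw [one_mul]; exact abs_pr_le hf n y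
    have h2 : ψ (pr f n) ≤ ‖ψ‖ * 1 :=
      ((le_abs_self _).trans (ψ.le_opNorm _)).trans (by gcongr)
    simpa [pr] using h2
  refine ⟨y, fun x => ?_⟩
  have h1 : ∀ n, ‖ψ x - x y‖ ≤ (‖ψ‖ + ‖y‖) * ‖x.comp (R (Set.Ici n))‖ := by
    intro n
    have e1 : x = x.comp (R (Set.Iio n)) + x.comp (R (Set.Ici n)) := by
      ext z
      simp [← map_add, split]
    have e2 : ψ (x.comp (R (Set.Iio n))) = x.comp (R (Set.Iio n)) y := by
      simp [comp_Iio, ContinuousLinearMap.sum_apply, hy]
    have e3 : ψ x - x y = ψ (x.comp (R (Set.Ici n))) - x.comp (R (Set.Ici n)) y := by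
      conv_lhs => rw [e1]
      rw [map_add, ContinuousLinearMap.add_apply, e2]
      ring
    rw [e3]
    have := ψ.le_opNorm (x.comp (R (Set.Ici n)))
    have := (x.comp (R (Set.Ici n))).le_opNorm y
    refine (norm_sub_le _ _).trans ?_
    linarith
  have h2 := (shrink x).const_mul (‖ψ‖ + ‖y‖)
  rw [mul_zero] at h2
  exact sub_eq_zero.1 (norm_le_zero_iff.1 (ge_of_tendsto' h2 h1))

lemma refl_dual :
    Function.Surjective (NormedSpace.inclusionInDoubleDual ℝ (StrongDual ℝ Y)) := by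
  intro Φ
  refine ⟨Φ.comp (NormedSpace.inclusionInDoubleDual ℝ Y), ?_⟩
  ext ψ
  obtain ⟨y, hy⟩ := refl ψ
  have : ψ = NormedSpace.inclusionInDoubleDual ℝ Y y := by ext x; exact hy x
  rw [this]
  rfl

lemma inf_dim : ¬ FiniteDimensional ℝ (StrongDual ℝ Y) := by
  intro h
  have : LinearIndependent ℝ (fun i => (co i : StrongDual ℝ Y)) := by
    rw [linearIndependent_iff']
    intro s g hg i hi
    have := congrArg (fun x : StrongDual ℝ Y => x (e i)) hg
    simpa [ContinuousLinearMap.sum_apply, co_e, hi] using this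
  haveI := this.finite
  exact not_finite ℕ

end Pool.Agent.H18.Tsi
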