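import Mathlib

set_option autoImplicit false

namespace Pool.Agent.H18.Wij

open Set Metric Topology TopologicalSpace Filter Cardinal

def Compat {X : Type} (t : TopologicalSpace X) (d : X → X → ℝ) : Prop :=
  ∃ m : MetricSpace X, m.toUniformSpace.toTopologicalSpace = t ∧ ∀ a b, m.dist a b = d a b

variable {X : Type} [MetricSpace X]

theorem net (V : Set X) (ε : ℝ) (hε : 0 < ε) : ∃ E ⊆ V, (E.Pairwise fun a b => ε ≤ dist a b) ∧
    ∀ y ∈ V, ∃ e ∈ E, dist e y < ε := by
  obtain ⟨E, hE⟩ := zorn_subset {E : Set X | E ⊆ V ∧ E.Pairwise fun a b => ε ≤ dist a b} (by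
    intro c hc hch
    refine ⟨⋃₀ c, ⟨sUnion_subset fun t ht => (hc ht).1, ?_⟩, fun s hs => subset_sUnion_of_mem hs⟩
    exact (pairwise_sUnion hch.directedOn).2 fun t ht => (hc ht).2)
  refine ⟨E, hE.1.1, hE.1.2, fun y hy => ?_⟩
  by_contra hh
  push Not at hh
  have : insert y E ⊆ E := hE.2 ⟨insert_subset hy hE.1.1, hE.1.2.insert fun e he _ =>
    ⟨dist_comm e y ▸ hh e he, hh e he⟩⟩ (subset_insert _ _)
  have := hh y (this (mem_insert _ _))
  rw [dist_self] at this
  linarith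

theorem card (κ : Cardinal.{0}) (a : ℕ → ℕ → Cardinal.{0}) (h1 : ∀ n m, 1 ≤ a n m)
    (h2 : ∀ n, κ ≤ sum (a n)) : ∃ m : ℕ → ℕ, κ ≤ sum fun n => a n (m n) := by
  by_cases c1 : κ ≤ ℵ₀
  · refine ⟨fun _ => 0, c1.trans (le_trans ?_ (sum_le_sum (fun _ => 1) _ fun n => h1 n 0))⟩
    simp
  by_cases c2 : ∃ n m, κ ≤ a n m
  · obtain ⟨n, m, h⟩ := c2
    exact ⟨fun _ => m, h.trans (le_sum (fun n => a n m) n)⟩
  push Not at c1 c2
  have : ∀ n, ∃ m, a 0 n ≤ a n m := by
    intro n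
    by_contra hh
    push Not at hh
    have h3 : sum (a n) ≤ ℵ₀ * a 0 n :=
      (sum_le_sum _ (fun _ => a 0 n) fun m => (hh m).le).trans (by simp)
    exact absurd ((h2 n).trans h3) (not_le.2 (mul_lt_of_lt c1.le c1 (c2 0 n)))
  choose m hm using this
  exact ⟨m, (h2 0).trans (sum_le_sum _ _ hm)⟩

theorem discr (N : Set X) (hN : IsClosed N) (hc : ¬ IsCompact N) :
    ∃ T ⊆ N, T.Infinite ∧ ∀ z, ∃ η > 0, (T ∩ ball z η).Finite := by
  rw [isCompact_iff_isSeqCompact] at hc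
  obtain ⟨q, hq, h⟩ : ∃ q : ℕ → X, (∀ n, q n ∈ N) ∧ ∀ z, ¬ MapClusterPt z atTop q := by
    by_contra hh
    push Not at hh
    refine hc fun q hq => ?_
    obtain ⟨z, hz⟩ := hh q hq
    obtain ⟨φ, h1, h2⟩ := hz.tendsto_subseq
    exact ⟨z, hN.mem_of_tendsto h2 (Eventually.of_forall fun n => hq _), φ, h1, h2⟩
  have h2 : ∀ z, ∃ η > 0, {n | q n ∈ ball z η}.Finite := by
    intro z
    by_contra hh
    push Not at hh
    refine h z ((nhds_basis_ball.mapClusterPt_iff_frequently).2 fun η hη => ?_)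
    exact Nat.frequently_atTop_iff_infinite.2 (hh η hη)
  refine ⟨range q, range_subset_iff.2 hq, fun hf => ?_, fun z => ?_⟩
  · have : (univ : Set ℕ) ⊆ ⋃ z ∈ range q, {n | q n = z} := fun n _ =>
      mem_iUnion₂.2 ⟨q n, mem_range_self n, rfl⟩
    refine infinite_univ ((hf.biUnion fun z _ => ?_).subset this)
    obtain ⟨η, h3, h4⟩ := h2 z
    exact h4.subset fun n hn => by rw [mem_ofPred_eq, show q n = z from hn]; exact mem_ball_self h3
  · obtain ⟨η, h3, h4⟩ := h2 z
    refine ⟨η, h3, (h4.image q).subset ?_⟩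
    rintro _ ⟨⟨n, rfl⟩, hn⟩
    exact ⟨n, hn, rfl⟩

theorem family (N : Set X) (hN : IsClosed N) (hc : ¬ IsCompact N) :
    ∃ p ∈ N, ∃ δ > 0, δ ≤ 1 ∧ ∃ (I : Type) (x c : I → X) (r : I → ℝ),
      (∀ i, x i ∈ ball p δ) ∧ (∀ y ∈ ball p δ, ∀ ε > 0, ∃ i, dist (x i) y < ε) ∧ (∀ i, 0 < r i) ∧
      (∀ i j, i ≠ j → r i ≤ dist (c j) (c i)) ∧ (∀ i, ∀ z ∈ ball p (2 * δ), r i ≤ dist z (c i)) ∧
      ∀ z, ∃ η > 0, ∃ L > 0, ∀ i, L ≤ r i ∨ ∀ w ∈ ball z η, r i ≤ dist w (c i) := by
  obtain ⟨T, hT1, hT2, hT3⟩ := discr N hN hc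
  choose E e1 e2 e3 using fun (V : Set X) (m : ℕ) => net V (1 / (m + 1 : ℝ)) (by positivity)
  let κ : Set X → Cardinal.{0} := fun V => #(Σ m, E V m)
  obtain ⟨t0, ht0⟩ := hT2.nonempty
  obtain ⟨_, ⟨p, hp, r0, hr0, rfl⟩, hmin⟩ := Cardinal.lt_wf.has_min
    {k | ∃ p ∈ N, ∃ r > 0, κ (ball p r) = k} ⟨_, t0, hT1 ht0, 1, one_pos, rfl⟩
  obtain ⟨η0, hη0, hf⟩ := hT3 p
  set δ := min (min r0 1) (η0 / 3) with hδ
  have hδ0 : 0 < δ := by positivity
  have hδ1 : δ ≤ r0 := (min_le_left _ _).trans (min_le_left _ _)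
  have hδ3 : δ ≤ η0 / 3 := min_le_right _ _
  have hT' : (T \ ball p η0).Infinite := by
    have := hT2.diff hf
    rwa [diff_self_inter] at this
  let q : ℕ → X := fun n => hT'.natEmbedding _ n
  have q1 : ∀ n, q n ∈ T := fun n => (hT'.natEmbedding _ n).2.1
  have q2 : ∀ n, η0 ≤ dist (q n) p := fun n => not_lt.1 (hT'.natEmbedding _ n).2.2
  have q3 : Function.Injective q := Subtype.val_injective.comp (hT'.natEmbedding _).injective
  have hs : ∀ n : ℕ, ∃ s > 0, s ≤ δ / 2 ∧ s ≤ 1 / (n + 1 : ℝ) ∧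
      ∀ k, k ≠ n → 3 * s ≤ dist (q k) (q n) := by
    intro n
    obtain ⟨η, h1, h2⟩ := hT3 (q n)
    obtain ⟨a, h3, h4⟩ := Metric.isOpen_iff.1
      (h2.subset (diff_subset (t := {q n}))).isClosed.isOpen_compl (q n) (fun h => h.2 rfl)
    refine ⟨min (min (δ / 2) (1 / (n + 1 : ℝ))) (min η a / 3), by positivity,
      (min_le_left _ _).trans (min_le_left _ _), (min_le_left _ _).trans (min_le_right _ _),
      fun k hk => ?_⟩
    have h5 : min η a ≤ dist (q k) (q n) := by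
      by_contra h6
      rw [not_le, lt_min_iff] at h6
      exact h4 h6.2 ⟨⟨q1 k, h6.1⟩, fun h => hk (q3 h)⟩
    linarith [min_le_right (min (δ / 2) (1 / (n + 1 : ℝ))) (min η a / 3)]
  choose s s0 s1 s2 s3 using hs
  obtain ⟨m, hm⟩ := card (κ (ball p r0)) (fun n m => #(E (ball (q n) (s n)) m))
    (fun n m => by
      obtain ⟨e, he, -⟩ := e3 (ball (q n) (s n)) m (q n) (mem_ball_self (s0 n))
      exact Cardinal.one_le_iff_ne_zero.2 (Cardinal.mk_ne_zero_iff.2 ⟨⟨e, he⟩⟩))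
    (fun n => by
      rw [← mk_sigma]
      exact not_lt.1 (hmin _ ⟨q n, hT1 (q1 n), s n, s0 n, rfl⟩))
  rw [← mk_sigma] at hm
  obtain ⟨f⟩ := (Cardinal.le_def _ _).1 hm
  have hcb : ∀ d, dist (f d).2.1 (q (f d).1) < s (f d).1 := fun d => e1 _ _ (f d).2.2
  refine ⟨p, hp, δ, hδ0, (min_le_left _ _).trans (min_le_right _ _),
    {d : Σ m, E (ball p r0) m // d.2.1 ∈ ball p δ}, fun i => i.1.2.1, fun i => (f i.1).2.1,
    fun i => min (1 / (m (f i.1).1 + 1 : ℝ)) (s (f i.1).1), fun i => i.2, ?_,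
    fun i => lt_min (by positivity) (s0 _), ?_, ?_, ?_⟩
  · intro y hy ε hε
    obtain ⟨k, hk⟩ := exists_nat_one_div_lt (lt_min hε (sub_pos.2 (mem_ball.1 hy)))
    obtain ⟨e, he, h⟩ := e3 (ball p r0) k y (ball_subset_ball hδ1 hy)
    rw [lt_min_iff] at hk
    exact ⟨⟨⟨k, e, he⟩, by rw [mem_ball]; linarith [dist_triangle e y p]⟩, h.trans hk.1⟩
  · intro i j hij
    have hne : f j.1 ≠ f i.1 := fun h => hij (Subtype.ext (f.injective h)).symm
    have a1 := hcb i.1
    have a2 := hcb j.1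
    beta_reduce
    generalize f i.1 = u at *
    generalize f j.1 = v at *
    obtain ⟨n, u, hu⟩ := u
    obtain ⟨k, v, hv⟩ := v
    by_cases hk : k = n
    · subst hk
      exact (min_le_left _ _).trans (e2 _ _ hv hu fun h => hne (by subst h; rfl))
    · have b1 := s3 n k hk
      have b2 := s3 k n (Ne.symm hk)
      rw [dist_comm] at b2
      refine (min_le_right _ _).trans ?_
      have := dist_triangle4 (q k) v u (q n)
      rw [dist_comm (q k) v] at this
      dsimp only at *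
      linarith
  · intro i z hz
    have a1 := hcb i.1
    refine (min_le_right _ _).trans ?_
    have := dist_triangle4 (q (f i.1).1) (f i.1).2.1 z p
    rw [dist_comm (q _) (f i.1).2.1, dist_comm (f i.1).2.1 z] at this
    linarith [q2 (f i.1).1, s1 (f i.1).1, mem_ball.1 hz]
  · intro z
    obtain ⟨η, h1, h2⟩ := hT3 z
    obtain ⟨M, hM⟩ := exists_nat_one_div_lt (by positivity : 0 < η / 4)
    have hF : ({n | q n ∈ ball z η} ∪ Iic M).Finite :=
      ((h2.preimage q3.injOn).subset fun n hn => ⟨q1 n, hn⟩).union (finite_Iic M)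
    obtain ⟨n0, -, hn0⟩ := exists_min_image _ (fun n => min (1 / (m n + 1 : ℝ)) (s n)) hF
      ⟨0, Or.inr (Nat.zero_le M)⟩
    refine ⟨η / 2, by positivity, min (1 / (m n0 + 1 : ℝ)) (s n0), lt_min (by positivity) (s0 n0),
      fun i => ?_⟩
    by_cases h : (f i.1).1 ∈ {n | q n ∈ ball z η} ∪ Iic M
    · exact Or.inl (hn0 _ h)
    · refine Or.inr fun w hw => (min_le_right _ _).trans ?_
      simp only [mem_union, mem_ofPred_eq, mem_ball, mem_Iic, not_or, not_lt, not_le] at h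
      have a1 := hcb i.1
      have a2 : 1 / ((f i.1).1 + 1 : ℝ) ≤ 1 / (M + 1 : ℝ) :=
        one_div_le_one_div_of_le (by positivity) (by exact_mod_cast Nat.succ_le_succ h.2.le)
      have := dist_triangle4 (q (f i.1).1) (f i.1).2.1 w z
      rw [dist_comm (q _) (f i.1).2.1, dist_comm (f i.1).2.1 w] at this
      linarith [s2 (f i.1).1, mem_ball.1 hw]

theorem remetric {J : Type} (F : J → X → ℝ) (hb : ∀ k z, |F k z| ≤ 2)
    (h1 : ∀ z, ∀ ε > 0, ∃ η > 0, ∀ w ∈ ball z η, ∀ k, |F k w - F k z| ≤ ε)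
    (h2 : ∀ z, ∃ k, ∀ w, F k w = min 1 (dist w z)) :
    ∃ d : X → X → ℝ, Compat inferInstance d ∧
      (∀ k a b, |F k a - F k b| ≤ d a b) ∧
      ∀ a b C, 0 ≤ C → (∀ k, |F k a - F k b| ≤ C) → d a b ≤ C := by
  let Φ : X → lp (fun _ : J => ℝ) ⊤ := fun z => ⟨fun k => F k z,
    memℓp_infty ⟨2, by rintro _ ⟨k, rfl⟩; exact hb k z⟩⟩
  have a1 : ∀ k a b, |F k a - F k b| ≤ dist (Φ a) (Φ b) := fun k a b => by
    rw [dist_eq_norm]; exact lp.norm_apply_le_norm ENNReal.top_ne_zero (Φ a - Φ b) k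
  have a2 : ∀ a b C, 0 ≤ C → (∀ k, |F k a - F k b| ≤ C) → dist (Φ a) (Φ b) ≤ C := fun a b C hC h => by
    rw [dist_eq_norm]; exact lp.norm_le_of_forall_le hC h
  have a3 : ∀ a b, min 1 (dist a b) ≤ dist (Φ a) (Φ b) := fun a b => by
    obtain ⟨k, hk⟩ := h2 b
    have := a1 k a b
    rw [hk, hk, dist_self, min_eq_right zero_le_one, sub_zero] at this
    exact (le_abs_self _).trans this
  have inj : Function.Injective Φ := fun a b h => by
    have := a3 a b
    rw [h, dist_self, min_le_iff] at this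
    exact dist_le_zero.1 (this.resolve_left (by norm_num))
  have ind : IsInducing Φ := by
    refine isInducing_iff_nhds.2 fun z => le_antisymm (ContinuousAt.tendsto ?_).le_comap ?_
    · refine Metric.continuousAt_iff.2 fun ε hε => ?_
      obtain ⟨η, h3, h4⟩ := h1 z (ε / 2) (half_pos hε)
      exact ⟨η, h3, fun w hw => (a2 _ _ _ (half_pos hε).le (h4 w hw)).trans_lt (half_lt_self hε)⟩
    · intro s hs
      obtain ⟨ε, hε, h⟩ := Metric.mem_nhds_iff.1 hs
      refine mem_comap.2 ⟨ball (Φ z) (min 1 ε), ball_mem_nhds _ (lt_min one_pos hε), fun w hw => h ?_⟩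
      have := (a3 w z).trans_lt hw
      rw [lt_min_iff, min_lt_iff, min_lt_iff] at this
      rcases this.2 with h | h
      · exact (this.1.resolve_left (lt_irrefl _)).trans h
      · exact h
  exact ⟨fun a b => dist (Φ a) (Φ b),
    ⟨MetricSpace.induced Φ inj inferInstance, ind.eq_induced.symm, fun _ _ => rfl⟩, a1, a2⟩

theorem good_metric (N : Set X) (hN : IsClosed N) (hc : ¬ IsCompact N) :
    ∃ p ∈ N, ∃ δ > 0, ∃ d : X → X → ℝ, Compat inferInstance d ∧
      ∀ y ∈ ball p δ, ∀ ε > 0, ∃ c t, t < d c y ∧ ∀ z, t ≤ d c z → dist z y < ε := by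
  obtain ⟨p, hp, δ, hδ, hδ1, I, x, c, r, b1, b2, b3, b4, b5, b6⟩ := family N hN hc
  let g : I → X → ℝ := fun i z => min 1 (dist z (c i) / r i)
  have g0 : ∀ i z, 0 ≤ g i z := fun i z => le_min zero_le_one (div_nonneg dist_nonneg (b3 i).le)
  have g1 : ∀ i z, g i z ≤ 1 := fun i z => min_le_left _ _
  have g2 : ∀ i z, r i ≤ dist z (c i) → g i z = 1 := fun i z h =>
    min_eq_left ((one_le_div (b3 i)).2 h)
  let h : I → X → ℝ := fun i z => max 0 (δ - dist z (x i))
  have h0 : ∀ i z, 0 ≤ h i z := fun i z => le_max_left _ _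
  have h1 : ∀ i z, h i z ≤ 1 := fun i z => max_le zero_le_one (by linarith [dist_nonneg (x := z) (y := x i)])
  have h2 : ∀ i k, h k (c i) = 0 := fun i k => by
    refine max_eq_left ?_
    by_contra hh
    have : c i ∈ ball p (2 * δ) := by
      rw [mem_ball]; linarith [dist_triangle (c i) (x k) p, mem_ball.1 (b1 k)]
    have := b5 i _ this
    rw [dist_self] at this
    linarith [b3 i]
  let F : I ⊕ X → X → ℝ := Sum.elim (fun i z => g i z + h i z) fun y z => min 1 (dist z y)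
  have mm : ∀ a b : ℝ, |min 1 a - min 1 b| ≤ |a - b| := fun a b =>
    (abs_min_sub_min_le_max _ _ _ _).trans (by simp)
  obtain ⟨m, m1, m2, m3⟩ := remetric F (by
    rintro (i | y) z
    · exact abs_le.2 ⟨by linarith [g0 i z, h0 i z, show F (.inl i) z = g i z + h i z from rfl],
        by linarith [g1 i z, h1 i z, show F (.inl i) z = g i z + h i z from rfl]⟩
    · exact abs_le.2 ⟨(by norm_num : (-2 : ℝ) ≤ 0).trans (le_min zero_le_one dist_nonneg),
        (min_le_left _ _).trans one_le_two⟩) (by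
    intro z ε hε
    obtain ⟨η, c1, L, c2, c3⟩ := b6 z
    refine ⟨min η (min (ε / 2) (ε / 2 * L)), by positivity, fun w hw => ?_⟩
    simp only [mem_ball, lt_min_iff] at hw
    rintro (i | y)
    · have d1 : |h i w - h i z| ≤ ε / 2 := by
        refine (abs_max_sub_max_le_max _ _ _ _).trans (max_le (by simp; positivity) ?_)
        rw [sub_sub_sub_cancel_left, abs_sub_comm]
        exact (abs_dist_sub_le _ _ _).trans hw.2.1.le
      have d2 : |g i w - g i z| ≤ ε / 2 := by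
        rcases c3 i with c4 | c4
        · refine (mm _ _).trans ?_
          rw [← sub_div, abs_div, abs_of_pos (b3 i), div_le_iff₀ (b3 i)]
          exact (abs_dist_sub_le _ _ _).trans (hw.2.2.le.trans (by gcongr))
        · rw [g2 i w (c4 w hw.1), g2 i z (c4 z (mem_ball_self c1))]; simp; positivity
      show |g i w + h i w - (g i z + h i z)| ≤ ε
      rw [abs_le] at *
      constructor <;> linarith [d1.1, d1.2, d2.1, d2.2]
    · exact (mm _ _).trans ((abs_dist_sub_le _ _ _).trans (by linarith [hw.2.1])))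
    fun z => ⟨.inr z, fun w => rfl⟩
  refine ⟨p, hp, δ, hδ, m, m1, fun y hy ε hε => ?_⟩
  have hε' : 0 < min (ε / 2) (δ / 2) := by positivity
  obtain ⟨i, hi⟩ := b2 y hy _ hε'
  have gc : g i (c i) = 0 := by simp [g]
  refine ⟨c i, 1 + δ - min (ε / 2) (δ / 2), ?_, fun z hz => ?_⟩
  · have := m2 (.inl i) (c i) y
    change |g i (c i) + h i (c i) - (g i y + h i y)| ≤ _ at this
    rw [gc, h2, g2 i y (b5 i y (ball_subset_ball (by linarith) hy))] at this
    have d1 : δ - dist y (x i) ≤ h i y := le_max_right _ _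
    rw [dist_comm] at hi
    linarith [(abs_le.1 this).1]
  · have := m3 (c i) z (1 + h i z) (by linarith [h0 i z]) (by
      rintro (k | y)
      · show |g k (c i) + h k (c i) - (g k z + h k z)| ≤ _
        rw [h2, abs_le]
        by_cases hk : k = i
        · subst hk
          rw [gc]
          constructor <;> linarith [g0 k z, g1 k z, h0 k z]
        · rw [g2 k _ (b4 k i hk)]
          constructor <;> linarith [g0 k z, g1 k z, h0 k z, h1 k z, h0 i z]
      · show |min 1 _ - min 1 _| ≤ _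
        rw [abs_le]
        constructor <;> linarith [min_le_left 1 (dist z y), min_le_left 1 (dist (c i) y), h0 i z,
          le_min zero_le_one (dist_nonneg (x := z) (y := y)),
          le_min zero_le_one (dist_nonneg (x := c i) (y := y))])
    have d1 : δ - min (ε / 2) (δ / 2) ≤ h i z := by linarith
    have d2 := min_le_left (ε / 2) (δ / 2)
    have d3 := min_le_right (ε / 2) (δ / 2)
    rcases le_max_iff.1 d1 with d4 | d4
    · linarith
    · linarith [dist_triangle z (x i) y]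

end Pool.Agent.H18.Wij
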